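import Pool.Agent.CHW.Jm
import Pool.Agent.TS.StepLip
import Pool.Agent.ISO.Small

/-!
# CHW/DpM: the shift near infinity   (difficulty 2)

`DP c x = x + (tau c * stp 3 43 (rr x), 0)`.

* `tau_bounds`: `tau c = 1 + 2c²/(1 - c²)`.
* `DP_perm`: `ISO.small_perm` with `G x = ((tau c * stp 3 43 (rr x) : ℂ), 0)`.  `G` is smooth (`= 0` for `rr x < 3`, `rr` is smooth off `0`).  The Lipschitz
  constant: `|G x - G y| ≤ tau c * (8/40) * |rr x - rr y| ≤ 1.03 * 0.2 * rr (x - y) ≤ 1.03 * 0.2 * √2 * ‖x - y‖ ≤ ‖x - y‖ / 2`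
  (`TS.stp_lip`, `rr_lip`; `rr z ≤ √2 ‖z‖` for the sup norm `‖z‖` of `ℂ × ℝ`), so `‖fderiv G‖ ≤ 1/2` (`norm_fderiv_le_of_lipschitz`).
* `DP_ge`: `DP x = x` for `rr x ≤ 3` and `DP` is injective: if `q2 x ≥ 1` and `q2 (DP x) < 1` then `DP (DP x) = DP x`, so `DP x = x`, contradiction.
* `DPi = Function.invFun (DP c)`: two-sided inverse as `DP c` is bijective.
-/

open scoped Manifold ContDiff Topology
open Set Filter
open Complex (I normSq)

namespace Pool.Agent.CHW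

open Pool.Agent.CSG (stp thc)
open Pool.Agent.RSG (ex)

variable {c : ℝ}

theorem DpM_sq (h0 : 0 < c) (h1 : c ≤ 1 / 10) : 0 < c ^ 2 ∧ c ^ 2 ≤ 1 / 100 := by
  constructor
  · positivity
  · nlinarith

theorem tau_bounds (h0 : 0 < c) (h1 : c ≤ 1 / 10) :
    1 + 2 * c ^ 2 ≤ tau c ∧ tau c ≤ 1 + 21 / 10 * c ^ 2 ∧ tau c ≤ 103 / 100 := by
  obtain ⟨h2, h3⟩ := DpM_sq h0 h1
  have h4 : 0 < 1 - c ^ 2 := by linarith
  unfold tau
  refine ⟨?_, ?_, ?_⟩
  · rw [le_div_iff₀ h4]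
    nlinarith
  · rw [div_le_iff₀ h4]
    nlinarith
  · rw [div_le_iff₀ h4]
    nlinarith

theorem gam_pos (h0 : 0 < c) (h1 : c ≤ 1 / 10) :
    0 < gam c ∧ 99 / 20 ≤ gam c ∧ 1 / gam c = 2 * c / (1 - c ^ 2) := by
  obtain ⟨h2, h3⟩ := DpM_sq h0 h1
  have h4 : 0 < 1 - c ^ 2 := by linarith
  unfold gam
  refine ⟨by positivity, ?_, one_div_div _ _⟩
  rw [le_div_iff₀ (by linarith)]
  nlinarith

/-- `tau² = 1 + 1/gam²` -/
theorem tau_gam (h0 : 0 < c) (h1 : c ≤ 1 / 10) : tau c ^ 2 = 1 + (1 / gam c) ^ 2 := by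
  obtain ⟨h2, h3⟩ := DpM_sq h0 h1
  have h4 : 1 - c ^ 2 ≠ 0 := by linarith
  rw [(gam_pos h0 h1).2.2, tau]
  field_simp
  ring

theorem DpM_rr_le (z : F3) : rr z ≤ 3 / 2 * ‖z‖ := by
  have hz := norm_nonneg z
  rw [rr_le_iff (by positivity)]
  have h1 : ‖z.1‖ ≤ ‖z‖ := norm_fst_le z
  have h2 : |z.2| ≤ ‖z‖ := by
    have := norm_snd_le z
    rwa [Real.norm_eq_abs] at this
  have h3 : normSq z.1 = ‖z.1‖ ^ 2 := Complex.normSq_eq_norm_sq _
  have h4 : ‖z.1‖ ^ 2 ≤ ‖z‖ ^ 2 := pow_le_pow_left₀ (norm_nonneg _) h1 2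
  have h5 : z.2 ^ 2 ≤ ‖z‖ ^ 2 := by
    rw [← sq_abs z.2]
    exact pow_le_pow_left₀ (abs_nonneg _) h2 2
  unfold q2
  rw [h3]
  nlinarith

/-- the shift vector -/
noncomputable def DpM_G (c : ℝ) (x : F3) : F3 := (((tau c * stp 3 43 (rr x) : ℝ) : ℂ), 0)

theorem DpM_G_smooth (c : ℝ) : ContDiff ℝ ∞ (DpM_G c) := by
  rw [contDiff_iff_contDiffAt]
  intro x
  rcases lt_or_ge (rr x) 3 with h | h
  · have h1 : DpM_G c =ᶠ[𝓝 x] fun _ => (0 : F3) := by
      filter_upwards [rr_cont.continuousAt.eventually (Iio_mem_nhds h)] with y hy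
      have hy' : rr y ≤ 3 := le_of_lt hy
      unfold DpM_G
      rw [CSG.stp_zero (by norm_num) hy']
      simp
    exact contDiffAt_const.congr_of_eventuallyEq h1
  · have hx : x ≠ 0 := by
      rintro rfl
      rw [rr_eq_zero.2 rfl] at h
      linarith
    have h1 : ContDiffAt ℝ ∞ (fun y : F3 => tau c * stp 3 43 (rr y)) x :=
      contDiffAt_const.mul ((CSG.stp_smooth 3 43).contDiffAt.comp x (rr_smooth hx))
    have h2 : ContDiffAt ℝ ∞ (fun y : F3 => ((tau c * stp 3 43 (rr y) : ℝ) : ℂ)) x :=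
      Complex.ofRealCLM.contDiff.contDiffAt.comp x h1
    exact h2.prodMk contDiffAt_const

theorem DpM_G_lip (h0 : 0 < c) (h1 : c ≤ 1 / 10) (x y : F3) :
    ‖DpM_G c x - DpM_G c y‖ ≤ 1 / 2 * ‖x - y‖ := by
  obtain ⟨t1, t2, t3⟩ := tau_bounds h0 h1
  have t0 : 0 < tau c := by nlinarith [sq_nonneg c]
  have e : DpM_G c x - DpM_G c y =
      (((tau c * (stp 3 43 (rr x) - stp 3 43 (rr y)) : ℝ) : ℂ), (0 : ℝ)) := by
    unfold DpM_G
    apply Prod.ext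
    · simp only [Prod.fst_sub]
      push_cast
      ring
    · simp
  rw [e, Prod.norm_mk, norm_zero, max_eq_left (norm_nonneg _), Complex.norm_real,
    Real.norm_eq_abs, abs_mul, abs_of_pos t0]
  have h2 := TS.stp_lip (a := 3) (b := 43) (by norm_num) (rr x) (rr y)
  have h3 := rr_lip x y
  have h4 := DpM_rr_le (x - y)
  have h5 : |stp 3 43 (rr x) - stp 3 43 (rr y)| ≤ 3 / 10 * ‖x - y‖ := by
    have h6 : (8 : ℝ) / (43 - 3) = 1 / 5 := by norm_num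
    rw [h6] at h2
    linarith
  have h7 := norm_nonneg (x - y)
  calc tau c * |stp 3 43 (rr x) - stp 3 43 (rr y)| ≤ 103 / 100 * (3 / 10 * ‖x - y‖) :=
        mul_le_mul t3 h5 (abs_nonneg _) (by norm_num)
    _ ≤ 1 / 2 * ‖x - y‖ := by linarith

theorem DP_perm (h0 : 0 < c) (h1 : c ≤ 1 / 10) :
    ∃ F : Equiv.Perm F3, ContDiff ℝ ∞ F ∧ ContDiff ℝ ∞ F.symm ∧ ∀ x, F x = DP c x := by
  have hL : LipschitzWith (1 / 2 : NNReal) (DpM_G c) := by
    apply LipschitzWith.of_dist_le_mul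
    intro x y
    rw [dist_eq_norm, dist_eq_norm]
    have := DpM_G_lip h0 h1 x y
    simpa using this
  obtain ⟨F, hF1, hF2, hF3⟩ := ISO.small_perm (DpM_G_smooth c) (by
    intro x
    have := norm_fderiv_le_of_lipschitz ℝ (x₀ := x) hL
    simpa using this)
  refine ⟨F, hF1, hF2, fun x => ?_⟩
  rw [hF3]
  unfold DP tv DpM_G
  apply Prod.ext
  · simp
  · simp

theorem DP_id {x : F3} (h : rr x ≤ 3) : DP c x = x := by
  unfold DP
  rw [CSG.stp_zero (by norm_num) h, mul_zero, tv_zero]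

theorem DP_far {x : F3} (h : 43 ≤ rr x) : DP c x = tv (tau c) x := by
  unfold DP
  rw [CSG.stp_one (by norm_num) h, mul_one]

theorem DP_snd (x : F3) : (DP c x).2 = x.2 := rfl

theorem DP_ld (h0 : 0 < c) (h1 : c ≤ 1 / 10) (x : F3) : LD (DP c) x := by
  obtain ⟨F, hF1, hF2, hF3⟩ := DP_perm h0 h1
  have h2 : DP c = F := funext fun y => (hF3 y).symm
  rw [h2]
  exact CSG.ld_of_perm hF1 hF2 x

theorem DP_inj (h0 : 0 < c) (h1 : c ≤ 1 / 10) : Function.Injective (DP c) := by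
  obtain ⟨F, hF1, hF2, hF3⟩ := DP_perm h0 h1
  have h2 : DP c = F := funext fun y => (hF3 y).symm
  rw [h2]
  exact F.injective

theorem DpM_rr_of {x : F3} (h : q2 x < 1) : rr x ≤ 3 := by
  rw [rr_le_iff (by norm_num)]
  linarith

theorem DP_ge (h0 : 0 < c) (h1 : c ≤ 1 / 10) (x : F3) : 1 ≤ q2 (DP c x) ↔ 1 ≤ q2 x := by
  constructor
  · intro h
    by_contra hc
    push Not at hc
    rw [DP_id (DpM_rr_of hc)] at h
    linarith
  · intro h
    by_contra hc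
    push Not at hc
    have h2 := DP_id (c := c) (DpM_rr_of hc)
    have h3 := DP_inj h0 h1 h2
    rw [h3] at hc
    linarith

theorem DP_mir (x : F3) : DP c (mir x) = mir (DP c x) := by
  unfold DP
  rw [rr_mir]
  rfl

theorem DP_cjv (x : F3) : DP c (cjv x) = cjv (DP c x) := by
  unfold DP
  rw [rr_cjv]
  unfold tv cjv
  apply Prod.ext
  · simp
  · simp

theorem DPi_DP (h0 : 0 < c) (h1 : c ≤ 1 / 10) (x : F3) : DPi c (DP c x) = x :=
  Function.leftInverse_invFun (DP_inj h0 h1) x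

theorem DpM_surj (h0 : 0 < c) (h1 : c ≤ 1 / 10) : Function.Surjective (DP c) := by
  obtain ⟨F, hF1, hF2, hF3⟩ := DP_perm h0 h1
  have h2 : DP c = F := funext fun y => (hF3 y).symm
  rw [h2]
  exact F.surjective

theorem DP_DPi (h0 : 0 < c) (h1 : c ≤ 1 / 10) (x : F3) : DP c (DPi c x) = x :=
  Function.rightInverse_invFun (DpM_surj h0 h1) x

theorem DPi_ld (h0 : 0 < c) (h1 : c ≤ 1 / 10) (x : F3) : LD (DPi c) x := by
  obtain ⟨F, hF1, hF2, hF3⟩ := DP_perm h0 h1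
  have h2 : DPi c = F.symm := by
    funext y
    apply DP_inj h0 h1
    rw [DP_DPi h0 h1, ← hF3, Equiv.apply_symm_apply]
  rw [h2]
  exact CSG.ld_of_perm (f := F.symm) hF2 (by simpa using hF1) x

end Pool.Agent.CHW
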