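import Pool.Agent.CHW.Jm

/-!
# CHW/SyM: extension by the symmetry `Jv`   (difficulty 2)

`sy f x = f x` for `1 ≤ q2 x`, `Jv (f (Jv x))` for `q2 x < 1`.

* near the unit sphere `sy f` is the identity: for `1 ≤ q2 x ≤ 1 + η` by `id`; for `(1 + η)⁻¹ ≤ q2 x < 1`, `q2 (Jv x) = (q2 x)⁻¹ ∈ (1, 1 + η]`, so
  `f (Jv x) = Jv x` and `Jv (Jv x) = x`.
* `sy_ld`: `q2 x > 1`: `sy f = f` near `x`; `q2 x = 1`: `sy f = id` near `x`; `q2 x < 1`, `x ≠ 0`: `sy f = Jv ∘ f ∘ Jv` near `x`, with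
  `f (Jv x) ≠ 0` (its `q2` is `≥ 1` by `im`).
* sides: if `1 ≤ q2 x`, `x ∈ D` then `1 ≤ q2 (f x)` (`im`); if moreover `1 < q2 x` then `1 < q2 (f x)`: otherwise `q2 (f x) = 1`, `f (f x) = f x` and
  `f x ∈ D`, so `f x = x` by `inj`.
* `sy_inj`, `sy_image`, `sy_Jv`: distinguish the sides.  For `sy_Jv`, `x ≠ 0`: if `q2 x > 1`, `q2 (Jv x) < 1`: `sy f (Jv x) = Jv (f (Jv (Jv x))) = Jv (f x)`;
  `q2 x < 1`: `sy f (Jv x) = f (Jv x)` and `Jv (sy f x) = Jv (Jv (f (Jv x)))`; `q2 x = 1`: both sides are `Jv x`.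
* `SyOK.inv`: a point `y ∈ R` with `1 < q2 y` is `f x`, `x ∈ D`, `1 < q2 x` (if `q2 x = 1` then `f x = x`); `g ∘ f = id` on the open set
  `D ∩ {1 < q2}`, so `g` is a local diffeomorphism at `f x` (`CSG.ld_of_comp_left`).
-/

open scoped Manifold ContDiff Topology
open Set Filter
open Complex (I normSq)

namespace Pool.Agent.CHW

open Pool.Agent.CSG (stp thc)
open Pool.Agent.RSG (ex)

/-- symmetric extension of a set -/
def Sm (D : Set F3) : Set F3 := {x | x ≠ 0 ∧ (1 ≤ q2 x → x ∈ D) ∧ (q2 x ≤ 1 → Jv x ∈ D)}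

/-- hypotheses on `f` -/
structure SyOK (f : F3 → F3) (D R : Set F3) : Prop where
  opD : IsOpen D
  opR : IsOpen R
  id : ∃ η : ℝ, 0 < η ∧ ∀ x, 1 ≤ q2 x → q2 x ≤ 1 + η → x ∈ D ∧ f x = x
  ld : ∀ x ∈ D, 1 < q2 x → LD f x
  inj : InjOn f {x | x ∈ D ∧ 1 ≤ q2 x}
  im : f '' {x | x ∈ D ∧ 1 ≤ q2 x} = {y | y ∈ R ∧ 1 ≤ q2 y}

variable {f : F3 → F3} {D R : Set F3}

theorem sy_big {x : F3} (hx : 1 ≤ q2 x) : sy f x = f x := by
  unfold sy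
  rw [if_pos hx]
theorem sy_small {x : F3} (hx : q2 x < 1) : sy f x = Jv (f (Jv x)) := by
  unfold sy
  rw [if_neg (not_le.2 hx)]

theorem SyM_one_le {x : F3} (hx : x ≠ 0) : 1 ≤ q2 (Jv x) ↔ q2 x ≤ 1 := by
  rw [q2_Jv]
  exact one_le_inv₀ (q2_pos hx)

theorem SyM_le_one {x : F3} (hx : x ≠ 0) : q2 (Jv x) ≤ 1 ↔ 1 ≤ q2 x := by
  rw [q2_Jv]
  exact inv_le_one₀ (q2_pos hx)

theorem SyM_one_lt {x : F3} (hx : x ≠ 0) : 1 < q2 (Jv x) ↔ q2 x < 1 := by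
  rw [← not_le, SyM_le_one hx, not_le]

theorem SyM_lt_one {x : F3} (hx : x ≠ 0) : q2 (Jv x) < 1 ↔ 1 < q2 x := by
  rw [← not_le, SyM_one_le hx, not_le]

theorem SyM_ne {x : F3} (hx : 1 ≤ q2 x) : x ≠ 0 := by
  intro h
  rw [q2_eq_zero.2 h] at hx
  linarith
theorem Jv_mem_Sm {x : F3} (hx : x ∈ Sm D) : Jv x ∈ Sm D := by
  obtain ⟨h0, h1, h2⟩ := hx
  refine ⟨Jv_ne h0, fun h => h2 ((SyM_one_le h0).1 h), fun h => ?_⟩
  rw [Jv_Jv]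
  exact h1 ((SyM_le_one h0).1 h)

theorem SyM_one (h : SyOK f D R) {x : F3} (hx : q2 x = 1) : x ∈ D ∧ f x = x := by
  obtain ⟨η, hη, hid⟩ := h.id
  exact hid x hx.ge (by linarith)

theorem SyM_id (h : SyOK f D R) :
    ∃ η : ℝ, 0 < η ∧ ∀ x, (1 + η)⁻¹ ≤ q2 x → q2 x ≤ 1 + η → sy f x = x := by
  obtain ⟨η, hη, hid⟩ := h.id
  refine ⟨η, hη, fun x h1 h2 => ?_⟩
  by_cases hx : 1 ≤ q2 x
  · rw [sy_big hx]
    exact (hid x hx h2).2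
  · have hx' := not_le.1 hx
    have hp : 0 < q2 x := lt_of_lt_of_le (inv_pos.2 (by linarith)) h1
    have h0 : x ≠ 0 := fun hh => by rw [q2_eq_zero.2 hh] at hp; exact lt_irrefl _ hp
    rw [sy_small hx', (hid (Jv x) ((SyM_one_le h0).2 hx'.le) ?_).2, Jv_Jv]
    rw [q2_Jv]
    exact (inv_le_comm₀ (by linarith) hp).1 h1

theorem SyM_ge (h : SyOK f D R) {x : F3} (hx : x ∈ D) (h1 : 1 ≤ q2 x) :
    f x ∈ R ∧ 1 ≤ q2 (f x) := by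
  have h2 : f x ∈ f '' {x | x ∈ D ∧ 1 ≤ q2 x} := ⟨x, ⟨hx, h1⟩, rfl⟩
  rw [h.im] at h2
  exact h2

theorem SyM_gt (h : SyOK f D R) {x : F3} (hx : x ∈ D) (h1 : 1 < q2 x) : 1 < q2 (f x) := by
  refine lt_of_le_of_ne (SyM_ge h hx h1.le).2 ?_
  intro h2
  obtain ⟨h3, h4⟩ := SyM_one h h2.symm
  have h5 : f x = x := h.inj ⟨h3, h2.le⟩ ⟨hx, h1.le⟩ h4
  rw [h5] at h2
  exact lt_irrefl _ (h2 ▸ h1)

theorem SyM_R (h : SyOK f D R) {x : F3} (hx : q2 x = 1) : x ∈ R := by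
  obtain ⟨h1, h2⟩ := SyM_one h hx
  have h3 := (SyM_ge h h1 hx.ge).1
  rwa [h2] at h3

theorem SyM_memD (h : SyOK f D R) {x : F3} (hx : x ∈ D) (h1 : 1 ≤ q2 x) : x ∈ Sm D := by
  have h0 := SyM_ne h1
  refine ⟨h0, fun _ => hx, fun h2 => ?_⟩
  exact (SyM_one h (x := Jv x) (le_antisymm ((SyM_le_one h0).2 h1) ((SyM_one_le h0).2 h2))).1

theorem SyM_memR (h : SyOK f D R) {x : F3} (hx : x ∈ R) (h1 : 1 ≤ q2 x) : x ∈ Sm R := by
  have h0 := SyM_ne h1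
  refine ⟨h0, fun _ => hx, fun h2 => ?_⟩
  exact SyM_R h (x := Jv x) (le_antisymm ((SyM_le_one h0).2 h1) ((SyM_one_le h0).2 h2))

theorem SyM_pre (h : SyOK f D R) {y : F3} (hy : y ∈ R) (h1 : 1 < q2 y) :
    ∃ x ∈ D, 1 < q2 x ∧ f x = y := by
  have h2 : y ∈ f '' {x | x ∈ D ∧ 1 ≤ q2 x} := by
    rw [h.im]
    exact ⟨hy, h1.le⟩
  obtain ⟨x, ⟨hx, hx1⟩, rfl⟩ := h2
  refine ⟨x, hx, lt_of_le_of_ne hx1 ?_, rfl⟩
  intro h3
  rw [(SyM_one h h3.symm).2] at h1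
  exact lt_irrefl _ (h3 ▸ h1)

theorem SyM_small (h : SyOK f D R) {x : F3} (hx : x ∈ Sm D) (h1 : q2 x < 1) :
    Jv x ∈ D ∧ 1 < q2 (Jv x) ∧ 1 < q2 (f (Jv x)) ∧ q2 (sy f x) < 1 := by
  have h2 := hx.2.2 h1.le
  have h3 := (SyM_one_lt hx.1).2 h1
  have h4 := SyM_gt h h2 h3
  refine ⟨h2, h3, h4, ?_⟩
  rw [sy_small h1]
  exact (SyM_lt_one (SyM_ne h4.le)).2 h4
theorem SyOK.ld' (h : SyOK f D R) {x : F3} (hx : x ∈ Sm D) : LD (sy f) x := by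
  have hc : ContinuousAt q2 x := q2_smooth.continuous.continuousAt
  rcases lt_trichotomy (q2 x) 1 with h1 | h1 | h1
  · obtain ⟨h2, h3, h4, -⟩ := SyM_small h hx h1
    have e1 : sy f =ᶠ[𝓝 x] Jv ∘ f ∘ Jv := by
      filter_upwards [hc.eventually_lt_const h1] with y hy
      exact sy_small hy
    refine CSG.ld_congr ?_ e1
    have l1 : LD (f ∘ Jv) x :=
      IsLocalDiffeomorphAt.comp (hf := Jv_ld hx.1) (hg := h.ld (Jv x) h2 h3) ..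
    exact IsLocalDiffeomorphAt.comp (hf := l1) (hg := Jv_ld (SyM_ne h4.le)) ..
  · obtain ⟨η, hη, hid⟩ := SyM_id h
    have e1 : sy f =ᶠ[𝓝 x] _root_.id := by
      have l1 : (1 + η)⁻¹ < q2 x := by
        rw [h1]
        exact inv_lt_one_of_one_lt₀ (by linarith)
      have l2 : q2 x < 1 + η := by linarith
      filter_upwards [hc.eventually_const_lt l1, hc.eventually_lt_const l2] with y hy1 hy2
      exact hid y hy1.le hy2.le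
    exact CSG.ld_congr (CSG.ld_id x) e1
  · have e1 : sy f =ᶠ[𝓝 x] f := by
      filter_upwards [hc.eventually_const_lt h1] with y hy
      exact sy_big hy.le
    exact CSG.ld_congr (h.ld x (hx.2.1 h1.le) h1) e1

theorem SyM_side (h : SyOK f D R) {x : F3} (hx : x ∈ Sm D) : 1 ≤ q2 (sy f x) ↔ 1 ≤ q2 x := by
  constructor
  · intro h1
    by_contra h2
    have h3 := (SyM_small h hx (not_le.1 h2)).2.2.2
    linarith
  · intro h1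
    rw [sy_big h1]
    exact (SyM_ge h (hx.2.1 h1) h1).2
theorem SyOK.inj' (h : SyOK f D R) : InjOn (sy f) (Sm D) := by
  intro x hx y hy hxy
  have h1 : 1 ≤ q2 x ↔ 1 ≤ q2 y := by rw [← SyM_side h hx, ← SyM_side h hy, hxy]
  by_cases h2 : 1 ≤ q2 x
  · have h3 := h1.1 h2
    rw [sy_big h2, sy_big h3] at hxy
    exact h.inj ⟨hx.2.1 h2, h2⟩ ⟨hy.2.1 h3, h3⟩ hxy
  · have h3 : q2 y < 1 := not_le.1 fun hh => h2 (h1.2 hh)
    have h2' := not_le.1 h2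
    rw [sy_small h2', sy_small h3] at hxy
    have h4 : f (Jv x) = f (Jv y) := by rw [← Jv_Jv (f (Jv x)), hxy, Jv_Jv]
    obtain ⟨k1, k2, -, -⟩ := SyM_small h hx h2'
    obtain ⟨k3, k4, -, -⟩ := SyM_small h hy h3
    have h5 := h.inj ⟨k1, k2.le⟩ ⟨k3, k4.le⟩ h4
    rw [← Jv_Jv x, h5, Jv_Jv]
theorem SyOK.im' (h : SyOK f D R) : sy f '' Sm D = Sm R := by
  apply Subset.antisymm
  · rintro _ ⟨x, hx, rfl⟩
    by_cases h1 : 1 ≤ q2 x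
    · rw [sy_big h1]
      obtain ⟨h2, h3⟩ := SyM_ge h (hx.2.1 h1) h1
      exact SyM_memR h h2 h3
    · have h1' := not_le.1 h1
      rw [sy_small h1']
      obtain ⟨k1, k2, k3, -⟩ := SyM_small h hx h1'
      exact Jv_mem_Sm (SyM_memR h (SyM_ge h k1 k2.le).1 k3.le)
  · intro y hy
    by_cases h1 : 1 ≤ q2 y
    · have h2 : y ∈ f '' {x | x ∈ D ∧ 1 ≤ q2 x} := by
        rw [h.im]
        exact ⟨hy.2.1 h1, h1⟩
      obtain ⟨x, ⟨hx, hx1⟩, rfl⟩ := h2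
      exact ⟨x, SyM_memD h hx hx1, sy_big hx1⟩
    · have h1' := not_le.1 h1
      obtain ⟨x, hx, hx1, hxy⟩ := SyM_pre h (hy.2.2 h1'.le) ((SyM_one_lt hy.1).2 h1')
      refine ⟨Jv x, Jv_mem_Sm (SyM_memD h hx hx1.le), ?_⟩
      rw [sy_small ((SyM_lt_one (SyM_ne hx1.le)).2 hx1), Jv_Jv, hxy, Jv_Jv]
theorem SyOK.symm (h : SyOK f D R) {x : F3} (hx : x ∈ Sm D) : sy f (Jv x) = Jv (sy f x) := by
  rcases lt_trichotomy (q2 x) 1 with h1 | h1 | h1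
  · rw [sy_big ((SyM_one_lt hx.1).2 h1).le, sy_small h1, Jv_Jv]
  · have h2 : q2 (Jv x) = 1 := by rw [q2_Jv, h1, inv_one]
    rw [sy_big h2.ge, sy_big h1.ge, (SyM_one h h1).2, (SyM_one h h2).2]
  · rw [sy_small ((SyM_lt_one hx.1).2 h1), sy_big h1.le, Jv_Jv]
/-- the sides are preserved -/
theorem SyOK.side (h : SyOK f D R) {x : F3} (hx : x ∈ Sm D) : 1 ≤ q2 (sy f x) ↔ 1 ≤ q2 x :=
  SyM_side h hx
/-- The inverse has the same properties. -/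
theorem SyOK.inv {g : F3 → F3} (h : SyOK f D R) (hg : ∀ x ∈ D, 1 ≤ q2 x → g (f x) = x) :
    SyOK g R D ∧ (∀ x ∈ Sm D, sy g (sy f x) = x) ∧ ∀ y ∈ Sm R, sy f (sy g y) = y := by
  have key : ∀ x ∈ Sm D, sy g (sy f x) = x := by
    intro x hx
    by_cases h1 : 1 ≤ q2 x
    · rw [sy_big h1, sy_big (SyM_ge h (hx.2.1 h1) h1).2]
      exact hg x (hx.2.1 h1) h1
    · have h1' := not_le.1 h1
      obtain ⟨k1, k2, k3, k4⟩ := SyM_small h hx h1'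
      rw [sy_small k4, sy_small h1', Jv_Jv, hg _ k1 k2.le, Jv_Jv]
  refine ⟨?_, key, ?_⟩
  · refine ⟨h.opR, h.opD, ?_, ?_, ?_, ?_⟩
    · obtain ⟨η, hη, hid⟩ := h.id
      refine ⟨η, hη, fun y h1 h2 => ?_⟩
      obtain ⟨h3, h4⟩ := hid y h1 h2
      have h5 := (SyM_ge h h3 h1).1
      have h6 := hg y h3 h1
      rw [h4] at h5 h6
      exact ⟨h5, h6⟩
    · intro y hy h1
      obtain ⟨x, hx, hx1, rfl⟩ := SyM_pre h hy h1
      refine CSG.ld_of_comp_left ?_ (h.ld x hx hx1)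
      refine CSG.ld_congr (CSG.ld_id x) ?_
      have hc : ContinuousAt q2 x := q2_smooth.continuous.continuousAt
      filter_upwards [hc.eventually_const_lt hx1, h.opD.mem_nhds hx] with z hz1 hz2
      exact hg z hz2 hz1.le
    · rintro y1 ⟨hy1, hq1⟩ y2 ⟨hy2, hq2⟩ he
      have m1 : y1 ∈ f '' {x | x ∈ D ∧ 1 ≤ q2 x} := by
        rw [h.im]
        exact ⟨hy1, hq1⟩
      have m2 : y2 ∈ f '' {x | x ∈ D ∧ 1 ≤ q2 x} := by
        rw [h.im]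
        exact ⟨hy2, hq2⟩
      obtain ⟨x1, ⟨a1, b1⟩, rfl⟩ := m1
      obtain ⟨x2, ⟨a2, b2⟩, rfl⟩ := m2
      rw [hg x1 a1 b1, hg x2 a2 b2] at he
      rw [he]
    · apply Subset.antisymm
      · rintro _ ⟨y, hy, rfl⟩
        have m1 : y ∈ f '' {x | x ∈ D ∧ 1 ≤ q2 x} := by
          rw [h.im]
          exact hy
        obtain ⟨x1, ⟨a1, b1⟩, rfl⟩ := m1
        rw [hg x1 a1 b1]
        exact ⟨a1, b1⟩
      · rintro x ⟨hx, hx1⟩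
        exact ⟨f x, SyM_ge h hx hx1, hg x hx hx1⟩
  · intro y hy
    rw [← h.im'] at hy
    obtain ⟨x, hx, rfl⟩ := hy
    rw [key x hx]

end Pool.Agent.CHW
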