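import Pool.Agent.CHW.OpM
import Pool.Agent.CHW.DpM
import Pool.Agent.CHW.SyM

/-!
# CHW/AaM: the map `A`   (difficulty 2)

`AP c = DP c ∘ Jv ∘ Op ∘ Jv` on `1 ≤ q2 x`, `rr x < 2000`; `A c = sy (AP c)`, `Ai c = sy (APi c)`, `APi c = Jv ∘ Opi ∘ Jv ∘ DPi c`.

* `AP_ok`: `SyOK (AP c) {x | rr x < 2000} {y | ¬ (y.1 = tau c ∧ 1000 ≤ |y.2|)}`.  `id`: `η = 8`: for `rr x ≤ 3`, `rr (Jv x) ≥ 1/3 ≥ 43/2000`, so `Op = id`, then `DP = id`.
  `Jv` : `{1 ≤ rr x < 2000} → {1/2000 < rr ≤ 1}` (bijection), `Op` : → `{rr y ≤ 1} ∩ {y.1 ≠ 0 ∨ 1/1000 < |y.2|}` (`Op_inj`, `Op_Opi`, `Op_le_one`),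
  `Jv` : → `{1 ≤ rr y} ∩ {y.1 ≠ 0 ∨ |y.2| < 1000}` (if `y.1 = 0` then `Jv y = (0, 1/y.2)`; note that `Op x ≠ 0`), `DP` : bijection of `{1 ≤ rr}`
  (`DP_ge`); if `|y.2| ≥ 1000` then `DP y = tv tau y`, so `(DP y).1 = tau` iff `y.1 = 0`; and `(DP y).2 = y.2`.
* `A_mem`, `Ai_A` ..: `Sh = Sm {x | rr x < 2000}` and `(SlA c)ᶜ = Sm {y | ¬ (y.1 = tau c ∧ 1000 ≤ |y.2|)}` : if `q2 y > 1`... note that
  `(Jv y).1 = tau, |(Jv y).2| ≥ 1000` implies `q2 (Jv y) > 1`, so `q2 y < 1`.  Then `SyOK.inv`.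
* `A_far`: `rr (Jv x) ≤ 3/2000`: `Op_exact`, `1 / q2 (Jv x) = q2 x`, `Jv`, and `rr (Jv (Op (Jv x))) ≥ 43` as `rr (Op (Jv x)) < 43/2000` .. : by
  `Op_exact`, `rr (Op z) ≤ (1 + (1/2000)²/q2 z) rr z ≤ 2 rr z ≤ 6/2000 < 1/43` for `1/2000 < rr z ≤ 3/2000`.
* signs: every factor keeps the sign of the height.
-/

open scoped Manifold ContDiff Topology
open Set Filter
open Complex (I normSq)

namespace Pool.Agent.CHW

open Pool.Agent.CSG (stp thc)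
open Pool.Agent.RSG (ex)

variable {c : ℝ}

theorem AaM_pos {x : F3} (h : 1 ≤ q2 x) : x ≠ 0 := by
  rintro rfl
  rw [q2_eq_zero.2 rfl] at h
  linarith

theorem AaM_one_le {x : F3} : 1 ≤ q2 x ↔ 1 ≤ rr x := by
  rw [← rr_sq]
  have := rr_nonneg x
  constructor
  · intro h
    nlinarith
  · intro h
    nlinarith

theorem AaM_le_one {x : F3} : q2 x ≤ 1 ↔ rr x ≤ 1 := by
  rw [← rr_sq]
  have := rr_nonneg x
  constructor
  · intro h
    nlinarith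
  · intro h
    nlinarith

/-- `rr (Jv x)` and `rr x` -/
theorem AaM_inv_lt {r a : ℝ} (ha : 0 < a) (hr : 0 < r) : r⁻¹ < a ↔ a⁻¹ < r := inv_lt_comm₀ hr ha

theorem AaM_id {x : F3} (hx : x ≠ 0) (h : rr x ≤ 3) : AP c x = x := by
  have h1 : 43 / 2000 ≤ rr (Jv x) := by
    rw [rr_Jv, le_inv_comm₀ (by norm_num) (rr_pos hx)]
    linarith
  unfold AP
  rw [Op_id h1, Jv_Jv, DP_id h]

theorem AaM_Jv_inj {x y : F3} (h : Jv x = Jv y) : x = y := by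
  rw [← Jv_Jv x, h, Jv_Jv]

theorem AaM_Jv_gt {x : F3} (hx : x ≠ 0) (h : rr x < 2000) : 1 / 2000 < rr (Jv x) := by
  rw [rr_Jv, lt_inv_comm₀ (by norm_num) (rr_pos hx)]
  linarith

theorem AaM_axis {x : F3} (h : x.1 = 0) : (Jv x).1 = 0 ∧ (Jv x).2 = (x.2)⁻¹ := by
  constructor
  · unfold Jv
    simp [h]
  · unfold Jv q2
    simp only [h, map_zero, zero_add]
    rcases eq_or_ne x.2 0 with h0 | h0
    · rw [h0]
      simp
    · field_simp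

theorem AaM_far {x : F3} (h1 : 1 / 2000 < rr x) (h2 : rr x ≤ 3 / 2000) :
    43 ≤ rr (Jv (Op x)) := by
  have h3 := rr_pos (Op_ne h1)
  rw [rr_Jv, le_inv_comm₀ (by norm_num) h3, rr_le_iff (by norm_num), Op_exact h2]
  have hr := rr_sq x
  have hq : (1 / 2000) ^ 2 < q2 x := by
    rw [← hr]
    nlinarith
  have hq2 : q2 x ≤ (3 / 2000) ^ 2 := by
    rw [← hr]
    nlinarith [rr_nonneg x]
  have hq0 : 0 < q2 x := by nlinarith
  have hk0 : 0 < (1 / 2000 : ℝ) ^ 2 / q2 x := by positivity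
  have hk1 : (1 / 2000 : ℝ) ^ 2 / q2 x < 1 := by
    rw [div_lt_one hq0]
    exact hq
  generalize (1 / 2000 : ℝ) ^ 2 / q2 x = k at hk0 hk1
  have e : q2 ((((1 - k : ℝ) : ℂ) * x.1, (1 + k) * x.2) : F3) =
      (1 - k) ^ 2 * normSq x.1 + (1 + k) ^ 2 * x.2 ^ 2 := by
    unfold q2
    simp only [map_mul, Complex.normSq_ofReal]
    ring
  rw [e]
  have h4 : 0 ≤ normSq x.1 := Complex.normSq_nonneg _
  have h5 : 0 ≤ x.2 ^ 2 := sq_nonneg _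
  have h6 : (1 - k) ^ 2 ≤ 4 := by nlinarith
  have h7 : (1 + k) ^ 2 ≤ 4 := by nlinarith
  have h8 : (1 - k) ^ 2 * normSq x.1 ≤ 4 * normSq x.1 := mul_le_mul_of_nonneg_right h6 h4
  have h9 : (1 + k) ^ 2 * x.2 ^ 2 ≤ 4 * x.2 ^ 2 := mul_le_mul_of_nonneg_right h7 h5
  unfold q2 at hq2
  norm_num at hq2 ⊢
  linarith

theorem AaM_opD : IsOpen {x : F3 | rr x < 2000} := isOpen_lt rr_cont continuous_const

theorem AaM_opR : IsOpen {y : F3 | ¬ (y.1 = tau c ∧ 1000 ≤ |y.2|)} := by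
  have h1 : IsClosed {y : F3 | y.1 = tau c ∧ 1000 ≤ |y.2|} :=
    (isClosed_eq continuous_fst continuous_const).inter
      (isClosed_le continuous_const continuous_snd.abs)
  exact h1.isOpen_compl

theorem AaM_fwd {x : F3} (h0 : 0 < c) (h1 : c ≤ 1 / 10) (hx : rr x < 2000) (hq : 1 ≤ q2 x) :
    ¬ ((AP c x).1 = tau c ∧ 1000 ≤ |(AP c x).2|) ∧ 1 ≤ q2 (AP c x) := by
  have hx0 := AaM_pos hq
  have hz1 := AaM_Jv_gt hx0 hx
  have hz2 : rr (Jv x) ≤ 1 := by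
    rw [rr_Jv]
    exact inv_le_one_of_one_le₀ (AaM_one_le.1 hq)
  have ho1 : rr (Op (Jv x)) ≤ 1 := (Op_le_one hz1).2 hz2
  have ho2 := Op_mem hz1
  have ho3 := Op_ne hz1
  have hj : 1 ≤ q2 (Jv (Op (Jv x))) := by
    rw [AaM_one_le, rr_Jv]
    exact (one_le_inv₀ (rr_pos ho3)).2 ho1
  refine ⟨?_, ?_⟩
  · rintro ⟨h2, h3⟩
    have h4 : (AP c x).2 = (Jv (Op (Jv x))).2 := DP_snd _
    rw [h4] at h3
    have h5 : 43 ≤ rr (Jv (Op (Jv x))) := by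
      have := abs_le_rr (Jv (Op (Jv x)))
      linarith
    have h6 : AP c x = tv (tau c) (Jv (Op (Jv x))) := DP_far h5
    rw [h6] at h2
    have h7 : (Jv (Op (Jv x))).1 = 0 := by
      unfold tv at h2
      simpa using h2
    have h8 := AaM_axis h7
    rw [Jv_Jv] at h8
    rcases ho2 with h9 | h9
    · exact h9 h8.1
    · rw [h8.2, abs_inv] at h9
      have h10 : |(Jv (Op (Jv x))).2|⁻¹ ≤ 1000⁻¹ := inv_anti₀ (by norm_num) h3
      norm_num at h10 h9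
      linarith
  · exact (DP_ge h0 h1 _).2 hj

theorem AaM_bwd {y : F3} (h0 : 0 < c) (h1 : c ≤ 1 / 10) (hy : ¬ (y.1 = tau c ∧ 1000 ≤ |y.2|))
    (hq : 1 ≤ q2 y) : ∃ x, rr x < 2000 ∧ 1 ≤ q2 x ∧ AP c x = y := by
  set j := DPi c y with hjd
  have hj : DP c j = y := DP_DPi h0 h1 y
  have hjq : 1 ≤ q2 j := by
    rw [← hj] at hq
    exact (DP_ge h0 h1 _).1 hq
  have hj0 := AaM_pos hjq
  set o := Jv j with hod
  have ho0 : o ≠ 0 := Jv_ne hj0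
  have ho1 : rr o ≤ 1 := by
    rw [hod, rr_Jv]
    exact inv_le_one_of_one_le₀ (AaM_one_le.1 hjq)
  have hJo : Jv o = j := by rw [hod, Jv_Jv]
  have ho2 : o.1 ≠ 0 ∨ 1 / 1000 < |o.2| := by
    by_cases h2 : o.1 = 0
    · right
      have h3 := AaM_axis h2
      rw [hJo] at h3
      have h4 : |j.2| < 1000 := by
        by_contra hc
        push Not at hc
        apply hy
        have h5 : 43 ≤ rr j := by
          have := abs_le_rr j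
          linarith
        have h6 := DP_far (c := c) h5
        rw [hj] at h6
        rw [h6]
        unfold tv
        refine ⟨?_, hc⟩
        simp [h3.1]
      have h7 := AaM_axis h3.1
      rw [← hod] at h7
      have h8 : j.2 ≠ 0 := by
        intro h9
        exact hj0 (Prod.ext h3.1 h9)
      rw [h7.2, abs_inv, lt_inv_comm₀ (by norm_num) (abs_pos.2 h8)]
      linarith
    · exact Or.inl h2
  obtain ⟨hz1, hz2⟩ := Op_Opi ho2
  set z := Opi o with hzd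
  have hz3 : rr z ≤ 1 := by
    rw [← hz1] at ho1
    exact (Op_le_one hz2).1 ho1
  have hz0 : 0 < rr z := by linarith
  refine ⟨Jv z, ?_, ?_, ?_⟩
  · rw [rr_Jv, inv_lt_comm₀ hz0 (by norm_num)]
    linarith
  · rw [AaM_one_le, rr_Jv]
    exact (one_le_inv₀ hz0).2 hz3
  · unfold AP
    rw [Jv_Jv, hz1, hJo, hj]

theorem AP_ok (h0 : 0 < c) (h1 : c ≤ 1 / 10) :
    SyOK (AP c) {x | rr x < 2000} {y | ¬ (y.1 = tau c ∧ 1000 ≤ |y.2|)} where
  opD := AaM_opD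
  opR := AaM_opR
  id := by
    refine ⟨8, by norm_num, fun x hx1 hx2 => ?_⟩
    have hx3 : rr x ≤ 3 := by
      rw [rr_le_iff (by norm_num)]
      linarith
    refine ⟨?_, AaM_id (AaM_pos hx1) hx3⟩
    show rr x < 2000
    linarith
  ld := by
    intro x hx hq
    have hx0 := AaM_pos hq.le
    have hz1 := AaM_Jv_gt hx0 hx
    have l1 := Jv_ld hx0
    have l2 : LD (fun y => Op (Jv y)) x :=
      IsLocalDiffeomorphAt.comp (hf := l1) (g := Op) (hg := Op_ld hz1) ..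
    have l3 : LD (fun y => Jv (Op (Jv y))) x :=
      IsLocalDiffeomorphAt.comp (hf := l2) (g := Jv) (hg := Jv_ld (Op_ne hz1)) ..
    exact IsLocalDiffeomorphAt.comp (hf := l3) (g := DP c) (hg := DP_ld h0 h1 _) ..
  inj := by
    rintro x ⟨hx1, hx2⟩ y ⟨hy1, hy2⟩ h
    have e1 := AaM_Jv_inj (DP_inj h0 h1 h)
    have e2 := Op_inj (AaM_Jv_gt (AaM_pos hx2) hx1) (AaM_Jv_gt (AaM_pos hy2) hy1) e1
    exact AaM_Jv_inj e2
  im := by
    ext y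
    constructor
    · rintro ⟨x, ⟨hx1, hx2⟩, rfl⟩
      exact AaM_fwd h0 h1 hx1 hx2
    · rintro ⟨hy1, hy2⟩
      obtain ⟨x, hx1, hx2, hx3⟩ := AaM_bwd h0 h1 hy1 hy2
      exact ⟨x, ⟨hx1, hx2⟩, hx3⟩

theorem Sh_eq : Sh = Sm {x | rr x < 2000} := by
  ext x
  constructor
  · rintro ⟨h1, h2⟩
    have hr : 0 < rr x := by linarith
    have hx : x ≠ 0 := by
      rintro rfl
      rw [rr_eq_zero.2 rfl] at hr
      exact lt_irrefl _ hr
    refine ⟨hx, fun _ => h2, fun _ => ?_⟩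
    show rr (Jv x) < 2000
    rw [rr_Jv, inv_lt_comm₀ hr (by norm_num)]
    linarith
  · rintro ⟨hx, h1, h2⟩
    have hr := rr_pos hx
    rcases le_total 1 (q2 x) with h | h
    · have h3 := AaM_one_le.1 h
      have h4 : rr x < 2000 := h1 h
      exact ⟨by linarith, h4⟩
    · have h3 := AaM_le_one.1 h
      have h4 : rr (Jv x) < 2000 := h2 h
      rw [rr_Jv, inv_lt_comm₀ hr (by norm_num)] at h4
      exact ⟨by linarith, by linarith⟩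

theorem AaM_big {x : F3} (h : 1000 ≤ |x.2|) : 1 ≤ q2 x := by
  rw [AaM_one_le]
  have := abs_le_rr x
  linarith

theorem SlA_eq (h0 : 0 < c) (h1 : c ≤ 1 / 10) :
    (SlA c)ᶜ = Sm {y | ¬ (y.1 = tau c ∧ 1000 ≤ |y.2|)} := by
  ext x
  constructor
  · intro hx
    refine ⟨fun h => hx (Or.inr (Or.inl h)), fun _ h => hx (Or.inl h),
      fun _ h => hx (Or.inr (Or.inr h))⟩
  · rintro ⟨hx, h2, h3⟩ h
    rcases h with h | h | h
    · exact h2 (AaM_big h.2) h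
    · exact hx h
    · have h4 := AaM_big h.2
      rw [q2_Jv] at h4
      have h5 : q2 x ≤ 1 := by
        have h6 := q2_pos hx
        exact (one_le_inv₀ h6).1 h4
      exact h3 h5 h

theorem AaM_inv (h0 : 0 < c) (h1 : c ≤ 1 / 10) :
    SyOK (APi c) {y | ¬ (y.1 = tau c ∧ 1000 ≤ |y.2|)} {x | rr x < 2000} ∧
      (∀ x ∈ Sm {x | rr x < 2000}, sy (APi c) (sy (AP c) x) = x) ∧
      ∀ y ∈ Sm {y : F3 | ¬ (y.1 = tau c ∧ 1000 ≤ |y.2|)}, sy (AP c) (sy (APi c) y) = y := by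
  refine SyOK.inv (AP_ok h0 h1) ?_
  intro x hx hq
  have hz1 := AaM_Jv_gt (AaM_pos hq) hx
  unfold APi AP
  rw [DPi_DP h0 h1, Jv_Jv, Opi_Op hz1, Jv_Jv]

theorem A_mem (h0 : 0 < c) (h1 : c ≤ 1 / 10) {x : F3} (hx : x ∈ Sh) : A c x ∉ SlA c := by
  have h2 := (AP_ok h0 h1).im'
  rw [Sh_eq] at hx
  have h3 : sy (AP c) x ∈ sy (AP c) '' Sm {x | rr x < 2000} := ⟨x, hx, rfl⟩
  rw [h2, ← SlA_eq h0 h1] at h3
  exact h3

theorem Ai_mem (h0 : 0 < c) (h1 : c ≤ 1 / 10) {y : F3} (hy : y ∉ SlA c) : Ai c y ∈ Sh := by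
  have h2 := (AaM_inv h0 h1).1.im'
  rw [Sh_eq, ← h2]
  refine ⟨y, ?_, rfl⟩
  rw [← SlA_eq h0 h1]
  exact hy

theorem Ai_A (h0 : 0 < c) (h1 : c ≤ 1 / 10) {x : F3} (hx : x ∈ Sh) : Ai c (A c x) = x := by
  rw [Sh_eq] at hx
  exact (AaM_inv h0 h1).2.1 x hx

theorem A_Ai (h0 : 0 < c) (h1 : c ≤ 1 / 10) {y : F3} (hy : y ∉ SlA c) : A c (Ai c y) = y := by
  have hy' : y ∈ Sm {y : F3 | ¬ (y.1 = tau c ∧ 1000 ≤ |y.2|)} := by
    rw [← SlA_eq h0 h1]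
    exact hy
  exact (AaM_inv h0 h1).2.2 y hy'

theorem A_ld (h0 : 0 < c) (h1 : c ≤ 1 / 10) {x : F3} (hx : x ∈ Sh) : LD (A c) x := by
  rw [Sh_eq] at hx
  exact (AP_ok h0 h1).ld' hx

theorem Ai_ld (h0 : 0 < c) (h1 : c ≤ 1 / 10) {y : F3} (hy : y ∉ SlA c) : LD (Ai c) y := by
  have hy' : y ∈ Sm {y : F3 | ¬ (y.1 = tau c ∧ 1000 ≤ |y.2|)} := by
    rw [← SlA_eq h0 h1]
    exact hy
  exact (AaM_inv h0 h1).1.ld' hy'

theorem A_Jv (h0 : 0 < c) (h1 : c ≤ 1 / 10) {x : F3} (hx : x ∈ Sh) : A c (Jv x) = Jv (A c x) := by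
  rw [Sh_eq] at hx
  exact (AP_ok h0 h1).symm hx

theorem Ai_Jv (h0 : 0 < c) (h1 : c ≤ 1 / 10) {y : F3} (hy : y ∉ SlA c) :
    Ai c (Jv y) = Jv (Ai c y) := by
  have hy' : y ∈ Sm {y : F3 | ¬ (y.1 = tau c ∧ 1000 ≤ |y.2|)} := by
    rw [← SlA_eq h0 h1]
    exact hy
  exact (AaM_inv h0 h1).1.symm hy'

theorem AaM_Sh_Jv {x : F3} (h : x ∈ Sh) : Jv x ∈ Sh := by
  obtain ⟨h1, h2⟩ := h
  have hr : 0 < rr x := by linarith
  constructor
  · rw [rr_Jv, lt_inv_comm₀ (by norm_num) hr]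
    linarith
  · rw [rr_Jv, inv_lt_comm₀ hr (by norm_num)]
    linarith

theorem Sh_Jv {x : F3} : Jv x ∈ Sh ↔ x ∈ Sh := by
  constructor
  · intro h
    have := AaM_Sh_Jv h
    rwa [Jv_Jv] at this
  · exact AaM_Sh_Jv

theorem AaM_SlA_Jv {x : F3} (h : x ∈ SlA c) : Jv x ∈ SlA c := by
  rcases h with h | h | h
  · refine Or.inr (Or.inr ?_)
    rw [Jv_Jv]
    exact h
  · refine Or.inr (Or.inl ?_)
    rw [h, Jv_zero]
  · exact Or.inl h

theorem SlA_Jv {x : F3} : Jv x ∈ SlA c ↔ x ∈ SlA c := by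
  constructor
  · intro h
    have := AaM_SlA_Jv h
    rwa [Jv_Jv] at this
  · exact AaM_SlA_Jv

theorem SlA_closed (h0 : 0 < c) (h1 : c ≤ 1 / 10) : IsClosed (SlA c) := by
  have hJ : ContinuousOn Jv ({0}ᶜ : Set F3) := fun x hx =>
    (Jv_smooth hx).continuousAt.continuousWithinAt
  have h2 : IsOpen (({0}ᶜ : Set F3) ∩ Jv ⁻¹' {y : F3 | ¬ (y.1 = tau c ∧ 1000 ≤ |y.2|)}) :=
    hJ.isOpen_inter_preimage isOpen_compl_singleton AaM_opR
  have h3 := (AaM_opR (c := c)).inter h2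
  rw [← isOpen_compl_iff]
  convert h3 using 1
  ext x
  constructor
  · intro hx
    exact ⟨fun h => hx (Or.inl h), fun h => hx (Or.inr (Or.inl h)),
      fun h => hx (Or.inr (Or.inr h))⟩
  · rintro ⟨h4, h5, h6⟩ h
    rcases h with h | h | h
    · exact h4 h
    · exact h5 h
    · exact h6 h

theorem A_id {x : F3} (h1 : 1 / 3 ≤ rr x) (h2 : rr x ≤ 3) : A c x = x := by
  have hr : 0 < rr x := by linarith
  have hx : x ≠ 0 := by
    rintro rfl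
    rw [rr_eq_zero.2 rfl] at hr
    exact lt_irrefl _ hr
  unfold A
  rcases le_or_gt 1 (q2 x) with h | h
  · rw [sy_big h]
    exact AaM_id hx h2
  · rw [sy_small h, AaM_id (Jv_ne hx), Jv_Jv]
    rw [rr_Jv, inv_le_comm₀ hr (by norm_num)]
    linarith

theorem Ai_id (h0 : 0 < c) (h1 : c ≤ 1 / 10) {x : F3} (h2 : 1 / 3 ≤ rr x) (h3 : rr x ≤ 3) :
    Ai c x = x := by
  have h4 : x ∈ Sh := ⟨by linarith, by linarith⟩
  have h5 := Ai_A h0 h1 h4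
  rwa [A_id h2 h3] at h5

/-- for `1 ≤ rr x ≤ 2000/43`, `A` is the shift -/
theorem A_mid {x : F3} (h1 : 1 ≤ rr x) (h2 : rr x ≤ 2000 / 43) : A c x = DP c x := by
  have hr : 0 < rr x := by linarith
  have h3 : 43 / 2000 ≤ rr (Jv x) := by
    rw [rr_Jv, le_inv_comm₀ (by norm_num) hr]
    linarith
  unfold A
  rw [sy_big (AaM_one_le.2 h1)]
  unfold AP
  rw [Op_id h3, Jv_Jv]

theorem A_far {x : F3} (h1 : 2000 / 3 ≤ rr x) (h2 : rr x < 2000) :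
    A c x = tv (tau c) (Jv (Op (Jv x))) := by
  have hr : 0 < rr x := by linarith
  unfold A
  rw [sy_big (AaM_one_le.2 (by linarith))]
  unfold AP
  apply DP_far
  apply AaM_far
  · rw [rr_Jv, lt_inv_comm₀ (by norm_num) hr]
    linarith
  · rw [rr_Jv, inv_le_comm₀ hr (by norm_num)]
    linarith

/-- the same with the Joukowski formula -/
theorem A_far_pol {u : ℝ} {X : ℂ} (h1 : 2000 / 3 ≤ ‖X‖) (h2 : ‖X‖ < 2000) :
    A c (pol u X) = tv (tau c) (pol u (JC (JC X - (1 / 2000) ^ 2 / JC X))) := by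
  have hr : 0 < ‖X‖ := by linarith
  have hX : X ≠ 0 := norm_pos_iff.1 hr
  have h3 : ‖JC X‖ ≤ 3 / 2000 := by
    rw [norm_JC, inv_le_comm₀ hr (by norm_num)]
    linarith
  rw [A_far (by rw [rr_pol]; exact h1) (by rw [rr_pol]; exact h2), Jv_pol,
    Op_exact_pol h3 (JC_ne hX), Jv_pol, neg_neg]

theorem A_side (h0 : 0 < c) (h1 : c ≤ 1 / 10) {x : F3} (hx : x ∈ Sh) :
    1 ≤ q2 (A c x) ↔ 1 ≤ q2 x := by
  rw [Sh_eq] at hx
  exact (AP_ok h0 h1).side hx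

theorem A_snd_pos {x : F3} (hx : x ∈ Sh) : 0 < (A c x).2 ↔ 0 < x.2 := by
  have hJ := AaM_Sh_Jv hx
  unfold A
  rcases le_or_gt 1 (q2 x) with h | h
  · rw [sy_big h]
    unfold AP
    rw [DP_snd, Jv_snd_pos, Op_snd_pos hJ.1, Jv_snd_pos]
  · rw [sy_small h]
    unfold AP
    rw [Jv_snd_pos, DP_snd, Jv_snd_pos, Jv_Jv, Op_snd_pos hx.1]

theorem A_snd_zero {x : F3} (hx : x ∈ Sh) : (A c x).2 = 0 ↔ x.2 = 0 := by
  have hJ := AaM_Sh_Jv hx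
  unfold A
  rcases le_or_gt 1 (q2 x) with h | h
  · rw [sy_big h]
    unfold AP
    rw [DP_snd, Jv_snd_zero, Op_snd_zero hJ.1, Jv_snd_zero]
  · rw [sy_small h]
    unfold AP
    rw [Jv_snd_zero, DP_snd, Jv_snd_zero, Jv_Jv, Op_snd_zero hx.1]

theorem AaM_AP_mir (x : F3) : AP c (mir x) = mir (AP c x) := by
  unfold AP
  rw [Jv_mir, Op_mir, Jv_mir, DP_mir]

theorem AaM_AP_cjv (x : F3) : AP c (cjv x) = cjv (AP c x) := by
  unfold AP
  rw [Jv_cjv, Op_cjv, Jv_cjv, DP_cjv]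

theorem A_mir {x : F3} : A c (mir x) = mir (A c x) := by
  unfold A
  rcases le_or_gt 1 (q2 x) with h | h
  · rw [sy_big h, sy_big (by rw [q2_mir]; exact h), AaM_AP_mir]
  · rw [sy_small h, sy_small (by rw [q2_mir]; exact h), Jv_mir, AaM_AP_mir, Jv_mir]

theorem A_cjv {x : F3} : A c (cjv x) = cjv (A c x) := by
  unfold A
  rcases le_or_gt 1 (q2 x) with h | h
  · rw [sy_big h, sy_big (by rw [q2_cjv]; exact h), AaM_AP_cjv]
  · rw [sy_small h, sy_small (by rw [q2_cjv]; exact h), Jv_cjv, AaM_AP_cjv, Jv_cjv]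

theorem Ai_mir (h0 : 0 < c) (h1 : c ≤ 1 / 10) {y : F3} (hy : y ∉ SlA c) :
    Ai c (mir y) = mir (Ai c y) := by
  have hx := Ai_mem h0 h1 hy
  have e := A_Ai h0 h1 hy
  have hm : mir (Ai c y) ∈ Sh := by
    constructor
    · rw [rr_mir]
      exact hx.1
    · rw [rr_mir]
      exact hx.2
  have h2 := Ai_A h0 h1 hm
  rwa [A_mir, e] at h2

theorem Ai_cjv (h0 : 0 < c) (h1 : c ≤ 1 / 10) {y : F3} (hy : y ∉ SlA c) :
    Ai c (cjv y) = cjv (Ai c y) := by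
  have hx := Ai_mem h0 h1 hy
  have e := A_Ai h0 h1 hy
  have hm : cjv (Ai c y) ∈ Sh := by
    constructor
    · rw [rr_cjv]
      exact hx.1
    · rw [rr_cjv]
      exact hx.2
  have h2 := Ai_A h0 h1 hm
  rwa [A_cjv, e] at h2

end Pool.Agent.CHW
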