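import Pool.Agent.CHW.E0M
import Pool.Agent.ISO.Cod0

/-!
# CHW/ClM: straightening of the collar   (difficulty 3)

(A) `exists_F`: `ISO.cod0` with `E = V = ℝ × ℝ × ℝ`, `Λ = Λ' = ℤ × ℤ × 0`, `W = De P`, `e s q = (1 - s) • e0 q + s • q`, `C = {(u, y, 0) | |u| ≤ 1/2, |y| ≤ 1/2, ∀ m n, d₁² ≤ (u - m)² + (y - n)²}` (compact),
`O = Oq P x₀`.  `e s (u, y, 0) = (u, y, 0)` on `C` (`e0_page`); derivative at `C`: `D (a, b, c) = (.., .., ((1 - s) X_t + s) c)` with `(a, b, 0) ↦ (a, b, 0)`, `X_t > 0`: injective, so bijective; injectivity modulo `Λ` is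
clear since `e s x = x` on `C`.  (`hper`: `e0_per`; `De_per`, `De_open`, `De_page`.)
Output: `F`, `U ⊇ C` open, `F (e0 x) = x` on `U`.
* `F y = y` for `y = (u, Y, 0)`: by the last clause of `cod0`: if `e s x = y + m`, `x ∈ De`, then its third coordinate `(1 - s) X + s t = 0`, where `X = (e0 x).2.2` and `t = x.2.2` have the same sign
  (`e0_sign`), so `t = 0` or (`s = 0` and `X = 0`, so `t = 0`), and `e s' x = x = e s x` for all `s'` (`e0_page`).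
* `F y = y` for `y ∉ Oq` (`Oq` is invariant under `Λ`, the support is in `C' + Λ`, `C' ⊆ Oq`).
* `F` preserves the sign of the third coordinate: it is a homeomorphism of `ℝ³` which fixes the plane `X = 0` pointwise; the image of the connected set `{X > 0}` is connected, does not meet the plane, and contains
  the points with `X ≥ x₀` (fixed): so it is contained in `{X > 0}`.
* tube lemma (`C` compact, `U` open, periodicity): `∃ η > 0` with `F (e0 (u, y, t)) = (u, y, t)` and `(u, y, t) ∈ De` for `|t| ≤ η` and `d₁² ≤ (u - m)² + (y - n)²` for all `m n`; uniform continuity of `F` near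
  `X = 0` (periodic, `F (u, Y, 0) = (u, Y, 0)`): `|F.1 - u| < d₁/8`, `|F.2.1 - Y| < d₁/8` for `|X| ≤ η`.
* `F` maps `Oq` to itself (a bijection which is the identity off `Oq`), so `|X| < x₀` is preserved.
(B) `exists_Ft`: `Ft x = cyl (F q)` if `x = cyl q`, `|q.2.2| < 1` (well defined by `cyl_inj`, `F.comm`), `Ft x = x` otherwise (`x.1 = 0`; `Ft` is the identity near these points, as `F = id` for `|X| ≥ x₀`, `x₀ < 1`).
`cyl (u + m, Y + n, X) = exp n • cyl (u, Y, X)` gives the equivariance.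
-/

open scoped Manifold ContDiff Topology
open Set Filter
open Complex (I normSq)

namespace Pool.Agent.CHW

open Pool.Agent.CSG (stp thc)
open Pool.Agent.RSG (ex)

/-- the region where the collar is changed -/
def Oq (P : Par) (x₀ : ℝ) : Set (ℝ × ℝ × ℝ) :=
  {q | |q.2.2| < x₀ ∧ ∀ m n : ℤ, (3 / 4 * P.d₁) ^ 2 < (q.1 - m) ^ 2 + (q.2.1 - n) ^ 2}
/-- the same region in `F3` -/
def OO (P : Par) (x₀ : ℝ) : Set F3 := {x | ∃ q ∈ Oq P x₀, x = cyl q}

/-- the straightening -/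
structure Str (P : Par) (x₀ η : ℝ) (Ft : F3 → F3) : Prop where
  η_pos : 0 < η
  η_lt : η < x₀
  ld : ∀ x, x ≠ 0 → LD Ft x
  ne : ∀ x, x ≠ 0 → Ft x ≠ 0
  inj : ∀ x y, x ≠ 0 → y ≠ 0 → Ft x = Ft y → x = y
  surj : ∀ y, y ≠ 0 → ∃ x, x ≠ 0 ∧ Ft x = y
  smul : ∀ (n : ℤ) (x : F3), x ≠ 0 → Ft (Real.exp n • x) = Real.exp n • Ft x
  off : ∀ x, x ≠ 0 → x ∉ OO P x₀ → Ft x = x
  plane : ∀ x : F3, x ≠ 0 → x.2 = 0 → Ft x = x
  pos : ∀ x : F3, x ≠ 0 → (0 < (Ft x).2 ↔ 0 < x.2)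
  neg : ∀ x : F3, x ≠ 0 → ((Ft x).2 < 0 ↔ x.2 < 0)
  near : ∀ u Y X : ℝ, |X| ≤ η → ∃ u' Y' X' : ℝ, |u' - u| < P.d₁ / 8 ∧ |Y' - Y| < P.d₁ / 8 ∧ |X'| < x₀ ∧
    Ft (cyl (u, Y, X)) = cyl (u', Y', X')
  str : ∀ u y t : ℝ, |t| ≤ η → (∀ m n : ℤ, P.d₁ ^ 2 ≤ (u - m) ^ 2 + (y - n) ^ 2) → Ft (Rl (Wx P (u, y, t))) = cyl (u, y, t)

variable {P : Par}

/-- the lattice -/
def clmL : AddSubgroup (ℝ × ℝ × ℝ) where
  carrier := {v | ∃ m n : ℤ, v = ((m : ℝ), (n : ℝ), (0 : ℝ))}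
  zero_mem' := ⟨0, 0, by ext <;> simp⟩
  add_mem' := by
    rintro _ _ ⟨m, n, rfl⟩ ⟨m', n', rfl⟩
    exact ⟨m + m', n + n', by simp⟩
  neg_mem' := by
    rintro _ ⟨m, n, rfl⟩
    exact ⟨-m, -n, by simp⟩

theorem clm_mem {v : ℝ × ℝ × ℝ} : v ∈ clmL ↔ ∃ m n : ℤ, v = ((m : ℝ), (n : ℝ), (0 : ℝ)) := Iff.rfl

theorem clm_lat : ISO.Lat clmL := by
  intro R
  have hfin : (Set.Icc (-⌈R⌉) ⌈R⌉ ×ˢ Set.Icc (-⌈R⌉) ⌈R⌉ : Set (ℤ × ℤ)).Finite :=
    (Set.finite_Icc _ _).prod (Set.finite_Icc _ _)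
  refine (hfin.image fun p : ℤ × ℤ => (((p.1 : ℝ), (p.2 : ℝ), (0 : ℝ)) : ℝ × ℝ × ℝ)).subset ?_
  rintro _ ⟨⟨m, n, rfl⟩, hR⟩
  have h1 : |(m : ℝ)| ≤ R := le_trans (norm_fst_le ((m : ℝ), (n : ℝ), (0 : ℝ))) hR
  have h2 : |(n : ℝ)| ≤ R := le_trans (le_trans (norm_fst_le ((n : ℝ), (0 : ℝ)))
    (norm_snd_le ((m : ℝ), (n : ℝ), (0 : ℝ)))) hR
  have h3 : ∀ k : ℤ, |(k : ℝ)| ≤ R → k ∈ Set.Icc (-⌈R⌉) ⌈R⌉ := by
    intro k hk
    have h4 := Int.le_ceil R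
    obtain ⟨h5, h6⟩ := abs_le.1 hk
    constructor
    · have : ((-⌈R⌉ : ℤ) : ℝ) ≤ k := by push_cast; linarith
      exact_mod_cast this
    · have : (k : ℝ) ≤ (⌈R⌉ : ℤ) := by linarith
      exact_mod_cast this
  exact ⟨(m, n), ⟨h3 m h1, h3 n h2⟩, rfl⟩

/-- distance to the integers -/
noncomputable def clmN (x : ℝ) : ℝ := Metric.infDist x (Set.range fun m : ℤ => (m : ℝ))

theorem clm_N_cont : Continuous clmN := Metric.continuous_infDist_pt _

theorem clm_N_eq (x : ℝ) : clmN x = |x - round x| := by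
  refine le_antisymm ?_ ?_
  · exact Metric.infDist_le_dist_of_mem ⟨round x, rfl⟩
  · unfold clmN
    rw [Metric.le_infDist (Set.range_nonempty _)]
    rintro _ ⟨m, rfl⟩
    exact round_le x m

theorem clm_N_le (x : ℝ) (m : ℤ) : clmN x ^ 2 ≤ (x - m) ^ 2 := by
  rw [clm_N_eq, sq_abs, ← sq_abs (x - round x), ← sq_abs (x - m)]
  exact pow_le_pow_left₀ (abs_nonneg _) (round_le x m) 2

theorem clm_N_sq (x : ℝ) : clmN x ^ 2 = (x - round x) ^ 2 := by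
  rw [clm_N_eq, sq_abs]

theorem clm_lt_iff (r x y : ℝ) :
    (∀ m n : ℤ, r < (x - m) ^ 2 + (y - n) ^ 2) ↔ r < clmN x ^ 2 + clmN y ^ 2 := by
  constructor
  · intro h
    rw [clm_N_sq, clm_N_sq]
    exact h _ _
  · intro h m n
    have h1 := clm_N_le x m
    have h2 := clm_N_le y n
    linarith

theorem clm_le_iff (r x y : ℝ) :
    (∀ m n : ℤ, r ≤ (x - m) ^ 2 + (y - n) ^ 2) ↔ r ≤ clmN x ^ 2 + clmN y ^ 2 := by
  constructor
  · intro h
    rw [clm_N_sq, clm_N_sq]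
    exact h _ _
  · intro h m n
    have h1 := clm_N_le x m
    have h2 := clm_N_le y n
    linarith

theorem clm_Oq_open (P : Par) (x₀ : ℝ) : IsOpen (Oq P x₀) := by
  have : Oq P x₀ = {q : ℝ × ℝ × ℝ | |q.2.2| < x₀} ∩
      {q : ℝ × ℝ × ℝ | (3 / 4 * P.d₁) ^ 2 < clmN q.1 ^ 2 + clmN q.2.1 ^ 2} := by
    ext q
    simp only [Oq, mem_ofPred_eq, mem_inter_iff, clm_lt_iff]
  rw [this]
  refine IsOpen.inter ?_ ?_
  · exact isOpen_lt (by fun_prop) continuous_const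
  · refine isOpen_lt continuous_const ?_
    exact ((clm_N_cont.comp continuous_fst).pow 2).add
      ((clm_N_cont.comp (continuous_fst.comp continuous_snd)).pow 2)

theorem clm_lt_shift {r x y : ℝ} (h : ∀ m n : ℤ, r < (x - m) ^ 2 + (y - n) ^ 2) (k l : ℤ) :
    ∀ m n : ℤ, r < (x + k - m) ^ 2 + (y + l - n) ^ 2 := by
  intro m n
  have h1 := h (m - k) (n - l)
  push_cast at h1
  have e1 : x - ((m : ℝ) - k) = x + k - m := by ring
  have e2 : y - ((n : ℝ) - l) = y + l - n := by ring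
  rwa [e1, e2] at h1

theorem clm_le_shift {r x y : ℝ} (h : ∀ m n : ℤ, r ≤ (x - m) ^ 2 + (y - n) ^ 2) (k l : ℤ) :
    ∀ m n : ℤ, r ≤ (x + k - m) ^ 2 + (y + l - n) ^ 2 := by
  intro m n
  have h1 := h (m - k) (n - l)
  push_cast at h1
  have e1 : x - ((m : ℝ) - k) = x + k - m := by ring
  have e2 : y - ((n : ℝ) - l) = y + l - n := by ring
  rwa [e1, e2] at h1

theorem clm_Oq_shift {x₀ : ℝ} {q : ℝ × ℝ × ℝ} (hq : q ∈ Oq P x₀) {m : ℝ × ℝ × ℝ} (hm : m ∈ clmL) :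
    q + m ∈ Oq P x₀ := by
  obtain ⟨k, l, rfl⟩ := hm
  refine ⟨?_, ?_⟩
  · have : (q + ((k : ℝ), (l : ℝ), (0 : ℝ))).2.2 = q.2.2 := by simp
    rw [this]
    exact hq.1
  · exact clm_lt_shift hq.2 k l

/-- the compact set -/
def clmC (P : Par) : Set (ℝ × ℝ × ℝ) :=
  {q | |q.1| ≤ 1 / 2 ∧ |q.2.1| ≤ 1 / 2 ∧ q.2.2 = 0 ∧ ∀ m n : ℤ, P.d₁ ^ 2 ≤ (q.1 - m) ^ 2 + (q.2.1 - n) ^ 2}

/-- the compact square -/
def clmK : Set (ℝ × ℝ × ℝ) := {q | |q.1| ≤ 1 / 2 ∧ |q.2.1| ≤ 1 / 2 ∧ q.2.2 = 0}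

theorem clm_K_compact : IsCompact clmK := by
  have : clmK = Set.Icc (-(1 / 2) : ℝ) (1 / 2) ×ˢ (Set.Icc (-(1 / 2) : ℝ) (1 / 2) ×ˢ ({0} : Set ℝ)) := by
    ext q
    simp only [clmK, mem_ofPred_eq, mem_prod, mem_Icc, mem_singleton_iff, abs_le]
  rw [this]
  exact isCompact_Icc.prod (isCompact_Icc.prod isCompact_singleton)

theorem clm_C_compact (P : Par) : IsCompact (clmC P) := by
  have : clmC P = clmK ∩ {q : ℝ × ℝ × ℝ | P.d₁ ^ 2 ≤ clmN q.1 ^ 2 + clmN q.2.1 ^ 2} := by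
    ext q
    simp only [clmC, clmK, mem_ofPred_eq, mem_inter_iff, clm_le_iff]
    tauto
  rw [this]
  refine clm_K_compact.inter_right ?_
  refine isClosed_le continuous_const ?_
  exact ((clm_N_cont.comp continuous_fst).pow 2).add
    ((clm_N_cont.comp (continuous_fst.comp continuous_snd)).pow 2)

/-- tube lemma -/
theorem clm_tube {K : Set (ℝ × ℝ × ℝ)} (hK : IsCompact K) {U : Set (ℝ × ℝ × ℝ)} (hU : IsOpen U)
    (hKU : K ⊆ U) : ∃ η : ℝ, 0 < η ∧ ∀ u y t : ℝ, (u, y, 0) ∈ K → |t| ≤ η → (u, y, t) ∈ U := by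
  obtain ⟨δ, hδ, hsub⟩ := hK.exists_cthickening_subset_open hU hKU
  refine ⟨δ, hδ, ?_⟩
  intro u y t hk ht
  apply hsub
  refine Metric.mem_cthickening_of_dist_le _ _ _ _ hk ?_
  rw [dist_eq_norm]
  have : ((u, y, t) : ℝ × ℝ × ℝ) - (u, y, 0) = (0, 0, t) := by simp
  rw [this]
  simpa [Prod.norm_def] using ht

theorem clm_d₁ (h : P.Ok) : 0 < P.d₁ := lt_of_lt_of_le h.r₃_pos h.r₃_le

/-- the family -/
noncomputable def clmE (P : Par) (s : ℝ) (q : ℝ × ℝ × ℝ) : ℝ × ℝ × ℝ := (1 - s) • e0 P q + s • q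

theorem clm_page (h : P.Ok) {q : ℝ × ℝ × ℝ} (h0 : q.2.2 = 0)
    (hd : ∀ m n : ℤ, (P.d₁ / 2) ^ 2 ≤ (q.1 - m) ^ 2 + (q.2.1 - n) ^ 2) (s : ℝ) : clmE P s q = q := by
  obtain ⟨u, y, t⟩ := q
  simp only at h0 hd
  subst h0
  unfold clmE
  rw [e0_page h hd, ← add_smul]
  simp

theorem clm_half (h : P.Ok) : (P.d₁ / 2) ^ 2 < P.d₁ ^ 2 := by
  have := clm_d₁ h
  nlinarith

theorem clm_C_half (h : P.Ok) {q : ℝ × ℝ × ℝ} (hq : q ∈ clmC P) :
    ∀ m n : ℤ, (P.d₁ / 2) ^ 2 < (q.1 - m) ^ 2 + (q.2.1 - n) ^ 2 := fun m n =>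
  lt_of_lt_of_le (clm_half h) (hq.2.2.2 m n)

theorem clm_bij (h : P.Ok) {s : ℝ} (hs : s ∈ Icc (0 : ℝ) 1) {q : ℝ × ℝ × ℝ} (hq : q ∈ clmC P) :
    Function.Bijective (fderiv ℝ (clmE P s) q) := by
  obtain ⟨u, y, t⟩ := q
  have h0 : t = 0 := hq.2.2.1
  subst h0
  have hd := clm_C_half h hq
  have hDe : (u, y, (0 : ℝ)) ∈ De P := De_page h hd
  obtain ⟨hd1, hd2⟩ := e0_deriv h hd
  have hdiff : DifferentiableAt ℝ (e0 P) (u, y, 0) := (e0_smooth h hDe).differentiableAt (by simp)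
  have hfd : HasFDerivAt (clmE P s)
      ((1 - s) • fderiv ℝ (e0 P) (u, y, 0) + s • ContinuousLinearMap.id ℝ (ℝ × ℝ × ℝ)) (u, y, 0) := by
    have := (hdiff.hasFDerivAt.const_smul (1 - s)).add
      ((hasFDerivAt_id (𝕜 := ℝ) ((u, y, 0) : ℝ × ℝ × ℝ)).const_smul s)
    exact this
  rw [hfd.fderiv]
  set D := fderiv ℝ (e0 P) (u, y, 0) with hD
  have hDv : ∀ a b c : ℝ, D (a, b, c) = (a, b, 0) + c • D (0, 0, 1) := by
    intro a b c
    have e1 : ((a, b, c) : ℝ × ℝ × ℝ) = (a, b, 0) + c • (0, 0, 1) := by simp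
    rw [e1, map_add, map_smul, hd1]
  have hinj : Function.Injective
      ((1 - s) • D + s • ContinuousLinearMap.id ℝ (ℝ × ℝ × ℝ) : (ℝ × ℝ × ℝ) →L[ℝ] (ℝ × ℝ × ℝ)) := by
    rw [injective_iff_map_eq_zero]
    rintro ⟨a, b, c⟩ hv
    have hv1 : (1 - s) • ((a, b, 0) + c • D (0, 0, 1)) + s • ((a, b, c) : ℝ × ℝ × ℝ) = 0 := by
      rw [← hDv]
      exact hv
    have h3 := congrArg (fun v : ℝ × ℝ × ℝ => v.2.2) hv1
    simp only [Prod.snd_add, Prod.smul_snd, Prod.snd_zero, smul_eq_mul, zero_add] at h3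
    have h4 : ((1 - s) * (D (0, 0, 1)).2.2 + s) * c = 0 := by linear_combination h3
    have h5 : 0 < (1 - s) * (D (0, 0, 1)).2.2 + s := by
      rcases eq_or_lt_of_le hs.1 with h6 | h6
      · rw [← h6]; simpa using hd2
      · have : 0 ≤ (1 - s) * (D (0, 0, 1)).2.2 := mul_nonneg (by linarith [hs.2]) hd2.le
        linarith
    have hc : c = 0 := by
      rcases mul_eq_zero.1 h4 with h6 | h6
      · exact absurd h6 h5.ne'
      · exact h6
    subst hc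
    rw [zero_smul, add_zero, ← add_smul] at hv1
    simpa using hv1
  have hsurj := (LinearMap.injective_iff_surjective
    (f := (((1 - s) • D + s • ContinuousLinearMap.id ℝ (ℝ × ℝ × ℝ) :
      (ℝ × ℝ × ℝ) →L[ℝ] (ℝ × ℝ × ℝ)) : (ℝ × ℝ × ℝ) →ₗ[ℝ] (ℝ × ℝ × ℝ)))).1 hinj
  exact ⟨hinj, hsurj⟩

/-- first part -/
theorem clm_F (h : P.Ok) {x₀ : ℝ} (h0 : 0 < x₀) :
    ∃ (F : Equiv.Perm (ℝ × ℝ × ℝ)) (U : Set (ℝ × ℝ × ℝ)), ISO.Move clmL (Oq P x₀) F ∧ IsOpen U ∧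
      clmC P ⊆ U ∧ (∀ x ∈ U, F (e0 P x) = x) ∧ ∀ y : ℝ × ℝ × ℝ, y.2.2 = 0 → F y = y := by
  obtain ⟨F, U, hM, hU, hCU, hFU, hlast⟩ := ISO.cod0 (Λ := clmL) clm_lat (Λ' := clmL)
    (O := Oq P x₀) (clm_Oq_open P x₀) (W := De P) (De_open h)
    (fun x hx m hm => by
      obtain ⟨k, l, rfl⟩ := hm
      have := De_per hx k l
      have e : x + ((k : ℝ), (l : ℝ), (0 : ℝ)) = (x.1 + k, x.2.1 + l, x.2.2) := by
        ext <;> simp
      rw [e]
      exact this) (e := clmE P)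
    (fun s hs x hx => by
      unfold clmE
      have h1 : ContDiffAt ℝ ∞ (fun q : ℝ × (ℝ × ℝ × ℝ) => e0 P q.2) (s, x) :=
        ContDiffAt.comp (s, x) (e0_smooth h hx) contDiffAt_snd
      exact ((contDiffAt_const.sub contDiffAt_fst).smul h1).add (contDiffAt_fst.smul contDiffAt_snd))
    (fun m' hm' => ⟨m', hm', fun s hs x hx => by
      obtain ⟨k, l, rfl⟩ := hm'
      have h1 := e0_per x (Wx_ne h hx.1) k l
      have e : x + ((k : ℝ), (l : ℝ), (0 : ℝ)) = (x.1 + k, x.2.1 + l, x.2.2) := by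
        ext <;> simp
      have e2 : e0 P (x.1 + k, x.2.1 + l, x.2.2) = e0 P x + ((k : ℝ), (l : ℝ), (0 : ℝ)) := by
        rw [h1]
        ext <;> simp
      unfold clmE
      rw [e, e2, ← e]
      module⟩)
    (C := clmC P) (clm_C_compact P)
    (fun x hx => by
      obtain ⟨u, y, t⟩ := x
      have h1 : t = 0 := hx.2.2.1
      subst h1
      exact De_page h (clm_C_half h hx))
    (fun s hs x hx => clm_bij h hs hx)
    (fun s hs x hx x' hx' m hm he => by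
      rw [clm_page h hx.2.2.1 (fun m n => (clm_C_half h hx m n).le),
        clm_page h hx'.2.2.1 (fun m n => (clm_C_half h hx' m n).le)] at he
      exact ⟨m, hm, he⟩)
    (fun s hs x hx => by
      rw [clm_page h hx.2.2.1 (fun m n => (clm_C_half h hx m n).le)]
      refine ⟨?_, fun m n => ?_⟩
      · rw [hx.2.2.1, abs_zero]; exact h0
      · have h1 := hx.2.2.2 m n
        have h2 := clm_d₁ h
        nlinarith)
  refine ⟨F, U, hM, hU, hCU, ?_, ?_⟩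
  · intro x hx
    have h1 := hFU x hx
    simpa [clmE] using h1
  · intro y hy
    apply hlast
    intro s hs x hx m hm he s' hs'
    obtain ⟨k, l, rfl⟩ := hm
    obtain ⟨hp, hz⟩ := e0_sign h hx
    have h3 : (1 - s) * (e0 P x).2.2 + s * x.2.2 = 0 := by
      have := congrArg (fun v : ℝ × ℝ × ℝ => v.2.2) he
      simpa [clmE, hy] using this
    have hx0 : x.2.2 = 0 := by
      rcases lt_trichotomy x.2.2 0 with h4 | h4 | h4
      · exfalso
        have h5 : (e0 P x).2.2 < 0 := by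
          rcases lt_trichotomy (e0 P x).2.2 0 with h6 | h6 | h6
          · exact h6
          · exact absurd (hz.1 h6) h4.ne
          · exact absurd (hp.1 h6) (by linarith)
        rcases eq_or_lt_of_le hs.1 with h6 | h6
        · rw [← h6] at h3; linarith
        · have : (1 - s) * (e0 P x).2.2 ≤ 0 :=
            mul_nonpos_of_nonneg_of_nonpos (by linarith [hs.2]) h5.le
          have : s * x.2.2 < 0 := mul_neg_of_pos_of_neg h6 h4
          linarith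
      · exact h4
      · exfalso
        have h5 := hp.2 h4
        rcases eq_or_lt_of_le hs.1 with h6 | h6
        · rw [← h6] at h3; linarith
        · have : 0 ≤ (1 - s) * (e0 P x).2.2 := mul_nonneg (by linarith [hs.2]) h5.le
          have : 0 < s * x.2.2 := mul_pos h6 h4
          linarith
    have hd : ∀ m n : ℤ, (P.d₁ / 2) ^ 2 ≤ (x.1 - m) ^ 2 + (x.2.1 - n) ^ 2 := fun m n => (hx.2.1 m n).le
    rw [← he, clm_page h hx0 hd, clm_page h hx0 hd]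


section maps

variable {x₀ : ℝ} {F : Equiv.Perm (ℝ × ℝ × ℝ)}

theorem clm_add (q : ℝ × ℝ × ℝ) (k l : ℤ) :
    q + ((k : ℝ), (l : ℝ), (0 : ℝ)) = (q.1 + k, q.2.1 + l, q.2.2) := by
  ext <;> simp

theorem clm_off (hM : ISO.Move clmL (Oq P x₀) F) {q : ℝ × ℝ × ℝ} (hq : q ∉ Oq P x₀) : F q = q := by
  obtain ⟨C, _, hC, hF⟩ := hM.supp
  apply hF
  intro m hm hmC
  apply hq
  have h1 := clm_Oq_shift (hC hmC) (clmL.neg_mem hm)
  rwa [add_neg_cancel_right] at h1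

theorem clm_in (hM : ISO.Move clmL (Oq P x₀) F) {q : ℝ × ℝ × ℝ} (hq : q ∈ Oq P x₀) : F q ∈ Oq P x₀ := by
  by_contra hn
  have h1 := clm_off hM hn
  have h2 := F.injective h1
  rw [h2] at hn
  exact hn hq

theorem clm_symm_off (hM : ISO.Move clmL (Oq P x₀) F) {q : ℝ × ℝ × ℝ} (hq : q ∉ Oq P x₀) :
    F.symm q = q := by
  rw [Equiv.symm_apply_eq]
  exact (clm_off hM hq).symm

theorem clm_symm_in (hM : ISO.Move clmL (Oq P x₀) F) {q : ℝ × ℝ × ℝ} (hq : q ∈ Oq P x₀) :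
    F.symm q ∈ Oq P x₀ := by
  by_contra hn
  have h1 := clm_off hM hn
  rw [Equiv.apply_symm_apply] at h1
  rw [← h1] at hn
  exact hn hq

theorem clm_lt1 (h1 : x₀ < 1) (hM : ISO.Move clmL (Oq P x₀) F) {q : ℝ × ℝ × ℝ} (hq : |q.2.2| < 1) :
    |(F q).2.2| < 1 := by
  by_cases h : q ∈ Oq P x₀
  · exact lt_trans (clm_in hM h).1 h1
  · rw [clm_off hM h]; exact hq

theorem clm_symm_lt1 (h1 : x₀ < 1) (hM : ISO.Move clmL (Oq P x₀) F) {q : ℝ × ℝ × ℝ} (hq : |q.2.2| < 1) :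
    |(F.symm q).2.2| < 1 := by
  by_cases h : q ∈ Oq P x₀
  · exact lt_trans (clm_symm_in hM h).1 h1
  · rw [clm_symm_off hM h]; exact hq

theorem clm_ltx (hM : ISO.Move clmL (Oq P x₀) F) {q : ℝ × ℝ × ℝ} (hq : |q.2.2| < x₀) :
    |(F q).2.2| < x₀ := by
  by_cases h : q ∈ Oq P x₀
  · exact (clm_in hM h).1
  · rw [clm_off hM h]; exact hq

theorem clm_zero (hF0 : ∀ y : ℝ × ℝ × ℝ, y.2.2 = 0 → F y = y) {q : ℝ × ℝ × ℝ} (hq : (F q).2.2 = 0) :
    q.2.2 = 0 := by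
  have h1 := hF0 _ hq
  have h2 := F.injective h1
  rw [← h2]
  exact hq

theorem clm_pos (hM : ISO.Move clmL (Oq P x₀) F) (hF0 : ∀ y : ℝ × ℝ × ℝ, y.2.2 = 0 → F y = y)
    {q : ℝ × ℝ × ℝ} (hq : 0 < q.2.2) : 0 < (F q).2.2 := by
  by_contra hn
  have hcont : Continuous fun s : ℝ => (F (q.1, q.2.1, q.2.2 + s)).2.2 :=
    (hM.smooth.continuous.comp (by fun_prop : Continuous fun s : ℝ => ((q.1, q.2.1, q.2.2 + s) : ℝ × ℝ × ℝ))).snd.snd
  have hlarge : 0 < (F (q.1, q.2.1, q.2.2 + |x₀|)).2.2 := by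
    have : ((q.1, q.2.1, q.2.2 + |x₀|) : ℝ × ℝ × ℝ) ∉ Oq P x₀ := by
      intro hin
      have h2 : |q.2.2 + abs x₀| < x₀ := hin.1
      have h3 := le_abs_self (q.2.2 + abs x₀)
      have h4 := le_abs_self x₀
      linarith
    rw [clm_off hM this]
    have := abs_nonneg x₀
    simp only
    linarith
  have hmem : (0 : ℝ) ∈ Icc ((F (q.1, q.2.1, q.2.2 + 0)).2.2) ((F (q.1, q.2.1, q.2.2 + |x₀|)).2.2) := by
    refine ⟨?_, hlarge.le⟩
    rw [add_zero]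
    exact not_lt.1 hn
  obtain ⟨s, hs, hs0⟩ := intermediate_value_Icc (abs_nonneg x₀) hcont.continuousOn hmem
  have h5 := clm_zero hF0 hs0
  simp only at h5
  linarith [hs.1]

theorem clm_neg (hM : ISO.Move clmL (Oq P x₀) F) (hF0 : ∀ y : ℝ × ℝ × ℝ, y.2.2 = 0 → F y = y)
    {q : ℝ × ℝ × ℝ} (hq : q.2.2 < 0) : (F q).2.2 < 0 := by
  by_contra hn
  have hcont : Continuous fun s : ℝ => (F (q.1, q.2.1, q.2.2 - s)).2.2 :=
    (hM.smooth.continuous.comp (by fun_prop : Continuous fun s : ℝ => ((q.1, q.2.1, q.2.2 - s) : ℝ × ℝ × ℝ))).snd.snd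
  have hlarge : (F (q.1, q.2.1, q.2.2 - |x₀|)).2.2 < 0 := by
    have : ((q.1, q.2.1, q.2.2 - |x₀|) : ℝ × ℝ × ℝ) ∉ Oq P x₀ := by
      intro hin
      have h2 : |q.2.2 - abs x₀| < x₀ := hin.1
      have h3 := neg_abs_le (q.2.2 - abs x₀)
      have h4 := le_abs_self x₀
      linarith
    rw [clm_off hM this]
    have := abs_nonneg x₀
    simp only
    linarith
  have hmem : (0 : ℝ) ∈ Icc ((F (q.1, q.2.1, q.2.2 - |x₀|)).2.2) ((F (q.1, q.2.1, q.2.2 - 0)).2.2) := by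
    refine ⟨hlarge.le, ?_⟩
    rw [sub_zero]
    exact not_lt.1 hn
  obtain ⟨s, hs, hs0⟩ := intermediate_value_Icc' (abs_nonneg x₀) hcont.continuousOn hmem
  have h5 := clm_zero hF0 hs0
  simp only at h5
  linarith [hs.1]

/-- the map -/
noncomputable def clmT (F : Equiv.Perm (ℝ × ℝ × ℝ)) (x : F3) : F3 := by
  classical exact
    if h : ∃ q : ℝ × ℝ × ℝ, |q.2.2| < 1 ∧ x = cyl q then cyl (F h.choose) else x

theorem clm_cyl_eq {q q' : ℝ × ℝ × ℝ} (hq : |q.2.2| < 1) (hq' : |q'.2.2| < 1) (h : cyl q = cyl q') :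
    ∃ m : ℤ, q' = q + ((m : ℝ), ((0 : ℤ) : ℝ), (0 : ℝ)) := by
  obtain ⟨e1, e2, m, e3⟩ := cyl_inj (u := q.1) (Y := q.2.1) (X := q.2.2) (u' := q'.1) (Y' := q'.2.1)
    (X' := q'.2.2) hq hq' h
  refine ⟨m, ?_⟩
  ext
  · simpa using e3
  · simpa using e1
  · simpa using e2

theorem clm_cyl_add (q : ℝ × ℝ × ℝ) (k l : ℤ) :
    cyl (q + ((k : ℝ), (l : ℝ), (0 : ℝ))) = Real.exp l • cyl q := by
  rw [clm_add]
  exact cyl_shift q.1 q.2.1 q.2.2 k l

theorem clm_cyl_add0 (q : ℝ × ℝ × ℝ) (k : ℤ) :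
    cyl (q + ((k : ℝ), ((0 : ℤ) : ℝ), (0 : ℝ))) = cyl q := by
  rw [clm_cyl_add]
  simp

theorem clm_T_cyl (hM : ISO.Move clmL (Oq P x₀) F) {q : ℝ × ℝ × ℝ} (hq : |q.2.2| < 1) :
    clmT F (cyl q) = cyl (F q) := by
  have hex : ∃ q' : ℝ × ℝ × ℝ, |q'.2.2| < 1 ∧ cyl q = cyl q' := ⟨q, hq, rfl⟩
  have e : clmT F (cyl q) = cyl (F hex.choose) := by
    unfold clmT
    rw [dif_pos hex]
  rw [e]
  obtain ⟨h1, h2⟩ := hex.choose_spec
  obtain ⟨m, hm⟩ := clm_cyl_eq hq h1 h2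
  rw [hm, hM.comm _ ⟨m, 0, by simp⟩, clm_cyl_add0]

theorem clm_T_axis {x : F3} (hx : x.1 = 0) : clmT F x = x := by
  unfold clmT
  rw [dif_neg]
  rintro ⟨q, hq, rfl⟩
  exact cyl_fst (u := q.1) (Y := q.2.1) hq hx

theorem clm_cases (x : F3) : x.1 = 0 ∨ ∃ q : ℝ × ℝ × ℝ, |q.2.2| < 1 ∧ x = cyl q := by
  by_cases h : x.1 = 0
  · exact Or.inl h
  · obtain ⟨u, Y, X, h1, _, h3⟩ := exists_cyl h
    exact Or.inr ⟨(u, Y, X), h1, h3⟩

theorem clm_T_off (hM : ISO.Move clmL (Oq P x₀) F) {x : F3} (hx : x ∉ OO P x₀) : clmT F x = x := by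
  rcases clm_cases x with h | ⟨q, hq, rfl⟩
  · exact clm_T_axis h
  · rw [clm_T_cyl hM hq, clm_off hM]
    intro hin
    exact hx ⟨q, hin, rfl⟩

theorem clm_fst (x : F3) (q : ℝ × ℝ × ℝ) (hq : |q.2.2| < 1) (h : x = cyl q) : x.1 ≠ 0 := by
  rw [h]
  exact cyl_fst (u := q.1) (Y := q.2.1) hq

theorem clm_snd_pos (q : ℝ × ℝ × ℝ) : 0 < (cyl q).2 ↔ 0 < q.2.2 := by
  have : (cyl q).2 = Real.exp q.2.1 * q.2.2 := by simp [cyl]
  rw [this]
  exact mul_pos_iff_of_pos_left (Real.exp_pos _)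

theorem clm_snd_neg (q : ℝ × ℝ × ℝ) : (cyl q).2 < 0 ↔ q.2.2 < 0 := by
  have : (cyl q).2 = Real.exp q.2.1 * q.2.2 := by simp [cyl]
  rw [this]
  constructor
  · intro h
    by_contra hn
    have := mul_nonneg (Real.exp_pos q.2.1).le (not_lt.1 hn)
    linarith
  · intro h
    exact mul_neg_of_pos_of_neg (Real.exp_pos _) h

theorem clm_snd_zero (q : ℝ × ℝ × ℝ) : (cyl q).2 = 0 ↔ q.2.2 = 0 := by
  have : (cyl q).2 = Real.exp q.2.1 * q.2.2 := by simp [cyl]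
  rw [this, mul_eq_zero]
  simp [Real.exp_ne_zero]

theorem clm_T_ld (h1 : x₀ < 1) (hM : ISO.Move clmL (Oq P x₀) F) {x : F3} (hx : x ≠ 0) : LD (clmT F) x := by
  rcases clm_cases x with h | ⟨q, hq, rfl⟩
  · have hx2 : x.2 ≠ 0 := by
      intro h2
      exact hx (Prod.ext h h2)
    have hq2 : rr x = |x.2| := by
      unfold rr q2
      rw [h]
      simp [Real.sqrt_sq_eq_abs]
    have hrr : 0 < rr x := by rw [hq2]; exact abs_pos.2 hx2
    have hcont : Continuous rr := by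
      unfold rr q2
      exact Real.continuous_sqrt.comp (by
        have : Continuous fun x : F3 => normSq x.1 := Complex.continuous_normSq.comp continuous_fst
        exact this.add (continuous_snd.pow 2))
    have hev : ∀ᶠ y : F3 in 𝓝 x, x₀ * rr y < |y.2| := by
      refine (isOpen_lt (hcont.const_smul x₀) (continuous_snd.abs)).mem_nhds ?_
      show x₀ • rr x < |x.2|
      rw [hq2, smul_eq_mul]
      have := abs_pos.2 hx2
      nlinarith
    refine CSG.ld_congr (f := id) (CSG.ld_id x) ?_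
    filter_upwards [hev] with y hy
    refine clm_T_off hM ?_
    rintro ⟨q, hqO, rfl⟩
    have h3 : |q.2.2| < x₀ := hqO.1
    have h4 : rr (cyl q) = Real.exp q.2.1 := cyl_rr (u := q.1) (Y := q.2.1) (by linarith)
    have h5 : (cyl q).2 = Real.exp q.2.1 * q.2.2 := by simp [cyl]
    rw [h4, h5, abs_mul, abs_of_pos (Real.exp_pos _)] at hy
    have := Real.exp_pos q.2.1
    nlinarith
  · have hl : LD cyl q := cyl_ld (u := q.1) (Y := q.2.1) hq
    refine CSG.ld_of_comp_left (g := clmT F) ?_ hl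
    have hl2 : LD cyl (F q) := cyl_ld (u := (F q).1) (Y := (F q).2.1) (clm_lt1 h1 hM hq)
    have hF : LD F q := CSG.ld_of_perm hM.smooth hM.smooth_symm q
    have hc : LD (cyl ∘ F) q := hF.comp 𝓘(ℝ, F3) F3 hl2
    refine CSG.ld_congr hc ?_
    have hev : ∀ᶠ q' : ℝ × ℝ × ℝ in 𝓝 q, |q'.2.2| < 1 :=
      (isOpen_lt (by fun_prop) continuous_const : IsOpen {q' : ℝ × ℝ × ℝ | |q'.2.2| < 1}).mem_nhds hq
    filter_upwards [hev] with q' hq'
    exact clm_T_cyl hM hq'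

end maps

theorem clm_norm (F : Equiv.Perm (ℝ × ℝ × ℝ)) (hc : Continuous F) (hcomm : ∀ m ∈ clmL, ∀ x, F (x + m) = F x + m)
    (hF0 : ∀ y : ℝ × ℝ × ℝ, y.2.2 = 0 → F y = y) {ε : ℝ} (hε : 0 < ε) :
    ∃ η : ℝ, 0 < η ∧ ∀ u Y X : ℝ, |X| ≤ η → |(F (u, Y, X)).1 - u| < ε ∧ |(F (u, Y, X)).2.1 - Y| < ε := by
  obtain ⟨η, hη, H⟩ := clm_tube clm_K_compact
    (U := {q : ℝ × ℝ × ℝ | |(F q).1 - q.1| < ε} ∩ {q : ℝ × ℝ × ℝ | |(F q).2.1 - q.2.1| < ε})
    (IsOpen.inter (isOpen_lt (by fun_prop) continuous_const) (isOpen_lt (by fun_prop) continuous_const))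
    (by
      rintro ⟨u, y, t⟩ hk
      have ht : t = 0 := hk.2.2
      subst ht
      constructor
      · show |(F (u, y, 0)).1 - u| < ε
        rw [hF0 _ rfl]
        simpa using hε
      · show |(F (u, y, 0)).2.1 - y| < ε
        rw [hF0 _ rfl]
        simpa using hε)
  refine ⟨η, hη, ?_⟩
  intro u Y X hX
  have h1 := H (u - round u) (Y - round Y) X ⟨abs_sub_round u, abs_sub_round Y, rfl⟩ hX
  have e1 : ((u, Y, X) : ℝ × ℝ × ℝ) = (u - round u, Y - round Y, X) + ((round u : ℝ), (round Y : ℝ), (0 : ℝ)) := by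
    simp
  have e2 : F (u, Y, X) = F (u - round u, Y - round Y, X) + ((round u : ℝ), (round Y : ℝ), (0 : ℝ)) := by
    rw [e1]
    exact hcomm _ ⟨round u, round Y, rfl⟩ _
  rw [e2]
  obtain ⟨h2, h3⟩ := h1
  simp only [mem_ofPred_eq] at h2 h3
  constructor
  · have : (F (u - round u, Y - round Y, X) + ((round u : ℝ), (round Y : ℝ), (0 : ℝ))).1 - u =
        (F (u - round u, Y - round Y, X)).1 - (u - round u) := by
      rw [Prod.fst_add]; ring
    rw [this]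
    exact h2
  · have : (F (u - round u, Y - round Y, X) + ((round u : ℝ), (round Y : ℝ), (0 : ℝ))).2.1 - Y =
        (F (u - round u, Y - round Y, X)).2.1 - (Y - round Y) := by
      rw [Prod.snd_add, Prod.fst_add]; ring
    rw [this]
    exact h3

theorem exists_Ft (h : P.Ok) {x₀ : ℝ} (h0 : 0 < x₀) (h1 : x₀ < 1) : ∃ (η : ℝ) (Ft : F3 → F3), Str P x₀ η Ft := by
  obtain ⟨F, U, hM, hU, hCU, hFU, hF0⟩ := clm_F h h0
  have hd1 := clm_d₁ h
  obtain ⟨η₁, hη₁, H1⟩ := clm_tube (clm_C_compact P) (hU.inter (De_open h)) (fun x hx => ⟨hCU hx, by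
    obtain ⟨u, y, t⟩ := x
    have h1 : t = 0 := hx.2.2.1
    subst h1
    exact De_page h (clm_C_half h hx)⟩)
  obtain ⟨η₂, hη₂, H2⟩ := clm_norm F hM.smooth.continuous hM.comm hF0 (ε := P.d₁ / 8) (by linarith)
  refine ⟨min (min η₁ η₂) (x₀ / 2), clmT F, ?_⟩
  have hη1 : min (min η₁ η₂) (x₀ / 2) ≤ η₁ := le_trans (min_le_left _ _) (min_le_left _ _)
  have hη2 : min (min η₁ η₂) (x₀ / 2) ≤ η₂ := le_trans (min_le_left _ _) (min_le_right _ _)
  have hη3 : min (min η₁ η₂) (x₀ / 2) ≤ x₀ / 2 := min_le_right _ _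
  refine ⟨?_, ?_, fun x hx => clm_T_ld h1 hM hx, ?_, ?_, ?_, ?_, fun x _ hx => clm_T_off hM hx, ?_, ?_, ?_, ?_, ?_⟩
  · exact lt_min (lt_min hη₁ hη₂) (by linarith)
  · linarith
  · intro x hx
    rcases clm_cases x with h2 | ⟨q, hq, rfl⟩
    · rw [clm_T_axis h2]; exact hx
    · rw [clm_T_cyl hM hq]
      exact cyl_ne (u := (F q).1) (Y := (F q).2.1) (clm_lt1 h1 hM hq).le
  · intro x y hx hy he
    rcases clm_cases x with h2 | ⟨q, hq, rfl⟩
    · rcases clm_cases y with h3 | ⟨q', hq', rfl⟩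
      · rwa [clm_T_axis h2, clm_T_axis h3] at he
      · rw [clm_T_axis h2, clm_T_cyl hM hq'] at he
        exact absurd h2 (clm_fst x _ (clm_lt1 h1 hM hq') he)
    · rcases clm_cases y with h3 | ⟨q', hq', rfl⟩
      · rw [clm_T_axis h3, clm_T_cyl hM hq] at he
        exact absurd h3 (clm_fst y _ (clm_lt1 h1 hM hq) he.symm)
      · rw [clm_T_cyl hM hq, clm_T_cyl hM hq'] at he
        obtain ⟨m, hm⟩ := clm_cyl_eq (clm_lt1 h1 hM hq) (clm_lt1 h1 hM hq') he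
        rw [← hM.comm _ ⟨m, 0, by simp⟩] at hm
        have := F.injective hm
        rw [this, clm_cyl_add0]
  · intro y hy
    rcases clm_cases y with h2 | ⟨q, hq, rfl⟩
    · exact ⟨y, hy, clm_T_axis h2⟩
    · refine ⟨cyl (F.symm q), cyl_ne (u := (F.symm q).1) (Y := (F.symm q).2.1) (clm_symm_lt1 h1 hM hq).le, ?_⟩
      rw [clm_T_cyl hM (clm_symm_lt1 h1 hM hq), Equiv.apply_symm_apply]
  · intro n x hx
    rcases clm_cases x with h2 | ⟨q, hq, rfl⟩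
    · rw [clm_T_axis h2, clm_T_axis]
      rw [Prod.smul_fst, h2, smul_zero]
    · rw [clm_T_cyl hM hq, ← clm_cyl_add q 0 n, ← clm_cyl_add (F q) 0 n, ← hM.comm _ ⟨0, n, rfl⟩]
      refine clm_T_cyl hM ?_
      simpa using hq
  · intro x hx hx2
    rcases clm_cases x with h2 | ⟨q, hq, rfl⟩
    · exact clm_T_axis h2
    · rw [clm_T_cyl hM hq, hF0 _ ((clm_snd_zero q).1 hx2)]
  · intro x hx
    rcases clm_cases x with h2 | ⟨q, hq, rfl⟩
    · rw [clm_T_axis h2]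
    · rw [clm_T_cyl hM hq, clm_snd_pos, clm_snd_pos]
      constructor
      · intro h3
        rcases lt_trichotomy q.2.2 0 with h4 | h4 | h4
        · exact absurd (clm_neg hM hF0 h4) (by linarith)
        · rw [hF0 _ h4] at h3; exact h3
        · exact h4
      · exact clm_pos hM hF0
  · intro x hx
    rcases clm_cases x with h2 | ⟨q, hq, rfl⟩
    · rw [clm_T_axis h2]
    · rw [clm_T_cyl hM hq, clm_snd_neg, clm_snd_neg]
      constructor
      · intro h3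
        rcases lt_trichotomy q.2.2 0 with h4 | h4 | h4
        · exact h4
        · rw [hF0 _ h4] at h3; exact h3
        · exact absurd (clm_pos hM hF0 h4) (by linarith)
      · exact clm_neg hM hF0
  · intro u Y X hX
    obtain ⟨h2, h3⟩ := H2 u Y X (le_trans hX hη2)
    refine ⟨(F (u, Y, X)).1, (F (u, Y, X)).2.1, (F (u, Y, X)).2.2, h2, h3, ?_, ?_⟩
    · exact clm_ltx hM (q := (u, Y, X)) (lt_of_le_of_lt hX (by linarith))
    · exact clm_T_cyl hM (q := (u, Y, X)) (lt_of_le_of_lt hX (by linarith))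
  · intro u y t ht hd
    have h2 := H1 (u - round u) (y - round y) t ⟨abs_sub_round u, abs_sub_round y, rfl, by
      have := clm_le_shift hd (-round u) (-round y)
      simpa [sub_eq_add_neg] using this⟩ (le_trans ht hη1)
    have e1 : ((u, y, t) : ℝ × ℝ × ℝ) = ((u - round u) + (round u : ℤ), (y - round y) + (round y : ℤ), t) := by
      simp
    have hDe : ((u, y, t) : ℝ × ℝ × ℝ) ∈ De P := by
      rw [e1]
      exact De_per h2.2 _ _
    have h3 := e0_per (P := P) (u - round u, y - round y, t) (Wx_ne h h2.2.1) (round u) (round y)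
    simp only at h3
    rw [← e1] at h3
    obtain ⟨h4, h5⟩ := cyl_e0 h hDe
    rw [← h4, clm_T_cyl hM h5]
    congr 1
    have h6 := hFU _ h2.1
    have h7 : e0 P (u, y, t) = e0 P (u - round u, y - round y, t) + ((round u : ℝ), (round y : ℝ), (0 : ℝ)) := by
      rw [h3, clm_add]
    rw [h7, hM.comm _ ⟨round u, round y, rfl⟩, h6]
    simp

end Pool.Agent.CHW
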