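import Pool.Agent.CHW.OpM

/-!
# CHW/CrA: the inverse Joukowski map   (difficulty 2)

`ρ = 1/2000`, `Jou V = (V + √(V² + 4ρ²))/2`, principal square root (`z ^ (1/2)`).  `V` is good if it is not on the slit `V = i v, |v| ≥ 2ρ = 1/1000`; then
`D = V² + 4ρ²` is not in `(-∞, 0]` (if `V² ∈ (-∞, -4ρ²]` then `V = iv`, `|v| ≥ 2ρ`), so `R = √D` has `Re R > 0`, `R² = D`, and it is an analytic function of `V`.
* `Jou_eq`: `X = (V + R)/2`, `X (X - V) = (R² - V²)/4 = ρ²`, so `X ≠ 0` and `X - ρ²/X = V`.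
* `Jou_re`: if `Re R ≤ -Re V =: r` (`r > 0`), then from `Re R Im R = Re V Im V`: `|Im R| ≥ |Im V|`, so `(Re R)² - (Im R)² ≤ r² - (Im V)² < r² - (Im V)² + 4ρ²`, contradiction to
  `Re (R²) = Re D`.  (If `Re V ≥ 0` it is clear.)
* `Jou_uniq`: the roots of `X² - V X - ρ² = 0` are `X` and `-ρ²/X = -ρ² X̄/|X|²`, whose real parts have opposite signs.
* `Jou_norm`: `Re X (1 - ρ²/|X|²) = Re V`.
* `Jou_neg`: `ρ²/X̄` has positive real part and `ρ²/X̄ - X̄ = - conj (X - ρ²/X) = - V̄`: `Jou_uniq`.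
* `Jou_ld`: `F X = X - ρ²/X` is a local diffeomorphism at `X` with `Re X > 0` (complex derivative `1 + ρ²/X² ≠ 0`: `X² = -ρ²` means `X = ± iρ`); `F ∘ Jou = id` near `V` and
  `Jou` is continuous at `V`: `CSG.ld_of_comp_right`.
* `Jou_imag`: `R = √(4ρ² - v²) > 0` real.
-/

open scoped Manifold ContDiff Topology
open Set Filter
open Complex (I normSq)

namespace Pool.Agent.CHW

open Pool.Agent.CSG (stp thc)
open Pool.Agent.RSG (ex)

/-- not on the slit -/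
def GV (V : ℂ) : Prop := V.re ≠ 0 ∨ |V.im| < 1 / 1000

theorem GV_open : IsOpen {V | GV V} := by
  have h1 : IsOpen {V : ℂ | V.re ≠ 0} := isOpen_ne_fun Complex.continuous_re continuous_const
  have h2 : IsOpen {V : ℂ | |V.im| < 1 / 1000} :=
    isOpen_lt Complex.continuous_im.abs continuous_const
  exact h1.union h2

theorem GV_neg {V : ℂ} (h : GV V) : GV (-(starRingEnd ℂ) V) ∧ GV ((starRingEnd ℂ) V) := by
  constructor
  · rcases h with h | h
    · left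
      simpa using h
    · right
      simpa using h
  · rcases h with h | h
    · left
      simpa using h
    · right
      simpa using h

/-- the square root -/
noncomputable def CrA_R (V : ℂ) : ℂ := (V ^ 2 + 4 * (1 / 2000 : ℂ) ^ 2) ^ (1 / 2 : ℂ)

theorem CrA_J (V : ℂ) : Jou V = (V + CrA_R V) / 2 := rfl

theorem CrA_D (V : ℂ) : (V ^ 2 + 4 * (1 / 2000 : ℂ) ^ 2).re = V.re ^ 2 - V.im ^ 2 + 1 / 1000000 ∧
    (V ^ 2 + 4 * (1 / 2000 : ℂ) ^ 2).im = 2 * V.re * V.im := by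
  have e : (4 * (1 / 2000 : ℂ) ^ 2) = ((1 / 1000000 : ℝ) : ℂ) := by
    push_cast
    norm_num
  rw [e]
  constructor
  · rw [Complex.add_re, Complex.ofReal_re, pow_two, Complex.mul_re]
    ring
  · rw [Complex.add_im, Complex.ofReal_im, pow_two, Complex.mul_im]
    ring

theorem CrA_slit {V : ℂ} (h : GV V) : V ^ 2 + 4 * (1 / 2000 : ℂ) ^ 2 ∈ Complex.slitPlane := by
  obtain ⟨e1, e2⟩ := CrA_D V
  rw [Complex.mem_slitPlane_iff, e1, e2]
  by_cases hr : V.re = 0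
  · left
    rcases h with h | h
    · exact absurd hr h
    · rw [hr]
      have := abs_lt.1 h
      nlinarith
  · by_cases hi : V.im = 0
    · left
      rw [hi]
      have : 0 < V.re ^ 2 := by positivity
      linarith
    · right
      exact mul_ne_zero (mul_ne_zero two_ne_zero hr) hi

theorem CrA_sq (V : ℂ) : CrA_R V ^ 2 = V ^ 2 + 4 * (1 / 2000 : ℂ) ^ 2 := by
  unfold CrA_R
  have : (1 / 2 : ℂ) = ((2 : ℕ) : ℂ)⁻¹ := by norm_num
  rw [this, Complex.cpow_nat_inv_pow _ two_ne_zero]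

theorem CrA_Rre {V : ℂ} (h : GV V) : 0 < (CrA_R V).re := by
  have h1 := CrA_slit h
  unfold CrA_R
  have : (1 / 2 : ℂ) = (2 : ℂ)⁻¹ := by norm_num
  rw [this, Complex.cpow_inv_two_re]
  apply Real.sqrt_pos.2
  have h2 : 0 < ‖V ^ 2 + 4 * (1 / 2000 : ℂ) ^ 2‖ + (V ^ 2 + 4 * (1 / 2000 : ℂ) ^ 2).re := by
    generalize V ^ 2 + 4 * (1 / 2000 : ℂ) ^ 2 = D at h1
    rw [Complex.mem_slitPlane_iff] at h1
    have h3 : 0 ≤ ‖D‖ := norm_nonneg _
    have h4 : ‖D‖ ^ 2 = D.re ^ 2 + D.im ^ 2 := by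
      rw [← Complex.normSq_eq_norm_sq, Complex.normSq_apply]
      ring
    by_contra hc
    rw [not_lt] at hc
    rcases h1 with h1 | h1
    · linarith
    · have h5 : 0 < D.im ^ 2 := by positivity
      nlinarith
  linarith

theorem CrA_eqs (V : ℂ) : (CrA_R V).re ^ 2 - (CrA_R V).im ^ 2 =
      V.re ^ 2 - V.im ^ 2 + 1 / 1000000 ∧ (CrA_R V).re * (CrA_R V).im = V.re * V.im := by
  obtain ⟨e1, e2⟩ := CrA_D V
  rw [← CrA_sq, pow_two, Complex.mul_re] at e1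
  rw [← CrA_sq, pow_two, Complex.mul_im] at e2
  constructor
  · linarith
  · linarith

theorem Jou_re {V : ℂ} (h : GV V) : 0 < (Jou V).re := by
  have h1 := CrA_Rre h
  obtain ⟨e1, e2⟩ := CrA_eqs V
  have h2 : (Jou V).re = (V.re + (CrA_R V).re) / 2 := by
    rw [CrA_J]
    simp
  rw [h2]
  generalize (CrA_R V).re = a at *
  generalize (CrA_R V).im = b at *
  by_contra hc
  have hc' : a ≤ -V.re := by linarith
  have h3 : 0 < -V.re := by linarith
  have h4 : a ^ 2 ≤ V.re ^ 2 := by nlinarith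
  have h5 : V.im ^ 2 ≤ b ^ 2 := by
    by_contra hc2
    rw [not_le] at hc2
    have h6 : a ^ 2 * b ^ 2 = V.re ^ 2 * V.im ^ 2 := by
      rw [← mul_pow, ← mul_pow, e2]
    have h7 : a ^ 2 * b ^ 2 ≤ V.re ^ 2 * b ^ 2 := mul_le_mul_of_nonneg_right h4 (sq_nonneg _)
    have h8 : V.re ^ 2 * b ^ 2 < V.re ^ 2 * V.im ^ 2 := by
      apply mul_lt_mul_of_pos_left hc2
      nlinarith
    linarith
  linarith

theorem CrA_ne {V : ℂ} (h : GV V) : Jou V ≠ 0 := by
  intro h2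
  have := Jou_re h
  rw [h2] at this
  simp at this

theorem CrA_prod {V : ℂ} : Jou V * (Jou V - V) = (1 / 2000) ^ 2 := by
  have h := CrA_sq V
  rw [CrA_J]
  linear_combination (1 / 4) * h

theorem Jou_eq {V : ℂ} (h : GV V) : Jou V - (1 / 2000) ^ 2 / Jou V = V := by
  rw [← CrA_prod (V := V), mul_div_cancel_left₀ _ (CrA_ne h)]
  ring

/-- real and imaginary part of `X - ρ²/X` -/
theorem CrA_parts {X : ℂ} (_ : 0 < X.re) :
    (X - (1 / 2000) ^ 2 / X).re = X.re * (1 - (1 / 2000) ^ 2 / normSq X) ∧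
    (X - (1 / 2000) ^ 2 / X).im = X.im * (1 + (1 / 2000) ^ 2 / normSq X) := by
  have e : ((1 / 2000 : ℂ)) ^ 2 / X = (((1 / 2000) ^ 2 / normSq X : ℝ) : ℂ) * (starRingEnd ℂ) X := by
    rw [div_eq_mul_inv, Complex.inv_def]
    push_cast
    ring
  rw [e]
  constructor
  · rw [Complex.sub_re, Complex.re_ofReal_mul, Complex.conj_re]
    ring
  · rw [Complex.sub_im, Complex.im_ofReal_mul, Complex.conj_im]
    ring

theorem CrA_nsq {X : ℂ} (h : 0 < X.re) : 0 < normSq X ∧ X.im ^ 2 < normSq X := by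
  rw [Complex.normSq_apply]
  constructor <;> nlinarith [sq_nonneg X.im]

theorem CrA_GV {X V : ℂ} (h : 0 < X.re) (he : X - (1 / 2000) ^ 2 / X = V) : GV V := by
  obtain ⟨e1, e2⟩ := CrA_parts h
  obtain ⟨n1, n2⟩ := CrA_nsq h
  rw [he] at e1 e2
  by_cases hr : V.re = 0
  · right
    rw [hr] at e1
    have h1 : 1 - (1 / 2000) ^ 2 / normSq X = 0 := by
      rcases mul_eq_zero.1 e1.symm with h2 | h2
      · exact absurd h2 h.ne'
      · exact h2
    have h3 : (1 / 2000) ^ 2 / normSq X = 1 := by linarith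
    have h4 : normSq X = (1 / 2000) ^ 2 := by
      rw [div_eq_one_iff_eq n1.ne'] at h3
      exact h3.symm
    rw [h4] at n2
    rw [e2, h3]
    have h5 : |X.im| < 1 / 2000 := abs_lt_of_sq_lt_sq n2 (by norm_num)
    rw [abs_mul]
    norm_num
    linarith
  · left
    exact hr

theorem Jou_uniq {X V : ℂ} (h : 0 < X.re) (he : X - (1 / 2000) ^ 2 / X = V) :
    GV V ∧ X = Jou V := by
  have hG := CrA_GV h he
  refine ⟨hG, ?_⟩
  have hX : X ≠ 0 := by
    rintro rfl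
    simp at h
  have h1 : X * (X - V) = (1 / 2000) ^ 2 := by
    rw [← he]
    field_simp
    ring
  have h2 := CrA_prod (V := V)
  have h3 : (X - Jou V) * (X + Jou V - V) = 0 := by
    linear_combination h1 - h2
  rcases mul_eq_zero.1 h3 with h4 | h4
  · exact sub_eq_zero.1 h4
  · exfalso
    have h5 : Jou V = -((1 / 2000) ^ 2 / X) := by
      have : Jou V = -(X - V) := by linear_combination h4
      rw [this, ← h1, mul_div_cancel_left₀ _ hX]
    have h6 := Jou_re hG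
    have e : ((1 / 2000 : ℂ)) ^ 2 / X = (((1 / 2000) ^ 2 / normSq X : ℝ) : ℂ) * (starRingEnd ℂ) X := by
      rw [div_eq_mul_inv, Complex.inv_def]
      push_cast
      ring
    rw [h5, e, Complex.neg_re, Complex.re_ofReal_mul, Complex.conj_re] at h6
    have h7 : 0 < (1 / 2000) ^ 2 / normSq X * X.re :=
      mul_pos (div_pos (by norm_num) (CrA_nsq h).1) h
    linarith

theorem CrA_JCre {X : ℂ} (h : 0 < X.re) : 0 < (JC X).re := by
  unfold JC
  rw [one_div, Complex.inv_re]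
  apply div_pos
  · simpa using h
  · rw [Complex.normSq_conj]
    exact (CrA_nsq h).1

theorem CrA_2000 : (starRingEnd ℂ) (2000 : ℂ) = 2000 := by
  have := Complex.conj_ofReal 2000
  push_cast at this
  exact this

theorem Jou_neg {V : ℂ} (h : GV V) :
    Jou (-(starRingEnd ℂ) V) = (((1 / 2000) ^ 2 : ℝ) : ℂ) * JC (Jou V) := by
  have h1 := Jou_re h
  have h2 := Jou_eq h
  symm
  refine (Jou_uniq ?_ ?_).2
  · rw [Complex.re_ofReal_mul]
    exact mul_pos (by norm_num) (CrA_JCre h1)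
  · have h3 : (starRingEnd ℂ) (Jou V) ≠ 0 := by
      simpa using CrA_ne h
    have h4 : (starRingEnd ℂ) V = (starRingEnd ℂ) (Jou V) -
        (1 / 2000) ^ 2 / (starRingEnd ℂ) (Jou V) := by
      conv_lhs => rw [← h2]
      simp [CrA_2000]
    rw [h4]
    unfold JC
    generalize (starRingEnd ℂ) (Jou V) = Y at h3
    push_cast
    field_simp
    ring

theorem Jou_conj {V : ℂ} (h : GV V) : Jou ((starRingEnd ℂ) V) = (starRingEnd ℂ) (Jou V) := by
  have h1 := Jou_re h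
  have h2 := Jou_eq h
  symm
  refine (Jou_uniq ?_ ?_).2
  · simpa using h1
  · conv_rhs => rw [← h2]
    simp [CrA_2000]

theorem CrA_reV {V : ℂ} (h : GV V) :
    V.re = (Jou V).re * (1 - (1 / 2000) ^ 2 / normSq (Jou V)) := by
  have h1 := (CrA_parts (Jou_re h)).1
  rwa [Jou_eq h] at h1

theorem Jou_gt {V : ℂ} (h : 0 < V.re) : 1 / 2000 < ‖Jou V‖ := by
  have hG : GV V := Or.inl h.ne'
  have h1 := CrA_reV hG
  have h2 := Jou_re hG
  obtain ⟨n1, -⟩ := CrA_nsq h2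
  rw [h1] at h
  have h3 : 0 < 1 - (1 / 2000) ^ 2 / normSq (Jou V) := by
    by_contra hc
    rw [not_lt] at hc
    have := mul_nonpos_of_nonneg_of_nonpos h2.le hc
    linarith
  have h4 : (1 / 2000) ^ 2 < normSq (Jou V) := by
    have h5 : (1 / 2000) ^ 2 / normSq (Jou V) < 1 := by linarith
    rwa [div_lt_one n1] at h5
  rw [Complex.normSq_eq_norm_sq] at h4
  exact lt_of_pow_lt_pow_left₀ 2 (norm_nonneg _) h4

theorem Jou_lt {V : ℂ} (h : V.re < 0) : ‖Jou V‖ < 1 / 2000 := by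
  have hG : GV V := Or.inl h.ne
  have h1 := CrA_reV hG
  have h2 := Jou_re hG
  obtain ⟨n1, -⟩ := CrA_nsq h2
  rw [h1] at h
  have h3 : 1 - (1 / 2000) ^ 2 / normSq (Jou V) < 0 := by
    by_contra hc
    rw [not_lt] at hc
    have := mul_nonneg h2.le hc
    linarith
  have h4 : normSq (Jou V) < (1 / 2000) ^ 2 := by
    have h5 : 1 < (1 / 2000) ^ 2 / normSq (Jou V) := by linarith
    rwa [one_lt_div n1] at h5
  rw [Complex.normSq_eq_norm_sq] at h4
  exact lt_of_pow_lt_pow_left₀ 2 (by norm_num) h4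

/-- `‖X‖ - ρ²/‖X‖ ≤ ‖V‖` -/
theorem Jou_le {V : ℂ} (h : GV V) (hV : ‖V‖ ≤ 13 / 10000) :
    ‖Jou V‖ ≤ 3 / 2000 ∧ 1 / 6000 ≤ ‖Jou V‖ := by
  have h1 := Jou_eq h
  have hX := CrA_ne h
  have h2 : 0 < ‖Jou V‖ := norm_pos_iff.2 hX
  have e1 : ‖((1 / 2000 : ℂ)) ^ 2 / Jou V‖ = (1 / 2000) ^ 2 / ‖Jou V‖ := by
    rw [norm_div, norm_pow]
    norm_num
  have h3 : ‖Jou V‖ - (1 / 2000) ^ 2 / ‖Jou V‖ ≤ 13 / 10000 := by
    have := norm_sub_norm_le (Jou V) ((1 / 2000 : ℂ) ^ 2 / Jou V)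
    rw [h1, e1] at this
    linarith
  have h4 : (1 / 2000) ^ 2 / ‖Jou V‖ - ‖Jou V‖ ≤ 13 / 10000 := by
    have := norm_sub_norm_le ((1 / 2000 : ℂ) ^ 2 / Jou V) (Jou V)
    rw [norm_sub_rev, h1, e1] at this
    linarith
  generalize ‖Jou V‖ = s at *
  have h5 : (1 / 2000) ^ 2 / s * s = (1 / 2000) ^ 2 := by
    field_simp
  constructor
  · by_contra hc
    rw [not_le] at hc
    nlinarith
  · by_contra hc
    rw [not_le] at hc
    nlinarith

theorem Jou_imag {v : ℝ} (h : |v| < 1 / 1000) :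
    Jou ⟨0, v⟩ = ⟨Real.sqrt ((1 / 1000) ^ 2 - v ^ 2) / 2, v / 2⟩ ∧ ‖Jou ⟨0, v⟩‖ = 1 / 2000 := by
  have hv := abs_lt.1 h
  have h0 : 0 < (1 / 1000) ^ 2 - v ^ 2 := by nlinarith
  have h1 : 0 < Real.sqrt ((1 / 1000) ^ 2 - v ^ 2) := Real.sqrt_pos.2 h0
  have h2 : Real.sqrt ((1 / 1000) ^ 2 - v ^ 2) ^ 2 = (1 / 1000) ^ 2 - v ^ 2 :=
    Real.sq_sqrt h0.le
  generalize Real.sqrt ((1 / 1000) ^ 2 - v ^ 2) = a at *
  have hn : normSq (⟨a / 2, v / 2⟩ : ℂ) = (1 / 2000) ^ 2 := by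
    rw [Complex.normSq_apply]
    change a / 2 * (a / 2) + v / 2 * (v / 2) = _
    nlinarith
  have hre : 0 < (⟨a / 2, v / 2⟩ : ℂ).re := by
    change 0 < a / 2
    linarith
  obtain ⟨e1, e2⟩ := CrA_parts hre
  rw [hn, div_self (by norm_num)] at e1 e2
  have he : (⟨a / 2, v / 2⟩ : ℂ) - (1 / 2000) ^ 2 / ⟨a / 2, v / 2⟩ = ⟨0, v⟩ := by
    apply Complex.ext
    · rw [e1]
      simp
    · rw [e2]
      change v / 2 * (1 + 1) = v
      ring
  have h3 := (Jou_uniq hre he).2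
  refine ⟨h3.symm, ?_⟩
  rw [← h3]
  have h4 : ‖(⟨a / 2, v / 2⟩ : ℂ)‖ ^ 2 = (1 / 2000) ^ 2 := by
    rw [← Complex.normSq_eq_norm_sq, hn]
  exact (pow_left_inj₀ (norm_nonneg _) (by norm_num) two_ne_zero).1 h4

theorem CrA_Fd {X : ℂ} (h : X ≠ 0) :
    HasDerivAt (fun Y : ℂ => Y - (1 / 2000) ^ 2 / Y) (1 + (1 / 2000) ^ 2 / X ^ 2) X := by
  have h1 := (hasDerivAt_id X).sub ((hasDerivAt_inv h).const_mul ((1 / 2000 : ℂ) ^ 2))
  have h2 := h1.congr_deriv (show (1 - (1 / 2000 : ℂ) ^ 2 * -(X ^ 2)⁻¹) =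
    1 + (1 / 2000) ^ 2 / X ^ 2 by rw [div_eq_mul_inv]; ring)
  refine h2.congr_of_eventuallyEq (Filter.Eventually.of_forall fun Y => ?_)
  simp [div_eq_mul_inv]

theorem CrA_Fld {X : ℂ} (h : 0 < X.re) : LD (fun Y : ℂ => Y - (1 / 2000) ^ 2 / Y) X := by
  have hX : X ≠ 0 := by
    rintro rfl
    simp at h
  apply Pool.Agent.CSG.ld_of_fderiv
  · filter_upwards [isOpen_ne.mem_nhds hX] with y hy
    have e : (fun Y : ℂ => Y - (1 / 2000) ^ 2 / Y) = fun Y : ℂ => Y - (1 / 2000) ^ 2 * Y⁻¹ := by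
      ext Y
      rw [div_eq_mul_inv]
    rw [e]
    exact contDiffAt_id.sub (contDiffAt_const.mul (contDiffAt_id.inv hy))
  · rfl
  · intro v hv
    have h1 := ((CrA_Fd hX).hasFDerivAt.restrictScalars ℝ).fderiv
    rw [h1] at hv
    have h2 : v * (1 + (1 / 2000) ^ 2 / X ^ 2) = 0 := hv
    rcases mul_eq_zero.1 h2 with h3 | h3
    · exact h3
    · exfalso
      have h4 : X ^ 2 + (1 / 2000) ^ 2 = 0 := by
        have : X ^ 2 * (1 + (1 / 2000) ^ 2 / X ^ 2) = 0 := by rw [h3, mul_zero]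
        rw [← this]
        field_simp
      have e1 := congrArg Complex.re h4
      have e2 := congrArg Complex.im h4
      have e : ((1 / 2000 : ℂ)) ^ 2 = (((1 / 2000) ^ 2 : ℝ) : ℂ) := by push_cast; ring
      rw [e, Complex.add_re, Complex.ofReal_re, pow_two, Complex.mul_re, Complex.zero_re] at e1
      rw [e, Complex.add_im, Complex.ofReal_im, pow_two, Complex.mul_im, Complex.zero_im] at e2
      have h5 : X.re * X.im = 0 := by linarith
      rcases mul_eq_zero.1 h5 with h6 | h6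
      · linarith
      · rw [h6] at e1
        nlinarith

theorem Jou_ld {V : ℂ} (h : GV V) : LD Jou V := by
  have hF := CrA_Fld (Jou_re h)
  have hc : ContinuousAt Jou V := by
    have h1 : ContinuousAt (fun V : ℂ => V ^ 2 + 4 * (1 / 2000 : ℂ) ^ 2) V := by fun_prop
    have h2 : ContinuousAt (fun z : ℂ => z ^ (1 / 2 : ℂ)) (V ^ 2 + 4 * (1 / 2000 : ℂ) ^ 2) :=
      continuousAt_cpow_const (CrA_slit h)
    have h3 : ContinuousAt (fun V : ℂ => (V ^ 2 + 4 * (1 / 2000 : ℂ) ^ 2) ^ (1 / 2 : ℂ)) V :=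
      ContinuousAt.comp (f := fun V : ℂ => V ^ 2 + 4 * (1 / 2000 : ℂ) ^ 2)
        (g := fun z : ℂ => z ^ (1 / 2 : ℂ)) h2 h1
    exact (continuousAt_id.add h3).div_const 2
  refine Pool.Agent.CSG.ld_of_comp_right (g := fun Y : ℂ => Y - (1 / 2000) ^ 2 / Y) ?_ hF hc
  refine Pool.Agent.CSG.ld_congr (Pool.Agent.CSG.ld_id V) ?_
  filter_upwards [GV_open.mem_nhds h] with W hW
  exact Jou_eq hW

end Pool.Agent.CHW
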