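import Pool.Agent.CHW.Em
import Pool.Agent.CHW.DpM
import Pool.Agent.CHW.SyM

/-!
# CHW/EeM: the opening `EE` of the points `tau`, `Jv tau`   (difficulty 3)

`B = Bc c = c²/2000`, `k = kc c = B/2000`, `σ = stp 1200 1400`, `eK s = (1-σ) 1000 sinh (ks) + σ B s`, `mK s = (1-σ) 1000 cosh (ks) + σ s`.

* `EK_ok` (`a = 0`, `ma = 1000`): `eK' = (1-σ) 1000 k cosh (ks) + σ B + σ' (B s - 1000 sinh (ks))`; for `s ≤ 1400`: `x = k s ≤ 10⁻⁴`, `sinh x ≤ 1.01 x`, so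
  `1000 sinh (ks) ≤ 1.01 B s / 2 < B s`, and `σ' ≥ 0`, `σ' = 0` for `s ≥ 1400` or `s ≤ 1200`: `eK' > 0`.  `mK' = (1-σ) 1000 k sinh (ks) + σ + σ' (s - 1000 cosh (ks))`;
  `cosh (ks) ≤ 1.01`, so the bracket is `> 0` on `[1200, 1400]`: `mK' > 0` for `s > 0`.  (`1 - σ` and `σ` are not both `0`.)
* `EK_id`: `σ = 1`, the factors are `B s / (B s) = 1` and `s / s = 1`.
* `EP c = tv tau ∘ EK c ∘ tv (-tau)`.
* `EP_ok`: `SyOK (EP c) {x | x ≠ (tau, 0)} {y | ¬ (y.1 = tau ∧ |y.2| ≤ 1000)}`.  `id` with `η = c²`: if `q2 x ≤ 1 + c²` then `‖x.1‖ ≤ √(1 + c²) ≤ 1 + c²/2`, so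
  `‖x.1 - tau‖ ≥ 3/2 c²` and `es B (tv (-tau) x) ≥ ‖x.1 - tau‖ / B ≥ 3000 ≥ 1400`.  The same estimate shows `EP = id` on `{q2 x < 1}`.
  `EM_image`: `EP` is a bijection from `{x ≠ (tau, 0)}` (`es > 0`) onto `{y | ¬ (y.1 = tau ∧ |y.2| ≤ 1000)}`, which is the identity on `{q2 < 1}`; so it maps the
  part `1 ≤ q2` onto the part `1 ≤ q2`.
* `Nn c`: all points off the vertical line over `tau`, its image under `Jv` and `0`.  For `1 ≤ q2 x` only `x.1 ≠ tau` matters (`‖(Jv x).1‖ ≤ 1 < tau`).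
  `(EP x).1 - tau = r (x.1 - tau)`, `r > 0` (`EM_coef`).
* `EE_id`: identity outside of the two spindles `es B (tv (-tau) x) < 1400` and its image under `Jv`; the first spindle is contained in
  `‖x.1 - tau‖ < 7/10 c²`, `|x.2| < 1400`, and in `{1 + c² < q2 x}`.
-/

open scoped Manifold ContDiff Topology
open Set Filter
open Complex (I normSq)

namespace Pool.Agent.CHW

open Pool.Agent.CSG (stp thc)
open Pool.Agent.RSG (ex)

variable {c : ℝ}

/-- off the vertical line over `tau`, its image under `Jv` and `0` -/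
def Nn (c : ℝ) : Set F3 := {x | x ≠ 0 ∧ x.1 ≠ tau c ∧ (Jv x).1 ≠ tau c}


/-! ### elementary estimates -/

theorem EeM_sinh {x : ℝ} (h0 : 0 ≤ x) (h1 : x ≤ 1) : Real.sinh x ≤ x + x ^ 2 := by
  have a1 : |Real.exp x - 1 - x| ≤ x ^ 2 :=
    Real.abs_exp_sub_one_sub_id_le (by rw [abs_of_nonneg h0]; exact h1)
  have a2 : |Real.exp (-x) - 1 - (-x)| ≤ (-x) ^ 2 :=
    Real.abs_exp_sub_one_sub_id_le (by rw [abs_neg, abs_of_nonneg h0]; exact h1)
  rw [Real.sinh_eq]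
  have b1 := (abs_le.1 a1).2
  have b2 := (abs_le.1 a2).1
  nlinarith

theorem EeM_cosh {x : ℝ} (h0 : 0 ≤ x) (h1 : x ≤ 1) : Real.cosh x ≤ 1 + x ^ 2 := by
  have a1 : |Real.exp x - 1 - x| ≤ x ^ 2 :=
    Real.abs_exp_sub_one_sub_id_le (by rw [abs_of_nonneg h0]; exact h1)
  have a2 : |Real.exp (-x) - 1 - (-x)| ≤ (-x) ^ 2 :=
    Real.abs_exp_sub_one_sub_id_le (by rw [abs_neg, abs_of_nonneg h0]; exact h1)
  rw [Real.cosh_eq]
  have b1 := (abs_le.1 a1).2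
  have b2 := (abs_le.1 a2).2
  nlinarith

theorem Bc_pos (h0 : 0 < c) : 0 < Bc c := by
  unfold Bc
  positivity

theorem EeM_kpos (h0 : 0 < c) : 0 < kc c := by
  have := Bc_pos h0
  unfold kc
  positivity

theorem EeM_B (c : ℝ) : Bc c = 2000 * kc c := by
  unfold kc
  ring

theorem EeM_klt (h0 : 0 < c) (h1 : c ≤ 1 / 10) {s : ℝ} (hs : s ≤ 1400) : kc c * s ≤ 1 / 100 := by
  have h2 : c ^ 2 ≤ 1 / 100 := by nlinarith
  have h3 : kc c ≤ 1 / 400000000 := by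
    unfold kc Bc
    linarith
  have h4 := EeM_kpos h0
  nlinarith

/-- the bracket for `eK` -/
theorem EeM_brE (h0 : 0 < c) (h1 : c ≤ 1 / 10) {s : ℝ} (hs0 : 0 ≤ s) (hs : s ≤ 1400) :
    1000 * Real.sinh (kc c * s) ≤ Bc c * s := by
  have h2 := EeM_klt h0 h1 hs
  have h3 : 0 ≤ kc c * s := mul_nonneg (EeM_kpos h0).le hs0
  have h4 := EeM_sinh h3 (by linarith)
  rw [EeM_B]
  nlinarith

/-- the bracket for `mK` -/
theorem EeM_brM (h0 : 0 < c) (h1 : c ≤ 1 / 10) {s : ℝ} (hs0 : 1200 ≤ s) (hs : s ≤ 1400) :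
    1000 * Real.cosh (kc c * s) ≤ s := by
  have h2 := EeM_klt h0 h1 hs
  have h3 : 0 ≤ kc c * s := mul_nonneg (EeM_kpos h0).le (by linarith)
  have h4 := EeM_cosh h3 (by linarith)
  nlinarith

theorem EeM_stpd (s : ℝ) : DifferentiableAt ℝ (stp 1200 1400) s :=
  (Pool.Agent.CSG.stp_smooth 1200 1400).contDiffAt.differentiableAt (by simp)

theorem EeM_stp0 {s : ℝ} (h : s < 1200 ∨ 1400 < s) : deriv (stp 1200 1400) s = 0 := by
  rcases h with h | h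
  · have : stp 1200 1400 =ᶠ[𝓝 s] fun _ => (0 : ℝ) := by
      filter_upwards [Iio_mem_nhds h] with y hy
      exact Pool.Agent.CSG.stp_zero (by norm_num) (le_of_lt hy)
    rw [this.deriv_eq]
    simp
  · have : stp 1200 1400 =ᶠ[𝓝 s] fun _ => (1 : ℝ) := by
      filter_upwards [Ioi_mem_nhds h] with y hy
      exact Pool.Agent.CSG.stp_one (by norm_num) (le_of_lt hy)
    rw [this.deriv_eq]
    simp

theorem EeM_dE (c s : ℝ) : HasDerivAt (eK c)
    ((1 - stp 1200 1400 s) * (1000 * kc c * Real.cosh (kc c * s)) + stp 1200 1400 s * Bc c +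
      deriv (stp 1200 1400) s * (Bc c * s - 1000 * Real.sinh (kc c * s))) s := by
  have h1 := (EeM_stpd s).hasDerivAt
  have h2 : HasDerivAt (fun s : ℝ => kc c * s) (kc c) s := by
    simpa using (hasDerivAt_id s).const_mul (kc c)
  have h3 : HasDerivAt (fun s : ℝ => Real.sinh (kc c * s)) (Real.cosh (kc c * s) * kc c) s :=
    (Real.hasDerivAt_sinh (kc c * s)).comp s h2
  have h4 : HasDerivAt (fun s : ℝ => Bc c * s) (Bc c) s := by
    simpa using (hasDerivAt_id s).const_mul (Bc c)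
  have h5 := (((hasDerivAt_const s (1 : ℝ)).sub h1).mul (h3.const_mul 1000)).add (h1.mul h4)
  refine HasDerivAt.congr_deriv (f := eK c) h5 ?_
  simp only [Pi.sub_apply]
  ring

theorem EeM_dM (c s : ℝ) : HasDerivAt (mK c)
    ((1 - stp 1200 1400 s) * (1000 * kc c * Real.sinh (kc c * s)) + stp 1200 1400 s +
      deriv (stp 1200 1400) s * (s - 1000 * Real.cosh (kc c * s))) s := by
  have h1 := (EeM_stpd s).hasDerivAt
  have h2 : HasDerivAt (fun s : ℝ => kc c * s) (kc c) s := by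
    simpa using (hasDerivAt_id s).const_mul (kc c)
  have h3 : HasDerivAt (fun s : ℝ => Real.cosh (kc c * s)) (Real.sinh (kc c * s) * kc c) s :=
    (Real.hasDerivAt_cosh (kc c * s)).comp s h2
  have h5 := (((hasDerivAt_const s (1 : ℝ)).sub h1).mul (h3.const_mul 1000)).add
    (h1.mul (hasDerivAt_id s))
  refine HasDerivAt.congr_deriv (f := mK c) h5 ?_
  simp only [id, Pi.sub_apply]
  ring

theorem EeM_smE (c : ℝ) : ContDiff ℝ ∞ (eK c) := by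
  have h1 := Pool.Agent.CSG.stp_smooth 1200 1400
  have h2 : ContDiff ℝ ∞ fun s : ℝ => kc c * s := contDiff_const.mul contDiff_id
  unfold eK
  exact ((contDiff_const.sub h1).mul (contDiff_const.mul (Real.contDiff_sinh.comp h2))).add
    (h1.mul (contDiff_const.mul contDiff_id))

theorem EeM_smM (c : ℝ) : ContDiff ℝ ∞ (mK c) := by
  have h1 := Pool.Agent.CSG.stp_smooth 1200 1400
  have h2 : ContDiff ℝ ∞ fun s : ℝ => kc c * s := contDiff_const.mul contDiff_id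
  unfold mK
  exact ((contDiff_const.sub h1).mul (contDiff_const.mul (Real.contDiff_cosh.comp h2))).add
    (h1.mul contDiff_id)

theorem EeM_dEpos (h0 : 0 < c) (h1 : c ≤ 1 / 10) {s : ℝ} (hs : 0 < s) : 0 < deriv (eK c) s := by
  rw [(EeM_dE c s).deriv]
  have hk := EeM_kpos h0
  have a1 := Pool.Agent.CSG.stp_nonneg 1200 1400 s
  have a2 := Pool.Agent.CSG.stp_le_one 1200 1400 s
  have a3 : 0 ≤ deriv (stp 1200 1400) s * (Bc c * s - 1000 * Real.sinh (kc c * s)) := by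
    by_cases h : 1400 < s
    · rw [EeM_stp0 (Or.inr h)]
      simp
    · have h3 := EeM_brE h0 h1 hs.le (not_lt.1 h)
      exact mul_nonneg (Pool.Agent.CSG.stp_deriv_nonneg (by norm_num) s) (by linarith)
  have a4 : 1000 * kc c ≤ 1000 * kc c * Real.cosh (kc c * s) := by
    have := Real.one_le_cosh (kc c * s)
    nlinarith
  have a5 : (1 - stp 1200 1400 s) * (1000 * kc c) ≤
      (1 - stp 1200 1400 s) * (1000 * kc c * Real.cosh (kc c * s)) :=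
    mul_le_mul_of_nonneg_left a4 (by linarith)
  have a6 := EeM_B c
  rw [a6] at a3 ⊢
  nlinarith

theorem EeM_dMpos (h0 : 0 < c) (h1 : c ≤ 1 / 10) {s : ℝ} (hs : 0 < s) : 0 < deriv (mK c) s := by
  rw [(EeM_dM c s).deriv]
  have hk := EeM_kpos h0
  have a1 := Pool.Agent.CSG.stp_nonneg 1200 1400 s
  have a2 := Pool.Agent.CSG.stp_le_one 1200 1400 s
  have a3 : 0 ≤ deriv (stp 1200 1400) s * (s - 1000 * Real.cosh (kc c * s)) := by
    by_cases h : s < 1200 ∨ 1400 < s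
    · rw [EeM_stp0 h]
      simp
    · rw [not_or, not_lt, not_lt] at h
      have h3 := EeM_brM h0 h1 h.1 h.2
      exact mul_nonneg (Pool.Agent.CSG.stp_deriv_nonneg (by norm_num) s) (by linarith)
  have a4 : 0 < 1000 * kc c * Real.sinh (kc c * s) := by
    have := Real.sinh_pos_iff.2 (mul_pos hk hs)
    positivity
  rcases eq_or_lt_of_le a1 with h | h
  · rw [← h]
    linarith
  · have a5 : 0 ≤ (1 - stp 1200 1400 s) * (1000 * kc c * Real.sinh (kc c * s)) :=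
      mul_nonneg (by linarith) a4.le
    linarith

theorem EK_ok (h0 : 0 < c) (h1 : c ≤ 1 / 10) : EMok 0 1000 (eK c) (mK c) where
  nn := le_refl _
  mpos := by norm_num
  es := fun s _ => (EeM_smE c).contDiffAt
  ms := fun s _ => (EeM_smM c).contDiffAt
  ed := fun s hs => EeM_dEpos h0 h1 hs
  md := fun s hs => EeM_dMpos h0 h1 hs
  e0 := by
    have h := (EeM_smE c).continuous.tendsto 0
    have h2 : eK c 0 = 0 := by simp [eK]
    rw [h2] at h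
    exact h.mono_left nhdsWithin_le_nhds
  m0 := by
    have h := (EeM_smM c).continuous.tendsto 0
    have h2 : mK c 0 = 1000 := by
      have : stp 1200 1400 0 = 0 := Pool.Agent.CSG.stp_zero (by norm_num) (by norm_num)
      simp [mK, this]
    rw [h2] at h
    exact h.mono_left nhdsWithin_le_nhds
  e1 := by
    have h : (fun s : ℝ => Bc c * s) =ᶠ[atTop] eK c := by
      filter_upwards [Ici_mem_atTop (1400 : ℝ)] with s hs
      have : stp 1200 1400 s = 1 := Pool.Agent.CSG.stp_one (by norm_num) hs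
      simp [eK, this]
    exact (tendsto_id.const_mul_atTop (Bc_pos h0)).congr' h
  m1 := by
    have h : (fun s : ℝ => s) =ᶠ[atTop] mK c := by
      filter_upwards [Ici_mem_atTop (1400 : ℝ)] with s hs
      have : stp 1200 1400 s = 1 := Pool.Agent.CSG.stp_one (by norm_num) hs
      simp [mK, this]
    exact tendsto_id.congr' h

theorem EK_id (h0 : 0 < c) {x : F3} (h : 1400 ≤ es (Bc c) x) : EK c x = x := by
  have h1 : stp 1200 1400 (es (Bc c) x) = 1 := Pool.Agent.CSG.stp_one (by norm_num) h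
  have h2 := Bc_pos h0
  have h3 : es (Bc c) x ≠ 0 := by linarith
  have h4 : eK c (es (Bc c) x) = Bc c * es (Bc c) x := by simp [eK, h1]
  have h5 : mK c (es (Bc c) x) = es (Bc c) x := by simp [mK, h1]
  unfold EK EM
  rw [h4, h5, div_self (mul_ne_zero h2.ne' h3), div_self h3]
  simp

/-- near the slit -/
theorem EK_in (h0 : 0 < c) {x : F3} (h : es (Bc c) x ≤ 1200) :
    EK c x = (((1000 * Real.sinh (kc c * es (Bc c) x) / (Bc c * es (Bc c) x) : ℝ) : ℂ) * x.1,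
      1000 * Real.cosh (kc c * es (Bc c) x) / es (Bc c) x * x.2) := by
  have h1 : stp 1200 1400 (es (Bc c) x) = 0 := Pool.Agent.CSG.stp_zero (by norm_num) h
  have h4 : eK c (es (Bc c) x) = 1000 * Real.sinh (kc c * es (Bc c) x) := by simp [eK, h1]
  have h5 : mK c (es (Bc c) x) = 1000 * Real.cosh (kc c * es (Bc c) x) := by simp [mK, h1]
  unfold EK EM
  rw [h4, h5]

theorem EK_le (h0 : 0 < c) (h1 : c ≤ 1 / 10) {x : F3} (hx : x ≠ 0) (h : es (Bc c) x ≤ 1400) :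
    ‖(EK c x).1‖ ≤ 7 / 10 * c ^ 2 ∧ |(EK c x).2| ≤ 1400 := by
  have hs := (es_pos (Bc_pos h0)).2 hx
  obtain ⟨a1, a2⟩ := EM_le (Bc_pos h0) (EK_ok h0 h1) hs
  have b1 : eK c (es (Bc c) x) ≤ Bc c * es (Bc c) x := by
    have := EeM_brE h0 h1 hs.le h
    have c1 := Pool.Agent.CSG.stp_nonneg 1200 1400 (es (Bc c) x)
    have c2 := Pool.Agent.CSG.stp_le_one 1200 1400 (es (Bc c) x)
    unfold eK
    nlinarith
  have b2 : Bc c * es (Bc c) x ≤ 7 / 10 * c ^ 2 := by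
    have : Bc c * es (Bc c) x ≤ Bc c * 1400 := mul_le_mul_of_nonneg_left h (Bc_pos h0).le
    unfold Bc at this ⊢
    linarith
  have b3 : mK c (es (Bc c) x) ≤ mK c 1400 :=
    (EK_ok h0 h1).m_mono.monotoneOn hs (show (0 : ℝ) < 1400 by norm_num) h
  have b4 : mK c 1400 = 1400 := by
    have : stp 1200 1400 1400 = 1 := Pool.Agent.CSG.stp_one (by norm_num) (le_refl _)
    simp [mK, this]
  exact ⟨(a1.trans b1).trans b2, (a2.trans b3).trans b4.le⟩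

/-! ### the opening at `tau` -/

theorem EeM_far (h0 : 0 < c) (h1 : c ≤ 1 / 10) {x : F3} (h : q2 x ≤ 1 + c ^ 2) :
    1400 ≤ es (Bc c) (tv (-tau c) x) ∧ x ≠ ((tau c : ℂ), 0) := by
  obtain ⟨t1, t2, t3⟩ := tau_bounds h0 h1
  have a0 : ‖x.1‖ ≤ rr x := norm_le_rr x
  have a1 : rr x ≤ 1 + c ^ 2 / 2 := by
    rw [rr_le_iff (by positivity)]
    nlinarith [sq_nonneg (c ^ 2)]
  have a2 : 3 / 2 * c ^ 2 ≤ ‖x.1 + ((-tau c : ℝ) : ℂ)‖ := by
    have e1 : ‖((tau c : ℝ) : ℂ)‖ = tau c := by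
      rw [Complex.norm_real, Real.norm_of_nonneg (by nlinarith)]
    have e2 : ((tau c : ℝ) : ℂ) = x.1 - (x.1 + ((-tau c : ℝ) : ℂ)) := by push_cast; ring
    have e3 := norm_sub_le x.1 (x.1 + ((-tau c : ℝ) : ℂ))
    rw [← e2, e1] at e3
    linarith
  have a3 := norm_le_es (Bc_pos h0) (tv (-tau c) x)
  have a4 : 3 / 2 * c ^ 2 ≤ Bc c * es (Bc c) (tv (-tau c) x) := a2.trans a3
  have a5 : 0 < c ^ 2 := by positivity
  have a6 : 3000 ≤ es (Bc c) (tv (-tau c) x) := by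
    unfold Bc at a4
    by_contra hc
    rw [not_le] at hc
    unfold Bc at hc
    nlinarith
  refine ⟨by linarith, ?_⟩
  rintro rfl
  have : es (Bc c) (tv (-tau c) ((tau c : ℂ), 0)) = 0 := by
    have e : tv (-tau c) ((tau c : ℂ), 0) = 0 := by
      unfold tv
      ext <;> simp
    rw [e]
    unfold es
    simp
  linarith

theorem EeM_id (h0 : 0 < c) (h1 : c ≤ 1 / 10) {x : F3} (h : q2 x ≤ 1 + c ^ 2) : EP c x = x := by
  unfold EP
  rw [EK_id h0 (EeM_far h0 h1 h).1, tv_neg']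

theorem EeM_tvne {x : F3} (h : x ≠ ((tau c : ℂ), 0)) : tv (-tau c) x ≠ 0 := by
  intro h2
  apply h
  have h3 := congrArg (tv (tau c)) h2
  rw [tv_neg'] at h3
  rw [h3]
  unfold tv
  ext <;> simp

theorem EeM_es (h0 : 0 < c) {x : F3} (h : x ≠ ((tau c : ℂ), 0)) :
    0 < es (Bc c) (tv (-tau c) x) := (es_pos (Bc_pos h0)).2 (EeM_tvne h)

theorem EeM_ld (h0 : 0 < c) (h1 : c ≤ 1 / 10) {x : F3} (h : x ≠ ((tau c : ℂ), 0)) :
    LD (EP c) x := by
  have a1 : LD (tv (-tau c)) x := tv_ld _ _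
  have a2 : LD (EK c) (tv (-tau c) x) := EM_ld (Bc_pos h0) (EK_ok h0 h1) (EeM_es h0 h)
  have a3 : LD (tv (tau c)) (EK c (tv (-tau c) x)) := tv_ld _ _
  exact (a1.comp 𝓘(ℝ, F3) F3 a2).comp 𝓘(ℝ, F3) F3 a3

theorem EeM_inj (h0 : 0 < c) (h1 : c ≤ 1 / 10) {x y : F3} (hx : x ≠ ((tau c : ℂ), 0))
    (hy : y ≠ ((tau c : ℂ), 0)) (h : EP c x = EP c y) : x = y := by
  unfold EP at h
  have h2 := congrArg (tv (-tau c)) h
  rw [tv_neg, tv_neg] at h2
  have h3 := EM_injOn (Bc_pos h0) (EK_ok h0 h1) (EeM_es h0 hx) (EeM_es h0 hy) h2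
  have h4 := congrArg (tv (tau c)) h3
  rwa [tv_neg', tv_neg'] at h4

theorem EeM_coef (h0 : 0 < c) (h1 : c ≤ 1 / 10) {x : F3} (hx : x ≠ ((tau c : ℂ), 0)) :
    ∃ r t : ℝ, 0 < r ∧ 0 < t ∧ (EP c x).1 - tau c = r * (x.1 - tau c) ∧
      (EP c x).2 = t * x.2 := by
  obtain ⟨r, t, hr, ht, e1, e2⟩ := EM_coef (Bc_pos h0) (EK_ok h0 h1) (EeM_es h0 hx)
  refine ⟨r, t, hr, ht, ?_, e2⟩
  have e3 : (EP c x).1 = (EK c (tv (-tau c) x)).1 + (tau c : ℂ) := rfl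
  have e4 : (EK c (tv (-tau c) x)).1 = (r : ℂ) * (tv (-tau c) x).1 := e1
  have e5 : (tv (-tau c) x).1 = x.1 + ((-tau c : ℝ) : ℂ) := rfl
  rw [e3, e4, e5]
  push_cast
  ring

theorem EeM_image (h0 : 0 < c) (h1 : c ≤ 1 / 10) (y : F3) :
    (∃ x, x ≠ ((tau c : ℂ), 0) ∧ EP c x = y) ↔ ¬ (y.1 = tau c ∧ |y.2| ≤ 1000) := by
  have him := EM_image (Bc_pos h0) (EK_ok h0 h1)
  have key : ∀ z : F3, (∃ x, 0 < es (Bc c) x ∧ EK c x = z) ↔ (z.1 ≠ 0 ∨ 1000 < |z.2|) := by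
    intro z
    have := Set.ext_iff.1 him z
    exact this
  have hz : (tv (-tau c) y).1 = y.1 - tau c := by
    change y.1 + ((-tau c : ℝ) : ℂ) = _
    push_cast
    ring
  have hz2 : (tv (-tau c) y).2 = y.2 := rfl
  constructor
  · rintro ⟨x, hx, rfl⟩ ⟨g1, g2⟩
    have := (key (EK c (tv (-tau c) x))).1 ⟨_, EeM_es h0 hx, rfl⟩
    have e1 : EK c (tv (-tau c) x) = tv (-tau c) (EP c x) := by
      unfold EP
      rw [tv_neg]
    rw [e1] at this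
    rcases this with h | h
    · apply h
      have : (tv (-tau c) (EP c x)).1 = (EP c x).1 + ((-tau c : ℝ) : ℂ) := rfl
      rw [this, g1]
      push_cast
      ring
    · have : (tv (-tau c) (EP c x)).2 = (EP c x).2 := rfl
      rw [this] at h
      linarith
  · intro h
    have h2 : (tv (-tau c) y).1 ≠ 0 ∨ 1000 < |(tv (-tau c) y).2| := by
      rw [hz, hz2]
      by_contra hc
      rw [not_or, not_lt, not_not, sub_eq_zero] at hc
      exact h hc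
    obtain ⟨x, hx, hx2⟩ := (key _).2 h2
    refine ⟨tv (tau c) x, ?_, ?_⟩
    · intro hc
      have h3 := congrArg (tv (-tau c)) hc
      rw [tv_neg] at h3
      rw [h3] at hx
      have e : tv (-tau c) ((tau c : ℂ), 0) = 0 := by
        unfold tv
        ext <;> simp
      rw [e] at hx
      have : es (Bc c) 0 = 0 := by
        unfold es
        simp
      linarith
    · unfold EP
      rw [tv_neg, hx2, tv_neg']

theorem EP_ok (h0 : 0 < c) (h1 : c ≤ 1 / 10) :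
    SyOK (EP c) {x | x ≠ ((tau c : ℂ), 0)} {y | ¬ (y.1 = tau c ∧ |y.2| ≤ 1000)} where
  opD := isOpen_ne
  opR := by
    have h : IsClosed {y : F3 | y.1 = tau c ∧ |y.2| ≤ 1000} :=
      (isClosed_eq continuous_fst continuous_const).inter
        (isClosed_le continuous_snd.abs continuous_const)
    exact h.isOpen_compl
  id := by
    refine ⟨c ^ 2, by positivity, ?_⟩
    intro x _ h
    exact ⟨(EeM_far h0 h1 h).2, EeM_id h0 h1 h⟩
  ld := fun x hx _ => EeM_ld h0 h1 hx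
  inj := fun x hx y hy h => EeM_inj h0 h1 hx.1 hy.1 h
  im := by
    ext y
    constructor
    · rintro ⟨x, ⟨hx, hx1⟩, rfl⟩
      refine ⟨(EeM_image h0 h1 _).1 ⟨x, hx, rfl⟩, ?_⟩
      by_contra hc
      rw [not_le] at hc
      have hq : q2 (EP c x) ≤ 1 + c ^ 2 := by nlinarith [sq_nonneg c]
      have h2 := EeM_inj h0 h1 (EeM_far h0 h1 hq).2 hx (EeM_id h0 h1 hq)
      rw [h2] at hc
      linarith
    · rintro ⟨hy, hy1⟩
      obtain ⟨x, hx, rfl⟩ := (EeM_image h0 h1 y).2 hy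
      refine ⟨x, ⟨hx, ?_⟩, rfl⟩
      by_contra hc
      rw [not_le] at hc
      have hq : q2 x ≤ 1 + c ^ 2 := by nlinarith [sq_nonneg c]
      rw [EeM_id h0 h1 hq] at hy1
      linarith

/-! ### the set `Nn` -/

theorem Nn_Jv {x : F3} : Jv x ∈ Nn c ↔ x ∈ Nn c := by
  constructor
  · rintro ⟨h1, h2, h3⟩
    rw [Jv_Jv] at h3
    refine ⟨?_, h3, h2⟩
    rintro rfl
    exact h1 Jv_zero
  · rintro ⟨h1, h2, h3⟩
    refine ⟨Jv_ne h1, h3, ?_⟩
    rwa [Jv_Jv]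

theorem EeM_mir0 {x : F3} (h : mir x = 0) : x = 0 := by
  have := congrArg mir h
  rw [mir_mir] at this
  rw [this]
  unfold mir
  ext <;> simp

theorem EeM_cjv0 {x : F3} (h : cjv x = 0) : x = 0 := by
  have := congrArg cjv h
  rw [cjv_cjv] at this
  rw [this]
  unfold cjv
  ext <;> simp

theorem EeM_Nnmir {x : F3} (h : x ∈ Nn c) : mir x ∈ Nn c := by
  obtain ⟨h1, h2, h3⟩ := h
  refine ⟨fun h => h1 (EeM_mir0 h), h2, ?_⟩
  rw [Jv_mir]
  exact h3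

theorem EeM_Nncjv {x : F3} (h : x ∈ Nn c) : cjv x ∈ Nn c := by
  obtain ⟨h1, h2, h3⟩ := h
  have key : ∀ z : ℂ, z ≠ (tau c : ℂ) → (starRingEnd ℂ) z ≠ (tau c : ℂ) := by
    intro z hz h
    apply hz
    have := congrArg (starRingEnd ℂ) h
    simpa using this
  refine ⟨fun h => h1 (EeM_cjv0 h), key _ h2, ?_⟩
  rw [Jv_cjv]
  exact key _ h3

theorem Nn_mir {x : F3} : mir x ∈ Nn c ↔ x ∈ Nn c := by
  constructor
  · intro h
    have := EeM_Nnmir h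
    rwa [mir_mir] at this
  · exact EeM_Nnmir

theorem Nn_cjv {x : F3} : cjv x ∈ Nn c ↔ x ∈ Nn c := by
  constructor
  · intro h
    have := EeM_Nncjv h
    rwa [cjv_cjv] at this
  · exact EeM_Nncjv

theorem Nn_SlA {x : F3} (hx : x ∈ Nn c) : x ∉ SlA c := by
  obtain ⟨h1, h2, h3⟩ := hx
  rintro (⟨g, -⟩ | g | ⟨g, -⟩)
  · exact h2 g
  · exact h1 g
  · exact h3 g

theorem Nn_open : IsOpen (Nn c) := by
  have h1 : IsOpen {x : F3 | x ≠ 0} := isOpen_ne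
  have h2 : IsOpen {x : F3 | x.1 ≠ tau c} := isOpen_ne_fun continuous_fst continuous_const
  have h3 : ContinuousOn (fun x : F3 => (Jv x).1) {x : F3 | x ≠ 0} := by
    intro x hx
    exact (continuous_fst.continuousAt.comp (Jv_smooth hx).continuousAt).continuousWithinAt
  have h4 : IsOpen ({x : F3 | x ≠ 0} ∩ (fun x : F3 => (Jv x).1) ⁻¹' {z | z ≠ (tau c : ℂ)}) :=
    h3.isOpen_inter_preimage h1 isOpen_ne
  have h5 : Nn c = ({x : F3 | x ≠ 0} ∩ (fun x : F3 => (Jv x).1) ⁻¹' {z | z ≠ (tau c : ℂ)}) ∩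
      {x : F3 | x.1 ≠ tau c} := by
    ext x
    constructor
    · rintro ⟨a, b, d⟩
      exact ⟨⟨a, d⟩, b⟩
    · rintro ⟨⟨a, d⟩, b⟩
      exact ⟨a, b, d⟩
  rw [h5]
  exact h4.inter h2

/-- the points which are not in the image of the chart -/
theorem SlA_Nn {x : F3} (hx : x ∉ SlA c) (hx' : x ∉ Nn c) :
    (x.1 = tau c ∧ |x.2| < 1000) ∨ ((Jv x).1 = tau c ∧ |(Jv x).2| < 1000) := by
  have h1 : ¬ (x.1 = tau c ∧ 1000 ≤ |x.2|) := fun h => hx (Or.inl h)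
  have h2 : x ≠ 0 := fun h => hx (Or.inr (Or.inl h))
  have h3 : ¬ ((Jv x).1 = tau c ∧ 1000 ≤ |(Jv x).2|) := fun h => hx (Or.inr (Or.inr h))
  by_cases a : x.1 = tau c
  · left
    refine ⟨a, ?_⟩
    by_contra hc
    exact h1 ⟨a, not_lt.1 hc⟩
  · by_cases b : (Jv x).1 = tau c
    · right
      refine ⟨b, ?_⟩
      by_contra hc
      exact h3 ⟨b, not_lt.1 hc⟩
    · exact absurd ⟨h2, a, b⟩ hx'

/-! ### the map `EE` -/

theorem EeM_tau1 (h0 : 0 < c) (h1 : c ≤ 1 / 10) : 1 < tau c := by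
  obtain ⟨t1, -, -⟩ := tau_bounds h0 h1
  have : 0 < c ^ 2 := by positivity
  linarith

theorem EeM_small (h0 : 0 < c) (h1 : c ≤ 1 / 10) {x : F3} (h : q2 x ≤ 1) : x.1 ≠ tau c := by
  intro hc
  have a0 := norm_le_rr x
  have a1 : rr x ≤ 1 := by
    rw [rr_le_iff (by norm_num)]
    linarith
  have t := EeM_tau1 h0 h1
  rw [hc, Complex.norm_real, Real.norm_of_nonneg (by linarith)] at a0
  linarith

theorem EeM_q2J {x : F3} (h : 1 ≤ q2 x) : q2 (Jv x) ≤ 1 := by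
  rw [q2_Jv]
  exact inv_le_one_of_one_le₀ h

theorem EeM_q2J' {x : F3} (hx : x ≠ 0) (h : q2 x < 1) : 1 ≤ q2 (Jv x) := by
  rw [q2_Jv]
  exact (one_le_inv₀ (q2_pos hx)).2 h.le

theorem EeM_D {x : F3} (h : x.1 ≠ tau c) : x ≠ ((tau c : ℂ), 0) := by
  intro h2
  exact h (by rw [h2])

theorem EeM_Sm {x : F3} (hx : x ∈ Nn c) : x ∈ Sm {x : F3 | x ≠ ((tau c : ℂ), 0)} :=
  ⟨hx.1, fun _ => EeM_D hx.2.1, fun _ => EeM_D hx.2.2⟩

theorem EE_big {x : F3} (h : 1 ≤ q2 x) : EE c x = EP c x := sy_big h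

theorem EeM_EEs {x : F3} (h : q2 x < 1) : EE c x = Jv (EP c (Jv x)) := sy_small h

theorem EeM_q2P (h0 : 0 < c) (h1 : c ≤ 1 / 10) {x : F3} (hx : x ≠ ((tau c : ℂ), 0))
    (h : 1 ≤ q2 x) : 1 ≤ q2 (EP c x) := by
  have h2 := (EP_ok h0 h1).im
  have h3 : EP c x ∈ EP c '' {x | x ∈ {x : F3 | x ≠ ((tau c : ℂ), 0)} ∧ 1 ≤ q2 x} :=
    ⟨x, ⟨hx, h⟩, rfl⟩
  rw [h2] at h3
  exact h3.2

theorem EeM_memP (h0 : 0 < c) (h1 : c ≤ 1 / 10) {x : F3} (hx : x.1 ≠ tau c) (h : 1 ≤ q2 x) :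
    EP c x ∈ Nn c := by
  have h2 := EeM_q2P h0 h1 (EeM_D hx) h
  refine ⟨?_, ?_, EeM_small h0 h1 (EeM_q2J h2)⟩
  · intro h3
    rw [h3] at h2
    have : q2 (0 : F3) = 0 := q2_eq_zero.2 rfl
    linarith
  · obtain ⟨r, t, hr, -, e, -⟩ := EeM_coef h0 h1 (EeM_D hx)
    intro h3
    rw [h3, sub_self] at e
    have := mul_eq_zero.1 e.symm
    rcases this with h4 | h4
    · exact hr.ne' (by exact_mod_cast h4)
    · exact hx (sub_eq_zero.1 h4)

theorem EeM_memP' (h0 : 0 < c) (h1 : c ≤ 1 / 10) {x : F3} (h : 1 ≤ q2 x)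
    (hD : x ≠ ((tau c : ℂ), 0)) (hy : EP c x ∈ Nn c) : x ∈ Nn c := by
  refine ⟨?_, ?_, EeM_small h0 h1 (EeM_q2J h)⟩
  · intro h3
    rw [h3] at h
    have : q2 (0 : F3) = 0 := q2_eq_zero.2 rfl
    linarith
  · intro h3
    obtain ⟨r, t, hr, -, e, -⟩ := EeM_coef h0 h1 hD
    rw [h3, sub_self, mul_zero, sub_eq_zero] at e
    exact hy.2.1 e

theorem EE_mem (h0 : 0 < c) (h1 : c ≤ 1 / 10) {x : F3} (hx : x ∈ Nn c) : EE c x ∈ Nn c := by
  by_cases h : 1 ≤ q2 x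
  · rw [EE_big h]
    exact EeM_memP h0 h1 hx.2.1 h
  · rw [EeM_EEs (not_le.1 h), Nn_Jv]
    exact EeM_memP h0 h1 hx.2.2 (EeM_q2J' hx.1 (not_le.1 h))

theorem EE_ld (h0 : 0 < c) (h1 : c ≤ 1 / 10) {x : F3} (hx : x ∈ Nn c) : LD (EE c) x :=
  (EP_ok h0 h1).ld' (EeM_Sm hx)

theorem EE_inj (h0 : 0 < c) (h1 : c ≤ 1 / 10) {x y : F3} (hx : x ∈ Nn c) (hy : y ∈ Nn c)
    (h : EE c x = EE c y) : x = y :=
  (EP_ok h0 h1).inj' (EeM_Sm hx) (EeM_Sm hy) h

theorem EE_surj (h0 : 0 < c) (h1 : c ≤ 1 / 10) {y : F3} (hy : y ∈ Nn c) :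
    ∃ x ∈ Nn c, EE c x = y := by
  have h2 : y ∈ Sm {y : F3 | ¬ (y.1 = tau c ∧ |y.2| ≤ 1000)} :=
    ⟨hy.1, fun _ h => hy.2.1 h.1, fun _ h => hy.2.2 h.1⟩
  rw [← (EP_ok h0 h1).im'] at h2
  obtain ⟨x, hx, hxy⟩ := h2
  have hxy' : EE c x = y := hxy
  refine ⟨x, ?_, hxy⟩
  by_cases h : 1 ≤ q2 x
  · rw [EE_big h] at hxy'
    exact EeM_memP' h0 h1 h (hx.2.1 h) (by rw [hxy']; exact hy)
  · rw [not_le] at h
    rw [EeM_EEs h] at hxy'
    have h3 : EP c (Jv x) ∈ Nn c := by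
      rw [← Nn_Jv, hxy']
      exact hy
    have h4 := EeM_memP' h0 h1 (EeM_q2J' hx.1 h) (hx.2.2 h.le) h3
    exact Nn_Jv.1 h4

theorem EE_Jv (h0 : 0 < c) (h1 : c ≤ 1 / 10) {x : F3} (hx : x ∈ Nn c) :
    EE c (Jv x) = Jv (EE c x) := (EP_ok h0 h1).symm (EeM_Sm hx)

theorem EeM_EPid (h0 : 0 < c) {x : F3} (h2 : 7 / 10 * c ^ 2 ≤ ‖x.1 - tau c‖) :
    EP c x = x := by
  unfold EP
  rw [EK_id h0 ?_, tv_neg']
  have a3 := norm_le_es (Bc_pos h0) (tv (-tau c) x)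
  have a1 : (tv (-tau c) x).1 = x.1 - tau c := by
    change x.1 + ((-tau c : ℝ) : ℂ) = _
    push_cast
    ring
  rw [a1] at a3
  have a4 := h2.trans a3
  have a5 : 0 < c ^ 2 := by positivity
  by_contra hc
  rw [not_le] at hc
  unfold Bc at a4 hc
  nlinarith

/-- identity outside of the spindles -/
theorem EE_id (h0 : 0 < c) (h1 : c ≤ 1 / 10) {x : F3} (h2 : 7 / 10 * c ^ 2 ≤ ‖x.1 - tau c‖)
    (h3 : 7 / 10 * c ^ 2 ≤ ‖(Jv x).1 - tau c‖) (hx : x ≠ 0) : EE c x = x := by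
  by_cases h : 1 ≤ q2 x
  · rw [EE_big h, EeM_EPid h0 h2]
  · rw [EeM_EEs (not_le.1 h), EeM_EPid h0 h3, Jv_Jv]

theorem EE_snd_pos (h0 : 0 < c) (h1 : c ≤ 1 / 10) {x : F3} (hx : x ∈ Nn c) :
    0 < (EE c x).2 ↔ 0 < x.2 := by
  have key : ∀ z : F3, z.1 ≠ tau c → (0 < (EP c z).2 ↔ 0 < z.2) := by
    intro z hz
    obtain ⟨r, t, -, ht, -, e⟩ := EeM_coef h0 h1 (EeM_D hz)
    rw [e]
    exact mul_pos_iff_of_pos_left ht
  by_cases h : 1 ≤ q2 x
  · rw [EE_big h]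
    exact key x hx.2.1
  · rw [EeM_EEs (not_le.1 h), Jv_snd_pos, key _ hx.2.2, Jv_snd_pos]

theorem EE_snd_zero (h0 : 0 < c) (h1 : c ≤ 1 / 10) {x : F3} (hx : x ∈ Nn c) :
    (EE c x).2 = 0 ↔ x.2 = 0 := by
  have key : ∀ z : F3, z.1 ≠ tau c → ((EP c z).2 = 0 ↔ z.2 = 0) := by
    intro z hz
    obtain ⟨r, t, -, ht, -, e⟩ := EeM_coef h0 h1 (EeM_D hz)
    rw [e]
    constructor
    · intro h
      exact (mul_eq_zero.1 h).resolve_left ht.ne'
    · intro h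
      rw [h, mul_zero]
  by_cases h : 1 ≤ q2 x
  · rw [EE_big h]
    exact key x hx.2.1
  · rw [EeM_EEs (not_le.1 h), Jv_snd_zero, key _ hx.2.2, Jv_snd_zero]

theorem EeM_EPmir (x : F3) : EP c (mir x) = mir (EP c x) := by
  have h1 : tv (-tau c) (mir x) = mir (tv (-tau c) x) := rfl
  have h2 : EK c (mir (tv (-tau c) x)) = mir (EK c (tv (-tau c) x)) := EM_mir _
  unfold EP
  rw [h1, h2]
  rfl

theorem EeM_tvcjv (a : ℝ) (x : F3) : tv a (cjv x) = cjv (tv a x) := by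
  unfold tv cjv
  simp

theorem EeM_EPcjv (x : F3) : EP c (cjv x) = cjv (EP c x) := by
  have h2 : EK c (cjv (tv (-tau c) x)) = cjv (EK c (tv (-tau c) x)) := EM_cjv _
  unfold EP
  rw [EeM_tvcjv, h2, EeM_tvcjv]

theorem EE_mir (x : F3) : EE c (mir x) = mir (EE c x) := by
  by_cases h : 1 ≤ q2 x
  · rw [EE_big h, EE_big (by rwa [q2_mir]), EeM_EPmir]
  · rw [EeM_EEs (not_le.1 h), EeM_EEs (by rw [q2_mir]; exact not_le.1 h), Jv_mir, EeM_EPmir, Jv_mir]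

theorem EE_cjv (x : F3) : EE c (cjv x) = cjv (EE c x) := by
  by_cases h : 1 ≤ q2 x
  · rw [EE_big h, EE_big (by rwa [q2_cjv]), EeM_EPcjv]
  · rw [EeM_EEs (not_le.1 h), EeM_EEs (by rw [q2_cjv]; exact not_le.1 h), Jv_cjv, EeM_EPcjv, Jv_cjv]

end Pool.Agent.CHW
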