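import Pool.Agent.CHW.Jm
import Pool.Agent.CHW.DpM

/-!
# CHW/NmA: the open book with disc pages, identities   (difficulty 2)

Write `n = |z|²`, `C = cos 2πT`, `S = sin 2πT`, `C² + S² = 1`, `κ = (1 - n)(1 - C)`, `den = 2 |z - c|² + κ (1 - c²)`.
`NM c (z, T) = (N, 2c (1-n) S) / den`, `N = 2 (z + c)(z̄ - c) + κ (1 + c²)`.

* `den_pos`: both terms are `≥ 0`; the first one is `0` only for `z = c`, the second one only for `C = 1`.
* `q2_NM`: `|N|² + 4c² (1-n)² S² = den c z T * den c (-z) T` (polynomial identity in `re z, im z, c, C, S` modulo `C² + S² = 1`), so `q2 (NM c (z, T)) = den c (-z) T / den c z T`.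
* `NM_neg`: `NM c (-z, T) = (N̄, ..) / den (-z) = Jv (NM c (z, T))` : true for all `|z| < 1` (if `den = 0` then both sides are `0`: `den c z T = 0` means `z = c`, `C = 1`, then
  `NM c (-c, T) = 0`; if `den c (-z) T = 0`, `z = -c`, `C = 1` : `NM c (-c, T) = 0 = NM c (c, T)`).
* `NM_NK`: with `z' = (z - c) / (1 - c z)`: `1 - |z'|² = (1 - c²)(1 - n) / |1 - c z|²`, `1 + |z'|² = (|1 - cz|² + |z - c|²)/|1 - cz|²`, so
  `gam * D * |1 - c z|² = gam * den'`.. a polynomial identity after clearing denominators: with `D = (1 + |z'|²) - (1 - |z'|²) C`,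
  `D |1 - c z|² = den c z T`  (both are `|1-cz|² + |z-c|² - (1-c²)(1-n) C` and `|1 - cz|² - |z - c|² = (1 - c²)(1 - n)`), and
  `tau = (1 + c²)/(1 - c²)`, `gam = (1 - c²)/(2c)`.  First component: `N = tau * den + (2/gam) (z̄ - c)(1 - c z)`; second: `2c (1-n) S = (1-c²)(1-n) S / gam`.
* `J_NK`: `q2 (NK) = ((1+n) + (1-n) C) / (gam² ((1+n) - (1-n) C))` as `4n + (1-n)² S² = (1+n)² - (1-n)² C²`.
* `NK_pol`: `NK c (θ ex(-u), T) = pol u ..`.
-/

open scoped Manifold ContDiff Topology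
open Set Filter
open Complex (I normSq)

namespace Pool.Agent.CHW

open Pool.Agent.CSG (stp thc)
open Pool.Agent.RSG (ex)

variable {c : ℝ}

theorem NmA_n {z : ℂ} (hz : ‖z‖ < 1) : normSq z < 1 := by
  rw [Complex.normSq_eq_norm_sq]
  have := norm_nonneg z
  nlinarith

theorem NmA_c (h0 : 0 < c) (h1 : c ≤ 1 / 10) : 0 < 1 - c ^ 2 := by nlinarith

theorem NmA_sub (c : ℝ) (z : ℂ) : normSq (z - c) = normSq z + c ^ 2 - 2 * c * z.re := by
  simp only [Complex.normSq_apply, Complex.sub_re, Complex.sub_im, Complex.ofReal_re, Complex.ofReal_im]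
  ring

theorem NmA_one (c : ℝ) (z : ℂ) : normSq (1 - c * z) = 1 + c ^ 2 * normSq z - 2 * c * z.re := by
  simp only [Complex.normSq_apply, Complex.sub_re, Complex.sub_im, Complex.mul_re, Complex.mul_im,
    Complex.ofReal_re, Complex.ofReal_im, Complex.one_re, Complex.one_im]
  ring

theorem NmA_dif (c : ℝ) (z : ℂ) : normSq (1 - c * z) - normSq (z - c) = (1 - c ^ 2) * (1 - normSq z) := by
  rw [NmA_sub, NmA_one]
  ring

theorem NmA_ne (h0 : 0 < c) (h1 : c ≤ 1 / 10) {z : ℂ} (hz : ‖z‖ < 1) : (1 - c * z : ℂ) ≠ 0 := by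
  intro h
  have h2 := NmA_dif c z
  rw [h, map_zero] at h2
  have h3 := Complex.normSq_nonneg (z - c)
  have h4 := mul_pos (NmA_c h0 h1) (by linarith [NmA_n hz] : 0 < 1 - normSq z)
  linarith

theorem den_nonneg (h0 : 0 < c) (h1 : c ≤ 1 / 10) {z : ℂ} (hz : ‖z‖ < 1) (T : ℝ) : 0 ≤ den c z T := by
  unfold den
  have h2 := Complex.normSq_nonneg (z - c)
  have h3 := Real.cos_le_one (2 * Real.pi * T)
  have h4 := mul_nonneg (mul_pos (by linarith [NmA_n hz] : 0 < 1 - normSq z) (NmA_c h0 h1)).le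
    (by linarith : 0 ≤ 1 - Real.cos (2 * Real.pi * T))
  linarith

theorem den_pos (h0 : 0 < c) (h1 : c ≤ 1 / 10) {z : ℂ} (hz : ‖z‖ < 1) (T : ℝ) :
    0 < den c z T ↔ (z ≠ c ∨ Real.cos (2 * Real.pi * T) ≠ 1) := by
  have h2 := Complex.normSq_nonneg (z - c)
  have h3 := Real.cos_le_one (2 * Real.pi * T)
  have h5 := mul_pos (by linarith [NmA_n hz] : 0 < 1 - normSq z) (NmA_c h0 h1)
  have h4 := mul_nonneg h5.le (by linarith : 0 ≤ 1 - Real.cos (2 * Real.pi * T))
  unfold den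
  constructor
  · intro h
    by_contra h6
    push Not at h6
    rw [h6.1, h6.2] at h
    simp at h
  · rintro (h | h)
    · have : 0 < normSq (z - c) := Complex.normSq_pos.mpr (sub_ne_zero.mpr h)
      linarith
    · have : 0 < 1 - Real.cos (2 * Real.pi * T) := by
        rcases lt_or_eq_of_le h3 with h6 | h6
        · linarith
        · exact absurd h6 h
      have := mul_pos h5 this
      linarith

theorem NmA_form (c : ℝ) (z : ℂ) (T : ℝ) : NM c (z, T) =
    (⟨(2 * (normSq z - c ^ 2) + (1 - normSq z) * (1 + c ^ 2) * (1 - Real.cos (2 * Real.pi * T))) / den c z T,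
      -(4 * c * z.im) / den c z T⟩, 2 * c * (1 - normSq z) * Real.sin (2 * Real.pi * T) / den c z T) := by
  unfold NM
  refine Prod.ext ?_ rfl
  simp only
  apply Complex.ext
  · rw [Complex.div_ofReal_re]
    simp only [Complex.add_re, Complex.ofReal_re, Complex.mul_re, Complex.mul_im, Complex.add_im, Complex.sub_re,
      Complex.sub_im, Complex.conj_re, Complex.conj_im, Complex.ofReal_im, Complex.re_ofNat, Complex.im_ofNat,
      Complex.normSq_apply]
    congr 1
    ring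
  · rw [Complex.div_ofReal_im]
    simp only [Complex.add_re, Complex.ofReal_re, Complex.mul_re, Complex.mul_im, Complex.add_im, Complex.sub_re,
      Complex.sub_im, Complex.conj_re, Complex.conj_im, Complex.ofReal_im, Complex.re_ofNat, Complex.im_ofNat]
    congr 1
    ring

theorem NmA_den_neg (c : ℝ) (z : ℂ) (T : ℝ) : den c (-z) T =
    2 * (normSq z + c ^ 2 + 2 * c * z.re) + (1 - normSq z) * (1 - c ^ 2) * (1 - Real.cos (2 * Real.pi * T)) := by
  unfold den
  rw [NmA_sub, Complex.normSq_neg, Complex.neg_re]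
  ring

theorem NmA_den (c : ℝ) (z : ℂ) (T : ℝ) : den c z T =
    2 * (normSq z + c ^ 2 - 2 * c * z.re) + (1 - normSq z) * (1 - c ^ 2) * (1 - Real.cos (2 * Real.pi * T)) := by
  unfold den
  rw [NmA_sub]

theorem NmA_key (c : ℝ) (z : ℂ) (T : ℝ) :
    (2 * (normSq z - c ^ 2) + (1 - normSq z) * (1 + c ^ 2) * (1 - Real.cos (2 * Real.pi * T))) ^ 2 +
      (4 * c * z.im) ^ 2 + (2 * c * (1 - normSq z) * Real.sin (2 * Real.pi * T)) ^ 2 =
      den c z T * den c (-z) T := by
  rw [NmA_den_neg, NmA_den]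
  have hn : z.im ^ 2 = normSq z - z.re ^ 2 := by
    rw [Complex.normSq_apply]
    ring
  have hs : Real.sin (2 * Real.pi * T) ^ 2 = 1 - Real.cos (2 * Real.pi * T) ^ 2 := by
    have := Real.sin_sq_add_cos_sq (2 * Real.pi * T)
    linarith
  rw [mul_pow (4 * c) z.im, hn, mul_pow _ (Real.sin (2 * Real.pi * T)), hs]
  ring

theorem q2_NM (h0 : 0 < c) (h1 : c ≤ 1 / 10) {z : ℂ} (hz : ‖z‖ < 1) (T : ℝ) (hd : 0 < den c z T) :
    q2 (NM c (z, T)) = den c (-z) T / den c z T := by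
  rw [NmA_form]
  unfold q2
  simp only [Complex.normSq_mk]
  have hd' := hd.ne'
  have h2 := NmA_key c z T
  rw [eq_div_iff hd']
  have h3 : (2 * (normSq z - c ^ 2) + (1 - normSq z) * (1 + c ^ 2) * (1 - Real.cos (2 * Real.pi * T))) / den c z T *
      ((2 * (normSq z - c ^ 2) + (1 - normSq z) * (1 + c ^ 2) * (1 - Real.cos (2 * Real.pi * T))) / den c z T) +
      -(4 * c * z.im) / den c z T * (-(4 * c * z.im) / den c z T) +
      (2 * c * (1 - normSq z) * Real.sin (2 * Real.pi * T) / den c z T) ^ 2 =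
      (den c z T * den c (-z) T) / (den c z T) ^ 2 := by
    rw [← h2]
    ring
  rw [h3]
  field_simp

theorem NmA_cos_one {T : ℝ} (h : Real.cos (2 * Real.pi * T) = 1) : Real.sin (2 * Real.pi * T) = 0 := by
  have := Real.sin_sq_add_cos_sq (2 * Real.pi * T)
  rw [h] at this
  have h2 : Real.sin (2 * Real.pi * T) ^ 2 = 0 := by linarith
  exact pow_eq_zero_iff (two_ne_zero) |>.mp h2

theorem NM_neg (h0 : 0 < c) (h1 : c ≤ 1 / 10) {z : ℂ} (hz : ‖z‖ < 1) (T : ℝ) :
    NM c (-z, T) = Jv (NM c (z, T)) := by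
  rcases eq_or_lt_of_le (den_nonneg h0 h1 hz T) with hd | hd
  · have h2 : ¬ (z ≠ c ∨ Real.cos (2 * Real.pi * T) ≠ 1) := by
      intro h
      have := (den_pos h0 h1 hz T).mpr h
      linarith
    push Not at h2
    obtain ⟨h2, h3⟩ := h2
    have h4 := NmA_cos_one h3
    have e1 : NM c (z, T) = 0 := by
      rw [NmA_form, ← hd]
      simp only [div_zero]
      rfl
    have e2 : NM c (-z, T) = 0 := by
      rw [NmA_form, h3, h4, h2, Complex.normSq_neg, Complex.normSq_ofReal]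
      refine Prod.ext ?_ ?_
      · apply Complex.ext
        · simp only [Prod.fst_zero, Complex.zero_re]
          rw [sub_self, mul_zero, add_zero]
          have : (2 * (c * c - c ^ 2)) = 0 := by ring
          rw [this, zero_div]
        · simp
      · simp
    rw [e1, e2]
    unfold Jv
    simp
    rfl
  · have hq := q2_NM h0 h1 hz T hd
    unfold Jv
    rw [hq]
    rw [NmA_form c z T, NmA_form c (-z) T, Complex.normSq_neg]
    have hd' := hd.ne'
    refine Prod.ext ?_ ?_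
    · apply Complex.ext
      · simp only
        rw [Complex.div_ofReal_re, Complex.conj_re]
        simp only
        rw [div_div_div_cancel_right₀ hd']
      · simp only
        rw [Complex.div_ofReal_im, Complex.conj_im]
        simp only
        have e5 : -(-(4 * c * z.im) / den c z T) = (4 * c * z.im) / den c z T := by ring
        rw [e5, div_div_div_cancel_right₀ hd', Complex.neg_im]
        ring
    · simp only
      rw [div_div_div_cancel_right₀ hd']

theorem NM_conj (z : ℂ) (T : ℝ) : NM c ((starRingEnd ℂ) z, T) = cjv (NM c (z, T)) := by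
  have hd : den c ((starRingEnd ℂ) z) T = den c z T := by
    rw [NmA_den, NmA_den, Complex.normSq_conj, Complex.conj_re]
  unfold cjv
  rw [NmA_form, NmA_form, hd, Complex.normSq_conj, Complex.conj_im]
  refine Prod.ext ?_ rfl
  apply Complex.ext
  · simp
  · simp only [Complex.conj_im]
    ring

theorem NM_mir (z : ℂ) (T : ℝ) : NM c (z, -T) = mir (NM c (z, T)) := by
  have e1 : Real.cos (2 * Real.pi * -T) = Real.cos (2 * Real.pi * T) := by
    rw [mul_neg, Real.cos_neg]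
  have e2 : Real.sin (2 * Real.pi * -T) = -Real.sin (2 * Real.pi * T) := by
    rw [mul_neg, Real.sin_neg]
  have hd : den c z (-T) = den c z T := by
    rw [NmA_den, NmA_den, e1]
  unfold mir
  rw [NmA_form, NmA_form, hd, e1, e2]
  refine Prod.ext rfl ?_
  simp only
  ring

theorem NM_per (z : ℂ) (T : ℝ) (n : ℤ) : NM c (z, T + n) = NM c (z, T) := by
  have e0 : 2 * Real.pi * (T + n) = 2 * Real.pi * T + n * (2 * Real.pi) := by ring
  have e1 : Real.cos (2 * Real.pi * (T + n)) = Real.cos (2 * Real.pi * T) := by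
    rw [e0, Real.cos_add_int_mul_two_pi]
  have e2 : Real.sin (2 * Real.pi * (T + n)) = Real.sin (2 * Real.pi * T) := by
    rw [e0, Real.sin_add_int_mul_two_pi]
  have hd : den c z (T + n) = den c z T := by
    rw [NmA_den, NmA_den, e1]
  rw [NmA_form, NmA_form, hd, e1, e2]

theorem NM_page0 {z : ℂ} (hz : z ≠ c) : NM c (z, 0) = ((z + c) / (z - c), 0) := by
  have hne : z - c ≠ 0 := sub_ne_zero.mpr hz
  unfold NM den
  refine Prod.ext ?_ ?_
  · simp only [mul_zero, Real.cos_zero, sub_self, Complex.ofReal_zero, add_zero]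
    have h2 : ((2 * normSq (z - c) : ℝ) : ℂ) = 2 * ((z - c) * ((starRingEnd ℂ) z - c)) := by
      push_cast
      rw [← Complex.mul_conj, map_sub, Complex.conj_ofReal]
    have h3 : (starRingEnd ℂ) z - c ≠ 0 := by
      intro h
      apply hne
      have := congrArg (starRingEnd ℂ) h
      rw [map_sub, Complex.conj_conj, Complex.conj_ofReal, map_zero] at this
      exact this
    rw [h2]
    field_simp
  · simp

theorem NM_snd_pos (h0 : 0 < c) (h1 : c ≤ 1 / 10) {z : ℂ} (hz : ‖z‖ < 1) {T : ℝ} (hd : 0 < den c z T) :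
    0 < (NM c (z, T)).2 ↔ 0 < Real.sin (2 * Real.pi * T) := by
  rw [NmA_form]
  simp only
  have h2 : 0 < 2 * c * (1 - normSq z) := mul_pos (by linarith) (by linarith [NmA_n hz])
  rw [div_pos_iff_of_pos_right hd]
  constructor
  · intro h
    exact (mul_pos_iff_of_pos_left h2).mp h
  · intro h
    exact mul_pos h2 h

theorem NM_snd_zero (h0 : 0 < c) (h1 : c ≤ 1 / 10) {z : ℂ} (hz : ‖z‖ < 1) {T : ℝ} (hd : 0 < den c z T) :
    (NM c (z, T)).2 = 0 ↔ Real.sin (2 * Real.pi * T) = 0 := by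
  rw [NmA_form]
  simp only
  have h2 : 2 * c * (1 - normSq z) ≠ 0 := (mul_pos (by linarith) (by linarith [NmA_n hz])).ne'
  rw [div_eq_zero_iff, mul_eq_zero]
  constructor
  · rintro ((h | h) | h)
    · exact absurd h h2
    · exact h
    · exact absurd h hd.ne'
  · intro h
    exact Or.inl (Or.inr h)

/-- the denominators -/
theorem NK_den (h0 : 0 < c) (h1 : c ≤ 1 / 10) {z : ℂ} (hz : ‖z‖ < 1) (T : ℝ) :
    ((1 + normSq ((z - c) / (1 - c * z))) - (1 - normSq ((z - c) / (1 - c * z))) * Real.cos (2 * Real.pi * T)) *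
      normSq (1 - c * z) = den c z T := by
  have hne : normSq (1 - c * z) ≠ 0 := by
    intro h
    exact NmA_ne h0 h1 hz (Complex.normSq_eq_zero.mp h)
  have h2 := NmA_dif c z
  rw [Complex.normSq_div]
  unfold den
  have h3 : normSq (z - c) / normSq (1 - c * z) * normSq (1 - c * z) = normSq (z - c) := div_mul_cancel₀ _ hne
  have h4 : ((1 + normSq (z - c) / normSq (1 - c * z)) -
      (1 - normSq (z - c) / normSq (1 - c * z)) * Real.cos (2 * Real.pi * T)) * normSq (1 - c * z) =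
      (normSq (1 - c * z) + normSq (z - c) / normSq (1 - c * z) * normSq (1 - c * z)) -
      (normSq (1 - c * z) - normSq (z - c) / normSq (1 - c * z) * normSq (1 - c * z)) *
        Real.cos (2 * Real.pi * T) := by ring
  rw [h4, h3]
  linear_combination (1 - Real.cos (2 * Real.pi * T)) * h2

theorem moeb_lt (h0 : 0 < c) (h1 : c ≤ 1 / 10) {z : ℂ} (hz : ‖z‖ < 1) : ‖(z - c) / (1 - c * z)‖ < 1 := by
  have hne := NmA_ne h0 h1 hz
  rw [norm_div, div_lt_one (norm_pos_iff.mpr hne)]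
  have h2 := NmA_dif c z
  have h4 := mul_pos (NmA_c h0 h1) (by linarith [NmA_n hz] : 0 < 1 - normSq z)
  rw [Complex.normSq_eq_norm_sq, Complex.normSq_eq_norm_sq] at h2
  have h3 : ‖z - c‖ ^ 2 < ‖1 - c * z‖ ^ 2 := by linarith
  exact lt_of_pow_lt_pow_left₀ 2 (norm_nonneg _) h3

/-- inverse of the Moebius map -/
theorem moeb_inv (h0 : 0 < c) (h1 : c ≤ 1 / 10) {z : ℂ} (hz : ‖z‖ < 1) :
    ((z - c) / (1 - c * z) + c) / (1 + c * ((z - c) / (1 - c * z))) = z := by
  have hne := NmA_ne h0 h1 hz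
  have hc : (1 - (c : ℂ) ^ 2) ≠ 0 := by
    have := (NmA_c h0 h1).ne'
    intro h
    apply this
    exact_mod_cast h
  have e0 : (z - c) / (1 - c * z) * (1 - c * z) = z - c := div_mul_cancel₀ _ hne
  have e1 : (z - c) / (1 - c * z) + c = z * (1 - (c : ℂ) ^ 2) / (1 - c * z) := by
    rw [eq_div_iff hne]
    linear_combination e0
  have e2 : 1 + c * ((z - c) / (1 - c * z)) = (1 - (c : ℂ) ^ 2) / (1 - c * z) := by
    rw [eq_div_iff hne]
    linear_combination c * e0
  rw [e1, e2, div_div_div_cancel_right₀ hne, mul_div_assoc, div_self hc, mul_one]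

theorem NM_NK (h0 : 0 < c) (h1 : c ≤ 1 / 10) {z : ℂ} (hz : ‖z‖ < 1) {T : ℝ} (hd : 0 < den c z T) :
    NM c (z, T) = tv (tau c) (NK c ((z - c) / (1 - c * z), T)) := by
  have hne := NmA_ne h0 h1 hz
  have hq : 0 < normSq (1 - c * z) := Complex.normSq_pos.mpr hne
  have hK := NK_den h0 h1 hz T
  have hc := NmA_c h0 h1
  have hD : (1 + normSq ((z - c) / (1 - c * z))) - (1 - normSq ((z - c) / (1 - c * z))) * Real.cos (2 * Real.pi * T) =
      den c z T / normSq (1 - c * z) := by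
    rw [← hK, mul_div_assoc, div_self hq.ne', mul_one]
  unfold NM NK tv
  simp only
  rw [hD]
  have hdif := NmA_dif c z
  refine Prod.ext ?_ ?_
  · simp only
    have hqC : ((normSq (1 - c * z) : ℝ) : ℂ) = (1 - c * z) * (1 - c * (starRingEnd ℂ) z) := by
      rw [← Complex.mul_conj, map_sub, map_one, map_mul, Complex.conj_ofReal]
    have hcj : (1 - c * (starRingEnd ℂ) z) ≠ 0 := by
      intro h
      apply hne
      have := congrArg (starRingEnd ℂ) h
      rw [map_sub, map_mul, Complex.conj_conj, Complex.conj_ofReal, map_zero, map_one] at this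
      exact this
    have hdC : ((den c z T : ℝ) : ℂ) ≠ 0 := Complex.ofReal_ne_zero.mpr hd.ne'
    have hcC : (1 - (c : ℂ) ^ 2) ≠ 0 := by
      have := hc.ne'
      intro h
      apply this
      exact_mod_cast h
    have hc0 : (c : ℂ) ≠ 0 := Complex.ofReal_ne_zero.mpr h0.ne'
    have e1 : (starRingEnd ℂ) ((z - c) / (1 - c * z)) = ((starRingEnd ℂ) z - c) / (1 - c * (starRingEnd ℂ) z) := by
      rw [map_div₀, map_sub, map_sub, map_one, map_mul, Complex.conj_ofReal]
    have e2 : ((gam c * (den c z T / normSq (1 - c * z)) : ℝ) : ℂ) =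
        (1 - (c : ℂ) ^ 2) / (2 * c) * ((den c z T : ℝ) / ((1 - c * z) * (1 - c * (starRingEnd ℂ) z))) := by
      rw [← hqC]
      unfold gam
      push_cast
      ring
    have e3 : ((tau c : ℝ) : ℂ) = (1 + (c : ℂ) ^ 2) / (1 - (c : ℂ) ^ 2) := by
      unfold tau
      push_cast
      ring
    have e4 : ((den c z T : ℝ) : ℂ) = 2 * ((z - c) * ((starRingEnd ℂ) z - c)) +
        (1 - normSq z) * (1 - (c : ℂ) ^ 2) * (1 - Real.cos (2 * Real.pi * T)) := by
      have : ((normSq (z - c) : ℝ) : ℂ) = (z - c) * ((starRingEnd ℂ) z - c) := by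
        rw [← Complex.mul_conj, map_sub, Complex.conj_ofReal]
      unfold den
      push_cast
      rw [this]
    rw [e1, e2, e3]
    have e5 : 2 * (((starRingEnd ℂ) z - c) / (1 - c * (starRingEnd ℂ) z)) /
        ((1 - (c : ℂ) ^ 2) / (2 * c) * ((den c z T : ℝ) / ((1 - c * z) * (1 - c * (starRingEnd ℂ) z)))) =
        4 * c * ((starRingEnd ℂ) z - c) * (1 - c * z) / ((1 - (c : ℂ) ^ 2) * (den c z T : ℝ)) := by
      generalize (1 - c * (starRingEnd ℂ) z) = q at hcj ⊢
      generalize (1 - c * z : ℂ) = p at hne ⊢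
      generalize (starRingEnd ℂ) z - c = a
      generalize (1 - (c : ℂ) ^ 2) = b at hcC ⊢
      generalize ((den c z T : ℝ) : ℂ) = d at hdC ⊢
      field_simp
      ring
    rw [e5]
    have e6 : 4 * c * ((starRingEnd ℂ) z - c) * (1 - c * z) / ((1 - (c : ℂ) ^ 2) * (den c z T : ℝ)) +
        (1 + (c : ℂ) ^ 2) / (1 - (c : ℂ) ^ 2) =
        (4 * c * ((starRingEnd ℂ) z - c) * (1 - c * z) + (1 + (c : ℂ) ^ 2) * (den c z T : ℝ)) /
          ((1 - (c : ℂ) ^ 2) * (den c z T : ℝ)) := by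
      field_simp
    rw [e6]
    rw [div_eq_div_iff hdC (mul_ne_zero hcC hdC)]
    have e7 : (2 * (z + c) * ((starRingEnd ℂ) z - c) +
        ((1 - normSq z) * (1 + c ^ 2) * (1 - Real.cos (2 * Real.pi * T)) : ℝ)) * (1 - (c : ℂ) ^ 2) =
        4 * c * ((starRingEnd ℂ) z - c) * (1 - c * z) + (1 + (c : ℂ) ^ 2) * (den c z T : ℝ) := by
      rw [e4]
      push_cast
      ring
    rw [← e7]
    ring
  · simp only
    have hn : (1 - normSq ((z - c) / (1 - c * z))) = (1 - c ^ 2) * (1 - normSq z) / normSq (1 - c * z) := by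
      rw [Complex.normSq_div, ← hdif, sub_div, div_self hq.ne']
    rw [hn]
    unfold gam
    have hdn := hd.ne'
    have hqn := hq.ne'
    have hc' := hc.ne'
    have hc0 := h0.ne'
    field_simp

theorem J_NK (h0 : 0 < c) (h1 : c ≤ 1 / 10) {z : ℂ} (hz : ‖z‖ < 1) (T : ℝ)
    (hd : 0 < (1 + normSq z) - (1 - normSq z) * Real.cos (2 * Real.pi * T)) :
    Jv (NK c (z, T)) = BK c (z, T) := by
  have hg : gam c ≠ 0 := (gam_pos h0 h1).1.ne'
  obtain ⟨D, hD⟩ : ∃ D, D = (1 + normSq z) - (1 - normSq z) * Real.cos (2 * Real.pi * T) := ⟨_, rfl⟩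
  obtain ⟨D', hD'⟩ : ∃ D', D' = (1 + normSq z) + (1 - normSq z) * Real.cos (2 * Real.pi * T) := ⟨_, rfl⟩
  have hs : Real.sin (2 * Real.pi * T) ^ 2 = 1 - Real.cos (2 * Real.pi * T) ^ 2 := by
    have := Real.sin_sq_add_cos_sq (2 * Real.pi * T)
    linarith
  have hDD : 4 * normSq z + ((1 - normSq z) * Real.sin (2 * Real.pi * T)) ^ 2 = D * D' := by
    rw [hD, hD', mul_pow, hs]
    ring
  have hdn : D ≠ 0 := by
    rw [hD]
    exact hd.ne'
  have hq : q2 (NK c (z, T)) = D' / (gam c ^ 2 * D) := by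
    unfold q2 NK
    simp only
    rw [← hD, Complex.normSq_div, Complex.normSq_ofReal, Complex.normSq_mul, Complex.normSq_conj]
    have h2 : normSq (2 : ℂ) = 4 := by
      rw [Complex.normSq_apply]
      norm_num
    rw [h2, div_pow]
    have h3 : 4 * normSq z / (gam c * D * (gam c * D)) +
        ((1 - normSq z) * Real.sin (2 * Real.pi * T)) ^ 2 / (gam c * D) ^ 2 =
        (4 * normSq z + ((1 - normSq z) * Real.sin (2 * Real.pi * T)) ^ 2) / (gam c * D) ^ 2 := by ring
    rw [h3, hDD]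
    field_simp
  unfold Jv
  rw [hq]
  unfold NK BK
  simp only
  rw [← hD, ← hD']
  have hgC : ((gam c : ℝ) : ℂ) ≠ 0 := Complex.ofReal_ne_zero.mpr hg
  have hDC : ((D : ℝ) : ℂ) ≠ 0 := Complex.ofReal_ne_zero.mpr hdn
  refine Prod.ext ?_ ?_
  · simp only
    rw [map_div₀, map_mul, Complex.conj_conj, Complex.conj_ofReal]
    have h2 : (starRingEnd ℂ) (2 : ℂ) = 2 := by
      apply Complex.ext <;> simp
    rw [h2]
    push_cast
    rcases eq_or_ne D' 0 with h3 | h3
    · rw [h3]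
      simp
    · have h4 : ((D' : ℝ) : ℂ) ≠ 0 := Complex.ofReal_ne_zero.mpr h3
      field_simp
  · simp only
    rcases eq_or_ne D' 0 with h3 | h3
    · rw [h3]
      simp
    · field_simp

theorem NK_pol (h0 : 0 < c) (h1 : c ≤ 1 / 10) (θ u T : ℝ) :
    NK c (θ * ex (-u), T) = pol u ((1 / gam c : ℝ) *
      (⟨2 * θ, (1 - θ ^ 2) * Real.sin (2 * Real.pi * T)⟩ : ℂ) /
        ((1 + θ ^ 2) - (1 - θ ^ 2) * Real.cos (2 * Real.pi * T) : ℝ)) := by
  have hn : normSq (θ * ex (-u)) = θ ^ 2 := by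
    rw [Complex.normSq_mul, Complex.normSq_ofReal, Complex.normSq_eq_norm_sq, RSG.ex_norm]
    ring
  have hcj : (starRingEnd ℂ) (θ * ex (-u)) = θ * ex u := by
    rw [map_mul, Complex.conj_ofReal, RSG.ex_neg, Complex.conj_conj]
  unfold NK pol
  simp only
  rw [hn, hcj]
  refine Prod.ext ?_ ?_
  · simp only
    rw [Complex.div_ofReal_re, Complex.re_ofReal_mul]
    push_cast
    rw [mul_comm (gam c : ℂ), ← div_div]
    ring
  · simp only
    rw [Complex.div_ofReal_im, Complex.im_ofReal_mul]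
    simp only
    rw [mul_comm (gam c), ← div_div]
    ring

/-- the complex version of `J_NK` -/
theorem JC_base (h0 : 0 < c) (h1 : c ≤ 1 / 10) {θ T : ℝ}
    (h2 : 0 < (1 + θ ^ 2) - (1 - θ ^ 2) * Real.cos (2 * Real.pi * T))
    (h3 : 0 < (1 + θ ^ 2) + (1 - θ ^ 2) * Real.cos (2 * Real.pi * T)) :
    JC ((1 / gam c : ℝ) * (⟨2 * θ, (1 - θ ^ 2) * Real.sin (2 * Real.pi * T)⟩ : ℂ) /
        ((1 + θ ^ 2) - (1 - θ ^ 2) * Real.cos (2 * Real.pi * T) : ℝ)) =
      (gam c : ℂ) * ⟨2 * θ, (1 - θ ^ 2) * Real.sin (2 * Real.pi * T)⟩ /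
        ((1 + θ ^ 2) + (1 - θ ^ 2) * Real.cos (2 * Real.pi * T) : ℝ) := by
  have hg : gam c ≠ 0 := (gam_pos h0 h1).1.ne'
  obtain ⟨D, hD⟩ : ∃ D, D = (1 + θ ^ 2) - (1 - θ ^ 2) * Real.cos (2 * Real.pi * T) := ⟨_, rfl⟩
  obtain ⟨D', hD'⟩ : ∃ D', D' = (1 + θ ^ 2) + (1 - θ ^ 2) * Real.cos (2 * Real.pi * T) := ⟨_, rfl⟩
  obtain ⟨v, hv⟩ : ∃ v : ℂ, v = ⟨2 * θ, (1 - θ ^ 2) * Real.sin (2 * Real.pi * T)⟩ := ⟨_, rfl⟩
  have hs : Real.sin (2 * Real.pi * T) ^ 2 = 1 - Real.cos (2 * Real.pi * T) ^ 2 := by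
    have := Real.sin_sq_add_cos_sq (2 * Real.pi * T)
    linarith
  have hN : normSq v = D * D' := by
    rw [hv, Complex.normSq_mk, hD, hD']
    have : (1 - θ ^ 2) * Real.sin (2 * Real.pi * T) * ((1 - θ ^ 2) * Real.sin (2 * Real.pi * T)) =
        (1 - θ ^ 2) ^ 2 * Real.sin (2 * Real.pi * T) ^ 2 := by ring
    rw [this, hs]
    ring
  rw [← hD, ← hD', ← hv]
  rw [← hD] at h2
  rw [← hD'] at h3
  have hvv : v * (starRingEnd ℂ) v = (D : ℂ) * D' := by
    rw [Complex.mul_conj, hN]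
    push_cast
    ring
  have hDC : ((D : ℝ) : ℂ) ≠ 0 := Complex.ofReal_ne_zero.mpr h2.ne'
  have hDC' : ((D' : ℝ) : ℂ) ≠ 0 := Complex.ofReal_ne_zero.mpr h3.ne'
  have hgC : ((gam c : ℝ) : ℂ) ≠ 0 := Complex.ofReal_ne_zero.mpr hg
  have hvn : (starRingEnd ℂ) v ≠ 0 := by
    intro h
    rw [h, mul_zero] at hvv
    exact mul_ne_zero hDC hDC' hvv.symm
  unfold JC
  rw [map_div₀, map_mul, Complex.conj_ofReal, Complex.conj_ofReal]
  push_cast
  rw [eq_div_iff hDC']
  field_simp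
  rw [← hvv]
  ring

end Pool.Agent.CHW
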