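import Pool.Agent.CHW.CrA
import Pool.Agent.CHW.EeM
import Pool.Agent.CHW.NmA

/-!
# CHW/CrB: the functions `V0`, `V1`   (difficulty 3)

`θ = thp p = 2 (1/2000/gam) sinh (2πp)` (smooth, odd, positive derivative), `C, S` = cos, sin of `2πt`, `D₂ = (1+θ²) + (1-θ²) C` (`> 0` unless `p = 0`, `C = -1`),
`D₁ = (1+θ²) - (1-θ²) C`; `V0 = gam ⟨2θ, (1-θ²) S⟩/D₂`, `X1 = gam⁻¹ ⟨2θ, (1-θ²) S⟩/D₁ = JC V0` (`JC_base`), `V1 = JC (EMc (JC V0)) = JC (EMc X1)`.
Only points with `D₂ > 0` are considered, `T12 t : t ∉ 1/2 + ℤ` if `p = 0`.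

* `V1_eq`: if `V0 ≠ 0` then `X1 ≠ 0`, and `V1 = JC (EMc X1)`; `EMc` is given by positive factors (`EM_coef`).
* `V1_near`: if `V0` is near `0` (`gam ‖..‖`), `es (JC V0) ≥ 1400` and `EMc = id` there (profiles `B s`, `s`): `V1 = V0` if `‖V0‖ ≤ 1/1400` (`es B X ≥ ‖X‖` for `B ≤ 1`).
* `V1_ld` at `(0, t)`, `t ∉ 1/2 + ℤ`: `V0` is smooth near `(0, t)`, its derivative there is diagonal: `∂_p V0 = gam 2 θ'(0)/(1 + C)` real, `∂_t V0 = i gam π / cos² (πt)`
  (`V0 (0, t) = i gam tan (π t)`).  If `V0 (0, t) ≠ 0` compose with `JC`, `EMc` (`EMc_ld`), `JC`; if it is `0` then `V1 = V0` near `(0, t)`.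
* `vv t = Im (V1 (0, t))`, for `0 < t < 1/2`: `X1 = i cot (π t)/gam`, `EMc (i h) = i mK (h)` (`h > 0`), so `vv t = 1 / mK (cot (πt)/gam) ∈ (0, 1/1000)`; `vv (-t) = - vv t`,
  `vv 0 = 0`.  `mK` is strictly increasing from `1000` to `∞` (`EMok`), `cot` strictly decreasing from `∞` to `0`: `vv` is strictly increasing on `(-1/2, 1/2)`, with
  limits `± 1/1000`; continuous (`V1_ld`).
* `V1_re`: sign of the real part = sign of `p`: `V0`, `X1`, `EMc X1`, `JC`.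
* symmetries: `V0 (-p) = - conj V0`, `V0 (p, -t) = conj V0 (p, t)`, `EMc`, `JC` commute with `X ↦ conj X` and `X ↦ - conj X`.
-/

open scoped Manifold ContDiff Topology
open Set Filter
open Complex (I normSq)

namespace Pool.Agent.CHW

open Pool.Agent.CSG (stp thc)
open Pool.Agent.RSG (ex)

variable {P : Par}

/-- `t ∉ 1/2 + ℤ` -/
def T12 (t : ℝ) : Prop := ∀ n : ℤ, t ≠ n + 1 / 2

/-- the base point, `JC V0` -/
noncomputable def X1 (P : Par) (p t : ℝ) : ℂ :=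
  ((1 / gam P.c : ℝ) : ℂ) * (⟨2 * thp P p, (1 - thp P p ^ 2) * Real.sin (2 * Real.pi * t)⟩ : ℂ) /
    ((1 + thp P p ^ 2) - (1 - thp P p ^ 2) * Real.cos (2 * Real.pi * t) : ℝ)


/-! ### helpers -/

theorem CrB_c (h : P.Ok) : 0 < P.c ∧ P.c ≤ 1 / 32 ∧ P.c ≤ 1 / 10 := by
  have h1 := h.c_pos
  have h2 := h.c_le
  have h3 := h.r₃_le
  have h4 := h.d₁_le
  refine ⟨h1, by linarith, by linarith⟩

theorem CrB_gam (h : P.Ok) : 0 < gam P.c ∧ 1 / gam P.c = 2 * P.c / (1 - P.c ^ 2) := by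
  obtain ⟨h0, h1, h2⟩ := CrB_c h
  obtain ⟨a, _, b⟩ := gam_pos h0 h2
  exact ⟨a, b⟩

theorem CrB_D2 {θ C : ℝ} (h1 : -1 ≤ C) (h2 : C ≤ 1) (h : θ ≠ 0 ∨ C ≠ -1) :
    0 < (1 + θ ^ 2) + (1 - θ ^ 2) * C := by
  have e : (1 + θ ^ 2) + (1 - θ ^ 2) * C = (1 + C) + θ ^ 2 * (1 - C) := by ring
  rw [e]
  rcases h with h | h
  · have h4 : 0 < θ ^ 2 := by positivity
    rcases eq_or_lt_of_le h1 with h3 | h3
    · rw [← h3]; nlinarith
    · nlinarith [mul_nonneg h4.le (sub_nonneg.2 h2)]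
  · have h4 : 0 < 1 + C := by
      rcases eq_or_lt_of_le h1 with h3 | h3
      · exact absurd h3.symm h
      · linarith
    nlinarith [mul_nonneg (sq_nonneg θ) (sub_nonneg.2 h2)]

theorem CrB_D1 {θ C : ℝ} (h1 : -1 ≤ C) (h2 : C ≤ 1) (h : θ ≠ 0 ∨ C ≠ 1) :
    0 < (1 + θ ^ 2) - (1 - θ ^ 2) * C := by
  have h3 := CrB_D2 (θ := θ) (C := -C) (by linarith) (by linarith)
    (by
      rcases h with h | h
      · exact Or.inl h
      · exact Or.inr fun h4 => h (by linarith))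
  linarith

theorem CrB_T12 {t : ℝ} : T12 t ↔ Real.cos (2 * Real.pi * t) ≠ -1 := by
  have hpi := Real.pi_pos
  constructor
  · intro h hc
    have h1 : Real.cos (2 * Real.pi * t - Real.pi) = 1 := by
      rw [Real.cos_sub_pi, hc, neg_neg]
    rw [Real.cos_eq_one_iff] at h1
    obtain ⟨n, hn⟩ := h1
    apply h n
    have h2 : (n : ℝ) * 2 * Real.pi = (2 * t - 1) * Real.pi := by linarith
    have h3 := mul_right_cancel₀ hpi.ne' h2
    linarith
  · intro h n hn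
    apply h
    rw [hn, show 2 * Real.pi * ((n : ℝ) + 1 / 2) = Real.pi + n * (2 * Real.pi) by ring,
      Real.cos_add_int_mul_two_pi, Real.cos_pi]

theorem CrB_T12' {t : ℝ} (ht : |t| < 1 / 2) : T12 t := by
  intro n hn
  rw [abs_lt] at ht
  have h1 : (n : ℝ) < 0 := by linarith
  have h2 : (-1 : ℝ) < n := by linarith
  have h3 : n < 0 := by exact_mod_cast h1
  have h4 : -1 < n := by exact_mod_cast h2
  omega

theorem thp_smooth (P : Par) : ContDiff ℝ ∞ (thp P) := by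
  unfold thp
  have h1 : ContDiff ℝ ∞ (fun p : ℝ => 2 * Real.pi * p) := contDiff_const.mul contDiff_id
  exact contDiff_const.mul (Real.contDiff_sinh.comp h1)

theorem thp_neg (P : Par) (p : ℝ) : thp P (-p) = -thp P p := by
  unfold thp
  rw [show 2 * Real.pi * -p = -(2 * Real.pi * p) by ring, Real.sinh_neg]
  ring

theorem CrB_thp0 (P : Par) : thp P 0 = 0 := by
  unfold thp
  simp

theorem thp_pos (h : P.Ok) {p : ℝ} : 0 < thp P p ↔ 0 < p := by
  obtain ⟨hg, _⟩ := CrB_gam h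
  have hpi := Real.pi_pos
  unfold thp
  have h1 : 0 < 2 * (1 / 2000 / gam P.c) := by positivity
  rw [mul_pos_iff_of_pos_left h1, Real.sinh_pos_iff]
  constructor
  · intro h2
    by_contra h3
    push Not at h3
    nlinarith
  · intro h2
    positivity

theorem CrB_thp_ne (h : P.Ok) {p : ℝ} (hp : p ≠ 0) : thp P p ≠ 0 := by
  rcases lt_or_gt_of_ne hp with h1 | h1
  · have h2 : 0 < thp P (-p) := (thp_pos h).2 (by linarith)
    rw [thp_neg] at h2
    linarith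
  · exact ((thp_pos h).2 h1).ne'

theorem CrB_exp : Real.exp (4 / 5) ≤ 223 / 100 := by
  have h1 : Real.exp (4 / 5) ^ 5 ≤ (223 / 100 : ℝ) ^ 5 := by
    have h2 : Real.exp (4 / 5) ^ 5 = Real.exp 1 ^ 4 := by
      rw [← Real.exp_nat_mul, ← Real.exp_nat_mul]
      norm_num
    rw [h2]
    have h3 : Real.exp 1 ≤ 2.7182818286 := Real.exp_one_lt_d9.le
    calc Real.exp 1 ^ 4 ≤ (2.7182818286 : ℝ) ^ 4 :=
          pow_le_pow_left₀ (Real.exp_pos _).le h3 4
      _ ≤ (223 / 100 : ℝ) ^ 5 := by norm_num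
  exact le_of_pow_le_pow_left₀ (by norm_num) (by norm_num) h1

theorem CrB_sinh : Real.sinh (4 / 5) ≤ 9 / 10 := by
  rw [Real.sinh_eq]
  have h1 := CrB_exp
  have h2 : (100 / 223 : ℝ) ≤ Real.exp (-(4 / 5)) := by
    rw [Real.exp_neg]
    rw [le_inv_comm₀ (by norm_num) (Real.exp_pos _)]
    norm_num
    linarith
  linarith

theorem thp_le (h : P.Ok) {p : ℝ} (hp : |p| ≤ 1 / 8) : |thp P p| ≤ P.c / 400 := by
  obtain ⟨hg, hg'⟩ := CrB_gam h
  obtain ⟨h0, h1, _⟩ := CrB_c h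
  have hpi := Real.pi_pos
  have hpi' := Real.pi_lt_d2
  have key : |Real.sinh (2 * Real.pi * p)| ≤ 9 / 10 := by
    rw [Real.abs_sinh]
    have h2 : |2 * Real.pi * p| ≤ 4 / 5 := by
      rw [abs_mul, abs_of_pos (by positivity : 0 < 2 * Real.pi)]
      nlinarith [abs_nonneg p]
    exact le_trans (Real.sinh_le_sinh.2 h2) CrB_sinh
  unfold thp
  rw [abs_mul, abs_of_pos (by positivity : 0 < 2 * (1 / 2000 / gam P.c))]
  have h3 : 1 / 2000 / gam P.c = (1 / 2000) * (2 * P.c / (1 - P.c ^ 2)) := by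
    rw [← hg']
    ring
  rw [h3]
  have h4 : 0 < 1 - P.c ^ 2 := by nlinarith
  have h5 : 2 * P.c / (1 - P.c ^ 2) ≤ 101 / 50 * P.c := by
    rw [div_le_iff₀ h4]
    nlinarith [mul_pos h0 h0]
  calc 2 * (1 / 2000 * (2 * P.c / (1 - P.c ^ 2))) * |Real.sinh (2 * Real.pi * p)|
      ≤ 2 * (1 / 2000 * (101 / 50 * P.c)) * (9 / 10) := by
        gcongr
    _ ≤ P.c / 400 := by nlinarith

/-! ### conjugation -/

theorem CrB_cos (t : ℝ) : -1 ≤ Real.cos (2 * Real.pi * t) ∧ Real.cos (2 * Real.pi * t) ≤ 1 :=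
  ⟨Real.neg_one_le_cos _, Real.cos_le_one _⟩

theorem CrB_ht (h : P.Ok) {p t : ℝ} (ht : p ≠ 0 ∨ T12 t) :
    0 < (1 + thp P p ^ 2) + (1 - thp P p ^ 2) * Real.cos (2 * Real.pi * t) := by
  apply CrB_D2 (CrB_cos t).1 (CrB_cos t).2
  rcases ht with ht | ht
  · exact Or.inl (CrB_thp_ne h ht)
  · exact Or.inr (CrB_T12.1 ht)

theorem JC_V0 (h : P.Ok) {p t : ℝ} (hp : |p| ≤ 1 / 8) (ht : p ≠ 0 ∨ T12 t) : JC (V0 P p t) = X1 P p t := by
  obtain ⟨h0, h1, h2⟩ := CrB_c h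
  have hD2 := CrB_ht h ht
  by_cases hc : thp P p ≠ 0 ∨ Real.cos (2 * Real.pi * t) ≠ 1
  · have hD1 := CrB_D1 (CrB_cos t).1 (CrB_cos t).2 hc
    have e := JC_base h0 h2 hD1 hD2
    have e2 : V0 P p t = JC (X1 P p t) := e.symm
    rw [e2, JC_JC]
  · push Not at hc
    obtain ⟨hc1, hc2⟩ := hc
    have hs : Real.sin (2 * Real.pi * t) = 0 := by
      have h3 := Real.sin_sq_add_cos_sq (2 * Real.pi * t)
      rw [hc2] at h3
      have h4 : Real.sin (2 * Real.pi * t) ^ 2 = 0 := by linarith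
      exact pow_eq_zero_iff (two_ne_zero) |>.1 h4
    have e0 : (⟨2 * thp P p, (1 - thp P p ^ 2) * Real.sin (2 * Real.pi * t)⟩ : ℂ) = 0 := by
      rw [hc1, hs]
      apply Complex.ext <;> simp
    have e1 : V0 P p t = 0 := by
      unfold V0
      rw [e0]
      simp
    have e2 : X1 P p t = 0 := by
      unfold X1
      rw [e0]
      simp
    rw [e1, e2, JC_zero]

theorem V0_ne (h : P.Ok) {p t : ℝ} (hp : |p| ≤ 1 / 8) (hp0 : p ≠ 0) : V0 P p t ≠ 0 := by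
  have hD2 := CrB_ht h (t := t) (Or.inl hp0)
  obtain ⟨hg, _⟩ := CrB_gam h
  have hθ := CrB_thp_ne h hp0
  unfold V0
  apply div_ne_zero
  · apply mul_ne_zero
    · exact_mod_cast hg.ne'
    · intro h1
      have h2 := congrArg Complex.re h1
      simp at h2
      exact hθ h2
  · exact_mod_cast hD2.ne'

theorem V1_X1 (h : P.Ok) {p t : ℝ} (hp : |p| ≤ 1 / 8) (ht : p ≠ 0 ∨ T12 t) :
    V1 P p t = JC (EMc (Bc P.c) (eK P.c) (mK P.c) (X1 P p t)) := by
  unfold V1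
  rw [JC_V0 h hp ht]

theorem CrB_JC (X : ℂ) : JC X = ⟨X.re / normSq X, X.im / normSq X⟩ := by
  unfold JC
  rw [one_div]
  apply Complex.ext
  · rw [Complex.inv_re, Complex.normSq_conj, Complex.conj_re]
  · rw [Complex.inv_im, Complex.normSq_conj, Complex.conj_im]
    ring

/-- the elliptic radius of the complex number -/
theorem CrB_rad_pos {B : ℝ} (hB : 0 < B) {X : ℂ} (hX : X ≠ 0) :
    0 < Real.sqrt (X.re ^ 2 / B ^ 2 + X.im ^ 2) := by
  apply Real.sqrt_pos.2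
  by_cases h : X.re = 0
  · have h1 : X.im ≠ 0 := by
      intro h2
      exact hX (Complex.ext h h2)
    have h2 : 0 < X.im ^ 2 := by positivity
    have h3 : 0 ≤ X.re ^ 2 / B ^ 2 := by positivity
    linarith
  · have h2 : 0 < X.re ^ 2 / B ^ 2 := by positivity
    have h3 : 0 ≤ X.im ^ 2 := by positivity
    linarith

theorem CrB_EMc_coef {B : ℝ} (hB : 0 < B) {e m : ℝ → ℝ} {ma : ℝ} (h : EMok 0 ma e m) {X : ℂ} (hX : X ≠ 0) :
    ∃ r s : ℝ, 0 < r ∧ 0 < s ∧ EMc B e m X = ⟨r * X.re, s * X.im⟩ := by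
  have h0 := CrB_rad_pos hB hX
  have he := h.e_pos h0
  have hm := h.m_gt h0
  have hma := h.mpos
  refine ⟨_, _, ?_, ?_, rfl⟩
  · positivity
  · exact div_pos (by linarith) h0

theorem CrB_EMc_ne {B : ℝ} (hB : 0 < B) {e m : ℝ → ℝ} {ma : ℝ} (h : EMok 0 ma e m) {X : ℂ} (hX : X ≠ 0) :
    EMc B e m X ≠ 0 := by
  obtain ⟨r, s, hr, hs, he⟩ := CrB_EMc_coef hB h hX
  rw [he]
  intro h1
  apply hX
  have h2 := congrArg Complex.re h1
  have h3 := congrArg Complex.im h1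
  simp only [Complex.zero_re, Complex.zero_im] at h2 h3
  apply Complex.ext
  · rw [Complex.zero_re]
    exact (mul_eq_zero.1 h2).resolve_left hr.ne'
  · rw [Complex.zero_im]
    exact (mul_eq_zero.1 h3).resolve_left hs.ne'

theorem CrB_X1_re (h : P.Ok) {p t : ℝ} : (X1 P p t).re = 1 / gam P.c * (2 * thp P p) /
    ((1 + thp P p ^ 2) - (1 - thp P p ^ 2) * Real.cos (2 * Real.pi * t)) := by
  unfold X1
  rw [Complex.div_ofReal_re, Complex.re_ofReal_mul]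

theorem CrB_X1_im (h : P.Ok) {p t : ℝ} : (X1 P p t).im = 1 / gam P.c * ((1 - thp P p ^ 2) * Real.sin (2 * Real.pi * t)) /
    ((1 + thp P p ^ 2) - (1 - thp P p ^ 2) * Real.cos (2 * Real.pi * t)) := by
  unfold X1
  rw [Complex.div_ofReal_im, Complex.im_ofReal_mul]

theorem CrB_V0_re (P : Par) {p t : ℝ} : (V0 P p t).re = gam P.c * (2 * thp P p) /
    ((1 + thp P p ^ 2) + (1 - thp P p ^ 2) * Real.cos (2 * Real.pi * t)) := by
  unfold V0
  rw [Complex.div_ofReal_re, Complex.re_ofReal_mul]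

theorem CrB_V0_im (P : Par) {p t : ℝ} : (V0 P p t).im = gam P.c * ((1 - thp P p ^ 2) * Real.sin (2 * Real.pi * t)) /
    ((1 + thp P p ^ 2) + (1 - thp P p ^ 2) * Real.cos (2 * Real.pi * t)) := by
  unfold V0
  rw [Complex.div_ofReal_im, Complex.im_ofReal_mul]

theorem V1_re (h : P.Ok) {p t : ℝ} (hp : |p| ≤ 1 / 8) (hp0 : 0 < p) : 0 < (V1 P p t).re := by
  obtain ⟨h0, h1, h2⟩ := CrB_c h
  obtain ⟨hg, _⟩ := CrB_gam h
  have hθ := (thp_pos h).2 hp0
  have hD1 := CrB_D1 (CrB_cos t).1 (CrB_cos t).2 (Or.inl hθ.ne')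
  have hX : 0 < (X1 P p t).re := by
    rw [CrB_X1_re h]
    positivity
  have hX0 : X1 P p t ≠ 0 := by
    intro h3
    rw [h3] at hX
    simp at hX
  rw [V1_X1 h hp (Or.inl hp0.ne')]
  obtain ⟨r, s, hr, hs, he⟩ := CrB_EMc_coef (Bc_pos h0) (EK_ok h0 h2) hX0
  have hne := CrB_EMc_ne (Bc_pos h0) (EK_ok h0 h2) hX0
  rw [CrB_JC]
  show 0 < _ / _
  apply div_pos _ (Complex.normSq_pos.2 hne)
  rw [he]
  positivity

theorem CrB_JC_neg (X : ℂ) : JC (-(starRingEnd ℂ) X) = -(starRingEnd ℂ) (JC X) := by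
  rw [CrB_JC, CrB_JC X]
  apply Complex.ext
  · simp [Complex.normSq_neg, neg_div]
  · simp [Complex.normSq_neg]

theorem CrB_JC_conj (X : ℂ) : JC ((starRingEnd ℂ) X) = (starRingEnd ℂ) (JC X) := by
  rw [CrB_JC, CrB_JC X]
  apply Complex.ext
  · simp
  · simp [neg_div]

theorem CrB_EMc_neg (B : ℝ) (e m : ℝ → ℝ) (X : ℂ) :
    EMc B e m (-(starRingEnd ℂ) X) = -(starRingEnd ℂ) (EMc B e m X) := by
  unfold EMc
  apply Complex.ext
  · simp
  · simp

theorem CrB_EMc_conj (B : ℝ) (e m : ℝ → ℝ) (X : ℂ) :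
    EMc B e m ((starRingEnd ℂ) X) = (starRingEnd ℂ) (EMc B e m X) := by
  unfold EMc
  apply Complex.ext
  · simp
  · simp

theorem V1_neg (h : P.Ok) (p t : ℝ) : V1 P (-p) t = -(starRingEnd ℂ) (V1 P p t) := by
  have e : V0 P (-p) t = -(starRingEnd ℂ) (V0 P p t) := by
    apply Complex.ext
    · rw [Complex.neg_re, Complex.conj_re, CrB_V0_re, CrB_V0_re, thp_neg]
      ring
    · rw [Complex.neg_im, Complex.conj_im, CrB_V0_im, CrB_V0_im, thp_neg]
      ring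
  unfold V1
  rw [e, CrB_JC_neg, CrB_EMc_neg, CrB_JC_neg]

theorem V1_conj (h : P.Ok) (p t : ℝ) : V1 P p (-t) = (starRingEnd ℂ) (V1 P p t) := by
  have e : V0 P p (-t) = (starRingEnd ℂ) (V0 P p t) := by
    have e1 : 2 * Real.pi * -t = -(2 * Real.pi * t) := by ring
    apply Complex.ext
    · rw [Complex.conj_re, CrB_V0_re, CrB_V0_re, e1, Real.cos_neg]
    · rw [Complex.conj_im, CrB_V0_im, CrB_V0_im, e1, Real.cos_neg, Real.sin_neg]
      ring
  unfold V1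
  rw [e, CrB_JC_conj, CrB_EMc_conj, CrB_JC_conj]

theorem V1_per (P : Par) (p t : ℝ) (n : ℤ) : V1 P p (t + n) = V1 P p t := by
  have e : V0 P p (t + n) = V0 P p t := by
    unfold V0
    rw [show 2 * Real.pi * (t + n) = 2 * Real.pi * t + n * (2 * Real.pi) by ring,
      Real.cos_add_int_mul_two_pi, Real.sin_add_int_mul_two_pi]
  unfold V1
  rw [e]

/-! ### local diffeomorphism -/

theorem CrB_ld_aux {f : ℝ × ℝ → ℂ} {t : ℝ} (hs : ∀ᶠ q in 𝓝 ((0 : ℝ), t), ContDiffAt ℝ ∞ f q)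
    (h0 : ∀ s, (f (0, s)).re = 0) {a : ℝ} {b : ℝ} (ha : a ≠ 0) (hb : b ≠ 0)
    (h1 : HasDerivAt (fun p => (f (p, t)).re) a 0) (h2 : HasDerivAt (fun s => (f (0, s)).im) b t) :
    LD f (0, t) := by
  apply CSG.ld_of_fderiv hs
  · simp
  · rintro ⟨v1, v2⟩ hv
    have hd : DifferentiableAt ℝ f (0, t) := hs.self_of_nhds.differentiableAt (by simp)
    have e1 : HasDerivAt (fun p : ℝ => f (p, t)) (fderiv ℝ f (0, t) (1, 0)) 0 := by
      have h3 : HasDerivAt (fun p : ℝ => ((p, t) : ℝ × ℝ)) (1, 0) 0 :=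
        (hasDerivAt_id 0).prodMk (hasDerivAt_const 0 t)
      exact hd.hasFDerivAt.comp_hasDerivAt 0 h3
    have e2 : HasDerivAt (fun s : ℝ => f (0, s)) (fderiv ℝ f (0, t) (0, 1)) t := by
      have h3 : HasDerivAt (fun s : ℝ => (((0 : ℝ), s) : ℝ × ℝ)) (0, 1) t :=
        (hasDerivAt_const t 0).prodMk (hasDerivAt_id t)
      exact hd.hasFDerivAt.comp_hasDerivAt t h3
    have r1 : (fderiv ℝ f (0, t) (1, 0)).re = a :=
      (Complex.reCLM.hasFDerivAt.comp_hasDerivAt 0 e1).unique h1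
    have r2 : (fderiv ℝ f (0, t) (0, 1)).im = b :=
      (Complex.imCLM.hasFDerivAt.comp_hasDerivAt t e2).unique h2
    have r0 : (fderiv ℝ f (0, t) (0, 1)).re = 0 := by
      have h3 : HasDerivAt (fun s : ℝ => (f (0, s)).re) 0 t := by
        have h4 : (fun s : ℝ => (f (0, s)).re) = fun _ => 0 := funext h0
        rw [h4]
        exact hasDerivAt_const _ _
      exact (Complex.reCLM.hasFDerivAt.comp_hasDerivAt t e2).unique h3
    have lin : fderiv ℝ f (0, t) (v1, v2) =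
        v1 • fderiv ℝ f (0, t) (1, 0) + v2 • fderiv ℝ f (0, t) (0, 1) := by
      rw [← map_smul, ← map_smul, ← map_add]
      simp
    rw [lin] at hv
    have hre := congrArg Complex.re hv
    rw [Complex.add_re, Complex.smul_re, Complex.smul_re, r0, r1] at hre
    simp only [smul_eq_mul, mul_zero, add_zero, Complex.zero_re] at hre
    have hv1 : v1 = 0 := (mul_eq_zero.1 hre).resolve_right ha
    have him := congrArg Complex.im hv
    rw [Complex.add_im, Complex.smul_im, Complex.smul_im, r2, hv1] at him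
    simp only [smul_eq_mul, zero_mul, zero_add, Complex.zero_im] at him
    have hv2 : v2 = 0 := (mul_eq_zero.1 him).resolve_right hb
    rw [hv1, hv2]
    rfl

theorem CrB_V0_smooth (h : P.Ok) {t : ℝ} (ht : T12 t) :
    ∀ᶠ q in 𝓝 ((0 : ℝ), t), ContDiffAt ℝ ∞ (fun q : ℝ × ℝ => V0 P q.1 q.2) q := by
  have hth : ContDiff ℝ ∞ (fun q : ℝ × ℝ => thp P q.1) := (thp_smooth P).comp contDiff_fst
  have h2 : ContDiff ℝ ∞ (fun q : ℝ × ℝ => 2 * Real.pi * q.2) := contDiff_const.mul contDiff_snd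
  have hC : ContDiff ℝ ∞ (fun q : ℝ × ℝ => Real.cos (2 * Real.pi * q.2)) := Real.contDiff_cos.comp h2
  have hS : ContDiff ℝ ∞ (fun q : ℝ × ℝ => Real.sin (2 * Real.pi * q.2)) := Real.contDiff_sin.comp h2
  have hD : ContDiff ℝ ∞ (fun q : ℝ × ℝ =>
      (1 + thp P q.1 ^ 2) + (1 - thp P q.1 ^ 2) * Real.cos (2 * Real.pi * q.2)) :=
    (contDiff_const.add (hth.pow 2)).add ((contDiff_const.sub (hth.pow 2)).mul hC)
  have hD0 : (1 + thp P ((0 : ℝ), t).1 ^ 2) + (1 - thp P ((0 : ℝ), t).1 ^ 2) * Real.cos (2 * Real.pi * ((0 : ℝ), t).2) ≠ 0 :=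
    (CrB_ht h (p := 0) (Or.inr ht)).ne'
  filter_upwards [hD.continuous.continuousAt.eventually_ne hD0] with q hq
  have e : (fun q : ℝ × ℝ => V0 P q.1 q.2) = fun q : ℝ × ℝ =>
      ((gam P.c * (2 * thp P q.1) / ((1 + thp P q.1 ^ 2) + (1 - thp P q.1 ^ 2) * Real.cos (2 * Real.pi * q.2)) : ℝ) : ℂ)
      + ((gam P.c * ((1 - thp P q.1 ^ 2) * Real.sin (2 * Real.pi * q.2)) /
        ((1 + thp P q.1 ^ 2) + (1 - thp P q.1 ^ 2) * Real.cos (2 * Real.pi * q.2)) : ℝ) : ℂ) * I := by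
    funext q
    apply Complex.ext
    · rw [CrB_V0_re, Complex.add_re, Complex.ofReal_re, Complex.re_ofReal_mul, Complex.I_re, mul_zero, add_zero]
    · rw [CrB_V0_im, Complex.add_im, Complex.ofReal_im, Complex.im_ofReal_mul, Complex.I_im, mul_one, zero_add]
  rw [e]
  have ha : ContDiffAt ℝ ∞ (fun q : ℝ × ℝ => gam P.c * (2 * thp P q.1) /
      ((1 + thp P q.1 ^ 2) + (1 - thp P q.1 ^ 2) * Real.cos (2 * Real.pi * q.2))) q :=
    (contDiff_const.mul (contDiff_const.mul hth)).contDiffAt.div hD.contDiffAt hq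
  have hb : ContDiffAt ℝ ∞ (fun q : ℝ × ℝ => gam P.c * ((1 - thp P q.1 ^ 2) * Real.sin (2 * Real.pi * q.2)) /
      ((1 + thp P q.1 ^ 2) + (1 - thp P q.1 ^ 2) * Real.cos (2 * Real.pi * q.2))) q :=
    (contDiff_const.mul ((contDiff_const.sub (hth.pow 2)).mul hS)).contDiffAt.div hD.contDiffAt hq
  exact (Complex.ofRealCLM.contDiff.contDiffAt.comp q ha).add
    ((Complex.ofRealCLM.contDiff.contDiffAt.comp q hb).mul contDiffAt_const)

theorem CrB_thp_deriv (P : Par) : HasDerivAt (thp P) (2 * (1 / 2000 / gam P.c) * (2 * Real.pi)) 0 := by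
  have h1 : HasDerivAt (fun p : ℝ => 2 * Real.pi * p) (2 * Real.pi) 0 := by
    simpa using (hasDerivAt_id (0 : ℝ)).const_mul (2 * Real.pi)
  have h2 := h1.sinh
  have h3 : HasDerivAt (thp P) _ 0 := h2.const_mul (2 * (1 / 2000 / gam P.c))
  simpa using h3

theorem CrB_V0_ld (h : P.Ok) {t : ℝ} (ht : T12 t) : LD (fun q : ℝ × ℝ => V0 P q.1 q.2) (0, t) := by
  obtain ⟨hg, _⟩ := CrB_gam h
  have hpi := Real.pi_pos
  have hD := CrB_ht h (p := 0) (Or.inr ht)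
  rw [CrB_thp0] at hD
  have hD' : 1 + Real.cos (2 * Real.pi * t) ≠ 0 := by
    intro h1
    apply hD.ne'
    linear_combination h1
  refine CrB_ld_aux (CrB_V0_smooth h ht) ?_
    (a := gam P.c * (2 * (2 * (1 / 2000 / gam P.c) * (2 * Real.pi))) / (1 + Real.cos (2 * Real.pi * t)))
    (b := gam P.c * (2 * Real.pi) / (1 + Real.cos (2 * Real.pi * t))) ?_ ?_ ?_ ?_
  · intro s
    show (V0 P 0 s).re = 0
    rw [CrB_V0_re, CrB_thp0]
    simp
  · exact div_ne_zero (by positivity) hD'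
  · exact div_ne_zero (by positivity) hD'
  · show HasDerivAt (fun p => (V0 P p t).re) _ 0
    have h1 := CrB_thp_deriv P
    have h2 : HasDerivAt (fun p => gam P.c * (2 * thp P p))
        (gam P.c * (2 * (2 * (1 / 2000 / gam P.c) * (2 * Real.pi)))) 0 := (h1.const_mul 2).const_mul _
    have h3 : HasDerivAt (fun p => (1 + thp P p ^ 2) + (1 - thp P p ^ 2) * Real.cos (2 * Real.pi * t)) 0 0 := by
      have h4 : HasDerivAt (fun p => thp P p ^ 2) 0 0 := by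
        have h5 : HasDerivAt (fun p => thp P p ^ 2) _ 0 := h1.pow 2
        rw [CrB_thp0] at h5
        simpa using h5
      have h6 : HasDerivAt (fun p => (1 + thp P p ^ 2) + (1 - thp P p ^ 2) * Real.cos (2 * Real.pi * t)) _ 0 :=
        (h4.const_add 1).add ((h4.const_sub 1).mul_const (Real.cos (2 * Real.pi * t)))
      simpa using h6
    have h5 := h2.div h3 (by rw [CrB_thp0]; exact hD.ne')
    rw [CrB_thp0] at h5
    have e : (fun p => (V0 P p t).re) = fun p => gam P.c * (2 * thp P p) /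
        ((1 + thp P p ^ 2) + (1 - thp P p ^ 2) * Real.cos (2 * Real.pi * t)) := by
      funext p
      rw [CrB_V0_re]
    rw [e]
    refine h5.congr_deriv ?_
    have hD'' : (1 + (0 : ℝ) ^ 2 + (1 - 0 ^ 2) * Real.cos (2 * Real.pi * t)) = 1 + Real.cos (2 * Real.pi * t) := by ring
    rw [hD'']
    field_simp
    ring
  · show HasDerivAt (fun s => (V0 P 0 s).im) _ t
    have h1 : HasDerivAt (fun s : ℝ => 2 * Real.pi * s) (2 * Real.pi) t := by
      simpa using (hasDerivAt_id t).const_mul (2 * Real.pi)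
    have hs := h1.sin
    have hc := h1.cos
    have h5 := (hs.const_mul (gam P.c)).div (hc.const_add 1) hD'
    have e : (fun s => (V0 P 0 s).im) = fun s => gam P.c * Real.sin (2 * Real.pi * s) /
        (1 + Real.cos (2 * Real.pi * s)) := by
      funext p
      rw [CrB_V0_im, CrB_thp0]
      congr 1 <;> ring
    rw [e]
    refine h5.congr_deriv ?_
    have h6 := Real.sin_sq_add_cos_sq (2 * Real.pi * t)
    rw [div_eq_div_iff (pow_ne_zero 2 hD') hD']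
    linear_combination (gam P.c * (2 * Real.pi) * (1 + Real.cos (2 * Real.pi * t))) * h6

theorem CrB_Bc (h : P.Ok) : Bc P.c ≤ 1 := by
  obtain ⟨h0, h1, h2⟩ := CrB_c h
  unfold Bc
  nlinarith

theorem CrB_EMc_id {c : ℝ} (h0 : 0 < c) (hB1 : Bc c ≤ 1) {X : ℂ} (hX : 1400 ≤ ‖X‖) :
    EMc (Bc c) (eK c) (mK c) X = X := by
  have hB := Bc_pos h0
  have he : 1400 ≤ es (Bc c) (pol 0 X) := by
    have h1 : ‖X‖ ≤ es (Bc c) (pol 0 X) := by
      rw [← rr_pol 0 X]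
      unfold es rr q2
      apply Real.sqrt_le_sqrt
      have h2 : 0 ≤ normSq (pol 0 X).1 := Complex.normSq_nonneg _
      have h3 : normSq (pol 0 X).1 ≤ normSq (pol 0 X).1 / Bc c ^ 2 := by
        rw [le_div_iff₀ (by positivity)]
        have h4 : Bc c ^ 2 ≤ 1 := by nlinarith
        nlinarith
      linarith
    linarith
  have h2 := EK_id h0 he
  have h3 : EM (Bc c) (eK c) (mK c) (pol 0 X) = pol 0 X := h2
  rw [EM_pol] at h3
  have h4 := congrArg Prod.fst h3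
  have h5 := congrArg Prod.snd h3
  simp only [pol, Pool.Agent.RSG.ex_zero, mul_one] at h4 h5
  apply Complex.ext
  · exact_mod_cast h4
  · exact h5

theorem CrB_small (h : P.Ok) {p t : ℝ} (hV : ‖V0 P p t‖ ≤ 1 / 1400) : V1 P p t = V0 P p t := by
  obtain ⟨h0, h1, h2⟩ := CrB_c h
  unfold V1
  by_cases hz : V0 P p t = 0
  · rw [hz, JC_zero]
    have e : EMc (Bc P.c) (eK P.c) (mK P.c) 0 = 0 := by
      unfold EMc
      apply Complex.ext <;> simp
    rw [e, JC_zero]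
  · have hB := Bc_pos h0
    have hB1 := CrB_Bc h
    have hX : 1400 ≤ ‖JC (V0 P p t)‖ := by
      rw [norm_JC]
      rw [le_inv_comm₀ (by norm_num) (norm_pos_iff.2 hz)]
      norm_num at hV ⊢
      linarith
    have hid := CrB_EMc_id h0 hB1 hX
    rw [hid, JC_JC]

theorem CrB_sphere_ne (h : P.Ok) {t : ℝ} (ht : T12 t) (hz : V0 P 0 t ≠ 0) : LD (fun q : ℝ × ℝ => V1 P q.1 q.2) (0, t) := by
  obtain ⟨h0, h1, h2⟩ := CrB_c h
  have hB := Bc_pos h0
  have hE := EK_ok h0 h2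
  have l0 := CrB_V0_ld h ht
  have l1 : LD JC (V0 P 0 t) := JC_ld hz
  have l2 : LD (EMc (Bc P.c) (eK P.c) (mK P.c)) (JC (V0 P 0 t)) :=
    EMc_ld hB hE (CrB_rad_pos hB (JC_ne hz))
  have l3 : LD JC (EMc (Bc P.c) (eK P.c) (mK P.c) (JC (V0 P 0 t))) :=
    JC_ld (CrB_EMc_ne hB hE (JC_ne hz))
  have m1 : LD (JC ∘ fun q : ℝ × ℝ => V0 P q.1 q.2) (0, t) := IsLocalDiffeomorphAt.comp (hf := l0) (hg := l1) ..
  have m2 : LD (EMc (Bc P.c) (eK P.c) (mK P.c) ∘ (JC ∘ fun q : ℝ × ℝ => V0 P q.1 q.2)) (0, t) :=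
    IsLocalDiffeomorphAt.comp (hf := m1) (hg := l2) ..
  exact IsLocalDiffeomorphAt.comp (hf := m2) (hg := l3) ..

theorem V1_ld (h : P.Ok) {t : ℝ} (ht : T12 t) : LD (fun q : ℝ × ℝ => V1 P q.1 q.2) (0, t) := by
  by_cases hz : V0 P 0 t = 0
  · apply CSG.ld_congr (CrB_V0_ld h ht)
    have hc : ContinuousAt (fun q : ℝ × ℝ => ‖V0 P q.1 q.2‖) (0, t) :=
      (CSG.ld_continuousAt (CrB_V0_ld h ht)).norm
    have h1 : (fun q : ℝ × ℝ => ‖V0 P q.1 q.2‖) (0, t) < 1 / 1400 := by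
      show ‖V0 P 0 t‖ < 1 / 1400
      rw [hz, norm_zero]
      norm_num
    filter_upwards [hc.eventually_lt_const h1] with q hq
    exact CrB_small h hq.le
  · exact CrB_sphere_ne h ht hz

/-! ### the function `vv` -/

theorem CrB_V1_0re (h : P.Ok) (t : ℝ) : (V1 P 0 t).re = 0 := by
  have h1 := congrArg Complex.re (V1_neg h 0 t)
  rw [neg_zero, Complex.neg_re, Complex.conj_re] at h1
  linarith

theorem CrB_V1_00 (h : P.Ok) (n : ℤ) : V1 P 0 n = 0 := by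
  have e := V1_per P 0 0 n
  rw [zero_add] at e
  rw [e]
  have h1 := congrArg Complex.im (V1_conj h 0 0)
  rw [neg_zero, Complex.conj_im] at h1
  apply Complex.ext
  · exact CrB_V1_0re h 0
  · rw [Complex.zero_im]
    linarith

/-- height before the opening -/
noncomputable def CrB_h (P : Par) (t : ℝ) : ℝ :=
  1 / gam P.c * (Real.cos (Real.pi * t) / Real.sin (Real.pi * t))

theorem CrB_sin_pos {t : ℝ} (h0 : 0 < t) (h1 : t < 1 / 2) : 0 < Real.sin (Real.pi * t) ∧ 0 < Real.cos (Real.pi * t) := by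
  have hpi := Real.pi_pos
  constructor
  · apply Real.sin_pos_of_pos_of_lt_pi
    · positivity
    · nlinarith
  · apply Real.cos_pos_of_mem_Ioo
    constructor <;> nlinarith

theorem CrB_h_pos (h : P.Ok) {t : ℝ} (h0 : 0 < t) (h1 : t < 1 / 2) : 0 < CrB_h P t := by
  obtain ⟨hg, _⟩ := CrB_gam h
  obtain ⟨hs, hc⟩ := CrB_sin_pos h0 h1
  unfold CrB_h
  positivity

theorem CrB_h_anti (h : P.Ok) {t t' : ℝ} (h0 : 0 < t) (h1 : t' < 1 / 2) (htt : t < t') : CrB_h P t' < CrB_h P t := by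
  obtain ⟨hg, _⟩ := CrB_gam h
  obtain ⟨hs, hc⟩ := CrB_sin_pos h0 (by linarith)
  obtain ⟨hs', hc'⟩ := CrB_sin_pos (t := t') (by linarith) h1
  have hpi := Real.pi_pos
  unfold CrB_h
  apply mul_lt_mul_of_pos_left _ (by positivity)
  rw [div_lt_div_iff₀ hs' hs]
  have h2 : 0 < Real.sin (Real.pi * t' - Real.pi * t) := by
    apply Real.sin_pos_of_pos_of_lt_pi
    · nlinarith
    · nlinarith
  rw [Real.sin_sub] at h2
  linarith

theorem CrB_X1_h (h : P.Ok) {t : ℝ} (h0 : 0 < t) (h1 : t < 1 / 2) : X1 P 0 t = ⟨0, CrB_h P t⟩ := by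
  obtain ⟨hs, hc⟩ := CrB_sin_pos h0 h1
  apply Complex.ext
  · rw [CrB_X1_re h, CrB_thp0]
    simp
  · rw [CrB_X1_im h, CrB_thp0]
    unfold CrB_h
    have e1 : Real.sin (2 * Real.pi * t) = 2 * Real.sin (Real.pi * t) * Real.cos (Real.pi * t) := by
      rw [← Real.sin_two_mul]
      congr 1
      ring
    have e2 : Real.cos (2 * Real.pi * t) = 1 - 2 * Real.sin (Real.pi * t) ^ 2 := by
      rw [← Real.cos_two_mul_eq_one_sub] 
      congr 1
      ring
    rw [e1, e2]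
    show 1 / gam P.c * ((1 - 0 ^ 2) * (2 * Real.sin (Real.pi * t) * Real.cos (Real.pi * t))) /
      ((1 + 0 ^ 2) - (1 - 0 ^ 2) * (1 - 2 * Real.sin (Real.pi * t) ^ 2)) = _
    have e3 : ((1 + (0 : ℝ) ^ 2) - (1 - 0 ^ 2) * (1 - 2 * Real.sin (Real.pi * t) ^ 2)) = 2 * Real.sin (Real.pi * t) ^ 2 := by
      ring
    rw [e3]
    field_simp
    ring

theorem CrB_JC_im (v : ℝ) : JC ⟨0, v⟩ = ⟨0, 1 / v⟩ := by
  rw [CrB_JC]
  apply Complex.ext
  · simp
  · simp only [Complex.normSq_mk]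
    by_cases hv : v = 0
    · rw [hv]
      simp
    · field_simp
      ring

theorem CrB_EMc_im {B : ℝ} (e m : ℝ → ℝ) {v : ℝ} (hv : 0 < v) : EMc B e m ⟨0, v⟩ = ⟨0, m v⟩ := by
  unfold EMc
  have h1 : Real.sqrt ((0 : ℝ) ^ 2 / B ^ 2 + v ^ 2) = v := by
    rw [zero_pow two_ne_zero, zero_div, zero_add, Real.sqrt_sq hv.le]
  apply Complex.ext
  · simp
  · show m (Real.sqrt ((0 : ℝ) ^ 2 / B ^ 2 + v ^ 2)) / Real.sqrt ((0 : ℝ) ^ 2 / B ^ 2 + v ^ 2) * v = m v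
    rw [h1]
    field_simp

theorem CrB_vv (h : P.Ok) {t : ℝ} (h0 : 0 < t) (h1 : t < 1 / 2) : (V1 P 0 t).im = 1 / mK P.c (CrB_h P t) := by
  have ht : T12 t := CrB_T12' (by rw [abs_lt]; constructor <;> linarith)
  rw [V1_X1 h (by simp) (Or.inr ht), CrB_X1_h h h0 h1, CrB_EMc_im _ _ (CrB_h_pos h h0 h1), CrB_JC_im]

theorem CrB_vv_pos (h : P.Ok) {t : ℝ} (h0 : 0 < t) (h1 : t < 1 / 2) : 0 < (V1 P 0 t).im ∧ (V1 P 0 t).im < 1 / 1000 := by
  obtain ⟨hc0, hc1, hc2⟩ := CrB_c h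
  have hm := (EK_ok hc0 hc2).m_gt (CrB_h_pos h h0 h1)
  rw [CrB_vv h h0 h1]
  constructor
  · have : 0 < mK P.c (CrB_h P t) := by linarith
    positivity
  · exact one_div_lt_one_div_of_lt (by norm_num) hm

theorem CrB_vv_lt (h : P.Ok) {t t' : ℝ} (h0 : 0 < t) (h1 : t' < 1 / 2) (htt : t < t') :
    (V1 P 0 t).im < (V1 P 0 t').im := by
  obtain ⟨hc0, hc1, hc2⟩ := CrB_c h
  have hE := EK_ok hc0 hc2
  have p1 := CrB_h_pos h h0 (by linarith : t < 1 / 2)
  have p2 := CrB_h_pos h (by linarith : 0 < t') h1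
  rw [CrB_vv h h0 (by linarith), CrB_vv h (by linarith) h1]
  apply one_div_lt_one_div_of_lt
  · have := hE.m_gt p2
    linarith
  · exact hE.m_mono p2 p1 (CrB_h_anti h h0 h1 htt)

theorem CrB_vv_odd (h : P.Ok) (t : ℝ) : (V1 P 0 (-t)).im = -(V1 P 0 t).im := by
  rw [V1_conj h, Complex.conj_im]

theorem CrB_vv_zero (h : P.Ok) : (V1 P 0 0).im = 0 := by
  have h1 := CrB_vv_odd h 0
  rw [neg_zero] at h1
  linarith

theorem vv_mono (h : P.Ok) : StrictMonoOn (fun t => (V1 P 0 t).im) (Ioo (-(1 / 2)) (1 / 2)) := by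
  have h00 := CrB_vv_zero h
  intro t ht t' ht' htt
  obtain ⟨a1, a2⟩ := ht
  obtain ⟨b1, b2⟩ := ht'
  show (V1 P 0 t).im < (V1 P 0 t').im
  rcases lt_trichotomy 0 t with h1 | h1 | h1
  · exact CrB_vv_lt h h1 b2 htt
  · rw [← h1, h00]
    exact (CrB_vv_pos h (by linarith) b2).1
  · have hn : (V1 P 0 t).im = -(V1 P 0 (-t)).im := by rw [CrB_vv_odd h, neg_neg]
    have hp := (CrB_vv_pos h (by linarith : 0 < -t) (by linarith)).1
    rcases lt_trichotomy 0 t' with h2 | h2 | h2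
    · have := (CrB_vv_pos h h2 b2).1
      linarith
    · rw [← h2, h00]
      linarith
    · have hn' : (V1 P 0 t').im = -(V1 P 0 (-t')).im := by rw [CrB_vv_odd h, neg_neg]
      have := CrB_vv_lt h (by linarith : 0 < -t') (by linarith : -t < 1 / 2) (by linarith)
      linarith

theorem vv_sign (h : P.Ok) {t : ℝ} (ht : |t| < 1 / 2) : 0 < (V1 P 0 t).im ↔ 0 < t := by
  rw [abs_lt] at ht
  have h00 := CrB_vv_zero h
  have h1 := (vv_mono h).lt_iff_lt (a := 0) (b := t) (by constructor <;> norm_num) ht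
  simp only [h00] at h1
  exact h1

theorem CrB_mK_surj (h : P.Ok) {y : ℝ} (hy : 1000 < y) : ∃ s : ℝ, 0 < s ∧ mK P.c s = y := by
  obtain ⟨hc0, hc1, hc2⟩ := CrB_c h
  have hE := EK_ok hc0 hc2
  obtain ⟨s1, hs1, hs1'⟩ : ∃ s, 0 < s ∧ mK P.c s < y := by
    have h1 : ∀ᶠ s in 𝓝[>] (0 : ℝ), mK P.c s < y := hE.m0.eventually_lt_const hy
    have h2 : ∀ᶠ s in 𝓝[>] (0 : ℝ), 0 < s := eventually_mem_nhdsWithin
    obtain ⟨s, hs, hs'⟩ := (h2.and h1).exists
    exact ⟨s, hs, hs'⟩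
  obtain ⟨s2, hs2, hs2'⟩ : ∃ s, 0 < s ∧ y < mK P.c s := by
    have h1 : ∀ᶠ s in atTop, y < mK P.c s := hE.m1.eventually_gt_atTop y
    obtain ⟨s, hs, hs'⟩ := ((eventually_gt_atTop (0 : ℝ)).and h1).exists
    exact ⟨s, hs, hs'⟩
  have h12 : s1 ≤ s2 := by
    by_contra h3
    push Not at h3
    have := hE.m_mono hs2 hs1 h3
    linarith
  have hc : ContinuousOn (mK P.c) (Icc s1 s2) := by
    intro s hs
    exact (hE.ms s (lt_of_lt_of_le hs1 hs.1)).continuousAt.continuousWithinAt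
  obtain ⟨s, hs, hs'⟩ := intermediate_value_Icc h12 hc ⟨hs1'.le, hs2'.le⟩
  exact ⟨s, lt_of_lt_of_le hs1 hs.1, hs'⟩

theorem CrB_vv_surj (h : P.Ok) {v : ℝ} (h0 : 0 < v) (h1 : v < 1 / 1000) : ∃ t : ℝ, 0 < t ∧ t < 1 / 2 ∧ (V1 P 0 t).im = v := by
  obtain ⟨hg, _⟩ := CrB_gam h
  have hpi := Real.pi_pos
  obtain ⟨s, hs, hs'⟩ := CrB_mK_surj h (y := 1 / v) (by
    have := one_div_lt_one_div_of_lt h0 h1
    norm_num at this ⊢
    exact this)
  have hx : 0 < 1 / (gam P.c * s) := by positivity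
  have h2 : 0 < Real.arctan (1 / (gam P.c * s)) := Real.arctan_pos.2 hx
  have h3 : Real.arctan (1 / (gam P.c * s)) < Real.pi / 2 := Real.arctan_lt_pi_div_two _
  refine ⟨Real.arctan (1 / (gam P.c * s)) / Real.pi, by positivity, ?_, ?_⟩
  · rw [div_lt_iff₀ hpi]
    linarith
  · have ht0 : 0 < Real.arctan (1 / (gam P.c * s)) / Real.pi := by positivity
    have ht1 : Real.arctan (1 / (gam P.c * s)) / Real.pi < 1 / 2 := by
      rw [div_lt_iff₀ hpi]
      linarith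
    have e : CrB_h P (Real.arctan (1 / (gam P.c * s)) / Real.pi) = s := by
      unfold CrB_h
      rw [mul_div_cancel₀ _ hpi.ne']
      have h4 := Real.tan_arctan (1 / (gam P.c * s))
      rw [Real.tan_eq_sin_div_cos] at h4
      have h5 : Real.cos (Real.arctan (1 / (gam P.c * s))) / Real.sin (Real.arctan (1 / (gam P.c * s))) =
          gam P.c * s := by
        rw [← inv_div, h4, one_div, inv_inv]
      rw [h5]
      field_simp
    rw [CrB_vv h ht0 ht1, e, hs']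
    simp

theorem vv_surj (h : P.Ok) {v : ℝ} (hv : |v| < 1 / 1000) : ∃ t : ℝ, |t| < 1 / 2 ∧ (V1 P 0 t).im = v := by
  rw [abs_lt] at hv
  rcases lt_trichotomy 0 v with h1 | h1 | h1
  · obtain ⟨t, a, b, c⟩ := CrB_vv_surj h h1 hv.2
    exact ⟨t, by rw [abs_of_pos a]; exact b, c⟩
  · exact ⟨0, by norm_num, by rw [← h1]; exact CrB_vv_zero h⟩
  · obtain ⟨t, a, b, c⟩ := CrB_vv_surj h (by linarith : 0 < -v) (by linarith)
    refine ⟨-t, by rw [abs_neg, abs_of_pos a]; exact b, ?_⟩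
    rw [CrB_vv_odd h, c, neg_neg]

theorem CrB_T12_per {t : ℝ} (ht : T12 t) : ∃ (s : ℝ) (n : ℤ), |s| < 1 / 2 ∧ t = s + n := by
  refine ⟨t - round t, round t, ?_, by ring⟩
  have h1 := abs_sub_round t
  rcases lt_or_eq_of_le h1 with h2 | h2
  · exact h2
  · exfalso
    rcases abs_eq (by norm_num : (0 : ℝ) ≤ 1 / 2) |>.1 h2 with h3 | h3
    · apply ht (round t)
      linarith
    · apply ht (round t - 1)
      push_cast
      linarith

theorem V1_zero (h : P.Ok) {t : ℝ} (ht : T12 t) : (V1 P 0 t).re = 0 ∧ |(V1 P 0 t).im| < 1 / 1000 := by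
  refine ⟨CrB_V1_0re h t, ?_⟩
  obtain ⟨s, n, hs, rfl⟩ := CrB_T12_per ht
  rw [V1_per]
  rw [abs_lt] at hs
  rcases lt_trichotomy 0 s with h1 | h1 | h1
  · have := CrB_vv_pos h h1 hs.2
    rw [abs_of_pos this.1]
    exact this.2
  · rw [← h1, CrB_vv_zero h]
    norm_num
  · have := CrB_vv_pos h (by linarith : 0 < -s) (by linarith)
    rw [CrB_vv_odd h] at this
    rw [abs_lt]
    constructor <;> linarith [this.1, this.2]

theorem V1_GV (h : P.Ok) {p t : ℝ} (hp : |p| ≤ 1 / 8) (ht : p ≠ 0 ∨ T12 t) : GV (V1 P p t) := by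
  rcases lt_trichotomy 0 p with h1 | h1 | h1
  · exact Or.inl (V1_re h hp h1).ne'
  · subst h1
    have ht' : T12 t := ht.resolve_left (fun h2 => h2 rfl)
    exact Or.inr (V1_zero h ht').2
  · have h2 := V1_re h (p := -p) (t := t) (by rwa [abs_neg]) (by linarith)
    rw [V1_neg h, Complex.neg_re, Complex.conj_re] at h2
    left
    intro h3
    rw [h3] at h2
    simp at h2

end Pool.Agent.CHW
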