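import Pool.Agent.CHW.NmA

/-!
# CHW/NmB: the open book with disc pages: local diffeomorphism, injectivity, image   (difficulty 3)

By `NM_NK` it is enough to study `NK c (z', T)`, `|z'| < 1`, `D = (1+n) - (1-n) C > 0`, `n = |z'|²` (the Moebius map `z ↦ (z-c)/(1-cz)` is a diffeomorphism of the
disc, inverse `z' ↦ (z'+c)/(1+cz')`, `c ↦ 0`, `-c ↦ -2c/(1+c²)`).  For `x = NK c (z', T)`, with `g = gam c`:
`g² q2 x + 1 = 2 (1+n)/D`, `g² q2 x - 1 = 2 (1-n) C/D`, `2 g x.2 = 2 (1-n) S/D`, `2 g x.1 = 4 z̄'/D`.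
Hence with `Q = g² q2 x + 1 > 0`:   `v := 2 g x.1 / Q = 2 z̄'/(1+n)`,  `(g² q2 x - 1)/Q = ((1-n)/(1+n)) C`, `2 g x.2 / Q = ((1-n)/(1+n)) S`,
and for every `x`: `|v|² + ((g² q2 x - 1)² + 4 g² x.2²)/Q² = 1`; the second term is `0` iff `g² q2 x = 1` and `x.2 = 0` (the binding).
* `NM_inj`: `|z'| < 1` is determined by `2 z'/(1+n)` (`(1-n)/(1+n) = √(1 - |v|²)`, `z' = v̄ / (1 + √(1 - |v|²))`), then `C`, `S` (as `1-n > 0`), so `T` modulo 1
  (`RSG.ex_eq_iff`).
* `NM_surj`: conversely, for `x` off the binding define `v`, `|v| < 1`, `z' = v̄/(1 + √(1-|v|²))` and `T` with `ex T = ((g² q2 x - 1) + 2 g x.2 i) / (Q √(1 - |v|²))`.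
  `D > 0`: `D = 0` iff `z' = 0`, `C = 1`; then `v = 0`, `x.1 = 0`, and `g² q2 x - 1 = Q`, impossible.
* `NM_ld`: `RSG.ld_left`: a differentiable left inverse near `x₀ = NK c (z'₀, T₀)` is `x ↦ (v̄/(1 + √(1-|v|²)), T₀ + arg (E (x) / ex T₀) / (2π))`,
  `E x = ((g² q2 x - 1) + 2 g x.2 i) / (Q √(1 - |v|²))`; `E (x₀) = ex T₀`, and `arg` is smooth near `1`.
* `NM_line`: `(NK c (z', T)).1 = 0` iff `z' = 0`.  `NM_off`: `|x.1 - tau| = 1/g` and `x.2 = 0` is the binding.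
* `NM_Nn'`: `x ≠ 0` by `q2_NM` (`den c (-z) T > 0` as `z ≠ -c`), `x.1 ≠ tau` as `z ≠ c`, `(Jv x).1 = (NM c (-z, T)).1 ≠ tau` as `-z ≠ c`.
-/

open scoped Manifold ContDiff Topology
open Set Filter
open Complex (I normSq)

namespace Pool.Agent.CHW

open Pool.Agent.CSG (stp thc)
open Pool.Agent.RSG (ex)

variable {c : ℝ}

theorem NmB_gam (h0 : 0 < c) (h1 : c ≤ 1 / 10) : 0 < gam c := by
  unfold gam
  apply div_pos
  · nlinarith
  · linarith

noncomputable def NmB_Q (g : ℝ) (x : F3) : ℝ := g ^ 2 * q2 x + 1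

noncomputable def NmB_V (g : ℝ) (x : F3) : ℂ :=
  ⟨2 * g * x.1.re / NmB_Q g x, -(2 * g * x.1.im / NmB_Q g x)⟩

noncomputable def NmB_E (g : ℝ) (x : F3) : ℂ :=
  ⟨(g ^ 2 * q2 x - 1) / NmB_Q g x, 2 * g * x.2 / NmB_Q g x⟩

noncomputable def NmB_w (g : ℝ) (x : F3) : ℂ :=
  (((1 + ‖NmB_E g x‖)⁻¹ : ℝ) : ℂ) * NmB_V g x

theorem NmB_Q_pos (g : ℝ) (x : F3) : 0 < NmB_Q g x := by
  unfold NmB_Q
  have h1 := q2_nonneg x
  positivity

theorem NmB_one (g : ℝ) (x : F3) : normSq (NmB_V g x) + normSq (NmB_E g x) = 1 := by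
  have hQ := NmB_Q_pos g x
  unfold NmB_V NmB_E
  rw [Complex.normSq_mk, Complex.normSq_mk]
  have hQ2 : NmB_Q g x = g ^ 2 * (x.1.re * x.1.re + x.1.im * x.1.im + x.2 ^ 2) + 1 := by
    unfold NmB_Q q2
    rw [Complex.normSq_apply]
  have hq : q2 x = x.1.re * x.1.re + x.1.im * x.1.im + x.2 ^ 2 := by
    unfold q2
    rw [Complex.normSq_apply]
  rw [hq]
  field_simp
  rw [hQ2]
  ring

/-- the values on `NK` -/
theorem NmB_NK (hg : 0 < gam c) {z : ℂ} {T : ℝ}
    (hD : 0 < (1 + normSq z) - (1 - normSq z) * Real.cos (2 * Real.pi * T)) :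
    NmB_V (gam c) (NK c (z, T)) = ((2 / (1 + normSq z) : ℝ) : ℂ) * z ∧
    NmB_E (gam c) (NK c (z, T)) = (((1 - normSq z) / (1 + normSq z) : ℝ) : ℂ) * ex T := by
  have hn := Complex.normSq_nonneg z
  have hCS := Real.cos_sq_add_sin_sq (2 * Real.pi * T)
  have hxr : (NK c (z, T)).1.re = 2 * z.re /
      (gam c * ((1 + normSq z) - (1 - normSq z) * Real.cos (2 * Real.pi * T))) := by
    show (2 * (starRingEnd ℂ) z / ((gam c * ((1 + normSq z) - (1 - normSq z) *
      Real.cos (2 * Real.pi * T)) : ℝ) : ℂ)).re = _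
    rw [Complex.div_ofReal_re]
    simp
  have hxi : (NK c (z, T)).1.im = -(2 * z.im) /
      (gam c * ((1 + normSq z) - (1 - normSq z) * Real.cos (2 * Real.pi * T))) := by
    show (2 * (starRingEnd ℂ) z / ((gam c * ((1 + normSq z) - (1 - normSq z) *
      Real.cos (2 * Real.pi * T)) : ℝ) : ℂ)).im = _
    rw [Complex.div_ofReal_im]
    simp
  have hx2 : (NK c (z, T)).2 = (1 - normSq z) * Real.sin (2 * Real.pi * T) /
      (gam c * ((1 + normSq z) - (1 - normSq z) * Real.cos (2 * Real.pi * T))) := rfl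
  have hnz : z.re * z.re + z.im * z.im = normSq z := (Complex.normSq_apply z).symm
  have hre := Pool.Agent.RSG.ex_re T
  have him := Pool.Agent.RSG.ex_im T
  generalize hC : Real.cos (2 * Real.pi * T) = C at hD hCS hxr hxi hx2 hre
  generalize hS : Real.sin (2 * Real.pi * T) = S at hCS hx2 him
  generalize hgg : gam c = g at hg hxr hxi hx2 ⊢
  generalize hnn : normSq z = n at hn hD hxr hxi hx2 hnz ⊢
  obtain ⟨D, hDD⟩ : ∃ D, D = (1 + n) - (1 - n) * C := ⟨_, rfl⟩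
  rw [← hDD] at hD hxr hxi hx2
  have hq : g ^ 2 * q2 (NK c (z, T)) = ((1 + n) + (1 - n) * C) / D := by
    unfold q2
    rw [Complex.normSq_apply, hxr, hxi, hx2]
    field_simp
    rw [hDD]
    linear_combination 4 * hnz + (1 - n) ^ 2 * hCS
  have hQ : NmB_Q g (NK c (z, T)) = 2 * (1 + n) / D := by
    unfold NmB_Q
    rw [hq]
    field_simp
    rw [hDD]
    ring
  have hn1 : 0 < 1 + n := by linarith
  constructor
  · apply Complex.ext
    · rw [Complex.re_ofReal_mul]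
      show 2 * g * (NK c (z, T)).1.re / NmB_Q g (NK c (z, T)) = _
      rw [hQ, hxr]
      field_simp
    · rw [Complex.im_ofReal_mul]
      show -(2 * g * (NK c (z, T)).1.im / NmB_Q g (NK c (z, T))) = _
      rw [hQ, hxi]
      field_simp
  · apply Complex.ext
    · rw [Complex.re_ofReal_mul, hre]
      show (g ^ 2 * q2 (NK c (z, T)) - 1) / NmB_Q g (NK c (z, T)) = _
      rw [hQ, hq]
      field_simp
      rw [hDD]
      ring
    · rw [Complex.im_ofReal_mul, him]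
      show 2 * g * (NK c (z, T)).2 / NmB_Q g (NK c (z, T)) = _
      rw [hQ, hx2]
      field_simp

theorem NmB_w_NK (hg : 0 < gam c) {z : ℂ} {T : ℝ} (hz : normSq z < 1)
    (hD : 0 < (1 + normSq z) - (1 - normSq z) * Real.cos (2 * Real.pi * T)) :
    ‖NmB_E (gam c) (NK c (z, T))‖ = (1 - normSq z) / (1 + normSq z) ∧
    NmB_w (gam c) (NK c (z, T)) = z := by
  have hn := Complex.normSq_nonneg z
  obtain ⟨h1, h2⟩ := NmB_NK hg hD
  have h3 : ‖NmB_E (gam c) (NK c (z, T))‖ = (1 - normSq z) / (1 + normSq z) := by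
    rw [h2, norm_mul, Pool.Agent.RSG.ex_norm, mul_one, Complex.norm_real, Real.norm_eq_abs,
      abs_of_nonneg]
    apply div_nonneg <;> linarith
  refine ⟨h3, ?_⟩
  unfold NmB_w
  rw [h3, h1, ← mul_assoc, ← Complex.ofReal_mul]
  have h4 : (1 + (1 - normSq z) / (1 + normSq z))⁻¹ * (2 / (1 + normSq z)) = 1 := by
    have h5 : (1 + normSq z) ≠ 0 := by linarith
    field_simp
    ring
  rw [h4, Complex.ofReal_one, one_mul]

/-- `D > 0` -/
theorem NmB_D (h0 : 0 < c) (h1 : c ≤ 1 / 10) {z : ℂ} (hz : ‖z‖ < 1) {T : ℝ} (hd : 0 < den c z T) :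
    0 < (1 + normSq ((z - c) / (1 - c * z))) -
      (1 - normSq ((z - c) / (1 - c * z))) * Real.cos (2 * Real.pi * T) := by
  have h2 := NK_den h0 h1 hz T
  have h3 := Complex.normSq_nonneg (1 - c * z)
  rw [← h2] at hd
  by_contra hcon
  push Not at hcon
  have := mul_nonpos_of_nonpos_of_nonneg hcon h3
  linarith

theorem NmB_lt {z : ℂ} (hz : ‖z‖ < 1) : normSq z < 1 := by
  rw [Complex.normSq_eq_norm_sq]
  have := norm_nonneg z
  nlinarith

theorem NmB_moeb_lt (h0 : 0 < c) (h1 : c ≤ 1 / 10) {z : ℂ} (hz : ‖z‖ < 1) :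
    normSq ((z - c) / (1 - c * z)) < 1 := NmB_lt (moeb_lt h0 h1 hz)

theorem NmB_ne1 (h0 : 0 < c) (h1 : c ≤ 1 / 10) {z : ℂ} (hz : ‖z‖ < 1) : 1 + (c : ℂ) * z ≠ 0 := by
  intro h
  have h2 : (c : ℂ) * z = -1 := by linear_combination h
  have h3 := congrArg norm h2
  rw [norm_mul, Complex.norm_real, Real.norm_eq_abs, abs_of_pos h0, norm_neg, norm_one] at h3
  have := norm_nonneg z
  nlinarith

/-- the left inverse -/
noncomputable def NmB_G (c T₀ : ℝ) (x : F3) : ℂ × ℝ :=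
  ((NmB_w (gam c) (tv (-tau c) x) + c) * (1 + c * NmB_w (gam c) (tv (-tau c) x))⁻¹,
    T₀ + (Complex.log (NmB_E (gam c) (tv (-tau c) x) * (starRingEnd ℂ) (ex T₀))).im /
      (2 * Real.pi))

theorem NmB_G_NM (h0 : 0 < c) (h1 : c ≤ 1 / 10) {z : ℂ} (hz : ‖z‖ < 1) {T T₀ : ℝ}
    (hd : 0 < den c z T) (hT1 : -(1 / 2) < T - T₀) (hT2 : T - T₀ < 1 / 2) :
    NmB_G c T₀ (NM c (z, T)) = (z, T) := by
  have hg := NmB_gam h0 h1
  have hD := NmB_D h0 h1 hz hd
  have hn := NmB_moeb_lt h0 h1 hz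
  have hn0 := Complex.normSq_nonneg ((z - c) / (1 - c * z))
  obtain ⟨-, h2⟩ := NmB_w_NK hg hn hD
  obtain ⟨-, h3⟩ := NmB_NK hg hD
  unfold NmB_G
  rw [NM_NK h0 h1 hz hd, tv_neg, h2, h3]
  refine Prod.ext ?_ ?_
  · show ((z - c) / (1 - c * z) + c) * (1 + c * ((z - c) / (1 - c * z)))⁻¹ = z
    rw [← div_eq_mul_inv]
    exact moeb_inv h0 h1 hz
  · show T₀ + _ / (2 * Real.pi) = T
    rw [← Pool.Agent.RSG.ex_neg, mul_assoc, ← Pool.Agent.RSG.ex_add,
      Pool.Agent.RSG.ex_log (div_pos (by linarith) (by linarith)) (by linarith) (by linarith)]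
    have := Real.pi_pos
    field_simp
    ring

theorem NmB_q2_re {p : F3} : q2 p = p.1.re * p.1.re + p.1.im * p.1.im + p.2 ^ 2 := by
  unfold q2
  rw [Complex.normSq_apply]

theorem NmB_E_sm (g : ℝ) : Differentiable ℝ (NmB_E g) ∧ Differentiable ℝ (NmB_V g) := by
  have hq : Differentiable ℝ q2 := q2_smooth.differentiable (by simp)
  have hQ : Differentiable ℝ (NmB_Q g) := (hq.const_mul (g ^ 2)).add_const 1
  have hr : Differentiable ℝ fun x : F3 => x.1.re :=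
    Complex.reCLM.differentiable.comp differentiable_fst
  have hi : Differentiable ℝ fun x : F3 => x.1.im :=
    Complex.imCLM.differentiable.comp differentiable_fst
  have hs : Differentiable ℝ fun x : F3 => x.2 := differentiable_snd
  have hmk : ∀ a b : F3 → ℝ, Differentiable ℝ a → Differentiable ℝ b →
      Differentiable ℝ fun x => (⟨a x, b x⟩ : ℂ) := by
    intro a b ha hb
    have e : (fun x => (⟨a x, b x⟩ : ℂ)) = fun x => ((a x : ℝ) : ℂ) + ((b x : ℝ) : ℂ) * I := by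
      funext x
      exact Complex.mk_eq_add_mul_I _ _
    rw [e]
    exact (Complex.ofRealCLM.differentiable.comp ha).add
      ((Complex.ofRealCLM.differentiable.comp hb).mul_const I)
  have hdiv : ∀ a : F3 → ℝ, Differentiable ℝ a → Differentiable ℝ fun x => a x / NmB_Q g x := by
    intro a ha
    simp only [div_eq_mul_inv]
    exact ha.mul (hQ.inv fun x => (NmB_Q_pos g x).ne')
  constructor
  · exact hmk _ _ (hdiv _ ((hq.const_mul (g ^ 2)).sub_const 1)) (hdiv _ (hs.const_mul (2 * g)))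
  · exact hmk _ _ (hdiv _ (hr.const_mul (2 * g))) (hdiv _ (hi.const_mul (2 * g))).neg

theorem NmB_E_ne (h0 : 0 < c) (h1 : c ≤ 1 / 10) {z : ℂ} (hz : ‖z‖ < 1) {T : ℝ}
    (hd : 0 < den c z T) : NmB_E (gam c) (tv (-tau c) (NM c (z, T))) ≠ 0 := by
  have hg := NmB_gam h0 h1
  have hD := NmB_D h0 h1 hz hd
  have hn := NmB_moeb_lt h0 h1 hz
  have hn0 := Complex.normSq_nonneg ((z - c) / (1 - c * z))
  obtain ⟨h2, -⟩ := NmB_w_NK hg hn hD
  rw [NM_NK h0 h1 hz hd, tv_neg, ← norm_ne_zero_iff, h2]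
  exact (div_pos (by linarith) (by linarith)).ne'

theorem NmB_G_diff (h0 : 0 < c) (h1 : c ≤ 1 / 10) {z : ℂ} (hz : ‖z‖ < 1) {T : ℝ}
    (hd : 0 < den c z T) : DifferentiableAt ℝ (NmB_G c T) (NM c (z, T)) := by
  have hg := NmB_gam h0 h1
  have hD := NmB_D h0 h1 hz hd
  have hn := NmB_moeb_lt h0 h1 hz
  have hn0 := Complex.normSq_nonneg ((z - c) / (1 - c * z))
  obtain ⟨-, h2⟩ := NmB_w_NK hg hn hD
  obtain ⟨-, h3⟩ := NmB_NK hg hD
  obtain ⟨hE, hV⟩ := NmB_E_sm (gam c)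
  have htv : Differentiable ℝ (tv (-tau c)) := by
    unfold tv
    exact (differentiable_fst.add_const _).prodMk differentiable_snd
  have hE1 : DifferentiableAt ℝ (fun x => NmB_E (gam c) (tv (-tau c) x)) (NM c (z, T)) :=
    (hE.comp htv).differentiableAt
  have hV1 : DifferentiableAt ℝ (fun x => NmB_V (gam c) (tv (-tau c) x)) (NM c (z, T)) :=
    (hV.comp htv).differentiableAt
  have hE2 : DifferentiableAt ℝ (fun x => ‖NmB_E (gam c) (tv (-tau c) x)‖) (NM c (z, T)) :=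
    hE1.norm ℝ (NmB_E_ne h0 h1 hz hd)
  have hw : DifferentiableAt ℝ (fun x => NmB_w (gam c) (tv (-tau c) x)) (NM c (z, T)) := by
    unfold NmB_w
    have h4 : DifferentiableAt ℝ (fun x => (1 + ‖NmB_E (gam c) (tv (-tau c) x)‖)⁻¹)
        (NM c (z, T)) := by
      refine (hE2.const_add 1).inv ?_
      have := norm_nonneg (NmB_E (gam c) (tv (-tau c) (NM c (z, T))))
      positivity
    have h4' : DifferentiableAt ℝ (fun x => (((1 + ‖NmB_E (gam c) (tv (-tau c) x)‖)⁻¹ : ℝ) : ℂ))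
        (NM c (z, T)) := DifferentiableAt.comp (NM c (z, T)) Complex.ofRealCLM.differentiableAt h4
    exact h4'.mul hV1
  have hwv : NmB_w (gam c) (tv (-tau c) (NM c (z, T))) = (z - c) / (1 - c * z) := by
    rw [NM_NK h0 h1 hz hd, tv_neg, h2]
  unfold NmB_G
  refine DifferentiableAt.prodMk ?_ ?_
  · refine (hw.add_const _).mul ?_
    have h11 : DifferentiableAt ℝ (fun x => 1 + (c : ℂ) * NmB_w (gam c) (tv (-tau c) x))
        (NM c (z, T)) := (hw.const_mul (c : ℂ)).const_add 1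
    refine h11.inv ?_
    rw [hwv]
    exact NmB_ne1 h0 h1 (moeb_lt h0 h1 hz)
  · have h5 : NmB_E (gam c) (tv (-tau c) (NM c (z, T))) * (starRingEnd ℂ) (ex T) =
        (((1 - normSq ((z - c) / (1 - c * z))) / (1 + normSq ((z - c) / (1 - c * z))) : ℝ) : ℂ) := by
      rw [NM_NK h0 h1 hz hd, tv_neg, h3, mul_assoc, Pool.Agent.RSG.ex_mul_conj, mul_one]
    have h6 : NmB_E (gam c) (tv (-tau c) (NM c (z, T))) * (starRingEnd ℂ) (ex T) ∈
        Complex.slitPlane := by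
      rw [h5]
      exact Complex.ofReal_mem_slitPlane.2 (div_pos (by linarith) (by linarith))
    have h7 : DifferentiableAt ℝ Complex.log
        (NmB_E (gam c) (tv (-tau c) (NM c (z, T))) * (starRingEnd ℂ) (ex T)) :=
      (Complex.differentiableAt_log h6).restrictScalars ℝ
    have h8 : DifferentiableAt ℝ (fun x => NmB_E (gam c) (tv (-tau c) x) *
        (starRingEnd ℂ) (ex T)) (NM c (z, T)) := hE1.mul_const _
    have h9 : DifferentiableAt ℝ (fun x => Complex.log (NmB_E (gam c) (tv (-tau c) x) *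
        (starRingEnd ℂ) (ex T))) (NM c (z, T)) :=
      DifferentiableAt.comp (g := Complex.log) (NM c (z, T)) h7 h8
    have h10 : DifferentiableAt ℝ (fun x => (Complex.log (NmB_E (gam c) (tv (-tau c) x) *
        (starRingEnd ℂ) (ex T))).im) (NM c (z, T)) :=
      DifferentiableAt.comp (NM c (z, T)) Complex.imCLM.differentiableAt h9
    have h12 : DifferentiableAt ℝ (fun x => (Complex.log (NmB_E (gam c) (tv (-tau c) x) *
        (starRingEnd ℂ) (ex T))).im / (2 * Real.pi)) (NM c (z, T)) := by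
      simp only [div_eq_mul_inv]
      exact h10.mul_const _
    exact h12.const_add _

theorem NmB_den_sm : ContDiff ℝ ∞ fun p : ℂ × ℝ => den c p.1 p.2 := by
  have hr : ContDiff ℝ ∞ fun x : ℂ × ℝ => x.1.re := Complex.reCLM.contDiff.comp contDiff_fst
  have hi : ContDiff ℝ ∞ fun x : ℂ × ℝ => x.1.im := Complex.imCLM.contDiff.comp contDiff_fst
  have hcos : ContDiff ℝ ∞ fun x : ℂ × ℝ => Real.cos (2 * Real.pi * x.2) :=
    Real.contDiff_cos.comp (contDiff_const.mul contDiff_snd)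
  unfold den
  simp only [Complex.normSq_apply, Complex.sub_re, Complex.sub_im, Complex.ofReal_re,
    Complex.ofReal_im, sub_zero]
  exact (contDiff_const.mul (((hr.sub contDiff_const).mul (hr.sub contDiff_const)).add
    (hi.mul hi))).add (((contDiff_const.sub ((hr.mul hr).add (hi.mul hi))).mul
      contDiff_const).mul (contDiff_const.sub hcos))

theorem NmB_sm {p : ℂ × ℝ} (hd : 0 < den c p.1 p.2) : ContDiffAt ℝ ∞ (NM c) p := by
  have hr : ContDiff ℝ ∞ fun x : ℂ × ℝ => x.1.re := Complex.reCLM.contDiff.comp contDiff_fst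
  have hi : ContDiff ℝ ∞ fun x : ℂ × ℝ => x.1.im := Complex.imCLM.contDiff.comp contDiff_fst
  have hnS : ContDiff ℝ ∞ fun x : ℂ × ℝ => normSq x.1 := by
    simp only [Complex.normSq_apply]
    exact (hr.mul hr).add (hi.mul hi)
  have hcos : ContDiff ℝ ∞ fun x : ℂ × ℝ => Real.cos (2 * Real.pi * x.2) :=
    Real.contDiff_cos.comp (contDiff_const.mul contDiff_snd)
  have hsin : ContDiff ℝ ∞ fun x : ℂ × ℝ => Real.sin (2 * Real.pi * x.2) :=
    Real.contDiff_sin.comp (contDiff_const.mul contDiff_snd)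
  have hconj : ContDiff ℝ ∞ fun x : ℂ × ℝ => (starRingEnd ℂ) x.1 :=
    Complex.conjCLE.contDiff.comp contDiff_fst
  have hinv : ContDiffAt ℝ ∞ (fun x : ℂ × ℝ => (den c x.1 x.2)⁻¹) p :=
    (NmB_den_sm (c := c)).contDiffAt.inv hd.ne'
  have e : NM c = fun p : ℂ × ℝ => ((((den c p.1 p.2)⁻¹ : ℝ) : ℂ) *
      (2 * (p.1 + c) * ((starRingEnd ℂ) p.1 - c) +
      ((1 - normSq p.1) * (1 + c ^ 2) * (1 - Real.cos (2 * Real.pi * p.2)) : ℝ)),
      2 * c * (1 - normSq p.1) * Real.sin (2 * Real.pi * p.2) * (den c p.1 p.2)⁻¹) := by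
    funext p
    unfold NM
    refine Prod.ext ?_ ?_
    · simp only
      rw [div_eq_inv_mul, Complex.ofReal_inv]
    · simp only
      rw [div_eq_mul_inv]
  rw [e]
  refine ContDiffAt.prodMk ?_ ?_
  · refine (Complex.ofRealCLM.contDiff.contDiffAt.comp p hinv).mul ?_
    refine ContDiff.contDiffAt ?_
    refine ((contDiff_const.mul (contDiff_fst.add contDiff_const)).mul
      (hconj.sub contDiff_const)).add ?_
    exact Complex.ofRealCLM.contDiff.comp (((contDiff_const.sub hnS).mul contDiff_const).mul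
      (contDiff_const.sub hcos))
  · refine ContDiffAt.mul ?_ hinv
    exact ((contDiff_const.mul (contDiff_const.sub hnS)).mul hsin).contDiffAt

theorem NM_ld (h0 : 0 < c) (h1 : c ≤ 1 / 10) {z : ℂ} (hz : ‖z‖ < 1) {T : ℝ} (hd : 0 < den c z T) :
    LD (NM c) (z, T) := by
  have hop : ∀ᶠ p : ℂ × ℝ in 𝓝 (z, T), 0 < den c p.1 p.2 :=
    (NmB_den_sm (c := c)).continuous.continuousAt.eventually (lt_mem_nhds hd)
  have hop2 : ∀ᶠ p : ℂ × ℝ in 𝓝 (z, T), ‖p.1‖ < 1 :=
    (continuous_fst.norm.continuousAt (x := (z, T))).eventually (gt_mem_nhds hz)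
  have hop3 : ∀ᶠ p : ℂ × ℝ in 𝓝 (z, T), -(1 / 2) < p.2 - T :=
    ((continuous_snd.sub continuous_const).continuousAt (x := (z, T))).eventually
      (lt_mem_nhds (by show -(1 / 2) < T - T; linarith))
  have hop4 : ∀ᶠ p : ℂ × ℝ in 𝓝 (z, T), p.2 - T < 1 / 2 :=
    ((continuous_snd.sub continuous_const).continuousAt (x := (z, T))).eventually
      (gt_mem_nhds (by show T - T < 1 / 2; linarith))
  refine Pool.Agent.RSG.ld_left (g := NmB_G c T) ?_ rfl (NmB_G_diff h0 h1 hz hd) ?_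
  · filter_upwards [hop] with p hp
    exact NmB_sm hp
  · filter_upwards [hop, hop2, hop3, hop4] with p hp hp2 hp3 hp4
    exact NmB_G_NM h0 h1 hp2 hp hp3 hp4

theorem NM_inj (h0 : 0 < c) (h1 : c ≤ 1 / 10) {z z' : ℂ} (hz : ‖z‖ < 1) (hz' : ‖z'‖ < 1) {T T' : ℝ}
    (hd : 0 < den c z T) (hd' : 0 < den c z' T') (h : NM c (z, T) = NM c (z', T')) :
    z = z' ∧ ∃ n : ℤ, T' = T + n := by
  have hg := NmB_gam h0 h1
  have hD := NmB_D h0 h1 hz hd
  have hD' := NmB_D h0 h1 hz' hd'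
  have hn := NmB_moeb_lt h0 h1 hz
  have hn' := NmB_moeb_lt h0 h1 hz'
  have hnn := Complex.normSq_nonneg ((z - c) / (1 - c * z))
  have hnn' := Complex.normSq_nonneg ((z' - c) / (1 - c * z'))
  have h2 : NK c ((z - c) / (1 - c * z), T) = NK c ((z' - c) / (1 - c * z'), T') := by
    have h3 := congrArg (tv (-tau c)) h
    rwa [NM_NK h0 h1 hz hd, NM_NK h0 h1 hz' hd', tv_neg, tv_neg] at h3
  have hw : (z - c) / (1 - c * z) = (z' - c) / (1 - c * z') := by
    rw [← (NmB_w_NK hg hn hD).2, ← (NmB_w_NK hg hn' hD').2, h2]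
  constructor
  · rw [← moeb_inv h0 h1 hz, ← moeb_inv h0 h1 hz', hw]
  · have h3 := (NmB_NK hg hD).2
    have h4 := (NmB_NK hg hD').2
    rw [h2, h4] at h3
    exact (Pool.Agent.RSG.ex_polar (div_pos (by linarith) (by linarith))
      (div_pos (by linarith) (by linarith)) h3.symm).2

theorem NmB_E_zero {g : ℝ} (hg : 0 < g) {x : F3} :
    NmB_E g x = 0 ↔ (x.2 = 0 ∧ ‖x.1‖ = 1 / g) := by
  have hQ := NmB_Q_pos g x
  constructor
  · intro h
    have h1 : (g ^ 2 * q2 x - 1) / NmB_Q g x = 0 := congrArg Complex.re h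
    have h2 : 2 * g * x.2 / NmB_Q g x = 0 := congrArg Complex.im h
    rw [div_eq_zero_iff] at h1 h2
    have h3 : 2 * g * x.2 = 0 := h2.resolve_right hQ.ne'
    have h4 : g ^ 2 * q2 x - 1 = 0 := h1.resolve_right hQ.ne'
    have h5 : x.2 = 0 := by
      rcases mul_eq_zero.1 h3 with h6 | h6
      · linarith
      · exact h6
    refine ⟨h5, ?_⟩
    unfold q2 at h4
    rw [h5, Complex.normSq_eq_norm_sq] at h4
    rw [eq_div_iff hg.ne']
    have h6 := norm_nonneg x.1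
    have h7 : (‖x.1‖ * g) ^ 2 = 1 ^ 2 := by linear_combination h4
    exact (pow_left_inj₀ (by positivity) (by norm_num) (by norm_num)).1 h7
  · rintro ⟨h1, h2⟩
    have h3 : g ^ 2 * q2 x = 1 := by
      unfold q2
      rw [h1, Complex.normSq_eq_norm_sq, h2]
      field_simp
      ring
    unfold NmB_E
    rw [h3, h1]
    apply Complex.ext <;> simp

theorem NM_surj (h0 : 0 < c) (h1 : c ≤ 1 / 10) {x : F3} (hx : ¬ (x.2 = 0 ∧ ‖x.1 - tau c‖ = 1 / gam c)) :
    ∃ (z : ℂ) (T : ℝ), ‖z‖ < 1 ∧ 0 < den c z T ∧ NM c (z, T) = x := by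
  have hg := NmB_gam h0 h1
  obtain ⟨y, hy⟩ : ∃ y, y = tv (-tau c) x := ⟨_, rfl⟩
  have hy1 : y.1 = x.1 - tau c := by
    rw [hy]
    show x.1 + ((-tau c : ℝ) : ℂ) = x.1 - tau c
    push_cast
    ring
  have hy2 : y.2 = x.2 := by
    rw [hy]
    rfl
  have hE : NmB_E (gam c) y ≠ 0 := by
    intro h
    rw [NmB_E_zero hg, hy1, hy2] at h
    exact hx h
  obtain ⟨e, he⟩ : ∃ e, e = ‖NmB_E (gam c) y‖ := ⟨_, rfl⟩
  have he0 : 0 < e := by
    rw [he]
    exact norm_pos_iff.2 hE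
  have hone := NmB_one (gam c) y
  rw [Complex.normSq_eq_norm_sq (NmB_E (gam c) y), ← he] at hone
  obtain ⟨T, hT⟩ : ∃ T, NmB_E (gam c) y = (e : ℂ) * ex T :=
    ⟨Complex.arg (NmB_E (gam c) y) / (2 * Real.pi), by rw [he]; exact Pool.Agent.RSG.ex_arg.symm⟩
  obtain ⟨w, hw⟩ : ∃ w, w = NmB_w (gam c) y := ⟨_, rfl⟩
  have hw1 : w = (((1 + e)⁻¹ : ℝ) : ℂ) * NmB_V (gam c) y := by
    rw [hw, he]
    rfl
  have hn : normSq w = (1 - e) / (1 + e) := by
    rw [hw1, Complex.normSq_mul, Complex.normSq_ofReal,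
      show normSq (NmB_V (gam c) y) = 1 - e ^ 2 by linarith]
    field_simp
    ring
  have hnw : normSq w < 1 := by
    rw [hn, div_lt_one (by linarith)]
    linarith
  have hwn : ‖w‖ < 1 := by
    rw [Complex.normSq_eq_norm_sq] at hnw
    have := norm_nonneg w
    nlinarith
  have hQ := NmB_Q_pos (gam c) y
  have hEr : e * Real.cos (2 * Real.pi * T) = (gam c ^ 2 * q2 y - 1) / NmB_Q (gam c) y := by
    have h2 := congrArg Complex.re hT
    rw [Complex.re_ofReal_mul, Pool.Agent.RSG.ex_re] at h2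
    exact h2.symm
  have hEi : e * Real.sin (2 * Real.pi * T) = 2 * gam c * y.2 / NmB_Q (gam c) y := by
    have h2 := congrArg Complex.im hT
    rw [Complex.im_ofReal_mul, Pool.Agent.RSG.ex_im] at h2
    exact h2.symm
  have hDe : (1 + normSq w) - (1 - normSq w) * Real.cos (2 * Real.pi * T) =
      4 / (NmB_Q (gam c) y * (1 + e)) := by
    have h2 : (1 + normSq w) - (1 - normSq w) * Real.cos (2 * Real.pi * T) =
        2 * (1 - e * Real.cos (2 * Real.pi * T)) / (1 + e) := by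
      rw [hn]
      field_simp
      ring
    rw [h2, hEr]
    have h3 : NmB_Q (gam c) y = gam c ^ 2 * q2 y + 1 := rfl
    field_simp
    rw [h3]
    ring
  have hD : 0 < (1 + normSq w) - (1 - normSq w) * Real.cos (2 * Real.pi * T) := by
    rw [hDe]
    positivity
  have hNK : NK c (w, T) = y := by
    refine Prod.ext ?_ ?_
    · show 2 * (starRingEnd ℂ) w / ((gam c * ((1 + normSq w) - (1 - normSq w) *
        Real.cos (2 * Real.pi * T)) : ℝ) : ℂ) = y.1
      rw [hDe, hw1]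
      apply Complex.ext
      · rw [Complex.div_ofReal_re]
        simp only [Complex.mul_re, Complex.mul_im, map_mul, Complex.conj_ofReal, Complex.ofReal_re,
          Complex.ofReal_im, Complex.conj_re, Complex.conj_im, zero_mul, sub_zero, Complex.re_ofNat,
          Complex.im_ofNat]
        unfold NmB_V
        simp only
        field_simp
        ring
      · rw [Complex.div_ofReal_im]
        simp only [Complex.mul_re, Complex.mul_im, map_mul, Complex.conj_ofReal, Complex.ofReal_re,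
          Complex.ofReal_im, Complex.conj_re, Complex.conj_im, zero_mul, add_zero, Complex.re_ofNat,
          Complex.im_ofNat]
        unfold NmB_V
        simp only
        field_simp
        ring
    · show (1 - normSq w) * Real.sin (2 * Real.pi * T) / (gam c * ((1 + normSq w) -
        (1 - normSq w) * Real.cos (2 * Real.pi * T))) = y.2
      rw [hDe]
      have h2 : (1 - normSq w) * Real.sin (2 * Real.pi * T) =
          2 * (e * Real.sin (2 * Real.pi * T)) / (1 + e) := by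
        rw [hn]
        field_simp
        ring
      rw [h2, hEi]
      field_simp
      ring
  -- the Moebius map
  have hc1 : (1 : ℂ) + c * w ≠ 0 := NmB_ne1 h0 h1 hwn
  have hc1' : (1 : ℂ) + w * c ≠ 0 := by rwa [mul_comm w (c : ℂ)]
  have hcc : ((1 : ℂ) - c ^ 2) ≠ 0 := by
    have h2 : (1 : ℝ) - c ^ 2 ≠ 0 := by nlinarith
    exact_mod_cast h2
  obtain ⟨z, hz⟩ : ∃ z : ℂ, z = (w + c) / (1 + c * w) := ⟨_, rfl⟩
  have hz1 : (z - c) / (1 - c * z) = w := by
    have h2 : z - c = w * (1 - c ^ 2) / (1 + c * w) := by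
      rw [hz]
      field_simp
      ring
    have h3 : 1 - c * z = (1 - c ^ 2) / (1 + c * w) := by
      rw [hz]
      field_simp
      ring
    rw [h2, h3]
    field_simp
  have hz2 : ‖z‖ < 1 := by
    rw [hz, norm_div, div_lt_one (norm_pos_iff.2 hc1)]
    have h2 : normSq (w + c) < normSq (1 + c * w) := by
      rw [Complex.normSq_apply] at hnw
      simp only [Complex.normSq_apply, Complex.add_re, Complex.add_im, Complex.mul_re,
        Complex.mul_im, Complex.ofReal_re, Complex.ofReal_im, Complex.one_re, Complex.one_im]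
      have h3 : 0 < (1 - c ^ 2) * (1 - (w.re * w.re + w.im * w.im)) := by
        apply mul_pos
        · nlinarith
        · linarith
      nlinarith
    rw [Complex.normSq_eq_norm_sq, Complex.normSq_eq_norm_sq] at h2
    exact lt_of_pow_lt_pow_left₀ 2 (norm_nonneg _) h2
  have hz3 : 0 < den c z T := by
    rw [← NK_den h0 h1 hz2 T, hz1]
    refine mul_pos hD (Complex.normSq_pos.2 ?_)
    have h3 : 1 - c * z = (1 - c ^ 2) / (1 + c * w) := by
      rw [hz]
      field_simp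
      ring
    rw [h3]
    exact div_ne_zero hcc hc1
  refine ⟨z, T, hz2, hz3, ?_⟩
  rw [NM_NK h0 h1 hz2 hz3, hz1, hNK, hy, tv_neg']

theorem NmB_tv1 {c : ℝ} (y : F3) : (tv (-tau c) y).1 = y.1 - tau c ∧ (tv (-tau c) y).2 = y.2 := by
  constructor
  · show y.1 + ((-tau c : ℝ) : ℂ) = y.1 - tau c
    push_cast
    ring
  · rfl

theorem NM_off (h0 : 0 < c) (h1 : c ≤ 1 / 10) {z : ℂ} (hz : ‖z‖ < 1) {T : ℝ} (hd : 0 < den c z T) :
    ¬ ((NM c (z, T)).2 = 0 ∧ ‖(NM c (z, T)).1 - tau c‖ = 1 / gam c) := by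
  intro h
  refine NmB_E_ne h0 h1 hz hd ?_
  rw [NmB_E_zero (NmB_gam h0 h1), (NmB_tv1 _).1, (NmB_tv1 _).2]
  exact h

theorem NmB_fst (h0 : 0 < c) (h1 : c ≤ 1 / 10) {z : ℂ} (hz : ‖z‖ < 1) {T : ℝ}
    (hd : 0 < den c z T) : (NM c (z, T)).1 - tau c =
    2 * (starRingEnd ℂ) ((z - c) / (1 - c * z)) /
      ((gam c * ((1 + normSq ((z - c) / (1 - c * z))) - (1 - normSq ((z - c) / (1 - c * z))) *
        Real.cos (2 * Real.pi * T)) : ℝ) : ℂ) := by
  have h2 : tv (-tau c) (NM c (z, T)) = NK c ((z - c) / (1 - c * z), T) := by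
    rw [NM_NK h0 h1 hz hd, tv_neg]
  rw [← (NmB_tv1 _).1, h2]
  rfl

theorem NmB_ne2 (h0 : 0 < c) (h1 : c ≤ 1 / 10) {z : ℂ} (hz : ‖z‖ < 1) : 1 - (c : ℂ) * z ≠ 0 := by
  intro h
  have h2 : (c : ℂ) * z = 1 := by linear_combination -h
  have h3 := congrArg norm h2
  rw [norm_mul, Complex.norm_real, Real.norm_eq_abs, abs_of_pos h0, norm_one] at h3
  have := norm_nonneg z
  nlinarith

theorem NM_line (h0 : 0 < c) (h1 : c ≤ 1 / 10) {z : ℂ} (hz : ‖z‖ < 1) {T : ℝ} (hd : 0 < den c z T) :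
    (NM c (z, T)).1 = tau c ↔ z = c := by
  have hg := NmB_gam h0 h1
  have hD := NmB_D h0 h1 hz hd
  rw [← sub_eq_zero, NmB_fst h0 h1 hz hd, div_eq_zero_iff]
  have h2 : ((gam c * ((1 + normSq ((z - c) / (1 - c * z))) - (1 - normSq ((z - c) / (1 - c * z))) *
        Real.cos (2 * Real.pi * T)) : ℝ) : ℂ) ≠ 0 := by
    exact_mod_cast (mul_pos hg hD).ne'
  rw [or_iff_left h2, mul_eq_zero, or_iff_right (by norm_num : (2 : ℂ) ≠ 0), map_eq_zero,
    div_eq_zero_iff, or_iff_left (NmB_ne2 h0 h1 hz), sub_eq_zero]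

/-- page `0` is the outside of the binding -/
theorem NM_page0_gt (h0 : 0 < c) (h1 : c ≤ 1 / 10) {z : ℂ} (hz : ‖z‖ < 1) (hzc : z ≠ c) :
    1 / gam c < ‖(NM c (z, 0)).1 - tau c‖ := by
  have hg := NmB_gam h0 h1
  have hd : 0 < den c z 0 := (den_pos h0 h1 hz 0).2 (Or.inl hzc)
  rw [NmB_fst h0 h1 hz hd]
  have hw0 : (z - c) / (1 - c * z) ≠ 0 := div_ne_zero (sub_ne_zero.2 hzc) (NmB_ne2 h0 h1 hz)
  have hw1 := moeb_lt h0 h1 hz
  generalize (z - c) / (1 - c * z) = w at hw0 hw1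
  have hw2 : 0 < ‖w‖ := norm_pos_iff.2 hw0
  rw [mul_zero, Real.cos_zero, Complex.normSq_eq_norm_sq, norm_div, norm_mul, RCLike.norm_conj,
    Complex.norm_real, Real.norm_eq_abs,
    show gam c * ((1 + ‖w‖ ^ 2) - (1 - ‖w‖ ^ 2) * 1) = gam c * (2 * ‖w‖ ^ 2) by ring,
    abs_of_pos (by positivity), Complex.norm_ofNat, div_lt_div_iff₀ hg (by positivity)]
  have h3 : ‖w‖ ^ 2 < ‖w‖ := by nlinarith
  nlinarith

theorem NM_notline (h0 : 0 < c) (h1 : c ≤ 1 / 10) {z : ℂ} (hz : ‖z‖ < 1) (hz1 : z ≠ c) (hz2 : z ≠ -c) (T : ℝ) :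
    NM c (z, T) ≠ 0 ∧ (NM c (z, T)).1 ≠ tau c ∧ (Jv (NM c (z, T))).1 ≠ tau c := by
  have hz' : ‖-z‖ < 1 := by rwa [norm_neg]
  have hz3 : -z ≠ c := fun h => hz2 (by rw [← h, neg_neg])
  have hd : 0 < den c z T := (den_pos h0 h1 hz T).2 (Or.inl hz1)
  have hd' : 0 < den c (-z) T := (den_pos h0 h1 hz' T).2 (Or.inl hz3)
  refine ⟨?_, ?_, ?_⟩
  · intro h
    have h2 := q2_NM h0 h1 hz T hd
    rw [h, q2_eq_zero.2 rfl] at h2
    exact (div_pos hd' hd).ne h2
  · rw [Ne, NM_line h0 h1 hz hd]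
    exact hz1
  · rw [← NM_neg h0 h1 hz T, Ne, NM_line h0 h1 hz' hd']
    exact hz3

end Pool.Agent.CHW
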