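import Pool.Agent.CHW.SvM
import Pool.Agent.CHW.NmB
import Pool.Agent.CHW.EeM
import Pool.Agent.CHW.AaM

/-!
# CHW/W0A: the chart for `|y| < 1/2`   (difficulty 2)

`W0 = Ai ∘ EE ∘ NM ∘ (Sv × id)`.  For `|y| < 1/2`, `(u, y)` not a lattice point: `z = Sv (u, y)`, `‖z‖ < 1`, `z ≠ ± c`; `den c z t > 0` (`den_pos`);
`NM c (z, t) ∈ Nn c` (`NM_notline`), `EE` maps `Nn c` bijectively onto `Nn c`, `Nn c ∩ SlA c = ∅`, `Ai` : `(SlA c)ᶜ → Sh`.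
* `W0_inj`: `A_Ai` (apply `A`), `EE_inj`, `NM_inj`, `Sv_inj`.
* `W0_page0`: `Sv_far`, `z1_NM`, `NM_page0`: `NM c (z, 0) = A (Xp u y)`, `EE_id` (`NM_page0_gt`: distance to `tau` is `> 1/gam c > 2c > 7/10 c²`; for `Jv`: `Jv (NM c (z, 0)) = NM c (-z, 0)`),
  `Ai_A`.
* `W0_neg`: `NM_neg`, `EE_Jv`, `Ai_Jv`.  `W0_mir`: `NM_mir`, `EE_mir`, `Ai_mir`.
* signs: `A_snd_pos` with `x = Ai ..` (`A_Ai`), `EE_snd_pos`, `NM_snd_pos`.
* `W0_cover`: `x ∈ Sh`: if `A c x ∈ Nn c`: `A c x = EE y`, `y ∈ Nn c`; if `y` is on the circle `y.2 = 0`, `‖y.1 - tau‖ = 1/gam` then `EE y = y` (`EE_id`; `Jv y` is on the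
  circle as well: `Jv` preserves the circle as `tau² = 1 + 1/gam²`), else `y = NM c (z, T)`, and `z ≠ ± c` (`NM_line`; `NM c (-c, T) = Jv (NM c (c, T))`), `Sv_surj`.
  If `A c x ∉ Nn c`: `SlA_Nn`.
-/

open scoped Manifold ContDiff Topology
open Set Filter
open Complex (I normSq)

namespace Pool.Agent.CHW

open Pool.Agent.CSG (stp thc)
open Pool.Agent.RSG (ex)

variable {P : Par}

theorem Ok_c (h : P.Ok) : 0 < P.c ∧ P.c ≤ 1 / 32 ∧ P.c ≤ 1 / 10 := by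
  have h1 := h.c_pos
  have h2 := h.c_le
  have h3 := h.r₃_le
  have h4 := h.d₁_le
  refine ⟨h1, ?_, ?_⟩ <;> linarith

/-- basic facts on the point `NM c (Sv (u, y), t)` -/
theorem W0A_base (h : P.Ok) {u y : ℝ} (t : ℝ) (hy : |y| < 1 / 2) (hl : ¬ LatU u y) :
    NM P.c (Sv P (u, y), t) ∈ Nn P.c ∧ 0 < den P.c (Sv P (u, y)) t ∧ EE P.c (NM P.c (Sv P (u, y), t)) ∈ Nn P.c ∧
      EE P.c (NM P.c (Sv P (u, y), t)) ∉ SlA P.c := by
  obtain ⟨h0, -, h1⟩ := Ok_c h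
  have hz := Sv_lt h u y
  obtain ⟨hz1, hz2⟩ := Sv_ne h hy hl
  have hN : NM P.c (Sv P (u, y), t) ∈ Nn P.c := NM_notline h0 h1 hz hz1 hz2 t
  exact ⟨hN, (den_pos h0 h1 hz t).2 (Or.inl hz1), EE_mem h0 h1 hN, Nn_SlA (EE_mem h0 h1 hN)⟩

theorem W0_Sh (h : P.Ok) {u y : ℝ} (t : ℝ) (hy : |y| < 1 / 2) (hl : ¬ LatU u y) : W0 P (u, y, t) ∈ Sh := by
  obtain ⟨h0, -, h1⟩ := Ok_c h
  exact Ai_mem h0 h1 (W0A_base h t hy hl).2.2.2
theorem A_W0 (h : P.Ok) {u y : ℝ} (t : ℝ) (hy : |y| < 1 / 2) (hl : ¬ LatU u y) :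
    A P.c (W0 P (u, y, t)) = EE P.c (NM P.c (Sv P (u, y), t)) ∧ NM P.c (Sv P (u, y), t) ∈ Nn P.c ∧
      A P.c (W0 P (u, y, t)) ∈ Nn P.c := by
  obtain ⟨h0, -, h1⟩ := Ok_c h
  obtain ⟨hN, -, hE, hS⟩ := W0A_base h t hy hl
  have hA : A P.c (W0 P (u, y, t)) = EE P.c (NM P.c (Sv P (u, y), t)) := A_Ai h0 h1 hS
  refine ⟨hA, hN, ?_⟩
  rw [hA]
  exact hE
theorem W0_ld (h : P.Ok) {u y : ℝ} (t : ℝ) (hy : |y| < 1 / 2) (hl : ¬ LatU u y) : LD (W0 P) (u, y, t) := by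
  obtain ⟨h0, -, h1⟩ := Ok_c h
  obtain ⟨hN, hd, hE, hS⟩ := W0A_base h t hy hl
  have e1 : IsLocalDiffeomorphAt (𝓘(ℝ, ℝ × ℝ).prod 𝓘(ℝ, ℝ)) (𝓘(ℝ, ℂ).prod 𝓘(ℝ, ℝ)) ∞
      (Prod.map (Sv P) (id : ℝ → ℝ)) ((u, y), t) :=
    RSG.ld_prodMap (Sv_ld h hy hl) (CSG.ld_id t)
  have e2 : IsLocalDiffeomorphAt 𝓘(ℝ, ℝ × ℝ × ℝ) (𝓘(ℝ, ℝ × ℝ).prod 𝓘(ℝ, ℝ)) ∞
      (fun q : ℝ × ℝ × ℝ => ((q.1, q.2.1), q.2.2)) (u, y, t) := by
    rw [← modelWithCornersSelf_prod, chartedSpaceSelf_prod]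
    refine CSG.ld_of_perm (f := (Equiv.prodAssoc ℝ ℝ ℝ).symm) ?_ ?_ (u, y, t)
    · exact (contDiff_fst.prodMk contDiff_snd.fst).prodMk contDiff_snd.snd
    · exact contDiff_fst.fst.prodMk (contDiff_fst.snd.prodMk contDiff_snd)
  have e3 := IsLocalDiffeomorphAt.comp (hf := e2) (g := Prod.map (Sv P) (id : ℝ → ℝ)) (hg := e1)
  have e4 : LD (fun q : ℝ × ℝ × ℝ => (Sv P (q.1, q.2.1), q.2.2)) (u, y, t) := by
    rw [← modelWithCornersSelf_prod, chartedSpaceSelf_prod] at e3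
    exact e3
  have e5 : LD (NM P.c) (Sv P (u, y), t) := NM_ld h0 h1 (Sv_lt h u y) hd
  have e6 : LD (EE P.c) (NM P.c (Sv P (u, y), t)) := EE_ld h0 h1 hN
  have e7 : LD (Ai P.c) (EE P.c (NM P.c (Sv P (u, y), t))) := Ai_ld h0 h1 hS
  have f1 := IsLocalDiffeomorphAt.comp (hf := e4) (g := NM P.c) (hg := e5)
  have f2 := IsLocalDiffeomorphAt.comp (hf := f1) (g := EE P.c) (hg := e6)
  exact IsLocalDiffeomorphAt.comp (hf := f2) (g := Ai P.c) (hg := e7)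
theorem W0_inj (h : P.Ok) {u y u' y' t t' : ℝ} (hy : |y| < 1 / 2) (hl : ¬ LatU u y) (hy' : |y'| < 1 / 2) (hl' : ¬ LatU u' y')
    (he : W0 P (u, y, t) = W0 P (u', y', t')) : y' = y ∧ (∃ m : ℤ, u' = u + m) ∧ ∃ n : ℤ, t' = t + n := by
  obtain ⟨h0, -, h1⟩ := Ok_c h
  obtain ⟨hN, hd, hE, hS⟩ := W0A_base h t hy hl
  obtain ⟨hN', hd', hE', hS'⟩ := W0A_base h t' hy' hl'
  have e1 : EE P.c (NM P.c (Sv P (u, y), t)) = EE P.c (NM P.c (Sv P (u', y'), t')) := by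
    rw [← (A_W0 h t hy hl).1, ← (A_W0 h t' hy' hl').1, he]
  have e2 := EE_inj h0 h1 hN hN' e1
  obtain ⟨e3, n, hn⟩ := NM_inj h0 h1 (Sv_lt h u y) (Sv_lt h u' y') hd hd' e2
  obtain ⟨e4, m, hm⟩ := Sv_inj h hy hl hy' hl' e3
  exact ⟨e4, ⟨m, hm⟩, n, hn⟩
theorem W0_per (h : P.Ok) (u y t : ℝ) (m n : ℤ) : W0 P (u + m, y, t + n) = W0 P (u, y, t) := by
  show Ai P.c (EE P.c (NM P.c (Sv P (u + m, y), t + n))) = Ai P.c (EE P.c (NM P.c (Sv P (u, y), t)))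
  rw [Sv_per h, NM_per]
theorem W0_neg (h : P.Ok) {u y : ℝ} (t : ℝ) (hy : |y| < 1 / 2) (hl : ¬ LatU u y) : W0 P (-u, -y, t) = Jv (W0 P (u, y, t)) := by
  obtain ⟨h0, -, h1⟩ := Ok_c h
  obtain ⟨hN, hd, hE, hS⟩ := W0A_base h t hy hl
  show Ai P.c (EE P.c (NM P.c (Sv P (-u, -y), t))) = Jv (Ai P.c (EE P.c (NM P.c (Sv P (u, y), t))))
  rw [Sv_neg h hy hl, NM_neg h0 h1 (Sv_lt h u y), EE_Jv h0 h1 hN, Ai_Jv h0 h1 hS]
theorem W0_mir (h : P.Ok) {u y : ℝ} (t : ℝ) (hy : |y| < 1 / 2) (hl : ¬ LatU u y) : W0 P (u, y, -t) = mir (W0 P (u, y, t)) := by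
  obtain ⟨h0, -, h1⟩ := Ok_c h
  obtain ⟨hN, hd, hE, hS⟩ := W0A_base h t hy hl
  show Ai P.c (EE P.c (NM P.c (Sv P (u, y), -t))) = mir (Ai P.c (EE P.c (NM P.c (Sv P (u, y), t))))
  rw [NM_mir, EE_mir, Ai_mir h0 h1 hS]
theorem W0_page0 (h : P.Ok) {u y : ℝ} (hy : |y| < 1 / 2) (hd : ∀ m : ℤ, (P.d₁ / 2) ^ 2 ≤ (u - m) ^ 2 + y ^ 2) :
    W0 P (u, y, 0) = Xp u y := by
  obtain ⟨h0, -, h1⟩ := Ok_c h
  have hd1 : 0 < P.d₁ := lt_of_lt_of_le h.r₃_pos h.r₃_le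
  have hl : ¬ LatU u y := by
    rintro ⟨m, n, rfl, rfl⟩
    have h2 : n = 0 := by
      have h3 : |(n : ℝ)| < 1 := by linarith
      rw [← Int.cast_abs] at h3
      have h4 : |n| < 1 := by exact_mod_cast h3
      exact Int.abs_lt_one_iff.1 h4
    subst h2
    have h3 := hd m
    simp only [Int.cast_zero, sub_self] at h3
    have h4 : 0 < (P.d₁ / 2) ^ 2 := by positivity
    nlinarith
  obtain ⟨hz1, hz2⟩ := Sv_ne h hy hl
  have hz := Sv_lt h u y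
  obtain ⟨hN, hdn, hE, hS⟩ := W0A_base h 0 hy hl
  have hw1 : |((y : ℂ) + u * I).re| < 1 / 2 := by simpa using hy
  have hw2 : ¬ LatI ((y : ℂ) + u * I) := by
    rintro ⟨n, hn⟩
    apply hl
    have e1 := congrArg Complex.re hn
    have e2 := congrArg Complex.im hn
    simp at e1 e2
    exact ⟨n, 0, e2, by simpa using e1⟩
  have h2 := z1_NM h hw1 hw2
  rw [← Sv_far h hy hd] at h2
  have h3 : NM P.c (Sv P (u, y), 0) = A P.c (Xp u y) := by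
    rw [NM_page0 hz1, h2]
    simp
  have hg := gam_pos h0 h1
  have h4 : 7 / 10 * P.c ^ 2 ≤ 1 / gam P.c := by
    rw [hg.2.2, le_div_iff₀ (by nlinarith)]
    nlinarith [mul_pos h0 h0, mul_pos (mul_pos h0 h0) (mul_pos h0 h0)]
  have h5 := (NM_page0_gt h0 h1 hz hz1).le
  have h6 : -Sv P (u, y) ≠ P.c := fun h7 => hz2 (by rw [← h7, neg_neg])
  have hz' : ‖-Sv P (u, y)‖ < 1 := by rwa [norm_neg]
  have h7 := (NM_page0_gt h0 h1 hz' h6).le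
  rw [NM_neg h0 h1 hz] at h7
  have h8 : EE P.c (NM P.c (Sv P (u, y), 0)) = NM P.c (Sv P (u, y), 0) :=
    EE_id h0 h1 (h4.trans h5) (h4.trans h7) hN.1
  show Ai P.c (EE P.c (NM P.c (Sv P (u, y), 0))) = _
  rw [h8, h3, Ai_A h0 h1 (Xp_Sh hy)]
theorem W0_snd_pos (h : P.Ok) {u y t : ℝ} (hy : |y| < 1 / 2) (hl : ¬ LatU u y) :
    0 < (W0 P (u, y, t)).2 ↔ 0 < Real.sin (2 * Real.pi * t) := by
  obtain ⟨h0, -, h1⟩ := Ok_c h
  obtain ⟨hN, hd, hE, hS⟩ := W0A_base h t hy hl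
  rw [← A_snd_pos (c := P.c) (W0_Sh h t hy hl), (A_W0 h t hy hl).1, EE_snd_pos h0 h1 hN,
    NM_snd_pos h0 h1 (Sv_lt h u y) hd]
theorem W0_snd_zero (h : P.Ok) {u y t : ℝ} (hy : |y| < 1 / 2) (hl : ¬ LatU u y) :
    (W0 P (u, y, t)).2 = 0 ↔ Real.sin (2 * Real.pi * t) = 0 := by
  obtain ⟨h0, -, h1⟩ := Ok_c h
  obtain ⟨hN, hd, hE, hS⟩ := W0A_base h t hy hl
  rw [← A_snd_zero (c := P.c) (W0_Sh h t hy hl), (A_W0 h t hy hl).1, EE_snd_zero h0 h1 hN,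
    NM_snd_zero h0 h1 (Sv_lt h u y) hd]
/-- `A` is the identity on the binding -/
theorem circle_A (h : P.Ok) {x : F3} (h1 : x.2 = 0) (h2 : ‖x.1 - tau P.c‖ = 1 / gam P.c) :
    x ∈ Sh ∧ A P.c x = x ∧ x ∈ Nn P.c ∧ EE P.c x = x ∧ 1 / 3 ≤ rr x ∧ rr x ≤ 3 := by
  obtain ⟨h0, -, h3⟩ := Ok_c h
  obtain ⟨hg1, hg2, hg3⟩ := gam_pos h0 h3
  obtain ⟨ht1, ht2, ht3⟩ := tau_bounds h0 h3
  have htg := tau_gam h0 h3
  have hgi : 0 < 1 / gam P.c := by positivity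
  have hgj : 1 / gam P.c ≤ 1 / 4 := by
    rw [div_le_div_iff₀ hg1 (by norm_num)]
    linarith
  have htp : 1 ≤ tau P.c := by nlinarith [sq_nonneg P.c]
  have hq : q2 x = ‖x.1‖ ^ 2 := by
    unfold q2
    rw [h1, Complex.normSq_eq_norm_sq]
    ring
  have hr : rr x = ‖x.1‖ := by
    unfold rr
    rw [hq, Real.sqrt_sq (norm_nonneg _)]
  have hn1 : ‖x.1‖ ≤ 3 := by
    calc ‖x.1‖ = ‖(x.1 - tau P.c) + tau P.c‖ := by rw [sub_add_cancel]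
      _ ≤ ‖x.1 - tau P.c‖ + ‖((tau P.c : ℝ) : ℂ)‖ := norm_add_le _ _
      _ ≤ 3 := by
        rw [h2, Complex.norm_real, Real.norm_eq_abs, abs_of_nonneg (by linarith)]
        linarith
  have hn2 : 1 / 3 ≤ ‖x.1‖ := by
    have e1 : ‖((tau P.c : ℝ) : ℂ)‖ ≤ ‖x.1‖ + ‖x.1 - tau P.c‖ := by
      calc ‖((tau P.c : ℝ) : ℂ)‖ = ‖x.1 - (x.1 - tau P.c)‖ := by rw [sub_sub_cancel]
        _ ≤ _ := norm_sub_le _ _
    rw [h2, Complex.norm_real, Real.norm_eq_abs, abs_of_nonneg (by linarith)] at e1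
    linarith
  have hSh : x ∈ Sh := by
    refine ⟨?_, ?_⟩ <;> rw [hr] <;> linarith
  have hA : A P.c x = x := A_id (by rw [hr]; exact hn2) (by rw [hr]; exact hn1)
  have hx0 : x ≠ 0 := by
    rintro rfl
    simp at hn2
    linarith
  -- the image under `Jv` is on the circle
  have hJ : ‖(Jv x).1 - tau P.c‖ = 1 / gam P.c := by
    have hN : 0 < normSq x.1 := by
      rw [Complex.normSq_eq_norm_sq]
      have : 0 < ‖x.1‖ := by linarith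
      positivity
    have e1 : normSq (x.1 - tau P.c) = (1 / gam P.c) ^ 2 := by
      rw [Complex.normSq_eq_norm_sq, h2]
    have e2 : normSq (x.1 - tau P.c) = normSq x.1 - 2 * tau P.c * x.1.re + tau P.c ^ 2 := by
      simp only [Complex.normSq_apply, Complex.sub_re, Complex.sub_im, Complex.ofReal_re, Complex.ofReal_im]
      ring
    have e3 : normSq ((Jv x).1 - tau P.c) = (1 / gam P.c) ^ 2 := by
      have e4 : (Jv x).1 = (starRingEnd ℂ) x.1 / ((normSq x.1 : ℝ) : ℂ) := by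
        show (starRingEnd ℂ) x.1 / ((q2 x : ℝ) : ℂ) = _
        unfold q2
        rw [h1]
        simp
      have e5 : ((Jv x).1).re = x.1.re / normSq x.1 := by
        rw [e4, Complex.div_ofReal_re, Complex.conj_re]
      have e6 : ((Jv x).1).im = -x.1.im / normSq x.1 := by
        rw [e4, Complex.div_ofReal_im, Complex.conj_im]
      have e7 : normSq ((Jv x).1 - tau P.c) =
          (x.1.re / normSq x.1 - tau P.c) ^ 2 + (-x.1.im / normSq x.1) ^ 2 := by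
        rw [Complex.normSq_apply, Complex.sub_re, Complex.sub_im, Complex.ofReal_re, Complex.ofReal_im, e5, e6]
        ring
      have e8 : x.1.re ^ 2 + x.1.im ^ 2 = normSq x.1 := by
        rw [Complex.normSq_apply]; ring
      rw [e7]
      have e9 : (x.1.re / normSq x.1 - tau P.c) ^ 2 + (-x.1.im / normSq x.1) ^ 2 =
          (x.1.re ^ 2 + x.1.im ^ 2) / normSq x.1 ^ 2 - 2 * tau P.c * x.1.re / normSq x.1 + tau P.c ^ 2 := by
        field_simp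
        ring
      rw [e9, e8]
      have e10 : 2 * tau P.c * x.1.re = normSq x.1 + 1 := by
        rw [e2] at e1
        linarith
      rw [e10]
      have e11 : normSq x.1 / normSq x.1 ^ 2 - (normSq x.1 + 1) / normSq x.1 + tau P.c ^ 2 = tau P.c ^ 2 - 1 := by
        field_simp
        ring
      rw [e11, htg]
      ring
    have e4 : ‖(Jv x).1 - tau P.c‖ ^ 2 = (1 / gam P.c) ^ 2 := by
      rw [← Complex.normSq_eq_norm_sq, e3]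
    exact (pow_left_inj₀ (norm_nonneg _) hgi.le two_ne_zero).1 e4
  have hNn : x ∈ Nn P.c := by
    refine ⟨hx0, ?_, ?_⟩
    · intro e
      rw [e, sub_self, norm_zero] at h2
      linarith
    · intro e
      rw [e, sub_self, norm_zero] at hJ
      linarith
  have h4 : 7 / 10 * P.c ^ 2 ≤ 1 / gam P.c := by
    rw [hg3, le_div_iff₀ (by nlinarith)]
    nlinarith [mul_pos h0 h0, mul_pos (mul_pos h0 h0) (mul_pos h0 h0)]
  refine ⟨hSh, hA, hNn, EE_id h0 h3 (by rw [h2]; exact h4) (by rw [hJ]; exact h4) hx0, ?_, ?_⟩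
  · rw [hr]; exact hn2
  · rw [hr]; exact hn1
theorem W0_cover (h : P.Ok) {x : F3} (hx : x ∈ Sh) :
    (∃ u y t : ℝ, |y| < 1 / 2 ∧ ¬ LatU u y ∧ x = W0 P (u, y, t)) ∨ (x.2 = 0 ∧ ‖x.1 - tau P.c‖ = 1 / gam P.c) ∨
      ((A P.c x).1 = tau P.c ∧ |(A P.c x).2| < 1000) ∨ ((A P.c (Jv x)).1 = tau P.c ∧ |(A P.c (Jv x)).2| < 1000) := by
  obtain ⟨h0, -, h1⟩ := Ok_c h
  have hA := A_mem h0 h1 hx
  by_cases hN : A P.c x ∈ Nn P.c
  · obtain ⟨y, hy, hyx⟩ := EE_surj h0 h1 hN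
    by_cases hc : y.2 = 0 ∧ ‖y.1 - tau P.c‖ = 1 / gam P.c
    · right; left
      obtain ⟨c1, c2, c3, c4, c5, c6⟩ := circle_A h hc.1 hc.2
      have e1 : x = y := by
        rw [← Ai_A h0 h1 hx, ← hyx, c4]
        exact Ai_id h0 h1 c5 c6
      rw [e1]
      exact hc
    · left
      obtain ⟨z, T, hz, hd, hzT⟩ := NM_surj h0 h1 hc
      have hz1 : z ≠ P.c := by
        intro e
        apply hy.2.1
        rw [← hzT]
        exact (NM_line h0 h1 hz hd).2 e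
      have hz2 : z ≠ -P.c := by
        intro e
        have e1 : 0 < q2 y := q2_pos hy.1
        rw [← hzT, q2_NM h0 h1 hz T hd] at e1
        have e2 : 0 < den P.c (-z) T := by
          by_contra hcon
          have : den P.c (-z) T / den P.c z T ≤ 0 := div_nonpos_of_nonpos_of_nonneg (not_lt.1 hcon) hd.le
          linarith
        have hz' : ‖-z‖ < 1 := by rwa [norm_neg]
        have e3 := (NM_line h0 h1 hz' e2).2 (by rw [e, neg_neg])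
        rw [NM_neg h0 h1 hz, hzT] at e3
        exact hy.2.2 e3
      obtain ⟨u, v, hv, hl, huv⟩ := Sv_surj h hz hz1 hz2
      refine ⟨u, v, T, hv, hl, ?_⟩
      show x = Ai P.c (EE P.c (NM P.c (Sv P (u, v), T)))
      rw [huv, hzT, hyx, Ai_A h0 h1 hx]
  · right; right
    rcases SlA_Nn hA hN with h2 | h2
    · exact Or.inl h2
    · right
      rw [A_Jv h0 h1 hx]
      exact h2
theorem W0_circle (h : P.Ok) {u y t : ℝ} (hy : |y| < 1 / 2) (hl : ¬ LatU u y) :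
    ¬ ((W0 P (u, y, t)).2 = 0 ∧ ‖(W0 P (u, y, t)).1 - tau P.c‖ = 1 / gam P.c) := by
  rintro ⟨e1, e2⟩
  obtain ⟨h0, -, h1⟩ := Ok_c h
  obtain ⟨hN, hd, hE, hS⟩ := W0A_base h t hy hl
  obtain ⟨c1, c2, c3, c4, c5, c6⟩ := circle_A h e1 e2
  have e3 : EE P.c (W0 P (u, y, t)) = EE P.c (NM P.c (Sv P (u, y), t)) := by
    rw [c4, ← (A_W0 h t hy hl).1, c2]
  have e4 := EE_inj h0 h1 c3 hN e3
  rw [e4] at e1 e2
  exact NM_off h0 h1 (Sv_lt h u y) hd ⟨e1, e2⟩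

end Pool.Agent.CHW
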