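import Pool.Agent.CHW.CrB
import Pool.Agent.CHW.W0A

/-!
# CHW/CrM: the chart near `y = 1/2`   (difficulty 3)

`Cr u p t = pol u (JC (Jou (V1 p t)))`, `p = 1/2 - y`.
* `W0_EE` (`0 < p ≤ 1/8`): let `z = Sv (u, 1/2 - p)`.  `Sv_end`: the Moebius image of `z` is `z' = θ ex(-u)`, `θ = thp p`; `NM_NK`, `NK_pol`: `NM c (z, t) = tv tau (pol u X1)`
  (`den > 0` as `z ≠ c`).  `q2 (NM c (z, t)) = den (-z)/den (z) ≥ 1` iff `|z + c| ≥ |z - c|` iff `Re z ≥ 0`, which is true: `z = (z' + c)/(1 + c z')`, `|z'| = θ ≤ c/400`.  So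
  `EE = EP` there: `A (W0) = EE (NM) = tv tau (EK (pol u X1)) = tv tau (pol u (EMc X1))` (`EM_pol`).
* `W0_Cr`: `V1 = JC (EMc X1)` (`V1_X1`), `EMc X1 = JC V1`.  Put `X = JC (Jou V1)`, `V = V1`, `Re V > 0` (`V1_re`), so `‖X‖ < 2000` (`Jou_gt`), and `‖X‖ ≥ 2000/3` (`Jou_le`).
  `A_far_pol`: `A (pol u X) = tv tau (pol u (JC (Jou V - ρ²/Jou V))) = tv tau (pol u (JC V)) = A (W0 ..)`.  Both points are in `Sh`: `Ai_A`.
* `Cr_neg`: `V1_neg`, `Jou_neg`: `JC (Jou (V1 (-p))) = JC (ρ² JC (Jou V1)) = ρ⁻² Jou V1`, and `Jv (pol (-u) (JC (Jou V1))) = pol u (Jou V1)` (`Jv_pol`, `JC_JC`).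
* `Cr_ld`: at `(u, 0, t)`, `T12 t`: `(u, p, t) ↦ (u, JC (Jou (V1 p t)))` is a local diffeomorphism (product of `id` and the composition of `V1_ld`, `Jou_ld`, `JC_ld`), then `pol_ld`
  (`Re (JC X) = Re X/|X|² > 0`).
* `Cr_zero`: `Jou_imag`; `JC X = X/|X|²`.
-/

open scoped Manifold ContDiff Topology
open Set Filter
open Complex (I normSq)

namespace Pool.Agent.CHW

open Pool.Agent.CSG (stp thc)
open Pool.Agent.RSG (ex)

variable {P : Par}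


/-! ### helpers -/

theorem CrM_lat {u p : ℝ} (hp : 0 < p) (hp' : p ≤ 1 / 8) : |1 / 2 - p| < 1 / 2 ∧ ¬ LatU u (1 / 2 - p) := by
  constructor
  · rw [abs_lt]
    constructor <;> linarith
  · rintro ⟨m, n, _, hn⟩
    have h1 : (0 : ℝ) < n := by linarith
    have h2 : (n : ℝ) < 1 := by linarith
    have h3 : 0 < n := by exact_mod_cast h1
    have h4 : n < 1 := by exact_mod_cast h2
    omega

theorem Cr_pol (P : Par) (u p t : ℝ) : Cr P u p t = pol u (JC (Jou (V1 P p t))) := rfl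

/-- the real part of `z` -/
theorem CrM_re {c : ℝ} (h0 : 0 < c) (h1 : c ≤ 1 / 10) {z' : ℂ} (hz : ‖z'‖ ≤ c / 400) :
    0 ≤ ((z' + c) / (1 + c * z')).re := by
  have hre : |z'.re| ≤ c / 400 := le_trans (Complex.abs_re_le_norm z') hz
  rw [Complex.div_re, ← add_div]
  apply div_nonneg _ (Complex.normSq_nonneg _)
  have e : (z' + c).re * (1 + c * z').re + (z' + c).im * (1 + c * z').im =
      z'.re * (1 + c ^ 2) + c + c * (z'.re ^ 2 + z'.im ^ 2) := by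
    simp
    ring
  rw [e]
  rw [abs_le] at hre
  have h2 : 0 ≤ c * (z'.re ^ 2 + z'.im ^ 2) := by positivity
  have h3 : -(c / 400) * (1 + c ^ 2) ≤ z'.re * (1 + c ^ 2) := by
    apply mul_le_mul_of_nonneg_right hre.1
    positivity
  nlinarith [mul_pos h0 h0, mul_pos h0 (mul_pos h0 h0)]

/-- general formula near the end -/
theorem W0_EE (h : P.Ok) {u p t : ℝ} (hp : 0 < p) (hp' : p ≤ 1 / 8) :
    A P.c (W0 P (u, 1 / 2 - p, t)) = tv (tau P.c) (pol u (EMc (Bc P.c) (eK P.c) (mK P.c) (X1 P p t))) := by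
  obtain ⟨h0, h1, h2⟩ := Ok_c h
  obtain ⟨hy, hl⟩ := CrM_lat (u := u) hp hp'
  obtain ⟨hA, hN, _⟩ := A_W0 h t hy hl
  have hz := Sv_lt h u (1 / 2 - p)
  have hzc := (Sv_ne h hy hl).1
  have hend := Sv_end h (u := u) hp hp'
  have hinv := moeb_inv h0 h2 hz
  rw [hA]
  generalize Sv P (u, 1 / 2 - p) = z at hz hzc hend hinv hN ⊢
  have hd : 0 < den P.c z t := (den_pos h0 h2 hz t).2 (Or.inl hzc)
  have hNM : NM P.c (z, t) = tv (tau P.c) (pol u (X1 P p t)) := by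
    rw [NM_NK h0 h2 hz hd, hend]
    congr 1
    exact NK_pol h0 h2 (thp P p) u t
  -- the side
  have hθ := thp_le h (p := p) (by rw [abs_of_pos hp]; exact hp')
  have hzre : 0 ≤ z.re := by
    rw [← hinv, hend]
    apply CrM_re h0 h2
    rw [norm_mul, RSG.ex_norm, mul_one, Complex.norm_real]
    exact hθ
  have hq : 1 ≤ q2 (NM P.c (z, t)) := by
    rw [q2_NM h0 h2 hz t hd, le_div_iff₀ hd, one_mul]
    unfold den
    rw [Complex.normSq_neg]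
    have h3 : normSq (z - P.c) ≤ normSq (-z - P.c) := by
      rw [Complex.normSq_apply, Complex.normSq_apply]
      simp only [Complex.sub_re, Complex.ofReal_re, Complex.sub_im, Complex.ofReal_im, Complex.neg_re, Complex.neg_im]
      nlinarith
    linarith
  rw [EE_big hq, hNM]
  unfold EP
  rw [tv_neg]
  unfold EK
  rw [EM_pol]

theorem W0_Cr (h : P.Ok) {u p t : ℝ} (hp : 0 < p) (hp' : p ≤ 1 / 8) (hV : ‖V1 P p t‖ ≤ 13 / 10000) :
    W0 P (u, 1 / 2 - p, t) = Cr P u p t := by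
  obtain ⟨h0, h1, h2⟩ := Ok_c h
  obtain ⟨hy, hl⟩ := CrM_lat (u := u) hp hp'
  have hap : |p| ≤ 1 / 8 := by rw [abs_of_pos hp]; exact hp'
  have hre := V1_re h (t := t) hap hp
  have hGV := V1_GV h (t := t) hap (Or.inl hp.ne')
  have hX1 := V1_X1 h (t := t) hap (Or.inl hp.ne')
  have hE := W0_EE h (u := u) (t := t) hp hp'
  have hJJ : EMc (Bc P.c) (eK P.c) (mK P.c) (X1 P p t) = JC (V1 P p t) := by
    rw [hX1, JC_JC]
  rw [hJJ] at hE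
  have hSh := W0_Sh h t hy hl
  rw [Cr_pol]
  generalize V1 P p t = V at hV hre hGV hE ⊢
  have hgt := Jou_gt hre
  obtain ⟨hle, _⟩ := Jou_le hGV hV
  have hn : ‖JC (Jou V)‖ = ‖Jou V‖⁻¹ := norm_JC _
  have hpos : 0 < ‖Jou V‖ := by linarith
  have hn1 : 2000 / 3 ≤ ‖JC (Jou V)‖ := by
    rw [hn, le_inv_comm₀ (by norm_num) hpos]
    norm_num at hle ⊢
    exact hle
  have hn2 : ‖JC (Jou V)‖ < 2000 := by
    rw [hn, inv_lt_comm₀ hpos (by norm_num)]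
    norm_num at hgt ⊢
    exact hgt
  have hA := A_far_pol (c := P.c) (u := u) hn1 hn2
  rw [JC_JC, Jou_eq hGV, ← hE] at hA
  have hSh2 : pol u (JC (Jou V)) ∈ Sh := by
    show 1 / 2000 < rr _ ∧ rr _ < 2000
    rw [rr_pol]
    exact ⟨by linarith, hn2⟩
  rw [← Ai_A h0 h2 hSh, ← Ai_A h0 h2 hSh2, hA]

theorem Cr_neg (h : P.Ok) {p t : ℝ} (hp : |p| ≤ 1 / 8) (ht : p ≠ 0 ∨ T12 t) (u : ℝ) :
    Cr P u (-p) t = (4000000 : ℝ) • Jv (Cr P (-u) p t) := by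
  have hGV := V1_GV h hp ht
  rw [Cr_pol, Cr_pol, V1_neg h, Jou_neg hGV, JC_smul, pol_smul, Jv_pol, neg_neg]
  congr 1
  norm_num

/-- the other side -/
theorem W0_Cr' (h : P.Ok) {u p t : ℝ} (hp : p < 0) (hp' : -(1 / 8) ≤ p) (hV : ‖V1 P p t‖ ≤ 13 / 10000) :
    (4000000 : ℝ) • W0 P (u, -(1 / 2) - p, t) = Cr P u p t := by
  have hn : 0 < -p := by linarith
  have hn' : -p ≤ 1 / 8 := by linarith
  have h1 := Cr_neg h (p := -p) (t := t) (by rw [abs_of_pos hn]; exact hn') (Or.inl hn.ne') u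
  rw [neg_neg] at h1
  rw [h1]
  have hV' : ‖V1 P (-p) t‖ ≤ 13 / 10000 := by
    rw [V1_neg h, norm_neg, Complex.norm_conj]
    exact hV
  rw [← W0_Cr h hn hn' hV']
  obtain ⟨hy, hl⟩ := CrM_lat (u := -u) hn hn'
  rw [← W0_neg h t hy hl, neg_neg]
  congr 3
  ring_nf

theorem Cr_ld (h : P.Ok) (u : ℝ) {t : ℝ} (ht : T12 t) : LD (fun q : ℝ × ℝ × ℝ => Cr P q.1 q.2.1 q.2.2) (u, 0, t) := by
  have hGV := V1_GV h (p := 0) (by simp) (Or.inr ht)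
  have hJ := Jou_re hGV
  have hJ0 : Jou (V1 P 0 t) ≠ 0 := by
    intro h1
    rw [h1] at hJ
    simp at hJ
  have hre : 0 < (JC (Jou (V1 P 0 t))).re := by
    rw [CrB_JC]
    exact div_pos hJ (Complex.normSq_pos.2 hJ0)
  have l1 : LD (Jou ∘ fun q : ℝ × ℝ => V1 P q.1 q.2) (0, t) :=
    IsLocalDiffeomorphAt.comp (hf := V1_ld h ht) (hg := Jou_ld hGV) ..
  have l2 : LD (JC ∘ (Jou ∘ fun q : ℝ × ℝ => V1 P q.1 q.2)) (0, t) :=
    IsLocalDiffeomorphAt.comp (hf := l1) (hg := JC_ld hJ0) ..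
  have l3 : IsLocalDiffeomorphAt (𝓘(ℝ, ℝ).prod 𝓘(ℝ, ℝ × ℝ)) (𝓘(ℝ, ℝ).prod 𝓘(ℝ, ℂ)) ∞
      (Prod.map (id : ℝ → ℝ) (JC ∘ (Jou ∘ fun q : ℝ × ℝ => V1 P q.1 q.2))) (u, (0, t)) :=
    RSG.ld_prodMap (CSG.ld_id u) l2
  have l4 : LD (fun q : ℝ × ℝ × ℝ => (q.1, JC (Jou (V1 P q.2.1 q.2.2)))) (u, 0, t) := by
    rw [← modelWithCornersSelf_prod, ← modelWithCornersSelf_prod, chartedSpaceSelf_prod, chartedSpaceSelf_prod] at l3
    exact l3
  have l5 : LD (fun q : ℝ × ℂ => pol q.1 q.2) (u, JC (Jou (V1 P 0 t))) := pol_ld hre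
  exact IsLocalDiffeomorphAt.comp (hf := l4) (hg := l5) ..

theorem CrM_V (h : P.Ok) {t : ℝ} (ht : T12 t) : V1 P 0 t = ⟨0, (V1 P 0 t).im⟩ :=
  Complex.ext (V1_zero h ht).1 rfl

theorem Cr_zero (h : P.Ok) (u : ℝ) {t : ℝ} (ht : T12 t) :
    Cr P u 0 t = pol u ((2000000 : ℝ) * ⟨Real.sqrt ((1 / 1000) ^ 2 - (V1 P 0 t).im ^ 2), (V1 P 0 t).im⟩) := by
  obtain ⟨_, hv⟩ := V1_zero h ht
  rw [Cr_pol]
  congr 1
  obtain ⟨hJ, hn⟩ := Jou_imag hv
  rw [CrM_V h ht]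
  simp only
  have h1 : normSq (Jou ⟨0, (V1 P 0 t).im⟩) = (1 / 2000) ^ 2 := by
    rw [Complex.normSq_eq_norm_sq, hn]
  rw [CrB_JC, h1, hJ]
  apply Complex.ext
  · rw [Complex.re_ofReal_mul]
    ring
  · rw [Complex.im_ofReal_mul]
    ring

theorem Cr_rr (h : P.Ok) (u : ℝ) {t : ℝ} (ht : T12 t) : rr (Cr P u 0 t) = 2000 := by
  obtain ⟨_, hv⟩ := V1_zero h ht
  obtain ⟨hJ, hn⟩ := Jou_imag hv
  rw [Cr_pol, rr_pol, norm_JC, CrM_V h ht, hn]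
  norm_num

theorem Cr_per (P : Par) (u p t : ℝ) (m n : ℤ) : Cr P (u + m) p (t + n) = Cr P u p t := by
  rw [Cr_pol, Cr_pol, V1_per]
  unfold pol
  rw [RSG.ex_add_int]

theorem Cr_mir (h : P.Ok) {p t : ℝ} (hp : |p| ≤ 1 / 8) (ht : p ≠ 0 ∨ T12 t) (u : ℝ) : Cr P u p (-t) = mir (Cr P u p t) := by
  have hGV := V1_GV h hp ht
  rw [Cr_pol, Cr_pol, V1_conj h, Jou_conj hGV, CrB_JC_conj, mir_pol]

theorem CrM_re_pos (h : P.Ok) {t : ℝ} (ht : T12 t) : 0 < (JC (Jou (V1 P 0 t))).re := by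
  have hGV := V1_GV h (p := 0) (by simp) (Or.inr ht)
  have hJ := Jou_re hGV
  have hJ0 : Jou (V1 P 0 t) ≠ 0 := by
    intro h1
    rw [h1] at hJ
    simp at hJ
  rw [CrB_JC]
  exact div_pos hJ (Complex.normSq_pos.2 hJ0)

theorem CrM_T12 {t : ℝ} {n : ℤ} (h : T12 (t + n)) : T12 t := by
  intro m hm
  apply h (m + n)
  rw [hm]
  push_cast
  ring

theorem Cr_inj (h : P.Ok) {u u' t t' : ℝ} (ht : T12 t) (ht' : T12 t') (he : Cr P u 0 t = Cr P u' 0 t') :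
    (∃ m : ℤ, u' = u + m) ∧ ∃ n : ℤ, t' = t + n := by
  rw [Cr_pol, Cr_pol] at he
  obtain ⟨hX, hm⟩ := pol_inj (CrM_re_pos h ht) (CrM_re_pos h ht') he
  refine ⟨hm, ?_⟩
  have h1 : Jou (V1 P 0 t) = Jou (V1 P 0 t') := by
    rw [← JC_JC (Jou (V1 P 0 t)), hX, JC_JC]
  have h2 : V1 P 0 t = V1 P 0 t' := by
    rw [← Jou_eq (V1_GV h (p := 0) (by simp) (Or.inr ht)), h1, Jou_eq (V1_GV h (p := 0) (by simp) (Or.inr ht'))]
  obtain ⟨s, n, hs, rfl⟩ := CrB_T12_per ht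
  obtain ⟨s', n', hs', rfl⟩ := CrB_T12_per ht'
  rw [V1_per, V1_per] at h2
  have h3 := (vv_mono h).injOn (abs_lt.1 hs) (abs_lt.1 hs') (congrArg Complex.im h2)
  refine ⟨n' - n, ?_⟩
  rw [h3]
  push_cast
  ring

theorem Cr_surj (h : P.Ok) {x : F3} (hx : rr x = 2000) (hx' : x.1 ≠ 0) : ∃ u t : ℝ, T12 t ∧ x = Cr P u 0 t := by
  obtain ⟨u, X, hre, rfl⟩ := exists_pol hx'
  rw [rr_pol] at hx
  have hsq : X.re ^ 2 + X.im ^ 2 = 2000 ^ 2 := by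
    rw [← hx, ← Complex.normSq_eq_norm_sq, Complex.normSq_apply]
    ring
  have hv : |X.im / 2000000| < 1 / 1000 := by
    rw [abs_div, abs_of_pos (by norm_num : (0 : ℝ) < 2000000), div_lt_iff₀ (by norm_num)]
    apply abs_lt_of_sq_lt_sq _ (by norm_num)
    nlinarith
  obtain ⟨t, ht, htv⟩ := vv_surj h hv
  have hT := CrB_T12' ht
  refine ⟨u, t, hT, ?_⟩
  rw [Cr_zero h u hT, htv]
  congr 1
  have h1 : Real.sqrt ((1 / 1000) ^ 2 - (X.im / 2000000) ^ 2) = X.re / 2000000 := by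
    rw [show (1 / 1000 : ℝ) ^ 2 - (X.im / 2000000) ^ 2 = (X.re / 2000000) ^ 2 by
      have : X.re ^ 2 = 2000 ^ 2 - X.im ^ 2 := by linarith
      linarith]
    exact Real.sqrt_sq (by positivity)
  rw [h1]
  apply Complex.ext
  · rw [Complex.re_ofReal_mul]
    ring
  · rw [Complex.im_ofReal_mul]
    ring

theorem CrM_sin {s : ℝ} (hs : |s| < 1 / 2) : 0 < Real.sin (2 * Real.pi * s) ↔ 0 < s := by
  have hpi := Real.pi_pos
  rw [abs_lt] at hs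
  constructor
  · intro h1
    by_contra h2
    push Not at h2
    have h3 : Real.sin (2 * Real.pi * s) ≤ 0 := by
      apply Real.sin_nonpos_of_nonpos_of_neg_pi_le
      · nlinarith
      · nlinarith
    linarith
  · intro h1
    apply Real.sin_pos_of_pos_of_lt_pi
    · positivity
    · nlinarith

theorem Cr_snd (h : P.Ok) {u t : ℝ} (ht : T12 t) : 0 < (Cr P u 0 t).2 ↔ 0 < Real.sin (2 * Real.pi * t) := by
  rw [Cr_zero h u ht]
  show 0 < (((2000000 : ℝ) : ℂ) * _).im ↔ _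
  rw [Complex.im_ofReal_mul]
  obtain ⟨s, n, hs, rfl⟩ := CrB_T12_per ht
  rw [V1_per, show 2 * Real.pi * (s + n) = 2 * Real.pi * s + n * (2 * Real.pi) by ring,
    Real.sin_add_int_mul_two_pi, CrM_sin hs, ← vv_sign h hs]
  simp only
  constructor
  · intro h1
    linarith
  · intro h1
    linarith

/-- near the half integers the formula `Cr` is valid -/
theorem V1_near (h : P.Ok) {t : ℝ} (ht : T12 t) : ∀ᶠ q : ℝ × ℝ in 𝓝 (0, t), |q.1| ≤ 1 / 8 ∧ ‖V1 P q.1 q.2‖ ≤ 13 / 10000 := by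
  have hc : ContinuousAt (fun q : ℝ × ℝ => ‖V1 P q.1 q.2‖) (0, t) :=
    (CSG.ld_continuousAt (V1_ld h ht)).norm
  obtain ⟨_, hv⟩ := V1_zero h ht
  have h1 : (fun q : ℝ × ℝ => ‖V1 P q.1 q.2‖) (0, t) < 13 / 10000 := by
    show ‖V1 P 0 t‖ < 13 / 10000
    rw [CrM_V h ht]
    have h2 : ‖(⟨0, (V1 P 0 t).im⟩ : ℂ)‖ = |(V1 P 0 t).im| := by
      rw [show (⟨0, (V1 P 0 t).im⟩ : ℂ) = ((V1 P 0 t).im : ℂ) * I by
        apply Complex.ext <;> simp]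
      rw [norm_mul, Complex.norm_I, mul_one, Complex.norm_real, Real.norm_eq_abs]
    rw [h2]
    linarith
  have hc2 : ContinuousAt (fun q : ℝ × ℝ => |q.1|) (0, t) := continuous_fst.abs.continuousAt
  have h3 : (fun q : ℝ × ℝ => |q.1|) (0, t) < 1 / 8 := by
    show |(0 : ℝ)| < 1 / 8
    norm_num
  filter_upwards [hc.eventually_lt_const h1, hc2.eventually_lt_const h3] with q hq hq2
  exact ⟨hq2.le, hq.le⟩

end Pool.Agent.CHW
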