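import Pool.Agent.CSG.FunBasic
import Pool.Agent.CSG.LDa
import Pool.Agent.CSG.LDb
import Pool.Agent.RSG.ExM
import Pool.Agent.RSG.LDc
import Pool.Agent.TS.StepLip

/-!
# CHW/Defs: the chart `W` of the double of the solid torus

`F3 = C × R`, coordinates `(w, h)`; `q2` is the square of the euclidean norm.  The double of the solid torus is
`(F3 - 0) / dilation`, the solid torus is `h > 0`, its boundary torus is `h = 0`.

Open book with disc pages: `NM c (z, T)`, `|z| < 1`, `T` modulo 1.  `NM c (z, 0) = ((z + c) / (z - c), 0)`.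

* `EE c` opens the points `tau c` and `J (tau c)` of the page `1/2` to vertical segments (`|h| ≤ 1000` over `tau c`).
* `A c` : the open shell `1/2000 < |x| < 2000` is mapped onto the complement of the rest of the two vertical lines.
* `W0 = A⁻¹ ∘ EE ∘ NM ∘ (Sv × id)` for `|y| < 1/2`, `Wx` its extension by `y + 1 ↔ dilation by 2000²`.
-/

open scoped Manifold ContDiff Topology
open Set Filter
open Complex (I normSq)

namespace Pool.Agent.CHW

open Pool.Agent.CSG (stp thc)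
open Pool.Agent.RSG (ex)

/-- `C × R` -/
abbrev F3 := ℂ × ℝ

/-- `f` is a local diffeomorphism at `x` -/
abbrev LD {V W : Type*} [NormedAddCommGroup V] [NormedSpace ℝ V] [NormedAddCommGroup W] [NormedSpace ℝ W]
    (f : V → W) (x : V) : Prop := IsLocalDiffeomorphAt 𝓘(ℝ, V) 𝓘(ℝ, W) ∞ f x

/-! ## elementary maps -/

/-- square of the euclidean norm -/
noncomputable def q2 (x : F3) : ℝ := normSq x.1 + x.2 ^ 2
/-- euclidean norm -/
noncomputable def rr (x : F3) : ℝ := Real.sqrt (q2 x)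
/-- the inversion (composed with the conjugation); `w ↦ 1 / w` on the plane `h = 0` -/
noncomputable def Jv (x : F3) : F3 := ((starRingEnd ℂ) x.1 / (q2 x : ℝ), x.2 / q2 x)
/-- translation by a real number -/
noncomputable def tv (a : ℝ) (x : F3) : F3 := (x.1 + (a : ℂ), x.2)
/-- mirror -/
noncomputable def mir (x : F3) : F3 := (x.1, -x.2)
/-- reflection in the plane of real `w` -/
noncomputable def cjv (x : F3) : F3 := ((starRingEnd ℂ) x.1, x.2)

/-- `tau = (1 + c²) / (1 - c²)` -/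
noncomputable def tau (c : ℝ) : ℝ := (1 + c ^ 2) / (1 - c ^ 2)
/-- `gam = (1 - c²) / (2 c)` -/
noncomputable def gam (c : ℝ) : ℝ := (1 - c ^ 2) / (2 * c)

/-! ## the open book with disc pages -/

noncomputable def den (c : ℝ) (z : ℂ) (T : ℝ) : ℝ :=
  2 * normSq (z - c) + (1 - normSq z) * (1 - c ^ 2) * (1 - Real.cos (2 * Real.pi * T))

/-- the point `z` of the page `T` -/
noncomputable def NM (c : ℝ) (p : ℂ × ℝ) : F3 :=
  ((2 * (p.1 + c) * ((starRingEnd ℂ) p.1 - c) +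
      ((1 - normSq p.1) * (1 + c ^ 2) * (1 - Real.cos (2 * Real.pi * p.2)) : ℝ)) / (den c p.1 p.2 : ℝ),
    2 * c * (1 - normSq p.1) * Real.sin (2 * Real.pi * p.2) / den c p.1 p.2)

/-- The same map, centred at `z = c`: `NM c (z, T) = tv (tau c) (NK c ((z - c) / (1 - c z), T))`. -/
noncomputable def NK (c : ℝ) (p : ℂ × ℝ) : F3 :=
  (2 * (starRingEnd ℂ) p.1 / (gam c * ((1 + normSq p.1) - (1 - normSq p.1) * Real.cos (2 * Real.pi * p.2)) : ℝ),
    (1 - normSq p.1) * Real.sin (2 * Real.pi * p.2) /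
      (gam c * ((1 + normSq p.1) - (1 - normSq p.1) * Real.cos (2 * Real.pi * p.2))))

/-- `J (NK c (z', T))` -/
noncomputable def BK (c : ℝ) (p : ℂ × ℝ) : F3 :=
  ((gam c : ℂ) * (2 * p.1) / ((1 + normSq p.1) + (1 - normSq p.1) * Real.cos (2 * Real.pi * p.2) : ℝ),
    gam c * ((1 - normSq p.1) * Real.sin (2 * Real.pi * p.2)) /
      ((1 + normSq p.1) + (1 - normSq p.1) * Real.cos (2 * Real.pi * p.2)))

/-! ## ellipse maps -/

/-- elliptic radius -/
noncomputable def es (B : ℝ) (x : F3) : ℝ := Real.sqrt (normSq x.1 / B ^ 2 + x.2 ^ 2)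

/-- The ellipsoid `es B = s` (semiaxes `B s, s`) is mapped to the ellipsoid with semiaxes `e s, m s`. -/
noncomputable def EM (B : ℝ) (e m : ℝ → ℝ) (x : F3) : F3 :=
  (((e (es B x) / (B * es B x) : ℝ) : ℂ) * x.1, m (es B x) / es B x * x.2)

/-- hypotheses on the profiles -/
structure EMok (a ma : ℝ) (e m : ℝ → ℝ) : Prop where
  nn : 0 ≤ a
  mpos : 0 < ma
  es : ∀ s, a < s → ContDiffAt ℝ ∞ e s
  ms : ∀ s, a < s → ContDiffAt ℝ ∞ m s
  ed : ∀ s, a < s → 0 < deriv e s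
  md : ∀ s, a < s → 0 < deriv m s
  e0 : Tendsto e (𝓝[>] a) (𝓝 0)
  m0 : Tendsto m (𝓝[>] a) (𝓝 ma)
  e1 : Tendsto e atTop atTop
  m1 : Tendsto m atTop atTop

/-- profiles of the Joukowski map, `rho = 1/2000` -/
noncomputable def eO (s : ℝ) : ℝ := s - (1 - stp (3 / 2000) (43 / 2000) s) * ((1 / 2000) ^ 2 / s)
noncomputable def mO (s : ℝ) : ℝ := s + (1 - stp (3 / 2000) (43 / 2000) s) * ((1 / 2000) ^ 2 / s)
/-- the Joukowski map, from `|x| > 1/2000` onto the complement of the segment `w = 0, |h| ≤ 1/1000` -/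
noncomputable def Op : F3 → F3 := EM 1 eO mO

/-- width of the spindle -/
noncomputable def Bc (c : ℝ) : ℝ := c ^ 2 / 2000
noncomputable def kc (c : ℝ) : ℝ := Bc c / 2000
noncomputable def eK (c s : ℝ) : ℝ :=
  (1 - stp 1200 1400 s) * (1000 * Real.sinh (kc c * s)) + stp 1200 1400 s * (Bc c * s)
noncomputable def mK (c s : ℝ) : ℝ :=
  (1 - stp 1200 1400 s) * (1000 * Real.cosh (kc c * s)) + stp 1200 1400 s * s
/-- the opening of `0`, from the complement of `0` onto the complement of the segment `w = 0, |h| ≤ 1000` -/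
noncomputable def EK (c : ℝ) : F3 → F3 := EM (Bc c) (eK c) (mK c)

/-! ## shift, and the maps `A` and `EE` -/

/-- shift near infinity -/
noncomputable def DP (c : ℝ) (x : F3) : F3 := tv (tau c * stp 3 43 (rr x)) x

/-- extension by the symmetry `J` -/
noncomputable def sy (f : F3 → F3) (x : F3) : F3 := by
  classical exact if 1 ≤ q2 x then f x else Jv (f (Jv x))

/-- `A` on `|x| ≥ 1` -/
noncomputable def AP (c : ℝ) (x : F3) : F3 := DP c (Jv (Op (Jv x)))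
noncomputable def A (c : ℝ) : F3 → F3 := sy (AP c)

/-- the inverse of `Op` -/
noncomputable def Opi : F3 → F3 := Function.invFunOn Op {x | 1 / 2000 < rr x}
/-- the inverse of `DP` -/
noncomputable def DPi (c : ℝ) : F3 → F3 := Function.invFun (DP c)
noncomputable def APi (c : ℝ) (x : F3) : F3 := Jv (Opi (Jv (DPi c x)))
/-- the inverse of `A` -/
noncomputable def Ai (c : ℝ) : F3 → F3 := sy (APi c)

noncomputable def EP (c : ℝ) (x : F3) : F3 := tv (tau c) (EK c (tv (-tau c) x))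
noncomputable def EE (c : ℝ) : F3 → F3 := sy (EP c)

/-- the open shell -/
def Sh : Set F3 := {x | 1 / 2000 < rr x ∧ rr x < 2000}
/-- vertical line over `tau`, `|h| ≥ 1000`, and its image under `J` -/
def SlA (c : ℝ) : Set F3 := {x | (x.1 = tau c ∧ 1000 ≤ |x.2|) ∨ x = 0 ∨ (Jv x).1 = tau c ∧ 1000 ≤ |(Jv x).2|}
/-- the segment over `tau`, `|h| ≤ 1000`, and its image under `J` -/
def SlE (c : ℝ) : Set F3 := {x | (x.1 = tau c ∧ |x.2| ≤ 1000) ∨ (x ≠ 0 ∧ (Jv x).1 = tau c ∧ |(Jv x).2| ≤ 1000)}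

/-! ## the planar map -/

/-- `y ↦ log |x|` on the torus: `2π y` for `|y| ≤ 1/8`, `log 2000 - 2π (1/2 - y)` for `|y - 1/2| ≤ 1/8` -/
noncomputable def ell (y : ℝ) : ℝ := 2 * Real.pi * y + (Real.log 2000 - Real.pi) * thc (2 * y)

/-- the point `(u, y)` of the torus -/
noncomputable def Xp (u y : ℝ) : F3 := ((Real.exp (ell y) : ℂ) * ex u, 0)

/-- parameters: size `c`, `r₃` (exact region), `d₁` (support), `G` (correction) -/
structure Par where
  c : ℝ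
  r₃ : ℝ
  d₁ : ℝ
  G : Equiv.Perm ℂ

structure Par.Ok (P : Par) : Prop where
  c_pos : 0 < P.c
  c_le : P.c ≤ P.r₃ / 4
  r₃_pos : 0 < P.r₃
  r₃_le : P.r₃ ≤ P.d₁
  d₁_le : P.d₁ ≤ 1 / 8
  G_smooth : ContDiff ℝ ∞ P.G
  G_symm : ContDiff ℝ ∞ P.G.symm
  G_odd : ∀ w, P.G (-w) = -P.G w
  G_off : ∀ w, P.d₁ / 2 ≤ ‖w‖ → P.G w = w
  G_eq : ∀ w, ‖w‖ ≤ P.r₃ → Complex.tanh (Real.pi * P.G.symm w) = Real.pi * w

variable (P : Par)

/-- correction near the lattice points `i Z`, `w = y + i u` -/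
noncomputable def Gt (w : ℂ) : ℂ := by
  classical exact
    if ‖w - round w.im * I‖ < P.d₁ then P.G.symm (w - round w.im * I) + round w.im * I else w

/-- `c (ξ + 1) / (ξ - 1)`, `ξ` the image under `A` of the point `w = y + i u` of the torus -/
noncomputable def z1 (w : ℂ) : ℂ :=
  P.c * ((A P.c (Xp w.im w.re)).1 + 1) / ((A P.c (Xp w.im w.re)).1 - 1)

/-- `|z₂|` as a function of the distance `s` to the lattice point -/
noncomputable def mu (s : ℝ) : ℝ :=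
  (1 - stp (P.r₃ / 4) (P.r₃ / 2) s) * (s / P.r₃) +
    stp (P.r₃ / 4) (P.r₃ / 2) s *
      ((Real.pi ^ 2 * s ^ 2 - P.c ^ 2) / (Real.pi ^ 2 * s ^ 2 + P.c ^ 2))

/-- radial compression of the plane to the unit disc -/
noncomputable def Rd (z : ℂ) : ℂ :=
  ((Real.sqrt ((1 - mu P (P.c / (Real.pi * ‖z‖))) / (1 + mu P (P.c / (Real.pi * ‖z‖)))) / ‖z‖ : ℝ) : ℂ) * z

/-- the planar map, `|y| < 1/2` -/
noncomputable def Sv (q : ℝ × ℝ) : ℂ := Rd P (z1 P (Gt P (q.2 + q.1 * I)))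

/-! ## the chart -/

/-- `|y| < 1/2` -/
noncomputable def W0 (q : ℝ × ℝ × ℝ) : F3 := Ai P.c (EE P.c (NM P.c (Sv P (q.1, q.2.1), q.2.2)))

/-- complex version of `EM`: `(a, h) = (Re, Im)` -/
noncomputable def EMc (B : ℝ) (e m : ℝ → ℝ) (X : ℂ) : ℂ :=
  ⟨e (Real.sqrt (X.re ^ 2 / B ^ 2 + X.im ^ 2)) / (B * Real.sqrt (X.re ^ 2 / B ^ 2 + X.im ^ 2)) * X.re,
    m (Real.sqrt (X.re ^ 2 / B ^ 2 + X.im ^ 2)) / Real.sqrt (X.re ^ 2 / B ^ 2 + X.im ^ 2) * X.im⟩
/-- complex inversion -/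
noncomputable def JC (X : ℂ) : ℂ := 1 / (starRingEnd ℂ) X

/-- `|z'|` with sign on the torus, `p = 1/2 - y` -/
noncomputable def thp (p : ℝ) : ℝ := 2 * (1 / 2000 / gam P.c) * Real.sinh (2 * Real.pi * p)

/-- complex version of `BK` -/
noncomputable def V0 (p t : ℝ) : ℂ :=
  (gam P.c : ℂ) * ⟨2 * thp P p, (1 - thp P p ^ 2) * Real.sin (2 * Real.pi * t)⟩ /
    ((1 + thp P p ^ 2) + (1 - thp P p ^ 2) * Real.cos (2 * Real.pi * t) : ℝ)

/-- after the opening of the slit -/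
noncomputable def V1 (p t : ℝ) : ℂ := JC (EMc (Bc P.c) (eK P.c) (mK P.c) (JC (V0 P p t)))

/-- the inverse Joukowski map -/
noncomputable def Jou (V : ℂ) : ℂ := (V + (V ^ 2 + 4 * (1 / 2000 : ℂ) ^ 2) ^ (1 / 2 : ℂ)) / 2

/-- the chart near `y = 1/2`, `p = 1/2 - y` -/
noncomputable def Cr (u p t : ℝ) : F3 :=
  (((JC (Jou (V1 P p t))).re : ℂ) * ex u, (JC (Jou (V1 P p t))).im)

/-- the chart -/
noncomputable def Wx (q : ℝ × ℝ × ℝ) : F3 := by
  classical exact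
    if q.2.1 = ⌊q.2.1 + 1 / 2⌋ - 1 / 2 then (4000000 : ℝ) ^ (⌊q.2.1 + 1 / 2⌋ - 1) • Cr P q.1 0 q.2.2
    else (4000000 : ℝ) ^ ⌊q.2.1 + 1 / 2⌋ • W0 P (q.1, q.2.1 - ⌊q.2.1 + 1 / 2⌋, q.2.2)

/-! ## good points -/

/-- on the binding -/
def OnB (q : ℝ × ℝ × ℝ) : Prop := ∃ m n : ℤ, q.1 = m ∧ q.2.1 = n
/-- on `K` -/
def OnK (q : ℝ × ℝ × ℝ) : Prop := ∃ m n : ℤ, q.2.1 = m + 1 / 2 ∧ q.2.2 = n + 1 / 2
/-- neither on the binding nor on `K` -/
def Gd (q : ℝ × ℝ × ℝ) : Prop := ¬ OnB q ∧ ¬ OnK q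

/-- binding chart: `ζ = s e^{2πi(t - 1/2)}`, `s` = distance to the binding -/
noncomputable def Wb0 (θ : ℝ) (ζ : ℂ) : F3 :=
  let a : ℝ := Real.sqrt (1 - normSq ζ / P.r₃ ^ 2)
  ((((1 + ζ.re / P.r₃) - P.c ^ 2 * (1 - ζ.re / P.r₃) : ℝ) + 2 * P.c * a * (ex θ).im * I : ℂ) /
      (((1 + ζ.re / P.r₃) - 2 * P.c * a * (ex θ).re + P.c ^ 2 * (1 - ζ.re / P.r₃) : ℝ) : ℂ),
    -(2 * P.c * (ζ.im / P.r₃)) /
      ((1 + ζ.re / P.r₃) - 2 * P.c * a * (ex θ).re + P.c ^ 2 * (1 - ζ.re / P.r₃)))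

end Pool.Agent.CHW
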