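import Pool.Agent.CHW.WxM

/-!
# CHW/WxI: injectivity and image of `Wx`   (difficulty 2)

`L = 4000000 = 2000²`.  Sizes: `|y - n| < 1/2`: `Wx (u, y, t) ∈ L^n • Sh`, i.e. `L^n / 2000 < rr < L^n 2000`; `y = n + 1/2`: `rr = L^n 2000` (`Cr_rr`).  The intervals
`(L^n/2000, 2000 L^n)` and the points `2000 L^n = L^(n+1)/2000` partition `(0, ∞)`.
* `Wx_inj`: by the sizes `n` is the same and both points are of the same type; `W0_inj` / `Cr_inj`.
* `KA P`: the open arc of the core of `K`.  `Wx_cover`: let `rr x ∈ L^n • (1/2000, 2000)`: `W0_cover` for `L^(-n) • x ∈ Sh` (`A (Jv x) = Jv (A x)` is not needed: the fourth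
  alternative says `Jv x ∈ KA`).  `rr x = 2000 L^n`: `Cr_surj` if `x.1 ≠ 0`, else `x = L^n • (0, ± 2000)`.
* `Wx_notK`, `Wx_notB`: by the sizes reduce to `W0` and `Sh`; `A (W0 ..) ∈ Nn` (`A_W0`), so `(A ..).1 ≠ tau` and `(Jv (A ..)).1 = (A (Jv ..)).1 ≠ tau`; `W0_circle`; `Cr u 0 t` has
  first component `≠ 0` (`Cr_zero`).  Points of the circle and of `KA` are in `Sh`.
-/

open scoped Manifold ContDiff Topology
open Set Filter
open Complex (I normSq)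

namespace Pool.Agent.CHW

open Pool.Agent.CSG (stp thc)
open Pool.Agent.RSG (ex)

/-- the open arc of the core of `K` -/
def KA (P : Par) : Set F3 := {x | x ∈ Sh ∧ (A P.c x).1 = tau P.c ∧ |(A P.c x).2| < 1000}
/-- the binding -/
def BC (P : Par) : Set F3 := {x | x.2 = 0 ∧ ‖x.1 - tau P.c‖ = 1 / gam P.c}
/-- the core of `K`, modulo `4000000` -/
def KS (P : Par) : Set F3 := {x | x ∈ KA P ∨ Jv x ∈ KA P ∨ x = (0, 2000) ∨ x = (0, -2000)}

variable {P : Par}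


/-! ## helpers -/

theorem WxI_part {r r' : ℝ} (h1 : 1 / 2000 < r) (h2 : r ≤ 2000) (h1' : 1 / 2000 < r') (h2' : r' ≤ 2000) {n m : ℤ}
    (e : (4000000 : ℝ) ^ n * r = (4000000 : ℝ) ^ m * r') : n = m := by
  have key : ∀ {a b : ℝ} {i j : ℤ}, 1 / 2000 < b → a ≤ 2000 → i < j →
      (4000000 : ℝ) ^ i * a < (4000000 : ℝ) ^ j * b := by
    intro a b i j hb ha hij
    have hp : (0 : ℝ) < (4000000 : ℝ) ^ i := by positivity
    have h3 : (4000000 : ℝ) ^ i * 4000000 ≤ (4000000 : ℝ) ^ j := by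
      rw [← zpow_add_one₀ (by norm_num)]
      exact zpow_le_zpow_right₀ (by norm_num) (by omega)
    have h4 : (4000000 : ℝ) ^ i * a ≤ (4000000 : ℝ) ^ i * 2000 := by gcongr
    have h5 : (4000000 : ℝ) ^ i * 2000 < (4000000 : ℝ) ^ i * 4000000 * b := by
      rw [mul_assoc]
      apply mul_lt_mul_of_pos_left _ hp
      linarith
    have h6 : (4000000 : ℝ) ^ i * 4000000 * b ≤ (4000000 : ℝ) ^ j * b := by
      apply mul_le_mul_of_nonneg_right h3 (by linarith)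
    linarith
  rcases lt_trichotomy n m with h | h | h
  · exact absurd e (key h1' h2 h).ne
  · exact h
  · exact absurd e.symm (key h1 h2' h).ne

theorem WxI_partv {x x' : F3} (h1 : 1 / 2000 < rr x) (h2 : rr x ≤ 2000) (h1' : 1 / 2000 < rr x') (h2' : rr x' ≤ 2000)
    {n m : ℤ} (e : (4000000 : ℝ) ^ n • x = (4000000 : ℝ) ^ m • x') : n = m ∧ x = x' := by
  have h := congrArg rr e
  rw [rr_smul, rr_smul, abs_of_pos (by positivity : (0 : ℝ) < (4000000 : ℝ) ^ n),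
    abs_of_pos (by positivity : (0 : ℝ) < (4000000 : ℝ) ^ m)] at h
  have hn := WxI_part h1 h2 h1' h2' h
  refine ⟨hn, ?_⟩
  subst hn
  have hp : ((4000000 : ℝ) ^ n) ≠ 0 := by positivity
  exact smul_right_injective F3 hp e

/-- the two types of good points -/
theorem WxI_cases (h : P.Ok) {u y t : ℝ} (hq : Gd (u, y, t)) :
    ∃ (n : ℤ) (v : F3), Wx P (u, y, t) = (4000000 : ℝ) ^ n • v ∧ 1 / 2000 < rr v ∧ rr v ≤ 2000 ∧
      ((|y - n| < 1 / 2 ∧ ¬ LatU u (y - n) ∧ v = W0 P (u, y - n, t) ∧ v ∈ Sh) ∨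
        (y = n + 1 / 2 ∧ T12 t ∧ v = Cr P u 0 t ∧ rr v = 2000)) := by
  rcases Gd_cases hq with ⟨n, hy, hl⟩ | ⟨n, hy, ht⟩
  · have hs := W0_Sh h t hy hl
    exact ⟨n, W0 P (u, y - n, t), Wx_W0 P hy u t, hs.1, hs.2.le, Or.inl ⟨hy, hl, rfl, hs⟩⟩
  · have hr := Cr_rr h u ht
    refine ⟨n, Cr P u 0 t, ?_, by rw [hr]; norm_num, by rw [hr], Or.inr ⟨hy, ht, rfl, hr⟩⟩
    rw [hy]; exact Wx_half P n u t

theorem WxI_Gd0 {u y t : ℝ} {n : ℤ} (hy : |y - n| < 1 / 2) (hl : ¬ LatU u (y - n)) : Gd (u, y, t) := by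
  rw [abs_lt] at hy
  refine ⟨?_, ?_⟩
  · rintro ⟨m, k, hm, hk⟩
    simp only at hm hk
    exact hl ⟨m, k - n, hm, by rw [hk]; push_cast; ring⟩
  · rintro ⟨m, k, hm, hk⟩
    simp only at hm hk
    have h1 : (m : ℝ) < n := by linarith [hy.2]
    have h2 : (n : ℝ) < m + 1 := by linarith [hy.1]
    have h3 : m < n := by exact_mod_cast h1
    have h4 : n < m + 1 := by exact_mod_cast h2
    omega

theorem WxI_Gd1 {u t : ℝ} (n : ℤ) (ht : T12 t) : Gd (u, (n : ℝ) + 1 / 2, t) := by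
  refine ⟨?_, ?_⟩
  · rintro ⟨m, k, hm, hk⟩
    simp only at hm hk
    have h1 : (2 : ℝ) * n + 1 = 2 * k := by linarith
    have h2 : 2 * n + 1 = 2 * k := by exact_mod_cast h1
    omega
  · rintro ⟨m, k, hm, hk⟩
    simp only at hm hk
    exact ht k hk

theorem WxI_axis {k : F3} (hk : k = (0, 2000) ∨ k = (0, -2000)) : rr k = 2000 ∧ k.1 = 0 := by
  rcases hk with rfl | rfl
  · refine ⟨?_, rfl⟩
    unfold rr q2
    rw [show Complex.normSq (0 : ℂ) + (2000 : ℝ) ^ 2 = 2000 ^ 2 by simp]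
    exact Real.sqrt_sq (by norm_num)
  · refine ⟨?_, rfl⟩
    unfold rr q2
    rw [show Complex.normSq (0 : ℂ) + (-2000 : ℝ) ^ 2 = 2000 ^ 2 by simp]
    exact Real.sqrt_sq (by norm_num)

theorem WxI_Cr_fst (h : P.Ok) (u : ℝ) {t : ℝ} (ht : T12 t) : (Cr P u 0 t).1 ≠ 0 := by
  rw [Cr_zero h u ht]
  have h1 := (V1_zero h ht).2
  have h2 : 0 < Real.sqrt ((1 / 1000) ^ 2 - (V1 P 0 t).im ^ 2) := by
    apply Real.sqrt_pos.2
    rw [sub_pos, ← sq_abs ((V1 P 0 t).im)]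
    exact pow_lt_pow_left₀ h1 (abs_nonneg _) (by norm_num)
  rw [pol_smul]
  intro h3
  have h4 : (2000000 : ℝ) • (((Real.sqrt ((1 / 1000) ^ 2 - (V1 P 0 t).im ^ 2) : ℝ) : ℂ) * ex u) = 0 := h3
  rw [smul_eq_zero] at h4
  rcases h4 with h4 | h4
  · norm_num at h4
  · rcases mul_eq_zero.1 h4 with h5 | h5
    · exact h2.ne' (by exact_mod_cast h5)
    · exact Pool.Agent.RSG.ex_ne u h5

/-- the sizes of the points of `KS` -/
theorem WxI_KS (h : P.Ok) {k : F3} (hk : k ∈ KS P) :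
    (k ∈ Sh ∧ ((A P.c k).1 = tau P.c ∨ (Jv (A P.c k)).1 = tau P.c)) ∨ (rr k = 2000 ∧ k.1 = 0) := by
  obtain ⟨hc0, -, hc1⟩ := Ok_c h
  rcases hk with hk | hk | hk
  · exact Or.inl ⟨hk.1, Or.inl hk.2.1⟩
  · have hs : k ∈ Sh := Sh_Jv.1 hk.1
    refine Or.inl ⟨hs, Or.inr ?_⟩
    rw [← A_Jv hc0 hc1 hs]; exact hk.2.1
  · exact Or.inr (WxI_axis hk)

theorem WxI_BC (h : P.Ok) {b : F3} (hb : b ∈ BC P) : b ∈ Sh ∧ A P.c b = b ∧ b ∈ Nn P.c ∧ 1 / 3 ≤ rr b ∧ rr b ≤ 3 := by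
  obtain ⟨h1, h2, h3, -, h4, h5⟩ := circle_A h hb.1 hb.2
  exact ⟨h1, h2, h3, h4, h5⟩

theorem Wx_size (h : P.Ok) {u y t : ℝ} (hq : Gd (u, y, t)) {n : ℤ} (hy : |y - n| < 1 / 2) :
    (4000000 : ℝ) ^ (-n) • Wx P (u, y, t) ∈ Sh := by
  obtain ⟨m, v, he, -, -, hc | hc⟩ := WxI_cases h hq
  · have hmn : m = n := by
      have h1 := abs_lt.1 hy
      have h2 := abs_lt.1 hc.1
      have h3 : (m : ℝ) < n + 1 := by linarith [h1.2, h2.1]
      have h4 : (n : ℝ) < m + 1 := by linarith [h1.1, h2.2]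
      have h5 : m < n + 1 := by exact_mod_cast h3
      have h6 : n < m + 1 := by exact_mod_cast h4
      omega
    subst hmn
    rw [he, smul_smul, ← zpow_add₀ (by norm_num), neg_add_cancel, zpow_zero, one_smul]
    exact hc.2.2.2
  · exfalso
    have h1 := abs_lt.1 hy
    rw [hc.1] at h1
    have h3 : (m : ℝ) < n := by linarith [h1.2]
    have h4 : (n : ℝ) < m + 1 := by linarith [h1.1]
    have h5 : m < n := by exact_mod_cast h3
    have h6 : n < m + 1 := by exact_mod_cast h4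
    omega
theorem Wx_inj (h : P.Ok) {q q' : ℝ × ℝ × ℝ} (hq : Gd q) (hq' : Gd q') (he : Wx P q = Wx P q') :
    ∃ m n : ℤ, q'.1 = q.1 + m ∧ q'.2.1 = q.2.1 ∧ q'.2.2 = q.2.2 + n := by
  obtain ⟨u, y, t⟩ := q
  obtain ⟨u', y', t'⟩ := q'
  obtain ⟨n, v, e1, s1, s2, hc⟩ := WxI_cases h hq
  obtain ⟨n', v', e1', s1', s2', hc'⟩ := WxI_cases h hq'
  rw [e1, e1'] at he
  obtain ⟨hn, hv⟩ := WxI_partv s1 s2 s1' s2' he
  subst hn
  subst hv
  simp only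
  rcases hc with ⟨a1, a2, a3, a4⟩ | ⟨a1, a2, a3, a4⟩ <;> rcases hc' with ⟨b1, b2, b3, b4⟩ | ⟨b1, b2, b3, b4⟩
  · rw [a3] at b3
    obtain ⟨c1, ⟨m, c2⟩, ⟨k, c3⟩⟩ := W0_inj h a1 a2 b1 b2 b3
    exact ⟨m, k, c2, by linarith, c3⟩
  · exact absurd a4.2 (by rw [b4]; exact lt_irrefl _)
  · exact absurd b4.2 (by rw [a4]; exact lt_irrefl _)
  · rw [a3] at b3
    obtain ⟨⟨m, c2⟩, ⟨k, c3⟩⟩ := Cr_inj h a2 b2 b3
    exact ⟨m, k, c2, by rw [a1, b1], c3⟩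
theorem Wx_cover (h : P.Ok) {x : F3} (hx : x ≠ 0) :
    (∃ q, Gd q ∧ x = Wx P q) ∨ (∃ n : ℤ, ∃ b ∈ BC P, x = (4000000 : ℝ) ^ n • b) ∨
      ∃ n : ℤ, ∃ k ∈ KS P, x = (4000000 : ℝ) ^ n • k := by
  have hr : 0 < rr x := rr_pos hx
  obtain ⟨n, hn1, hn2⟩ := exists_mem_Ioc_zpow (show 0 < 2000 * rr x by positivity) (show (1 : ℝ) < 4000000 by norm_num)
  have hL : (0 : ℝ) < (4000000 : ℝ) ^ n := by positivity
  obtain ⟨x', hx'⟩ : ∃ x' : F3, x = (4000000 : ℝ) ^ n • x' :=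
    ⟨(4000000 : ℝ) ^ (-n) • x, by rw [smul_smul, ← zpow_add₀ (by norm_num), add_neg_cancel, zpow_zero, one_smul]⟩
  have hrx : rr x = (4000000 : ℝ) ^ n * rr x' := by rw [hx', rr_smul, abs_of_pos hL]
  rw [zpow_add_one₀ (by norm_num), hrx] at hn2
  rw [hrx] at hn1
  have s1 : 1 / 2000 < rr x' := by
    have : (4000000 : ℝ) ^ n * 1 < (4000000 : ℝ) ^ n * (2000 * rr x') := by linarith
    have := lt_of_mul_lt_mul_left this hL.le
    linarith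
  have s2 : rr x' ≤ 2000 := by
    have : (4000000 : ℝ) ^ n * (2000 * rr x') ≤ (4000000 : ℝ) ^ n * 4000000 := by linarith
    have := le_of_mul_le_mul_left this hL
    linarith
  rcases s2.lt_or_eq with s3 | s3
  · rcases W0_cover h (x := x') ⟨s1, s3⟩ with ⟨u, y, t, hy, hl, he⟩ | hb | hk | hk
    · left
      have hy' : |y + n - n| < 1 / 2 := by rwa [add_sub_cancel_right]
      have hl' : ¬ LatU u (y + n - n) := by rwa [add_sub_cancel_right]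
      refine ⟨(u, y + n, t), WxI_Gd0 hy' hl', ?_⟩
      rw [Wx_W0 P hy' u t, add_sub_cancel_right, ← he, hx']
    · right; left
      exact ⟨n, x', hb, hx'⟩
    · right; right
      exact ⟨n, x', Or.inl ⟨⟨s1, s3⟩, hk.1, hk.2⟩, hx'⟩
    · right; right
      exact ⟨n, x', Or.inr (Or.inl ⟨Sh_Jv.2 ⟨s1, s3⟩, hk.1, hk.2⟩), hx'⟩
  · by_cases h0 : x'.1 = 0
    · right; right
      refine ⟨n, x', Or.inr (Or.inr ?_), hx'⟩
      have h1 : rr x' ^ 2 = q2 x' := rr_sq x'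
      unfold q2 at h1
      rw [s3, h0, map_zero, zero_add] at h1
      have h2 : (x'.2 - 2000) * (x'.2 + 2000) = 0 := by linarith
      rcases mul_eq_zero.1 h2 with h3 | h3
      · left; exact Prod.ext h0 (by simpa using sub_eq_zero.1 h3)
      · right; exact Prod.ext h0 (by simpa using eq_neg_of_add_eq_zero_left h3)
    · obtain ⟨u, t, ht, he⟩ := Cr_surj h s3 h0
      left
      refine ⟨(u, n + 1 / 2, t), WxI_Gd1 n ht, ?_⟩
      rw [Wx_half, ← he, hx']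
theorem Wx_notB (h : P.Ok) {q : ℝ × ℝ × ℝ} (hq : Gd q) {b : F3} (hb : b ∈ BC P) (n : ℤ) : Wx P q ≠ (4000000 : ℝ) ^ n • b := by
  obtain ⟨u, y, t⟩ := q
  intro he
  obtain ⟨m, v, e1, s1, s2, hc⟩ := WxI_cases h hq
  obtain ⟨b1, -⟩ := WxI_BC h hb
  rw [e1] at he
  obtain ⟨-, hv⟩ := WxI_partv s1 s2 b1.1 b1.2.le he
  rcases hc with ⟨a1, a2, a3, a4⟩ | ⟨a1, a2, a3, a4⟩
  · apply W0_circle h (t := t) a1 a2
    rw [← a3, hv]; exact hb
  · rw [hv] at a4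
    exact absurd b1.2 (by rw [a4]; exact lt_irrefl _)
theorem Wx_notK (h : P.Ok) {q : ℝ × ℝ × ℝ} (hq : Gd q) {k : F3} (hk : k ∈ KS P) (n : ℤ) : Wx P q ≠ (4000000 : ℝ) ^ n • k := by
  obtain ⟨u, y, t⟩ := q
  intro he
  obtain ⟨m, v, e1, s1, s2, hc⟩ := WxI_cases h hq
  rw [e1] at he
  rcases WxI_KS h hk with ⟨k1, k2⟩ | ⟨k1, k2⟩
  · obtain ⟨-, hv⟩ := WxI_partv s1 s2 k1.1 k1.2.le he
    rcases hc with ⟨a1, a2, a3, a4⟩ | ⟨a1, a2, a3, a4⟩
    · have hN := (A_W0 h t a1 a2).2.2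
      rw [← a3, hv] at hN
      rcases k2 with k2 | k2
      · exact hN.2.1 k2
      · exact hN.2.2 k2
    · rw [hv] at a4
      exact absurd k1.2 (by rw [a4]; exact lt_irrefl _)
  · obtain ⟨-, hv⟩ := WxI_partv s1 s2 (by rw [k1]; norm_num) k1.le he
    rcases hc with ⟨a1, a2, a3, a4⟩ | ⟨a1, a2, a3, a4⟩
    · rw [hv] at a4
      exact absurd a4.2 (by rw [k1]; exact lt_irrefl _)
    · apply WxI_Cr_fst h u a2
      rw [← a3, hv]; exact k2
/-- the binding and the core are disjoint (the centre `tau` is not on the circle) -/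
theorem BC_KS (h : P.Ok) {b k : F3} (hb : b ∈ BC P) (hk : k ∈ KS P) (n : ℤ) : b ≠ (4000000 : ℝ) ^ n • k := by
  intro he
  obtain ⟨b1, b2, b3, b4, b5⟩ := WxI_BC h hb
  have he' : (4000000 : ℝ) ^ (0 : ℤ) • b = (4000000 : ℝ) ^ n • k := by rw [zpow_zero, one_smul]; exact he
  rcases WxI_KS h hk with ⟨k1, k2⟩ | ⟨k1, k2⟩
  · obtain ⟨-, hv⟩ := WxI_partv b1.1 b1.2.le k1.1 k1.2.le he'
    rw [← hv, b2] at k2
    rcases k2 with k2 | k2
    · exact b3.2.1 k2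
    · exact b3.2.2 k2
  · obtain ⟨-, hv⟩ := WxI_partv b1.1 b1.2.le (by rw [k1]; norm_num) k1.le he'
    rw [hv, k1] at b5
    norm_num at b5

end Pool.Agent.CHW
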