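import Pool.Agent.CHW.RlM
import Pool.Agent.CHW.WxI

/-!
# CHW/E0M: lifted coordinates near the page `0`   (difficulty 2)

`e0 (u, y, t) = (u + arg (x.1 ex (-u))/2π, log (rr x), x.2/rr x)`, `x = Rl (Wx (u, y, t))`, on the open set `De` of the good points with distance `> d₁/2` to the lattice, `|t| < 1/2` and
`x.1 ex (-u)` in the slit plane.
* `cyl_e0`: `x.1 = |x.1| ex (u + arg (..)/2π)` (`RSG.ex_arg`), `|x.1| = rr x √(1 - X²)`.
* `e0_page`: for `t = 0`: `x = cyl (u, y, 0)` (`Wx_page0`, `Rl_Xp`), `x.1 ex (-u) = e^y > 0`.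
* `e0_smooth`: `Wx_ld`, `Rl_ld` are smooth, `arg` is smooth on the slit plane.
* `e0_bij`: `cyl ∘ e0 = Rl ∘ Wx` near every point of `De`, `|X| < 1`; `Rl ∘ Wx` and `cyl` are local diffeomorphisms, so `e0` is one (`CSG.ld_of_comp_right`), so its derivative is
  bijective (`IsLocalDiffeomorphAt.mfderivToContinuousLinearEquiv` or the chain rule with the local inverse).
* `e0_sign`: `X = x.2/rr x` has the sign of `sin 2πt`, i.e. of `t` for `|t| < 1/2` (`Wx_pos`, `Wx_zero`, `Wx_mir`).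
* `e0_deriv`: at `(u, y, 0)`: `e0 (u', y', 0) = (u', y', 0)` near `(u, y)`, so `D e0 (a, b', 0) = (a, b', 0)`; `(D e0 (0, 0, 1)).2.2 ≥ 0` by the sign, and `≠ 0` since `D e0` is bijective (the plane
  `X = 0` is already the image of the plane `t = 0`).
* `e0_per`: `Wx (u + m, y + n, t) = L^n • Wx (u, y, t)`, `Rl_smul`, `ex` periodic.
-/

open scoped Manifold ContDiff Topology
open Set Filter
open Complex (I normSq)

namespace Pool.Agent.CHW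

open Pool.Agent.CSG (stp thc)
open Pool.Agent.RSG (ex)

noncomputable def e0 (P : Par) (q : ℝ × ℝ × ℝ) : ℝ × ℝ × ℝ :=
  (q.1 + Complex.arg ((Rl (Wx P q)).1 * ex (-q.1)) / (2 * Real.pi), Real.log (rr (Rl (Wx P q))), (Rl (Wx P q)).2 / rr (Rl (Wx P q)))
/-- the domain -/
def De (P : Par) : Set (ℝ × ℝ × ℝ) :=
  {q | Gd q ∧ (∀ m n : ℤ, (P.d₁ / 2) ^ 2 < (q.1 - m) ^ 2 + (q.2.1 - n) ^ 2) ∧ |q.2.2| < 1 / 2 ∧
    (Rl (Wx P q)).1 * ex (-q.1) ∈ Complex.slitPlane}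

variable {P : Par}

theorem E0M_d (h : P.Ok) : 0 < P.d₁ := lt_of_lt_of_le h.r₃_pos h.r₃_le

theorem E0M_ld (h : P.Ok) {q : ℝ × ℝ × ℝ} (hq : Gd q) : LD (fun q => Rl (Wx P q)) q := by
  have h1 := Wx_ld h hq
  have h2 := Rl_ld (Wx_ne h hq)
  exact IsLocalDiffeomorphAt.comp (hf := h1) (hg := h2) ..

theorem E0M_sm (h : P.Ok) {q : ℝ × ℝ × ℝ} (hq : Gd q) : ContDiffAt ℝ ∞ (fun q => Rl (Wx P q)) q :=
  (E0M_ld h hq).contMDiffAt.contDiffAt

theorem E0M_gsm (h : P.Ok) {q : ℝ × ℝ × ℝ} (hq : Gd q) : ContDiffAt ℝ ∞ (fun q => (Rl (Wx P q)).1 * ex (-q.1)) q := by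
  have h1 := E0M_sm h hq
  have h2 : ContDiffAt ℝ ∞ (fun q : ℝ × ℝ × ℝ => ex (-q.1)) q :=
    (RSG.ex_smooth.comp (contDiff_fst.neg)).contDiffAt
  exact h1.fst.mul h2

/-- lattice condition -/
theorem E0M_lat_open (d : ℝ) : IsOpen {q : ℝ × ℝ × ℝ | ∀ m n : ℤ, (d / 2) ^ 2 < (q.1 - m) ^ 2 + (q.2.1 - n) ^ 2} := by
  have e1 : {q : ℝ × ℝ × ℝ | ∀ m n : ℤ, (d / 2) ^ 2 < (q.1 - m) ^ 2 + (q.2.1 - n) ^ 2} =
      {q : ℝ × ℝ × ℝ | (d / 2) ^ 2 < ‖((q.1 : ℝ) : UnitAddCircle)‖ ^ 2 + ‖((q.2.1 : ℝ) : UnitAddCircle)‖ ^ 2} := by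
    ext q
    simp only [mem_ofPred_eq, UnitAddCircle.norm_eq, sq_abs]
    constructor
    · intro hq
      exact hq (round q.1) (round q.2.1)
    · intro hq m n
      have h1 : (q.1 - round q.1) ^ 2 ≤ (q.1 - m) ^ 2 := sq_le_sq.2 (round_le q.1 m)
      have h2 : (q.2.1 - round q.2.1) ^ 2 ≤ (q.2.1 - n) ^ 2 := sq_le_sq.2 (round_le q.2.1 n)
      linarith
  rw [e1]
  have hc : Continuous (fun x : ℝ => ‖(x : UnitAddCircle)‖) := continuous_norm.comp (AddCircle.continuous_mk' 1)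
  exact isOpen_lt continuous_const (((hc.comp continuous_fst).pow 2).add ((hc.comp (continuous_fst.comp continuous_snd)).pow 2))

theorem De_open (h : P.Ok) : IsOpen (De P) := by
  rw [isOpen_iff_mem_nhds]
  rintro q ⟨h1, h2, h3, h4⟩
  have k1 := Gd_open.mem_nhds (show q ∈ {q | Gd q} from h1)
  have k2 := (E0M_lat_open P.d₁).mem_nhds (show q ∈ {q : ℝ × ℝ × ℝ | ∀ m n : ℤ, (P.d₁ / 2) ^ 2 < (q.1 - m) ^ 2 + (q.2.1 - n) ^ 2} from h2)
  have k3 : {q : ℝ × ℝ × ℝ | |q.2.2| < 1 / 2} ∈ 𝓝 q :=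
    (isOpen_lt (by fun_prop) continuous_const).mem_nhds h3
  have k4 := (E0M_gsm h h1).continuousAt.eventually_mem (Complex.isOpen_slitPlane.mem_nhds h4)
  filter_upwards [k1, k2, k3, k4] with z z1 z2 z3 z4
  exact ⟨z1, z2, z3, z4⟩

theorem E0M_gd0 {d u y : ℝ} (hd : 0 < d) (hn : ∀ m n : ℤ, (d / 2) ^ 2 ≤ (u - m) ^ 2 + (y - n) ^ 2) : Gd (u, y, 0) := by
  refine ⟨?_, ?_⟩
  · rintro ⟨m, n, h1, h2⟩
    have := hn m n
    simp only at h1 h2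
    rw [h1, h2] at this
    have h3 : 0 < (d / 2) ^ 2 := by positivity
    simp at this
    nlinarith
  · rintro ⟨m, n, _, h2⟩
    simp only at h2
    have h3 : (2 * n + 1 : ℤ) = 0 := by
      have : (2 * (n : ℝ) + 1) = 0 := by linarith
      exact_mod_cast this
    omega

theorem E0M_cyl_fst (u y : ℝ) : (cyl (u, y, 0)).1 * ex (-u) = (Real.exp y : ℝ) := by
  simp only [cyl, Prod.smul_fst]
  have h1 : ex u * ex (-u) = 1 := by rw [← RSG.ex_add, add_neg_cancel, RSG.ex_zero]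
  have h2 : Real.sqrt (1 - (0 : ℝ) ^ 2) = 1 := by simp
  rw [h2, Complex.real_smul, Complex.ofReal_one, one_mul, mul_assoc, h1, mul_one]

theorem De_page (h : P.Ok) {u y : ℝ} (hd : ∀ m n : ℤ, (P.d₁ / 2) ^ 2 < (u - m) ^ 2 + (y - n) ^ 2) : (u, y, 0) ∈ De P := by
  have hd' : ∀ m n : ℤ, (P.d₁ / 2) ^ 2 ≤ (u - m) ^ 2 + (y - n) ^ 2 := fun m n => (hd m n).le
  refine ⟨E0M_gd0 (E0M_d h) hd', hd, by norm_num, ?_⟩
  rw [Wx_page0 h hd', Rl_Xp, E0M_cyl_fst, Complex.ofReal_mem_slitPlane]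
  exact Real.exp_pos y

theorem E0M_shift (q : ℝ × ℝ × ℝ) (m n : ℤ) : Rl (Wx P (q.1 + m, q.2.1 + n, q.2.2)) = Real.exp n • Rl (Wx P q) := by
  have h1 : Wx P (q.1 + m, q.2.1 + n, q.2.2) = (4000000 : ℝ) ^ n • Wx P q := by
    rw [Wx_per_y]
    have := Wx_per P q.1 q.2.1 q.2.2 m 0
    rw [Int.cast_zero, add_zero] at this
    rw [this]
  rw [h1, Rl_smul]

theorem E0M_gshift (q : ℝ × ℝ × ℝ) (m n : ℤ) : (Rl (Wx P (q.1 + m, q.2.1 + n, q.2.2))).1 * ex (-(q.1 + m)) =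
    (Real.exp n : ℝ) * ((Rl (Wx P q)).1 * ex (-q.1)) := by
  rw [E0M_shift]
  have h1 : ex (-(q.1 + m)) = ex (-q.1) := by
    have := RSG.ex_add_int (-q.1) (-m)
    rw [← this]
    congr 1
    push_cast
    ring
  rw [h1, Prod.smul_fst, Complex.real_smul, mul_assoc]

theorem E0M_slit {r : ℝ} (hr : 0 < r) {z : ℂ} (hz : z ∈ Complex.slitPlane) : (r : ℂ) * z ∈ Complex.slitPlane := by
  rw [Complex.mem_slitPlane_iff] at hz ⊢
  rcases hz with hz | hz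
  · left
    rw [Complex.re_ofReal_mul]
    exact mul_pos hr hz
  · right
    rw [Complex.im_ofReal_mul]
    exact mul_ne_zero hr.ne' hz

theorem De_per {q : ℝ × ℝ × ℝ} (hq : q ∈ De P) (m n : ℤ) : (q.1 + m, q.2.1 + n, q.2.2) ∈ De P := by
  obtain ⟨h1, h2, h3, h4⟩ := hq
  refine ⟨?_, ?_, h3, ?_⟩
  · have := (Gd_shift (u := q.1) (y := q.2.1) (t := q.2.2) m n 0).2 h1
    simpa using this
  · intro m' n'
    have := h2 (m' - m) (n' - n)
    push_cast at this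
    simp only
    have e1 : q.1 + m - m' = q.1 - (m' - m) := by ring
    have e2 : q.2.1 + n - n' = q.2.1 - (n' - n) := by ring
    rw [e1, e2]
    exact this
  · show (Rl (Wx P (q.1 + m, q.2.1 + n, q.2.2))).1 * ex (-(q.1 + m)) ∈ Complex.slitPlane
    rw [E0M_gshift]
    exact E0M_slit (Real.exp_pos _) h4

theorem e0_per (q : ℝ × ℝ × ℝ) (hq : Wx P q ≠ 0) (m n : ℤ) :
    e0 P (q.1 + m, q.2.1 + n, q.2.2) = ((e0 P q).1 + m, (e0 P q).2.1 + n, (e0 P q).2.2) := by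
  have hr := rr_pos (Rl_ne hq)
  have he := Real.exp_pos (n : ℝ)
  unfold e0
  simp only [Prod.mk.injEq]
  refine ⟨?_, ?_, ?_⟩
  · rw [E0M_gshift, Complex.arg_real_mul _ he]
    ring
  · rw [E0M_shift, rr_smul, abs_of_pos he, Real.log_mul he.ne' hr.ne', Real.log_exp]
    ring
  · rw [E0M_shift, rr_smul, abs_of_pos he, Prod.smul_snd, smul_eq_mul, mul_div_mul_left _ _ he.ne']

theorem E0M_ne (h : P.Ok) {q : ℝ × ℝ × ℝ} (hq : q ∈ De P) : Rl (Wx P q) ≠ 0 := Rl_ne (Wx_ne h hq.1)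

theorem E0M_fst {q : ℝ × ℝ × ℝ} (hq : q ∈ De P) : (Rl (Wx P q)).1 ≠ 0 := by
  intro h0
  have := hq.2.2.2
  rw [h0, zero_mul] at this
  exact Complex.zero_notMem_slitPlane this

theorem cyl_e0 (h : P.Ok) {q : ℝ × ℝ × ℝ} (hq : q ∈ De P) : cyl (e0 P q) = Rl (Wx P q) ∧ |(e0 P q).2.2| < 1 := by
  have hx := E0M_ne h hq
  have hx1 := E0M_fst hq
  unfold e0 cyl
  simp only
  set x := Rl (Wx P q) with hxd
  have hr := rr_pos hx
  have hrs := rr_sq x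
  have hq2 : rr x ^ 2 = ‖x.1‖ ^ 2 + x.2 ^ 2 := by rw [hrs, q2, Complex.normSq_eq_norm_sq]
  have hn : 0 < ‖x.1‖ := norm_pos_iff.2 hx1
  have h1 : 1 - (x.2 / rr x) ^ 2 = (‖x.1‖ / rr x) ^ 2 := by
    field_simp
    linarith
  have h2 : Real.sqrt (1 - (x.2 / rr x) ^ 2) = ‖x.1‖ / rr x := by
    rw [h1, Real.sqrt_sq (by positivity)]
  constructor
  · rw [h2, Real.exp_log hr]
    have h3 := RSG.ex_arg (p := x.1 * ex (-q.1))
    rw [norm_mul, RSG.ex_norm, mul_one] at h3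
    refine Prod.ext ?_ ?_
    · simp only [Prod.smul_fst, Complex.real_smul]
      rw [RSG.ex_add]
      have h4 : ex q.1 * ex (-q.1) = 1 := by rw [← RSG.ex_add, add_neg_cancel, RSG.ex_zero]
      have h5 : ((rr x : ℝ) : ℂ) ≠ 0 := by exact_mod_cast hr.ne'
      push_cast
      calc ((rr x : ℝ) : ℂ) * ((‖x.1‖ : ℂ) / (rr x : ℂ) * (ex q.1 * ex (Complex.arg (x.1 * ex (-q.1)) / (2 * Real.pi))))
          = ex q.1 * ((‖x.1‖ : ℂ) * ex (Complex.arg (x.1 * ex (-q.1)) / (2 * Real.pi))) := by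
            field_simp
        _ = x.1 := by rw [h3]; linear_combination x.1 * h4
    · simp only [Prod.smul_snd, smul_eq_mul]
      field_simp
  · rw [← sq_lt_one_iff_abs_lt_one]
    have : 0 < (‖x.1‖ / rr x) ^ 2 := by positivity
    linarith

theorem e0_page (h : P.Ok) {u y : ℝ} (hd : ∀ m n : ℤ, (P.d₁ / 2) ^ 2 ≤ (u - m) ^ 2 + (y - n) ^ 2) : e0 P (u, y, 0) = (u, y, 0) := by
  unfold e0
  simp only
  rw [Wx_page0 h hd, Rl_Xp, E0M_cyl_fst, Complex.arg_ofReal_of_nonneg (Real.exp_pos y).le, cyl_rr (by simp), Real.log_exp]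
  have : (cyl (u, y, 0)).2 = 0 := by simp [cyl]
  rw [this]
  simp

theorem e0_smooth (h : P.Ok) {q : ℝ × ℝ × ℝ} (hq : q ∈ De P) : ContDiffAt ℝ ∞ (e0 P) q := by
  have hR := E0M_sm h hq.1
  have hg := E0M_gsm h hq.1
  have hr := rr_pos (E0M_ne h hq)
  have h1 : ContDiffAt ℝ ∞ (fun q : ℝ × ℝ × ℝ => Complex.arg ((Rl (Wx P q)).1 * ex (-q.1))) q := by
    have h2 : ContDiffAt ℝ ∞ Complex.log ((Rl (Wx P q)).1 * ex (-q.1)) :=
      (Complex.contDiffAt_log hq.2.2.2).restrict_scalars ℝ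
    have h3 : ContDiffAt ℝ ∞ (fun q : ℝ × ℝ × ℝ => Complex.log ((Rl (Wx P q)).1 * ex (-q.1))) q :=
      ContDiffAt.comp (f := fun q : ℝ × ℝ × ℝ => (Rl (Wx P q)).1 * ex (-q.1)) (g := Complex.log) q h2 hg
    have h4 : ContDiffAt ℝ ∞ (fun q : ℝ × ℝ × ℝ => Complex.imCLM (Complex.log ((Rl (Wx P q)).1 * ex (-q.1)))) q :=
      Complex.imCLM.contDiff.contDiffAt.comp q h3
    refine h4.congr_of_eventuallyEq (Eventually.of_forall fun z => ?_)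
    simp [Complex.log_im]
  have h5 : ContDiffAt ℝ ∞ (fun q : ℝ × ℝ × ℝ => rr (Rl (Wx P q))) q :=
    ContDiffAt.comp (f := fun q : ℝ × ℝ × ℝ => Rl (Wx P q)) (g := rr) q (rr_smooth (E0M_ne h hq)) hR
  unfold e0
  refine ContDiffAt.prodMk (contDiffAt_fst.add (h1.div_const _)) (ContDiffAt.prodMk (h5.log hr.ne') (hR.snd.div h5 hr.ne'))

theorem E0M_ld0 (h : P.Ok) {q : ℝ × ℝ × ℝ} (hq : q ∈ De P) : LD (e0 P) q := by
  have h1 : LD (cyl ∘ e0 P) q := by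
    refine CSG.ld_congr (E0M_ld h hq.1) ?_
    filter_upwards [(De_open h).mem_nhds hq] with z hz
    exact (cyl_e0 h hz).1
  have h2 : LD cyl (e0 P q) := cyl_ld (cyl_e0 h hq).2
  exact CSG.ld_of_comp_right h1 h2 (e0_smooth h hq).continuousAt

theorem e0_bij (h : P.Ok) {q : ℝ × ℝ × ℝ} (hq : q ∈ De P) : Function.Bijective (fderiv ℝ (e0 P) q) := by
  have h1 := E0M_ld0 h hq
  have h2 := (h1.mfderivToContinuousLinearEquiv (by simp)).bijective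
  have h3 : ⇑(h1.mfderivToContinuousLinearEquiv (by simp)) = fderiv ℝ (e0 P) q := by
    rw [← mfderiv_eq_fderiv]
    rfl
  rw [← h3]
  exact h2

theorem e0_sign (h : P.Ok) {q : ℝ × ℝ × ℝ} (hq : q ∈ De P) :
    (0 < (e0 P q).2.2 ↔ 0 < q.2.2) ∧ ((e0 P q).2.2 = 0 ↔ q.2.2 = 0) := by
  have hW := Wx_ne h hq.1
  have hr := rr_pos hW
  have e1 : (e0 P q).2.2 = (Wx P q).2 / rr (Wx P q) := by
    unfold e0
    simp only
    exact Rl_ratio hW
  have ht := abs_lt.1 hq.2.2.1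
  have hpi := Real.pi_pos
  have hsp : ∀ t : ℝ, 0 < t → t < 1 / 2 → 0 < Real.sin (2 * Real.pi * t) := by
    intro t h1 h2
    apply Real.sin_pos_of_pos_of_lt_pi
    · positivity
    · nlinarith
  have hsn : ∀ t : ℝ, t < 0 → -(1 / 2) < t → Real.sin (2 * Real.pi * t) < 0 := by
    intro t h1 h2
    have := hsp (-t) (by linarith) (by linarith)
    rw [mul_neg, Real.sin_neg] at this
    linarith
  rw [e1]
  have hq' : Gd (q.1, q.2.1, q.2.2) := hq.1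
  constructor
  · rw [div_pos_iff_of_pos_right hr]
    refine (Wx_pos h hq').trans ⟨?_, fun h1 => hsp _ h1 ht.2⟩
    intro h1
    by_contra h2
    rcases lt_or_eq_of_le (not_lt.1 h2) with h3 | h3
    · have := hsn _ h3 ht.1
      linarith
    · rw [h3, mul_zero, Real.sin_zero] at h1
      exact lt_irrefl _ h1
  · rw [div_eq_zero_iff, or_iff_left hr.ne']
    refine (Wx_zero h hq').trans ⟨?_, fun h1 => by rw [h1, mul_zero, Real.sin_zero]⟩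
    intro h1
    by_contra h2
    rcases lt_or_gt_of_ne h2 with h3 | h3
    · have := hsn _ h3 ht.1
      linarith
    · have := hsp _ h3 ht.2
      linarith

theorem e0_deriv (h : P.Ok) {u y : ℝ} (hd : ∀ m n : ℤ, (P.d₁ / 2) ^ 2 < (u - m) ^ 2 + (y - n) ^ 2) :
    (∀ a b : ℝ, fderiv ℝ (e0 P) (u, y, 0) (a, b, 0) = (a, b, 0)) ∧ 0 < (fderiv ℝ (e0 P) (u, y, 0) (0, 0, 1)).2.2 := by
  have hq := De_page h hd
  have hD : HasFDerivAt (e0 P) (fderiv ℝ (e0 P) (u, y, 0)) (u, y, 0) :=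
    ((e0_smooth h hq).differentiableAt (by simp)).hasFDerivAt
  have hl : ∀ v : ℝ × ℝ × ℝ, HasDerivAt (fun s : ℝ => e0 P ((u, y, 0) + s • v)) (fderiv ℝ (e0 P) (u, y, 0) v) 0 := by
    intro v
    have h1 : HasDerivAt (fun s : ℝ => ((u, y, (0 : ℝ)) : ℝ × ℝ × ℝ) + s • v) v 0 := by
      have := ((hasDerivAt_id (0 : ℝ)).smul_const v).const_add ((u, y, (0 : ℝ)) : ℝ × ℝ × ℝ)
      simpa using this
    have h2 : HasFDerivAt (e0 P) (fderiv ℝ (e0 P) (u, y, 0)) ((fun s : ℝ => ((u, y, (0 : ℝ)) : ℝ × ℝ × ℝ) + s • v) 0) := by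
      simpa using hD
    exact h2.comp_hasDerivAt (0 : ℝ) h1
  have hmem : ∀ v : ℝ × ℝ × ℝ, ∀ᶠ s in 𝓝 (0 : ℝ), ((u, y, (0 : ℝ)) : ℝ × ℝ × ℝ) + s • v ∈ De P := by
    intro v
    have hc : ContinuousAt (fun s : ℝ => ((u, y, (0 : ℝ)) : ℝ × ℝ × ℝ) + s • v) 0 := by fun_prop
    apply hc.eventually_mem
    apply (De_open h).mem_nhds
    simpa using hq
  have hA : ∀ a b : ℝ, fderiv ℝ (e0 P) (u, y, 0) (a, b, 0) = (a, b, 0) := by
    intro a b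
    have h1 := hl (a, b, 0)
    have h2 : HasDerivAt (fun s : ℝ => ((u, y, (0 : ℝ)) : ℝ × ℝ × ℝ) + s • (a, b, 0)) (a, b, 0) 0 := by
      have := ((hasDerivAt_id (0 : ℝ)).smul_const ((a, b, 0) : ℝ × ℝ × ℝ)).const_add ((u, y, (0 : ℝ)) : ℝ × ℝ × ℝ)
      simpa using this
    have h3 : (fun s : ℝ => e0 P ((u, y, 0) + s • (a, b, 0))) =ᶠ[𝓝 0] (fun s : ℝ => ((u, y, (0 : ℝ)) : ℝ × ℝ × ℝ) + s • (a, b, 0)) := by
      filter_upwards [hmem (a, b, 0)] with s hs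
      have hs2 := hs.2.1
      have e1 : ((u, y, (0 : ℝ)) : ℝ × ℝ × ℝ) + s • (a, b, 0) = (u + s * a, y + s * b, 0) := by
        simp
      rw [e1] at hs2 ⊢
      exact e0_page h fun m n => (hs2 m n).le
    exact h1.unique (h2.congr_of_eventuallyEq h3)
  refine ⟨hA, ?_⟩
  have hne : (fderiv ℝ (e0 P) (u, y, 0) (0, 0, 1)).2.2 ≠ 0 := by
    intro h0
    have h1 := hA (fderiv ℝ (e0 P) (u, y, 0) (0, 0, 1)).1 (fderiv ℝ (e0 P) (u, y, 0) (0, 0, 1)).2.1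
    have h2 : fderiv ℝ (e0 P) (u, y, 0) (0, 0, 1) =
        ((fderiv ℝ (e0 P) (u, y, 0) (0, 0, 1)).1, (fderiv ℝ (e0 P) (u, y, 0) (0, 0, 1)).2.1, 0) :=
      Prod.ext rfl (Prod.ext rfl h0)
    have h3 := (e0_bij h hq).1 (h1.trans h2.symm)
    have h4 := congrArg (fun z : ℝ × ℝ × ℝ => z.2.2) h3
    norm_num at h4
  have hge : 0 ≤ (fderiv ℝ (e0 P) (u, y, 0) (0, 0, 1)).2.2 := by
    have h1 := hl (0, 0, 1)
    have h2 : HasDerivAt (fun s : ℝ => (e0 P ((u, y, 0) + s • (0, 0, 1))).2.2) (fderiv ℝ (e0 P) (u, y, 0) (0, 0, 1)).2.2 0 :=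
      h1.snd.snd
    have h3 := h2.tendsto_slope
    have h4 : Tendsto (slope (fun s : ℝ => (e0 P ((u, y, 0) + s • (0, 0, 1))).2.2) 0) (𝓝[>] 0)
        (𝓝 (fderiv ℝ (e0 P) (u, y, 0) (0, 0, 1)).2.2) :=
      h3.mono_left (nhdsWithin_mono _ (fun s hs => (ne_of_gt hs)))
    refine ge_of_tendsto h4 ?_
    filter_upwards [self_mem_nhdsWithin, (hmem (0, 0, 1)).filter_mono nhdsWithin_le_nhds] with s hs hs2
    have hs' : 0 < s := hs
    rw [slope_def_field, sub_zero]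
    have e0' : ((u, y, (0 : ℝ)) : ℝ × ℝ × ℝ) + (0 : ℝ) • (0, 0, 1) = (u, y, 0) := by simp
    have e1 : (e0 P ((u, y, (0 : ℝ)) + (0 : ℝ) • (0, 0, 1))).2.2 = 0 := by
      rw [e0', e0_page h fun m n => (hd m n).le]
    rw [e1, sub_zero]
    apply div_nonneg _ hs'.le
    refine ((e0_sign h hs2).1.2 ?_).le
    simpa using hs'
  exact lt_of_le_of_ne hge hne.symm

end Pool.Agent.CHW
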