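import Pool.Agent.CHW.Jm

/-!
# CHW/ElM: the function `ell`   (difficulty 1)

`ell y = 2π y + (log 2000 - π) thc (2y)`, `thc` smooth and monotone, `thc = 0` on `[-1/4, 1/4]`, `thc = 1` on `[3/4, 5/4]`, `thc (x + k) = thc x + k`,
`thc (-x) = - thc x` (as `CSG.lam_symm`: `thc x = ⌊x⌋ + stp (1/4) (3/4) (fract x)`, `FunBasic_symm`).  `π < 3.15 < log 2000` (`2^10 < 2000`, `log 2 > 0.69`).
Derivative `≥ 2π > 0`; bijective: strictly increasing, continuous, `ell (y + n) = ell y + n log 4000000`.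
-/

open scoped Manifold ContDiff Topology
open Set Filter
open Complex (I normSq)

namespace Pool.Agent.CHW

open Pool.Agent.CSG (stp thc)
open Pool.Agent.RSG (ex)

theorem log_bounds : Real.pi < Real.log 2000 ∧ Real.log 4000000 = 2 * Real.log 2000 := by
  constructor
  · have h1 : Real.log ((2 : ℝ) ^ 10) ≤ Real.log 2000 := by
      apply Real.log_le_log <;> norm_num
    rw [Real.log_pow] at h1
    have h2 := Real.log_two_gt_d9
    have h3 := Real.pi_lt_d2
    push_cast at h1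
    linarith
  · have h1 : (4000000 : ℝ) = 2000 ^ 2 := by norm_num
    rw [h1, Real.log_pow]
    norm_num

theorem ell_smooth : ContDiff ℝ ∞ ell := by
  have h1 : ContDiff ℝ ∞ fun y : ℝ => thc (2 * y) :=
    Pool.Agent.CSG.thc_smooth.comp (contDiff_const.mul contDiff_id)
  exact (contDiff_const.mul contDiff_id).add (contDiff_const.mul h1)

theorem ElM_thc_deriv (x : ℝ) : 0 ≤ deriv thc x := by
  have h1 : thc =ᶠ[𝓝 x] fun x' => ⌊x⌋ + stp (1 / 4) (3 / 4) (x' + -(⌊x⌋ : ℝ)) := by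
    have ha : (⌊x⌋ : ℝ) - 1 + 3 / 4 < x := by
      have := Int.floor_le x
      linarith
    have hb : x < (⌊x⌋ : ℝ) + 1 + 1 / 4 := by
      have := Int.lt_floor_add_one x
      linarith
    filter_upwards [Ioo_mem_nhds ha hb] with x' hx'
    exact Pool.Agent.CSG.FunBasic_thc ⌊x⌋ hx'.1.le hx'.2.le
  rw [h1.deriv_eq, deriv_const_add, deriv_comp_add_const]
  exact Pool.Agent.CSG.stp_deriv_nonneg (by norm_num) _

theorem ell_deriv (y : ℝ) : 2 * Real.pi ≤ deriv ell y := by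
  have h1 : HasDerivAt thc (deriv thc (2 * y)) (2 * y) :=
    ((Pool.Agent.CSG.thc_smooth.differentiable (by simp)).differentiableAt).hasDerivAt
  have h2 : HasDerivAt (fun y : ℝ => 2 * y) 2 y := by
    simpa using (hasDerivAt_id y).const_mul 2
  have h3 : HasDerivAt (fun y : ℝ => thc (2 * y)) (deriv thc (2 * y) * 2) y :=
    HasDerivAt.comp y h1 h2
  have h4 : HasDerivAt ell (2 * Real.pi * 1 + (Real.log 2000 - Real.pi) * (deriv thc (2 * y) * 2))
      y := ((hasDerivAt_id y).const_mul (2 * Real.pi)).add (h3.const_mul _)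
  rw [h4.deriv, mul_one]
  have h5 := ElM_thc_deriv (2 * y)
  have h6 := log_bounds.1
  have h7 : 0 ≤ (Real.log 2000 - Real.pi) * (deriv thc (2 * y) * 2) :=
    mul_nonneg (by linarith) (by linarith)
  linarith

theorem ElM_deriv_pos (y : ℝ) : 0 < deriv ell y :=
  lt_of_lt_of_le (by positivity) (ell_deriv y)

theorem ell_mono : StrictMono ell := strictMono_of_deriv_pos ElM_deriv_pos

theorem ell_add (y : ℝ) (n : ℤ) : ell (y + n) = ell y + n * Real.log 4000000 := by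
  unfold ell
  have h1 : 2 * (y + n) = 2 * y + ((2 * n : ℤ) : ℝ) := by
    push_cast
    ring
  rw [h1, Pool.Agent.CSG.thc_add_int, log_bounds.2]
  push_cast
  ring

theorem ElM_thc_neg (x : ℝ) : thc (-x) = -thc x := by
  have hf := Int.floor_le x
  have hf2 := Int.lt_floor_add_one x
  have h1 : thc x = (⌊x⌋ : ℝ) + stp (1 / 4) (3 / 4) (x - ⌊x⌋) :=
    Pool.Agent.CSG.FunBasic_thc ⌊x⌋ (by linarith) (by linarith)
  have h2 : thc (-x) = ((-⌊x⌋ - 1 : ℤ) : ℝ) + stp (1 / 4) (3 / 4) (-x - ((-⌊x⌋ - 1 : ℤ) : ℝ)) :=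
    Pool.Agent.CSG.FunBasic_thc (-⌊x⌋ - 1) (by push_cast; linarith) (by push_cast; linarith)
  have h3 := Pool.Agent.CSG.FunBasic_symm (a := 1 / 4) (b := 3 / 4) (by norm_num) (x - ⌊x⌋)
  have e : (1 / 4 + 3 / 4 - (x - ⌊x⌋) : ℝ) = -x - ((-⌊x⌋ - 1 : ℤ) : ℝ) := by
    push_cast
    ring
  rw [e] at h3
  rw [h2, h3, h1]
  push_cast
  ring

theorem ell_neg (y : ℝ) : ell (-y) = -ell y := by
  unfold ell
  rw [show 2 * -y = -(2 * y) by ring, ElM_thc_neg]
  ring

theorem ell_small {y : ℝ} (h : |y| ≤ 1 / 8) : ell y = 2 * Real.pi * y := by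
  unfold ell
  obtain ⟨h1, h2⟩ := abs_le.1 h
  rw [Pool.Agent.CSG.thc_zero (by linarith) (by linarith)]
  ring

theorem ell_half {y : ℝ} (h : |y - 1 / 2| ≤ 1 / 8) :
    ell y = Real.log 2000 - 2 * Real.pi * (1 / 2 - y) := by
  unfold ell
  obtain ⟨h1, h2⟩ := abs_le.1 h
  rw [Pool.Agent.CSG.thc_one (by linarith) (by linarith)]
  ring

theorem ell_zero : ell 0 = 0 := by
  rw [ell_small (by norm_num), mul_zero]

theorem ell_surj : Function.Surjective ell := by
  intro x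
  have hL : 0 < Real.log 4000000 := Real.log_pos (by norm_num)
  have h1 : ell ((⌊x / Real.log 4000000⌋ : ℤ) : ℝ) ≤ x := by
    have := ell_add 0 ⌊x / Real.log 4000000⌋
    rw [zero_add, ell_zero, zero_add] at this
    rw [this]
    exact (le_div_iff₀ hL).1 (Int.floor_le _)
  have h2 : x ≤ ell (((⌊x / Real.log 4000000⌋ + 1 : ℤ)) : ℝ) := by
    have := ell_add 0 (⌊x / Real.log 4000000⌋ + 1)
    rw [zero_add, ell_zero, zero_add] at this
    rw [this]
    push_cast
    exact ((div_lt_iff₀ hL).1 (Int.lt_floor_add_one _)).le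
  have h3 : ((⌊x / Real.log 4000000⌋ : ℤ) : ℝ) ≤ ((⌊x / Real.log 4000000⌋ + 1 : ℤ) : ℝ) := by
    push_cast
    linarith
  obtain ⟨y, -, hy⟩ := intermediate_value_Icc h3 ell_smooth.continuous.continuousOn ⟨h1, h2⟩
  exact ⟨y, hy⟩

theorem ElM_half : ell (1 / 2) = Real.log 2000 := by
  rw [ell_half (by norm_num)]
  ring

theorem ell_lt {y : ℝ} : |y| < 1 / 2 ↔ |ell y| < Real.log 2000 := by
  rw [abs_lt, abs_lt, ← ElM_half, ← ell_neg, ell_mono.lt_iff_lt, ell_mono.lt_iff_lt]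

/-- the inverse function -/
theorem exists_elli : ∃ f : ℝ → ℝ, ContDiff ℝ ∞ f ∧ (∀ y, f (ell y) = y) ∧ (∀ x, ell (f x) = x) ∧
    StrictMono f ∧ ∀ x, 0 < deriv f x := by
  let o : ℝ ≃o ℝ := StrictMono.orderIsoOfSurjective ell ell_mono ell_surj
  let e : ℝ ≃ₜ ℝ := o.toHomeomorph
  have hs : ContDiff ℝ ∞ (e.symm : ℝ → ℝ) := by
    refine Homeomorph.contDiff_symm_deriv e (f' := deriv ell) (fun x => (ElM_deriv_pos x).ne')
      (fun x => ?_) ell_smooth
    exact ((ell_smooth.differentiable (by simp)).differentiableAt).hasDerivAt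
  have h1 : ∀ y, e.symm (ell y) = y := fun y => e.symm_apply_apply y
  have h2 : ∀ x, ell (e.symm x) = x := fun x => e.apply_symm_apply x
  refine ⟨e.symm, hs, h1, h2, o.symm.strictMono, fun x => ?_⟩
  have hd : HasDerivAt (e.symm : ℝ → ℝ) (deriv (e.symm : ℝ → ℝ) x) x :=
    ((hs.differentiable (by simp)).differentiableAt).hasDerivAt
  have hd2 : HasDerivAt ell (deriv ell (e.symm x)) (e.symm x) :=
    ((ell_smooth.differentiable (by simp)).differentiableAt).hasDerivAt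
  have h3 : HasDerivAt (fun x => ell (e.symm x)) (deriv ell (e.symm x) * deriv (e.symm : ℝ → ℝ) x)
      x := HasDerivAt.comp x hd2 hd
  have h4 : HasDerivAt (fun x => ell (e.symm x)) 1 x := by
    have : (fun x => ell (e.symm x)) = id := by
      funext x
      exact h2 x
    rw [this]
    exact hasDerivAt_id x
  have h5 := h3.unique h4
  have h6 := ElM_deriv_pos (e.symm x)
  by_contra hcon
  push Not at hcon
  have := mul_nonpos_of_nonneg_of_nonpos h6.le hcon
  linarith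

theorem ElM_q2 (u y : ℝ) : q2 (Xp u y) = Real.exp (ell y) ^ 2 := by
  unfold q2 Xp
  rw [Complex.normSq_mul, Complex.normSq_ofReal, Complex.normSq_eq_norm_sq,
    Pool.Agent.RSG.ex_norm]
  ring

theorem Xp_rr (u y : ℝ) : rr (Xp u y) = Real.exp (ell y) := by
  unfold rr
  rw [ElM_q2, Real.sqrt_sq (Real.exp_pos _).le]

theorem Xp_Sh {u y : ℝ} (h : |y| < 1 / 2) : Xp u y ∈ Sh := by
  obtain ⟨h1, h2⟩ := abs_lt.1 (ell_lt.1 h)
  show 1 / 2000 < rr (Xp u y) ∧ rr (Xp u y) < 2000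
  rw [Xp_rr]
  constructor
  · have := Real.exp_lt_exp.2 h1
    rw [Real.exp_neg, Real.exp_log (by norm_num)] at this
    rw [one_div]
    exact this
  · have := Real.exp_lt_exp.2 h2
    rwa [Real.exp_log (by norm_num)] at this

theorem Xp_neg (u y : ℝ) : Xp (-u) (-y) = Jv (Xp u y) := by
  unfold Jv
  rw [ElM_q2]
  refine Prod.ext ?_ ?_
  · show ((Real.exp (ell (-y)) : ℝ) : ℂ) * ex (-u) =
      (starRingEnd ℂ) (((Real.exp (ell y) : ℝ) : ℂ) * ex u) / ((Real.exp (ell y) ^ 2 : ℝ) : ℂ)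
    have h0 : ((Real.exp (ell y) : ℝ) : ℂ) ≠ 0 := by
      exact_mod_cast (Real.exp_pos (ell y)).ne'
    rw [ell_neg, Real.exp_neg, Pool.Agent.RSG.ex_neg, map_mul, Complex.conj_ofReal]
    push_cast at h0 ⊢
    field_simp
  · show (0 : ℝ) = 0 / Real.exp (ell y) ^ 2
    rw [zero_div]

theorem Xp_cjv (u y : ℝ) : Xp (-u) y = cjv (Xp u y) := by
  unfold cjv Xp
  rw [map_mul, Complex.conj_ofReal, Pool.Agent.RSG.ex_neg]

theorem Xp_small {u y : ℝ} (h : |y| ≤ 1 / 8) : Xp u y = (Complex.exp (2 * Real.pi * (y + u * I)), 0) := by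
  unfold Xp Pool.Agent.RSG.ex
  rw [ell_small h, Complex.ofReal_exp, ← Complex.exp_add]
  congr 2
  push_cast
  ring

end Pool.Agent.CHW
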