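import Pool.Agent.CHW.Jm

/-!
# CHW/Em: the ellipse map   (difficulty 3)

`EM B e m`: the ellipsoid `es B = s` is mapped to the ellipsoid with semiaxes `e s` (in the `w`-plane), `m s`, linearly.
Put `s = es B x > a ≥ 0`, so `x ≠ 0`.

* `e_pos`, `m_pos`: `e` is strictly increasing on `(a, ∞)` (`strictMonoOn_of_deriv_pos` on `Ioi a`) with limit `0` at `a`, so `e s > 0`;
  the same for `m`: `m s > ma`.
* `EM_smooth`: `es B` is smooth where it is `> 0` (square root of a positive quadratic function).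
* `EM_ld`: `CSG.ld_of_fderiv`; the points `y` near `x` satisfy `a < es B y`.  Let `ξ = (dw, dh)` with `D EM (ξ) = 0` and
  `σ = D (es B) (ξ) = (Re (w̄ dw) / B² + h dh) / s`.  With `f = e s / (B s)`, `g = m s / s` the two components are
  `f dw + f' σ w = 0`, `g dh + g' σ h = 0`.  If `σ = 0` then `ξ = 0` as `f, g > 0`.  Otherwise multiply:
  `s σ = Re (w̄ dw) / B² + h dh = - σ ((f'/f) |w|² / B² + (g'/g) h²)`, `f'/f = e'/e - 1/s`, `g'/g = m'/m - 1/s`, hence
  `s = - (e'/e) |w|²/B² - (m'/m) h² + (|w|²/B² + h²) / s = s - (e'/e) |w|²/B² - (m'/m) h²`, so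
  `(e'/e) |w|²/B² + (m'/m) h² = 0` with positive coefficients: `x = 0`, contradiction.
* `EM_injOn`, `EM_image`: for `y = (W, H)` put `φ s = (‖W‖ / e s)² + (H / m s)²`; it is strictly decreasing on `(a, ∞)` if `y ≠ 0`, with limit `0`
  at `∞`.  `EM x = y` with `s = es B x` iff `w = (B s / e s) W`, `h = (s / m s) H` and `φ s = 1`
  (`es B x ^ 2 = s² φ s`).  Injectivity: `s` is determined by `φ s = 1`.  Image: if `W ≠ 0` then `φ → ∞` at `a`, if `W = 0` and `|H| > ma`
  then `φ s → (H / ma)² > 1` at `a`; intermediate value theorem.  If `W = 0` and `|H| ≤ ma` then `φ s = (H / m s)² < 1`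
  for all `s > a`: not in the image.
* `EM_coef`: `(EM x).1 = r w`, `(EM x).2 = t h`, `r, t > 0`.
-/

open scoped Manifold ContDiff Topology
open Set Filter
open Complex (I normSq)

namespace Pool.Agent.CHW

open Pool.Agent.CSG (stp thc)
open Pool.Agent.RSG (ex)

variable {B a ma : ℝ} {e m : ℝ → ℝ}

theorem es_nonneg (B : ℝ) (x : F3) : 0 ≤ es B x := Real.sqrt_nonneg _
theorem es_sq (B : ℝ) (x : F3) : es B x ^ 2 = normSq x.1 / B ^ 2 + x.2 ^ 2 :=
  Real.sq_sqrt (by have := Complex.normSq_nonneg x.1; positivity)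
theorem es_pos (hB : 0 < B) {x : F3} : 0 < es B x ↔ x ≠ 0 := by
  unfold es
  rw [Real.sqrt_pos]
  constructor
  · rintro h rfl
    simp at h
  · intro h
    have h1 := Complex.normSq_nonneg x.1
    by_cases h2 : x.1 = 0
    · have h3 : x.2 ≠ 0 := fun hh => h (Prod.ext h2 hh)
      have h4 : 0 ≤ normSq x.1 / B ^ 2 := by positivity
      have h5 : 0 < x.2 ^ 2 := by positivity
      linarith
    · have h3 : 0 < normSq x.1 := Complex.normSq_pos.2 h2
      have h4 : 0 < normSq x.1 / B ^ 2 := by positivity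
      have h5 : 0 ≤ x.2 ^ 2 := sq_nonneg _
      linarith
theorem es_one (x : F3) : es 1 x = rr x := by
  unfold es rr q2
  rw [one_pow, div_one]
theorem es_cont (B : ℝ) : Continuous (es B) := by
  unfold es
  exact Real.continuous_sqrt.comp (by
    have := Complex.continuous_normSq
    fun_prop)
theorem norm_le_es (hB : 0 < B) (x : F3) : ‖x.1‖ ≤ B * es B x := by
  have h1 := es_nonneg B x
  refine (pow_le_pow_iff_left₀ (norm_nonneg _) (by positivity) two_ne_zero).1 ?_
  rw [mul_pow, es_sq, ← Complex.normSq_eq_norm_sq]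
  have h2 : B ^ 2 * (normSq x.1 / B ^ 2 + x.2 ^ 2) = normSq x.1 + B ^ 2 * x.2 ^ 2 := by
    field_simp
  rw [h2]
  have h3 : 0 ≤ B ^ 2 * x.2 ^ 2 := by positivity
  linarith
theorem abs_le_es (x : F3) : |x.2| ≤ es B x := by
  refine Real.abs_le_sqrt ?_
  have h1 := Complex.normSq_nonneg x.1
  have h2 : 0 ≤ normSq x.1 / B ^ 2 := by positivity
  linarith
/-- a strictly increasing function is above its limit -/
theorem Em_lim {f : ℝ → ℝ} {a l : ℝ} (hf : StrictMonoOn f (Ioi a)) (h0 : Tendsto f (𝓝[>] a) (𝓝 l)) {s : ℝ}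
    (hs : a < s) : l < f s := by
  have hs2 : a < (a + s) / 2 := by linarith
  have h1 : l ≤ f ((a + s) / 2) := by
    refine le_of_tendsto h0 ?_
    have : ∀ᶠ t in 𝓝[>] a, t < (a + s) / 2 ∧ a < t :=
      ((tendsto_nhdsWithin_iff.1 tendsto_id).1.eventually (gt_mem_nhds hs2)).and self_mem_nhdsWithin
    filter_upwards [this] with t ht
    exact (hf ht.2 hs2 ht.1).le
  exact h1.trans_lt (hf hs2 hs (by linarith))

theorem Em_emono (h : EMok a ma e m) : StrictMonoOn e (Ioi a) := by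
  refine strictMonoOn_of_deriv_pos (convex_Ioi a) ?_ ?_
  · intro s hs
    exact (h.es s hs).continuousAt.continuousWithinAt
  · intro s hs
    rw [interior_Ioi] at hs
    exact h.ed s hs

theorem Em_mmono (h : EMok a ma e m) : StrictMonoOn m (Ioi a) := by
  refine strictMonoOn_of_deriv_pos (convex_Ioi a) ?_ ?_
  · intro s hs
    exact (h.ms s hs).continuousAt.continuousWithinAt
  · intro s hs
    rw [interior_Ioi] at hs
    exact h.md s hs

theorem EMok.e_pos (h : EMok a ma e m) {s : ℝ} (hs : a < s) : 0 < e s := Em_lim (Em_emono h) h.e0 hs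
theorem EMok.m_gt (h : EMok a ma e m) {s : ℝ} (hs : a < s) : ma < m s := Em_lim (Em_mmono h) h.m0 hs
theorem EMok.e_mono (h : EMok a ma e m) : StrictMonoOn e (Ioi a) := Em_emono h
theorem EMok.m_mono (h : EMok a ma e m) : StrictMonoOn m (Ioi a) := Em_mmono h

theorem Em_mpos (h : EMok a ma e m) {s : ℝ} (hs : a < s) : 0 < m s := h.mpos.trans (h.m_gt hs)

theorem Em_es_smooth {x : F3} (hx : 0 < es B x) : ContDiffAt ℝ ∞ (es B) x := by
  unfold es
  have h1 : ContDiff ℝ ∞ fun x : F3 => normSq x.1 / B ^ 2 + x.2 ^ 2 := by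
    have h2 : ContDiff ℝ ∞ fun x : F3 => normSq x.1 := by
      have : (fun x : F3 => normSq x.1) = fun x : F3 => x.1.re * x.1.re + x.1.im * x.1.im := by
        ext x; rfl
      rw [this]
      have hre : ContDiff ℝ ∞ fun x : F3 => x.1.re := Complex.reCLM.contDiff.comp contDiff_fst
      have him : ContDiff ℝ ∞ fun x : F3 => x.1.im := Complex.imCLM.contDiff.comp contDiff_fst
      exact (hre.mul hre).add (him.mul him)
    exact (h2.div_const _).add (contDiff_snd.pow 2)
  refine h1.contDiffAt.sqrt ?_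
  have := es_sq B x
  have h3 : 0 < es B x ^ 2 := by positivity
  rw [this] at h3
  exact h3.ne'

theorem EM_smooth (hB : 0 < B) (h : EMok a ma e m) {x : F3} (hx : a < es B x) :
    ContDiffAt ℝ ∞ (EM B e m) x := by
  have h0 : 0 < es B x := lt_of_le_of_lt h.nn hx
  have h1 : ContDiffAt ℝ ∞ (es B) x := Em_es_smooth h0
  have h2 : ContDiffAt ℝ ∞ (fun x : F3 => e (es B x)) x := (h.es _ hx).comp x h1
  have h3 : ContDiffAt ℝ ∞ (fun x : F3 => m (es B x)) x := (h.ms _ hx).comp x h1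
  have h4 : ContDiffAt ℝ ∞ (fun x : F3 => e (es B x) / (B * es B x)) x :=
    h2.div (contDiffAt_const.mul h1) (by positivity)
  have h5 : ContDiffAt ℝ ∞ (fun x : F3 => m (es B x) / es B x) x := h3.div h1 h0.ne'
  have h6 : ContDiffAt ℝ ∞ (fun x : F3 => ((e (es B x) / (B * es B x) : ℝ) : ℂ)) x :=
    Complex.ofRealCLM.contDiff.contDiffAt.comp x h4
  exact (h6.mul contDiffAt_fst).prodMk (h5.mul contDiffAt_snd)

/-- a map `(F x • x.1, G x * x.2)` -/
theorem Em_deriv {F G : F3 → ℝ} {F' G' : F3 →L[ℝ] ℝ} {x : F3} (hF : HasFDerivAt F F' x) (hG : HasFDerivAt G G' x)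
    (v : F3) : fderiv ℝ (fun x : F3 => (((F x : ℝ) : ℂ) * x.1, G x * x.2)) x v =
      (((F x : ℝ) : ℂ) * v.1 + ((F' v : ℝ) : ℂ) * x.1, G x * v.2 + G' v * x.2) := by
  have h1 : HasFDerivAt (fun x : F3 => ((F x : ℝ) : ℂ)) (Complex.ofRealCLM.comp F') x :=
    Complex.ofRealCLM.hasFDerivAt.comp x hF
  have h2 := (h1.mul hasFDerivAt_fst).prodMk (hG.mul hasFDerivAt_snd)
  have h3 : fderiv ℝ (fun x : F3 => (((F x : ℝ) : ℂ) * x.1, G x * x.2)) x = _ := HasFDerivAt.fderiv h2
  rw [h3]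
  refine Prod.ext ?_ ?_
  · simp
    ring
  · simp
    ring

theorem Em_es {x : F3} (hx : 0 < es B x) : ∃ L : F3 →L[ℝ] ℝ, HasFDerivAt (es B) L x ∧
    ∀ v : F3, es B x * L v = (x.1.re * v.1.re + x.1.im * v.1.im) / B ^ 2 + x.2 * v.2 := by
  obtain ⟨L, hL⟩ : ∃ L, HasFDerivAt (es B) L x := ⟨_, ((Em_es_smooth hx).differentiableAt (by simp)).hasFDerivAt⟩
  refine ⟨L, hL, fun v => ?_⟩
  have h1 : HasFDerivAt (fun x => es B x ^ 2) ((2 * es B x) • L) x := by
    have := hL.pow 2
    simpa using this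
  have h2 : (fun x => es B x ^ 2) = fun x : F3 => (x.1.re * x.1.re + x.1.im * x.1.im) / B ^ 2 + x.2 ^ 2 := by
    ext x
    rw [es_sq]
    rfl
  have hre : HasFDerivAt (fun x : F3 => x.1.re) (Complex.reCLM.comp (ContinuousLinearMap.fst ℝ ℂ ℝ)) x :=
    (Complex.reCLM.comp (ContinuousLinearMap.fst ℝ ℂ ℝ)).hasFDerivAt
  have him : HasFDerivAt (fun x : F3 => x.1.im) (Complex.imCLM.comp (ContinuousLinearMap.fst ℝ ℂ ℝ)) x :=
    (Complex.imCLM.comp (ContinuousLinearMap.fst ℝ ℂ ℝ)).hasFDerivAt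
  have h3 := (((hre.mul hre).add (him.mul him)).mul_const (B ^ 2)⁻¹).add
    ((hasFDerivAt_snd (𝕜 := ℝ) (E := ℂ) (F := ℝ) (p := x)).pow 2)
  rw [h2] at h1
  have h4 := h1.unique h3
  have h5 := congrArg (fun M : F3 →L[ℝ] ℝ => M v) h4
  simp at h5
  have h6 : es B x * L v = 1 / 2 * (2 * es B x * L v) := by ring
  rw [h6, h5]
  ring

theorem Em_ker (hB : 0 < B) (h : EMok a ma e m) {x : F3} (hx : a < es B x) (v : F3)
    (hv : fderiv ℝ (EM B e m) x v = 0) : v = 0 := by
  have h0 : 0 < es B x := lt_of_le_of_lt h.nn hx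
  obtain ⟨L, hL, hLv⟩ := Em_es h0
  have hed : HasDerivAt e (deriv e (es B x)) (es B x) := ((h.es _ hx).differentiableAt (by simp)).hasDerivAt
  have hmd : HasDerivAt m (deriv m (es B x)) (es B x) := ((h.ms _ hx).differentiableAt (by simp)).hasDerivAt
  have hid : HasDerivAt (fun s : ℝ => B * s) B (es B x) := by
    simpa using (hasDerivAt_id (es B x)).const_mul B
  have hf := (hed.div hid (by positivity)).comp_hasFDerivAt x hL
  have hg := (hmd.div (hasDerivAt_id (es B x)) h0.ne').comp_hasFDerivAt x hL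
  have hd := Em_deriv (F := fun x => e (es B x) / (B * es B x)) (G := fun x => m (es B x) / es B x) hf hg v
  have hv' : fderiv ℝ (fun x : F3 => (((e (es B x) / (B * es B x) : ℝ) : ℂ) * x.1, m (es B x) / es B x * x.2)) x v = 0 := hv
  rw [hd] at hv'
  have hv1 := congrArg Prod.fst hv'
  have hv2 := congrArg Prod.snd hv'
  simp only [Prod.fst_zero, Prod.snd_zero, smul_apply, smul_eq_mul, id] at hv1 hv2
  have he := h.e_pos hx
  have hm := Em_mpos h hx
  have hed' := h.ed _ hx
  have hmd' := h.md _ hx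
  set s := es B x with hs
  set l := L v with hl
  have hr := congrArg Complex.re hv1
  have hi := congrArg Complex.im hv1
  simp only [Complex.add_re, Complex.add_im, Complex.re_ofReal_mul, Complex.im_ofReal_mul, Complex.zero_re,
    Complex.zero_im] at hr hi
  have hlv := hLv v
  rw [← hl] at hlv
  have hsq := es_sq B x
  rw [← hs] at hsq
  have hn : normSq x.1 = x.1.re * x.1.re + x.1.im * x.1.im := rfl
  rw [hn] at hsq
  -- multiply out
  have r1 : e s * s * v.1.re + (deriv e s * s - e s) * l * x.1.re = 0 := by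
    have : e s * s * v.1.re + (deriv e s * s - e s) * l * x.1.re = B * s ^ 2 * (e s / (B * s) * v.1.re +
      (deriv e s * (B * s) - e s * B) / (B * s) ^ 2 * l * x.1.re) := by
      field_simp
    rw [this, hr, mul_zero]
  have i1 : e s * s * v.1.im + (deriv e s * s - e s) * l * x.1.im = 0 := by
    have : e s * s * v.1.im + (deriv e s * s - e s) * l * x.1.im = B * s ^ 2 * (e s / (B * s) * v.1.im +
      (deriv e s * (B * s) - e s * B) / (B * s) ^ 2 * l * x.1.im) := by
      field_simp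
    rw [this, hi, mul_zero]
  have t1 : m s * s * v.2 + (deriv m s * s - m s) * l * x.2 = 0 := by
    have : m s * s * v.2 + (deriv m s * s - m s) * l * x.2 = s ^ 2 * (m s / s * v.2 +
      (deriv m s * s - m s * 1) / s ^ 2 * l * x.2) := by
      field_simp
    rw [this, hv2, mul_zero]
  -- `l = 0`
  have hl0 : l = 0 := by
    have k1 : l * (s * (m s * deriv e s * ((x.1.re * x.1.re + x.1.im * x.1.im) / B ^ 2) +
        e s * deriv m s * x.2 ^ 2)) = 0 := by
      have q1 : s * l * (e s * m s * s) = ((x.1.re * v.1.re + x.1.im * v.1.im) / B ^ 2 + x.2 * v.2) * (e s * m s * s) := by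
        rw [hlv]
      have q2 : (x.1.re * v.1.re + x.1.im * v.1.im) / B ^ 2 * (e s * m s * s) =
          - ((deriv e s * s - e s) * l * m s * ((x.1.re * x.1.re + x.1.im * x.1.im) / B ^ 2)) := by
        have : e s * s * (x.1.re * v.1.re + x.1.im * v.1.im) = - ((deriv e s * s - e s) * l *
            (x.1.re * x.1.re + x.1.im * x.1.im)) := by
          linear_combination x.1.re * r1 + x.1.im * i1
        have h' : (x.1.re * v.1.re + x.1.im * v.1.im) / B ^ 2 * (e s * m s * s) =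
          (e s * s * (x.1.re * v.1.re + x.1.im * v.1.im)) * m s / B ^ 2 := by ring
        rw [h', this]
        ring
      have q3 : x.2 * v.2 * (e s * m s * s) = - ((deriv m s * s - m s) * l * e s * x.2 ^ 2) := by
        linear_combination x.2 * e s * t1
      have q4 : s * l * (e s * m s * s) = e s * m s * l * s ^ 2 := by ring
      rw [q4, hsq, add_mul, q2, q3] at q1
      linear_combination q1
    rcases mul_eq_zero.1 k1 with k2 | k2
    · exact k2
    · exfalso
      have k3 : 0 < m s * deriv e s * ((x.1.re * x.1.re + x.1.im * x.1.im) / B ^ 2) + e s * deriv m s * x.2 ^ 2 := by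
        have p1 : 0 ≤ (x.1.re * x.1.re + x.1.im * x.1.im) / B ^ 2 :=
          div_nonneg (add_nonneg (mul_self_nonneg _) (mul_self_nonneg _)) (sq_nonneg _)
        have p2 : 0 ≤ x.2 ^ 2 := sq_nonneg _
        have p3 : 0 < s ^ 2 := by positivity
        rw [hsq] at p3
        rcases p1.eq_or_lt with p4 | p4
        · rw [← p4] at p3 ⊢
          have : 0 < e s * deriv m s * x.2 ^ 2 := mul_pos (mul_pos he hmd') (by linarith)
          linarith
        · have q5 : 0 < m s * deriv e s * ((x.1.re * x.1.re + x.1.im * x.1.im) / B ^ 2) :=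
            mul_pos (mul_pos hm hed') p4
          have q6 : 0 ≤ e s * deriv m s * x.2 ^ 2 := mul_nonneg (mul_pos he hmd').le p2
          linarith
      exact (mul_pos h0 k3).ne' k2
  rw [hl0] at r1 i1 t1
  have z1 : v.1.re = 0 := by
    have : e s * s * v.1.re = 0 := by linarith
    exact (mul_eq_zero.1 this).resolve_left (mul_pos he h0).ne'
  have z2 : v.1.im = 0 := by
    have : e s * s * v.1.im = 0 := by linarith
    exact (mul_eq_zero.1 this).resolve_left (mul_pos he h0).ne'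
  have z3 : v.2 = 0 := by
    have : m s * s * v.2 = 0 := by linarith
    exact (mul_eq_zero.1 this).resolve_left (mul_pos hm h0).ne'
  exact Prod.ext (Complex.ext z1 z2) z3
theorem EM_ld (hB : 0 < B) (h : EMok a ma e m) {x : F3} (hx : a < es B x) : LD (EM B e m) x := by
  have hev : ∀ᶠ y in 𝓝 x, a < es B y := (es_cont B).continuousAt.eventually (lt_mem_nhds hx)
  exact Pool.Agent.CSG.ld_of_fderiv (hev.mono fun y hy => EM_smooth hB h hy) rfl (Em_ker hB h hx)

/-- the elliptic norm of the image -/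
theorem Em_norm (h : EMok a ma e m) (hB : 0 < B) {x : F3} (hx : a < es B x) :
    normSq (EM B e m x).1 / e (es B x) ^ 2 + (EM B e m x).2 ^ 2 / m (es B x) ^ 2 = 1 := by
  have h0 : 0 < es B x := lt_of_le_of_lt h.nn hx
  have h1 := h.e_pos hx
  have h2 := Em_mpos h hx
  have h3 := es_sq B x
  have e1 : normSq (EM B e m x).1 = (e (es B x) / (B * es B x)) ^ 2 * normSq x.1 := by
    simp only [EM]
    rw [Complex.normSq_mul, Complex.normSq_ofReal, sq]
  have e2 : (EM B e m x).2 = m (es B x) / es B x * x.2 := rfl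
  rw [e1, e2]
  have e3 : (e (es B x) / (B * es B x)) ^ 2 * normSq x.1 / e (es B x) ^ 2 +
      (m (es B x) / es B x * x.2) ^ 2 / m (es B x) ^ 2 = (normSq x.1 / B ^ 2 + x.2 ^ 2) / es B x ^ 2 := by
    field_simp
  rw [e3, ← h3]
  field_simp

theorem Em_mono {E E' M M' n2 h2 : ℝ} (hE : 0 < E) (hEE : E < E') (hM : 0 < M) (hMM : M < M') (hn : 0 ≤ n2)
    (hh : 0 ≤ h2) (h1 : n2 / E ^ 2 + h2 / M ^ 2 = 1) (h1' : n2 / E' ^ 2 + h2 / M' ^ 2 = 1) : False := by
  have hE' : 0 < E' := hE.trans hEE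
  have hM' : 0 < M' := hM.trans hMM
  have a1 : n2 / E' ^ 2 ≤ n2 / E ^ 2 := div_le_div_of_nonneg_left hn (by positivity) (by nlinarith)
  have a2 : h2 / M' ^ 2 ≤ h2 / M ^ 2 := div_le_div_of_nonneg_left hh (by positivity) (by nlinarith)
  rcases hn.eq_or_lt with h0 | h0
  · rcases hh.eq_or_lt with h3 | h3
    · rw [← h0, ← h3] at h1
      norm_num at h1
    · have : h2 / M' ^ 2 < h2 / M ^ 2 := div_lt_div_of_pos_left h3 (by positivity) (by nlinarith)
      linarith
  · have : n2 / E' ^ 2 < n2 / E ^ 2 := div_lt_div_of_pos_left h0 (by positivity) (by nlinarith)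
    linarith

theorem Em_inj (h : EMok a ma e m) (hB : 0 < B) {x x' : F3} (hx : a < es B x) (hx' : a < es B x')
    (he : EM B e m x = EM B e m x') : x = x' := by
  have h1 := Em_norm h hB hx
  have h2 := Em_norm h hB hx'
  rw [← he] at h2
  have hs : es B x = es B x' := by
    rcases lt_trichotomy (es B x) (es B x') with hl | hl | hl
    · exact (Em_mono (h.e_pos hx) (h.e_mono hx hx' hl) (Em_mpos h hx) (h.m_mono hx hx' hl)
        (Complex.normSq_nonneg _) (sq_nonneg _) h1 h2).elim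
    · exact hl
    · exact (Em_mono (h.e_pos hx') (h.e_mono hx' hx hl) (Em_mpos h hx') (h.m_mono hx' hx hl)
        (Complex.normSq_nonneg _) (sq_nonneg _) h2 h1).elim
  have h0 : 0 < es B x := lt_of_le_of_lt h.nn hx
  have h3 := h.e_pos hx
  have h4 := Em_mpos h hx
  have e1 : (EM B e m x).1 = (EM B e m x').1 := by rw [he]
  have e2 : (EM B e m x).2 = (EM B e m x').2 := by rw [he]
  simp only [EM] at e1 e2
  rw [← hs] at e1 e2
  refine Prod.ext ?_ ?_
  · refine mul_left_cancel₀ ?_ e1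
    exact_mod_cast (by positivity : (0 : ℝ) < e (es B x) / (B * es B x)).ne'
  · refine mul_left_cancel₀ ?_ e2
    exact (by positivity : (0 : ℝ) < m (es B x) / es B x).ne'

theorem Em_avoid (h : EMok a ma e m) (hB : 0 < B) {x : F3} (hx : a < es B x) :
    (EM B e m x).1 ≠ 0 ∨ ma < |(EM B e m x).2| := by
  have h0 : 0 < es B x := lt_of_le_of_lt h.nn hx
  have h3 := h.e_pos hx
  have h4 := Em_mpos h hx
  by_cases hw : x.1 = 0
  · right
    have e1 : es B x = |x.2| := by
      unfold es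
      rw [hw]
      simp [Real.sqrt_sq_eq_abs]
    have e2 : (EM B e m x).2 = m (es B x) / es B x * x.2 := rfl
    rw [e2, abs_mul, ← e1, abs_of_pos (by positivity), div_mul_cancel₀ _ h0.ne']
    exact h.m_gt hx
  · left
    show ((e (es B x) / (B * es B x) : ℝ) : ℂ) * x.1 ≠ 0
    refine mul_ne_zero ?_ hw
    exact_mod_cast (by positivity : (0 : ℝ) < e (es B x) / (B * es B x)).ne'

theorem Em_surj (h : EMok a ma e m) (hB : 0 < B) {y : F3} (hy : y.1 ≠ 0 ∨ ma < |y.2|) :
    ∃ x, a < es B x ∧ EM B e m x = y := by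
  -- the function `F`
  let F : ℝ → ℝ := fun s => normSq y.1 / e s ^ 2 + y.2 ^ 2 / m s ^ 2
  have hFc : ContinuousOn F (Ioi a) := by
    intro s hs
    have h1 : ContinuousAt e s := (h.es s hs).continuousAt
    have h2 : ContinuousAt m s := (h.ms s hs).continuousAt
    exact ((continuousAt_const.div (h1.pow 2) (pow_ne_zero 2 (h.e_pos hs).ne')).add
      (continuousAt_const.div (h2.pow 2) (pow_ne_zero 2 (Em_mpos h hs).ne'))).continuousWithinAt
  have hF1 : Tendsto F atTop (𝓝 0) := by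
    have h1 : Tendsto (fun s => e s ^ 2) atTop atTop := (tendsto_pow_atTop two_ne_zero).comp h.e1
    have h2 : Tendsto (fun s => m s ^ 2) atTop atTop := (tendsto_pow_atTop two_ne_zero).comp h.m1
    have h3 := (h1.const_div_atTop (normSq y.1)).add (h2.const_div_atTop (y.2 ^ 2))
    rwa [add_zero] at h3
  -- a large point
  obtain ⟨s₁, hs₁⟩ : ∃ s₁, a < s₁ ∧ F s₁ < 1 := by
    have h1 := (hF1.eventually (gt_mem_nhds one_pos)).and (eventually_gt_atTop a)
    obtain ⟨s, hs⟩ := h1.exists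
    exact ⟨s, hs.2, hs.1⟩
  -- a small point
  obtain ⟨s₀, hs₀⟩ : ∃ s₀, a < s₀ ∧ s₀ < s₁ ∧ 1 < F s₀ := by
    have hev : ∀ᶠ s in 𝓝[>] a, a < s ∧ s < s₁ := by
      have h1 : ∀ᶠ s in 𝓝[>] a, a < s := self_mem_nhdsWithin
      have h2 : ∀ᶠ s in 𝓝[>] a, s < s₁ := mem_nhdsWithin_of_mem_nhds (gt_mem_nhds hs₁.1)
      exact h1.and h2
    have hbig : ∀ᶠ s in 𝓝[>] a, a < s → 1 < F s := by
      rcases hy with hy | hy
      · have hn : 0 < normSq y.1 := Complex.normSq_pos.2 hy
        have h1 : Tendsto (fun s => e s ^ 2) (𝓝[>] a) (𝓝 0) := by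
          have := h.e0.pow 2
          simpa using this
        have h2 := h1.eventually (gt_mem_nhds hn)
        filter_upwards [h2] with s hs has
        have h3 : 0 < e s ^ 2 := pow_pos (h.e_pos has) 2
        have h4 : 1 < normSq y.1 / e s ^ 2 := by rw [lt_div_iff₀ h3]; linarith
        have h5 : 0 ≤ y.2 ^ 2 / m s ^ 2 := by positivity
        show 1 < normSq y.1 / e s ^ 2 + y.2 ^ 2 / m s ^ 2
        linarith
      · have h1 := h.m0.eventually (gt_mem_nhds hy)
        filter_upwards [h1] with s hs has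
        have h3 : 0 < m s := Em_mpos h has
        have h4 : 1 < y.2 ^ 2 / m s ^ 2 := by
          rw [lt_div_iff₀ (by positivity), one_mul, ← sq_abs y.2]
          exact pow_lt_pow_left₀ hs h3.le two_ne_zero
        have h5 : 0 ≤ normSq y.1 / e s ^ 2 := div_nonneg (Complex.normSq_nonneg _) (sq_nonneg _)
        show 1 < normSq y.1 / e s ^ 2 + y.2 ^ 2 / m s ^ 2
        linarith
    obtain ⟨s, hs⟩ := (hev.and hbig).exists
    exact ⟨s, hs.1.1, hs.1.2, hs.2 hs.1.1⟩
  obtain ⟨s, hs, hFs⟩ : ∃ s ∈ Icc s₀ s₁, F s = 1 := by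
    have := intermediate_value_Icc' hs₀.2.1.le (hFc.mono fun t ht => lt_of_lt_of_le hs₀.1 ht.1)
    exact this ⟨hs₁.2.le, hs₀.2.2.le⟩
  have has : a < s := lt_of_lt_of_le hs₀.1 hs.1
  have h0 : 0 < s := lt_of_le_of_lt h.nn has
  have h3 := h.e_pos has
  have h4 := Em_mpos h has
  let x : F3 := (((B * s / e s : ℝ) : ℂ) * y.1, s / m s * y.2)
  have hes : es B x = s := by
    have e1 : es B x ^ 2 = s ^ 2 := by
      rw [es_sq]
      have e2 : normSq x.1 = (B * s / e s) ^ 2 * normSq y.1 := by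
        show normSq (((B * s / e s : ℝ) : ℂ) * y.1) = _
        rw [Complex.normSq_mul, Complex.normSq_ofReal, sq]
      have e3 : x.2 = s / m s * y.2 := rfl
      rw [e2, e3]
      have e4 : (B * s / e s) ^ 2 * normSq y.1 / B ^ 2 + (s / m s * y.2) ^ 2 = s ^ 2 * F s := by
        show _ = s ^ 2 * (normSq y.1 / e s ^ 2 + y.2 ^ 2 / m s ^ 2)
        field_simp
      rw [e4, hFs, mul_one]
    exact (pow_left_inj₀ (es_nonneg B x) h0.le two_ne_zero).1 e1
  refine ⟨x, by rw [hes]; exact has, ?_⟩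
  refine Prod.ext ?_ ?_
  · show ((e (es B x) / (B * es B x) : ℝ) : ℂ) * (((B * s / e s : ℝ) : ℂ) * y.1) = y.1
    rw [hes, ← mul_assoc, ← Complex.ofReal_mul]
    have : e s / (B * s) * (B * s / e s) = 1 := by field_simp
    rw [this, Complex.ofReal_one, one_mul]
  · show m (es B x) / es B x * (s / m s * y.2) = y.2
    rw [hes]
    field_simp

theorem EM_injOn (hB : 0 < B) (h : EMok a ma e m) : InjOn (EM B e m) {x | a < es B x} :=
  fun _ hx _ hx' he => Em_inj h hB hx hx' he
theorem EM_image (hB : 0 < B) (h : EMok a ma e m) :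
    EM B e m '' {x | a < es B x} = {y | y.1 ≠ 0 ∨ ma < |y.2|} := by
  apply Subset.antisymm
  · rintro _ ⟨x, hx, rfl⟩
    exact Em_avoid h hB hx
  · intro y hy
    obtain ⟨x, hx, hxy⟩ := Em_surj h hB hy
    exact ⟨x, hx, hxy⟩
theorem EM_coef (hB : 0 < B) (h : EMok a ma e m) {x : F3} (hx : a < es B x) :
    ∃ r t : ℝ, 0 < r ∧ 0 < t ∧ (EM B e m x).1 = r * x.1 ∧ (EM B e m x).2 = t * x.2 := by
  have h0 : 0 < es B x := lt_of_le_of_lt h.nn hx
  have h3 := h.e_pos hx
  have h4 := Em_mpos h hx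
  exact ⟨e (es B x) / (B * es B x), m (es B x) / es B x, by positivity, by positivity, rfl, rfl⟩
/-- the semiaxes -/
theorem EM_le (hB : 0 < B) (h : EMok a ma e m) {x : F3} (hx : a < es B x) :
    ‖(EM B e m x).1‖ ≤ e (es B x) ∧ |(EM B e m x).2| ≤ m (es B x) := by
  have h0 : 0 < es B x := lt_of_le_of_lt h.nn hx
  have h3 := h.e_pos hx
  have h4 := Em_mpos h hx
  constructor
  · show ‖((e (es B x) / (B * es B x) : ℝ) : ℂ) * x.1‖ ≤ e (es B x)
    rw [norm_mul, Complex.norm_real, Real.norm_of_nonneg (by positivity), div_mul_eq_mul_div,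
      div_le_iff₀ (by positivity)]
    exact mul_le_mul_of_nonneg_left (norm_le_es hB x) h3.le
  · show |m (es B x) / es B x * x.2| ≤ m (es B x)
    rw [abs_mul, abs_of_pos (by positivity), div_mul_eq_mul_div, div_le_iff₀ h0]
    exact mul_le_mul_of_nonneg_left (abs_le_es x) h4.le
theorem EM_cjv (x : F3) : EM B e m (cjv x) = cjv (EM B e m x) := by
  have h1 : es B (cjv x) = es B x := by
    show Real.sqrt (normSq ((starRingEnd ℂ) x.1) / B ^ 2 + x.2 ^ 2) = _
    rw [Complex.normSq_conj]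
    rfl
  refine Prod.ext ?_ ?_
  · show ((e (es B (cjv x)) / (B * es B (cjv x)) : ℝ) : ℂ) * (starRingEnd ℂ) x.1 =
      (starRingEnd ℂ) (((e (es B x) / (B * es B x) : ℝ) : ℂ) * x.1)
    rw [h1, map_mul, Complex.conj_ofReal]
  · show m (es B (cjv x)) / es B (cjv x) * x.2 = m (es B x) / es B x * x.2
    rw [h1]
theorem EM_mir (x : F3) : EM B e m (mir x) = mir (EM B e m x) := by
  have h1 : es B (mir x) = es B x := by
    show Real.sqrt (normSq x.1 / B ^ 2 + (-x.2) ^ 2) = _
    rw [neg_sq]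
    rfl
  refine Prod.ext ?_ ?_
  · show ((e (es B (mir x)) / (B * es B (mir x)) : ℝ) : ℂ) * x.1 =
      ((e (es B x) / (B * es B x) : ℝ) : ℂ) * x.1
    rw [h1]
  · show m (es B (mir x)) / es B (mir x) * (-x.2) = -(m (es B x) / es B x * x.2)
    rw [h1, mul_neg]

theorem Em_es_pol (B u : ℝ) (X : ℂ) :
    es B (pol u X) = Real.sqrt (X.re ^ 2 / B ^ 2 + X.im ^ 2) := by
  show Real.sqrt (normSq ((X.re : ℂ) * ex u) / B ^ 2 + X.im ^ 2) = _
  rw [Complex.normSq_mul, Complex.normSq_ofReal, Complex.normSq_eq_norm_sq (ex u),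
    Pool.Agent.RSG.ex_norm, one_pow, mul_one, sq X.re]

theorem EM_pol (u : ℝ) (X : ℂ) : EM B e m (pol u X) = pol u (EMc B e m X) := by
  refine Prod.ext ?_ ?_
  · show ((e (es B (pol u X)) / (B * es B (pol u X)) : ℝ) : ℂ) * ((X.re : ℂ) * ex u) =
      (((EMc B e m X).re : ℝ) : ℂ) * ex u
    rw [Em_es_pol, ← mul_assoc, ← Complex.ofReal_mul]
    rfl
  · show m (es B (pol u X)) / es B (pol u X) * X.im = (EMc B e m X).im
    rw [Em_es_pol]
    rfl

/-- the half plane in the space -/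
noncomputable def Em_iota : ℂ →L[ℝ] F3 :=
  (Complex.ofRealCLM.comp Complex.reCLM).prod Complex.imCLM

/-- the projection -/
noncomputable def Em_pi : F3 →L[ℝ] ℂ :=
  Complex.ofRealCLM.comp (Complex.reCLM.comp (ContinuousLinearMap.fst ℝ ℂ ℝ)) +
    (Complex.ofRealCLM.comp (ContinuousLinearMap.snd ℝ ℂ ℝ)).smulRight I

theorem Em_iota_pol (X : ℂ) : Em_iota X = pol 0 X := by
  refine Prod.ext ?_ ?_
  · show ((X.re : ℝ) : ℂ) = (X.re : ℂ) * ex 0
    rw [Pool.Agent.RSG.ex_zero, mul_one]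
  · rfl

theorem Em_pi_iota (X : ℂ) : Em_pi (Em_iota X) = X := by
  show ((((X.re : ℝ) : ℂ).re : ℝ) : ℂ) + ((X.im : ℝ) : ℂ) • I = X
  rw [Complex.ofReal_re, smul_eq_mul]
  exact Complex.re_add_im X

theorem Em_iota_EM (X : ℂ) : Em_iota (EMc B e m X) = EM B e m (Em_iota X) := by
  rw [Em_iota_pol, Em_iota_pol, EM_pol]
/-- the complex version is a local diffeomorphism off the slit (planar version of the same computation, `w` real) -/
theorem EMc_ld (hB : 0 < B) (h : EMok a ma e m) {X : ℂ} (hX : a < Real.sqrt (X.re ^ 2 / B ^ 2 + X.im ^ 2)) :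
    LD (EMc B e m) X := by
  have hX' : a < es B (Em_iota X) := by
    rw [Em_iota_pol, Em_es_pol]
    exact hX
  have hsm : ∀ᶠ Y in 𝓝 X, ContDiffAt ℝ ∞ (EMc B e m) Y := by
    have hc : ContinuousAt (fun Y : ℂ => es B (Em_iota Y)) X :=
      ((es_cont B).comp Em_iota.continuous).continuousAt
    filter_upwards [hc.eventually_const_lt hX'] with Y hY
    have h1 : EMc B e m = fun Y => Em_pi (EM B e m (Em_iota Y)) := by
      funext Y
      rw [← Em_iota_EM, Em_pi_iota]
    rw [h1]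
    exact Em_pi.contDiff.contDiffAt.comp Y ((EM_smooth hB h hY).comp Y Em_iota.contDiff.contDiffAt)
  refine Pool.Agent.CSG.ld_of_fderiv hsm rfl ?_
  intro v hv
  have d1 : HasFDerivAt (EMc B e m) (fderiv ℝ (EMc B e m) X) X :=
    (hsm.self_of_nhds.differentiableAt (by simp)).hasFDerivAt
  have d2 : HasFDerivAt (EM B e m) (fderiv ℝ (EM B e m) (Em_iota X)) (Em_iota X) :=
    ((EM_smooth hB h hX').differentiableAt (by simp)).hasFDerivAt
  have d3 : HasFDerivAt (fun Y => Em_iota (EMc B e m Y)) (Em_iota.comp (fderiv ℝ (EMc B e m) X)) X :=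
    Em_iota.hasFDerivAt.comp X d1
  have d4 : HasFDerivAt (fun Y => EM B e m (Em_iota Y))
      ((fderiv ℝ (EM B e m) (Em_iota X)).comp Em_iota) X :=
    d2.comp X Em_iota.hasFDerivAt
  have e1 : (fun Y => Em_iota (EMc B e m Y)) = fun Y => EM B e m (Em_iota Y) := by
    funext Y
    exact Em_iota_EM Y
  rw [e1] at d3
  have e2 := congrArg (fun L : ℂ →L[ℝ] F3 => L v) (d3.unique d4)
  have e3 : Em_iota (fderiv ℝ (EMc B e m) X v) = fderiv ℝ (EM B e m) (Em_iota X) (Em_iota v) := e2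
  rw [hv, map_zero] at e3
  have e4 := Em_ker hB h hX' (Em_iota v) e3.symm
  rw [← Em_pi_iota v, e4, map_zero]

end Pool.Agent.CHW
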