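import Pool.Agent.CHW.Defs

/-!
# CHW/EvF: even functions as smooth functions of the square   (difficulty 2)

`shq v = Σ v^k/(2k+1)!`, `chq v = Σ v^k/(2k)!`: entire power series (e.g. `FormalMultilinearSeries.ofScalars`, radius `⊤`, so the sums are analytic, hence smooth).
`sinh x = x * shq (x²)`, `cosh x = chq (x²)` (`Real.hasSum_sinh`, `Real.hasSum_cosh`), `sin x = x * shq (-x²)`, `cos x = chq (-x²)` (`Real.hasSum_sin`, `Real.hasSum_cos`).
Any other proof is fine.  `shq v ≥ 1` for `v ≥ 0` (all terms are `≥ 0`), `shq (-v) ≥ 5/6` for `0 ≤ v ≤ 1` (`sin x ≥ x - x³/6`), `shq 0 = chq 0 = 1`.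
-/

open scoped Manifold ContDiff Topology
open Set Filter

namespace Pool.Agent.CHW

noncomputable def shq (v : ℝ) : ℝ := ∑' k : ℕ, v ^ k / ((2 * k + 1).factorial : ℝ)
noncomputable def chq (v : ℝ) : ℝ := ∑' k : ℕ, v ^ k / ((2 * k).factorial : ℝ)

theorem EvF_smooth (c : ℕ → ℝ) (h0 : ∀ n, 0 < c n) (h1 : ∀ n : ℕ, c (n + 1) ≤ c n / (n + 1)) :
    ContDiff ℝ ∞ (fun v : ℝ => ∑' k : ℕ, c k * v ^ k) := by
  have hr : (FormalMultilinearSeries.ofScalars ℝ c).radius = ⊤ := by
    apply FormalMultilinearSeries.ofScalars_radius_eq_top_of_tendsto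
    · exact Eventually.of_forall fun n => (h0 n).ne'
    · refine squeeze_zero (fun n => by positivity) (g := fun n : ℕ => 1 / ((n : ℝ) + 1)) (fun n => ?_)
        tendsto_one_div_add_atTop_nhds_zero_nat
      rw [Real.norm_of_nonneg (h0 _).le, Real.norm_of_nonneg (h0 _).le, Nat.succ_eq_add_one,
        div_le_iff₀ (h0 n)]
      have := h1 n
      calc c (n + 1) ≤ c n / (n + 1) := this
        _ = 1 / ((n : ℝ) + 1) * c n := by ring
  have hp := (FormalMultilinearSeries.ofScalars ℝ c).hasFPowerSeriesOnBall (by rw [hr]; exact ENNReal.zero_lt_top)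
  rw [hr] at hp
  have ha := hp.analyticOnNhd
  have hu : Metric.eball (0 : ℝ) ⊤ = univ := by
    ext x; simp
  have he : (FormalMultilinearSeries.ofScalars ℝ c).sum = fun v : ℝ => ∑' k : ℕ, c k * v ^ k := by
    have := FormalMultilinearSeries.ofScalarsSum_eq_tsum (c := c) (E := ℝ)
    funext v
    have h2 := congrFun this v
    simpa [FormalMultilinearSeries.ofScalarsSum] using h2
  rw [he] at ha
  rw [hu] at ha
  exact ha.contDiff

theorem EvF_shq_eq : shq = fun v : ℝ => ∑' k : ℕ, (1 / ((2 * k + 1).factorial : ℝ)) * v ^ k := by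
  funext v; unfold shq; congr 1; funext k; ring
theorem EvF_chq_eq : chq = fun v : ℝ => ∑' k : ℕ, (1 / ((2 * k).factorial : ℝ)) * v ^ k := by
  funext v; unfold chq; congr 1; funext k; ring

theorem shq_smooth : ContDiff ℝ ∞ shq := by
  rw [EvF_shq_eq]
  refine EvF_smooth _ (fun n => by positivity) (fun n => ?_)
  have h1 : (2 * (n + 1) + 1).factorial = (2 * n + 3) * ((2 * n + 2) * (2 * n + 1).factorial) := by
    rw [show 2 * (n + 1) + 1 = (2 * n + 1 + 1) + 1 by ring, Nat.factorial_succ, Nat.factorial_succ]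
  rw [h1, div_div]
  apply one_div_le_one_div_of_le (by positivity)
  push_cast
  have h2 : (0 : ℝ) < ((2 * n + 1).factorial : ℝ) := by positivity
  have h3 : (0 : ℝ) ≤ (n : ℝ) := by positivity
  nlinarith [mul_pos h2 h2, mul_nonneg h2.le h3, mul_nonneg (mul_nonneg h2.le h3) h3]
theorem chq_smooth : ContDiff ℝ ∞ chq := by
  rw [EvF_chq_eq]
  refine EvF_smooth _ (fun n => by positivity) (fun n => ?_)
  have h1 : (2 * (n + 1)).factorial = (2 * n + 2) * ((2 * n + 1) * (2 * n).factorial) := by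
    rw [show 2 * (n + 1) = (2 * n + 1) + 1 by ring, Nat.factorial_succ, Nat.factorial_succ]
  rw [h1, div_div]
  apply one_div_le_one_div_of_le (by positivity)
  push_cast
  have h2 : (0 : ℝ) < ((2 * n).factorial : ℝ) := by positivity
  have h3 : (0 : ℝ) ≤ (n : ℝ) := by positivity
  nlinarith [mul_pos h2 h2, mul_nonneg h2.le h3, mul_nonneg (mul_nonneg h2.le h3) h3]
theorem sinh_shq (x : ℝ) : Real.sinh x = x * shq (x ^ 2) := by
  rw [← (Real.hasSum_sinh x).tsum_eq]
  unfold shq
  rw [← tsum_mul_left]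
  congr 1; funext k
  rw [← pow_mul, pow_succ]; ring
theorem cosh_chq (x : ℝ) : Real.cosh x = chq (x ^ 2) := by
  rw [← (Real.hasSum_cosh x).tsum_eq]
  unfold chq
  congr 1; funext k
  rw [← pow_mul]
theorem sin_shq (x : ℝ) : Real.sin x = x * shq (-x ^ 2) := by
  rw [← (Real.hasSum_sin x).tsum_eq]
  unfold shq
  rw [← tsum_mul_left]
  congr 1; funext k
  rw [neg_pow (x ^ 2), ← pow_mul, pow_succ]; ring
theorem cos_chq (x : ℝ) : Real.cos x = chq (-x ^ 2) := by
  rw [← (Real.hasSum_cos x).tsum_eq]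
  unfold chq
  congr 1; funext k
  rw [neg_pow (x ^ 2), ← pow_mul]
theorem shq_zero : shq 0 = 1 := by
  unfold shq
  rw [tsum_eq_single 0]
  · simp
  · intro b hb; simp [hb]
theorem chq_zero : chq 0 = 1 := by
  unfold chq
  rw [tsum_eq_single 0]
  · simp
  · intro b hb; simp [hb]
theorem EvF_summable (v : ℝ) : Summable (fun k : ℕ => v ^ k / ((2 * k + 1).factorial : ℝ)) := by
  refine Summable.of_norm_bounded (Real.summable_pow_div_factorial |v|) (fun k => ?_)
  rw [norm_div, norm_pow, Real.norm_eq_abs, Real.norm_of_nonneg (by positivity : (0 : ℝ) ≤ ((2 * k + 1).factorial : ℝ))]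
  apply div_le_div_of_nonneg_left (by positivity) (by positivity)
  exact_mod_cast Nat.factorial_le (by omega)
theorem shq_ge {v : ℝ} (hv : 0 ≤ v) : 1 ≤ shq v := by
  have h := (EvF_summable v).le_tsum 0 (fun k _ => by positivity)
  simpa [shq] using h
theorem shq_ge' {v : ℝ} (hv : -1 ≤ v) : 5 / 6 ≤ shq v := by
  rcases le_or_gt 0 v with h | h
  · linarith [shq_ge h]
  · have hx : 0 < Real.sqrt (-v) := Real.sqrt_pos.2 (by linarith)
    have hx2 : Real.sqrt (-v) ^ 2 = -v := Real.sq_sqrt (by linarith)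
    have h1 := Real.sin_ge_sub_cube hx.le
    rw [sin_shq, hx2, neg_neg] at h1
    have h2 : Real.sqrt (-v) - Real.sqrt (-v) ^ 3 / 6 = Real.sqrt (-v) * (1 - (-v) / 6) := by
      have : Real.sqrt (-v) ^ 3 = Real.sqrt (-v) * (-v) := by rw [pow_succ, hx2]; ring
      rw [this]; ring
    rw [h2] at h1
    have h3 := le_of_mul_le_mul_left h1 hx
    linarith
theorem shq_le {v : ℝ} (hv : |v| ≤ 1) : shq v ≤ 6 / 5 := by
  rw [abs_le] at hv
  have h1 : shq v ≤ shq 1 ∨ shq v ≤ 1 := by
    rcases le_or_gt 0 v with h | h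
    · left
      refine (EvF_summable v).tsum_le_tsum (fun k => ?_) (EvF_summable 1)
      apply div_le_div_of_nonneg_right _ (by positivity)
      exact pow_le_pow_left₀ h hv.2 k
    · right
      have hx : 0 < Real.sqrt (-v) := Real.sqrt_pos.2 (by linarith)
      have hx2 : Real.sqrt (-v) ^ 2 = -v := Real.sq_sqrt (by linarith)
      have h1 := Real.sin_le hx.le
      rw [sin_shq, hx2, neg_neg] at h1
      have h3 : Real.sqrt (-v) * shq v ≤ Real.sqrt (-v) * 1 := by linarith
      exact le_of_mul_le_mul_left h3 hx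
  have h2 : shq 1 ≤ 6 / 5 := by
    have h := sinh_shq 1
    rw [one_pow, one_mul] at h
    rw [← h, Real.sinh_eq]
    have e1 := Real.exp_one_lt_d9
    have e2 : (1 / 3 : ℝ) < Real.exp (-1) := by
      rw [Real.exp_neg, ← one_div]
      apply one_div_lt_one_div_of_lt (Real.exp_pos _) (by linarith)
    linarith
  rcases h1 with h | h
  · linarith
  · linarith

end Pool.Agent.CHW
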