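import Pool.Agent.CHW.FnDef

/-!
# CHW/FnA: the fields of `WD` concerning `W`   (difficulty 2)

`W1 = Ft ∘ Rl ∘ Wx ∘ Tm`.  `Tm_Gd`: `Tm q` is good iff `q` is.
* `W1_loc`: composition of local diffeomorphisms (`Tm_ld`, `Wx_ld`, `Rl_ld`, `Str.ld`; `Wx_ne`, `Rl_ne`).   Periods: `Tm_shift`, `Wx_per`, `Wx_per_y`, `Rl_smul`, `Str.smul`.
* `W1_inj`: `Str.inj`, `Rl_inj`, `Wx_inj`: `Tm q' = Tm q + (m, 0, n) = Tm (q + (m, 0, n))` (`Tm_shift`), `Tm_bij`.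
* signs: `Str.pos`, `Rl_coef`, `Wx_pos`, `Tm_pos`, `Tm_neg'`, `Tm_zero`, `Tm_half` (`t = 1/2`); page `0`: `Wx_zero`, `Str.pos`/`neg`.
* `W1_collar`: the distance is `≥ d₀ ≥ d₁ ≥ b` (`b < r₃/4 ≤ d₁`), `Tm_far`, `|κ t| ≤ κ ≤ η`: `Str.str`.
* `W1_near0`: by periodicity `m = n = 0` (`zone_shift`, `W1` periods), `u² + y² < d₀²`.  If `u² + y² ≥ d₁²` then (the other lattice points are further than `d₁`: `d₀ ≤ 1/8`) `W1 = cyl (u, y, κ t)`, `|κ t| < x₁`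
  (`κ/8 ≤ η/8 < x₀ ≤ x₁`).  If `b² ≤ u² + y² < d₁²`: `Tm_far` (all lattice points are at distance `≥ b`), `n0`: `Rl (Wx ..) = cyl (u', Y', X')`, `u'² + Y'² < (5/4 d₁)²`, `|X'| < η`, then `Str.near`:
  the new point is in `zone (5/4 d₁ + d₁/4) x₀ 0` (`√((d₁/8)² + (d₁/8)²) ≤ d₁/4`).  If `0 < u² + y² < b²`: `(u, y) = (s (ex θ).im, s (ex θ).re)`, `Wx (u, y, t') = W0 (..) = Wb0 θ (s ex (t' - 1/2))` (`Wb0_glue`,
  `Wx_W0`), `nb`, and `Str.near` again.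
* `W1_near1`: `Tm_half`, `page1_zone` with `δ = x₁`, height `0`: `Str.plane` (`Wx_zero`).
-/

open scoped Manifold ContDiff Topology
open Set Filter
open Complex (I normSq)

namespace Pool.Agent.CHW

open Pool.Agent.CSG (stp thc)
open Pool.Agent.RSG (ex)

variable {P : Par} {d₀ x₁ x₀ η b κ : ℝ} {Ft : F3 → F3}

/-! ### helper lemmas -/

theorem FnA_b8 (F : Fd P d₀ x₁ x₀ η b κ Ft) : b ≤ 1 / 8 := by
  have h1 := F.b_lt
  have h2 := F.ok.r₃_le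
  have h3 := F.ok.d₁_le
  linarith

theorem FnA_bd (F : Fd P d₀ x₁ x₀ η b κ Ft) : b ≤ P.d₁ := by
  have h1 := F.b_lt
  have h2 := F.ok.r₃_le
  have h3 := F.ok.r₃_pos
  linarith

theorem FnA_d1pos (F : Fd P d₀ x₁ x₀ η b κ Ft) : 0 < P.d₁ := by
  have h2 := F.ok.r₃_le
  have h3 := F.ok.r₃_pos
  linarith

theorem FnA_gd (F : Fd P d₀ x₁ x₀ η b κ Ft) {q : ℝ × ℝ × ℝ} (hq : Gd q) : Gd (Tm κ b q) :=
  (Tm_Gd F.κ_pos F.κ_le F.b_pos (FnA_b8 F) q).2 hq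

theorem FnA_wx (F : Fd P d₀ x₁ x₀ η b κ Ft) {q : ℝ × ℝ × ℝ} (hq : Gd q) : Wx P (Tm κ b q) ≠ 0 :=
  Wx_ne F.ok (FnA_gd F hq)

theorem FnA_rl (F : Fd P d₀ x₁ x₀ η b κ Ft) {q : ℝ × ℝ × ℝ} (hq : Gd q) : Rl (Wx P (Tm κ b q)) ≠ 0 :=
  Rl_ne (FnA_wx F hq)

/-- other lattice points are far -/
theorem FnA_lat {u y c e : ℝ} (he : 0 ≤ e) (he' : e ≤ 1 / 8) (hce : u ^ 2 + y ^ 2 < (1 / 8) ^ 2)
    (hc : c ^ 2 ≤ u ^ 2 + y ^ 2) (hc' : |c| ≤ 1 / 8) (m n : ℤ) :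
    c ^ 2 ≤ (u - m) ^ 2 + (y - n) ^ 2 := by
  have key : ∀ (x : ℝ) (k : ℤ), x ^ 2 < (1 / 8) ^ 2 → k ≠ 0 → (1 / 8) ^ 2 ≤ (x - k) ^ 2 := by
    intro x k hx hk
    have h1 : |x| < 1 / 8 := by
      have := sq_lt_sq.1 hx
      rwa [abs_of_pos (show (0 : ℝ) < 1 / 8 by norm_num)] at this
    have h2 : (1 : ℝ) ≤ |(k : ℝ)| := by
      have : (1 : ℤ) ≤ |k| := Int.one_le_abs hk
      exact_mod_cast this
    have h3 : |(k : ℝ)| ≤ |x| + |x - k| := by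
      have := abs_sub_le (0 : ℝ) x k
      rw [zero_sub, zero_sub, abs_neg, abs_neg] at this
      exact this
    have h4 : 1 / 8 ≤ |x - k| := by linarith
    rw [← sq_abs (x - k)]
    nlinarith
  have hc2 : c ^ 2 ≤ (1 / 8) ^ 2 := by
    rw [← sq_abs c]
    nlinarith [abs_nonneg c]
  by_cases hm : m = 0
  · by_cases hn : n = 0
    · rw [hm, hn]
      simpa using hc
    · have := key y n (by nlinarith [sq_nonneg u]) hn
      nlinarith [sq_nonneg (u - m)]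
  · have := key u m (by nlinarith [sq_nonneg y]) hm
    nlinarith [sq_nonneg (y - n)]

/-- `Ft` moves points a little -/
theorem FnA_zone (F : Fd P d₀ x₁ x₀ η b κ Ft) {x : F3} (hx : x ∈ zone (2 * P.d₁) η 0) :
    Ft x ∈ zone (2 * d₀) x₁ 0 := by
  obtain ⟨u, Y, X, h1, h2, rfl⟩ := hx
  obtain ⟨u', Y', X', k1, k2, k3, k4⟩ := F.str.near u Y X h2.le
  have hd := FnA_d1pos F
  have hd0 : d₀ = 2 * P.d₁ := by
    have := F.d1
    linarith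
  refine ⟨u', Y', X', ?_, lt_of_lt_of_le k3 F.x0', k4⟩
  simp only [Int.cast_zero, sub_zero] at h1 ⊢
  have hu : |u| < 2 * P.d₁ := by
    apply abs_lt_of_sq_lt_sq _ (by linarith)
    nlinarith [sq_nonneg Y]
  have hY : |Y| < 2 * P.d₁ := by
    apply abs_lt_of_sq_lt_sq _ (by linarith)
    nlinarith [sq_nonneg u]
  have hu' : |u'| < 17 / 8 * P.d₁ := by
    have : |u'| ≤ |u' - u| + |u| := by
      have := abs_add_le (u' - u) u
      rwa [sub_add_cancel] at this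
    linarith
  have hY' : |Y'| < 17 / 8 * P.d₁ := by
    have : |Y'| ≤ |Y' - Y| + |Y| := by
      have := abs_add_le (Y' - Y) Y
      rwa [sub_add_cancel] at this
    linarith
  have e1 : u' ^ 2 ≤ (17 / 8 * P.d₁) ^ 2 := by
    rw [← sq_abs u']
    nlinarith [abs_nonneg u']
  have e2 : Y' ^ 2 ≤ (17 / 8 * P.d₁) ^ 2 := by
    rw [← sq_abs Y']
    nlinarith [abs_nonneg Y']
  rw [hd0]
  nlinarith

/-! ### the statements -/

theorem W1_ne (F : Fd P d₀ x₁ x₀ η b κ Ft) {q : ℝ × ℝ × ℝ} (hq : Gd q) : W1 P κ b Ft q ≠ 0 :=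
  F.str.ne _ (FnA_rl F hq)
theorem W1_loc (F : Fd P d₀ x₁ x₀ η b κ Ft) {q : ℝ × ℝ × ℝ} (hq : Gd q) : LD (W1 P κ b Ft) q := by
  have h1 : LD (Tm κ b) q := Tm_ld F.κ_pos F.κ_le F.b_pos (FnA_b8 F) q
  have h2 : LD (Wx P) (Tm κ b q) := Wx_ld F.ok (FnA_gd F hq)
  have h3 : LD Rl (Wx P (Tm κ b q)) := Rl_ld (FnA_wx F hq)
  have h4 : LD Ft (Rl (Wx P (Tm κ b q))) := F.str.ld _ (FnA_rl F hq)
  have h5 : LD (Wx P ∘ Tm κ b) q := IsLocalDiffeomorphAt.comp (hf := h1) (hg := h2) ..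
  have h6 : LD (Rl ∘ (Wx P ∘ Tm κ b)) q := IsLocalDiffeomorphAt.comp (hf := h5) (hg := h3) ..
  have h7 : LD (Ft ∘ (Rl ∘ (Wx P ∘ Tm κ b))) q := IsLocalDiffeomorphAt.comp (hf := h6) (hg := h4) ..
  exact h7
theorem W1_per (F : Fd P d₀ x₁ x₀ η b κ Ft) {u y t : ℝ} (hq : Gd (u, y, t)) (m n k : ℤ) :
    W1 P κ b Ft (u + m, y + n, t + k) = Real.exp n • W1 P κ b Ft (u, y, t) := by
  unfold W1
  rw [Tm_shift u y t m n k F.b_pos, Wx_per_y, Wx_per, Rl_smul, F.str.smul _ _ (FnA_rl F hq)]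
theorem W1_inj (F : Fd P d₀ x₁ x₀ η b κ Ft) {q q' : ℝ × ℝ × ℝ} (hq : Gd q) (hq' : Gd q')
    (he : W1 P κ b Ft q = W1 P κ b Ft q') :
    ∃ m n : ℤ, q'.1 = q.1 + m ∧ q'.2.1 = q.2.1 ∧ q'.2.2 = q.2.2 + n := by
  have h1 := F.str.inj _ _ (FnA_rl F hq) (FnA_rl F hq') he
  have h2 := Rl_inj (FnA_wx F hq) (FnA_wx F hq') h1
  obtain ⟨m, n, k1, k2, k3⟩ := Wx_inj F.ok (FnA_gd F hq) (FnA_gd F hq') h2
  obtain ⟨u, y, t⟩ := q
  obtain ⟨u', y', t'⟩ := q'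
  have h3 := Tm_shift (κ := κ) u y t m 0 n F.b_pos
  have h4 : Tm κ b (u', y', t') = Tm κ b (u + m, y + (0 : ℤ), t + n) := by
    rw [h3]
    refine Prod.ext k1 (Prod.ext ?_ k3)
    rw [k2]
    simp
  have h5 := (Tm_bij F.κ_pos F.κ_le F.b_pos (FnA_b8 F)).injective h4
  simp only [Prod.mk.injEq, Int.cast_zero, add_zero] at h5
  exact ⟨m, n, h5.1, h5.2.1, h5.2.2⟩
theorem W1_pos (F : Fd P d₀ x₁ x₀ η b κ Ft) {u y t : ℝ} (hq : Gd (u, y, t)) (h0 : 0 < t) (h1 : t < 1 / 2) :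
    0 < (W1 P κ b Ft (u, y, t)).2 := by
  show 0 < (Ft (Rl (Wx P (Tm κ b (u, y, t))))).2
  rw [F.str.pos _ (FnA_rl F hq)]
  obtain ⟨r, hr, h2⟩ := Rl_coef (FnA_wx F hq)
  rw [h2]
  obtain ⟨k1, k2⟩ := Tm_pos (b := b) F.κ_pos F.κ_le (u := u) (y := y) h0 h1
  have h3 : 0 < (Wx P (Tm κ b (u, y, t))).2 :=
    (Wx_pos F.ok (u := u) (y := y) (t := (Tm κ b (u, y, t)).2.2) (FnA_gd F hq)).2
      (Real.sin_pos_of_pos_of_lt_pi (by positivity) (by nlinarith [Real.pi_pos]))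
  exact mul_pos hr h3
theorem W1_neg (F : Fd P d₀ x₁ x₀ η b κ Ft) {u y t : ℝ} (hq : Gd (u, y, t)) (h0 : 1 / 2 < t) (h1 : t < 1) :
    (W1 P κ b Ft (u, y, t)).2 < 0 := by
  show (Ft (Rl (Wx P (Tm κ b (u, y, t))))).2 < 0
  rw [F.str.neg _ (FnA_rl F hq)]
  obtain ⟨r, hr, h2⟩ := Rl_coef (FnA_wx F hq)
  rw [h2]
  obtain ⟨k1, k2⟩ := Tm_neg' (b := b) F.κ_pos F.κ_le (u := u) (y := y) h0 h1
  have hs : Real.sin (2 * Real.pi * (Tm κ b (u, y, t)).2.2) < 0 := by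
    have e : 2 * Real.pi * (Tm κ b (u, y, t)).2.2 =
        (2 * Real.pi * (Tm κ b (u, y, t)).2.2 - 2 * Real.pi) + 2 * Real.pi := by ring
    rw [e, Real.sin_add_two_pi]
    exact Real.sin_neg_of_neg_of_neg_pi_lt (by nlinarith [Real.pi_pos]) (by nlinarith [Real.pi_pos])
  have h3 : ¬ 0 < (Wx P (Tm κ b (u, y, t))).2 := fun hh => by
    have := (Wx_pos F.ok (u := u) (y := y) (t := (Tm κ b (u, y, t)).2.2) (FnA_gd F hq)).1 hh
    linarith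
  have h4 : (Wx P (Tm κ b (u, y, t))).2 ≠ 0 := fun hh => by
    have := (Wx_zero F.ok (u := u) (y := y) (t := (Tm κ b (u, y, t)).2.2) (FnA_gd F hq)).1 hh
    linarith
  have h5 : (Wx P (Tm κ b (u, y, t))).2 < 0 := lt_of_le_of_ne (not_lt.1 h3) h4
  exact mul_neg_of_pos_of_neg hr h5
theorem W1_page0 (F : Fd P d₀ x₁ x₀ η b κ Ft) {u y : ℝ} (hq : Gd (u, y, 0)) : (W1 P κ b Ft (u, y, 0)).2 = 0 := by
  have h0 : (Wx P (u, y, 0)).2 = 0 := by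
    rw [Wx_zero F.ok hq, mul_zero, Real.sin_zero]
  obtain ⟨r, hr, h2⟩ := Rl_coef (Wx_ne F.ok hq)
  have h3 : (Rl (Wx P (u, y, 0))).2 = 0 := by
    rw [h2]
    show r * (Wx P (u, y, 0)).2 = 0
    rw [h0, mul_zero]
  unfold W1
  rw [Tm_zero, F.str.plane _ (Rl_ne (Wx_ne F.ok hq)) h3, h3]
theorem FnA_half (F : Fd P d₀ x₁ x₀ η b κ Ft) {u y : ℝ} (hq : Gd (u, y, 1 / 2)) :
    (Rl (Wx P (u, y, 1 / 2))).2 = 0 ∧ W1 P κ b Ft (u, y, 1 / 2) = Rl (Wx P (u, y, 1 / 2)) := by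
  have h0 : (Wx P (u, y, 1 / 2)).2 = 0 := by
    rw [Wx_zero F.ok hq, show 2 * Real.pi * (1 / 2) = Real.pi by ring, Real.sin_pi]
  obtain ⟨r, hr, h2⟩ := Rl_coef (Wx_ne F.ok hq)
  have h3 : (Rl (Wx P (u, y, 1 / 2))).2 = 0 := by
    rw [h2]
    show r * (Wx P (u, y, 1 / 2)).2 = 0
    rw [h0, mul_zero]
  refine ⟨h3, ?_⟩
  unfold W1
  rw [Tm_half (n := 0) (by norm_num), F.str.plane _ (Rl_ne (Wx_ne F.ok hq)) h3]

theorem W1_page1 (F : Fd P d₀ x₁ x₀ η b κ Ft) {u y : ℝ} (hq : Gd (u, y, 1 / 2)) : (W1 P κ b Ft (u, y, 1 / 2)).2 = 0 := by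
  obtain ⟨h1, h2⟩ := FnA_half F hq
  rw [h2, h1]
theorem FnA_collar (F : Fd P d₀ x₁ x₀ η b κ Ft) {u y t : ℝ} (ht : |t| ≤ 1 / 8)
    (hd : ∀ m n : ℤ, P.d₁ ^ 2 ≤ (u - m) ^ 2 + (y - n) ^ 2) : W1 P κ b Ft (u, y, t) = cyl (u, y, κ * t) := by
  have hb := F.b_pos
  have hbd := FnA_bd F
  have h1 : Tm κ b (u, y, t) = (u, y, κ * t) :=
    Tm_far F.b_pos (FnA_b8 F) (fun m n => le_trans (by nlinarith) (hd m n)) ht
  unfold W1
  rw [h1]
  apply F.str.str u y (κ * t) _ hd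
  have h2 := F.κη
  have h3 := F.κ_pos
  rw [abs_mul, abs_of_pos h3]
  nlinarith [abs_nonneg t]

theorem FnA_near0 (F : Fd P d₀ x₁ x₀ η b κ Ft) {u y t : ℝ} (hq : Gd (u, y, t)) (ht : |t| ≤ 1 / 8)
    (hd : u ^ 2 + y ^ 2 < d₀ ^ 2) : W1 P κ b Ft (u, y, t) ∈ zone (2 * d₀) x₁ 0 := by
  have hb := F.b_pos
  have hb8 := FnA_b8 F
  have hbd := FnA_bd F
  have hd1 := FnA_d1pos F
  have hd18 := F.ok.d₁_le
  have hd0 := F.d0
  have hd0' := F.d0'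
  have hκ := F.κ_pos
  have hκη := F.κη
  have hηx := F.str.η_lt
  have hxx := F.x0'
  have hη := F.str.η_pos
  have hsm : u ^ 2 + y ^ 2 < (1 / 8) ^ 2 := lt_of_lt_of_le hd (by nlinarith)
  have hκt : |κ * t| ≤ κ / 8 := by
    rw [abs_mul, abs_of_pos hκ]
    nlinarith [abs_nonneg t]
  rcases le_or_gt (P.d₁ ^ 2) (u ^ 2 + y ^ 2) with h1 | h1
  · rw [FnA_collar F ht (FnA_lat hd1.le hd18 hsm h1 (by rw [abs_of_pos hd1]; exact hd18))]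
    refine ⟨u, y, κ * t, ?_, by linarith, rfl⟩
    simp only [Int.cast_zero, sub_zero]
    nlinarith
  · apply FnA_zone F
    rcases le_or_gt (b ^ 2) (u ^ 2 + y ^ 2) with h2 | h2
    · rw [Tm_far hb hb8 (FnA_lat hb.le hb8 hsm h2 (by rw [abs_of_pos hb]; exact hb8)) ht]
      exact zone_mono (by linarith) (by linarith) le_rfl 0
        (F.n0 u y (κ * t) (by linarith) h2 h1.le)
    · set p : ℂ := ⟨y, u⟩ with hp
      set θ : ℝ := Complex.arg p / (2 * Real.pi) with hθ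
      have e1 : (‖p‖ : ℂ) * ex θ = p := Pool.Agent.RSG.ex_arg
      have hre : ‖p‖ * (ex θ).re = y := by
        have := congrArg Complex.re e1
        rwa [Complex.re_ofReal_mul] at this
      have him : ‖p‖ * (ex θ).im = u := by
        have := congrArg Complex.im e1
        rwa [Complex.im_ofReal_mul] at this
      have hps : ‖p‖ ^ 2 = u ^ 2 + y ^ 2 := by
        rw [Complex.sq_norm, Complex.normSq_apply]
        simp only [hp]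
        ring
      have hp0 : 0 < ‖p‖ := by
        rw [norm_pos_iff]
        intro h0
        apply hq.1
        refine ⟨0, 0, ?_, ?_⟩
        · simpa [hp] using congrArg Complex.im h0
        · simpa [hp] using congrArg Complex.re h0
      have hpb : ‖p‖ < b := by
        apply lt_of_pow_lt_pow_left₀ 2 hb.le
        rw [hps]
        exact h2
      have hbl := F.b_lt
      set t' : ℝ := (Tm κ b (u, y, t)).2.2 with ht'
      have e2 : Tm κ b (u, y, t) = (u, y, t') := rfl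
      have e3 : Wx P (u, y, t') = W0 P (u, y, t') := by
        have hy : |y - (0 : ℤ)| < 1 / 2 := by
          rw [Int.cast_zero, sub_zero]
          apply abs_lt_of_sq_lt_sq _ (by norm_num)
          nlinarith [sq_nonneg u]
        rw [Wx_W0 P hy, zpow_zero, one_smul, Int.cast_zero, sub_zero]
      have e4 : Wb0 P θ (‖p‖ * ex (t' - 1 / 2)) = W0 P (u, y, t') := by
        rw [Wb0_glue F.ok hp0 (by linarith), hre, him]
      rw [e2, e3, ← e4]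
      refine zone_mono hd1.le (by linarith) le_rfl 0 (F.nb θ _ ?_)
      rw [norm_mul, Pool.Agent.RSG.ex_norm, mul_one, Complex.norm_real, norm_norm]
      exact hpb.le

theorem W1_collar (F : Fd P d₀ x₁ x₀ η b κ Ft) {u y t : ℝ} (ht : |t| ≤ 1 / 8)
    (hd : ∀ m n : ℤ, d₀ ^ 2 ≤ (u - m) ^ 2 + (y - n) ^ 2) : W1 P κ b Ft (u, y, t) = cyl (u, y, κ * t) := by
  have hd1 := FnA_d1pos F
  have hd0 := F.d1
  exact FnA_collar F ht fun m n => le_trans (by nlinarith) (hd m n)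
theorem W1_near0 (F : Fd P d₀ x₁ x₀ η b κ Ft) {u y t : ℝ} {m n : ℤ} (hq : Gd (u, y, t)) (ht : |t| ≤ 1 / 8)
    (hd : (u - m) ^ 2 + (y - n) ^ 2 < d₀ ^ 2) : W1 P κ b Ft (u, y, t) ∈ zone (2 * d₀) x₁ n := by
  have hq' : Gd (u - m, y - n, t) := by
    have h1 := Gd_shift (u := u - m) (y := y - n) (t := t) m n 0
    rw [sub_add_cancel, sub_add_cancel, Int.cast_zero, add_zero] at h1
    exact h1.1 hq
  have h2 := W1_per F hq' m n 0
  rw [sub_add_cancel, sub_add_cancel, Int.cast_zero, add_zero] at h2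
  have h3 := FnA_near0 F hq' ht hd
  rw [h2]
  have h4 := (zone_shift (d := 2 * d₀) (x₁ := x₁) 0 n (x := W1 P κ b Ft (u - m, y - n, t))).2 h3
  rwa [zero_add] at h4
theorem W1_near1 (F : Fd P d₀ x₁ x₀ η b κ Ft) {u y : ℝ} {n : ℤ} (hq : Gd (u, y, 1 / 2)) (hy : |y - n| < 1 / 2) :
    W1 P κ b Ft (u, y, 1 / 2) ∈ zone (2 * d₀) x₁ n := by
  rw [(FnA_half F hq).2]
  have hd1 := FnA_d1pos F
  have hd0 := F.d1
  exact zone_mono (by linarith) (by linarith) le_rfl n (page1_zone F.ok hq hy F.x1)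

end Pool.Agent.CHW
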