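import Pool.Agent.CHW.FnDef

/-!
# CHW/FnB: the fields of `WD` concerning the binding, `bk_disj`, `cover`   (difficulty 2)

Hypotheses `0 < ε`, `10 ε ≤ b` (so `‖ζ‖ < 5` gives `‖ε ζ‖ < b/2 < r₃/4`).  `Wb1 (θ, ζ) = Ft (Rl (Wb0 θ (ε ζ)))`.
* `Wb1_loc`: `Wb0_ld`, scaling of `ζ`, `Rl_ld`, `Str.ld` (`Wb0 ≠ 0`: `Wb0_rr`).   `Wb1_glue`: `ε (s ex (t - 1/2)) = (ε s) ex (t - 1/2)`, `Wb0_glue`, `Wx_W0` (`n = 0`), `Tm_near` (`(ε s)² ≤ (b/2)²`).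
* `Wb1_inj`: `Real.exp n • Ft (Rl x') = Ft (Rl (L^n • x'))` (`Str.smul`, `Rl_smul`), injectivity: `Wb0 θ (εζ) = L^n • Wb0 θ' (εζ')`; both `rr` are in `[1/3, 3]`, so `n = 0` (`L = 4000000`); `Wb0_inj`.
* `Wb1_zone`: `nb`, then `Str.near`: `zone d₁ η 0` goes into `zone (d₁ + d₁/4) x₀ 0 ⊆ zone (2 d₀) x₁ 0`.
* `Wb1_disj`: `Wx_notB` (`Wb0_circle`).   `bk_disj`: `core_KS`, `BC_KS`.
* `cover1`: `x = Ft (Rl z)`, `z ≠ 0` (`Str.surj`, `Rl_surj`), `Wx_cover`: `z = Wx q`, `q = Tm q'` (`Tm_bij`, `Tm_Gd`); `z = L^n • b`, `b = Wb0 θ 0` (`Wb0_circle`); `z = L^n • k`, `KS_core`.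
-/

open scoped Manifold ContDiff Topology
open Set Filter
open Complex (I normSq)

namespace Pool.Agent.CHW

open Pool.Agent.CSG (stp thc)
open Pool.Agent.RSG (ex)

variable {P : Par} {d₀ x₁ x₀ η b κ ε : ℝ} {Ft : F3 → F3}

/-- composition -/
theorem FnB_comp {X Y Z : Type*} [NormedAddCommGroup X] [NormedSpace ℝ X] [NormedAddCommGroup Y] [NormedSpace ℝ Y]
    [NormedAddCommGroup Z] [NormedSpace ℝ Z] {f : X → Y} {g : Y → Z} {x : X} (hf : LD f x) (hg : LD g (f x)) :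
    LD (fun y => g (f y)) x := IsLocalDiffeomorphAt.comp (hf := hf) (hg := hg) ..

theorem FnB_Ft (F : Fd P d₀ x₁ x₀ η b κ Ft) {x : F3} (hx : x ≠ 0) (n : ℤ) :
    Real.exp n • Ft (Rl x) = Ft (Rl ((4000000 : ℝ) ^ n • x)) := by
  rw [Rl_smul, F.str.smul n _ (Rl_ne hx)]

theorem FnB_smul_ne {x : F3} (hx : x ≠ 0) (n : ℤ) : (4000000 : ℝ) ^ n • x ≠ 0 :=
  smul_ne_zero (zpow_ne_zero _ (by norm_num)) hx

theorem FnB_inj (F : Fd P d₀ x₁ x₀ η b κ Ft) {x y : F3} (hx : x ≠ 0) (hy : y ≠ 0) (h : Ft (Rl x) = Ft (Rl y)) : x = y :=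
  Rl_inj hx hy (F.str.inj _ _ (Rl_ne hx) (Rl_ne hy) h)

theorem FnB_b8 (F : Fd P d₀ x₁ x₀ η b κ Ft) : b ≤ 1 / 8 := by
  have h1 := F.b_lt
  have h2 := F.ok.r₃_le
  have h3 := F.ok.d₁_le
  linarith [F.b_pos, F.ok.r₃_pos]

theorem FnB_lt (hε : 0 < ε) (hε' : 10 * ε ≤ b) {ζ : ℂ} (hζ : ‖ζ‖ < 5) : ‖(ε : ℂ) * ζ‖ < b / 2 := by
  rw [norm_mul, Complex.norm_real, Real.norm_eq_abs, abs_of_pos hε]
  nlinarith

theorem FnB_r (F : Fd P d₀ x₁ x₀ η b κ Ft) (hε : 0 < ε) (hε' : 10 * ε ≤ b) {ζ : ℂ} (hζ : ‖ζ‖ < 5) :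
    ‖(ε : ℂ) * ζ‖ < P.r₃ / 4 := by
  have h1 := FnB_lt hε hε' hζ
  linarith [F.b_lt, F.b_pos]

theorem FnB_ne (h : P.Ok) {θ : ℝ} {ζ : ℂ} (hζ : ‖ζ‖ < P.r₃ / 4) : Wb0 P θ ζ ≠ 0 := by
  intro h0
  have h1 := (Wb0_rr h (θ := θ) hζ).1
  rw [h0, rr_eq_zero.2 rfl] at h1
  norm_num at h1

theorem FnB_ne0 (h : P.Ok) (θ : ℝ) : Wb0 P θ 0 ≠ 0 :=
  FnB_ne h (by rw [norm_zero]; linarith [h.r₃_pos])

theorem Wb1_per (P : Par) (ε : ℝ) (Ft : F3 → F3) (θ : ℝ) (ζ : ℂ) : Wb1 P ε Ft (θ + 1, ζ) = Wb1 P ε Ft (θ, ζ) := by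
  have h := Wb0_per (P := P) θ (ε * ζ) 1
  rw [Int.cast_one] at h
  unfold Wb1
  simp only
  rw [h]

theorem FnB_scale (hε : 0 < ε) (q : ℝ × ℂ) : LD (fun q : ℝ × ℂ => ((q.1, (ε : ℂ) * q.2) : ℝ × ℂ)) q := by
  have hne : (ε : ℂ) ≠ 0 := by exact_mod_cast hε.ne'
  refine Pool.Agent.CSG.ld_of_perm (f := ⟨fun q : ℝ × ℂ => (q.1, (ε : ℂ) * q.2), fun q : ℝ × ℂ => (q.1, (ε : ℂ)⁻¹ * q.2),
    fun q => ?_, fun q => ?_⟩) ?_ ?_ q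
  · simp only
    rw [inv_mul_cancel_left₀ hne]
  · simp only
    rw [mul_inv_cancel_left₀ hne]
  · exact contDiff_fst.prodMk (contDiff_const.mul contDiff_snd)
  · exact contDiff_fst.prodMk (contDiff_const.mul contDiff_snd)

theorem Wb1_loc (F : Fd P d₀ x₁ x₀ η b κ Ft) (hε : 0 < ε) (hε' : 10 * ε ≤ b) {θ : ℝ} {ζ : ℂ} (hζ : ‖ζ‖ < 5) :
    LD (Wb1 P ε Ft) (θ, ζ) := by
  have hr := FnB_r F hε hε' hζ
  have h0 := FnB_ne F.ok (θ := θ) hr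
  have h1 : LD (fun q : ℝ × ℂ => Wb0 P q.1 (ε * q.2)) (θ, ζ) :=
    FnB_comp (f := fun q : ℝ × ℂ => ((q.1, (ε : ℂ) * q.2) : ℝ × ℂ)) (g := fun q : ℝ × ℂ => Wb0 P q.1 q.2)
      (FnB_scale hε (θ, ζ)) (Wb0_ld F.ok hr)
  have h2 : LD (fun q : ℝ × ℂ => Rl (Wb0 P q.1 (ε * q.2))) (θ, ζ) :=
    FnB_comp (f := fun q : ℝ × ℂ => Wb0 P q.1 (ε * q.2)) (g := Rl) h1 (Rl_ld h0)
  exact FnB_comp (f := fun q : ℝ × ℂ => Rl (Wb0 P q.1 (ε * q.2))) (g := Ft) h2 (F.str.ld _ (Rl_ne h0))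

theorem Wb1_glue (F : Fd P d₀ x₁ x₀ η b κ Ft) (hε : 0 < ε) (hε' : 10 * ε ≤ b) {θ s t : ℝ} (hs : 0 < s) (hs' : s < 5) :
    Wb1 P ε Ft (θ, s * ex (t - 1 / 2)) = W1 P κ b Ft (ε * s * (ex θ).im, ε * s * (ex θ).re, t) := by
  have hb := F.b_pos
  have hb8 := FnB_b8 F
  have h0 : 0 < ε * s := mul_pos hε hs
  have h1 : ε * s < b / 2 := by nlinarith
  have h2 : ε * s < P.r₃ / 4 := by linarith [F.b_lt]
  have h3 : (ε : ℂ) * (s * ex (t - 1 / 2)) = ((ε * s : ℝ) : ℂ) * ex (t - 1 / 2) := by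
    push_cast
    ring
  have h4 : (ex θ).im ^ 2 + (ex θ).re ^ 2 = 1 := by
    rw [Pool.Agent.RSG.ex_re, Pool.Agent.RSG.ex_im]
    exact Real.sin_sq_add_cos_sq _
  have h5 : |(ex θ).re| ≤ 1 := by
    rw [Pool.Agent.RSG.ex_re]
    exact Real.abs_cos_le_one _
  have h6 : |ε * s * (ex θ).re| < 1 / 2 := by
    rw [abs_mul, abs_of_pos h0]
    nlinarith [abs_nonneg (ex θ).re]
  unfold Wb1 W1
  simp only
  rw [h3, Wb0_glue F.ok h0 h2, Tm_near hb hb8 (m := 0) (n := 0), Wx_W0 P (n := 0)]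
  · rw [zpow_zero, one_smul, Int.cast_zero, sub_zero]
  · rw [Int.cast_zero, sub_zero]
    exact h6
  · rw [Int.cast_zero, sub_zero, sub_zero]
    have h7 : (ε * s * (ex θ).im) ^ 2 + (ε * s * (ex θ).re) ^ 2 = (ε * s) ^ 2 := by
      rw [mul_pow, mul_pow _ (ex θ).re, ← mul_add, h4, mul_one]
    rw [h7]
    nlinarith

theorem FnB_zpow {a c : ℝ} {n : ℤ} (ha : 1 / 3 ≤ a) (ha' : a ≤ 3) (hc : 1 / 3 ≤ c) (hc' : c ≤ 3)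
    (h : a = (4000000 : ℝ) ^ n * c) : n = 0 := by
  rcases lt_trichotomy n 0 with hn | hn | hn
  · exfalso
    have h1 : (4000000 : ℝ) ^ n ≤ (4000000 : ℝ) ^ (-1 : ℤ) := zpow_le_zpow_right₀ (by norm_num) (by omega)
    rw [zpow_neg, zpow_one] at h1
    have h2 : (4000000 : ℝ) ^ n * c ≤ (4000000 : ℝ)⁻¹ * 3 := by
      apply mul_le_mul h1 hc' (by linarith) (by norm_num)
    norm_num at h2
    linarith
  · exact hn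
  · exfalso
    have h1 : (4000000 : ℝ) ^ (1 : ℤ) ≤ (4000000 : ℝ) ^ n := zpow_le_zpow_right₀ (by norm_num) (by omega)
    rw [zpow_one] at h1
    have h2 : (4000000 : ℝ) * (1 / 3) ≤ (4000000 : ℝ) ^ n * c :=
      mul_le_mul h1 hc (by norm_num) (by linarith)
    linarith

theorem Wb1_inj (F : Fd P d₀ x₁ x₀ η b κ Ft) (hε : 0 < ε) (hε' : 10 * ε ≤ b) {θ θ' : ℝ} {ζ ζ' : ℂ} {n : ℤ} (hζ : ‖ζ‖ < 5)
    (hζ' : ‖ζ'‖ < 5) (he : Wb1 P ε Ft (θ, ζ) = Real.exp n • Wb1 P ε Ft (θ', ζ')) :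
    n = 0 ∧ ζ = ζ' ∧ ∃ m : ℤ, θ' = θ + m := by
  have hr := FnB_r F hε hε' hζ
  have hr' := FnB_r F hε hε' hζ'
  have h0 := FnB_ne F.ok (θ := θ) hr
  have h0' := FnB_ne F.ok (θ := θ') hr'
  unfold Wb1 at he
  simp only at he
  rw [FnB_Ft F h0'] at he
  have h1 := FnB_inj F h0 (FnB_smul_ne h0' n) he
  have hn : n = 0 := by
    have h2 := Wb0_rr F.ok (θ := θ) hr
    have h3 := Wb0_rr F.ok (θ := θ') hr'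
    refine FnB_zpow h2.1 h2.2 h3.1 h3.2 ?_
    have h4 := congrArg rr h1
    rwa [rr_smul, abs_of_pos (zpow_pos (by norm_num) n)] at h4
  refine ⟨hn, ?_⟩
  rw [hn, zpow_zero, one_smul] at h1
  obtain ⟨h2, h3⟩ := Wb0_inj F.ok hr hr' h1
  refine ⟨?_, h3⟩
  have hne : (ε : ℂ) ≠ 0 := by exact_mod_cast hε.ne'
  exact (mul_left_cancel₀ hne h2).symm

theorem Wb1_zone (F : Fd P d₀ x₁ x₀ η b κ Ft) (hε : 0 < ε) (hε' : 10 * ε ≤ b) (θ : ℝ) {ζ : ℂ} (hζ : ‖ζ‖ < 5) :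
    Wb1 P ε Ft (θ, ζ) ∈ zone (2 * d₀) x₁ 0 := by
  have h1 := FnB_lt hε hε' hζ
  obtain ⟨u, Y, X, h2, h3, h4⟩ := F.nb θ (ε * ζ) (by linarith [F.b_pos])
  obtain ⟨u', Y', X', h5, h6, h7, h8⟩ := F.str.near u Y X h3.le
  refine ⟨u', Y', X', ?_, lt_of_lt_of_le h7 F.x0', ?_⟩
  · rw [Int.cast_zero, sub_zero] at h2 ⊢
    have h9 := F.d1
    have h10 := F.d0
    rw [abs_lt] at h5 h6
    have h11 : d₀ = 2 * P.d₁ := by linarith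
    have h12 : 0 < P.d₁ := by linarith
    have h13 : (u' - u) ^ 2 ≤ (P.d₁ / 8) ^ 2 := by nlinarith
    have h14 : (Y' - Y) ^ 2 ≤ (P.d₁ / 8) ^ 2 := by nlinarith
    rw [h11]
    nlinarith [sq_nonneg (u' - 2 * u), sq_nonneg (Y' - 2 * Y)]
  · unfold Wb1
    simp only
    rw [h4, h8]

theorem FnB_BC (h : P.Ok) (θ : ℝ) : Wb0 P θ 0 ∈ BC P := (Wb0_circle h).2 ⟨θ, rfl⟩

theorem FnB_zero (P : Par) (ε : ℝ) (Ft : F3 → F3) (θ : ℝ) : Wb1 P ε Ft (θ, 0) = Ft (Rl (Wb0 P θ 0)) := by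
  unfold Wb1
  simp only
  rw [mul_zero]

theorem Wb1_disj (F : Fd P d₀ x₁ x₀ η b κ Ft) (θ : ℝ) {q : ℝ × ℝ × ℝ} (n : ℤ) (hq : Gd q) :
    Real.exp n • Wb1 P ε Ft (θ, 0) ≠ W1 P κ b Ft q := by
  intro he
  have hq' : Gd (Tm κ b q) := (Tm_Gd F.κ_pos F.κ_le F.b_pos (FnB_b8 F) q).2 hq
  have h0 := FnB_ne0 F.ok θ
  rw [FnB_zero, FnB_Ft F h0] at he
  have h1 := FnB_inj F (FnB_smul_ne h0 n) (Wx_ne F.ok hq') he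
  exact Wx_notB F.ok hq' (FnB_BC F.ok θ) n h1.symm

theorem bk1_disj (F : Fd P d₀ x₁ x₀ η b κ Ft) (hε : 0 < ε) (hε' : ε ≤ 1 / 16) (l θ : ℝ) (n : ℤ) :
    Real.exp n • Wk1 P ε Ft (l, 0) ≠ Wb1 P ε Ft (θ, 0) := by
  intro he
  have h0 := FnB_ne0 F.ok θ
  have h0' := Wk0_ne F.ok hε hε' l (ζ := 0) (by simp)
  rw [FnB_zero, Wk1, FnB_Ft F h0'] at he
  have h1 := FnB_inj F (FnB_smul_ne h0' n) h0 he
  obtain ⟨m, k, hk, hm⟩ := core_KS F.ok hε hε' l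
  rw [hm, smul_smul, ← zpow_add₀ (by norm_num)] at h1
  exact BC_KS F.ok (FnB_BC F.ok θ) hk _ h1.symm

theorem cover1 (F : Fd P d₀ x₁ x₀ η b κ Ft) (hε : 0 < ε) (hε' : ε ≤ 1 / 16) {x : F3} (hx : x ≠ 0) :
    (∃ θ, ∃ n : ℤ, x = Real.exp n • Wb1 P ε Ft (θ, 0)) ∨ (∃ l, ∃ n : ℤ, x = Real.exp n • Wk1 P ε Ft (l, 0)) ∨
      ∃ q, Gd q ∧ x = W1 P κ b Ft q := by
  obtain ⟨y, hy, rfl⟩ := F.str.surj x hx
  obtain ⟨z, hz, rfl⟩ := Rl_surj hy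
  rcases Wx_cover F.ok hz with ⟨q, hq, h1⟩ | ⟨n, v, hv, h1⟩ | ⟨n, k, hk, h1⟩
  · right
    right
    obtain ⟨q', rfl⟩ := (Tm_bij F.κ_pos F.κ_le F.b_pos (FnB_b8 F)).2 q
    refine ⟨q', (Tm_Gd F.κ_pos F.κ_le F.b_pos (FnB_b8 F) q').1 hq, ?_⟩
    rw [h1]
    rfl
  · left
    obtain ⟨θ, rfl⟩ := (Wb0_circle F.ok).1 hv
    refine ⟨θ, n, ?_⟩
    rw [FnB_zero, FnB_Ft F (FnB_ne0 F.ok θ), h1]
  · right
    left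
    obtain ⟨m, l, h2⟩ := KS_core F.ok hε hε' hk
    refine ⟨l, n + m, ?_⟩
    rw [Wk1, FnB_Ft F (Wk0_ne F.ok hε hε' l (ζ := 0) (by simp)), h1, h2, smul_smul, ← zpow_add₀ (by norm_num)]

end Pool.Agent.CHW
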