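import Pool.Agent.CHW.FnK

/-!
# CHW/FnC: the core fields of `WD`   (difficulty 2)

`Wk1 (l, 0) = Rl (Wk0 (l, 0)) = r • Wk0 (l, 0)`, `r > 0` (`Wk1_core`, `Rl_coef`); `cY`, `cX`.
* `c_im`, `c_re`: `core_real`.   `c_pos`, `c_neg`: `KcE.core_pos` and `Wk0_mir` (for the negative sign: `Wk0 (-l) = mir`), or `core_pos` for `1 - l`.
* `c_Y1`, `c_Y0`: chain rule: `elli' (log r) r'/r`, `core_dr`, `elli_deriv` (`r = rr (Wk0 (·, 0))` is smooth: `Wk0_ld`, `rr_smooth`, `Wk0_ne`).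
* `c_X0`, `c_X1`: `core_dX` (`3 x₁ ≤ 3/16`).
* `c_near0`: `|l - 1/2| ≤ 1/4`, `X := coX`, `|X| ≤ 3 x₁`: `core_X`: `x.1 = tau > 0`, `rr x = tau/√(1 - X²)`, so `Rl x = cyl (0, Y, X)`, `Y = log (rr x)/(2π)` (`elli_small`),
  `0 ≤ log (rr x) = log tau - log (1 - X²)/2 ≤ 21/10 c² + X² ≤ d₀ (1/10) + 9 x₁ d₀ ≤ d₀` (`c ≤ d₁/4 = d₀/8`, `x₁ ≤ d₀`, `x₁ < 1/16`), so `|Y| < 2 d₀`.
* `c_near1`: `Wk0 (l, 0) = L • Jv (Wk0 (1/2 - l, 0)) = L • Jv (Wk0 (3/2 - l, 0))`, `|3/2 - l - 1/2| ≤ 1/4`: `Rl` of it is `cyl (0, 1 - Y, X)` (`elli (log L - r) = 1 - elli r`: `elli_neg`, `elli_add`).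
* `c_mid`: `core_quarter`: `coX (3/4) = 1`, `coX (1/4) = -1`.   `c_half`: `core_half`, `Y = log tau/(2π)`, `0 < Y < 2 d₀`.   `c_one`: `Wk0 (1, 0) = L • Jv (Wk0 (-1/2, 0)) = L • Jv (tau, 0)`.
-/

open scoped Manifold ContDiff Topology
open Set Filter
open Complex (I normSq)

namespace Pool.Agent.CHW

open Pool.Agent.CSG (stp thc)
open Pool.Agent.RSG (ex)

variable {P : Par} {d₀ x₁ x₀ η b κ ε : ℝ} {Ft : F3 → F3}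

theorem FnC_coef (F : Fd P d₀ x₁ x₀ η b κ Ft) (hε : 0 < ε) (hε' : ε ≤ 1 / 16) (l : ℝ) :
    ∃ r : ℝ, 0 < r ∧ Wk1 P ε Ft (l, 0) = r • Wk0 P ε (l, 0) := by
  rw [Wk1_core F hε hε' l]
  exact Rl_coef (FnK_ne F.ok hε hε' l)

theorem FnC_mir (h : P.Ok) (hε : 0 < ε) (hε' : ε ≤ 1 / 16) (l : ℝ) :
    Wk0 P ε (l, 0) = mir (Wk0 P ε (1 - l, 0)) := by
  rw [← Wk0_mir h hε hε' (1 - l) (by simp)]
  have h1 := Wk0_per (P := P) (ε := ε) (-(1 - l)) 0 1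
  rw [← h1]
  congr 2
  push_cast
  ring

theorem FnC_sin {l : ℝ} (h0 : 1 / 2 < l) (h1 : l < 1) : Real.sin (2 * Real.pi * l) < 0 := by
  have hpi := Real.pi_pos
  have h2 : Real.sin (2 * Real.pi * l) = Real.sin (2 * Real.pi * l - 2 * Real.pi) := (Real.sin_sub_two_pi _).symm
  rw [h2]
  apply Real.sin_neg_of_neg_of_neg_pi_lt <;> nlinarith

theorem c_im (F : Fd P d₀ x₁ x₀ η b κ Ft) (hε : 0 < ε) (hε' : ε ≤ 1 / 16) (l : ℝ) : (Wk1 P ε Ft (l, 0)).1.im = 0 := by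
  obtain ⟨r, hr, h1⟩ := FnC_coef F hε hε' l
  obtain ⟨a, ha, h2⟩ := core_real F.ok hε hε' l
  rw [h1, Prod.smul_fst, h2, Complex.real_smul, ← Complex.ofReal_mul, Complex.ofReal_im]

theorem c_re (F : Fd P d₀ x₁ x₀ η b κ Ft) (hε : 0 < ε) (hε' : ε ≤ 1 / 16) (l : ℝ) : 0 ≤ (Wk1 P ε Ft (l, 0)).1.re := by
  obtain ⟨r, hr, h1⟩ := FnC_coef F hε hε' l
  obtain ⟨a, ha, h2⟩ := core_real F.ok hε hε' l
  rw [h1, Prod.smul_fst, h2, Complex.real_smul, ← Complex.ofReal_mul, Complex.ofReal_re]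
  positivity

theorem c_pos (F : Fd P d₀ x₁ x₀ η b κ Ft) (hε : 0 < ε) (hε' : ε ≤ 1 / 16) {l : ℝ} (h0 : 1 / 2 < l) (h1 : l < 1) :
    0 < (Wk1 P ε Ft (l, 0)).2 := by
  obtain ⟨r, hr, h2⟩ := FnC_coef F hε hε' l
  rw [h2, Prod.smul_snd, smul_eq_mul]
  exact mul_pos hr ((core_pos F.ok hε hε' l).2 (FnC_sin h0 h1))

theorem c_neg (F : Fd P d₀ x₁ x₀ η b κ Ft) (hε : 0 < ε) (hε' : ε ≤ 1 / 16) {l : ℝ} (h0 : 0 < l) (h1 : l < 1 / 2) :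
    (Wk1 P ε Ft (l, 0)).2 < 0 := by
  obtain ⟨r, hr, h2⟩ := FnC_coef F hε hε' l
  rw [h2, Prod.smul_snd, smul_eq_mul, FnC_mir F.ok hε hε' l]
  have h3 := (core_pos F.ok hε hε' (1 - l)).2 (FnC_sin (by linarith) (by linarith))
  have h4 : (mir (Wk0 P ε (1 - l, 0))).2 = -(Wk0 P ε (1 - l, 0)).2 := rfl
  rw [h4]
  nlinarith

theorem FnC_coY (F : Fd P d₀ x₁ x₀ η b κ Ft) (hε : 0 < ε) (hε' : ε ≤ 1 / 16) :
    coY (Wk1 P ε Ft) = fun l => elli (Real.log (rr (Wk0 P ε (l, 0)))) := by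
  funext l
  exact cY F hε hε' l

theorem FnC_coX (F : Fd P d₀ x₁ x₀ η b κ Ft) (hε : 0 < ε) (hε' : ε ≤ 1 / 16) :
    coX (Wk1 P ε Ft) = fun l => (Wk0 P ε (l, 0)).2 / rr (Wk0 P ε (l, 0)) := by
  funext l
  exact cX F hε hε' l

theorem FnC_dY (F : Fd P d₀ x₁ x₀ η b κ Ft) (hε : 0 < ε) (hε' : ε ≤ 1 / 16) {l : ℝ}
    (hd : deriv (fun l' => rr (Wk0 P ε (l', 0))) l ≠ 0) :
    deriv (coY (Wk1 P ε Ft)) l = deriv elli (Real.log (rr (Wk0 P ε (l, 0)))) *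
      (deriv (fun l' => rr (Wk0 P ε (l', 0))) l / rr (Wk0 P ε (l, 0))) := by
  have h1 := (differentiableAt_of_deriv_ne_zero hd).hasDerivAt
  have h2 := h1.log (rr_pos (FnK_ne F.ok hε hε' l)).ne'
  have h3 : HasDerivAt elli (deriv elli (Real.log (rr (Wk0 P ε (l, 0))))) (Real.log (rr (Wk0 P ε (l, 0)))) :=
    (elli_smooth.differentiable (by simp)).differentiableAt.hasDerivAt
  have h4 := h3.comp l h2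
  rw [FnC_coY F hε hε']
  exact h4.deriv

theorem c_Y1 (F : Fd P d₀ x₁ x₀ η b κ Ft) (hε : 0 < ε) (hε' : ε ≤ 1 / 16) {l : ℝ} (h0 : 1 / 2 < l) (h1 : l < 1) :
    0 < deriv (coY (Wk1 P ε Ft)) l := by
  have h2 := (core_dr F.ok hε hε' (l := l)).1 h0 h1
  rw [FnC_dY F hε hε' h2.ne']
  exact mul_pos (elli_deriv _) (div_pos h2 (rr_pos (FnK_ne F.ok hε hε' l)))

theorem c_Y0 (F : Fd P d₀ x₁ x₀ η b κ Ft) (hε : 0 < ε) (hε' : ε ≤ 1 / 16) {l : ℝ} (h0 : 0 < l) (h1 : l < 1 / 2) :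
    deriv (coY (Wk1 P ε Ft)) l < 0 := by
  have h2 := (core_dr F.ok hε hε' (l := l)).2 h0 h1
  rw [FnC_dY F hε hε' h2.ne]
  exact mul_neg_of_pos_of_neg (elli_deriv _) (div_neg_of_neg_of_pos h2 (rr_pos (FnK_ne F.ok hε hε' l)))

theorem FnC_316 (F : Fd P d₀ x₁ x₀ η b κ Ft) (hε : 0 < ε) (hε' : ε ≤ 1 / 16) {l : ℝ}
    (h1 : |coX (Wk1 P ε Ft) l| ≤ 3 * x₁) : |(Wk0 P ε (l, 0)).2 / rr (Wk0 P ε (l, 0))| ≤ 3 / 16 := by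
  rw [cX F hε hε' l] at h1
  linarith [F.x1']

theorem c_X0 (F : Fd P d₀ x₁ x₀ η b κ Ft) (hε : 0 < ε) (hε' : ε ≤ 1 / 16) {l : ℝ} (h0 : |l - 1 / 2| ≤ 1 / 4)
    (h1 : |coX (Wk1 P ε Ft) l| ≤ 3 * x₁) : 0 < deriv (coX (Wk1 P ε Ft)) l := by
  have h2 := (core_dX F.ok hε hε' (FnC_316 F hε hε' h1)).1 h0
  rwa [FnC_coX F hε hε']

theorem c_X1 (F : Fd P d₀ x₁ x₀ η b κ Ft) (hε : 0 < ε) (hε' : ε ≤ 1 / 16) {l : ℝ} (h0 : |l - 1| ≤ 1 / 4)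
    (h1 : |coX (Wk1 P ε Ft) l| ≤ 3 * x₁) : deriv (coX (Wk1 P ε Ft)) l < 0 := by
  have h2 := (core_dX F.ok hε hε' (FnC_316 F hε hε' h1)).2 h0
  rwa [FnC_coX F hε hε']

theorem FnC_small (F : Fd P d₀ x₁ x₀ η b κ Ft) {Z X : ℝ} (hX : |X| ≤ 3 * x₁) (hZ : 0 < Z)
    (hZ' : 6 * Z ≤ 21 / 10 * P.c ^ 2 + X ^ 2) : Z < 2 * d₀ := by
  obtain ⟨hc0, hc1, hc2⟩ := FnK_c F
  have h1 := F.d1
  have h2 := F.d0
  have h3 := F.d0'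
  have h4 := F.x1
  have h5 := F.x1'
  have h6 := F.x1d
  have h7 : X ^ 2 ≤ 9 / 16 * d₀ := by
    rw [← sq_abs]
    nlinarith [abs_nonneg X]
  have h8 : P.c ^ 2 ≤ d₀ := by nlinarith
  linarith

theorem c_near0 (F : Fd P d₀ x₁ x₀ η b κ Ft) (hε : 0 < ε) (hε' : ε ≤ 1 / 16) {l : ℝ} (h0 : |l - 1 / 2| ≤ 1 / 4)
    (h1 : |coX (Wk1 P ε Ft) l| ≤ 3 * x₁) : Wk1 P ε Ft (l, 0) ∈ zone (2 * d₀) (4 * x₁) 0 := by
  have h2 := FnK_Y0 F.ok hε hε' h0 (FnC_316 F hε hε' h1)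
  rw [cX F hε hε' l] at h1
  have h3 := FnC_small F h1 h2.1 h2.2
  refine ⟨0, elli (Real.log (rr (Wk0 P ε (l, 0)))), (Wk0 P ε (l, 0)).2 / rr (Wk0 P ε (l, 0)), ?_, ?_, ?_⟩
  · rw [Int.cast_zero, sub_zero]
    nlinarith [h2.1]
  · linarith [F.x1]
  · rw [Wk1_core F hε hε' l]
    exact FnK_ccyl F.ok hε hε' l

theorem c_near1 (F : Fd P d₀ x₁ x₀ η b κ Ft) (hε : 0 < ε) (hε' : ε ≤ 1 / 16) {l : ℝ} (h0 : |l - 1| ≤ 1 / 4)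
    (h1 : |coX (Wk1 P ε Ft) l| ≤ 3 * x₁) : Wk1 P ε Ft (l, 0) ∈ zone (2 * d₀) (4 * x₁) 1 := by
  have h2 := FnK_Y1 F.ok hε hε' h0 (FnC_316 F hε hε' h1)
  rw [cX F hε hε' l] at h1
  have h3 := FnC_small F h1 h2.1 h2.2
  refine ⟨0, elli (Real.log (rr (Wk0 P ε (l, 0)))), (Wk0 P ε (l, 0)).2 / rr (Wk0 P ε (l, 0)), ?_, ?_, ?_⟩
  · rw [Int.cast_one]
    nlinarith [h2.1]
  · linarith [F.x1]
  · rw [Wk1_core F hε hε' l]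
    exact FnK_ccyl F.ok hε hε' l

theorem c_mid (F : Fd P d₀ x₁ x₀ η b κ Ft) (hε : 0 < ε) (hε' : ε ≤ 1 / 16) :
    3 * x₁ < coX (Wk1 P ε Ft) (3 / 4) ∧ coX (Wk1 P ε Ft) (1 / 4) < -(3 * x₁) := by
  obtain ⟨h1, h2⟩ := core_quarter F.ok hε hε'
  have h3 := F.x1'
  have h4 : ∀ v : ℝ, rr ((0 : ℂ), v) = |v| := by
    intro v
    unfold rr q2
    simp only
    rw [map_zero, zero_add, Real.sqrt_sq_eq_abs]
  rw [cX F hε hε', cX F hε hε', h1, h2, h4, h4]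
  simp only
  rw [abs_of_pos (by norm_num : (0 : ℝ) < 2000), abs_neg, abs_of_pos (by norm_num : (0 : ℝ) < 2000)]
  constructor <;> norm_num <;> linarith

theorem FnC_Xhalf (h : P.Ok) (hε : 0 < ε) (hε' : ε ≤ 1 / 16) :
    (Wk0 P ε (1 / 2, 0)).2 / rr (Wk0 P ε (1 / 2, 0)) = 0 := by
  rw [core_half h hε hε', zero_div]

theorem c_half (F : Fd P d₀ x₁ x₀ η b κ Ft) (hε : 0 < ε) (hε' : ε ≤ 1 / 16) :
    ∃ Y, 0 < Y ∧ Y < 2 * d₀ ∧ Wk1 P ε Ft (1 / 2, 0) = cyl (0, Y, 0) := by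
  have hX := FnC_Xhalf F.ok hε hε'
  have h2 := FnK_Y0 F.ok hε hε' (l := 1 / 2) (by norm_num) (by rw [hX, abs_zero]; norm_num)
  rw [hX] at h2
  refine ⟨elli (Real.log (rr (Wk0 P ε (1 / 2, 0)))), h2.1, FnC_small F ?_ h2.1 h2.2, ?_⟩
  · rw [abs_zero]
    linarith [F.x1]
  · rw [Wk1_core F hε hε']
    have h3 := FnK_ccyl F.ok hε hε' (1 / 2)
    rwa [hX] at h3

theorem c_one (F : Fd P d₀ x₁ x₀ η b κ Ft) (hε : 0 < ε) (hε' : ε ≤ 1 / 16) :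
    ∃ Y, 0 < Y ∧ Y < 2 * d₀ ∧ Wk1 P ε Ft (1, 0) = cyl (0, 1 - Y, 0) := by
  have hX : (Wk0 P ε (1, 0)).2 / rr (Wk0 P ε (1, 0)) = 0 := by
    rw [FnK_symX F.ok hε hε' 1, show (3 / 2 - 1 : ℝ) = 1 / 2 by norm_num]
    exact FnC_Xhalf F.ok hε hε'
  have h2 := FnK_Y1 F.ok hε hε' (l := 1) (by norm_num) (by rw [hX, abs_zero]; norm_num)
  rw [hX] at h2
  refine ⟨1 - elli (Real.log (rr (Wk0 P ε (1, 0)))), h2.1, FnC_small F ?_ h2.1 h2.2, ?_⟩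
  · rw [abs_zero]
    linarith [F.x1]
  · rw [Wk1_core F hε hε', sub_sub_cancel]
    have h3 := FnK_ccyl F.ok hε hε' 1
    rwa [hX] at h3

end Pool.Agent.CHW
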