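import Pool.Agent.CHW.Defs
import Pool.Agent.ISO.Small

/-!
# CHW/GlM: existence of parameters   (difficulty 2)

`G w = w + φ (tanh (πw) / π - w)`, `φ = 1 - stp (a²) ((2a)²) (|w|²)`, `a` small, `r₃ = a/2`.
-/

open scoped Manifold ContDiff Topology
open Set Filter
open Complex (I normSq)

namespace Pool.Agent.CHW

open Pool.Agent.CSG (stp thc)
open Pool.Agent.RSG (ex)

/-- the cutoff -/
noncomputable def GlM_phi (a : ℝ) (w : ℂ) : ℝ := 1 - stp (a ^ 2) ((2 * a) ^ 2) (‖w‖ ^ 2)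

theorem GlM_lt {a : ℝ} (ha : 0 < a) : a ^ 2 < (2 * a) ^ 2 := by nlinarith

theorem GlM_phi_smooth (a : ℝ) : ContDiff ℝ ∞ (GlM_phi a) := by
  unfold GlM_phi
  have h1 : ContDiff ℝ ∞ fun w : ℂ => ‖w‖ ^ 2 := contDiff_norm_sq ℝ
  exact contDiff_const.sub ((Pool.Agent.CSG.stp_smooth _ _).comp h1)

theorem GlM_phi_in {a : ℝ} (ha : 0 < a) {w : ℂ} (hw : ‖w‖ ≤ a) : GlM_phi a w = 1 := by
  unfold GlM_phi
  rw [Pool.Agent.CSG.stp_zero (GlM_lt ha) (by
    have := norm_nonneg w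
    nlinarith)]
  ring

theorem GlM_phi_out {a : ℝ} (ha : 0 < a) {w : ℂ} (hw : 2 * a ≤ ‖w‖) : GlM_phi a w = 0 := by
  unfold GlM_phi
  rw [Pool.Agent.CSG.stp_one (GlM_lt ha) (by
    have := norm_nonneg w
    nlinarith)]
  ring

theorem GlM_phi_bd (a : ℝ) (w : ℂ) : 0 ≤ GlM_phi a w ∧ GlM_phi a w ≤ 1 := by
  unfold GlM_phi
  have h1 := Pool.Agent.CSG.stp_nonneg (a ^ 2) ((2 * a) ^ 2) (‖w‖ ^ 2)
  have h2 := Pool.Agent.CSG.stp_le_one (a ^ 2) ((2 * a) ^ 2) (‖w‖ ^ 2)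
  constructor <;> linarith

theorem GlM_phi_neg (a : ℝ) (w : ℂ) : GlM_phi a (-w) = GlM_phi a w := by
  unfold GlM_phi
  rw [norm_neg]

theorem GlM_bump {h : ℂ → ℂ} {a₀ : ℝ} (ha₀ : 0 < a₀) (hs : ∀ w, ‖w‖ < a₀ → ContDiffAt ℝ ∞ h w)
    (h0 : h 0 = 0) (hd : fderiv ℝ h 0 = 0) {a₁ : ℝ} (ha₁ : 0 < a₁) :
    ∃ a, 0 < a ∧ 2 * a ≤ a₁ ∧ 3 * a < a₀ ∧ ContDiff ℝ ∞ (fun w => (GlM_phi a w : ℂ) * h w) ∧
      (∀ w, ‖fderiv ℝ (fun w => (GlM_phi a w : ℂ) * h w) w‖ ≤ 1 / 2) ∧ ∀ w, ‖w‖ ≤ 2 * a → ‖h w‖ ≤ ‖w‖ / 56 := by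
  have hn : (∞ : WithTop ℕ∞) ≠ 0 := by simp
  have hc : ContinuousAt (fderiv ℝ h) 0 :=
    ((hs 0 (by simpa using ha₀)).fderiv_right (m := 0) (by simp)).continuousAt
  have hc1 : ∀ᶠ w in 𝓝 (0 : ℂ), ‖fderiv ℝ h w‖ < 1 / 56 := by
    have h1 : ContinuousAt (fun w => ‖fderiv ℝ h w‖) 0 := hc.norm
    have h2 : ‖fderiv ℝ h 0‖ < 1 / 56 := by rw [hd, norm_zero]; norm_num
    exact h1.eventually (gt_mem_nhds h2)
  obtain ⟨e, he, hb⟩ := Metric.eventually_nhds_iff_ball.1 hc1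
  set a := min (min (e / 4) (a₀ / 4)) (a₁ / 4) with hadef
  have ha : 0 < a := by positivity
  have l1 : a ≤ e / 4 := (min_le_left _ _).trans (min_le_left _ _)
  have l2 : a ≤ a₀ / 4 := (min_le_left _ _).trans (min_le_right _ _)
  have l3 : a ≤ a₁ / 4 := min_le_right _ _
  have hlip : ∀ x y : ℂ, ‖x‖ < 3 * a → ‖y‖ < 3 * a → ‖h x - h y‖ ≤ 1 / 56 * ‖x - y‖ := by
    intro x y hx hy
    have hconv : Convex ℝ (Metric.ball (0 : ℂ) (3 * a)) := convex_ball _ _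
    refine hconv.norm_image_sub_le_of_norm_fderiv_le (𝕜 := ℝ) (f := h) ?_ ?_ ?_ ?_
    · intro z hz
      have hz' : ‖z‖ < a₀ := by
        rw [mem_ball_zero_iff] at hz
        linarith
      exact (hs z hz').differentiableAt hn
    · intro z hz
      have hz' : z ∈ Metric.ball (0 : ℂ) e := by
        rw [mem_ball_zero_iff] at hz ⊢
        linarith
      exact (hb z hz').le
    · rw [mem_ball_zero_iff]; exact hy
    · rw [mem_ball_zero_iff]; exact hx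
  have hle : ∀ w, ‖w‖ < 3 * a → ‖h w‖ ≤ ‖w‖ / 56 := by
    intro w hw
    have h1 := hlip w 0 hw (by rw [norm_zero]; linarith)
    rw [h0, sub_zero, sub_zero] at h1
    linarith
  have hz : ∀ w, 2 * a < ‖w‖ → (fun w => (GlM_phi a w : ℂ) * h w) =ᶠ[𝓝 w] fun _ => (0 : ℂ) := by
    intro w hw
    have h1 : ∀ᶠ x : ℂ in 𝓝 w, 2 * a < ‖x‖ := continuous_norm.continuousAt.eventually (lt_mem_nhds hw)
    filter_upwards [h1] with x hx
    rw [GlM_phi_out ha hx.le]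
    simp
  refine ⟨a, ha, by linarith, by linarith, ?_, ?_, fun w hw => hle w (by linarith)⟩
  · rw [contDiff_iff_contDiffAt]
    intro w
    rcases lt_or_ge ‖w‖ (3 * a) with hw | hw
    · have h1 : ContDiffAt ℝ ∞ (fun w => (GlM_phi a w : ℂ)) w :=
        Complex.ofRealCLM.contDiff.contDiffAt.comp w (GlM_phi_smooth a).contDiffAt
      exact h1.mul (hs w (by linarith))
    · exact (contDiffAt_const (c := (0 : ℂ))).congr_of_eventuallyEq (hz w (by linarith))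
  · intro w
    rcases lt_or_ge (2 * a) ‖w‖ with hw | hw
    · rw [(hz w hw).fderiv_eq]
      simp
    · refine norm_fderiv_le_of_lip' ℝ (by norm_num) ?_
      have h1 : ∀ᶠ x : ℂ in 𝓝 w, ‖x‖ < 3 * a :=
        continuous_norm.continuousAt.eventually (gt_mem_nhds (by linarith))
      filter_upwards [h1] with x hx
      have e1 : (GlM_phi a x : ℂ) * h x - (GlM_phi a w : ℂ) * h w =
          (GlM_phi a x : ℂ) * (h x - h w) + ((GlM_phi a x - GlM_phi a w : ℝ) : ℂ) * h w := by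
        push_cast; ring
      have e2 : |GlM_phi a x - GlM_phi a w| ≤ 8 / (3 * a ^ 2) * (5 * a * ‖x - w‖) := by
        unfold GlM_phi
        have h2 := Pool.Agent.TS.stp_lip (GlM_lt ha) (‖w‖ ^ 2) (‖x‖ ^ 2)
        have h3 : (2 * a) ^ 2 - a ^ 2 = 3 * a ^ 2 := by ring
        rw [h3] at h2
        have h4 : 1 - stp (a ^ 2) ((2 * a) ^ 2) (‖x‖ ^ 2) - (1 - stp (a ^ 2) ((2 * a) ^ 2) (‖w‖ ^ 2)) =
            stp (a ^ 2) ((2 * a) ^ 2) (‖w‖ ^ 2) - stp (a ^ 2) ((2 * a) ^ 2) (‖x‖ ^ 2) := by ring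
        rw [h4]
        refine h2.trans ?_
        apply mul_le_mul_of_nonneg_left _ (by positivity)
        have h5 : ‖w‖ ^ 2 - ‖x‖ ^ 2 = (‖w‖ - ‖x‖) * (‖w‖ + ‖x‖) := by ring
        rw [h5, abs_mul, abs_of_nonneg (by positivity : 0 ≤ ‖w‖ + ‖x‖)]
        have h6 : |‖w‖ - ‖x‖| ≤ ‖x - w‖ := by
          rw [norm_sub_rev]; exact abs_norm_sub_norm_le w x
        have h7 : ‖w‖ + ‖x‖ ≤ 5 * a := by linarith
        have h8 := norm_nonneg (x - w)
        have h9 : 0 ≤ ‖w‖ + ‖x‖ := by positivity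
        calc |‖w‖ - ‖x‖| * (‖w‖ + ‖x‖) ≤ ‖x - w‖ * (5 * a) :=
              mul_le_mul h6 h7 h9 h8
          _ = 5 * a * ‖x - w‖ := by ring
      have e3 : ‖h w‖ ≤ 2 * a / 56 := (hle w (by linarith)).trans (by linarith)
      have e4 := hlip x w hx (by linarith)
      have e5 := GlM_phi_bd a x
      show ‖(GlM_phi a x : ℂ) * h x - (GlM_phi a w : ℂ) * h w‖ ≤ 1 / 2 * ‖x - w‖
      rw [e1]
      refine (norm_add_le _ _).trans ?_
      rw [norm_mul, norm_mul, Complex.norm_real, Complex.norm_real, Real.norm_eq_abs, Real.norm_eq_abs,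
        abs_of_nonneg e5.1]
      have e6 : GlM_phi a x * ‖h x - h w‖ ≤ 1 * (1 / 56 * ‖x - w‖) :=
        mul_le_mul e5.2 e4 (norm_nonneg _) (by norm_num)
      have e7 : |GlM_phi a x - GlM_phi a w| * ‖h w‖ ≤ 8 / (3 * a ^ 2) * (5 * a * ‖x - w‖) * (2 * a / 56) :=
        mul_le_mul e2 e3 (norm_nonneg _) (by positivity)
      have e8 : 8 / (3 * a ^ 2) * (5 * a * ‖x - w‖) * (2 * a / 56) = 80 / 168 * ‖x - w‖ := by
        field_simp
        ring
      rw [e8] at e7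
      have := norm_nonneg (x - w)
      linarith

/-- `tanh (πw)/π - w` -/
noncomputable def GlM_h (w : ℂ) : ℂ := Complex.tanh (Real.pi * w) / Real.pi - w

theorem GlM_h_props : ∃ a₀ : ℝ, 0 < a₀ ∧ (∀ w, ‖w‖ < a₀ → ContDiffAt ℝ ∞ GlM_h w) ∧ GlM_h 0 = 0 ∧
    fderiv ℝ GlM_h 0 = 0 ∧ ∀ w, GlM_h (-w) = -GlM_h w := by
  have hpi : (Real.pi : ℂ) ≠ 0 := by
    simpa using Real.pi_ne_zero
  have hcont : Continuous fun w : ℂ => Complex.cosh (Real.pi * w) :=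
    Complex.continuous_cosh.comp (continuous_const.mul continuous_id)
  have hev : ∀ᶠ w in 𝓝 (0 : ℂ), Complex.cosh (Real.pi * w) ≠ 0 := by
    apply hcont.continuousAt.eventually_ne
    simp
  obtain ⟨a₀, ha₀, hb⟩ := Metric.eventually_nhds_iff_ball.1 hev
  refine ⟨a₀, ha₀, ?_, ?_, ?_, ?_⟩
  · intro w hw
    have h1 : Complex.cosh (Real.pi * w) ≠ 0 := hb w (by rw [mem_ball_zero_iff]; exact hw)
    have h2 : ContDiff ℂ ∞ fun w : ℂ => Complex.cosh (Real.pi * w) :=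
      Complex.contDiff_cosh.comp (contDiff_const.mul contDiff_id)
    have h3 : ContDiff ℂ ∞ fun w : ℂ => Complex.sinh (Real.pi * w) :=
      Complex.contDiff_sinh.comp (contDiff_const.mul contDiff_id)
    have h4 : ContDiffAt ℂ ∞ GlM_h w := by
      have h5 : GlM_h = fun w : ℂ => Complex.sinh (Real.pi * w) / Complex.cosh (Real.pi * w) / Real.pi - w := by
        ext w
        unfold GlM_h
        rw [Complex.tanh_eq_sinh_div_cosh]
      rw [h5]
      exact ((h3.contDiffAt.div h2.contDiffAt h1).div_const _).sub contDiffAt_id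
    exact h4.restrict_scalars ℝ
  · unfold GlM_h
    simp
  · have h1 : HasDerivAt GlM_h 0 0 := by
      have h5 : GlM_h = fun w : ℂ => Complex.sinh (Real.pi * w) / Complex.cosh (Real.pi * w) / Real.pi - w := by
        ext w
        unfold GlM_h
        rw [Complex.tanh_eq_sinh_div_cosh]
      rw [h5]
      have k1 : HasDerivAt (fun w : ℂ => (Real.pi : ℂ) * w) Real.pi 0 := by
        simpa only [mul_one, id] using (hasDerivAt_id (0 : ℂ)).const_mul (Real.pi : ℂ)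
      have k2 : HasDerivAt (fun w : ℂ => Complex.sinh (Real.pi * w)) (Complex.cosh (Real.pi * 0) * Real.pi) 0 :=
        k1.csinh
      have k3 : HasDerivAt (fun w : ℂ => Complex.cosh (Real.pi * w)) (Complex.sinh (Real.pi * 0) * Real.pi) 0 :=
        k1.ccosh
      have k4 := ((k2.div k3 (by simp)).div_const (Real.pi : ℂ)).sub (hasDerivAt_id (0 : ℂ))
      exact k4.congr_deriv (by simp [hpi])
    have h2 : HasFDerivAt GlM_h (0 : ℂ →L[ℂ] ℂ) 0 := by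
      have h6 := h1.hasFDerivAt
      have h7 : ContinuousLinearMap.toSpanSingleton ℂ (0 : ℂ) = (0 : ℂ →L[ℂ] ℂ) :=
        ContinuousLinearMap.ext fun v => by simp
      rw [h7] at h6
      exact h6
    have h3 := h2.restrictScalars ℝ
    rw [h3.fderiv]
    ext v
    simp
  · intro w
    unfold GlM_h
    have : (Real.pi : ℂ) * -w = -(Real.pi * w) := by ring
    rw [this, Complex.tanh_neg]
    ring

theorem exists_par {d₁ : ℝ} (h0 : 0 < d₁) (h1 : d₁ ≤ 1 / 8) :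
    ∃ (r₃ : ℝ) (G : Equiv.Perm ℂ), 0 < r₃ ∧ ∀ c, 0 < c → c ≤ r₃ / 4 → (⟨c, r₃, d₁, G⟩ : Par).Ok := by
  obtain ⟨a₀, ha₀, hs, hz, hd, hneg⟩ := GlM_h_props
  obtain ⟨a, ha, l1, l2, hG, hfd, hle⟩ := GlM_bump ha₀ hs hz hd (half_pos h0)
  obtain ⟨F, f1, f2, f3⟩ := Pool.Agent.ISO.small_perm hG hfd
  refine ⟨a / 2, F, by positivity, ?_⟩
  intro c hc hc'
  refine ⟨hc, hc', by positivity, ?_, h1, f1, f2, ?_, ?_, ?_⟩
  · show a / 2 ≤ d₁
    linarith
  · intro w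
    show F (-w) = -F w
    rw [f3, f3, GlM_phi_neg, hneg]
    ring
  · intro w hw
    show F w = w
    have hw' : d₁ / 2 ≤ ‖w‖ := hw
    rw [f3, GlM_phi_out ha (by linarith)]
    simp
  · intro w hw
    have hw' : ‖w‖ ≤ a / 2 := hw
    show Complex.tanh (Real.pi * F.symm w) = Real.pi * w
    set x := F.symm w with hx
    have e1 : x + (GlM_phi a x : ℂ) * GlM_h x = w := by
      rw [← f3 x, hx, Equiv.apply_symm_apply]
    have e2 : ‖(GlM_phi a x : ℂ) * GlM_h x‖ ≤ ‖x‖ / 56 := by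
      rcases lt_or_ge (2 * a) ‖x‖ with hxx | hxx
      · rw [GlM_phi_out ha hxx.le]
        simp
        positivity
      · rw [norm_mul, Complex.norm_real, Real.norm_eq_abs, abs_of_nonneg (GlM_phi_bd a x).1]
        have := hle x hxx
        have h3 := (GlM_phi_bd a x).2
        have h4 := (GlM_phi_bd a x).1
        calc GlM_phi a x * ‖GlM_h x‖ ≤ 1 * (‖x‖ / 56) := mul_le_mul h3 this (norm_nonneg _) (by norm_num)
          _ = ‖x‖ / 56 := by ring
    have e3 : ‖x‖ ≤ ‖w‖ + ‖(GlM_phi a x : ℂ) * GlM_h x‖ := by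
      have : x = w - (GlM_phi a x : ℂ) * GlM_h x := by rw [← e1]; ring
      calc ‖x‖ = ‖w - (GlM_phi a x : ℂ) * GlM_h x‖ := by rw [← this]
        _ ≤ _ := norm_sub_le _ _
    have e4 : ‖x‖ ≤ a := by linarith [norm_nonneg x]
    rw [GlM_phi_in ha e4] at e1
    have hpi : (Real.pi : ℂ) ≠ 0 := by simpa using Real.pi_ne_zero
    unfold GlM_h at e1
    have e5 : Complex.tanh (Real.pi * x) / Real.pi = w := by
      rw [← e1]; push_cast; ring
    rw [div_eq_iff hpi] at e5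
    rw [e5]; ring

end Pool.Agent.CHW
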