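import Pool.Agent.CHW.KcC

/-!
# CHW/KcE: the core of `K`   (difficulty 3)

`x = Wk0 (l, 0)`, `c_l = cos 2πl`, `s_l = sin 2πl`, `L = 4000000`.

* `core_A` (`c_l < 0`, i.e. `1/4 < l < 3/4` modulo 1): `kP0 (l, 0) = (0, 1000 kcs)`, so `A x = (tau, 1000 kcs (0, l))`, `x ∈ KA`, `|kcs| < 1`.
* `core_pt`: `1 ≤ q2 x` (`A_side`, `q2 (A x) ≥ tau² > 1`).  Let `r = rr x ∈ [1, 2000)`.  If `r ≤ 2000/43`: `A x = DP x` (`A_mid`), so `x.2 = 1000 kcs` and `x.1 = tau - tau stp 3 43 r`.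
  If `r > 2000/43 > 43`: `A x = DP y`, `y = Jv (Op (Jv x))`, `rr y ≥ 43`.. (`Op_lt`: `rr (Jv x) < 43/2000`, `rr (Op (Jv x)) < 43/2000`, `rr y > 2000/43 > 43`), so `DP y = tv tau y`, `y.1 = 0`, `x.1 = 0` (`Op_fst_zero`),
  and `stp 3 43 r = 1`.  The sign of the heights: `A_snd_pos`.
* `core_rr`: hence `(rr x)² = tau² (1 - stp 3 43 (rr x))² + x.2²`, so `rr x ≥ tau`: if `rr x ≤ 3` it is clear, else `rr x > 3 > tau`.
* `core_dr` (`1/2 < l < 3/4`): `r l = rr (Wk0 (l, 0))` is smooth; for `r ≤ 2000/43`-range: `x.2 = 1000 kcs =: η`, `η' = 1000 kcs' > 0` (`kcs_zero`: `kcs' = -2π b a² c_l/w³ > 0`), `r² = tau² χ(r)² + η²`, `χ = 1 - stp 3 43`, `χ' ≤ 0`: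
  `r' (r - tau² χ χ') = η η' > 0` for `s_l < 0` (`η > 0`).  For `r > 43`: `x = (0, r)`, `A x = (tau, 1/ mO (1/r))`.. : `1000 kcs = 1/mO (1/r)` (`Op_axis`), `mO' > 0`, so `r' > 0` again (the derivative of the left hand side is `> 0`).
  `l = 3/4`: near it `x = (0, 2000 kcs/(1 + ksn))` (`Wk0_corner`), derivative `- 2000 kcs ksn'`, `ksn' = ∂_l ksn (0, l) < 0` there (`ksn = -a c_l/w`, `kcs = 1`).  `3/4 < l < 1`: `r (l) = L / r (1/2 - l) = L / r (3/2 - l)`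
  (`Wk0_J`, `rr_Jv`, `Wk0_per`).  `l ∈ (0, 1/2)`: `r (l) = r (1 - l)` (`Wk0_mir`).
* `core_X`: if `|x.2| ≤ 3/16 rr x` and `c_l ≤ 0` then `rr x < 3` (for `rr x ≥ 3`: `|x.1| ≤ tau ≤ 1.03` gives `x.2² ≥ rr x² - 1.07 ≥ 0.88 rr x²`), so `x.1 = tau` and `rr x = tau / √(1 - X²)`, `X = x.2/rr x`.
* `core_dX`: `X = η/√(tau² + η²)` near `l`, with `η' > 0`.  For `|l - 1| ≤ 1/4`: `X (l) = X (1/2 - l) = X (3/2 - l)` (`Wk0_J`: `(Jv x).2/rr (Jv x) = x.2/rr x`).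
* `core_KS`, `KS_core`: `x ∈ KA` if `c_l < 0`; `x = (0, ± 2000)` if `c_l = 0`; if `c_l > 0` then `x = L • Jv k`, `k ∈ KA`.  Conversely `k ∈ KA`, `(A k).2 = 1000 v`, `|v| < 1`: `kcs (0, ·)` takes the value `v` on `(1/4, 3/4)`
  (it increases from `-1` to `1`).
* `Wk0_inj`: see `WxI.Wx_inj` for `ζ, ζ' ≠ 0`: `L^n • Wx (u', y', t') = Wx (u', y' + n, t')`, so `y = y' + n`, `n = 0`, `t' = t`, then polar coordinates; `Wx_notK` for `ζ = 0 ≠ ζ'`; for `ζ = ζ' = 0`: `1 ≤ rr x < L`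
  for both, so `n = 0`; `rr x < 2000` iff `c_l < 0`, `= 2000` iff `c_l = 0`; and `kcs (0, ·)` is injective on `(1/4, 3/4)`.
-/

open scoped Manifold ContDiff Topology
open Set Filter
open Complex (I normSq)

namespace Pool.Agent.CHW

open Pool.Agent.CSG (stp thc)
open Pool.Agent.RSG (ex)

variable {P : Par} {ε : ℝ}

/-! ## auxiliary -/

theorem KcE_kP0 (l : ℝ) : kP0 P ε (l, 0) = (0, 1000 * kcs P ε 0 l) := by
  unfold kP0
  simp [chq_zero]

theorem KcE_kC0 (l : ℝ) : kC0 P ε (l, 0) = (0, 2000 * kcs P ε 0 l / (1 + ksn P ε 0 l)) := by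
  unfold kC0
  simp [chq_zero]

theorem KcE_axis {x : F3} (h : x.1 = 0) : (Jv x).1 = 0 ∧ (Jv x).2 = (x.2)⁻¹ := by
  constructor
  · unfold Jv
    simp [h]
  · unfold Jv q2
    simp only [h, map_zero, zero_add]
    rcases eq_or_ne x.2 0 with h0 | h0
    · rw [h0]
      simp
    · field_simp

theorem KcE_rr_axis {x : F3} (h : x.1 = 0) : rr x = |x.2| := by
  unfold rr q2
  rw [h, map_zero, zero_add, Real.sqrt_sq_eq_abs]

theorem KcE_sq_fst {x : F3} {a : ℝ} (h : x.1 = (a : ℂ)) : rr x ^ 2 = a ^ 2 + x.2 ^ 2 := by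
  rw [rr_sq]
  unfold q2
  rw [h, Complex.normSq_ofReal]
  ring

theorem KcE_one_le {x : F3} : 1 ≤ q2 x ↔ 1 ≤ rr x := by
  rw [← rr_sq]
  have := rr_nonneg x
  constructor
  · intro h
    nlinarith
  · intro h
    nlinarith

theorem KcE_tau (h : P.Ok) : 1 < tau P.c ∧ tau P.c ≤ 103 / 100 := by
  obtain ⟨h0, -, h1⟩ := Ok_c h
  obtain ⟨a, -, b⟩ := tau_bounds h0 h1
  exact ⟨by nlinarith [sq_pos_of_pos h0], b⟩

/-- a point of the core, `r < 2000` -/
theorem KcE_pt (h : P.Ok) {x : F3} (hx : x ∈ Sh) {η : ℝ} (hA : A P.c x = ((tau P.c : ℂ), η)) :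
    1 ≤ rr x ∧ rr x < 2000 ∧ x.1 = ((tau P.c * (1 - stp 3 43 (rr x)) : ℝ) : ℂ) ∧
      (rr x ≤ 2000 / 43 → x.2 = η) ∧
      (43 < rr x → A P.c x = tv (tau P.c) (Jv (Op (Jv x)))) := by
  obtain ⟨h0, -, h1⟩ := Ok_c h
  obtain ⟨t1, t2⟩ := KcE_tau h
  have hq : 1 ≤ q2 x := by
    rw [← A_side h0 h1 hx, hA]
    unfold q2
    simp only [Complex.normSq_ofReal]
    nlinarith [sq_nonneg η]
  have hr1 : 1 ≤ rr x := KcE_one_le.1 hq
  have hr2 : rr x < 2000 := hx.2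
  have hr0 : 0 < rr x := by linarith
  have hz : 1 / 2000 < rr (Jv x) := by
    rw [rr_Jv, lt_inv_comm₀ (by norm_num) hr0]
    linarith
  have hAP : A P.c x = DP P.c (Jv (Op (Jv x))) := by
    unfold A
    rw [sy_big hq]
    rfl
  have hfar : 43 < rr x → 43 < rr (Jv (Op (Jv x))) := by
    intro h43
    rcases le_or_gt (rr x) (2000 / 43) with h2 | h2
    · have h3 : 43 / 2000 ≤ rr (Jv x) := by
        rw [rr_Jv, le_inv_comm₀ (by norm_num) hr0]
        linarith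
      rw [Op_id h3, Jv_Jv]
      exact h43
    · have h3 : rr (Jv x) < 43 / 2000 := by
        rw [rr_Jv, inv_lt_comm₀ hr0 (by norm_num)]
        linarith
      have h4 := Op_lt hz h3
      rw [rr_Jv, lt_inv_comm₀ (by norm_num) (rr_pos (Op_ne hz))]
      linarith
  have hA2 : 43 < rr x → A P.c x = tv (tau P.c) (Jv (Op (Jv x))) := by
    intro h43
    rw [hAP]
    exact DP_far (hfar h43).le
  refine ⟨hr1, hr2, ?_, ?_, hA2⟩
  · rcases le_or_gt (rr x) (2000 / 43) with h2 | h2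
    · rw [A_mid hr1 h2] at hA
      have h3 := congrArg Prod.fst hA
      unfold DP tv at h3
      rw [eq_sub_of_add_eq h3]
      push_cast
      ring
    · have h43 : 43 < rr x := by linarith
      rw [hA2 h43] at hA
      have h3 := congrArg Prod.fst hA
      unfold tv at h3
      replace h3 : (Jv (Op (Jv x))).1 = 0 := by simpa using h3
      have h4 := (KcE_axis h3).1
      rw [Jv_Jv] at h4
      have h5 := (Op_fst_zero hz).1 h4
      have h6 := (KcE_axis h5).1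
      rw [Jv_Jv] at h6
      rw [h6, CSG.stp_one (by norm_num) h43.le]
      simp
  · intro h2
    rw [A_mid hr1 h2] at hA
    exact congrArg Prod.snd hA

/-! ## the functions `kcs 0`, `ksn 0` -/

theorem KcE_Q {a b : ℝ} (ha : 0 < a) (hb : 0 < b) (l : ℝ) :
    0 < (a * Real.cos (2 * Real.pi * l)) ^ 2 + (b * Real.sin (2 * Real.pi * l)) ^ 2 := by
  have h1 := Real.sin_sq_add_cos_sq (2 * Real.pi * l)
  rcases eq_or_ne (Real.cos (2 * Real.pi * l)) 0 with h2 | h2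
  · have h3 : Real.sin (2 * Real.pi * l) ≠ 0 := by
      intro h4
      rw [h2, h4] at h1
      norm_num at h1
    positivity
  · positivity

theorem KcE_sq (h : P.Ok) (hε : 0 < ε) (l : ℝ) : kcs P ε 0 l ^ 2 + ksn P ε 0 l ^ 2 = 1 := by
  obtain ⟨a, b, ha, hb, hK⟩ := kcs_zero (ε := ε) h hε
  obtain ⟨h1, h2⟩ := hK l
  have hQ := KcE_Q ha hb l
  rw [h1, h2, div_pow, div_pow, Real.sq_sqrt hQ.le, ← add_div, div_eq_one_iff_eq hQ.ne']
  ring

theorem KcE_ex (h : P.Ok) (hε : 0 < ε) {l l' : ℝ} (h1 : kcs P ε 0 l = kcs P ε 0 l')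
    (h2 : ksn P ε 0 l = ksn P ε 0 l') : ∃ m : ℤ, l' = l + m := by
  obtain ⟨a, b, ha, hb, hK⟩ := kcs_zero (ε := ε) h hε
  rw [(hK l).1, (hK l').1] at h1
  rw [(hK l).2, (hK l').2] at h2
  have hQ := Real.sqrt_pos.2 (KcE_Q ha hb l)
  have hQ' := Real.sqrt_pos.2 (KcE_Q ha hb l')
  have e := Real.sin_sq_add_cos_sq (2 * Real.pi * l)
  have e' := Real.sin_sq_add_cos_sq (2 * Real.pi * l')
  generalize Real.sqrt ((a * Real.cos (2 * Real.pi * l)) ^ 2 +
    (b * Real.sin (2 * Real.pi * l)) ^ 2) = w at h1 h2 hQ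
  generalize Real.sqrt ((a * Real.cos (2 * Real.pi * l')) ^ 2 +
    (b * Real.sin (2 * Real.pi * l')) ^ 2) = w' at h1 h2 hQ'
  rw [div_eq_div_iff hQ.ne' hQ'.ne'] at h1 h2
  have h3 : Real.sin (2 * Real.pi * l) * w' = Real.sin (2 * Real.pi * l') * w := by
    have : b * (Real.sin (2 * Real.pi * l) * w') = b * (Real.sin (2 * Real.pi * l') * w) := by
      linarith
    exact mul_left_cancel₀ hb.ne' this
  have h4 : Real.cos (2 * Real.pi * l) * w' = Real.cos (2 * Real.pi * l') * w := by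
    have : a * (Real.cos (2 * Real.pi * l) * w') = a * (Real.cos (2 * Real.pi * l') * w) := by
      linarith
    exact mul_left_cancel₀ ha.ne' this
  have h5 : w' ^ 2 = w ^ 2 := by
    have s3 : (Real.sin (2 * Real.pi * l) * w') ^ 2 = (Real.sin (2 * Real.pi * l') * w) ^ 2 := by
      rw [h3]
    have s4 : (Real.cos (2 * Real.pi * l) * w') ^ 2 = (Real.cos (2 * Real.pi * l') * w) ^ 2 := by
      rw [h4]
    have : (Real.sin (2 * Real.pi * l) ^ 2 + Real.cos (2 * Real.pi * l) ^ 2) * w' ^ 2 =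
        (Real.sin (2 * Real.pi * l') ^ 2 + Real.cos (2 * Real.pi * l') ^ 2) * w ^ 2 := by
      linear_combination s3 + s4
    rw [e, e', one_mul, one_mul] at this
    exact this
  have h6 : w' = w := by
    have := abs_eq_abs.2 (sq_eq_sq_iff_eq_or_eq_neg.1 h5)
    rwa [abs_of_pos hQ', abs_of_pos hQ] at this
  rw [h6] at h3 h4
  have h7 := mul_right_cancel₀ hQ.ne' h3
  have h8 := mul_right_cancel₀ hQ.ne' h4
  apply RSG.ex_eq_iff.1
  apply Complex.ext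
  · rw [RSG.ex_re, RSG.ex_re, h8]
  · rw [RSG.ex_im, RSG.ex_im, h7]

theorem KcE_dS (l : ℝ) : HasDerivAt (fun x : ℝ => Real.sin (2 * Real.pi * x))
    (Real.cos (2 * Real.pi * l) * (2 * Real.pi)) l := by
  have h1 : HasDerivAt (fun x : ℝ => 2 * Real.pi * x) (2 * Real.pi) l := by
    simpa using (hasDerivAt_id l).const_mul (2 * Real.pi)
  exact h1.sin

theorem KcE_dC (l : ℝ) : HasDerivAt (fun x : ℝ => Real.cos (2 * Real.pi * x))
    (-Real.sin (2 * Real.pi * l) * (2 * Real.pi)) l := by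
  have h1 : HasDerivAt (fun x : ℝ => 2 * Real.pi * x) (2 * Real.pi) l := by
    simpa using (hasDerivAt_id l).const_mul (2 * Real.pi)
  exact h1.cos

/-- the denominator -/
noncomputable def KcE_w (a b l : ℝ) : ℝ :=
  Real.sqrt ((a * Real.cos (2 * Real.pi * l)) ^ 2 + (b * Real.sin (2 * Real.pi * l)) ^ 2)

theorem KcE_wpos {a b : ℝ} (ha : 0 < a) (hb : 0 < b) (l : ℝ) : 0 < KcE_w a b l :=
  Real.sqrt_pos.2 (KcE_Q ha hb l)

theorem KcE_wsq {a b : ℝ} (ha : 0 < a) (hb : 0 < b) (l : ℝ) :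
    KcE_w a b l ^ 2 = (a * Real.cos (2 * Real.pi * l)) ^ 2 + (b * Real.sin (2 * Real.pi * l)) ^ 2 :=
  Real.sq_sqrt (KcE_Q ha hb l).le

theorem KcE_dw {a b : ℝ} (ha : 0 < a) (hb : 0 < b) (l : ℝ) : HasDerivAt (KcE_w a b)
    (2 * Real.pi * (b ^ 2 - a ^ 2) * Real.sin (2 * Real.pi * l) * Real.cos (2 * Real.pi * l) /
      KcE_w a b l) l := by
  have hQ := KcE_Q ha hb l
  have dQ : HasDerivAt (fun x => (a * Real.cos (2 * Real.pi * x)) ^ 2 +
      (b * Real.sin (2 * Real.pi * x)) ^ 2)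
      (2 * (2 * Real.pi * (b ^ 2 - a ^ 2) * Real.sin (2 * Real.pi * l) *
        Real.cos (2 * Real.pi * l))) l := by
    refine ((((KcE_dC l).const_mul a).fun_pow 2).fun_add
      (((KcE_dS l).const_mul b).fun_pow 2)).congr_deriv ?_
    simp only [Nat.add_one_sub_one, pow_one, Nat.cast_ofNat]
    ring
  refine (dQ.sqrt hQ.ne').congr_deriv ?_
  unfold KcE_w
  have hs := Real.sqrt_pos.2 hQ
  rw [mul_div_mul_left _ _ two_ne_zero]

/-- derivatives at the core -/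
theorem KcE_dK (h : P.Ok) (hε : 0 < ε) : ∃ kp kn : ℝ → ℝ,
    (∀ l, HasDerivAt (fun x => kcs P ε 0 x) (-(kp l * Real.cos (2 * Real.pi * l))) l) ∧
    (∀ l, HasDerivAt (fun x => ksn P ε 0 x) (kn l * Real.sin (2 * Real.pi * l)) l) ∧
    (∀ l, 0 < kp l) ∧ ∀ l, 0 < kn l := by
  obtain ⟨a, b, ha, hb, hK⟩ := kcs_zero (ε := ε) h hε
  have hpi := Real.pi_pos
  refine ⟨fun l => b * a ^ 2 * (2 * Real.pi) / KcE_w a b l ^ 3,
    fun l => a * b ^ 2 * (2 * Real.pi) / KcE_w a b l ^ 3, ?_, ?_, ?_, ?_⟩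
  · intro l
    have e : (fun x => kcs P ε 0 x) = fun x => -(b * Real.sin (2 * Real.pi * x)) / KcE_w a b x :=
      funext fun x => (hK x).1
    rw [e]
    have hw := KcE_wpos ha hb l
    have e1 := KcE_wsq ha hb l
    have e2 := Real.sin_sq_add_cos_sq (2 * Real.pi * l)
    refine ((((KcE_dS l).const_mul b).fun_neg).fun_div (KcE_dw ha hb l) hw.ne').congr_deriv ?_
    simp only
    generalize KcE_w a b l = w at hw e1 ⊢
    generalize Real.sin (2 * Real.pi * l) = S at e1 e2 ⊢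
    generalize Real.cos (2 * Real.pi * l) = C at e1 e2 ⊢
    field_simp
    linear_combination (-C) * e1 + (-(C * a ^ 2)) * e2
  · intro l
    have e : (fun x => ksn P ε 0 x) = fun x => -(a * Real.cos (2 * Real.pi * x)) / KcE_w a b x :=
      funext fun x => (hK x).2
    rw [e]
    have hw := KcE_wpos ha hb l
    have e1 := KcE_wsq ha hb l
    have e2 := Real.sin_sq_add_cos_sq (2 * Real.pi * l)
    refine ((((KcE_dC l).const_mul a).fun_neg).fun_div (KcE_dw ha hb l) hw.ne').congr_deriv ?_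
    simp only
    generalize KcE_w a b l = w at hw e1 ⊢
    generalize Real.sin (2 * Real.pi * l) = S at e1 e2 ⊢
    generalize Real.cos (2 * Real.pi * l) = C at e1 e2 ⊢
    field_simp
    linear_combination S * e1 + (S * b ^ 2) * e2
  · intro l
    have hw := KcE_wpos ha hb l
    positivity
  · intro l
    have hw := KcE_wpos ha hb l
    positivity

/-! ## the core -/

theorem KcE_z : ‖(0 : ℂ)‖ ≤ 1 := by simp

theorem KcE_N (h : P.Ok) (hε : 0 < ε) (hε' : ε ≤ 1 / 16) (l : ℝ) :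
    (0 < ksn P ε 0 l ↔ Real.cos (2 * Real.pi * l) < 0) ∧
      (ksn P ε 0 l = 0 ↔ Real.cos (2 * Real.pi * l) = 0) :=
  ksn_pos h hε hε' le_rfl zero_le_one l

theorem KcE_K (h : P.Ok) (hε : 0 < ε) (hε' : ε ≤ 1 / 16) (l : ℝ) :
    (0 < kcs P ε 0 l ↔ Real.sin (2 * Real.pi * l) < 0) ∧
      (kcs P ε 0 l = 0 ↔ Real.sin (2 * Real.pi * l) = 0) :=
  kcs_pos h hε hε' le_rfl zero_le_one l

theorem core_A (h : P.Ok) (hε : 0 < ε) (hε' : ε ≤ 1 / 16) {l : ℝ} (hl : Real.cos (2 * Real.pi * l) < 0) :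
    Wk0 P ε (l, 0) ∈ KA P ∧ A P.c (Wk0 P ε (l, 0)) = ((tau P.c : ℂ), 1000 * kcs P ε 0 l) := by
  obtain ⟨h0, -, h1⟩ := Ok_c h
  obtain ⟨w1, w2⟩ := Wk0_in h hε hε' KcE_z hl
  rw [KcE_kP0] at w1 w2
  have e : tv (tau P.c) ((0, 1000 * kcs P ε 0 l) : F3) =
      ((tau P.c : ℂ), 1000 * kcs P ε 0 l) := by
    unfold tv
    simp
  rw [e] at w1 w2
  have e2 := A_Ai h0 h1 w1
  rw [← w2] at e2
  refine ⟨⟨?_, ?_, ?_⟩, e2⟩
  · rw [w2]
    exact Ai_mem h0 h1 w1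
  · rw [e2]
  · rw [e2]
    show |1000 * kcs P ε 0 l| < 1000
    have h2 := KcE_sq (ε := ε) h hε l
    have h3 := ((KcE_N h hε hε' l).1).2 hl
    have h4 : kcs P ε 0 l ^ 2 < 1 := by nlinarith
    have h5 : |kcs P ε 0 l| < 1 := by
      rw [← sq_abs] at h4
      have := abs_nonneg (kcs P ε 0 l)
      nlinarith
    rw [abs_mul, abs_of_pos (by norm_num : (0 : ℝ) < 1000)]
    linarith

theorem KcE_zero (h : P.Ok) (hε : 0 < ε) (hε' : ε ≤ 1 / 16) {l : ℝ}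
    (hl : Real.cos (2 * Real.pi * l) = 0) :
    Wk0 P ε (l, 0) = (0, 2000 * kcs P ε 0 l) ∧ kcs P ε 0 l ^ 2 = 1 := by
  have hN := ((KcE_N h hε hε' l).2).2 hl
  have h1 := Wk0_corner h hε hε' (l := l) (ζ := 0) KcE_z (by
    rw [map_zero, hN, abs_zero]
    norm_num)
  constructor
  · rw [h1, KcE_kC0, hN, add_zero, div_one]
  · have := KcE_sq (ε := ε) h hε l
    rw [hN] at this
    linarith

theorem KcE_J (h : P.Ok) (hε : 0 < ε) (hε' : ε ≤ 1 / 16) (l : ℝ) :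
    Wk0 P ε (l, 0) = (4000000 : ℝ) • Jv (Wk0 P ε (1 / 2 - l, 0)) := by
  have := Wk0_J h hε hε' l KcE_z
  rwa [map_zero] at this

theorem KcE_cos (l : ℝ) :
    Real.cos (2 * Real.pi * (1 / 2 - l)) = -Real.cos (2 * Real.pi * l) := by
  rw [show 2 * Real.pi * (1 / 2 - l) = Real.pi - 2 * Real.pi * l by ring, Real.cos_pi_sub]

theorem KcE_sin (l : ℝ) :
    Real.sin (2 * Real.pi * (1 / 2 - l)) = Real.sin (2 * Real.pi * l) := by
  rw [show 2 * Real.pi * (1 / 2 - l) = Real.pi - 2 * Real.pi * l by ring, Real.sin_pi_sub]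

theorem KcE_neg (h : P.Ok) (hε : 0 < ε) (hε' : ε ≤ 1 / 16) {l : ℝ}
    (hl : Real.cos (2 * Real.pi * l) < 0) :
    1 ≤ rr (Wk0 P ε (l, 0)) ∧ rr (Wk0 P ε (l, 0)) < 2000 ∧
      (Wk0 P ε (l, 0)).1 = ((tau P.c * (1 - stp 3 43 (rr (Wk0 P ε (l, 0)))) : ℝ) : ℂ) ∧
      (rr (Wk0 P ε (l, 0)) ≤ 2000 / 43 → (Wk0 P ε (l, 0)).2 = 1000 * kcs P ε 0 l) ∧
      (43 < rr (Wk0 P ε (l, 0)) →
        A P.c (Wk0 P ε (l, 0)) = tv (tau P.c) (Jv (Op (Jv (Wk0 P ε (l, 0)))))) := by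
  obtain ⟨h1, h2⟩ := core_A h hε hε' hl
  exact KcE_pt h h1.1 h2

theorem core_KS (h : P.Ok) (hε : 0 < ε) (hε' : ε ≤ 1 / 16) (l : ℝ) :
    ∃ n : ℤ, ∃ k ∈ KS P, Wk0 P ε (l, 0) = (4000000 : ℝ) ^ n • k := by
  rcases lt_trichotomy (Real.cos (2 * Real.pi * l)) 0 with hl | hl | hl
  · exact ⟨0, _, Or.inl (core_A h hε hε' hl).1, by simp⟩
  · obtain ⟨h1, h2⟩ := KcE_zero h hε hε' hl
    refine ⟨0, _, ?_, by rw [zpow_zero, one_smul]⟩
    rw [h1]
    have h3 : kcs P ε 0 l = 1 ∨ kcs P ε 0 l = -1 := by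
      rcases mul_eq_zero.1 (show (kcs P ε 0 l - 1) * (kcs P ε 0 l + 1) = 0 by linear_combination h2) with h4 | h4
      · exact Or.inl (by linarith)
      · exact Or.inr (by linarith)
    rcases h3 with h3 | h3
    · rw [h3]
      refine Or.inr (Or.inr (Or.inl ?_))
      norm_num
    · rw [h3]
      refine Or.inr (Or.inr (Or.inr ?_))
      norm_num
  · have hl' : Real.cos (2 * Real.pi * (1 / 2 - l)) < 0 := by
      rw [KcE_cos]
      linarith
    refine ⟨1, Jv (Wk0 P ε (1 / 2 - l, 0)), ?_, ?_⟩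
    · refine Or.inr (Or.inl ?_)
      rw [Jv_Jv]
      exact (core_A h hε hε' hl').1
    · rw [zpow_one]
      exact KcE_J h hε hε' l

/-- the core is in the plane of real `w` -/
theorem core_real (h : P.Ok) (hε : 0 < ε) (hε' : ε ≤ 1 / 16) (l : ℝ) :
    ∃ a : ℝ, 0 ≤ a ∧ (Wk0 P ε (l, 0)).1 = a := by
  obtain ⟨t1, t2⟩ := KcE_tau h
  have key : ∀ l', Real.cos (2 * Real.pi * l') < 0 → ∃ a : ℝ, 0 ≤ a ∧
      (Wk0 P ε (l', 0)).1 = a := by
    intro l' hl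
    refine ⟨_, ?_, (KcE_neg h hε hε' hl).2.2.1⟩
    have := CSG.stp_le_one 3 43 (rr (Wk0 P ε (l', 0)))
    nlinarith
  rcases lt_trichotomy (Real.cos (2 * Real.pi * l)) 0 with hl | hl | hl
  · exact key l hl
  · refine ⟨0, le_rfl, ?_⟩
    rw [(KcE_zero h hε hε' hl).1]
    simp
  · have hl' : Real.cos (2 * Real.pi * (1 / 2 - l)) < 0 := by
      rw [KcE_cos]
      linarith
    obtain ⟨a, ha, e⟩ := key _ hl'
    refine ⟨4000000 * (a / q2 (Wk0 P ε (1 / 2 - l, 0))), ?_, ?_⟩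
    · have := q2_nonneg (Wk0 P ε (1 / 2 - l, 0))
      positivity
    · rw [KcE_J h hε hε' l]
      unfold Jv
      simp only [Prod.smul_mk]
      rw [e, Complex.conj_ofReal, Complex.real_smul]
      push_cast
      rfl

theorem KcE_rrJ (h : P.Ok) (hε : 0 < ε) (hε' : ε ≤ 1 / 16) (l : ℝ) :
    rr (Wk0 P ε (l, 0)) = 4000000 / rr (Wk0 P ε (1 / 2 - l, 0)) := by
  rw [KcE_J h hε hε' l, rr_smul, rr_Jv, abs_of_pos (by norm_num : (0 : ℝ) < 4000000)]
  rfl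

theorem KcE_rpos (h : P.Ok) (hε : 0 < ε) (hε' : ε ≤ 1 / 16) (l : ℝ) :
    0 < rr (Wk0 P ε (l, 0)) := rr_pos (Wk0_ne h hε hε' l KcE_z)

theorem KcE_tau_le (h : P.Ok) (hε : 0 < ε) (hε' : ε ≤ 1 / 16) {l : ℝ}
    (hl : Real.cos (2 * Real.pi * l) < 0) : tau P.c ≤ rr (Wk0 P ε (l, 0)) := by
  obtain ⟨t1, t2⟩ := KcE_tau h
  obtain ⟨h1, h2, h3, -, -⟩ := KcE_neg h hε hε' hl
  rcases le_or_gt (rr (Wk0 P ε (l, 0))) 3 with h4 | h4
  · rw [CSG.stp_zero (by norm_num) h4, sub_zero, mul_one] at h3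
    have h5 := KcE_sq_fst h3
    by_contra hc
    push Not at hc
    nlinarith [sq_nonneg (Wk0 P ε (l, 0)).2]
  · linarith

theorem core_rr (h : P.Ok) (hε : 0 < ε) (hε' : ε ≤ 1 / 16) (l : ℝ) :
    tau P.c ≤ rr (Wk0 P ε (l, 0)) ∧ rr (Wk0 P ε (l, 0)) ≤ 4000000 / tau P.c ∧
      (rr (Wk0 P ε (l, 0)) < 2000 ↔ Real.cos (2 * Real.pi * l) < 0) := by
  obtain ⟨t1, t2⟩ := KcE_tau h
  have t0 : 0 < tau P.c := by linarith
  have hbig : 2000 ≤ 4000000 / tau P.c := by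
    rw [le_div_iff₀ t0]
    linarith
  rcases lt_trichotomy (Real.cos (2 * Real.pi * l)) 0 with hl | hl | hl
  · obtain ⟨h1, h2, -, -, -⟩ := KcE_neg h hε hε' hl
    refine ⟨KcE_tau_le h hε hε' hl, by linarith, ?_⟩
    simp [hl, h2]
  · obtain ⟨h1, h2⟩ := KcE_zero h hε hε' hl
    have h3 : rr (Wk0 P ε (l, 0)) = 2000 := by
      rw [h1, KcE_rr_axis rfl]
      show |2000 * kcs P ε 0 l| = 2000
      have h4 : |kcs P ε 0 l| = 1 := by
        rw [← sq_abs] at h2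
        have := abs_nonneg (kcs P ε 0 l)
        nlinarith
      rw [abs_mul, h4]
      norm_num
    rw [h3, hl]
    refine ⟨by linarith, hbig, ?_⟩
    simp
  · have hl' : Real.cos (2 * Real.pi * (1 / 2 - l)) < 0 := by
      rw [KcE_cos]
      linarith
    obtain ⟨h1, h2, -, -, -⟩ := KcE_neg h hε hε' hl'
    have h3 := KcE_tau_le h hε hε' hl'
    have h4 := KcE_rrJ h hε hε' l
    have h5 := KcE_rpos h hε hε' (1 / 2 - l)
    rw [h4]
    have h6 : 2000 < 4000000 / rr (Wk0 P ε (1 / 2 - l, 0)) := by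
      rw [lt_div_iff₀ h5]
      linarith
    refine ⟨by linarith, ?_, ?_⟩
    · exact div_le_div_of_nonneg_left (by norm_num) t0 h3
    · constructor
      · intro h7
        linarith
      · intro h7
        linarith

theorem core_pos (h : P.Ok) (hε : 0 < ε) (hε' : ε ≤ 1 / 16) (l : ℝ) :
    0 < (Wk0 P ε (l, 0)).2 ↔ Real.sin (2 * Real.pi * l) < 0 := by
  have key : ∀ l', Real.cos (2 * Real.pi * l') < 0 →
      (0 < (Wk0 P ε (l', 0)).2 ↔ Real.sin (2 * Real.pi * l') < 0) := by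
    intro l' hl
    obtain ⟨h1, h2⟩ := core_A h hε hε' hl
    rw [← A_snd_pos (c := P.c) h1.1, h2, ← (KcE_K h hε hε' l').1]
    show 0 < 1000 * kcs P ε 0 l' ↔ _
    constructor
    · intro h3
      linarith
    · intro h3
      linarith
  rcases lt_trichotomy (Real.cos (2 * Real.pi * l)) 0 with hl | hl | hl
  · exact key l hl
  · rw [(KcE_zero h hε hε' hl).1, ← (KcE_K h hε hε' l).1]
    show 0 < 2000 * kcs P ε 0 l ↔ _
    constructor
    · intro h3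
      linarith
    · intro h3
      linarith
  · have hl' : Real.cos (2 * Real.pi * (1 / 2 - l)) < 0 := by
      rw [KcE_cos]
      linarith
    have h1 := key _ hl'
    rw [KcE_sin] at h1
    rw [← h1, KcE_J h hε hε' l, ← Jv_snd_pos (x := Wk0 P ε (1 / 2 - l, 0))]
    show 0 < 4000000 * (Jv (Wk0 P ε (1 / 2 - l, 0))).2 ↔ _
    constructor
    · intro h3
      linarith
    · intro h3
      linarith

theorem KcE_cos_half : Real.cos (2 * Real.pi * (1 / 2)) = -1 := by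
  rw [show 2 * Real.pi * (1 / 2) = Real.pi by ring, Real.cos_pi]

theorem KcE_sin_half : Real.sin (2 * Real.pi * (1 / 2)) = 0 := by
  rw [show 2 * Real.pi * (1 / 2) = Real.pi by ring, Real.sin_pi]

theorem KcE_quarter : Real.cos (2 * Real.pi * (1 / 4)) = 0 ∧ Real.sin (2 * Real.pi * (1 / 4)) = 1 := by
  rw [show 2 * Real.pi * (1 / 4) = Real.pi / 2 by ring]
  exact ⟨Real.cos_pi_div_two, Real.sin_pi_div_two⟩

theorem KcE_three : Real.cos (2 * Real.pi * (3 / 4)) = 0 ∧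
    Real.sin (2 * Real.pi * (3 / 4)) = -1 := by
  rw [show 2 * Real.pi * (3 / 4) = Real.pi / 2 + Real.pi by ring, Real.cos_add_pi,
    Real.sin_add_pi, Real.cos_pi_div_two, Real.sin_pi_div_two]
  exact ⟨neg_zero, rfl⟩

theorem core_half (h : P.Ok) (hε : 0 < ε) (hε' : ε ≤ 1 / 16) :
    Wk0 P ε (1 / 2, 0) = ((tau P.c : ℂ), 0) := by
  obtain ⟨t1, t2⟩ := KcE_tau h
  have hl : Real.cos (2 * Real.pi * (1 / 2)) < 0 := by
    rw [KcE_cos_half]
    norm_num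
  obtain ⟨a1, a2⟩ := core_A h hε hε' hl
  obtain ⟨h1, h2, h3, h4, -⟩ := KcE_neg h hε hε' hl
  have hK : kcs P ε 0 (1 / 2) = 0 := ((KcE_K h hε hε' (1 / 2)).2).2 KcE_sin_half
  rw [hK, mul_zero] at a2
  have h5 : (Wk0 P ε (1 / 2, 0)).2 = 0 := by
    rw [← A_snd_zero (c := P.c) a1.1, a2]
  have h6 := KcE_sq_fst h3
  rw [h5] at h6
  have h7 : rr (Wk0 P ε (1 / 2, 0)) ≤ 3 := by
    have s1 := CSG.stp_nonneg 3 43 (rr (Wk0 P ε (1 / 2, 0)))
    have s2 := CSG.stp_le_one 3 43 (rr (Wk0 P ε (1 / 2, 0)))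
    generalize stp 3 43 (rr (Wk0 P ε (1 / 2, 0))) = σ at h6 s1 s2
    by_contra hc
    push Not at hc
    have h8 : 0 ≤ tau P.c * (1 - σ) := mul_nonneg (by linarith) (by linarith)
    have h9 : tau P.c * (1 - σ) ≤ 103 / 100 := by nlinarith
    nlinarith
  rw [CSG.stp_zero (by norm_num) h7, sub_zero, mul_one] at h3
  exact Prod.ext h3 h5

theorem core_quarter (h : P.Ok) (hε : 0 < ε) (hε' : ε ≤ 1 / 16) :
    Wk0 P ε (3 / 4, 0) = (0, 2000) ∧ Wk0 P ε (1 / 4, 0) = (0, -2000) := by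
  constructor
  · obtain ⟨h1, h2⟩ := KcE_zero h hε hε' KcE_three.1
    have h3 : 0 < kcs P ε 0 (3 / 4) := by
      rw [(KcE_K h hε hε' (3 / 4)).1, KcE_three.2]
      norm_num
    have h4 : kcs P ε 0 (3 / 4) = 1 := by nlinarith
    rw [h1, h4, mul_one]
  · obtain ⟨h1, h2⟩ := KcE_zero h hε hε' KcE_quarter.1
    have h3 : ¬ 0 < kcs P ε 0 (1 / 4) := by
      rw [(KcE_K h hε hε' (1 / 4)).1, KcE_quarter.2]
      norm_num
    have h4 : kcs P ε 0 (1 / 4) = -1 := by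
      push Not at h3
      nlinarith
    rw [h1, h4]
    norm_num

theorem KcE_per (l : ℝ) (n : ℤ) : Wk0 P ε (l + n, 0) = Wk0 P ε (l, 0) := Wk0_per l 0 n

theorem KcE_rr_flip (h : P.Ok) (hε : 0 < ε) (hε' : ε ≤ 1 / 16) (l : ℝ) :
    rr (Wk0 P ε (l, 0)) = rr (Wk0 P ε (1 - l, 0)) := by
  have h1 := Wk0_mir h hε hε' l KcE_z
  have h2 := KcE_per (P := P) (ε := ε) (-l) 1
  rw [show -l + ((1 : ℤ) : ℝ) = 1 - l by push_cast; ring] at h2
  rw [h2, h1, rr_mir]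

theorem KcE_rr_flip2 (h : P.Ok) (hε : 0 < ε) (hε' : ε ≤ 1 / 16) (l : ℝ) :
    rr (Wk0 P ε (l, 0)) = 4000000 / rr (Wk0 P ε (3 / 2 - l, 0)) := by
  have h2 := KcE_per (P := P) (ε := ε) (1 / 2 - l) 1
  rw [show 1 / 2 - l + ((1 : ℤ) : ℝ) = 3 / 2 - l by push_cast; ring] at h2
  rw [h2]
  exact KcE_rrJ h hε hε' l

theorem KcE_diff (h : P.Ok) (hε : 0 < ε) (hε' : ε ≤ 1 / 16) (l : ℝ) :
    DifferentiableAt ℝ (fun x => Wk0 P ε (x, 0)) l := by
  have h1 := (Wk0_ld h hε hε' l (ζ := 0) (by simp)).contMDiffAt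
  have h2 : ContDiffAt ℝ ∞ (Wk0 P ε) (l, 0) := contMDiffAt_iff_contDiffAt.1 h1
  have h3 : ContDiffAt ℝ ∞ (fun x : ℝ => (x, (0 : ℂ))) l := contDiffAt_id.prodMk contDiffAt_const
  have h4 : ContDiffAt ℝ ∞ (fun x => Wk0 P ε (x, 0)) l := ContDiffAt.comp (g := Wk0 P ε) (f := fun x : ℝ => (x, (0 : ℂ))) l h2 h3
  exact h4.differentiableAt (by simp)

theorem KcE_rdiff (h : P.Ok) (hε : 0 < ε) (hε' : ε ≤ 1 / 16) (l : ℝ) :
    DifferentiableAt ℝ (fun x => rr (Wk0 P ε (x, 0))) l := by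
  have h1 : DifferentiableAt ℝ rr (Wk0 P ε (l, 0)) :=
    (rr_smooth (Wk0_ne h hε hε' l KcE_z)).differentiableAt (by simp)
  exact DifferentiableAt.comp (g := rr) (f := fun x => Wk0 P ε (x, 0)) l h1
    (KcE_diff h hε hε' l)

theorem KcE_ccont : Continuous fun x : ℝ => Real.cos (2 * Real.pi * x) :=
  Real.continuous_cos.comp (continuous_const.mul continuous_id)

theorem KcE_scont : Continuous fun x : ℝ => Real.sin (2 * Real.pi * x) :=
  Real.continuous_sin.comp (continuous_const.mul continuous_id)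

/-- the region `r < 2000 / 43` -/
theorem KcE_drA (h : P.Ok) (hε : 0 < ε) (hε' : ε ≤ 1 / 16) {l : ℝ}
    (hl : Real.cos (2 * Real.pi * l) < 0) (hs : Real.sin (2 * Real.pi * l) < 0)
    (hr : rr (Wk0 P ε (l, 0)) < 2000 / 43) :
    0 < deriv (fun x => rr (Wk0 P ε (x, 0))) l := by
  obtain ⟨t1, t2⟩ := KcE_tau h
  obtain ⟨kp, kn, dK, dN, kp0, kn0⟩ := KcE_dK (ε := ε) h hε
  have hf := (KcE_rdiff h hε hε' l).hasDerivAt
  have hev : (fun x => rr (Wk0 P ε (x, 0)) ^ 2) =ᶠ[𝓝 l] fun x =>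
      (tau P.c * (1 - stp 3 43 (rr (Wk0 P ε (x, 0))))) ^ 2 + (1000 * kcs P ε 0 x) ^ 2 := by
    filter_upwards [KcE_ccont.continuousAt.eventually (Iio_mem_nhds hl),
      (KcE_rdiff h hε hε' l).continuousAt.eventually (Iio_mem_nhds hr)] with x hx1 hx2
    obtain ⟨-, -, e1, e2, -⟩ := KcE_neg h hε hε' hx1
    have e3 := KcE_sq_fst e1
    rw [e2 (le_of_lt hx2)] at e3
    exact e3
  have dstp : HasDerivAt (stp 3 43) (deriv (stp 3 43) (rr (Wk0 P ε (l, 0))))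
      (rr (Wk0 P ε (l, 0))) :=
    (((CSG.stp_smooth 3 43).differentiable (by simp)) _).hasDerivAt
  have ds := HasDerivAt.comp l dstp hf
  have d1 := hf.fun_pow 2
  have d2 := ((((ds.const_sub 1).const_mul (tau P.c)).fun_pow 2).fun_add
    (((dK l).const_mul 1000).fun_pow 2))
  have e := d1.unique (d2.congr_of_eventuallyEq hev)
  simp only [Nat.add_one_sub_one, pow_one, Nat.cast_ofNat, Function.comp] at e
  have s1 := CSG.stp_deriv_nonneg (a := 3) (b := 43) (by norm_num) (rr (Wk0 P ε (l, 0)))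
  have s2 := CSG.stp_le_one 3 43 (rr (Wk0 P ε (l, 0)))
  have hk : 0 < kcs P ε 0 l := ((KcE_K h hε hε' l).1).2 hs
  have hr0 := KcE_rpos h hε hε' l
  have hkp := kp0 l
  generalize deriv (stp 3 43) (rr (Wk0 P ε (l, 0))) = σ' at e s1
  generalize stp 3 43 (rr (Wk0 P ε (l, 0))) = σ at e s2
  generalize deriv (fun x => rr (Wk0 P ε (x, 0))) l = r' at e ⊢
  generalize rr (Wk0 P ε (l, 0)) = r at e hr0
  generalize Real.cos (2 * Real.pi * l) = C at e hl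
  generalize kcs P ε 0 l = K at e hk
  generalize kp l = κ at e hkp
  have e2 : r' * (r + tau P.c ^ 2 * ((1 - σ) * σ')) = 1000 ^ 2 * (K * (κ * -C)) := by
    linear_combination (1 / 2 : ℝ) * e
  have p1 : 0 < K * (κ * -C) := mul_pos hk (mul_pos hkp (by linarith))
  have p2 : 0 ≤ (1 - σ) * σ' := mul_nonneg (by linarith) s1
  have p3 : 0 < r + tau P.c ^ 2 * ((1 - σ) * σ') := by positivity
  by_contra hc
  push Not at hc
  nlinarith

/-- the region `43 < r` -/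
theorem KcE_drB (h : P.Ok) (hε : 0 < ε) (hε' : ε ≤ 1 / 16) {l : ℝ}
    (hl : Real.cos (2 * Real.pi * l) < 0) (hs : Real.sin (2 * Real.pi * l) < 0)
    (hr : 43 < rr (Wk0 P ε (l, 0))) :
    0 < deriv (fun x => rr (Wk0 P ε (x, 0))) l := by
  obtain ⟨kp, kn, dK, dN, kp0, kn0⟩ := KcE_dK (ε := ε) h hε
  have hf := (KcE_rdiff h hε hε' l).hasDerivAt
  have hev : (fun x => mO (rr (Wk0 P ε (x, 0)))⁻¹) =ᶠ[𝓝 l] fun x => (1000 * kcs P ε 0 x)⁻¹ := by
    filter_upwards [KcE_ccont.continuousAt.eventually (Iio_mem_nhds hl),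
      KcE_scont.continuousAt.eventually (Iio_mem_nhds hs),
      (KcE_rdiff h hε hε' l).continuousAt.eventually (Ioi_mem_nhds hr)] with x hx1 hx2 hx3
    obtain ⟨a1, a2⟩ := core_A h hε hε' hx1
    obtain ⟨e0, e1, e2, -, e3⟩ := KcE_neg h hε hε' hx1
    have hx3' : 43 < rr (Wk0 P ε (x, 0)) := hx3
    rw [CSG.stp_one (by norm_num) hx3'.le, sub_self, mul_zero, Complex.ofReal_zero] at e2
    have hpos : 0 < (Wk0 P ε (x, 0)).2 := (core_pos h hε hε' x).2 hx2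
    have hrr : rr (Wk0 P ε (x, 0)) = (Wk0 P ε (x, 0)).2 := by
      rw [KcE_rr_axis e2, abs_of_pos hpos]
    have hJ : Jv (Wk0 P ε (x, 0)) = (0, (rr (Wk0 P ε (x, 0)))⁻¹) := by
      rw [hrr]
      exact Prod.ext (KcE_axis e2).1 (KcE_axis e2).2
    have hv : 1 / 2000 < (rr (Wk0 P ε (x, 0)))⁻¹ := by
      rw [lt_inv_comm₀ (by norm_num) (by linarith)]
      linarith
    have h4 := e3 hx3'
    rw [a2, hJ, Op_axis hv] at h4
    have h5 := congrArg Prod.snd h4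
    have h6 : (Jv ((0, mO (rr (Wk0 P ε (x, 0)))⁻¹) : F3)).2 = (mO (rr (Wk0 P ε (x, 0)))⁻¹)⁻¹ :=
      (KcE_axis (x := ((0, mO (rr (Wk0 P ε (x, 0)))⁻¹) : F3)) rfl).2
    have h7 : 1000 * kcs P ε 0 x = (mO (rr (Wk0 P ε (x, 0)))⁻¹)⁻¹ := by
      rw [← h6]
      exact h5
    show mO (rr (Wk0 P ε (x, 0)))⁻¹ = (1000 * kcs P ε 0 x)⁻¹
    rw [h7, inv_inv]
  have hr0 := KcE_rpos h hε hε' l
  have hr2 : rr (Wk0 P ε (l, 0)) < 2000 := (KcE_neg h hε hε' hl).2.1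
  have hv : 1 / 2000 < (rr (Wk0 P ε (l, 0)))⁻¹ := by
    rw [lt_inv_comm₀ (by norm_num) hr0]
    linarith
  have hm0 := Op_ok.md _ hv
  have dm : HasDerivAt mO (deriv mO (rr (Wk0 P ε (l, 0)))⁻¹) (rr (Wk0 P ε (l, 0)))⁻¹ :=
    ((Op_ok.ms _ hv).differentiableAt (by simp)).hasDerivAt
  have d1 := HasDerivAt.comp l dm (hf.fun_inv hr0.ne')
  have hk : 0 < kcs P ε 0 l := ((KcE_K h hε hε' l).1).2 hs
  have d2 := ((dK l).const_mul 1000).fun_inv (by positivity)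
  have e := d1.unique (d2.congr_of_eventuallyEq hev)
  have hkp := kp0 l
  generalize deriv mO (rr (Wk0 P ε (l, 0)))⁻¹ = m' at e hm0
  generalize deriv (fun x => rr (Wk0 P ε (x, 0))) l = r' at e ⊢
  generalize rr (Wk0 P ε (l, 0)) = r at e hr0
  generalize Real.cos (2 * Real.pi * l) = C at e hl
  generalize kcs P ε 0 l = K at e hk
  generalize kp l = κ at e hkp
  have e2 : r' * (m' / r ^ 2) = 1000 * (κ * -C) / (1000 * K) ^ 2 := by
    have e3 : m' * (-r' / r ^ 2) = -(r' * (m' / r ^ 2)) := by ring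
    rw [e3] at e
    have e4 : -(1000 * -(κ * C)) / (1000 * K) ^ 2 = -(1000 * (κ * -C) / (1000 * K) ^ 2) := by ring
    rw [e4] at e
    exact neg_injective e
  have p1 : 0 < 1000 * (κ * -C) / (1000 * K) ^ 2 := by
    have : 0 < κ * -C := mul_pos hkp (by linarith)
    positivity
  rw [← e2] at p1
  exact pos_of_mul_pos_left p1 (by positivity)

/-- the corner `l = 3/4` -/
theorem KcE_drC (h : P.Ok) (hε : 0 < ε) (hε' : ε ≤ 1 / 16) :
    0 < deriv (fun x => rr (Wk0 P ε (x, 0))) (3 / 4) := by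
  obtain ⟨kp, kn, dK, dN, kp0, kn0⟩ := KcE_dK (ε := ε) h hε
  have hf := (KcE_rdiff h hε hε' (3 / 4)).hasDerivAt
  have hN : ksn P ε 0 (3 / 4) = 0 := ((KcE_N h hε hε' (3 / 4)).2).2 KcE_three.1
  have hK0 : 0 < kcs P ε 0 (3 / 4) := by
    rw [(KcE_K h hε hε' (3 / 4)).1, KcE_three.2]
    norm_num
  have hK : kcs P ε 0 (3 / 4) = 1 := by
    have := (KcE_zero h hε hε' KcE_three.1).2
    nlinarith
  have cN : ∀ᶠ x in 𝓝 (3 / 4 : ℝ), |ksn P ε 0 x| < 3 / 5 := by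
    have c1 : ContinuousAt (fun x => |ksn P ε 0 x|) (3 / 4) := (dN (3 / 4)).continuousAt.abs
    refine c1.eventually (Iio_mem_nhds ?_)
    simp only [hN, abs_zero]
    norm_num
  have cK : ∀ᶠ x in 𝓝 (3 / 4 : ℝ), 0 < kcs P ε 0 x :=
    (dK (3 / 4)).continuousAt.eventually (Ioi_mem_nhds hK0)
  have hev : (fun x => rr (Wk0 P ε (x, 0))) =ᶠ[𝓝 (3 / 4)] fun x =>
      2000 * kcs P ε 0 x / (1 + ksn P ε 0 x) := by
    filter_upwards [cN, cK] with x hx1 hx2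
    have h1 := Wk0_corner h hε hε' (l := x) (ζ := 0) KcE_z (by
      rw [map_zero]
      exact hx1.le)
    rw [h1, KcE_kC0, KcE_rr_axis rfl]
    have h2 := abs_lt.1 hx1
    exact abs_of_pos (div_pos (by positivity) (by linarith))
  have hne : 1 + ksn P ε 0 (3 / 4) ≠ 0 := by
    rw [hN]
    norm_num
  have d2 := (((dK (3 / 4)).const_mul 2000).fun_div ((dN (3 / 4)).const_add 1) hne)
  have e := hf.unique (d2.congr_of_eventuallyEq hev)
  rw [hK, hN, KcE_three.1, KcE_three.2] at e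
  have := kn0 (3 / 4)
  rw [e]
  ring_nf
  linarith

theorem KcE_sin_neg {l : ℝ} (h1 : 1 / 2 < l) (h2 : l < 1) : Real.sin (2 * Real.pi * l) < 0 := by
  have hpi := Real.pi_pos
  have h3 : Real.sin (2 * Real.pi * l) = -Real.sin (2 * Real.pi * l - Real.pi) := by
    rw [Real.sin_sub_pi, neg_neg]
  have h4 : 0 < Real.sin (2 * Real.pi * l - Real.pi) :=
    Real.sin_pos_of_pos_of_lt_pi (by nlinarith) (by nlinarith)
  linarith

theorem KcE_cos_neg {l : ℝ} (h1 : 1 / 4 < l) (h2 : l < 3 / 4) : Real.cos (2 * Real.pi * l) < 0 := by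
  have hpi := Real.pi_pos
  exact Real.cos_neg_of_pi_div_two_lt_of_lt (by nlinarith) (by nlinarith)

theorem KcE_drD (h : P.Ok) (hε : 0 < ε) (hε' : ε ≤ 1 / 16) {l : ℝ} (h1 : 1 / 2 < l)
    (h2 : l ≤ 3 / 4) : 0 < deriv (fun x => rr (Wk0 P ε (x, 0))) l := by
  rcases eq_or_lt_of_le h2 with h3 | h3
  · rw [h3]
    exact KcE_drC h hε hε'
  · have hC := KcE_cos_neg (by linarith) h3
    have hS := KcE_sin_neg h1 (by linarith)
    rcases lt_or_ge (rr (Wk0 P ε (l, 0))) (2000 / 43) with h4 | h4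
    · exact KcE_drA h hε hε' hC hS h4
    · exact KcE_drB h hε hε' hC hS (by linarith)

theorem KcE_drE (h : P.Ok) (hε : 0 < ε) (hε' : ε ≤ 1 / 16) {l : ℝ} (h1 : 1 / 2 < l)
    (h2 : l < 1) : 0 < deriv (fun x => rr (Wk0 P ε (x, 0))) l := by
  rcases le_or_gt l (3 / 4) with h3 | h3
  · exact KcE_drD h hε hε' h1 h3
  · have h4 := KcE_drD h hε hε' (l := 3 / 2 - l) (by linarith) (by linarith)
    have hf := (KcE_rdiff h hε hε' (3 / 2 - l)).hasDerivAt
    have hr := KcE_rpos h hε hε' (3 / 2 - l)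
    have d0 : HasDerivAt (fun x : ℝ => 3 / 2 - x) (-1) l := by
      simpa using (hasDerivAt_id l).const_sub (3 / 2)
    have d1 := HasDerivAt.comp l hf d0
    have d2 := (d1.fun_inv hr.ne').const_mul (4000000 : ℝ)
    have e : (fun x => rr (Wk0 P ε (x, 0))) = fun x =>
        4000000 * (((fun x => rr (Wk0 P ε (x, 0))) ∘ fun x : ℝ => 3 / 2 - x) x)⁻¹ := by
      funext x
      exact KcE_rr_flip2 h hε hε' x
    rw [e, d2.deriv]
    simp only [Function.comp]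
    have : 0 < deriv (fun x => rr (Wk0 P ε (x, 0))) (3 / 2 - l) / rr (Wk0 P ε (3 / 2 - l, 0)) ^ 2 :=
      div_pos h4 (by positivity)
    have e2 : (4000000 : ℝ) * (-(deriv (fun x => rr (Wk0 P ε (x, 0))) (3 / 2 - l) * -1) /
        rr (Wk0 P ε (3 / 2 - l, 0)) ^ 2) = 4000000 * (deriv (fun x => rr (Wk0 P ε (x, 0)))
        (3 / 2 - l) / rr (Wk0 P ε (3 / 2 - l, 0)) ^ 2) := by ring
    rw [e2]
    positivity

theorem core_dr (h : P.Ok) (hε : 0 < ε) (hε' : ε ≤ 1 / 16) {l : ℝ} :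
    (1 / 2 < l → l < 1 → 0 < deriv (fun l' => rr (Wk0 P ε (l', 0))) l) ∧
      (0 < l → l < 1 / 2 → deriv (fun l' => rr (Wk0 P ε (l', 0))) l < 0) := by
  refine ⟨KcE_drE h hε hε', ?_⟩
  intro h1 h2
  have h4 := KcE_drE h hε hε' (l := 1 - l) (by linarith) (by linarith)
  have hf := (KcE_rdiff h hε hε' (1 - l)).hasDerivAt
  have d0 : HasDerivAt (fun x : ℝ => 1 - x) (-1) l := by
    simpa using (hasDerivAt_id l).const_sub 1
  have d1 := HasDerivAt.comp l hf d0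
  have e : (fun x => rr (Wk0 P ε (x, 0))) =
      (fun x => rr (Wk0 P ε (x, 0))) ∘ fun x : ℝ => 1 - x := by
    funext x
    exact KcE_rr_flip h hε hε' x
  rw [e, d1.deriv]
  linarith

theorem KcE_cos_le {l : ℝ} (hl : |l - 1 / 2| ≤ 1 / 4) : Real.cos (2 * Real.pi * l) ≤ 0 := by
  have hpi := Real.pi_pos
  have h1 := abs_le.1 hl
  exact Real.cos_nonpos_of_pi_div_two_le_of_le (by nlinarith) (by nlinarith)

/-- `r < 3` -/
theorem KcE_small (h : P.Ok) (hε : 0 < ε) (hε' : ε ≤ 1 / 16) {l : ℝ} (hl : |l - 1 / 2| ≤ 1 / 4)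
    (hX : |(Wk0 P ε (l, 0)).2 / rr (Wk0 P ε (l, 0))| ≤ 3 / 16) :
    Real.cos (2 * Real.pi * l) < 0 ∧ rr (Wk0 P ε (l, 0)) < 3 := by
  obtain ⟨t1, t2⟩ := KcE_tau h
  have hr0 := KcE_rpos h hε hε' l
  rw [abs_div, abs_of_pos hr0, div_le_iff₀ hr0] at hX
  have hX2 : (Wk0 P ε (l, 0)).2 ^ 2 ≤ (3 / 16 * rr (Wk0 P ε (l, 0))) ^ 2 := by
    rw [← sq_abs]
    exact pow_le_pow_left₀ (abs_nonneg _) hX 2
  have hC : Real.cos (2 * Real.pi * l) < 0 := by
    rcases lt_or_eq_of_le (KcE_cos_le hl) with h1 | h1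
    · exact h1
    · exfalso
      have h2 := (KcE_zero h hε hε' h1).1
      have h3 : (Wk0 P ε (l, 0)).1 = 0 := by rw [h2]
      have h4 := KcE_rr_axis h3
      rw [← sq_abs, ← h4] at hX2
      nlinarith
  refine ⟨hC, ?_⟩
  obtain ⟨-, -, h3, -, -⟩ := KcE_neg h hε hε' hC
  have h4 := KcE_sq_fst h3
  have s1 := CSG.stp_nonneg 3 43 (rr (Wk0 P ε (l, 0)))
  have s2 := CSG.stp_le_one 3 43 (rr (Wk0 P ε (l, 0)))
  generalize stp 3 43 (rr (Wk0 P ε (l, 0))) = σ at h4 s1 s2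
  have h8 : 0 ≤ tau P.c * (1 - σ) := mul_nonneg (by linarith) (by linarith)
  have h9 : tau P.c * (1 - σ) ≤ 103 / 100 := by nlinarith
  by_contra hc
  push Not at hc
  nlinarith

theorem core_X (h : P.Ok) (hε : 0 < ε) (hε' : ε ≤ 1 / 16) {l : ℝ} (hl : |l - 1 / 2| ≤ 1 / 4)
    (hX : |(Wk0 P ε (l, 0)).2 / rr (Wk0 P ε (l, 0))| ≤ 3 / 16) :
    rr (Wk0 P ε (l, 0)) = tau P.c / Real.sqrt (1 - ((Wk0 P ε (l, 0)).2 / rr (Wk0 P ε (l, 0))) ^ 2) ∧ (Wk0 P ε (l, 0)).1 = tau P.c := by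
  obtain ⟨t1, t2⟩ := KcE_tau h
  obtain ⟨hC, h3⟩ := KcE_small h hε hε' hl hX
  obtain ⟨-, -, h4, -, -⟩ := KcE_neg h hε hε' hC
  rw [CSG.stp_zero (by norm_num) h3.le, sub_zero, mul_one] at h4
  have h5 := KcE_sq_fst h4
  refine ⟨?_, h4⟩
  have hr0 := KcE_rpos h hε hε' l
  have h6 : 1 - ((Wk0 P ε (l, 0)).2 / rr (Wk0 P ε (l, 0))) ^ 2 =
      (tau P.c / rr (Wk0 P ε (l, 0))) ^ 2 := by
    field_simp
    linarith
  rw [h6, Real.sqrt_sq (by positivity)]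
  field_simp

theorem KcE_X_flip (h : P.Ok) (hε : 0 < ε) (hε' : ε ≤ 1 / 16) (l : ℝ) :
    (Wk0 P ε (l, 0)).2 / rr (Wk0 P ε (l, 0)) =
      (Wk0 P ε (3 / 2 - l, 0)).2 / rr (Wk0 P ε (3 / 2 - l, 0)) := by
  have h2 := KcE_per (P := P) (ε := ε) (1 / 2 - l) 1
  rw [show 1 / 2 - l + ((1 : ℤ) : ℝ) = 3 / 2 - l by push_cast; ring] at h2
  rw [h2, KcE_J h hε hε' l]
  have hr := KcE_rpos h hε hε' (1 / 2 - l)
  have hsq := rr_sq (Wk0 P ε (1 / 2 - l, 0))
  rw [rr_smul, rr_Jv, abs_of_pos (by norm_num : (0 : ℝ) < 4000000)]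
  generalize Wk0 P ε (1 / 2 - l, 0) = x at hr hsq ⊢
  show 4000000 * (x.2 / q2 x) / (4000000 * (rr x)⁻¹) = x.2 / rr x
  rw [← hsq]
  field_simp

theorem KcE_dXa (h : P.Ok) (hε : 0 < ε) (hε' : ε ≤ 1 / 16) {l : ℝ} (hl : |l - 1 / 2| ≤ 1 / 4)
    (hX : |(Wk0 P ε (l, 0)).2 / rr (Wk0 P ε (l, 0))| ≤ 3 / 16) :
    ∃ d : ℝ, 0 < d ∧ HasDerivAt (fun l' => (Wk0 P ε (l', 0)).2 / rr (Wk0 P ε (l', 0))) d l := by
  obtain ⟨t1, t2⟩ := KcE_tau h
  obtain ⟨hC, h3⟩ := KcE_small h hε hε' hl hX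
  obtain ⟨kp, kn, dK, dN, kp0, kn0⟩ := KcE_dK (ε := ε) h hε
  have hev : (fun x => (Wk0 P ε (x, 0)).2 / rr (Wk0 P ε (x, 0))) =ᶠ[𝓝 l] fun x =>
      (1000 * kcs P ε 0 x) / Real.sqrt (tau P.c ^ 2 + (1000 * kcs P ε 0 x) ^ 2) := by
    filter_upwards [KcE_ccont.continuousAt.eventually (Iio_mem_nhds hC),
      (KcE_rdiff h hε hε' l).continuousAt.eventually (Iio_mem_nhds h3)] with x hx1 hx2
    have hx2' : rr (Wk0 P ε (x, 0)) < 3 := hx2
    obtain ⟨-, -, e1, e2, -⟩ := KcE_neg h hε hε' hx1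
    rw [CSG.stp_zero (by norm_num) hx2'.le, sub_zero, mul_one] at e1
    have e3 := KcE_sq_fst e1
    have e4 := e2 (by linarith)
    rw [e4] at e3
    rw [e4, ← e3, Real.sqrt_sq (rr_nonneg _)]
  have hQ : 0 < tau P.c ^ 2 + (1000 * kcs P ε 0 l) ^ 2 := by positivity
  have dE := (dK l).const_mul 1000
  have dQ := (dE.fun_pow 2).const_add (tau P.c ^ 2)
  have hs := Real.sqrt_pos.2 hQ
  have d := dE.fun_div (dQ.sqrt hQ.ne') hs.ne'
  refine ⟨_, ?_, d.congr_of_eventuallyEq hev⟩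
  have hss := Real.sq_sqrt hQ.le
  have hkp := kp0 l
  generalize Real.sqrt (tau P.c ^ 2 + (1000 * kcs P ε 0 l) ^ 2) = w at hs hss ⊢
  generalize Real.cos (2 * Real.pi * l) = C at hC ⊢
  generalize kcs P ε 0 l = K at hss ⊢
  generalize kp l = κ at hkp ⊢
  simp only [Nat.add_one_sub_one, pow_one, Nat.cast_ofNat]
  have e : (1000 * -(κ * C) * w - 1000 * K * (2 * (1000 * K) * (1000 * -(κ * C)) / (2 * w))) /
      w ^ 2 = 1000 * (κ * -C) * tau P.c ^ 2 / w ^ 3 := by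
    field_simp
    linear_combination (-C) * hss
  rw [e]
  have : 0 < κ * -C := mul_pos hkp (by linarith)
  positivity

theorem core_dX (h : P.Ok) (hε : 0 < ε) (hε' : ε ≤ 1 / 16) {l : ℝ}
    (hX : |(Wk0 P ε (l, 0)).2 / rr (Wk0 P ε (l, 0))| ≤ 3 / 16) :
    (|l - 1 / 2| ≤ 1 / 4 → 0 < deriv (fun l' => (Wk0 P ε (l', 0)).2 / rr (Wk0 P ε (l', 0))) l) ∧
      (|l - 1| ≤ 1 / 4 → deriv (fun l' => (Wk0 P ε (l', 0)).2 / rr (Wk0 P ε (l', 0))) l < 0) := by
  constructor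
  · intro hl
    obtain ⟨d, hd, hd2⟩ := KcE_dXa h hε hε' hl hX
    rw [hd2.deriv]
    exact hd
  · intro hl
    have hl' : |3 / 2 - l - 1 / 2| ≤ 1 / 4 := by
      rw [show 3 / 2 - l - 1 / 2 = -(l - 1) by ring, abs_neg]
      exact hl
    rw [KcE_X_flip h hε hε' l] at hX
    obtain ⟨d, hd, hd2⟩ := KcE_dXa h hε hε' hl' hX
    have d0 : HasDerivAt (fun x : ℝ => 3 / 2 - x) (-1) l := by
      simpa using (hasDerivAt_id l).const_sub (3 / 2)
    have d1 := HasDerivAt.comp l hd2 d0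
    have e : (fun l' => (Wk0 P ε (l', 0)).2 / rr (Wk0 P ε (l', 0))) =
        (fun l' => (Wk0 P ε (l', 0)).2 / rr (Wk0 P ε (l', 0))) ∘ fun x : ℝ => 3 / 2 - x := by
      funext x
      exact KcE_X_flip h hε hε' x
    rw [e, d1.deriv]
    linarith

theorem KcE_A_inj (h : P.Ok) {x y : F3} (hx : x ∈ Sh) (hy : y ∈ Sh) (e : A P.c x = A P.c y) :
    x = y := by
  obtain ⟨h0, -, h1⟩ := Ok_c h
  rw [← Ai_A h0 h1 hx, e, Ai_A h0 h1 hy]

theorem KcE_surj (h : P.Ok) (hε : 0 < ε) (hε' : ε ≤ 1 / 16) {v : ℝ} (hv : |v| < 1) :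
    ∃ l, Real.cos (2 * Real.pi * l) < 0 ∧ kcs P ε 0 l = v := by
  obtain ⟨kp, kn, dK, dN, kp0, kn0⟩ := KcE_dK (ε := ε) h hε
  have hcont : ContinuousOn (fun x => kcs P ε 0 x) (Icc (1 / 4) (3 / 4)) :=
    fun x _ => (dK x).continuousAt.continuousWithinAt
  have hK1 : kcs P ε 0 (1 / 4) = -1 := by
    have h1 := (KcE_zero h hε hε' KcE_quarter.1).2
    have h3 : ¬ 0 < kcs P ε 0 (1 / 4) := by
      rw [(KcE_K h hε hε' (1 / 4)).1, KcE_quarter.2]
      norm_num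
    push Not at h3
    nlinarith
  have hK3 : kcs P ε 0 (3 / 4) = 1 := by
    have h1 := (KcE_zero h hε hε' KcE_three.1).2
    have h3 : 0 < kcs P ε 0 (3 / 4) := by
      rw [(KcE_K h hε hε' (3 / 4)).1, KcE_three.2]
      norm_num
    nlinarith
  have h2 := intermediate_value_Icc (by norm_num : (1 / 4 : ℝ) ≤ 3 / 4) hcont
  simp only [hK1, hK3] at h2
  obtain ⟨l, hl, e⟩ := h2 ⟨(abs_lt.1 hv).1.le, (abs_lt.1 hv).2.le⟩
  refine ⟨l, ?_, e⟩
  have h4 : Real.cos (2 * Real.pi * l) ≤ 0 := by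
    apply KcE_cos_le
    rw [abs_le]
    constructor
    · linarith [hl.1]
    · linarith [hl.2]
  rcases lt_or_eq_of_le h4 with h5 | h5
  · exact h5
  · exfalso
    have h6 := (KcE_zero h hε hε' h5).2
    simp only at e
    rw [e, ← sq_abs] at h6
    have := abs_nonneg v
    nlinarith

theorem KcE_KA (h : P.Ok) (hε : 0 < ε) (hε' : ε ≤ 1 / 16) {k : F3} (hk : k ∈ KA P) :
    ∃ l, k = Wk0 P ε (l, 0) := by
  obtain ⟨k1, k2, k3⟩ := hk
  have hv : |(A P.c k).2 / 1000| < 1 := by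
    rw [abs_div, abs_of_pos (by norm_num : (0 : ℝ) < 1000), div_lt_one (by norm_num)]
    exact k3
  obtain ⟨l, hl, e⟩ := KcE_surj h hε hε' hv
  obtain ⟨a1, a2⟩ := core_A h hε hε' hl
  refine ⟨l, KcE_A_inj h k1 a1.1 ?_⟩
  rw [a2, e]
  apply Prod.ext
  · exact k2
  · show (A P.c k).2 = 1000 * ((A P.c k).2 / 1000)
    ring

theorem KS_core (h : P.Ok) (hε : 0 < ε) (hε' : ε ≤ 1 / 16) {k : F3} (hk : k ∈ KS P) :
    ∃ n : ℤ, ∃ l : ℝ, k = (4000000 : ℝ) ^ n • Wk0 P ε (l, 0) := by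
  rcases hk with hk | hk | hk | hk
  · obtain ⟨l, e⟩ := KcE_KA h hε hε' hk
    exact ⟨0, l, by rw [zpow_zero, one_smul]; exact e⟩
  · obtain ⟨l, e⟩ := KcE_KA h hε hε' hk
    refine ⟨-1, 1 / 2 - l, ?_⟩
    rw [KcE_J h hε hε' (1 / 2 - l), show (1 : ℝ) / 2 - (1 / 2 - l) = l by ring, ← e, Jv_Jv,
      smul_smul]
    norm_num
  · exact ⟨0, 3 / 4, by rw [zpow_zero, one_smul, (core_quarter h hε hε').1]; exact hk⟩
  · exact ⟨0, 1 / 4, by rw [zpow_zero, one_smul, (core_quarter h hε hε').2]; exact hk⟩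

theorem KcE_core_inj (h : P.Ok) (hε : 0 < ε) (hε' : ε ≤ 1 / 16) {l l' : ℝ}
    (he : Wk0 P ε (l, 0) = Wk0 P ε (l', 0)) : ∃ m : ℤ, l' = l + m := by
  have key : ∀ l l' : ℝ, Real.cos (2 * Real.pi * l) < 0 → Real.cos (2 * Real.pi * l') < 0 →
      Wk0 P ε (l, 0) = Wk0 P ε (l', 0) → ∃ m : ℤ, l' = l + m := by
    intro l l' hl hl' he
    have a := (core_A h hε hε' hl).2
    have a' := (core_A h hε hε' hl').2
    rw [he, a'] at a
    have e1 : 1000 * kcs P ε 0 l' = 1000 * kcs P ε 0 l := congrArg Prod.snd a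
    have e2 : kcs P ε 0 l = kcs P ε 0 l' := by linarith
    refine KcE_ex h hε e2 ?_
    have q := KcE_sq (ε := ε) h hε l
    have q' := KcE_sq (ε := ε) h hε l'
    have n := ((KcE_N h hε hε' l).1).2 hl
    have n' := ((KcE_N h hε hε' l').1).2 hl'
    rw [e2] at q
    nlinarith
  have c1 := (core_rr h hε hε' l).2.2
  have c2 := (core_rr h hε hε' l').2.2
  rw [he] at c1
  rcases lt_trichotomy (Real.cos (2 * Real.pi * l)) 0 with hl | hl | hl
  · exact key l l' hl (c2.1 (c1.2 hl)) he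
  · have z := KcE_zero h hε hε' hl
    rcases lt_trichotomy (Real.cos (2 * Real.pi * l')) 0 with hl' | hl' | hl'
    · have := c1.1 (c2.2 hl')
      linarith
    · have z' := KcE_zero h hε hε' hl'
      have e1 : (2000 : ℝ) * kcs P ε 0 l = 2000 * kcs P ε 0 l' := by
        have := he
        rw [z.1, z'.1] at this
        exact congrArg Prod.snd this
      refine KcE_ex h hε (by linarith) ?_
      rw [((KcE_N h hε hε' l).2).2 hl, ((KcE_N h hε hε' l').2).2 hl']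
    · exfalso
      have hl2 : Real.cos (2 * Real.pi * (1 / 2 - l')) < 0 := by
        rw [KcE_cos]
        linarith
      have r1 := ((core_rr h hε hε' (1 / 2 - l')).2.2).2 hl2
      have r2 := KcE_rrJ h hε hε' l'
      have r3 := KcE_rpos h hε hε' (1 / 2 - l')
      have r4 : rr (Wk0 P ε (l, 0)) = 2000 := by
        rw [z.1, KcE_rr_axis rfl]
        show |2000 * kcs P ε 0 l| = 2000
        have h4 : |kcs P ε 0 l| = 1 := by
          have z2 := z.2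
          rw [← sq_abs] at z2
          have := abs_nonneg (kcs P ε 0 l)
          nlinarith
        rw [abs_mul, h4]
        norm_num
      rw [he, r2] at r4
      rw [div_eq_iff r3.ne'] at r4
      linarith
  · have hl' : 0 < Real.cos (2 * Real.pi * l') := by
      by_contra hc
      push Not at hc
      rcases lt_or_eq_of_le hc with h5 | h5
      · have := c1.1 (c2.2 h5)
        linarith
      · have z' := KcE_zero h hε hε' h5
        have hl2 : Real.cos (2 * Real.pi * (1 / 2 - l)) < 0 := by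
          rw [KcE_cos]
          linarith
        have r1 := ((core_rr h hε hε' (1 / 2 - l)).2.2).2 hl2
        have r2 := KcE_rrJ h hε hε' l
        have r3 := KcE_rpos h hε hε' (1 / 2 - l)
        have r4 : rr (Wk0 P ε (l', 0)) = 2000 := by
          rw [z'.1, KcE_rr_axis rfl]
          show |2000 * kcs P ε 0 l'| = 2000
          have h4 : |kcs P ε 0 l'| = 1 := by
            have z2 := z'.2
            rw [← sq_abs] at z2
            have := abs_nonneg (kcs P ε 0 l')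
            nlinarith
          rw [abs_mul, h4]
          norm_num
        rw [← he, r2] at r4
        rw [div_eq_iff r3.ne'] at r4
        linarith
    have hl1 : Real.cos (2 * Real.pi * (1 / 2 - l)) < 0 := by
      rw [KcE_cos]
      linarith
    have hl2 : Real.cos (2 * Real.pi * (1 / 2 - l')) < 0 := by
      rw [KcE_cos]
      linarith
    have e1 := KcE_J h hε hε' l
    have e2 := KcE_J h hε hε' l'
    rw [he, e2] at e1
    have e3 := smul_right_injective F3 (by norm_num : (4000000 : ℝ) ≠ 0) e1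
    have e4 : Wk0 P ε (1 / 2 - l, 0) = Wk0 P ε (1 / 2 - l', 0) := by
      rw [← Jv_Jv (Wk0 P ε (1 / 2 - l, 0)), ← e3, Jv_Jv]
    obtain ⟨m, hm⟩ := key _ _ hl1 hl2 e4
    refine ⟨-m, ?_⟩
    push_cast
    linarith

theorem KcE_Gd (hε : 0 < ε) (hε' : ε ≤ 1 / 16) {s : ℝ} (hs : 0 < s) (hs' : s < 1) (u l : ℝ) :
    |ε * s * Real.cos (2 * Real.pi * l)| < 1 / 8 ∧ |ε * s * Real.sin (2 * Real.pi * l)| < 1 / 8 ∧
    Gd (u, 1 / 2 + ε * s * Real.cos (2 * Real.pi * l), 1 / 2 + ε * s * Real.sin (2 * Real.pi * l)) := by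
  have hes : 0 < ε * s := mul_pos hε hs
  have hes' : ε * s ≤ 1 / 16 := by nlinarith
  have b1 : |ε * s * Real.cos (2 * Real.pi * l)| < 1 / 8 := by
    rw [abs_mul, abs_of_pos hes]
    have := Real.abs_cos_le_one (2 * Real.pi * l)
    have := abs_nonneg (Real.cos (2 * Real.pi * l))
    nlinarith
  have b2 : |ε * s * Real.sin (2 * Real.pi * l)| < 1 / 8 := by
    rw [abs_mul, abs_of_pos hes]
    have := Real.abs_sin_le_one (2 * Real.pi * l)
    have := abs_nonneg (Real.sin (2 * Real.pi * l))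
    nlinarith
  refine ⟨b1, b2, ?_, ?_⟩
  · rintro ⟨m, n, -, h2⟩
    simp only at h2
    have b3 := abs_lt.1 b1
    have h3 : (0 : ℝ) < n := by linarith
    have h4 : (n : ℝ) < 1 := by linarith
    have h5 : 0 < n := by exact_mod_cast h3
    have h6 : n < 1 := by exact_mod_cast h4
    omega
  · rintro ⟨m, n, h1, h2⟩
    simp only at h1 h2
    have b3 := abs_lt.1 b1
    have b4 := abs_lt.1 b2
    have hm : m = 0 := by
      have h3 : (-1 : ℝ) < m := by linarith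
      have h4 : (m : ℝ) < 1 := by linarith
      have h5 : -1 < m := by exact_mod_cast h3
      have h6 : m < 1 := by exact_mod_cast h4
      omega
    have hn : n = 0 := by
      have h3 : (-1 : ℝ) < n := by linarith
      have h4 : (n : ℝ) < 1 := by linarith
      have h5 : -1 < n := by exact_mod_cast h3
      have h6 : n < 1 := by exact_mod_cast h4
      omega
    rw [hm, Int.cast_zero] at h1
    rw [hn, Int.cast_zero] at h2
    have c0 : Real.cos (2 * Real.pi * l) = 0 := by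
      have : ε * s * Real.cos (2 * Real.pi * l) = 0 := by linarith
      exact (mul_eq_zero.1 this).resolve_left hes.ne'
    have s0 : Real.sin (2 * Real.pi * l) = 0 := by
      have : ε * s * Real.sin (2 * Real.pi * l) = 0 := by linarith
      exact (mul_eq_zero.1 this).resolve_left hes.ne'
    have := Real.sin_sq_add_cos_sq (2 * Real.pi * l)
    rw [c0, s0] at this
    norm_num at this

theorem KcE_Wk0 {l : ℝ} {ζ : ℂ} (hζ : ζ ≠ 0) : Wk0 P ε (l, ζ) =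
    Wx P (Complex.arg ζ / (2 * Real.pi), 1 / 2 + ε * ‖ζ‖ * Real.cos (2 * Real.pi * l),
      1 / 2 + ε * ‖ζ‖ * Real.sin (2 * Real.pi * l)) := by
  unfold Wk0
  exact if_pos hζ

theorem Wk0_inj (h : P.Ok) (hε : 0 < ε) (hε' : ε ≤ 1 / 16) {l l' : ℝ} {ζ ζ' : ℂ} (hζ : ‖ζ‖ < 1) (hζ' : ‖ζ'‖ < 1) {n : ℤ}
    (he : Wk0 P ε (l, ζ) = (4000000 : ℝ) ^ n • Wk0 P ε (l', ζ')) : n = 0 ∧ ζ = ζ' ∧ ∃ m : ℤ, l' = l + m := by
  have hL : (4000000 : ℝ) ≠ 0 := by norm_num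
  rcases eq_or_ne ζ 0 with hz | hz <;> rcases eq_or_ne ζ' 0 with hz' | hz'
  · subst hz hz'
    obtain ⟨t1, t2⟩ := KcE_tau h
    obtain ⟨a1, a2, -⟩ := core_rr h hε hε' l
    obtain ⟨b1, b2, -⟩ := core_rr h hε hε' l'
    have t0 : 0 < tau P.c := by linarith
    have e := congrArg rr he
    rw [rr_smul, abs_of_pos (by positivity : (0 : ℝ) < (4000000 : ℝ) ^ n)] at e
    rw [le_div_iff₀ t0] at a2 b2
    have hn : n = 0 := by
      by_contra hn
      rcases lt_or_gt_of_ne hn with hn | hn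
      · have h1 : (4000000 : ℝ) ^ n ≤ (4000000 : ℝ) ^ (-1 : ℤ) :=
          zpow_le_zpow_right₀ (by norm_num) (by omega)
        rw [zpow_neg_one] at h1
        have h2 : rr (Wk0 P ε (l, 0)) ≤ (4000000 : ℝ)⁻¹ * rr (Wk0 P ε (l', 0)) := by
          rw [e]
          exact mul_le_mul_of_nonneg_right h1 (by linarith)
        have h3 : (4000000 : ℝ)⁻¹ * rr (Wk0 P ε (l', 0)) = rr (Wk0 P ε (l', 0)) / 4000000 := by
          ring
        rw [h3, le_div_iff₀ (by norm_num)] at h2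
        nlinarith
      · have h1 : (4000000 : ℝ) ^ (1 : ℤ) ≤ (4000000 : ℝ) ^ n :=
          zpow_le_zpow_right₀ (by norm_num) (by omega)
        rw [zpow_one] at h1
        have h2 : 4000000 * rr (Wk0 P ε (l', 0)) ≤ rr (Wk0 P ε (l, 0)) := by
          rw [e]
          exact mul_le_mul_of_nonneg_right h1 (by linarith)
        nlinarith
    subst hn
    rw [zpow_zero, one_smul] at he
    exact ⟨rfl, rfl, KcE_core_inj h hε hε' he⟩
  · exfalso
    subst hz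
    have hs := norm_pos_iff.2 hz'
    obtain ⟨n', k, hk, ek⟩ := core_KS h hε hε' l
    rw [KcE_Wk0 hz', ek] at he
    obtain ⟨-, -, hGd⟩ := KcE_Gd hε hε' hs hζ' (Complex.arg ζ' / (2 * Real.pi)) l'
    apply Wx_notK h hGd hk (n' - n)
    rw [sub_eq_neg_add, zpow_add₀ hL, mul_smul, he, smul_smul, ← zpow_add₀ hL, neg_add_cancel,
      zpow_zero, one_smul]
  · exfalso
    subst hz'
    have hs := norm_pos_iff.2 hz
    obtain ⟨n', k, hk, ek⟩ := core_KS h hε hε' l'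
    rw [KcE_Wk0 hz, ek, smul_smul, ← zpow_add₀ hL] at he
    obtain ⟨-, -, hGd⟩ := KcE_Gd hε hε' hs hζ (Complex.arg ζ / (2 * Real.pi)) l
    exact Wx_notK h hGd hk (n + n') he
  · have hs := norm_pos_iff.2 hz
    have hs' := norm_pos_iff.2 hz'
    obtain ⟨c1, c2, hGd⟩ := KcE_Gd hε hε' hs hζ (Complex.arg ζ / (2 * Real.pi)) l
    obtain ⟨c1', c2', hGd'⟩ := KcE_Gd hε hε' hs' hζ' (Complex.arg ζ' / (2 * Real.pi)) l'
    rw [KcE_Wk0 hz, KcE_Wk0 hz', ← Wx_per_y] at he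
    have hGd2 := (Gd_shift (u := Complex.arg ζ' / (2 * Real.pi))
      (y := 1 / 2 + ε * ‖ζ'‖ * Real.cos (2 * Real.pi * l'))
      (t := 1 / 2 + ε * ‖ζ'‖ * Real.sin (2 * Real.pi * l')) 0 n 0).2 hGd'
    rw [Int.cast_zero, add_zero, add_zero] at hGd2
    obtain ⟨m, k, e1, e2, e3⟩ := Wx_inj h hGd hGd2 he
    simp only at e1 e2 e3
    have c1 := abs_lt.1 c1
    have c2 := abs_lt.1 c2
    have c1' := abs_lt.1 c1'
    have c2' := abs_lt.1 c2'
    have hn : n = 0 := by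
      have h3 : (-1 : ℝ) < n := by linarith
      have h4 : (n : ℝ) < 1 := by linarith
      have h5 : -1 < n := by exact_mod_cast h3
      have h6 : n < 1 := by exact_mod_cast h4
      omega
    have hk : k = 0 := by
      have h3 : (-1 : ℝ) < k := by linarith
      have h4 : (k : ℝ) < 1 := by linarith
      have h5 : -1 < k := by exact_mod_cast h3
      have h6 : k < 1 := by exact_mod_cast h4
      omega
    subst hn hk
    rw [Int.cast_zero, add_zero] at e2 e3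
    have f1 : ‖ζ'‖ * Real.cos (2 * Real.pi * l') = ‖ζ‖ * Real.cos (2 * Real.pi * l) := by
      apply mul_left_cancel₀ hε.ne'
      linarith
    have f2 : ‖ζ'‖ * Real.sin (2 * Real.pi * l') = ‖ζ‖ * Real.sin (2 * Real.pi * l) := by
      apply mul_left_cancel₀ hε.ne'
      linarith
    have f3 : ((‖ζ‖ : ℝ) : ℂ) * ex l = (‖ζ'‖ : ℝ) * ex l' := by
      apply Complex.ext
      · rw [Complex.re_ofReal_mul, Complex.re_ofReal_mul, RSG.ex_re, RSG.ex_re, f1]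
      · rw [Complex.im_ofReal_mul, Complex.im_ofReal_mul, RSG.ex_im, RSG.ex_im, f2]
    obtain ⟨g1, g2⟩ := RSG.ex_polar hs hs' f3
    refine ⟨rfl, ?_, g2⟩
    rw [← RSG.ex_arg (p := ζ), ← RSG.ex_arg (p := ζ'), e1, RSG.ex_add_int, g1]

end Pool.Agent.CHW
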