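import Pool.Agent.CHW.W0A

/-!
# CHW/WbM: the binding chart   (difficulty 2)

`α = Re ζ / r₃`, `β = Im ζ / r₃`, `a = √(1 - α² - β²)`, `D = (1 + α) - 2 c a cos 2πθ + c² (1 - α)`.
`Wb0 θ ζ = (((1+α) - c² (1-α) + 2 c a sin 2πθ i) / D, - 2 c β / D)`.
Identity `D(θ) D(θ + 1/2) = |N|² + 4 c² β²`, so `q2 = D(θ + 1/2) / D(θ)`; hence
`D (1 + q2 + 2 Re x.1) = 4 (1 + α)`, `D (1 + q2 - 2 Re x.1) = 4 c² (1 - α)`: `D`, `α`, `β`, `a e^{2πiθ}` are rational functions of `x`.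
-/

open scoped Manifold ContDiff Topology
open Set Filter
open Complex (I normSq)

namespace Pool.Agent.CHW

open Pool.Agent.CSG (stp thc)
open Pool.Agent.RSG (ex)

variable {P : Par}

noncomputable def WbD (c α a k : ℝ) : ℝ := (1 + α) - 2 * c * a * k + c ^ 2 * (1 - α)
noncomputable def WbM_al (P : Par) (ζ : ℂ) : ℝ := ζ.re / P.r₃
noncomputable def WbM_be (P : Par) (ζ : ℂ) : ℝ := ζ.im / P.r₃
noncomputable def WbM_aa (P : Par) (ζ : ℂ) : ℝ := Real.sqrt (1 - normSq ζ / P.r₃ ^ 2)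
noncomputable def WbM_D (P : Par) (θ : ℝ) (ζ : ℂ) : ℝ := WbD P.c (WbM_al P ζ) (WbM_aa P ζ) (ex θ).re

theorem WbM_re (θ : ℝ) (ζ : ℂ) : (Wb0 P θ ζ).1.re = ((1 + WbM_al P ζ) - P.c ^ 2 * (1 - WbM_al P ζ)) / WbM_D P θ ζ := by
  unfold Wb0 WbM_D WbD WbM_al WbM_aa
  simp only [Complex.div_ofReal_re]
  congr 1
  simp [← Complex.ofReal_pow]

theorem WbM_im (θ : ℝ) (ζ : ℂ) : (Wb0 P θ ζ).1.im = 2 * P.c * WbM_aa P ζ * (ex θ).im / WbM_D P θ ζ := by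
  unfold Wb0 WbM_D WbD WbM_al WbM_aa
  simp only [Complex.div_ofReal_im]
  congr 1
  simp [← Complex.ofReal_pow]

theorem WbM_snd (θ : ℝ) (ζ : ℂ) : (Wb0 P θ ζ).2 = -(2 * P.c * WbM_be P ζ) / WbM_D P θ ζ := rfl

theorem WbM_facts (h : P.Ok) {ζ : ℂ} (hζ : ‖ζ‖ < P.r₃ / 4) :
    WbM_al P ζ ^ 2 + WbM_be P ζ ^ 2 + WbM_aa P ζ ^ 2 = 1 ∧ |WbM_al P ζ| < 1 / 4 ∧ |WbM_be P ζ| < 1 / 4 ∧
      15 / 16 < WbM_aa P ζ ^ 2 ∧ 0 < WbM_aa P ζ ∧ WbM_aa P ζ ≤ 1 ∧ 24 / 25 < WbM_aa P ζ := by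
  have hr := h.r₃_pos
  have h1 : normSq ζ / P.r₃ ^ 2 = WbM_al P ζ ^ 2 + WbM_be P ζ ^ 2 := by
    unfold WbM_al WbM_be
    rw [Complex.normSq_apply]
    field_simp
  have h2 : WbM_al P ζ ^ 2 + WbM_be P ζ ^ 2 < 1 / 16 := by
    rw [← h1, Complex.normSq_eq_norm_sq, div_lt_iff₀ (by positivity)]
    have := norm_nonneg ζ
    nlinarith
  have h3 : WbM_aa P ζ ^ 2 = 1 - (WbM_al P ζ ^ 2 + WbM_be P ζ ^ 2) := by
    unfold WbM_aa
    rw [h1, Real.sq_sqrt (by linarith)]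
  have h4 : 0 ≤ WbM_aa P ζ := Real.sqrt_nonneg _
  have h5 : |WbM_al P ζ| < 1 / 4 := by
    apply abs_lt_of_sq_lt_sq _ (by norm_num)
    nlinarith [sq_nonneg (WbM_be P ζ)]
  have h6 : |WbM_be P ζ| < 1 / 4 := by
    apply abs_lt_of_sq_lt_sq _ (by norm_num)
    nlinarith [sq_nonneg (WbM_al P ζ)]
  refine ⟨by linarith, h5, h6, by linarith, ?_, ?_, ?_⟩
  · nlinarith
  · nlinarith [sq_nonneg (WbM_al P ζ), sq_nonneg (WbM_be P ζ)]
  · nlinarith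

theorem WbM_c (h : P.Ok) : 0 < P.c ∧ P.c ≤ 1 / 32 := by
  have h1 := h.c_pos
  have h2 := h.c_le
  have h3 := h.r₃_le
  have h4 := h.d₁_le
  constructor <;> linarith

theorem WbM_ex (θ : ℝ) : (ex θ).re ^ 2 + (ex θ).im ^ 2 = 1 := by
  rw [Pool.Agent.RSG.ex_re, Pool.Agent.RSG.ex_im]
  exact Real.cos_sq_add_sin_sq _

theorem WbM_ex_half (θ : ℝ) : ex (θ + 1 / 2) = -ex θ := by
  rw [Pool.Agent.RSG.ex_add, Pool.Agent.RSG.ex_half]
  ring

theorem WbM_abs_re (θ : ℝ) : |(ex θ).re| ≤ 1 := by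
  have h := Complex.abs_re_le_norm (ex θ)
  rwa [Pool.Agent.RSG.ex_norm] at h

theorem WbM_abs_im (θ : ℝ) : |(ex θ).im| ≤ 1 := by
  have h := Complex.abs_im_le_norm (ex θ)
  rwa [Pool.Agent.RSG.ex_norm] at h

theorem WbM_Dbd (h : P.Ok) {ζ : ℂ} (hζ : ‖ζ‖ < P.r₃ / 4) (θ : ℝ) :
    17 / 25 < WbM_D P θ ζ ∧ WbM_D P θ ζ < 4 / 3 := by
  obtain ⟨_, f2, _, _, f5, f6, _⟩ := WbM_facts h hζ
  obtain ⟨c0, c1⟩ := WbM_c h
  rw [abs_lt] at f2
  have k1 := abs_le.1 (WbM_abs_re θ)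
  unfold WbM_D WbD
  set α := WbM_al P ζ
  set a := WbM_aa P ζ
  set k := (ex θ).re
  have e1 : |P.c * a * k| ≤ 1 / 32 := by
    rw [abs_mul, abs_mul, abs_of_pos c0, abs_of_pos f5]
    have : |k| ≤ 1 := abs_le.2 k1
    calc P.c * a * |k| ≤ 1 / 32 * 1 * 1 :=
          mul_le_mul (mul_le_mul c1 f6 f5.le (by norm_num)) this (abs_nonneg _) (by norm_num)
      _ = 1 / 32 := by norm_num
  rw [abs_le] at e1
  have e2 : 0 < P.c ^ 2 * (1 - α) := by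
    apply mul_pos (by positivity); linarith
  have e3 : P.c ^ 2 * (1 - α) ≤ (1 / 32) ^ 2 * (5 / 4) := by
    apply mul_le_mul _ (by linarith) (by linarith) (by norm_num)
    exact pow_le_pow_left₀ c0.le c1 2
  constructor <;> nlinarith

theorem WbM_q2 (h : P.Ok) {ζ : ℂ} (hζ : ‖ζ‖ < P.r₃ / 4) (θ : ℝ) :
    q2 (Wb0 P θ ζ) = WbM_D P (θ + 1 / 2) ζ / WbM_D P θ ζ := by
  obtain ⟨f1, _⟩ := WbM_facts h hζ
  have hD := (WbM_Dbd h hζ θ).1
  have hD' : WbM_D P θ ζ ≠ 0 := by linarith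
  unfold q2
  rw [Complex.normSq_apply, WbM_re, WbM_im, WbM_snd]
  have e := WbM_ex θ
  have e2 : WbM_D P (θ + 1 / 2) ζ = (1 + WbM_al P ζ) + 2 * P.c * WbM_aa P ζ * (ex θ).re + P.c ^ 2 * (1 - WbM_al P ζ) := by
    unfold WbM_D WbD
    rw [WbM_ex_half]
    simp
  rw [e2]
  have e3 : WbM_D P θ ζ = (1 + WbM_al P ζ) - 2 * P.c * WbM_aa P ζ * (ex θ).re + P.c ^ 2 * (1 - WbM_al P ζ) := rfl
  field_simp
  rw [e3]
  have e4 : (ex θ).im ^ 2 = 1 - (ex θ).re ^ 2 := by linarith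
  have e5 : WbM_be P ζ ^ 2 = 1 - WbM_al P ζ ^ 2 - WbM_aa P ζ ^ 2 := by linarith
  ring_nf
  rw [e4, e5]
  ring

theorem Wb0_per (θ : ℝ) (ζ : ℂ) (m : ℤ) : Wb0 P (θ + m) ζ = Wb0 P θ ζ := by
  unfold Wb0
  rw [Pool.Agent.RSG.ex_add_int]

theorem Wb0_mir (θ : ℝ) (ζ : ℂ) : Wb0 P θ ((starRingEnd ℂ) ζ) = mir (Wb0 P θ ζ) := by
  unfold mir
  apply Prod.ext
  · unfold Wb0
    simp only [Complex.normSq_conj, Complex.conj_re]
  · unfold Wb0
    simp only [Complex.normSq_conj, Complex.conj_re, Complex.conj_im]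
    rw [← neg_div]
    congr 1
    ring

theorem Wb0_cjv (θ : ℝ) (ζ : ℂ) : Wb0 P (-θ) ζ = cjv (Wb0 P θ ζ) := by
  have e1 : (ex (-θ)).re = (ex θ).re := by rw [Pool.Agent.RSG.ex_neg, Complex.conj_re]
  have e2 : (ex (-θ)).im = -(ex θ).im := by rw [Pool.Agent.RSG.ex_neg, Complex.conj_im]
  have e3 : WbM_D P (-θ) ζ = WbM_D P θ ζ := by unfold WbM_D; rw [e1]
  unfold cjv
  apply Prod.ext
  · apply Complex.ext
    · rw [WbM_re, Complex.conj_re, WbM_re, e3]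
    · rw [WbM_im, Complex.conj_im, WbM_im, e3, e2]
      ring
  · rw [WbM_snd, e3]
    rfl

theorem Wb0_Jv (h : P.Ok) {θ : ℝ} {ζ : ℂ} (hζ : ‖ζ‖ < P.r₃ / 4) : Jv (Wb0 P θ ζ) = Wb0 P (θ + 1 / 2) ζ := by
  have hD := (WbM_Dbd h hζ θ).1
  have hD2 := (WbM_Dbd h hζ (θ + 1 / 2)).1
  have n1 : WbM_D P θ ζ ≠ 0 := by linarith
  have n2 : WbM_D P (θ + 1 / 2) ζ ≠ 0 := by linarith
  unfold Jv
  rw [WbM_q2 h hζ]
  apply Prod.ext
  · apply Complex.ext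
    · simp only [Complex.div_ofReal_re, Complex.conj_re]
      rw [WbM_re, WbM_re]
      field_simp
    · simp only [Complex.div_ofReal_im, Complex.conj_im]
      rw [WbM_im, WbM_im, WbM_ex_half, Complex.neg_im]
      field_simp
  · simp only
    rw [WbM_snd, WbM_snd]
    field_simp

/-! ## the inverse -/

noncomputable def WbM_iD (c : ℝ) (x : F3) : ℝ := 8 * c ^ 2 / (c ^ 2 * (1 + q2 x + 2 * x.1.re) + (1 + q2 x - 2 * x.1.re))
noncomputable def WbM_iz (P : Par) (x : F3) : ℂ :=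
  ⟨P.r₃ * (WbM_iD P.c x * (1 + q2 x + 2 * x.1.re) / 4 - 1), P.r₃ * (-(WbM_iD P.c x * x.2 / (2 * P.c)))⟩
noncomputable def WbM_iv (c : ℝ) (x : F3) : ℂ :=
  ⟨WbM_iD c x * (q2 x - 1) / (4 * c), WbM_iD c x * x.1.im / (2 * c)⟩

theorem WbM_den (h : P.Ok) {ζ : ℂ} (hζ : ‖ζ‖ < P.r₃ / 4) (θ : ℝ) :
    P.c ^ 2 * (1 + q2 (Wb0 P θ ζ) + 2 * (Wb0 P θ ζ).1.re) + (1 + q2 (Wb0 P θ ζ) - 2 * (Wb0 P θ ζ).1.re) =
      8 * P.c ^ 2 / WbM_D P θ ζ := by
  have hD := (WbM_Dbd h hζ θ).1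
  have n1 : WbM_D P θ ζ ≠ 0 := by linarith
  have e2 : WbM_D P (θ + 1 / 2) ζ = (1 + WbM_al P ζ) + 2 * P.c * WbM_aa P ζ * (ex θ).re + P.c ^ 2 * (1 - WbM_al P ζ) := by
    unfold WbM_D WbD
    rw [WbM_ex_half]
    simp
  rw [WbM_q2 h hζ, WbM_re, e2]
  have e3 : WbM_D P θ ζ = (1 + WbM_al P ζ) - 2 * P.c * WbM_aa P ζ * (ex θ).re + P.c ^ 2 * (1 - WbM_al P ζ) := rfl
  field_simp
  rw [e3]
  ring

theorem WbM_iD_eq (h : P.Ok) {ζ : ℂ} (hζ : ‖ζ‖ < P.r₃ / 4) (θ : ℝ) : WbM_iD P.c (Wb0 P θ ζ) = WbM_D P θ ζ := by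
  have hD := (WbM_Dbd h hζ θ).1
  have n1 : WbM_D P θ ζ ≠ 0 := by linarith
  have n2 : P.c ≠ 0 := (WbM_c h).1.ne'
  unfold WbM_iD
  rw [WbM_den h hζ]
  field_simp

theorem WbM_iz_eq (h : P.Ok) {ζ : ℂ} (hζ : ‖ζ‖ < P.r₃ / 4) (θ : ℝ) : WbM_iz P (Wb0 P θ ζ) = ζ := by
  have hD := (WbM_Dbd h hζ θ).1
  have n1 : WbM_D P θ ζ ≠ 0 := by linarith
  have n2 : P.c ≠ 0 := (WbM_c h).1.ne'
  have n3 : P.r₃ ≠ 0 := h.r₃_pos.ne'
  unfold WbM_iz
  rw [WbM_iD_eq h hζ]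
  apply Complex.ext
  · simp only
    have e2 : WbM_D P (θ + 1 / 2) ζ = (1 + WbM_al P ζ) + 2 * P.c * WbM_aa P ζ * (ex θ).re + P.c ^ 2 * (1 - WbM_al P ζ) := by
      unfold WbM_D WbD
      rw [WbM_ex_half]
      simp
    have e4 : WbM_D P θ ζ * (1 + WbM_D P (θ + 1 / 2) ζ / WbM_D P θ ζ + 2 * (((1 + WbM_al P ζ) - P.c ^ 2 * (1 - WbM_al P ζ)) / WbM_D P θ ζ))
        = 4 * (1 + WbM_al P ζ) := by
      rw [e2]
      field_simp
      have e3 : WbM_D P θ ζ = (1 + WbM_al P ζ) - 2 * P.c * WbM_aa P ζ * (ex θ).re + P.c ^ 2 * (1 - WbM_al P ζ) := rfl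
      rw [e3]
      ring
    rw [WbM_q2 h hζ, WbM_re, e4]
    unfold WbM_al
    field_simp
    ring
  · simp only
    rw [WbM_snd]
    unfold WbM_be
    field_simp

theorem WbM_iv_eq (h : P.Ok) {ζ : ℂ} (hζ : ‖ζ‖ < P.r₃ / 4) (θ : ℝ) :
    WbM_iv P.c (Wb0 P θ ζ) = (WbM_aa P ζ : ℂ) * ex θ := by
  have hD := (WbM_Dbd h hζ θ).1
  have n1 : WbM_D P θ ζ ≠ 0 := by linarith
  have n2 : P.c ≠ 0 := (WbM_c h).1.ne'
  unfold WbM_iv
  rw [WbM_iD_eq h hζ]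
  apply Complex.ext
  · simp only [Complex.re_ofReal_mul]
    rw [WbM_q2 h hζ]
    have e2 : WbM_D P (θ + 1 / 2) ζ = (1 + WbM_al P ζ) + 2 * P.c * WbM_aa P ζ * (ex θ).re + P.c ^ 2 * (1 - WbM_al P ζ) := by
      unfold WbM_D WbD
      rw [WbM_ex_half]
      simp
    rw [e2]
    field_simp
    have e3 : WbM_D P θ ζ = (1 + WbM_al P ζ) - 2 * P.c * WbM_aa P ζ * (ex θ).re + P.c ^ 2 * (1 - WbM_al P ζ) := rfl
    rw [e3]
    ring
  · simp only [Complex.im_ofReal_mul]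
    rw [WbM_im]
    field_simp

theorem Wb0_inj (h : P.Ok) {θ θ' : ℝ} {ζ ζ' : ℂ} (hζ : ‖ζ‖ < P.r₃ / 4) (hζ' : ‖ζ'‖ < P.r₃ / 4)
    (he : Wb0 P θ ζ = Wb0 P θ' ζ') : ζ' = ζ ∧ ∃ m : ℤ, θ' = θ + m := by
  have e1 := WbM_iz_eq h hζ θ
  have e2 := WbM_iz_eq h hζ' θ'
  rw [he, e2] at e1
  refine ⟨e1, ?_⟩
  have e3 := WbM_iv_eq h hζ θ
  have e4 := WbM_iv_eq h hζ' θ'
  rw [he, e4] at e3
  obtain ⟨_, m, hm⟩ := Pool.Agent.RSG.ex_polar (WbM_facts h hζ).2.2.2.2.1 (WbM_facts h hζ').2.2.2.2.1 e3.symm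
  exact ⟨m, hm⟩

theorem WbM_near1 (h : P.Ok) {ζ : ℂ} (hζ : ‖ζ‖ < P.r₃ / 4) (θ : ℝ) :
    ‖(Wb0 P θ ζ).1 - 1‖ ≤ 4 * P.c ∧ P.c ≤ ‖(Wb0 P θ ζ).1 - 1‖ := by
  obtain ⟨d1, d2⟩ := WbM_Dbd h hζ θ
  have n1 : WbM_D P θ ζ ≠ 0 := by linarith
  obtain ⟨c0, c1⟩ := WbM_c h
  obtain ⟨_, f2, _, _, f5, f6, f7⟩ := WbM_facts h hζ
  rw [abs_lt] at f2
  have k1 := abs_le.1 (WbM_abs_re θ)
  have e := WbM_ex θ
  set α := WbM_al P ζ with hα
  set a := WbM_aa P ζ with haa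
  set k := (ex θ).re with hk
  set m := (ex θ).im with hm
  set D := WbM_D P θ ζ with hD
  have e3 : D = (1 + α) - 2 * P.c * a * k + P.c ^ 2 * (1 - α) := rfl
  set c' := P.c * (1 - α) with hc'
  have c'0 : 0 < c' := mul_pos c0 (by linarith)
  have c'1 : c' ≤ 5 / 128 := by
    have : c' ≤ 1 / 32 * (5 / 4) := mul_le_mul c1 (by linarith) (by linarith) (by norm_num)
    linarith
  have hre : ((Wb0 P θ ζ).1 - 1).re = 2 * P.c * (a * k - c') / D := by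
    rw [Complex.sub_re, WbM_re, Complex.one_re, ← hα, ← hD]
    field_simp
    rw [e3, hc']
    ring
  have him : ((Wb0 P θ ζ).1 - 1).im = 2 * P.c * (a * m) / D := by
    rw [Complex.sub_im, WbM_im, Complex.one_im, ← haa, ← hm, ← hD]
    ring
  have hsq : ‖(Wb0 P θ ζ).1 - 1‖ ^ 2 = 4 * P.c ^ 2 * (a ^ 2 - 2 * a * k * c' + c' ^ 2) / D ^ 2 := by
    rw [← Complex.normSq_eq_norm_sq, Complex.normSq_apply, hre, him]
    have e4 : m ^ 2 = 1 - k ^ 2 := by linarith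
    field_simp
    ring_nf
    rw [e4]
    ring
  have hak : |a * k * c'| ≤ a * c' := by
    rw [abs_mul, abs_mul, abs_of_pos f5, abs_of_pos c'0]
    have : |k| ≤ 1 := abs_le.2 k1
    have h2 : a * |k| ≤ a * 1 := mul_le_mul_of_nonneg_left this f5.le
    calc a * |k| * c' ≤ a * 1 * c' := mul_le_mul_of_nonneg_right h2 c'0.le
      _ = a * c' := by ring
  rw [abs_le] at hak
  have q1 : a ^ 2 - 2 * a * k * c' + c' ^ 2 ≤ (a + c') ^ 2 := by nlinarith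
  have q2 : (a - c') ^ 2 ≤ a ^ 2 - 2 * a * k * c' + c' ^ 2 := by nlinarith
  have q3 : (a + c') ^ 2 ≤ (133 / 128) ^ 2 := by
    apply pow_le_pow_left₀ (by linarith); linarith
  have q4 : (9 / 10) ^ 2 ≤ (a - c') ^ 2 := by
    apply pow_le_pow_left₀ (by norm_num); linarith
  have D2a : (17 / 25) ^ 2 ≤ D ^ 2 := pow_le_pow_left₀ (by norm_num) d1.le 2
  have D2b : D ^ 2 ≤ (4 / 3) ^ 2 := pow_le_pow_left₀ (by linarith) d2.le 2
  have hc2 : 0 < P.c ^ 2 := by positivity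
  have hDp : 0 < D ^ 2 := by positivity
  constructor
  · apply le_of_sq_le_sq _ (by positivity)
    rw [hsq, div_le_iff₀ hDp]
    nlinarith
  · apply le_of_sq_le_sq _ (norm_nonneg _)
    rw [hsq, le_div_iff₀ hDp]
    nlinarith

theorem Wb0_near (h : P.Ok) {θ : ℝ} {ζ : ℂ} (hζ : ‖ζ‖ < P.r₃ / 4) :
    ‖(Wb0 P θ ζ).1 - 1‖ ≤ 4 * P.c ∧ |(Wb0 P θ ζ).2| ≤ P.c := by
  refine ⟨(WbM_near1 h hζ θ).1, ?_⟩
  obtain ⟨d1, d2⟩ := WbM_Dbd h hζ θ
  obtain ⟨c0, c1⟩ := WbM_c h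
  obtain ⟨_, _, f3, _⟩ := WbM_facts h hζ
  rw [WbM_snd, abs_div, abs_neg, abs_mul, abs_mul, abs_of_pos c0, abs_of_pos (by linarith : 0 < WbM_D P θ ζ),
    div_le_iff₀ (by linarith), abs_of_pos (by norm_num : (0 : ℝ) < 2)]
  nlinarith [abs_nonneg (WbM_be P ζ)]

theorem Wb0_ne (h : P.Ok) {θ : ℝ} {ζ : ℂ} (hζ : ‖ζ‖ < P.r₃ / 4) : Wb0 P θ ζ ≠ 0 := by
  intro h0
  have h1 := (WbM_near1 h hζ θ).1
  obtain ⟨c0, c1⟩ := WbM_c h
  rw [h0] at h1
  simp at h1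
  linarith

theorem Wb0_rr (h : P.Ok) {θ : ℝ} {ζ : ℂ} (hζ : ‖ζ‖ < P.r₃ / 4) :
    1 / 3 ≤ rr (Wb0 P θ ζ) ∧ rr (Wb0 P θ ζ) ≤ 3 := by
  have h1 := rr_sq (Wb0 P θ ζ)
  have h2 := rr_nonneg (Wb0 P θ ζ)
  rw [WbM_q2 h hζ] at h1
  obtain ⟨d1, d2⟩ := WbM_Dbd h hζ θ
  obtain ⟨d3, d4⟩ := WbM_Dbd h hζ (θ + 1 / 2)
  have h3 : 1 / 9 ≤ WbM_D P (θ + 1 / 2) ζ / WbM_D P θ ζ := by
    rw [le_div_iff₀ (by linarith)]; linarith
  have h4 : WbM_D P (θ + 1 / 2) ζ / WbM_D P θ ζ ≤ 9 := by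
    rw [div_le_iff₀ (by linarith)]; linarith
  constructor
  · apply le_of_sq_le_sq _ h2
    rw [h1]; norm_num; linarith
  · apply le_of_sq_le_sq _ (by norm_num)
    rw [h1]; norm_num; linarith

theorem Wb0_snd_pos (h : P.Ok) {θ : ℝ} {ζ : ℂ} (hζ : ‖ζ‖ < P.r₃ / 4) : 0 < (Wb0 P θ ζ).2 ↔ ζ.im < 0 := by
  obtain ⟨d1, d2⟩ := WbM_Dbd h hζ θ
  obtain ⟨c0, c1⟩ := WbM_c h
  have hr := h.r₃_pos
  have hD : 0 < WbM_D P θ ζ := by linarith
  rw [WbM_snd, lt_div_iff₀ hD, zero_mul, neg_pos]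
  unfold WbM_be
  constructor
  · intro h1
    by_contra h2
    rw [not_lt] at h2
    have : 0 ≤ 2 * P.c * (ζ.im / P.r₃) := by positivity
    linarith
  · intro h1
    have : ζ.im / P.r₃ < 0 := div_neg_of_neg_of_pos h1 hr
    nlinarith

theorem Wb0_snd_zero (h : P.Ok) {θ : ℝ} {ζ : ℂ} (hζ : ‖ζ‖ < P.r₃ / 4) : (Wb0 P θ ζ).2 = 0 ↔ ζ.im = 0 := by
  obtain ⟨d1, d2⟩ := WbM_Dbd h hζ θ
  obtain ⟨c0, c1⟩ := WbM_c h
  have hr := h.r₃_pos
  have hD : WbM_D P θ ζ ≠ 0 := by linarith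
  rw [WbM_snd, div_eq_zero_iff]
  unfold WbM_be
  constructor
  · rintro (h1 | h1)
    · have h2 : 2 * P.c * (ζ.im / P.r₃) = 0 := by linarith
      have h3 : ζ.im / P.r₃ = 0 := by
        rcases mul_eq_zero.1 h2 with h4 | h4
        · linarith
        · exact h4
      rcases div_eq_zero_iff.1 h3 with h4 | h4
      · exact h4
      · linarith
    · exact absurd h1 hD
  · intro h1
    left
    rw [h1]
    simp

theorem WbM_far (h : P.Ok) {ζ : ℂ} (hζ : ‖ζ‖ < P.r₃ / 4) (θ : ℝ) :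
    7 / 10 * P.c ^ 2 ≤ ‖(Wb0 P θ ζ).1 - tau P.c‖ := by
  have h1 := (WbM_near1 h hζ θ).2
  obtain ⟨c0, c1⟩ := WbM_c h
  obtain ⟨t1, t2, _⟩ := tau_bounds c0 (by linarith : P.c ≤ 1 / 10)
  have h2 : ‖(Wb0 P θ ζ).1 - 1‖ ≤ ‖(Wb0 P θ ζ).1 - tau P.c‖ + ‖((tau P.c : ℂ)) - 1‖ := by
    have : (Wb0 P θ ζ).1 - 1 = ((Wb0 P θ ζ).1 - tau P.c) + ((tau P.c : ℂ) - 1) := by ring
    calc ‖(Wb0 P θ ζ).1 - 1‖ = ‖((Wb0 P θ ζ).1 - tau P.c) + ((tau P.c : ℂ) - 1)‖ := by rw [← this]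
      _ ≤ _ := norm_add_le _ _
  have h3 : ‖((tau P.c : ℂ)) - 1‖ ≤ 21 / 10 * P.c ^ 2 := by
    have h4 : ((tau P.c : ℂ)) - 1 = ((tau P.c - 1 : ℝ) : ℂ) := by push_cast; ring
    rw [h4, Complex.norm_real, Real.norm_eq_abs, abs_of_nonneg (by nlinarith)]
    linarith
  nlinarith

theorem Wb0_id (h : P.Ok) {θ : ℝ} {ζ : ℂ} (hζ : ‖ζ‖ < P.r₃ / 4) :
    EE P.c (Wb0 P θ ζ) = Wb0 P θ ζ ∧ A P.c (Wb0 P θ ζ) = Wb0 P θ ζ ∧ Ai P.c (Wb0 P θ ζ) = Wb0 P θ ζ := by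
  obtain ⟨c0, c1⟩ := WbM_c h
  have c2 : P.c ≤ 1 / 10 := by linarith
  obtain ⟨r1, r2⟩ := Wb0_rr h (θ := θ) hζ
  refine ⟨?_, A_id r1 r2, Ai_id c0 c2 r1 r2⟩
  refine EE_id c0 c2 (WbM_far h hζ θ) ?_ (Wb0_ne h hζ)
  rw [Wb0_Jv h hζ]
  exact WbM_far h hζ _

theorem Wb0_NM (h : P.Ok) {θ s t : ℝ} (hs : 0 < s) (hs' : s < P.r₃ / 4) :
    Wb0 P θ (s * ex (t - 1 / 2)) = NM P.c (Sv P (s * (ex θ).im, s * (ex θ).re), t) := by
  rw [Sv_bind h hs hs'.le]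
  have hr := h.r₃_pos
  set σ := s / P.r₃ with hσ
  have σ0 : 0 < σ := by positivity
  have σ1 : σ < 1 / 4 := by rw [hσ, div_lt_iff₀ hr]; linarith
  set r₁ := Real.sqrt ((1 - σ) / (1 + σ)) with hr₁
  have r0 : 0 ≤ r₁ := Real.sqrt_nonneg _
  have rsq : r₁ ^ 2 = (1 - σ) / (1 + σ) := Real.sq_sqrt (div_nonneg (by linarith) (by linarith))
  have e0 : ex (t - 1 / 2) = -ex t := by
    have : t = (t - 1 / 2) + 1 / 2 := by ring
    have h1 : ex t = -ex (t - 1 / 2) := by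
      conv_lhs => rw [this]
      rw [WbM_ex_half]
    rw [h1]; ring
  have hre : ((s : ℂ) * ex (t - 1 / 2)).re = -(s * Real.cos (2 * Real.pi * t)) := by
    rw [e0, Complex.re_ofReal_mul, Complex.neg_re, Pool.Agent.RSG.ex_re]; ring
  have him : ((s : ℂ) * ex (t - 1 / 2)).im = -(s * Real.sin (2 * Real.pi * t)) := by
    rw [e0, Complex.im_ofReal_mul, Complex.neg_im, Pool.Agent.RSG.ex_im]; ring
  have hal : WbM_al P ((s : ℂ) * ex (t - 1 / 2)) = -(σ * Real.cos (2 * Real.pi * t)) := by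
    unfold WbM_al; rw [hre, hσ]; ring
  have hbe : WbM_be P ((s : ℂ) * ex (t - 1 / 2)) = -(σ * Real.sin (2 * Real.pi * t)) := by
    unfold WbM_be; rw [him, hσ]; ring
  have haa : WbM_aa P ((s : ℂ) * ex (t - 1 / 2)) = (1 + σ) * r₁ := by
    unfold WbM_aa
    have h1 : normSq ((s : ℂ) * ex (t - 1 / 2)) / P.r₃ ^ 2 = σ ^ 2 := by
      rw [Complex.normSq_eq_norm_sq, norm_mul, Pool.Agent.RSG.ex_norm, Complex.norm_real, Real.norm_eq_abs,
        abs_of_pos hs, hσ]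
      ring
    rw [h1]
    have h2 : 1 - σ ^ 2 = ((1 + σ) * r₁) ^ 2 := by
      rw [mul_pow, rsq]
      field_simp
      ring
    rw [h2, Real.sqrt_sq (by positivity)]
  have e := WbM_ex θ
  set k := (ex θ).re with hk
  set m := (ex θ).im with hm
  set C := Real.cos (2 * Real.pi * t) with hC
  set S := Real.sin (2 * Real.pi * t) with hS
  have zre : ((r₁ : ℂ) * ex (-θ)).re = r₁ * k := by
    rw [Complex.re_ofReal_mul, Pool.Agent.RSG.ex_neg, Complex.conj_re]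
  have zim : ((r₁ : ℂ) * ex (-θ)).im = -(r₁ * m) := by
    rw [Complex.im_ofReal_mul, Pool.Agent.RSG.ex_neg, Complex.conj_im]; ring
  have hn : normSq ((r₁ : ℂ) * ex (-θ)) = (1 - σ) / (1 + σ) := by
    rw [Complex.normSq_eq_norm_sq, norm_mul, Pool.Agent.RSG.ex_norm, Complex.norm_real, Real.norm_eq_abs,
      abs_of_nonneg r0, mul_one, rsq]
  have hden : (1 + σ) / 2 * den P.c ((r₁ : ℂ) * ex (-θ)) t = WbM_D P θ ((s : ℂ) * ex (t - 1 / 2)) := by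
    unfold den WbM_D WbD
    rw [hn, hal, haa]
    have h1 : normSq ((r₁ : ℂ) * ex (-θ) - P.c) = r₁ ^ 2 - 2 * P.c * r₁ * k + P.c ^ 2 := by
      rw [Complex.normSq_apply, Complex.sub_re, Complex.sub_im, zre, zim, Complex.ofReal_re, Complex.ofReal_im]
      have e4 : m ^ 2 = 1 - k ^ 2 := by linarith
      ring_nf
      rw [e4]
      ring
    rw [h1, rsq, ← hC, ← hk]
    field_simp
    ring
  have hζn : ‖(s : ℂ) * ex (t - 1 / 2)‖ < P.r₃ / 4 := by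
    rw [norm_mul, Pool.Agent.RSG.ex_norm, Complex.norm_real, Real.norm_eq_abs, abs_of_pos hs, mul_one]
    exact hs'
  have hD := (WbM_Dbd h hζn θ).1
  have hD0 : WbM_D P θ ((s : ℂ) * ex (t - 1 / 2)) ≠ 0 := by linarith
  have hd0 : den P.c ((r₁ : ℂ) * ex (-θ)) t ≠ 0 := by
    intro h0
    rw [h0, mul_zero] at hden
    exact hD0 hden.symm
  unfold NM
  simp only
  apply Prod.ext
  · apply Complex.ext
    · rw [WbM_re, Complex.div_ofReal_re, ← hden, hn, hal]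
      have h1 : (2 * ((r₁ : ℂ) * ex (-θ) + P.c) * ((starRingEnd ℂ) ((r₁ : ℂ) * ex (-θ)) - P.c) +
          ((1 - (1 - σ) / (1 + σ)) * (1 + P.c ^ 2) * (1 - Real.cos (2 * Real.pi * t)) : ℝ) : ℂ).re =
          2 * ((1 - σ) / (1 + σ) - P.c ^ 2) + (1 - (1 - σ) / (1 + σ)) * (1 + P.c ^ 2) * (1 - C) := by
        rw [Complex.add_re, Complex.ofReal_re, Complex.mul_re, Complex.mul_re, Complex.mul_im, Complex.add_re,
          Complex.add_im, Complex.sub_re, Complex.sub_im, Complex.conj_re, Complex.conj_im, zre, zim,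
          Complex.ofReal_re, Complex.ofReal_im, ← rsq, ← hC]
        simp only [Complex.re_ofNat, Complex.im_ofNat]
        have e4 : m ^ 2 = 1 - k ^ 2 := by linarith
        ring_nf
        rw [e4]
        ring
      rw [h1]
      field_simp
      ring
    · rw [WbM_im, Complex.div_ofReal_im, ← hden, hn, haa]
      have h1 : (2 * ((r₁ : ℂ) * ex (-θ) + P.c) * ((starRingEnd ℂ) ((r₁ : ℂ) * ex (-θ)) - P.c) +
          ((1 - (1 - σ) / (1 + σ)) * (1 + P.c ^ 2) * (1 - Real.cos (2 * Real.pi * t)) : ℝ) : ℂ).im =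
          4 * P.c * (r₁ * m) := by
        rw [Complex.add_im, Complex.ofReal_im, Complex.mul_im, Complex.mul_re, Complex.mul_im, Complex.add_re,
          Complex.add_im, Complex.sub_re, Complex.sub_im, Complex.conj_re, Complex.conj_im, zre, zim,
          Complex.ofReal_re, Complex.ofReal_im]
        simp only [Complex.re_ofNat, Complex.im_ofNat]
        ring
      rw [h1, ← hm]
      field_simp
      ring
  · rw [WbM_snd, ← hden, hn, hbe]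
    simp only
    rw [← hS]
    field_simp
    ring

theorem Wb0_glue (h : P.Ok) {θ s t : ℝ} (hs : 0 < s) (hs' : s < P.r₃ / 4) :
    Wb0 P θ (s * ex (t - 1 / 2)) = W0 P (s * (ex θ).im, s * (ex θ).re, t) := by
  have hζn : ‖(s : ℂ) * ex (t - 1 / 2)‖ < P.r₃ / 4 := by
    rw [norm_mul, Pool.Agent.RSG.ex_norm, Complex.norm_real, Real.norm_eq_abs, abs_of_pos hs, mul_one]
    exact hs'
  obtain ⟨i1, i2, i3⟩ := Wb0_id h (θ := θ) hζn
  show _ = Ai P.c (EE P.c (NM P.c (Sv P (s * (ex θ).im, s * (ex θ).re), t)))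
  rw [← Wb0_NM h hs hs', i1, i3]

theorem WbM_iD_diff (h : P.Ok) {ζ : ℂ} (hζ : ‖ζ‖ < P.r₃ / 4) (θ : ℝ) :
    DifferentiableAt ℝ (WbM_iD P.c) (Wb0 P θ ζ) := by
  have hq : Differentiable ℝ q2 := q2_smooth.differentiable (by simp)
  have hD := (WbM_Dbd h hζ θ).1
  obtain ⟨c0, _⟩ := WbM_c h
  have h1 : Differentiable ℝ fun x : F3 => P.c ^ 2 * (1 + q2 x + 2 * x.1.re) + (1 + q2 x - 2 * x.1.re) := by
    have h2 : Differentiable ℝ fun x : F3 => x.1.re := Complex.reCLM.differentiable.comp differentiable_fst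
    fun_prop
  unfold WbM_iD
  simp only [div_eq_mul_inv]
  refine (differentiableAt_const _).mul (h1.differentiableAt.inv ?_)
  show P.c ^ 2 * (1 + q2 (Wb0 P θ ζ) + 2 * (Wb0 P θ ζ).1.re) + (1 + q2 (Wb0 P θ ζ) - 2 * (Wb0 P θ ζ).1.re) ≠ 0
  rw [WbM_den h hζ]
  have : 0 < 8 * P.c ^ 2 / WbM_D P θ ζ := by
    apply div_pos (by positivity); linarith
  exact this.ne'

theorem WbM_mk_diff {E : Type*} [NormedAddCommGroup E] [NormedSpace ℝ E] {a b : E → ℝ} {x : E}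
    (ha : DifferentiableAt ℝ a x) (hb : DifferentiableAt ℝ b x) :
    DifferentiableAt ℝ (fun y => (⟨a y, b y⟩ : ℂ)) x := by
  have h : (fun y => (⟨a y, b y⟩ : ℂ)) = fun y => (a y : ℂ) + (b y : ℂ) * I := by
    ext y
    exact Complex.mk_eq_add_mul_I _ _
  rw [h]
  exact (Complex.ofRealCLM.differentiableAt.comp x ha).add
    ((Complex.ofRealCLM.differentiableAt.comp x hb).mul (differentiableAt_const _))

theorem WbM_smooth (h : P.Ok) {θ : ℝ} {ζ : ℂ} (hζ : ‖ζ‖ < P.r₃ / 4) :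
    ContDiffAt ℝ ∞ (fun q : ℝ × ℂ => Wb0 P q.1 q.2) (θ, ζ) := by
  have hD := (WbM_Dbd h hζ θ).1
  have haa := (WbM_facts h hζ).2.2.2.2.1
  have hr := h.r₃_pos
  have h1 : ContDiff ℝ ∞ fun q : ℝ × ℂ => normSq q.2 := by
    have : (fun q : ℝ × ℂ => normSq q.2) = fun q => q.2.re * q.2.re + q.2.im * q.2.im := by
      ext q; exact Complex.normSq_apply _
    rw [this]
    have h2 : ContDiff ℝ ∞ fun q : ℝ × ℂ => q.2.re := Complex.reCLM.contDiff.comp contDiff_snd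
    have h3 : ContDiff ℝ ∞ fun q : ℝ × ℂ => q.2.im := Complex.imCLM.contDiff.comp contDiff_snd
    exact (h2.mul h2).add (h3.mul h3)
  have hsq : ContDiffAt ℝ ∞ (fun q : ℝ × ℂ => Real.sqrt (1 - normSq q.2 / P.r₃ ^ 2)) (θ, ζ) := by
    refine ContDiffAt.sqrt ((contDiff_const.sub (h1.div_const _)).contDiffAt) ?_
    intro h0
    have : WbM_aa P ζ = 0 := by
      show Real.sqrt (1 - normSq ζ / P.r₃ ^ 2) = 0
      rw [show 1 - normSq ζ / P.r₃ ^ 2 = 0 from h0, Real.sqrt_zero]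
    linarith
  have hre : ContDiff ℝ ∞ fun q : ℝ × ℂ => (ex q.1).re :=
    Complex.reCLM.contDiff.comp (Pool.Agent.RSG.ex_smooth.comp contDiff_fst)
  have him : ContDiff ℝ ∞ fun q : ℝ × ℂ => (ex q.1).im :=
    Complex.imCLM.contDiff.comp (Pool.Agent.RSG.ex_smooth.comp contDiff_fst)
  have hzr : ContDiff ℝ ∞ fun q : ℝ × ℂ => q.2.re := Complex.reCLM.contDiff.comp contDiff_snd
  have hzi : ContDiff ℝ ∞ fun q : ℝ × ℂ => q.2.im := Complex.imCLM.contDiff.comp contDiff_snd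
  have hden : ContDiffAt ℝ ∞ (fun q : ℝ × ℂ => (1 + q.2.re / P.r₃) - 2 * P.c * Real.sqrt (1 - normSq q.2 / P.r₃ ^ 2) * (ex q.1).re +
      P.c ^ 2 * (1 - q.2.re / P.r₃)) (θ, ζ) := by
    have a1 : ContDiffAt ℝ ∞ (fun q : ℝ × ℂ => 1 + q.2.re / P.r₃) (θ, ζ) :=
      (contDiff_const.add (hzr.div_const _)).contDiffAt
    have a2 : ContDiffAt ℝ ∞ (fun q : ℝ × ℂ => P.c ^ 2 * (1 - q.2.re / P.r₃)) (θ, ζ) :=
      (contDiff_const.mul (contDiff_const.sub (hzr.div_const _))).contDiffAt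
    exact (a1.sub ((contDiffAt_const.mul hsq).mul hre.contDiffAt)).add a2
  have hne : (1 + ζ.re / P.r₃) - 2 * P.c * Real.sqrt (1 - normSq ζ / P.r₃ ^ 2) * (ex θ).re +
      P.c ^ 2 * (1 - ζ.re / P.r₃) ≠ 0 := by
    have : WbM_D P θ ζ ≠ 0 := by linarith
    exact this
  have ho : ∀ {f : ℝ × ℂ → ℝ}, ContDiffAt ℝ ∞ f (θ, ζ) → ContDiffAt ℝ ∞ (fun q => (f q : ℂ)) (θ, ζ) :=
    fun hf => Complex.ofRealCLM.contDiff.contDiffAt.comp (θ, ζ) hf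
  unfold Wb0
  simp only
  refine ContDiffAt.prodMk ?_ ?_
  · simp only [div_eq_mul_inv (G := ℂ)]
    refine ContDiffAt.mul ?_ ((ho hden).inv (by exact_mod_cast hne))
    have a1 : ContDiffAt ℝ ∞ (fun q : ℝ × ℂ => (1 + q.2.re / P.r₃) - P.c ^ 2 * (1 - q.2.re / P.r₃)) (θ, ζ) :=
      ((contDiff_const.add (hzr.div_const _)).sub
        (contDiff_const.mul (contDiff_const.sub (hzr.div_const _)))).contDiffAt
    have a3 := (((contDiffAt_const (c := (2 * P.c : ℂ))).mul (ho hsq)).mul (ho him.contDiffAt)).mul (contDiffAt_const (c := I))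
    exact (ho a1).add a3
  · refine ContDiffAt.div ?_ hden hne
    exact (contDiff_const.mul (hzi.div_const _)).neg.contDiffAt

theorem Wb0_ld (h : P.Ok) {θ : ℝ} {ζ : ℂ} (hζ : ‖ζ‖ < P.r₃ / 4) :
    LD (fun q : ℝ × ℂ => Wb0 P q.1 q.2) (θ, ζ) := by
  have hev : ∀ᶠ q : ℝ × ℂ in 𝓝 (θ, ζ), ‖q.2‖ < P.r₃ / 4 :=
    (continuous_norm.comp continuous_snd).continuousAt.eventually (gt_mem_nhds hζ)
  have hc0 : P.c ≠ 0 := (WbM_c h).1.ne'
  refine Pool.Agent.RSG.ld_left (V := ℝ × ℂ) (W := F3)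
    (g := fun x => (θ + (Complex.log (WbM_iv P.c x * (starRingEnd ℂ) (ex θ))).im / (2 * Real.pi), WbM_iz P x)) ?_ ?_ ?_ ?_
  · filter_upwards [hev] with q hq
    exact WbM_smooth h hq
  · simp [Complex.finrank_real_complex]
  · show DifferentiableAt ℝ _ (Wb0 P θ ζ)
    have hiD := WbM_iD_diff h hζ θ
    have hq : DifferentiableAt ℝ q2 (Wb0 P θ ζ) := q2_smooth.differentiable (by simp) _
    have hre : DifferentiableAt ℝ (fun x : F3 => x.1.re) (Wb0 P θ ζ) :=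
      (Complex.reCLM.differentiable.comp differentiable_fst).differentiableAt
    have him : DifferentiableAt ℝ (fun x : F3 => x.1.im) (Wb0 P θ ζ) :=
      (Complex.imCLM.differentiable.comp differentiable_fst).differentiableAt
    have hsn : DifferentiableAt ℝ (fun x : F3 => x.2) (Wb0 P θ ζ) := differentiableAt_snd
    have hiv : DifferentiableAt ℝ (WbM_iv P.c) (Wb0 P θ ζ) := by
      unfold WbM_iv
      simp only [div_eq_mul_inv]
      apply WbM_mk_diff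
      · exact (hiD.mul (hq.sub (differentiableAt_const _))).mul_const _
      · exact (hiD.mul him).mul_const _
    have hiz : DifferentiableAt ℝ (WbM_iz P) (Wb0 P θ ζ) := by
      unfold WbM_iz
      simp only [div_eq_mul_inv]
      apply WbM_mk_diff
      · exact (((hiD.mul (((differentiableAt_const _).add hq).add ((differentiableAt_const _).mul hre))).mul_const _).sub
          (differentiableAt_const _)).const_mul _
      · exact (((hiD.mul hsn).mul_const _).neg).const_mul _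
    refine DifferentiableAt.prodMk ?_ hiz
    simp only [div_eq_mul_inv]
    refine (differentiableAt_const _).add (DifferentiableAt.mul_const ?_ _)
    have hmul : DifferentiableAt ℝ (fun x => WbM_iv P.c x * (starRingEnd ℂ) (ex θ)) (Wb0 P θ ζ) :=
      hiv.mul (differentiableAt_const _)
    have hval : WbM_iv P.c (Wb0 P θ ζ) * (starRingEnd ℂ) (ex θ) = (WbM_aa P ζ : ℂ) := by
      rw [WbM_iv_eq h hζ, mul_assoc, Pool.Agent.RSG.ex_mul_conj, mul_one]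
    have hslit : WbM_iv P.c (Wb0 P θ ζ) * (starRingEnd ℂ) (ex θ) ∈ Complex.slitPlane := by
      rw [hval, Complex.ofReal_mem_slitPlane]
      exact (WbM_facts h hζ).2.2.2.2.1
    have hlog : DifferentiableAt ℝ Complex.log (WbM_iv P.c (Wb0 P θ ζ) * (starRingEnd ℂ) (ex θ)) :=
      (Complex.differentiableAt_log hslit).restrictScalars ℝ
    exact Complex.imCLM.differentiableAt.comp _ (hlog.comp (Wb0 P θ ζ) hmul)
  · have hev2 : ∀ᶠ q : ℝ × ℂ in 𝓝 (θ, ζ), |q.1 - θ| < 1 / 2 := by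
      have hc : Continuous fun q : ℝ × ℂ => |q.1 - θ| := by fun_prop
      exact hc.continuousAt.eventually (gt_mem_nhds (by simp))
    filter_upwards [hev, hev2] with q hq hq2
    rw [abs_lt] at hq2
    have e1 : WbM_iv P.c (Wb0 P q.1 q.2) * (starRingEnd ℂ) (ex θ) = (WbM_aa P q.2 : ℂ) * ex (q.1 - θ) := by
      rw [WbM_iv_eq h hq, mul_assoc, ← Pool.Agent.RSG.ex_neg, ← Pool.Agent.RSG.ex_add]
      rfl
    apply Prod.ext
    · show θ + (Complex.log (WbM_iv P.c (Wb0 P q.1 q.2) * (starRingEnd ℂ) (ex θ))).im / (2 * Real.pi) = q.1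
      rw [e1, Pool.Agent.RSG.ex_log (WbM_facts h hq).2.2.2.2.1 (by linarith) (by linarith)]
      have := Real.pi_ne_zero
      field_simp
      ring
    · exact WbM_iz_eq h hq q.1

theorem WbM_zero_facts (h : P.Ok) : ‖(0 : ℂ)‖ < P.r₃ / 4 ∧ WbM_al P 0 = 0 ∧ WbM_be P 0 = 0 ∧ WbM_aa P 0 = 1 := by
  have hr := h.r₃_pos
  refine ⟨by rw [norm_zero]; linarith, ?_, ?_, ?_⟩
  · unfold WbM_al; simp
  · unfold WbM_be; simp
  · unfold WbM_aa; simp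

theorem WbM_ne (h : P.Ok) (θ : ℝ) : 1 - (P.c : ℂ) * ex θ ≠ 0 := by
  obtain ⟨c0, c1⟩ := WbM_c h
  intro h0
  have h1 : (P.c : ℂ) * ex θ = 1 := by linear_combination -h0
  have h2 := congrArg norm h1
  rw [norm_mul, Pool.Agent.RSG.ex_norm, Complex.norm_real, Real.norm_eq_abs, abs_of_pos c0, norm_one] at h2
  linarith

theorem Wb0_zero (h : P.Ok) (θ : ℝ) : (Wb0 P θ 0).2 = 0 ∧ (Wb0 P θ 0).1 = (1 + P.c * ex θ) / (1 - P.c * ex θ) := by
  obtain ⟨z0, z1, z2, z3⟩ := WbM_zero_facts h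
  have hD := (WbM_Dbd h z0 θ).1
  have hD0 : WbM_D P θ 0 ≠ 0 := by linarith
  constructor
  · rw [WbM_snd, z2]; simp
  · rw [eq_div_iff (WbM_ne h θ)]
    have e3 : WbM_D P θ 0 = 1 - 2 * P.c * (ex θ).re + P.c ^ 2 := by
      unfold WbM_D WbD
      rw [z1, z3]; ring
    have e := WbM_ex θ
    have hre := WbM_re (P := P) θ 0
    have him := WbM_im (P := P) θ 0
    rw [z1] at hre
    rw [z3] at him
    have hre' : (Wb0 P θ 0).1.re * WbM_D P θ 0 = 1 - P.c ^ 2 := by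
      rw [hre]; field_simp; ring
    have him' : (Wb0 P θ 0).1.im * WbM_D P θ 0 = 2 * P.c * (ex θ).im := by
      rw [him]; field_simp
    apply Complex.ext
    · rw [Complex.mul_re, Complex.sub_re, Complex.sub_im, Complex.add_re, Complex.one_re, Complex.one_im,
        Complex.re_ofReal_mul, Complex.im_ofReal_mul]
      apply mul_right_cancel₀ hD0
      have e5 : ((Wb0 P θ 0).1.re * (1 - P.c * (ex θ).re) - (Wb0 P θ 0).1.im * (0 - P.c * (ex θ).im)) * WbM_D P θ 0 =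
          ((Wb0 P θ 0).1.re * WbM_D P θ 0) * (1 - P.c * (ex θ).re) +
            ((Wb0 P θ 0).1.im * WbM_D P θ 0) * (P.c * (ex θ).im) := by ring
      rw [e5, hre', him', e3]
      have e4 : (ex θ).im ^ 2 = 1 - (ex θ).re ^ 2 := by linarith
      ring_nf
      rw [e4]
      ring
    · rw [Complex.mul_im, Complex.sub_re, Complex.sub_im, Complex.add_im, Complex.one_re, Complex.one_im,
        Complex.re_ofReal_mul, Complex.im_ofReal_mul]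
      apply mul_right_cancel₀ hD0
      have e5 : ((Wb0 P θ 0).1.re * (0 - P.c * (ex θ).im) + (Wb0 P θ 0).1.im * (1 - P.c * (ex θ).re)) * WbM_D P θ 0 =
          ((Wb0 P θ 0).1.re * WbM_D P θ 0) * (-(P.c * (ex θ).im)) +
            ((Wb0 P θ 0).1.im * WbM_D P θ 0) * (1 - P.c * (ex θ).re) := by ring
      rw [e5, hre', him', e3]
      ring

theorem Wb0_circle (h : P.Ok) {x : F3} : (x.2 = 0 ∧ ‖x.1 - tau P.c‖ = 1 / gam P.c) ↔ ∃ θ, x = Wb0 P θ 0 := by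
  obtain ⟨c0, c1⟩ := WbM_c h
  have c2 : P.c ≤ 1 / 10 := by linarith
  have hc1 : (1 : ℝ) - P.c ^ 2 ≠ 0 := by nlinarith
  obtain ⟨g0, g1, g2⟩ := gam_pos c0 c2
  obtain ⟨t1, t2, t3⟩ := tau_bounds c0 c2
  constructor
  · rintro ⟨h1, h2⟩
    have hg : 1 / gam P.c < 1 / 4 := by
      rw [div_lt_div_iff₀ g0 (by norm_num)]
      linarith
    have hre : 1 / 2 < x.1.re := by
      have h3 := Complex.abs_re_le_norm (x.1 - tau P.c)
      rw [h2, Complex.sub_re, Complex.ofReal_re, abs_le] at h3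
      nlinarith
    have hx1 : x.1 + 1 ≠ 0 := by
      intro h0
      have := congrArg Complex.re h0
      rw [Complex.add_re, Complex.one_re, Complex.zero_re] at this
      linarith
    have hsq : (x.1.re - tau P.c) ^ 2 + x.1.im ^ 2 = (1 / gam P.c) ^ 2 := by
      rw [← h2, ← Complex.normSq_eq_norm_sq, Complex.normSq_apply, Complex.sub_re, Complex.sub_im,
        Complex.ofReal_re, Complex.ofReal_im]
      ring
    have htg := tau_gam c0 c2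
    have htau : tau P.c * (1 - P.c ^ 2) = 1 + P.c ^ 2 := by
      unfold tau; field_simp
    have hz : ‖(x.1 - 1) / (x.1 + 1)‖ = P.c := by
      rw [norm_div, div_eq_iff (norm_ne_zero_iff.2 hx1)]
      have h3 : ‖x.1 - 1‖ ^ 2 = (P.c * ‖x.1 + 1‖) ^ 2 := by
        rw [mul_pow, ← Complex.normSq_eq_norm_sq, ← Complex.normSq_eq_norm_sq, Complex.normSq_apply,
          Complex.normSq_apply, Complex.sub_re, Complex.sub_im, Complex.add_re, Complex.add_im, Complex.one_re,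
          Complex.one_im]
        have h4 : x.1.im ^ 2 = (1 / gam P.c) ^ 2 - (x.1.re - tau P.c) ^ 2 := by linarith
        have h5 : (1 / gam P.c) ^ 2 = tau P.c ^ 2 - 1 := by linarith
        ring_nf
        rw [h4, h5]
        linear_combination (2 * x.1.re) * htau
      have h4 : 0 ≤ P.c * ‖x.1 + 1‖ := by positivity
      nlinarith [norm_nonneg (x.1 - 1), sq_nonneg (‖x.1 - 1‖ - P.c * ‖x.1 + 1‖)]
    refine ⟨Complex.arg ((x.1 - 1) / (x.1 + 1)) / (2 * Real.pi), ?_⟩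
    have h6 := Pool.Agent.RSG.ex_arg (p := (x.1 - 1) / (x.1 + 1))
    rw [hz] at h6
    obtain ⟨k1, k2⟩ := Wb0_zero h (Complex.arg ((x.1 - 1) / (x.1 + 1)) / (2 * Real.pi))
    apply Prod.ext
    · rw [k2, h6]
      have h7 : (1 : ℂ) - (x.1 - 1) / (x.1 + 1) = 2 / (x.1 + 1) := by field_simp; ring
      have h8 : (1 : ℂ) + (x.1 - 1) / (x.1 + 1) = 2 * x.1 / (x.1 + 1) := by field_simp; ring
      rw [h7, h8]
      field_simp
    · rw [h1, k1]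
  · rintro ⟨θ, rfl⟩
    obtain ⟨k1, k2⟩ := Wb0_zero h θ
    refine ⟨k1, ?_⟩
    rw [k2, g2]
    have hne := WbM_ne h θ
    have hc1' : (1 : ℂ) - (P.c : ℂ) ^ 2 ≠ 0 := by exact_mod_cast hc1
    have h3 : (1 + (P.c : ℂ) * ex θ) / (1 - P.c * ex θ) - (tau P.c : ℂ) =
        (2 * P.c * (ex θ - P.c)) / ((1 - P.c * ex θ) * (1 - P.c ^ 2)) := by
      unfold tau
      push_cast
      field_simp
      ring
    have h4 : ‖ex θ - P.c‖ = ‖1 - (P.c : ℂ) * ex θ‖ := by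
      have h5 : ex θ - P.c = ex θ * (1 - P.c * ex (-θ)) := by
        have : ex θ * ex (-θ) = 1 := by
          rw [← Pool.Agent.RSG.ex_add, add_neg_cancel, Pool.Agent.RSG.ex_zero]
        linear_combination P.c * this
      rw [h5, norm_mul, Pool.Agent.RSG.ex_norm, one_mul]
      have h6 : (1 : ℂ) - P.c * ex (-θ) = (starRingEnd ℂ) (1 - P.c * ex θ) := by
        rw [map_sub, map_one, map_mul, Complex.conj_ofReal, Pool.Agent.RSG.ex_neg]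
      rw [h6, Complex.norm_conj]
    rw [h3, norm_div, norm_mul, norm_mul, norm_mul, h4]
    have h7 : ‖(1 : ℂ) - (P.c : ℂ) ^ 2‖ = 1 - P.c ^ 2 := by
      have : (1 : ℂ) - (P.c : ℂ) ^ 2 = ((1 - P.c ^ 2 : ℝ) : ℂ) := by push_cast; ring
      rw [this, Complex.norm_real, Real.norm_eq_abs, abs_of_pos (by nlinarith)]
    rw [h7, Complex.norm_real, Real.norm_eq_abs, abs_of_pos c0]
    have h8 : ‖(1 : ℂ) - P.c * ex θ‖ ≠ 0 := norm_ne_zero_iff.2 hne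
    have h9 : ‖(2 : ℂ)‖ = 2 := by simp
    rw [h9]
    field_simp

end Pool.Agent.CHW
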