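import Pool.Agent.CHW.RlM
import Pool.Agent.CHW.WbM
import Pool.Agent.CHW.WxI

/-!
# CHW/SgM: position of the pages `0`, `1/2` and of the binding with respect to the discs   (difficulty 2)

* `T_zone`: `x ∈ Sh`, `x.2 = 0`: `Rl x = cyl (u', Y', 0)` with `|u'| ≤ 1/2` (`exists_cyl`, `Rl_ratio`), `|Y'| = |elli (log (rr x))| < 1/2`.  If `u'² + Y'² ≥ (d₁/2)²` then
  `(u' - m)² + (Y' - n)² ≥ (d₁/2)²` for all `m, n` (nearest lattice point `0`), `Rl x = Rl (Xp u' Y')` (`Rl_Xp`), so `x = Xp u' Y' = Wx (u', Y', 0)` (`Wx_page0`): excluded by the hypothesis.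
* `page0_zone`: if `u² + y² ≥ (d₁/2)²`, `u² + y² ≤ d₁²`: `Wx (u, y, 0) = Xp u y`, `Rl = cyl (u, y, 0)`.  Otherwise `T_zone`: if `Wx (u, y, 0) = Wx (u', y', 0)` then `y' = y`, `u' = u + m` (`Wx_inj`), so the distance of
  `(u', y')` to `(m, 0)` is `< d₁/2`: contradiction.  (`Wx (u, y, 0) = W0 (u, y, 0) ∈ Sh`; height `0`: `Wx_zero`.)
* `page1_zone`, `circle_zone`: `Wx (u, y, 1/2) = Wx (u', y', 0)` contradicts `Wx_inj`; `Wx_notB`; `circle_A` : the circle is in `Sh`.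
* `near_b`: `Rl (Wb0 θ 0) ∈ zone (d₁) δ 0`, `(θ, ζ) ↦ Rl (Wb0 θ ζ)` is continuous at `(θ, 0)` (`Wb0_ld`), the zone is open, `θ ∈ [0, 1]` is compact: tube lemma (`Wb0_per`).
* `near_0`: the set `{b² ≤ u² + y² ≤ d₁²}` is compact, `(u, y, 0)` is good there, and `Rl (Wx (u, y, 0)) ∈ zone (5/4 d₁) δ 0`: tube lemma again (`Wx_ld`).
-/

open scoped Manifold ContDiff Topology
open Set Filter
open Complex (I normSq)

namespace Pool.Agent.CHW

open Pool.Agent.CSG (stp thc)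
open Pool.Agent.RSG (ex)

variable {P : Par}

theorem SgM_d (h : P.Ok) : 0 < P.d₁ ∧ P.d₁ ≤ 1 / 8 := ⟨lt_of_lt_of_le h.r₃_pos h.r₃_le, h.d₁_le⟩

theorem SgM_ld_cont {V W : Type*} [NormedAddCommGroup V] [NormedSpace ℝ V] [NormedAddCommGroup W] [NormedSpace ℝ W]
    {f : V → W} {x : V} (hf : LD f x) : ContinuousAt f x := hf.contMDiffAt.continuousAt

/-- distance to the lattice of a point of the unit square -/
theorem SgM_far {d u y : ℝ} (hd : 0 < d) (hd' : d ≤ 1 / 8) (hu : |u| ≤ 1 / 2) (hy : |y| ≤ 1 / 2)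
    (huy : (d / 2) ^ 2 ≤ u ^ 2 + y ^ 2) (m n : ℤ) : (d / 2) ^ 2 ≤ (u - m) ^ 2 + (y - n) ^ 2 := by
  have hs : (d / 2) ^ 2 ≤ 1 / 4 := by nlinarith
  have key : ∀ (v : ℝ) (k : ℤ), |v| ≤ 1 / 2 → k ≠ 0 → 1 / 4 ≤ (v - k) ^ 2 := by
    intro v k hv hk
    have h1 : (1 : ℝ) ≤ |(k : ℝ)| := by
      have : (1 : ℤ) ≤ |k| := Int.one_le_abs hk
      exact_mod_cast this
    have h2 : 1 / 2 ≤ |v - k| := by
      have := abs_sub_abs_le_abs_sub (k : ℝ) v
      rw [abs_sub_comm (k : ℝ) v] at this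
      linarith
    have h3 : (1 / 2 : ℝ) ^ 2 ≤ |v - k| ^ 2 := by gcongr
    rw [sq_abs] at h3
    linarith
  by_cases hm : m = 0
  · by_cases hn : n = 0
    · subst hm hn; simpa using huy
    · have := key y n hy hn
      nlinarith [sq_nonneg (u - m)]
  · have := key u m hu hm
    nlinarith [sq_nonneg (y - n)]

theorem SgM_gd0 {d u y : ℝ} (hd : 0 < d) (hn : ∀ m n : ℤ, (d / 2) ^ 2 ≤ (u - m) ^ 2 + (y - n) ^ 2) : Gd (u, y, 0) := by
  refine ⟨?_, ?_⟩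
  · rintro ⟨m, n, h1, h2⟩
    have := hn m n
    simp only at h1 h2
    rw [h1, h2] at this
    have h3 : 0 < (d / 2) ^ 2 := by positivity
    simp at this
    nlinarith
  · rintro ⟨m, n, _, h2⟩
    simp only at h2
    have h3 : (2 * n + 1 : ℤ) = 0 := by
      have : (2 * (n : ℝ) + 1) = 0 := by linarith
      exact_mod_cast this
    omega

theorem SgM_Xp_ne (u y : ℝ) : Xp u y ≠ 0 := by
  intro h0
  have h1 : (Xp u y).1 = 0 := by rw [h0]; rfl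
  simp only [Xp] at h1
  rcases mul_eq_zero.1 h1 with h2 | h2
  · exact (Real.exp_pos _).ne' (by exact_mod_cast h2)
  · exact (RSG.ex_ne u) h2

theorem SgM_Sh_ne {x : F3} (hx : x ∈ Sh) : x ≠ 0 := by
  rintro rfl
  have h1 := hx.1
  have : rr (0 : F3) = 0 := by simp [rr, q2]
  rw [this] at h1
  norm_num at h1

theorem T_zone (h : P.Ok) {x : F3} (hx : x ∈ Sh) (h2 : x.2 = 0) {δ : ℝ} (hδ : 0 < δ)
    (hn : ∀ u y : ℝ, (∀ m n : ℤ, (P.d₁ / 2) ^ 2 ≤ (u - m) ^ 2 + (y - n) ^ 2) → x ≠ Wx P (u, y, 0)) :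
    Rl x ∈ zone (P.d₁ / 2) δ 0 := by
  obtain ⟨hd0, hd1⟩ := SgM_d h
  have hx0 := SgM_Sh_ne hx
  have hx1 : x.1 ≠ 0 := fun h1 => hx0 (Prod.ext h1 h2)
  obtain ⟨r, hr, hRl⟩ := Rl_coef hx0
  have hR1 : (Rl x).1 ≠ 0 := by
    rw [hRl]; simp only [Prod.smul_fst]
    exact smul_ne_zero hr.ne' hx1
  obtain ⟨u, Y, X, hX, hu, he⟩ := exists_cyl hR1
  have hX0 : X = 0 := by
    have := cyl_snd (u := u) (Y := Y) hX.le
    rw [← he, Rl_ratio hx0, h2, zero_div] at this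
    exact this.symm
  subst hX0
  have hY : Y = elli (Real.log (rr x)) := by
    have := cyl_rr (u := u) (Y := Y) (X := 0) (by simp)
    rw [← he, Rl_rr hx0] at this
    exact (Real.exp_injective this).symm
  have hYs : |Y| < 1 / 2 := by
    rw [hY, elli_lt, abs_lt]
    have hp : 0 < rr x := lt_trans (by norm_num) hx.1
    constructor
    · rw [← Real.log_inv]
      exact Real.log_lt_log (by norm_num) (by have := hx.1; norm_num at this ⊢; exact this)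
    · exact Real.log_lt_log hp hx.2
  by_cases hc : u ^ 2 + Y ^ 2 < (P.d₁ / 2) ^ 2
  · refine ⟨u, Y, 0, by simpa using hc, by simpa using hδ, he⟩
  · exfalso
    have hfar := SgM_far hd0 hd1 hu hYs.le (not_lt.1 hc)
    refine hn u Y hfar ?_
    rw [Wx_page0 h hfar]
    exact Rl_inj hx0 (SgM_Xp_ne u Y) (by rw [he, Rl_Xp])

theorem SgM_small {d u y : ℝ} (hd : 0 < d) (hd' : d ≤ 1 / 8) (h1 : u ^ 2 + y ^ 2 ≤ d ^ 2) : |u| ≤ 1 / 8 ∧ |y| ≤ 1 / 8 := by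
  have h2 : d ^ 2 ≤ (1 / 8) ^ 2 := by gcongr
  exact ⟨abs_le_of_sq_le_sq (by nlinarith [sq_nonneg y]) (by norm_num), abs_le_of_sq_le_sq (by nlinarith [sq_nonneg u]) (by norm_num)⟩

theorem page0_zone (h : P.Ok) {u y : ℝ} (hq : Gd (u, y, 0)) (hd : u ^ 2 + y ^ 2 ≤ P.d₁ ^ 2) {δ : ℝ} (hδ : 0 < δ) :
    Rl (Wx P (u, y, 0)) ∈ zone (5 / 4 * P.d₁) δ 0 := by
  obtain ⟨hd0, hd1⟩ := SgM_d h
  obtain ⟨hu, hy⟩ := SgM_small hd0 hd1 hd
  by_cases hc : (P.d₁ / 2) ^ 2 ≤ u ^ 2 + y ^ 2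
  · have hfar := SgM_far hd0 hd1 (by linarith) (by linarith) hc
    rw [Wx_page0 h hfar, Rl_Xp]
    refine ⟨u, y, 0, ?_, by simpa using hδ, rfl⟩
    simp only [Int.cast_zero, sub_zero]
    nlinarith
  · have hS : Wx P (u, y, 0) ∈ Sh := by
      have := Wx_size h hq (n := 0) (by simpa using lt_of_le_of_lt hy (by norm_num))
      simpa using this
    have h0 : (Wx P (u, y, 0)).2 = 0 := (Wx_zero h hq).2 (by simp)
    have := T_zone h hS h0 hδ ?_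
    · exact zone_mono (by linarith) (by linarith) le_rfl 0 this
    · intro u' y' hfar he
      have hq' : Gd (u', y', 0) := SgM_gd0 hd0 hfar
      obtain ⟨m, n, h1, h2, _⟩ := Wx_inj h hq hq' he
      simp only at h1 h2
      have h3 := hfar m 0
      rw [h1, h2] at h3
      simp only [add_sub_cancel_right, Int.cast_zero, sub_zero] at h3
      exact hc h3

theorem page1_zone (h : P.Ok) {u y : ℝ} (hq : Gd (u, y, 1 / 2)) {n : ℤ} (hy : |y - n| < 1 / 2) {δ : ℝ} (hδ : 0 < δ) :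
    Rl (Wx P (u, y, 1 / 2)) ∈ zone (P.d₁ / 2) δ n := by
  obtain ⟨hd0, hd1⟩ := SgM_d h
  have e1 : Wx P (u, y, 1 / 2) = (4000000 : ℝ) ^ n • Wx P (u, y - n, 1 / 2) := by
    rw [← Wx_per_y P u (y - n) (1 / 2) n, sub_add_cancel]
  have hq' : Gd (u, y - n, 1 / 2) := by
    have := (Gd_shift (u := u) (y := y - n) (t := 1 / 2) 0 n 0).1 (by simpa using hq)
    exact this
  rw [e1, Rl_smul]
  have hS : Wx P (u, y - n, 1 / 2) ∈ Sh := by
    have := Wx_size h hq' (n := 0) (by simpa using hy)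
    simpa using this
  have h0 : (Wx P (u, y - n, 1 / 2)).2 = 0 := (Wx_zero h hq').2 (by
    rw [show 2 * Real.pi * (1 / 2) = Real.pi by ring]; exact Real.sin_pi)
  have hz := T_zone h hS h0 hδ (by
    intro u' y' hfar he
    obtain ⟨m, k, _, _, h3⟩ := Wx_inj h hq' (SgM_gd0 hd0 hfar) he
    simp only at h3
    have h4 : (2 * k + 1 : ℤ) = 0 := by
      have : (2 * (k : ℝ) + 1) = 0 := by linarith
      exact_mod_cast this
    omega)
  have := (zone_shift (d := P.d₁ / 2) (x₁ := δ) 0 n).2 hz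
  simpa using this

theorem circle_zone (h : P.Ok) {x : F3} (hx : x ∈ BC P) {δ : ℝ} (hδ : 0 < δ) : Rl x ∈ zone (P.d₁ / 2) δ 0 := by
  obtain ⟨hd0, hd1⟩ := SgM_d h
  obtain ⟨θ, hθ⟩ := (Wb0_circle h).1 hx
  have hr := Wb0_rr h (θ := θ) (ζ := 0) (by simpa using h.r₃_pos)
  have hS : x ∈ Sh := by
    rw [hθ]
    exact ⟨by linarith [hr.1], by linarith [hr.2]⟩
  refine T_zone h hS hx.1 hδ ?_
  intro u y hfar he
  have := Wx_notB h (SgM_gd0 hd0 hfar) hx 0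
  simp only [zpow_zero, one_smul] at this
  exact this he.symm

theorem near_b (h : P.Ok) {δ : ℝ} (hδ : 0 < δ) (hδ' : δ ≤ 1) : ∃ b : ℝ, 0 < b ∧ b < P.r₃ / 4 ∧ ∀ (θ : ℝ) (ζ : ℂ), ‖ζ‖ ≤ b →
    Rl (Wb0 P θ ζ) ∈ zone P.d₁ δ 0 := by
  obtain ⟨hd0, hd1⟩ := SgM_d h
  have hr := h.r₃_pos
  have key : ∀ᶠ ζ in 𝓝 (0 : ℂ), ∀ θ ∈ Icc (0 : ℝ) 1, Rl (Wb0 P θ ζ) ∈ zone P.d₁ δ 0 := by
    apply (isCompact_Icc (a := (0 : ℝ)) (b := 1)).eventually_forall_of_forall_eventually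
    intro θ _
    have hld := Wb0_ld h (θ := θ) (ζ := 0) (by simpa using hr)
    have hc1 : ContinuousAt (fun q : ℝ × ℂ => Wb0 P q.1 q.2) (θ, 0) := SgM_ld_cont hld
    have hne : Wb0 P θ 0 ≠ 0 := by
      have hr := Wb0_rr h (θ := θ) (ζ := 0) (by simpa using hr)
      intro h0
      have h1 := hr.1
      rw [h0] at h1
      have : rr (0 : F3) = 0 := by simp [rr, q2]
      rw [this] at h1
      norm_num at h1
    have hc2 : ContinuousAt Rl (Wb0 P θ 0) := SgM_ld_cont (Rl_ld hne)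
    have hsw : ContinuousAt (fun z : ℂ × ℝ => (z.2, z.1)) ((0 : ℂ), θ) := by fun_prop
    have hc3 : ContinuousAt (fun z : ℂ × ℝ => Rl (Wb0 P z.2 z.1)) ((0 : ℂ), θ) := by
      have := ContinuousAt.comp (f := fun z : ℂ × ℝ => (z.2, z.1)) (g := fun q : ℝ × ℂ => Rl (Wb0 P q.1 q.2)) (x := ((0 : ℂ), θ))
        (ContinuousAt.comp (f := fun q : ℝ × ℂ => Wb0 P q.1 q.2) (g := Rl) (x := (θ, (0 : ℂ))) hc2 hc1) hsw
      exact this
    apply hc3.eventually_mem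
    apply (zone_open hδ' 0).mem_nhds
    have hB : Wb0 P θ 0 ∈ BC P := (Wb0_circle h).2 ⟨θ, rfl⟩
    exact zone_mono (by linarith) (by linarith) le_rfl 0 (circle_zone h hB hδ)
  obtain ⟨ε, hε, hh⟩ := Metric.eventually_nhds_iff.1 key
  refine ⟨min (ε / 2) (P.r₃ / 8), by positivity, lt_of_le_of_lt (min_le_right _ _) (by linarith), ?_⟩
  intro θ ζ hζ
  have h1 : dist ζ 0 < ε := by
    rw [dist_zero_right]
    exact lt_of_le_of_lt (le_trans hζ (min_le_left _ _)) (by linarith)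
  have h2 := hh h1 (Int.fract θ) ⟨Int.fract_nonneg θ, (Int.fract_lt_one θ).le⟩
  rwa [← Wb0_per (Int.fract θ) ζ ⌊θ⌋, Int.fract_add_floor] at h2

theorem near_0 (h : P.Ok) {δ b : ℝ} (hδ : 0 < δ) (hδ' : δ ≤ 1) (hb : 0 < b) : ∃ κ : ℝ, 0 < κ ∧ ∀ u y t : ℝ, |t| ≤ κ →
    b ^ 2 ≤ u ^ 2 + y ^ 2 → u ^ 2 + y ^ 2 ≤ P.d₁ ^ 2 → Rl (Wx P (u, y, t)) ∈ zone (5 / 4 * P.d₁) δ 0 := by
  obtain ⟨hd0, hd1⟩ := SgM_d h
  set K : Set (ℝ × ℝ) := {p | b ^ 2 ≤ p.1 ^ 2 + p.2 ^ 2 ∧ p.1 ^ 2 + p.2 ^ 2 ≤ P.d₁ ^ 2} with hK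
  have hKc : IsCompact K := by
    apply Metric.isCompact_of_isClosed_isBounded
    · apply IsClosed.inter
      · exact isClosed_le (f := fun _ : ℝ × ℝ => b ^ 2) (g := fun p : ℝ × ℝ => p.1 ^ 2 + p.2 ^ 2) continuous_const (by fun_prop)
      · exact isClosed_le (f := fun p : ℝ × ℝ => p.1 ^ 2 + p.2 ^ 2) (g := fun _ : ℝ × ℝ => P.d₁ ^ 2) (by fun_prop) continuous_const
    · apply (isCompact_Icc (a := ((-1 / 8 : ℝ), (-1 / 8 : ℝ))) (b := ((1 / 8 : ℝ), (1 / 8 : ℝ)))).isBounded.subset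
      intro p hp
      obtain ⟨h1, h2⟩ := SgM_small hd0 hd1 hp.2
      rw [abs_le] at h1 h2
      exact ⟨⟨by linarith [h1.1], by linarith [h2.1]⟩, ⟨h1.2, h2.2⟩⟩
  have key : ∀ᶠ t in 𝓝 (0 : ℝ), ∀ p ∈ K, Rl (Wx P (p.1, p.2, t)) ∈ zone (5 / 4 * P.d₁) δ 0 := by
    apply hKc.eventually_forall_of_forall_eventually
    rintro ⟨u, y⟩ hp
    have hq : Gd (u, y, 0) := by
      obtain ⟨h1, h2⟩ := SgM_small hd0 hd1 hp.2
      refine ⟨?_, ?_⟩
      · rintro ⟨m, n, e1, e2⟩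
        simp only at e1 e2 h1 h2
        have hm : m = 0 := by
          have h3 : |(m : ℝ)| < 1 := by rw [← e1]; linarith
          have h4 : |m| < 1 := by exact_mod_cast h3
          exact Int.abs_lt_one_iff.1 h4
        have hn : n = 0 := by
          have h3 : |(n : ℝ)| < 1 := by rw [← e2]; linarith
          have h4 : |n| < 1 := by exact_mod_cast h3
          exact Int.abs_lt_one_iff.1 h4
        have h5 := hp.1
        simp only at h5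
        rw [e1, e2, hm, hn] at h5
        simp at h5
        nlinarith
      · rintro ⟨m, n, _, e2⟩
        simp only at e2
        have h3 : (2 * n + 1 : ℤ) = 0 := by
          have : (2 * (n : ℝ) + 1) = 0 := by linarith
          exact_mod_cast this
        omega
    have hc1 : ContinuousAt (Wx P) (u, y, 0) := SgM_ld_cont (Wx_ld h hq)
    have hc2 : ContinuousAt Rl (Wx P (u, y, 0)) := SgM_ld_cont (Rl_ld (Wx_ne h hq))
    have hsw : ContinuousAt (fun z : ℝ × (ℝ × ℝ) => (z.2.1, z.2.2, z.1)) ((0 : ℝ), (u, y)) := by fun_prop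
    have hc3 : ContinuousAt (fun z : ℝ × (ℝ × ℝ) => Rl (Wx P (z.2.1, z.2.2, z.1))) ((0 : ℝ), (u, y)) := by
      have := ContinuousAt.comp (f := fun z : ℝ × (ℝ × ℝ) => (z.2.1, z.2.2, z.1)) (g := fun q => Rl (Wx P q)) (x := ((0 : ℝ), (u, y)))
        (ContinuousAt.comp (f := Wx P) (g := Rl) (x := (u, y, (0 : ℝ))) hc2 hc1) hsw
      exact this
    apply hc3.eventually_mem
    apply (zone_open hδ' 0).mem_nhds
    exact page0_zone h hq hp.2 hδ
  obtain ⟨ε, hε, hh⟩ := Metric.eventually_nhds_iff.1 key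
  refine ⟨ε / 2, by positivity, ?_⟩
  intro u y t ht h1 h2
  have h3 : dist t 0 < ε := by
    rw [dist_zero_right, Real.norm_eq_abs]; linarith
  exact hh h3 (u, y) ⟨h1, h2⟩

end Pool.Agent.CHW
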