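import Pool.Agent.CHW.WxM

/-!
# CHW/TmM: reparametrisation of the time   (difficulty 2)

`0 < κ ≤ 1`, `0 < b ≤ 1/8`.  `vpi κ t = n + (t - n)(κ + (1 - κ) stp (1/8) (1/4) |t - n|)`, `n = round t`: equal to `n + κ (t - n)` for `|t - n| ≤ 1/8` and to `t` for `|t - n| ≥ 1/4`, smooth, strictly
increasing (`derivative ≥ κ`: for `0 ≤ x = t - n ≤ 1/2` it is `κ + (1-κ)σ + (1-κ) x σ'`), `vpi (t + k) = vpi t + k`, `vpi (-t) = - vpi t` (at the half integers `vpi t = t`).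
`lmb b u y = stp ((b/2)²) (b²) ((u - round u)² + (y - round y)²)`: smooth (`= 1` where `|u - round u|` or `|y - round y|` is near `1/2`), periodic; `= 0` if the distance to `ℤ²` is `≤ b/2`, `= 1` if it
is `≥ b`.   `Tm κ b (u, y, t) = (u, y, (1 - λ) t + λ vpi κ t)`.
* `Tm_ld`: smooth, the derivative is injective: `∂_t ≥ min (1, κ) > 0`.   `Tm_bij`: strictly increasing and proper in `t`.
* `Tm_Gd`: `(1 - λ) t + λ vpi t = 1/2 + n` iff `t = 1/2 + n`; the other conditions concern `(u, y)` only.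
-/

open scoped Manifold ContDiff Topology
open Set Filter
open Complex (I normSq)

namespace Pool.Agent.CHW

open Pool.Agent.CSG (stp thc)
open Pool.Agent.RSG (ex)

noncomputable def vpi (κ t : ℝ) : ℝ :=
  round t + (t - round t) * (κ + (1 - κ) * stp (1 / 8) (1 / 4) |t - round t|)
noncomputable def lmb (b u y : ℝ) : ℝ := stp ((b / 2) ^ 2) (b ^ 2) ((u - round u) ^ 2 + (y - round y) ^ 2)
noncomputable def Tm (κ b : ℝ) (q : ℝ × ℝ × ℝ) : ℝ × ℝ × ℝ :=
  (q.1, q.2.1, (1 - lmb b q.1 q.2.1) * q.2.2 + lmb b q.1 q.2.1 * vpi κ q.2.2)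


/-! ### helper lemmas -/

/-- the integer in the definition can be any integer at distance `≤ 3/4` -/
theorem TmM_vpi_of {κ t : ℝ} {m : ℤ} (h : |t - m| ≤ 3 / 4) :
    vpi κ t = m + (t - m) * (κ + (1 - κ) * stp (1 / 8) (1 / 4) |t - m|) := by
  unfold vpi
  by_cases hm : round t = m
  · rw [hm]
  · have h1 : |t - round t| ≤ 1 / 2 := abs_sub_round t
    have h2 : (1 : ℝ) ≤ |((round t : ℤ) : ℝ) - m| := by
      have : (1 : ℤ) ≤ |round t - m| := Int.one_le_abs (sub_ne_zero.2 hm)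
      exact_mod_cast this
    have h3 : |((round t : ℤ) : ℝ) - m| ≤ |t - round t| + |t - m| := by
      have := abs_sub_le ((round t : ℤ) : ℝ) t m
      rw [abs_sub_comm ((round t : ℤ) : ℝ) t] at this
      exact this
    rw [Pool.Agent.CSG.stp_one (by norm_num) (show (1 / 4 : ℝ) ≤ |t - round t| by linarith),
      Pool.Agent.CSG.stp_one (by norm_num) (show (1 / 4 : ℝ) ≤ |t - m| by linarith)]
    ring

theorem TmM_lmb_of {b u y : ℝ} {m n : ℤ} (hb : 0 < b) (hb' : b ≤ 1 / 8) (hu : |u - m| ≤ 3 / 4)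
    (hy : |y - n| ≤ 3 / 4) :
    lmb b u y = stp ((b / 2) ^ 2) (b ^ 2) ((u - m) ^ 2 + (y - n) ^ 2) := by
  have hbb : (b / 2) ^ 2 < b ^ 2 := by nlinarith
  have hb2 : b ^ 2 ≤ (1 / 4) ^ 2 := by nlinarith
  have key : ∀ (x : ℝ) (k : ℤ), |x - k| ≤ 3 / 4 → round x ≠ k →
      1 / 4 ≤ |x - round x| ∧ 1 / 4 ≤ |x - k| := by
    intro x k hx hk
    have h1 : |x - round x| ≤ 1 / 2 := abs_sub_round x
    have h2 : (1 : ℝ) ≤ |((round x : ℤ) : ℝ) - k| := by
      have : (1 : ℤ) ≤ |round x - k| := Int.one_le_abs (sub_ne_zero.2 hk)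
      exact_mod_cast this
    have h3 : |((round x : ℤ) : ℝ) - k| ≤ |x - round x| + |x - k| := by
      have := abs_sub_le ((round x : ℤ) : ℝ) x k
      rw [abs_sub_comm ((round x : ℤ) : ℝ) x] at this
      exact this
    constructor <;> linarith
  have sqb : ∀ x : ℝ, 1 / 4 ≤ |x| → b ^ 2 ≤ x ^ 2 := by
    intro x hx
    have := sq_abs x
    nlinarith
  unfold lmb
  by_cases hm : round u = m
  · by_cases hn : round y = n
    · rw [hm, hn]
    · obtain ⟨k1, k2⟩ := key y n hy hn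
      have s1 := sqb _ k1
      have s2 := sqb _ k2
      have e1 := sq_nonneg (u - round u)
      have e2 := sq_nonneg (u - m)
      rw [Pool.Agent.CSG.stp_one hbb (by linarith), Pool.Agent.CSG.stp_one hbb (by linarith)]
  · obtain ⟨k1, k2⟩ := key u m hu hm
    have s1 := sqb _ k1
    have s2 := sqb _ k2
    have e1 := sq_nonneg (y - round y)
    have e2 := sq_nonneg (y - n)
    rw [Pool.Agent.CSG.stp_one hbb (by linarith), Pool.Agent.CSG.stp_one hbb (by linarith)]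

/-- `x ↦ x * stp (1/8) (1/4) x` -/
noncomputable def TmM_h (x : ℝ) : ℝ := x * stp (1 / 8) (1 / 4) x

theorem TmM_h_smooth : ContDiff ℝ ∞ TmM_h := contDiff_id.mul (Pool.Agent.CSG.stp_smooth _ _)

theorem TmM_h_nonneg (x : ℝ) : 0 ≤ TmM_h x := by
  unfold TmM_h
  rcases le_or_gt x (1 / 8) with h | h
  · rw [Pool.Agent.CSG.stp_zero (by norm_num) h, mul_zero]
  · exact mul_nonneg (by linarith) (Pool.Agent.CSG.stp_nonneg _ _ _)

theorem TmM_h_mono : Monotone TmM_h := by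
  intro x y hxy
  rcases le_or_gt x (1 / 8) with h | h
  · have : TmM_h x = 0 := by
      unfold TmM_h
      rw [Pool.Agent.CSG.stp_zero (by norm_num) h, mul_zero]
    rw [this]
    exact TmM_h_nonneg y
  · unfold TmM_h
    exact mul_le_mul hxy (Pool.Agent.CSG.stp_mono (by norm_num) hxy)
      (Pool.Agent.CSG.stp_nonneg _ _ _) (by linarith)

/-- `x ↦ x * stp (1/8) (1/4) |x|` -/
noncomputable def TmM_g (x : ℝ) : ℝ := TmM_h x - TmM_h (-x)

theorem TmM_g_eq (x : ℝ) : TmM_g x = x * stp (1 / 8) (1 / 4) |x| := by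
  unfold TmM_g TmM_h
  rcases le_total 0 x with h | h
  · rw [abs_of_nonneg h, Pool.Agent.CSG.stp_zero (by norm_num) (show -x ≤ 1 / 8 by linarith)]
    ring
  · rw [abs_of_nonpos h, Pool.Agent.CSG.stp_zero (by norm_num) (show x ≤ 1 / 8 by linarith)]
    ring

theorem TmM_g_smooth : ContDiff ℝ ∞ TmM_g :=
  TmM_h_smooth.sub (TmM_h_smooth.comp contDiff_neg)

theorem TmM_g_mono : Monotone TmM_g := by
  intro x y hxy
  unfold TmM_g
  have h1 := TmM_h_mono hxy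
  have h2 := TmM_h_mono (neg_le_neg hxy)
  linarith

/-- `vpi 0` -/
noncomputable def TmM_G (t : ℝ) : ℝ := round t + TmM_g (t - round t)

theorem TmM_G_of {t : ℝ} {m : ℤ} (h : |t - m| ≤ 3 / 4) : TmM_G t = m + TmM_g (t - m) := by
  have h1 := TmM_vpi_of (κ := 0) h
  unfold vpi at h1
  unfold TmM_G
  rw [TmM_g_eq, TmM_g_eq]
  simp only [zero_add, sub_zero, one_mul] at h1
  exact h1

theorem TmM_vpi_eq (κ t : ℝ) : vpi κ t = κ * t + (1 - κ) * TmM_G t := by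
  unfold vpi TmM_G
  rw [TmM_g_eq]
  ring

theorem TmM_near_abs (t₀ : ℝ) (m : ℤ) (h : |t₀ - m| ≤ 1 / 2) :
    ∀ᶠ t : ℝ in 𝓝 t₀, |t - m| ≤ 3 / 4 := by
  have h1 : Continuous fun t : ℝ => |t - m| := by fun_prop
  have h2 : {t : ℝ | |t - m| < 3 / 4} ∈ 𝓝 t₀ :=
    (isOpen_lt h1 continuous_const).mem_nhds (by
      show |t₀ - m| < 3 / 4
      linarith)
  filter_upwards [h2] with t ht
  exact le_of_lt ht

theorem TmM_G_smooth : ContDiff ℝ ∞ TmM_G := by
  rw [contDiff_iff_contDiffAt]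
  intro t₀
  have h1 : TmM_G =ᶠ[𝓝 t₀] fun t => ((round t₀ : ℤ) : ℝ) + TmM_g (t - round t₀) := by
    filter_upwards [TmM_near_abs t₀ (round t₀) (abs_sub_round t₀)] with t ht
    exact TmM_G_of ht
  refine ContDiffAt.congr_of_eventuallyEq ?_ h1
  exact (contDiff_const.add (TmM_g_smooth.comp (contDiff_id.sub contDiff_const))).contDiffAt

theorem TmM_G_add (t : ℝ) (k : ℤ) : TmM_G (t + k) = TmM_G t + k := by
  unfold TmM_G
  rw [round_add_intCast]
  push_cast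
  rw [show t + k - (round t + (k : ℝ)) = t - round t by ring]
  ring

theorem TmM_G_eq_self {t : ℝ} (h : 1 / 4 ≤ |t - round t|) : TmM_G t = t := by
  unfold TmM_G
  rw [TmM_g_eq, Pool.Agent.CSG.stp_one (by norm_num) h]
  ring

theorem TmM_G_abs (t : ℝ) : |TmM_G t - t| ≤ 1 / 2 := by
  have h0 : TmM_G t - t = (t - round t) * (stp (1 / 8) (1 / 4) |t - round t| - 1) := by
    unfold TmM_G
    rw [TmM_g_eq]
    ring
  have h1 := abs_sub_round t
  have h2 := Pool.Agent.CSG.stp_nonneg (1 / 8) (1 / 4) |t - round t|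
  have h3 := Pool.Agent.CSG.stp_le_one (1 / 8) (1 / 4) |t - round t|
  have h4 : |stp (1 / 8) (1 / 4) |t - round t| - 1| ≤ 1 := abs_le.2 ⟨by linarith, by linarith⟩
  rw [h0, abs_mul]
  have := abs_nonneg (t - round t)
  nlinarith [abs_nonneg (stp (1 / 8) (1 / 4) |t - round t| - 1)]

theorem TmM_G_mono : Monotone TmM_G := by
  apply monotone_of_deriv_nonneg (TmM_G_smooth.differentiable (by simp))
  intro t₀
  have h1 : TmM_G =ᶠ[𝓝 t₀] fun t => ((round t₀ : ℤ) : ℝ) + TmM_g (t - round t₀) := by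
    filter_upwards [TmM_near_abs t₀ (round t₀) (abs_sub_round t₀)] with t ht
    exact TmM_G_of ht
  rw [h1.deriv_eq]
  apply Monotone.deriv_nonneg
  intro x y hxy
  have := TmM_g_mono (sub_le_sub_right hxy ((round t₀ : ℤ) : ℝ))
  show ((round t₀ : ℤ) : ℝ) + TmM_g (x - round t₀) ≤ ((round t₀ : ℤ) : ℝ) + TmM_g (y - round t₀)
  linarith

theorem TmM_lmb_nonneg (b u y : ℝ) : 0 ≤ lmb b u y := Pool.Agent.CSG.stp_nonneg _ _ _
theorem TmM_lmb_le (b u y : ℝ) : lmb b u y ≤ 1 := Pool.Agent.CSG.stp_le_one _ _ _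

/-- the third coordinate -/
theorem TmM_third (κ b u y t : ℝ) : (Tm κ b (u, y, t)).2.2 =
    (1 - lmb b u y * (1 - κ)) * t + lmb b u y * (1 - κ) * TmM_G t := by
  show (1 - lmb b u y) * t + lmb b u y * vpi κ t = _
  rw [TmM_vpi_eq]
  ring

theorem TmM_coef {κ : ℝ} (hκ : 0 < κ) (hκ' : κ ≤ 1) (b u y : ℝ) :
    0 ≤ lmb b u y * (1 - κ) ∧ lmb b u y * (1 - κ) < 1 := by
  have h1 := TmM_lmb_nonneg b u y
  have h2 := TmM_lmb_le b u y
  constructor
  · exact mul_nonneg h1 (by linarith)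
  · nlinarith

theorem TmM_strict {κ : ℝ} (hκ : 0 < κ) (hκ' : κ ≤ 1) (b u y : ℝ) :
    StrictMono fun t => (Tm κ b (u, y, t)).2.2 := by
  intro s t hst
  show (Tm κ b (u, y, s)).2.2 < (Tm κ b (u, y, t)).2.2
  rw [TmM_third, TmM_third]
  obtain ⟨h1, h2⟩ := TmM_coef hκ hκ' b u y
  have h3 := TmM_G_mono hst.le
  have h4 : (1 - lmb b u y * (1 - κ)) * s < (1 - lmb b u y * (1 - κ)) * t :=
    mul_lt_mul_of_pos_left hst (by linarith)
  have h5 := mul_le_mul_of_nonneg_left h3 h1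
  linarith

theorem TmM_eq (κ b u y t : ℝ) : Tm κ b (u, y, t) = (u, y, (Tm κ b (u, y, t)).2.2) := rfl

theorem TmM_lmb_smooth {b : ℝ} (hb : 0 < b) (hb' : b ≤ 1 / 8) :
    ContDiff ℝ ∞ fun p : ℝ × ℝ => lmb b p.1 p.2 := by
  rw [contDiff_iff_contDiffAt]
  intro p₀
  have h1 : (fun p : ℝ × ℝ => lmb b p.1 p.2) =ᶠ[𝓝 p₀] fun p =>
      stp ((b / 2) ^ 2) (b ^ 2) ((p.1 - round p₀.1) ^ 2 + (p.2 - round p₀.2) ^ 2) := by
    have e1 : ∀ᶠ p : ℝ × ℝ in 𝓝 p₀, |p.1 - round p₀.1| ≤ 3 / 4 :=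
      (continuous_fst.tendsto p₀).eventually (TmM_near_abs p₀.1 (round p₀.1) (abs_sub_round p₀.1))
    have e2 : ∀ᶠ p : ℝ × ℝ in 𝓝 p₀, |p.2 - round p₀.2| ≤ 3 / 4 :=
      (continuous_snd.tendsto p₀).eventually (TmM_near_abs p₀.2 (round p₀.2) (abs_sub_round p₀.2))
    filter_upwards [e1, e2] with p hp1 hp2
    exact TmM_lmb_of hb hb' hp1 hp2
  refine ContDiffAt.congr_of_eventuallyEq ?_ h1
  have h2 : ContDiff ℝ ∞ fun p : ℝ × ℝ => (p.1 - round p₀.1) ^ 2 + (p.2 - round p₀.2) ^ 2 := by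
    fun_prop
  exact ((Pool.Agent.CSG.stp_smooth _ _).comp h2).contDiffAt

theorem TmM_smooth {κ b : ℝ} (hb : 0 < b) (hb' : b ≤ 1 / 8) : ContDiff ℝ ∞ (Tm κ b) := by
  have h1 : ContDiff ℝ ∞ fun q : ℝ × ℝ × ℝ => lmb b q.1 q.2.1 :=
    (TmM_lmb_smooth hb hb').comp (contDiff_fst.prodMk (contDiff_fst.comp contDiff_snd))
  have h2 : ContDiff ℝ ∞ (vpi κ) := by
    have : vpi κ = fun t => κ * t + (1 - κ) * TmM_G t := funext (TmM_vpi_eq κ)
    rw [this]
    exact (contDiff_const.mul contDiff_id).add (contDiff_const.mul TmM_G_smooth)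
  have h3 : ContDiff ℝ ∞ fun q : ℝ × ℝ × ℝ => q.2.2 := contDiff_snd.comp contDiff_snd
  exact contDiff_fst.prodMk ((contDiff_fst.comp contDiff_snd).prodMk
    (((contDiff_const.sub h1).mul h3).add (h1.mul (h2.comp h3))))

theorem TmM_half_int (κ b u y : ℝ) (n : ℤ) : (Tm κ b (u, y, n + 1 / 2)).2.2 = n + 1 / 2 := by
  rw [TmM_third]
  have h1 : |((n : ℝ) + 1 / 2) - n| = 1 / 2 := by
    rw [add_sub_cancel_left]
    norm_num
  have h2 : TmM_G ((n : ℝ) + 1 / 2) = n + 1 / 2 := by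
    rw [TmM_G_of (m := n) (by rw [h1]; norm_num), TmM_g_eq, h1,
      Pool.Agent.CSG.stp_one (by norm_num) (by norm_num)]
    ring
  rw [h2]
  ring

theorem TmM_int (κ b u y : ℝ) (n : ℤ) : (Tm κ b (u, y, n)).2.2 = n := by
  rw [TmM_third]
  have h2 : TmM_G (n : ℝ) = n := by
    rw [TmM_G_of (m := n) (by rw [sub_self, abs_zero]; norm_num), TmM_g_eq]
    simp
  rw [h2]
  ring

/-! ### the statements -/

variable {κ b : ℝ}

theorem Tm_ld (hκ : 0 < κ) (hκ' : κ ≤ 1) (hb : 0 < b) (hb' : b ≤ 1 / 8) (q : ℝ × ℝ × ℝ) : LD (Tm κ b) q := by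
  have hs := TmM_smooth (κ := κ) hb hb'
  apply Pool.Agent.CSG.ld_of_fderiv (Filter.Eventually.of_forall fun y => hs.contDiffAt) rfl
  intro v hv
  have hd : HasFDerivAt (Tm κ b) (fderiv ℝ (Tm κ b) q) q :=
    (hs.differentiable (by simp)).differentiableAt.hasFDerivAt
  have h1 : HasFDerivAt (fun q : ℝ × ℝ × ℝ => (Tm κ b q).1)
      ((ContinuousLinearMap.fst ℝ ℝ (ℝ × ℝ)).comp (fderiv ℝ (Tm κ b) q)) q :=
    HasFDerivAt.comp (f := Tm κ b) q (ContinuousLinearMap.fst ℝ ℝ (ℝ × ℝ)).hasFDerivAt hd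
  have h1' : HasFDerivAt (fun q : ℝ × ℝ × ℝ => (Tm κ b q).1) (ContinuousLinearMap.fst ℝ ℝ (ℝ × ℝ)) q :=
    (ContinuousLinearMap.fst ℝ ℝ (ℝ × ℝ)).hasFDerivAt
  have e1 : v.1 = 0 := by
    have := congrArg (fun L => L v) (h1.unique h1')
    simp only [ContinuousLinearMap.comp_apply, hv] at this
    exact this.symm
  have h2 : HasFDerivAt (fun q : ℝ × ℝ × ℝ => (Tm κ b q).2.1)
      (((ContinuousLinearMap.fst ℝ ℝ ℝ).comp (ContinuousLinearMap.snd ℝ ℝ (ℝ × ℝ))).comp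
        (fderiv ℝ (Tm κ b) q)) q :=
    HasFDerivAt.comp (f := Tm κ b) q
      ((ContinuousLinearMap.fst ℝ ℝ ℝ).comp (ContinuousLinearMap.snd ℝ ℝ (ℝ × ℝ))).hasFDerivAt hd
  have h2' : HasFDerivAt (fun q : ℝ × ℝ × ℝ => (Tm κ b q).2.1)
      ((ContinuousLinearMap.fst ℝ ℝ ℝ).comp (ContinuousLinearMap.snd ℝ ℝ (ℝ × ℝ))) q :=
    ((ContinuousLinearMap.fst ℝ ℝ ℝ).comp (ContinuousLinearMap.snd ℝ ℝ (ℝ × ℝ))).hasFDerivAt
  have e2 : v.2.1 = 0 := by
    have := congrArg (fun L => L v) (h2.unique h2')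
    simp only [ContinuousLinearMap.comp_apply, hv] at this
    exact this.symm
  obtain ⟨c1, c2⟩ := TmM_coef hκ hκ' b q.1 q.2.1
  have h3 : HasDerivAt (fun t : ℝ => (Tm κ b (q.1, q.2.1, t)).2.2)
      ((1 - lmb b q.1 q.2.1 * (1 - κ)) * 1 + lmb b q.1 q.2.1 * (1 - κ) * deriv TmM_G q.2.2) q.2.2 := by
    have hG : HasDerivAt TmM_G (deriv TmM_G q.2.2) q.2.2 :=
      (TmM_G_smooth.differentiable (by simp)).differentiableAt.hasDerivAt
    have := ((hasDerivAt_id q.2.2).const_mul (1 - lmb b q.1 q.2.1 * (1 - κ))).add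
      (hG.const_mul (lmb b q.1 q.2.1 * (1 - κ)))
    refine this.congr_of_eventuallyEq (Filter.Eventually.of_forall fun t => ?_)
    exact TmM_third κ b q.1 q.2.1 t
  have h4 : HasDerivAt (fun t : ℝ => (Tm κ b (q.1, q.2.1, t)).2.2)
      (((ContinuousLinearMap.snd ℝ ℝ ℝ).comp (ContinuousLinearMap.snd ℝ ℝ (ℝ × ℝ)))
        (fderiv ℝ (Tm κ b) q (0, 0, 1))) q.2.2 := by
    have g1 : HasDerivAt (fun t : ℝ => ((q.1, q.2.1, t) : ℝ × ℝ × ℝ)) ((0, 0, 1) : ℝ × ℝ × ℝ) q.2.2 :=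
      (hasDerivAt_const _ _).prodMk ((hasDerivAt_const _ _).prodMk (hasDerivAt_id _))
    have g2 := hd.comp_hasDerivAt q.2.2 (f := fun t : ℝ => ((q.1, q.2.1, t) : ℝ × ℝ × ℝ)) g1
    exact ((ContinuousLinearMap.snd ℝ ℝ ℝ).comp
      (ContinuousLinearMap.snd ℝ ℝ (ℝ × ℝ))).hasFDerivAt.comp_hasDerivAt q.2.2 g2
  have h5 := h3.unique h4
  have hGn : 0 ≤ deriv TmM_G q.2.2 := TmM_G_mono.deriv_nonneg
  have h6 : 0 < (((ContinuousLinearMap.snd ℝ ℝ ℝ).comp (ContinuousLinearMap.snd ℝ ℝ (ℝ × ℝ)))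
        (fderiv ℝ (Tm κ b) q (0, 0, 1))) := by
    rw [← h5]
    have := mul_nonneg c1 hGn
    linarith
  have h7 : v = v.2.2 • ((0, 0, 1) : ℝ × ℝ × ℝ) := by
    ext <;> simp [e1, e2]
  rw [h7, map_smul] at hv
  have h8 : v.2.2 = 0 := by
    rcases smul_eq_zero.1 hv with h | h
    · exact h
    · rw [h, map_zero] at h6
      exact absurd h6 (lt_irrefl _)
  rw [h7, h8, zero_smul]
theorem Tm_bij (hκ : 0 < κ) (hκ' : κ ≤ 1) (hb : 0 < b) (hb' : b ≤ 1 / 8) : Function.Bijective (Tm κ b) := by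
  constructor
  · rintro ⟨u, y, t⟩ ⟨u', y', t'⟩ h
    have e1 : u = u' := congrArg Prod.fst h
    have e2 : y = y' := congrArg (fun p => p.2.1) h
    subst e1 e2
    have e3 := (TmM_strict hκ hκ' b u y).injective (congrArg (fun p => p.2.2) h)
    rw [e3]
  · rintro ⟨u, y, s⟩
    have hc : Continuous fun t => (Tm κ b (u, y, t)).2.2 := by
      have h1 : (fun t => (Tm κ b (u, y, t)).2.2) = fun t =>
          (1 - lmb b u y * (1 - κ)) * t + lmb b u y * (1 - κ) * TmM_G t :=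
        funext (TmM_third κ b u y)
      rw [h1]
      exact (continuous_const.mul continuous_id).add (continuous_const.mul TmM_G_smooth.continuous)
    obtain ⟨c1, c2⟩ := TmM_coef hκ hκ' b u y
    have hab : ∀ t, |(Tm κ b (u, y, t)).2.2 - t| ≤ 1 := by
      intro t
      rw [TmM_third]
      have h1 : (1 - lmb b u y * (1 - κ)) * t + lmb b u y * (1 - κ) * TmM_G t - t =
          lmb b u y * (1 - κ) * (TmM_G t - t) := by ring
      rw [h1, abs_mul, abs_of_nonneg c1]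
      have h2 := TmM_G_abs t
      nlinarith [abs_nonneg (TmM_G t - t)]
    have h1 : (Tm κ b (u, y, s - 1)).2.2 ≤ s := by
      have := (abs_le.1 (hab (s - 1))).2
      linarith
    have h2 : s ≤ (Tm κ b (u, y, s + 1)).2.2 := by
      have := (abs_le.1 (hab (s + 1))).1
      linarith
    obtain ⟨t, -, ht⟩ := intermediate_value_Icc (show s - 1 ≤ s + 1 by linarith) hc.continuousOn ⟨h1, h2⟩
    refine ⟨(u, y, t), ?_⟩
    rw [TmM_eq]
    have ht' : (Tm κ b (u, y, t)).2.2 = s := ht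
    rw [ht']
theorem Tm_shift (u y t : ℝ) (m n k : ℤ) (hb : 0 < b) :
    Tm κ b (u + m, y + n, t + k) = ((Tm κ b (u, y, t)).1 + m, (Tm κ b (u, y, t)).2.1 + n, (Tm κ b (u, y, t)).2.2 + k) := by
  have h1 : lmb b (u + m) (y + n) = lmb b u y := by
    unfold lmb
    rw [round_add_intCast, round_add_intCast]
    push_cast
    rw [show u + m - (round u + (m : ℝ)) = u - round u by ring,
      show y + n - (round y + (n : ℝ)) = y - round y by ring]
  have h2 : (Tm κ b (u + m, y + n, t + k)).2.2 = (Tm κ b (u, y, t)).2.2 + k := by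
    rw [TmM_third, TmM_third, h1, TmM_G_add]
    ring
  rw [TmM_eq, h2]
  rfl
theorem Tm_Gd (hκ : 0 < κ) (hκ' : κ ≤ 1) (hb : 0 < b) (hb' : b ≤ 1 / 8) (q : ℝ × ℝ × ℝ) : Gd (Tm κ b q) ↔ Gd q := by
  obtain ⟨u, y, t⟩ := q
  have h1 : OnB (Tm κ b (u, y, t)) ↔ OnB (u, y, t) := Iff.rfl
  have h2 : OnK (Tm κ b (u, y, t)) ↔ OnK (u, y, t) := by
    constructor
    · rintro ⟨m, n, h3, h4⟩
      refine ⟨m, n, h3, ?_⟩
      exact (TmM_strict hκ hκ' b u y).injective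
        (show (Tm κ b (u, y, t)).2.2 = (Tm κ b (u, y, (n : ℝ) + 1 / 2)).2.2 by
          rw [TmM_half_int]; exact h4)
    · rintro ⟨m, n, h3, h4⟩
      refine ⟨m, n, h3, ?_⟩
      have h4' : t = n + 1 / 2 := h4
      rw [h4']
      exact TmM_half_int κ b u y n
  unfold Gd
  rw [h1, h2]
/-- near the binding -/
theorem Tm_near (hb : 0 < b) (hb' : b ≤ 1 / 8) {u y : ℝ} (t : ℝ) {m n : ℤ} (h : (u - m) ^ 2 + (y - n) ^ 2 ≤ (b / 2) ^ 2) :
    Tm κ b (u, y, t) = (u, y, t) := by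
  have hu : |u - m| ≤ b / 2 := by
    apply abs_le_of_sq_le_sq _ (by linarith)
    nlinarith [sq_nonneg (y - n)]
  have hy : |y - n| ≤ b / 2 := by
    apply abs_le_of_sq_le_sq _ (by linarith)
    nlinarith [sq_nonneg (u - m)]
  have hl : lmb b u y = 0 := by
    rw [TmM_lmb_of hb hb' (m := m) (n := n) (by linarith) (by linarith)]
    exact Pool.Agent.CSG.stp_zero (by nlinarith) h
  rw [TmM_eq, TmM_third, hl]
  simp
/-- near the page `1/2` -/
theorem Tm_half {u y t : ℝ} {n : ℤ} (h : |t - n - 1 / 2| ≤ 1 / 4) : Tm κ b (u, y, t) = (u, y, t) := by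
  obtain ⟨h1, h2⟩ := abs_le.1 h
  have h3 : |t - n| = t - n := abs_of_nonneg (by linarith)
  have hG : TmM_G t = t := by
    rw [TmM_G_of (m := n) (by rw [h3]; linarith), TmM_g_eq, h3,
      Pool.Agent.CSG.stp_one (by norm_num) (by linarith)]
    ring
  rw [TmM_eq, TmM_third, hG]
  congr 2
  ring
theorem Tm_far (hb : 0 < b) (hb' : b ≤ 1 / 8) {u y t : ℝ} (h : ∀ m n : ℤ, b ^ 2 ≤ (u - m) ^ 2 + (y - n) ^ 2) (ht : |t| ≤ 1 / 8) :
    Tm κ b (u, y, t) = (u, y, κ * t) := by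
  have hl : lmb b u y = 1 := by
    unfold lmb
    exact Pool.Agent.CSG.stp_one (by nlinarith) (h (round u) (round y))
  have hG : TmM_G t = 0 := by
    rw [TmM_G_of (m := 0) (by simp only [Int.cast_zero, sub_zero]; linarith), TmM_g_eq]
    simp only [Int.cast_zero, sub_zero, zero_add]
    rw [Pool.Agent.CSG.stp_zero (by norm_num) ht, mul_zero]
  rw [TmM_eq, TmM_third, hl, hG]
  congr 2
  ring
theorem Tm_abs (hκ : 0 < κ) (hκ' : κ ≤ 1) {u y t : ℝ} (ht : |t| ≤ 1 / 8) : |(Tm κ b (u, y, t)).2.2| ≤ 1 / 8 := by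
  have hG : TmM_G t = 0 := by
    rw [TmM_G_of (m := 0) (by simp only [Int.cast_zero, sub_zero]; linarith), TmM_g_eq]
    simp only [Int.cast_zero, sub_zero, zero_add]
    rw [Pool.Agent.CSG.stp_zero (by norm_num) ht, mul_zero]
  obtain ⟨c1, c2⟩ := TmM_coef hκ hκ' b u y
  rw [TmM_third, hG, mul_zero, add_zero, abs_mul, abs_of_nonneg (by linarith)]
  nlinarith [abs_nonneg t]
theorem Tm_pos (hκ : 0 < κ) (hκ' : κ ≤ 1) {u y t : ℝ} (h0 : 0 < t) (h1 : t < 1 / 2) :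
    0 < (Tm κ b (u, y, t)).2.2 ∧ (Tm κ b (u, y, t)).2.2 < 1 / 2 := by
  have hs := TmM_strict hκ hκ' b u y
  have e0 := TmM_int κ b u y 0
  have e1 := TmM_half_int κ b u y 0
  simp only [Int.cast_zero, zero_add] at e0 e1
  constructor
  · have h : (Tm κ b (u, y, 0)).2.2 < (Tm κ b (u, y, t)).2.2 := hs h0
    rwa [e0] at h
  · have h : (Tm κ b (u, y, t)).2.2 < (Tm κ b (u, y, 1 / 2)).2.2 := hs h1
    rwa [e1] at h
theorem Tm_neg' (hκ : 0 < κ) (hκ' : κ ≤ 1) {u y t : ℝ} (h0 : 1 / 2 < t) (h1 : t < 1) :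
    1 / 2 < (Tm κ b (u, y, t)).2.2 ∧ (Tm κ b (u, y, t)).2.2 < 1 := by
  have hs := TmM_strict hκ hκ' b u y
  have e0 := TmM_int κ b u y 1
  have e1 := TmM_half_int κ b u y 0
  simp only [Int.cast_zero, zero_add, Int.cast_one] at e0 e1
  constructor
  · have h : (Tm κ b (u, y, 1 / 2)).2.2 < (Tm κ b (u, y, t)).2.2 := hs h0
    rwa [e1] at h
  · have h : (Tm κ b (u, y, t)).2.2 < (Tm κ b (u, y, 1)).2.2 := hs h1
    rwa [e0] at h
theorem Tm_zero (u y : ℝ) : Tm κ b (u, y, 0) = (u, y, 0) := by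
  have e0 := TmM_int κ b u y 0
  simp only [Int.cast_zero] at e0
  rw [TmM_eq, e0]

end Pool.Agent.CHW
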