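import Pool.Agent.CHW.ClM
import Pool.Agent.CHW.SgM
import Pool.Agent.CHW.TmM
import Pool.Agent.CHW.KcE
import Pool.Agent.CHW.GlM

/-!
# CHW/FnDef: the final chart

`W1 = Ft ∘ Rl ∘ Wx ∘ Tm`, `Wb1 (θ, ζ) = Ft (Rl (Wb0 θ (ε ζ)))`, `Wk1 (l, ζ) = Ft (Rl (Wk0 (l, ζ)))`.
-/

open scoped Manifold ContDiff Topology
open Set Filter
open Complex (I normSq)

namespace Pool.Agent.CHW

open Pool.Agent.CSG (stp thc)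
open Pool.Agent.RSG (ex)

/-- all parameters of the final chart -/
structure Fd (P : Par) (d₀ x₁ x₀ η b κ : ℝ) (Ft : F3 → F3) : Prop where
  ok : P.Ok
  d0 : 0 < d₀
  d0' : d₀ ≤ 1 / 8
  d1 : P.d₁ = d₀ / 2
  x1 : 0 < x₁
  x1' : x₁ < 1 / 16
  x1d : x₁ ≤ d₀
  x0 : 0 < x₀
  x0' : x₀ ≤ x₁
  x0d : x₀ ≤ P.d₁
  str : Str P x₀ η Ft
  b_pos : 0 < b
  b_lt : b < P.r₃ / 4
  nb : ∀ (θ : ℝ) (ζ : ℂ), ‖ζ‖ ≤ b → Rl (Wb0 P θ ζ) ∈ zone P.d₁ η 0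
  κ_pos : 0 < κ
  κ_le : κ ≤ 1
  κη : κ ≤ η
  n0 : ∀ u y t : ℝ, |t| ≤ κ → b ^ 2 ≤ u ^ 2 + y ^ 2 → u ^ 2 + y ^ 2 ≤ P.d₁ ^ 2 →
    Rl (Wx P (u, y, t)) ∈ zone (5 / 4 * P.d₁) η 0

/-- the chart -/
noncomputable def W1 (P : Par) (κ b : ℝ) (Ft : F3 → F3) (q : ℝ × ℝ × ℝ) : F3 := Ft (Rl (Wx P (Tm κ b q)))
noncomputable def Wb1 (P : Par) (ε : ℝ) (Ft : F3 → F3) (q : ℝ × ℂ) : F3 := Ft (Rl (Wb0 P q.1 (ε * q.2)))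
noncomputable def Wk1 (P : Par) (ε : ℝ) (Ft : F3 → F3) (q : ℝ × ℂ) : F3 := Ft (Rl (Wk0 P ε q))

end Pool.Agent.CHW
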