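import Pool.Agent.CHW.FnDef

/-!
# CHW/FnK: the fields of `WD` concerning `K`   (difficulty 2)

Hypotheses `0 < ε ≤ 1/16`.  `Wk1 (l, ζ) = Ft (Rl (Wk0 (l, ζ)))`.
* `Wk1_loc`, `Wk1_per`: `Wk0_ld`, `Wk0_ne`, `Wk0_per`.   `Wk1_glue`: `Wk0_glue`; `t = 1/2 + ε s sin ..`, `|t - 1/2| ≤ 1/16`: `Tm_half` (`n = 0`).
* `Wk1_inj`: `Real.exp n • Ft (Rl x) = Ft (Rl (L^n • x))`, `Wk0_inj`.   `Wk1_disj`: `core_KS`, `Wx_notK`.
* `Wk1_core`: `Ft` is the identity on the core: let `x = Wk0 (l, 0)`, and suppose `Rl x = cyl (u, Y, X)`, `|X| < x₀ ≤ x₁ < 1/16` and `(u - m)² + (Y - n)² > (3/4 d₁)²` for all `m, n`.  By `Wk0_per` `|l - 1/2| ≤ 1/4` or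
  `|l - 1| ≤ 1/4`; in the second case replace `x` by `L • Jv x` (`Wk0_J`: `Wk0 (l, 0) = L • Jv (Wk0 (1/2 - l, 0))`, `elli (log L - r) = 1 - elli r`: `Y` becomes `1 - Y`, `X` is unchanged).  `core_X`: `x.1 = tau > 0`, so `u ∈ ℤ`, and
  `log (rr x) = log tau - log (1 - X²)/2 ≤ 21/10 c² + X² ≤ d₁/4` (`c ≤ r₃/4 ≤ d₁/4 ≤ 1/32`, `|X| < x₀ ≤ d₁ ≤ 1/8`), so `0 ≤ Y = log (rr x)/(2π) ≤ d₁/20`: contradiction with `m = u`, `n = 0`.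
* `cY`, `cX`: `coY (Wk1) l = elli (log (rr (Wk0 (l, 0))))`, `coX (Wk1) l = (Wk0 (l, 0)).2 / rr (Wk0 (l, 0))` for all `l` (`Wk1_core`, `Rl_rr`, `Rl_ratio`).
-/

open scoped Manifold ContDiff Topology
open Set Filter
open Complex (I normSq)

namespace Pool.Agent.CHW

open Pool.Agent.CSG (stp thc)
open Pool.Agent.RSG (ex)

variable {P : Par} {d₀ x₁ x₀ η b κ ε : ℝ} {Ft : F3 → F3}

/-- composition -/
theorem FnK_comp {X Y Z : Type*} [NormedAddCommGroup X] [NormedSpace ℝ X] [NormedAddCommGroup Y] [NormedSpace ℝ Y]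
    [NormedAddCommGroup Z] [NormedSpace ℝ Z] {f : X → Y} {g : Y → Z} {x : X} (hf : LD f x) (hg : LD g (f x)) :
    LD (fun y => g (f y)) x := IsLocalDiffeomorphAt.comp (hf := hf) (hg := hg) ..

theorem FnK_Ft (F : Fd P d₀ x₁ x₀ η b κ Ft) {x : F3} (hx : x ≠ 0) (n : ℤ) :
    Real.exp n • Ft (Rl x) = Ft (Rl ((4000000 : ℝ) ^ n • x)) := by
  rw [Rl_smul, F.str.smul n _ (Rl_ne hx)]

theorem FnK_smul_ne {x : F3} (hx : x ≠ 0) (n : ℤ) : (4000000 : ℝ) ^ n • x ≠ 0 :=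
  smul_ne_zero (zpow_ne_zero _ (by norm_num)) hx

theorem FnK_inj (F : Fd P d₀ x₁ x₀ η b κ Ft) {x y : F3} (hx : x ≠ 0) (hy : y ≠ 0) (h : Ft (Rl x) = Ft (Rl y)) : x = y :=
  Rl_inj hx hy (F.str.inj _ _ (Rl_ne hx) (Rl_ne hy) h)

theorem FnK_b8 (F : Fd P d₀ x₁ x₀ η b κ Ft) : b ≤ 1 / 8 := by
  have h1 := F.b_lt
  have h2 := F.ok.r₃_le
  have h3 := F.ok.d₁_le
  linarith [F.b_pos, F.ok.r₃_pos]

theorem FnK_c (F : Fd P d₀ x₁ x₀ η b κ Ft) : 0 < P.c ∧ P.c ≤ P.d₁ / 4 ∧ P.c ≤ 1 / 32 := by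
  have h1 := F.ok.c_pos
  have h2 := F.ok.c_le
  have h3 := F.ok.r₃_le
  have h4 := F.ok.d₁_le
  exact ⟨h1, by linarith, by linarith⟩

theorem Wk1_per (P : Par) (ε : ℝ) (Ft : F3 → F3) (l : ℝ) (ζ : ℂ) : Wk1 P ε Ft (l + 1, ζ) = Wk1 P ε Ft (l, ζ) := by
  have h := Wk0_per (P := P) (ε := ε) l ζ 1
  rw [Int.cast_one] at h
  unfold Wk1
  rw [h]

theorem Wk1_loc (F : Fd P d₀ x₁ x₀ η b κ Ft) (hε : 0 < ε) (hε' : ε ≤ 1 / 16) {l : ℝ} {ζ : ℂ} (hζ : ‖ζ‖ < 1) :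
    LD (Wk1 P ε Ft) (l, ζ) := by
  have h0 := Wk0_ne F.ok hε hε' l hζ.le
  have h1 : LD (fun q => Rl (Wk0 P ε q)) (l, ζ) := FnK_comp (Wk0_ld F.ok hε hε' l hζ) (Rl_ld h0)
  exact FnK_comp (f := fun q => Rl (Wk0 P ε q)) (g := Ft) h1 (F.str.ld _ (Rl_ne h0))

theorem Wk1_glue (F : Fd P d₀ x₁ x₀ η b κ Ft) (hε : 0 < ε) (hε' : ε ≤ 1 / 16) {l s u : ℝ} (hs : 0 < s) (hs' : s < 1) :
    Wk1 P ε Ft (l, s * ex u) = W1 P κ b Ft (u, 1 / 2 + ε * s * Real.cos (2 * Real.pi * l), 1 / 2 + ε * s * Real.sin (2 * Real.pi * l)) := by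
  unfold Wk1 W1
  rw [Wk0_glue hs, Tm_half (n := 0)]
  rw [Int.cast_zero, sub_zero, add_sub_cancel_left, abs_mul, abs_of_pos (mul_pos hε hs)]
  have h1 := Real.abs_sin_le_one (2 * Real.pi * l)
  have h2 : ε * s ≤ 1 / 16 := by nlinarith
  nlinarith [abs_nonneg (Real.sin (2 * Real.pi * l)), mul_pos hε hs]

theorem Wk1_inj (F : Fd P d₀ x₁ x₀ η b κ Ft) (hε : 0 < ε) (hε' : ε ≤ 1 / 16) {l l' : ℝ} {ζ ζ' : ℂ} {n : ℤ} (hζ : ‖ζ‖ < 1)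
    (hζ' : ‖ζ'‖ < 1) (he : Wk1 P ε Ft (l, ζ) = Real.exp n • Wk1 P ε Ft (l', ζ')) :
    n = 0 ∧ ζ = ζ' ∧ ∃ m : ℤ, l' = l + m := by
  have h0 := Wk0_ne F.ok hε hε' l hζ.le
  have h1 := Wk0_ne F.ok hε hε' l' hζ'.le
  unfold Wk1 at he
  rw [FnK_Ft F h1] at he
  exact Wk0_inj F.ok hε hε' hζ hζ' (FnK_inj F h0 (FnK_smul_ne h1 n) he)

theorem Wk1_disj (F : Fd P d₀ x₁ x₀ η b κ Ft) (hε : 0 < ε) (hε' : ε ≤ 1 / 16) (l : ℝ) {q : ℝ × ℝ × ℝ} (n : ℤ) (hq : Gd q) :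
    Real.exp n • Wk1 P ε Ft (l, 0) ≠ W1 P κ b Ft q := by
  intro he
  have h0 := Wk0_ne F.ok hε hε' l (ζ := 0) (by simp)
  have hq' : Gd (Tm κ b q) := (Tm_Gd F.κ_pos F.κ_le F.b_pos (FnK_b8 F) q).2 hq
  unfold Wk1 W1 at he
  rw [FnK_Ft F h0] at he
  have h1 := FnK_inj F (FnK_smul_ne h0 n) (Wx_ne F.ok hq') he
  obtain ⟨m, k, hk, hm⟩ := core_KS F.ok hε hε' l
  rw [hm, smul_smul, ← zpow_add₀ (by norm_num)] at h1
  exact Wx_notK F.ok hq' hk _ h1.symm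

/-! ### the core -/

theorem FnK_unit {x : F3} (hx : x ≠ 0) {a : ℝ} (ha : 0 ≤ a) (hx1 : x.1 = a) :
    Real.sqrt (1 - (x.2 / rr x) ^ 2) = a / rr x := by
  have hr := rr_pos hx
  have h1 : 1 - (x.2 / rr x) ^ 2 = (a / rr x) ^ 2 := by
    have h2 : rr x ^ 2 = a ^ 2 + x.2 ^ 2 := by
      rw [rr_sq, q2, hx1, Complex.normSq_ofReal]
      ring
    field_simp
    linarith
  rw [h1, Real.sqrt_sq (div_nonneg ha hr.le)]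

theorem FnK_cyl {x : F3} (hx : x ≠ 0) {a : ℝ} (ha : 0 ≤ a) (hx1 : x.1 = a) :
    Rl x = cyl (0, elli (Real.log (rr x)), x.2 / rr x) := by
  have hr := rr_pos hx
  unfold Rl cyl
  simp only
  rw [FnK_unit hx ha hx1, Pool.Agent.RSG.ex_zero, mul_one, div_eq_mul_inv, mul_smul]
  congr 1
  apply Prod.ext
  · rw [Prod.smul_fst, hx1]
    simp only [Complex.real_smul]
    rw [← Complex.ofReal_mul]
    congr 1
    rw [div_eq_mul_inv, mul_comm]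
  · rw [Prod.smul_snd, smul_eq_mul]
    simp only
    rw [div_eq_mul_inv, mul_comm]

theorem FnK_ne (h : P.Ok) (hε : 0 < ε) (hε' : ε ≤ 1 / 16) (l : ℝ) : Wk0 P ε (l, 0) ≠ 0 := Wk0_ne h hε hε' l (by simp)

theorem FnK_ccyl (h : P.Ok) (hε : 0 < ε) (hε' : ε ≤ 1 / 16) (l : ℝ) :
    Rl (Wk0 P ε (l, 0)) = cyl (0, elli (Real.log (rr (Wk0 P ε (l, 0)))), (Wk0 P ε (l, 0)).2 / rr (Wk0 P ε (l, 0))) := by
  obtain ⟨a, ha, h1⟩ := core_real h hε hε' l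
  exact FnK_cyl (FnK_ne h hε hε' l) ha h1

theorem FnK_tau {c : ℝ} (hc : 0 < c) (hc' : c ≤ 1 / 32) : 0 < Real.log (tau c) ∧ Real.log (tau c) ≤ 21 / 10 * c ^ 2 := by
  have h1 : (0 : ℝ) < 1 - c ^ 2 := by nlinarith
  have h2 : tau c = 1 + 2 * c ^ 2 / (1 - c ^ 2) := by
    unfold tau
    field_simp
    ring
  have h3 : 0 < 2 * c ^ 2 / (1 - c ^ 2) := by positivity
  constructor
  · apply Real.log_pos
    rw [h2]
    linarith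
  · have h4 : Real.log (tau c) ≤ tau c - 1 := Real.log_le_sub_one_of_pos (by rw [h2]; linarith)
    refine h4.trans ?_
    rw [h2, add_sub_cancel_left, div_le_iff₀ h1]
    nlinarith [mul_pos (pow_pos hc 2) (by nlinarith : (0 : ℝ) < 1 / 21 - c ^ 2)]

/-- `log |x|` near the page `0` -/
theorem FnK_log0 (h : P.Ok) (hε : 0 < ε) (hε' : ε ≤ 1 / 16) {l : ℝ} (hl : |l - 1 / 2| ≤ 1 / 4)
    (hX : |(Wk0 P ε (l, 0)).2 / rr (Wk0 P ε (l, 0))| ≤ 3 / 16) :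
    0 < Real.log (rr (Wk0 P ε (l, 0))) ∧
      Real.log (rr (Wk0 P ε (l, 0))) ≤ 21 / 10 * P.c ^ 2 + ((Wk0 P ε (l, 0)).2 / rr (Wk0 P ε (l, 0))) ^ 2 := by
  have hc := h.c_pos
  have hc' : P.c ≤ 1 / 32 := by linarith [h.c_le, h.r₃_le, h.d₁_le]
  obtain ⟨h1, -⟩ := core_X h hε hε' hl hX
  set X := (Wk0 P ε (l, 0)).2 / rr (Wk0 P ε (l, 0)) with hXd
  have hX2 : X ^ 2 ≤ 9 / 256 := by
    have := abs_le.1 hX
    nlinarith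
  obtain ⟨h2, h3⟩ := FnK_tau hc hc'
  have h4 : (0 : ℝ) < 1 - X ^ 2 := by linarith
  have h5 : 0 < tau P.c := by
    by_contra hneg
    have h6 : tau P.c = (1 + P.c ^ 2) / (1 - P.c ^ 2) := rfl
    have h7 : (0 : ℝ) < 1 - P.c ^ 2 := by nlinarith
    exact hneg (by rw [h6]; positivity)
  have h6 : Real.log (rr (Wk0 P ε (l, 0))) = Real.log (tau P.c) - Real.log (1 - X ^ 2) / 2 := by
    rw [h1, Real.log_div h5.ne' (Real.sqrt_pos.2 h4).ne', Real.log_sqrt h4.le]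
  have h7 : Real.log (1 - X ^ 2) ≤ 0 := Real.log_nonpos h4.le (by nlinarith [sq_nonneg X])
  have h8 : -Real.log (1 - X ^ 2) ≤ 2 * X ^ 2 := by
    rw [← Real.log_inv]
    have h9 : Real.log (1 - X ^ 2)⁻¹ ≤ (1 - X ^ 2)⁻¹ - 1 := Real.log_le_sub_one_of_pos (inv_pos.2 h4)
    have h10 : (1 - X ^ 2)⁻¹ - 1 = X ^ 2 / (1 - X ^ 2) := by
      field_simp
      ring
    refine h9.trans ?_
    rw [h10, div_le_iff₀ h4]
    nlinarith [sq_nonneg X]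
  rw [h6]
  constructor <;> linarith

theorem FnK_Y0 (h : P.Ok) (hε : 0 < ε) (hε' : ε ≤ 1 / 16) {l : ℝ} (hl : |l - 1 / 2| ≤ 1 / 4)
    (hX : |(Wk0 P ε (l, 0)).2 / rr (Wk0 P ε (l, 0))| ≤ 3 / 16) :
    0 < elli (Real.log (rr (Wk0 P ε (l, 0)))) ∧
      6 * elli (Real.log (rr (Wk0 P ε (l, 0)))) ≤ 21 / 10 * P.c ^ 2 + ((Wk0 P ε (l, 0)).2 / rr (Wk0 P ε (l, 0))) ^ 2 := by
  obtain ⟨h1, h2⟩ := FnK_log0 h hε hε' hl hX
  have hc := h.c_pos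
  have hc' : P.c ≤ 1 / 32 := by linarith [h.c_le, h.r₃_le, h.d₁_le]
  have hX2 : ((Wk0 P ε (l, 0)).2 / rr (Wk0 P ε (l, 0))) ^ 2 ≤ 9 / 256 := by
    have := abs_le.1 hX
    nlinarith
  have hpi := Real.pi_gt_three
  have h3 : |Real.log (rr (Wk0 P ε (l, 0)))| ≤ Real.pi / 4 := by
    rw [abs_of_pos h1]
    nlinarith
  rw [elli_small h3]
  constructor
  · positivity
  · rw [← mul_div_assoc, div_le_iff₀ (by positivity)]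
    nlinarith

/-- the symmetry `l ↦ 3/2 - l` -/
theorem FnK_sym (h : P.Ok) (hε : 0 < ε) (hε' : ε ≤ 1 / 16) (l : ℝ) :
    Wk0 P ε (l, 0) = (4000000 : ℝ) • Jv (Wk0 P ε (3 / 2 - l, 0)) := by
  have h1 := Wk0_J h hε hε' l (ζ := 0) (by simp)
  have h2 := Wk0_per (P := P) (ε := ε) (1 / 2 - l) 0 1
  rw [map_zero] at h1
  rw [show (1 / 2 - l + ((1 : ℤ) : ℝ)) = 3 / 2 - l by push_cast; ring] at h2
  rw [h1, h2]

theorem FnK_symr (h : P.Ok) (hε : 0 < ε) (hε' : ε ≤ 1 / 16) (l : ℝ) :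
    rr (Wk0 P ε (l, 0)) = 4000000 / rr (Wk0 P ε (3 / 2 - l, 0)) := by
  rw [FnK_sym h hε hε' l, rr_smul, rr_Jv, abs_of_pos (by norm_num : (0 : ℝ) < 4000000)]
  rfl

theorem FnK_symX (h : P.Ok) (hε : 0 < ε) (hε' : ε ≤ 1 / 16) (l : ℝ) :
    (Wk0 P ε (l, 0)).2 / rr (Wk0 P ε (l, 0)) = (Wk0 P ε (3 / 2 - l, 0)).2 / rr (Wk0 P ε (3 / 2 - l, 0)) := by
  rw [FnK_symr h hε hε' l, FnK_sym h hε hε' l]
  have h1 := rr_pos (FnK_ne h hε hε' (3 / 2 - l))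
  have h2 := rr_sq (Wk0 P ε (3 / 2 - l, 0))
  rw [Prod.smul_snd, smul_eq_mul, Jv]
  simp only
  rw [← h2]
  field_simp

theorem FnK_symY (h : P.Ok) (hε : 0 < ε) (hε' : ε ≤ 1 / 16) (l : ℝ) :
    elli (Real.log (rr (Wk0 P ε (l, 0)))) = 1 - elli (Real.log (rr (Wk0 P ε (3 / 2 - l, 0)))) := by
  rw [FnK_symr h hε hε' l, Real.log_div (by norm_num) (rr_pos (FnK_ne h hε hε' (3 / 2 - l))).ne']
  have h1 := elli_add (-Real.log (rr (Wk0 P ε (3 / 2 - l, 0)))) 1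
  rw [elli_neg, Int.cast_one, one_mul] at h1
  rw [sub_eq_add_neg, add_comm, h1]
  ring

theorem FnK_Y1 (h : P.Ok) (hε : 0 < ε) (hε' : ε ≤ 1 / 16) {l : ℝ} (hl : |l - 1| ≤ 1 / 4)
    (hX : |(Wk0 P ε (l, 0)).2 / rr (Wk0 P ε (l, 0))| ≤ 3 / 16) :
    0 < 1 - elli (Real.log (rr (Wk0 P ε (l, 0)))) ∧
      6 * (1 - elli (Real.log (rr (Wk0 P ε (l, 0))))) ≤ 21 / 10 * P.c ^ 2 + ((Wk0 P ε (l, 0)).2 / rr (Wk0 P ε (l, 0))) ^ 2 := by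
  have hl' : |3 / 2 - l - 1 / 2| ≤ 1 / 4 := by
    rw [show 3 / 2 - l - 1 / 2 = -(l - 1) by ring, abs_neg]
    exact hl
  rw [FnK_symX h hε hε' l] at hX
  have h1 := FnK_Y0 h hε hε' hl' hX
  rw [FnK_symX h hε hε' l, FnK_symY h hε hε' l, sub_sub_cancel]
  exact h1

/-- reduction of `l` modulo 1 -/
theorem FnK_mod (l : ℝ) : ∃ m : ℤ, |l + m - 1 / 2| ≤ 1 / 4 ∨ |l + m - 1| ≤ 1 / 4 := by
  refine ⟨-⌊l - 1 / 4⌋, ?_⟩
  have h1 := Int.floor_le (l - 1 / 4)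
  have h2 := Int.lt_floor_add_one (l - 1 / 4)
  push_cast
  rcases le_or_gt (l - ⌊l - 1 / 4⌋) (3 / 4) with h3 | h3
  · left
    rw [abs_le]
    constructor <;> linarith
  · right
    rw [abs_le]
    constructor <;> linarith

theorem Wk1_core (F : Fd P d₀ x₁ x₀ η b κ Ft) (hε : 0 < ε) (hε' : ε ≤ 1 / 16) (l : ℝ) :
    Wk1 P ε Ft (l, 0) = Rl (Wk0 P ε (l, 0)) := by
  have hne := FnK_ne F.ok hε hε' l
  refine F.str.off _ (Rl_ne hne) ?_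
  rintro ⟨⟨u, Y, X⟩, ⟨h1, h2⟩, h3⟩
  simp only at h1 h2 h3
  obtain ⟨hc0, hc1, hc2⟩ := FnK_c F
  have hd1 := F.ok.d₁_le
  have hx0 := F.x0
  have hx0d := F.x0d
  have hx16 : x₀ < 1 / 16 := lt_of_le_of_lt F.x0' F.x1'
  have hX1 : |X| < 1 := by linarith
  have h4 : (Wk0 P ε (l, 0)).2 / rr (Wk0 P ε (l, 0)) = X := by
    rw [← Rl_ratio hne, h3, cyl_snd hX1.le]
  have h5 := FnK_ccyl F.ok hε hε' l
  rw [h3, h4] at h5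
  obtain ⟨h6, -, m, h7⟩ := cyl_inj hX1 hX1 h5
  have hXs : X ^ 2 ≤ P.d₁ / 16 := by
    rw [← sq_abs]
    nlinarith [abs_nonneg X]
  obtain ⟨k, hk⟩ := FnK_mod l
  have hper : Wk0 P ε (l + k, 0) = Wk0 P ε (l, 0) := Wk0_per l 0 k
  have hX16 : |(Wk0 P ε (l, 0)).2 / rr (Wk0 P ε (l, 0))| ≤ 3 / 16 := by
    rw [h4]
    linarith
  have key : ∀ Z : ℝ, 0 < Z → 6 * Z ≤ 21 / 10 * P.c ^ 2 + X ^ 2 → Z ^ 2 < (3 / 4 * P.d₁) ^ 2 := by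
    intro Z hZ hZ'
    have h8 : P.c ^ 2 ≤ P.d₁ / 4 := by nlinarith
    have h9 : Z < 3 / 4 * P.d₁ := by nlinarith
    nlinarith
  rcases hk with hk | hk
  · have h8 := FnK_Y0 F.ok hε hε' hk (by rw [hper]; exact hX16)
    rw [hper, h4, h6] at h8
    have h9 := h2 (-m) 0
    have h10 := key Y h8.1 h8.2
    have h11 : u - ((-m : ℤ) : ℝ) = 0 := by
      push_cast
      linarith
    rw [h11, Int.cast_zero, sub_zero] at h9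
    linarith
  · have h8 := FnK_Y1 F.ok hε hε' hk (by rw [hper]; exact hX16)
    rw [hper, h4, h6] at h8
    have h9 := h2 (-m) 1
    have h10 := key (1 - Y) h8.1 h8.2
    have h11 : u - ((-m : ℤ) : ℝ) = 0 := by
      push_cast
      linarith
    rw [h11, Int.cast_one] at h9
    nlinarith

theorem cY (F : Fd P d₀ x₁ x₀ η b κ Ft) (hε : 0 < ε) (hε' : ε ≤ 1 / 16) (l : ℝ) :
    coY (Wk1 P ε Ft) l = elli (Real.log (rr (Wk0 P ε (l, 0)))) := by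
  unfold coY
  rw [Wk1_core F hε hε' l, Rl_rr (FnK_ne F.ok hε hε' l), Real.log_exp]

theorem cX (F : Fd P d₀ x₁ x₀ η b κ Ft) (hε : 0 < ε) (hε' : ε ≤ 1 / 16) (l : ℝ) :
    coX (Wk1 P ε Ft) l = (Wk0 P ε (l, 0)).2 / rr (Wk0 P ε (l, 0)) := by
  unfold coX
  rw [Wk1_core F hε hε' l, Rl_ratio (FnK_ne F.ok hε hε' l)]

end Pool.Agent.CHW
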