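import Pool.Agent.CHW.FnA
import Pool.Agent.CHW.FnB
import Pool.Agent.CHW.FnC

/-!
# CHW/FnM: existence of the chart
-/

open scoped Manifold ContDiff Topology
open Set Filter
open Complex (I normSq)

namespace Pool.Agent.CHW

open Pool.Agent.CSG (stp thc)
open Pool.Agent.RSG (ex)

theorem exists_Fd {d₀ x₁ : ℝ} (h0 : 0 < d₀) (h1 : 0 < x₁) (h2 : x₁ < 1 / 16) (h3 : d₀ ≤ 1 / 8) (h4 : x₁ ≤ d₀) :
    ∃ (P : Par) (x₀ η b κ : ℝ) (Ft : F3 → F3), Fd P d₀ x₁ x₀ η b κ Ft := by
  obtain ⟨r₃, G, hr, hP⟩ := exists_par (d₁ := d₀ / 2) (by linarith) (by linarith)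
  set P : Par := ⟨r₃ / 4, r₃, d₀ / 2, G⟩ with hPdef
  have ok : P.Ok := hP (r₃ / 4) (by linarith) le_rfl
  have hd1 : P.d₁ = d₀ / 2 := rfl
  set x₀ : ℝ := min x₁ (d₀ / 2) with hx₀
  have hx0 : 0 < x₀ := lt_min h1 (by linarith)
  have hx0' : x₀ ≤ x₁ := min_le_left _ _
  have hx0d : x₀ ≤ d₀ / 2 := min_le_right _ _
  obtain ⟨η, Ft, hS⟩ := exists_Ft ok hx0 (by linarith)
  have hη := hS.η_pos
  have hη1 : η ≤ 1 := by linarith [hS.η_lt]
  obtain ⟨b, hb, hb', hnb⟩ := near_b ok hη hη1
  obtain ⟨κ', hκ', hn0⟩ := near_0 ok hη hη1 hb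
  refine ⟨P, x₀, η, b, min κ' (min η 1), Ft, ?_⟩
  exact { ok := ok, d0 := h0, d0' := h3, d1 := hd1, x1 := h1, x1' := h2, x1d := h4, x0 := hx0, x0' := hx0', x0d := hx0d
          str := hS, b_pos := hb, b_lt := hb', nb := hnb
          κ_pos := lt_min hκ' (lt_min hη one_pos)
          κ_le := (min_le_right _ _).trans (min_le_right _ _)
          κη := (min_le_right _ _).trans (min_le_left _ _)
          n0 := fun u y t ht => hn0 u y t (ht.trans (min_le_left _ _)) }

theorem exists_WD {d₀ x₁ : ℝ} (h0 : 0 < d₀) (h1 : 0 < x₁) (h2 : x₁ < 1 / 16) (h3 : d₀ ≤ 1 / 8) (h4 : x₁ ≤ d₀) :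
    ∃ ε₀ : ℝ, 0 < ε₀ ∧ ∀ ε, 0 < ε → ε ≤ ε₀ → Nonempty (WD d₀ x₁ ε) := by
  obtain ⟨P, x₀, η, b, κ, Ft, F⟩ := exists_Fd h0 h1 h2 h3 h4
  refine ⟨min (b / 10) (min (d₀ / 5) (1 / 16)), ?_, ?_⟩
  · have := F.b_pos
    exact lt_min (by linarith) (lt_min (by linarith) (by norm_num))
  intro ε hε hle
  have e1 : 10 * ε ≤ b := by
    have := hle.trans (min_le_left _ _)
    linarith
  have e2 : 5 * ε ≤ d₀ := by
    have := hle.trans ((min_le_right _ _).trans (min_le_left _ _))
    linarith
  have e3 : ε ≤ 1 / 16 := hle.trans ((min_le_right _ _).trans (min_le_right _ _))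
  refine ⟨{ W := W1 P κ b Ft, Wb := Wb1 P ε Ft, Wk := Wk1 P ε Ft, th := fun t => κ * t
            d₀_pos := h0, x₁_pos := h1, x₁_lt := h2, ε_pos := hε, ε_le := e2, ε_le' := e3
            ne := fun q hq => W1_ne F hq
            loc := fun q hq => W1_loc F hq
            per_u := ?_, per_t := ?_, per_y := ?_
            inj := fun q q' hq hq' he => W1_inj F hq hq' he
            pos := fun u y t hq a b => W1_pos F hq a b
            neg := fun u y t hq a b => W1_neg F hq a b
            page0 := fun u y hq => W1_page0 F hq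
            page1 := fun u y hq => W1_page1 F hq
            collar := fun u y t ht hd => W1_collar F ht hd
            th_lt := ?_
            near0 := fun u y t m n hq ht hd => W1_near0 F hq ht hd
            near1 := fun u y n hq hy => W1_near1 F hq hy
            b_per := fun θ ζ => Wb1_per P ε Ft θ ζ
            b_loc := fun θ ζ hζ => Wb1_loc F hε e1 hζ
            b_glue := fun θ s t hs hs' => Wb1_glue F hε e1 hs hs'
            b_inj := fun θ ζ θ' ζ' n hζ hζ' he => Wb1_inj F hε e1 hζ hζ' he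
            b_zone := fun θ ζ hζ => Wb1_zone F hε e1 θ hζ
            b_disj := fun θ q n hq => Wb1_disj F θ n hq
            k_per := fun l ζ => Wk1_per P ε Ft l ζ
            k_loc := fun l ζ hζ => Wk1_loc F hε e3 hζ
            k_glue := fun l s u hs hs' => Wk1_glue F hε e3 hs hs'
            k_inj := fun l ζ l' ζ' n hζ hζ' he => Wk1_inj F hε e3 hζ hζ' he
            k_disj := fun l q n hq => Wk1_disj F hε e3 l n hq
            bk_disj := fun l θ n => bk1_disj F hε e3 l θ n
            cover := fun x hx => cover1 F hε e3 hx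
            core_im := c_im F hε e3
            core_re := c_re F hε e3
            core_pos := fun l a b => c_pos F hε e3 a b
            core_neg := fun l a b => c_neg F hε e3 a b
            core_Y1 := fun l a b => c_Y1 F hε e3 a b
            core_Y0 := fun l a b => c_Y0 F hε e3 a b
            core_X0 := fun l a b => c_X0 F hε e3 a b
            core_X1 := fun l a b => c_X1 F hε e3 a b
            core_near0 := fun l a b => c_near0 F hε e3 a b
            core_near1 := fun l a b => c_near1 F hε e3 a b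
            core_mid := c_mid F hε e3
            core_half := c_half F hε e3
            core_one := c_one F hε e3 }⟩
  · intro u y t hq
    have := W1_per F hq 1 0 0
    simpa using this
  · intro u y t hq
    have := W1_per F hq 0 0 1
    simpa using this
  · intro u y t hq
    have := W1_per F hq 0 1 0
    simpa using this
  · intro t ht
    have h5 := F.κη
    have h6 := F.str.η_lt
    have h7 := F.x0'
    have h8 := F.κ_pos
    rw [abs_mul, abs_of_pos h8]
    have h9 := abs_nonneg t
    nlinarith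

end Pool.Agent.CHW
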