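import Pool.Agent.CHW.XiM

/-!
# CHW/GtM: the correction `Gt`   (difficulty 2)

`Gt w = G⁻¹ (w - n i) + n i` if `|w - n i| < d₁`, `n = round (Im w)`, else `w`.  `G⁻¹ = id` for `|w| ≥ d₁/2` (`G_off`), `d₁ ≤ 1/8`, so with
`Hn w := G⁻¹ (w - n i) + n i` we have `Gt = Hn` on `|w - n i| < d₁` (then `n = round (Im w)`) and `Gt = id` on the open set of points with distance `> d₁/2` to `iℤ`; the two
formulas agree on the overlap.  The discs `|w - n i| < d₁` are disjoint and preserved by `G⁻¹` (which is a bijection and the identity off `d₁/2`).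
So `Gt` is a bijection, a local diffeomorphism, commutes with `w ↦ w + i` and `w ↦ -w` (`round (-x) = - round x` unless `x` is a half integer, where
the distance to `iℤ` is `≥ 1/2`; `G_odd`), and preserves `{|Re w| < 1/2}` (the discs are contained in it).
`Gt_tanh`: `n = 0`: `‖w‖ ≤ r₃ ≤ d₁`; if `‖w‖ = r₃ = d₁` then `Gt w = w = G⁻¹ w` as well (`G_off`).
-/

open scoped Manifold ContDiff Topology
open Set Filter
open Complex (I normSq)

namespace Pool.Agent.CHW

open Pool.Agent.CSG (stp thc)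
open Pool.Agent.RSG (ex)

variable {P : Par}

theorem GtM_d₁_pos (h : P.Ok) : 0 < P.d₁ := h.r₃_pos.trans_le h.r₃_le

theorem GtM_im (w : ℂ) (n : ℤ) : (w - n * I).im = w.im - n ∧ (w - n * I).re = w.re := by
  constructor <;> simp

theorem GtM_round {w : ℂ} {n : ℤ} (h : ‖w - n * I‖ < 1 / 2) : round w.im = n := by
  have h1 : |w.im - n| < 1 / 2 := by
    have := Complex.abs_im_le_norm (w - n * I)
    rw [(GtM_im w n).1] at this
    linarith
  obtain ⟨h2, h3⟩ := abs_lt.1 h1
  have h4 : round (w.im - n) = 0 := by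
    rw [round_eq_zero_iff]
    exact ⟨by linarith, by linarith⟩
  have h5 : round (w.im - n) = round w.im - n := round_sub_intCast w.im n
  omega

theorem GtM_symm_off (h : P.Ok) {v : ℂ} (hv : P.d₁ / 2 ≤ ‖v‖) : P.G.symm v = v := by
  rw [Equiv.symm_apply_eq]
  exact (h.G_off v hv).symm

theorem GtM_symm_lt (h : P.Ok) {v : ℂ} {a : ℝ} (ha : P.d₁ / 2 ≤ a) : ‖P.G.symm v‖ < a ↔ ‖v‖ < a := by
  constructor
  · intro h1
    by_contra h2
    rw [GtM_symm_off h (ha.trans (not_lt.1 h2))] at h1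
    exact h2 h1
  · intro h1
    by_contra h2
    have h3 := h.G_off _ (ha.trans (not_lt.1 h2))
    rw [Equiv.apply_symm_apply] at h3
    rw [← h3] at h2
    exact h2 h1

theorem GtM_symm_neg (h : P.Ok) (v : ℂ) : P.G.symm (-v) = -P.G.symm v := by
  rw [Equiv.symm_apply_eq, h.G_odd, Equiv.apply_symm_apply]

theorem GtM_symm_zero (h : P.Ok) : P.G.symm 0 = 0 := by
  have h1 := GtM_symm_neg h 0
  rw [neg_zero] at h1
  have h2 : (2 : ℂ) * P.G.symm 0 = 0 := by linear_combination h1
  simpa using h2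

theorem GtM_in (h : P.Ok) {w : ℂ} {n : ℤ} (hw : ‖w - n * I‖ < P.d₁) :
    Gt P w = P.G.symm (w - n * I) + n * I := by
  have h1 : round w.im = n := GtM_round (hw.trans_le (h.d₁_le.trans (by norm_num)))
  unfold Gt
  rw [h1, if_pos hw]

theorem GtM_cases (w : ℂ) : (∃ n : ℤ, ‖w - n * I‖ < P.d₁) ∨ ∀ n : ℤ, P.d₁ ≤ ‖w - n * I‖ := by
  by_cases h : ∃ n : ℤ, ‖w - n * I‖ < P.d₁
  · exact Or.inl h
  · right
    intro n
    by_contra h1
    exact h ⟨n, not_le.1 h1⟩

theorem Gt_off (h : P.Ok) {w : ℂ} (hw : ∀ n : ℤ, P.d₁ / 2 ≤ ‖w - n * I‖) : Gt P w = w := by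
  rcases GtM_cases (P := P) w with ⟨n, hn⟩ | h1
  · rw [GtM_in h hn, GtM_symm_off h (hw n)]
    ring
  · unfold Gt
    rw [if_neg (not_lt.2 (h1 _))]

theorem GtM_far (h : P.Ok) {w : ℂ} (hw : ∀ n : ℤ, P.d₁ ≤ ‖w - n * I‖) : Gt P w = w :=
  Gt_off h fun n => by
    have := hw n
    have := GtM_d₁_pos h
    linarith [hw n]

theorem GtM_uniq (h : P.Ok) {w : ℂ} {m n : ℤ} (h1 : ‖w - m * I‖ < P.d₁) (h2 : ‖w - n * I‖ < P.d₁) :
    m = n := by
  have e1 := GtM_round (h1.trans_le (h.d₁_le.trans (by norm_num)))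
  have e2 := GtM_round (h2.trans_le (h.d₁_le.trans (by norm_num)))
  rw [← e1, e2]

theorem Gt_disc (h : P.Ok) {w : ℂ} (n : ℤ) : ‖Gt P w - n * I‖ < P.d₁ ↔ ‖w - n * I‖ < P.d₁ := by
  have hd := GtM_d₁_pos h
  rcases GtM_cases (P := P) w with ⟨m, hm⟩ | h1
  · have h2 : ‖Gt P w - m * I‖ < P.d₁ := by
      rw [GtM_in h hm, add_sub_cancel_right]
      exact (GtM_symm_lt h (by linarith)).2 hm
    constructor
    · intro h3
      rw [← GtM_uniq h h2 h3]
      exact hm
    · intro h3
      rw [← GtM_uniq h hm h3]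
      exact h2
  · rw [GtM_far h h1]

theorem Gt_bij (h : P.Ok) : Function.Bijective (Gt P) := by
  have hd := GtM_d₁_pos h
  constructor
  · intro w w' he
    rcases GtM_cases (P := P) w with ⟨m, hm⟩ | h1
    · have h2 := (Gt_disc h m).2 hm
      rw [he] at h2
      have h3 := (Gt_disc h m).1 h2
      rw [GtM_in h hm, GtM_in h h3] at he
      have h4 := P.G.symm.injective (add_right_cancel he)
      exact sub_left_injective h4
    · have h2 : ∀ n : ℤ, P.d₁ ≤ ‖w' - n * I‖ := by
        intro n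
        by_contra h3
        have h4 := (Gt_disc h n).2 (not_le.1 h3)
        rw [← he] at h4
        exact absurd ((Gt_disc h n).1 h4) (not_lt.2 (h1 n))
      rw [GtM_far h h1, GtM_far h h2] at he
      exact he
  · intro y
    rcases GtM_cases (P := P) y with ⟨m, hm⟩ | h1
    · refine ⟨P.G (y - m * I) + m * I, ?_⟩
      have h2 : ‖(P.G (y - m * I) + m * I) - m * I‖ < P.d₁ := by
        rw [add_sub_cancel_right, ← GtM_symm_lt h (by linarith), Equiv.symm_apply_apply]
        exact hm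
      rw [GtM_in h h2, add_sub_cancel_right, Equiv.symm_apply_apply]
      ring
    · exact ⟨y, GtM_far h h1⟩

theorem Gt_ld (h : P.Ok) (w : ℂ) : LD (Gt P) w := by
  have hd := GtM_d₁_pos h
  rcases GtM_cases (P := P) w with ⟨m, hm⟩ | h1
  · let e : ℂ ≃ ℂ := ⟨fun w => P.G.symm (w - m * I) + m * I, fun w => P.G (w - m * I) + m * I,
      fun w => by simp, fun w => by simp⟩
    have h2 : LD e w := by
      apply Pool.Agent.CSG.ld_of_perm
      · exact (h.G_symm.comp (contDiff_id.sub contDiff_const)).add contDiff_const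
      · exact (h.G_smooth.comp (contDiff_id.sub contDiff_const)).add contDiff_const
    apply Pool.Agent.CSG.ld_congr h2
    have h3 : IsOpen {w : ℂ | ‖w - m * I‖ < P.d₁} :=
      isOpen_lt (by fun_prop) continuous_const
    filter_upwards [h3.mem_nhds hm] with y hy
    exact GtM_in h hy
  · apply Pool.Agent.CSG.ld_congr (Pool.Agent.CSG.ld_id w)
    filter_upwards [Metric.ball_mem_nhds w (by linarith : 0 < P.d₁ / 2)] with y hy
    apply Gt_off h
    intro n
    have h2 := h1 n
    rw [Metric.mem_ball, dist_eq_norm] at hy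
    have h3 : ‖w - n * I‖ ≤ ‖y - n * I‖ + ‖y - w‖ := by
      have : w - n * I = (y - n * I) - (y - w) := by ring
      rw [this]
      exact norm_sub_le _ _
    linarith

theorem Gt_per (h : P.Ok) (w : ℂ) (n : ℤ) : Gt P (w + n * I) = Gt P w + n * I := by
  have e : ∀ m : ℤ, w + n * I - ((m + n : ℤ) : ℂ) * I = w - m * I := by
    intro m
    push_cast
    ring
  rcases GtM_cases (P := P) w with ⟨m, hm⟩ | h1
  · have h2 : ‖w + n * I - ((m + n : ℤ) : ℂ) * I‖ < P.d₁ := by
      rw [e]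
      exact hm
    rw [GtM_in h hm, GtM_in h h2, e]
    push_cast
    ring
  · rw [GtM_far h h1, GtM_far h]
    intro m
    have := h1 (m - n)
    rw [← e (m - n), sub_add_cancel] at this
    exact this

theorem GtM_neg_norm (w : ℂ) (m : ℤ) : ‖-w - ((-m : ℤ) : ℂ) * I‖ = ‖w - m * I‖ := by
  rw [← norm_neg]
  congr 1
  push_cast
  ring

theorem Gt_neg (h : P.Ok) (w : ℂ) : Gt P (-w) = -Gt P w := by
  rcases GtM_cases (P := P) w with ⟨m, hm⟩ | h1
  · have h2 : ‖-w - ((-m : ℤ) : ℂ) * I‖ < P.d₁ := by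
      rw [GtM_neg_norm]
      exact hm
    rw [GtM_in h hm, GtM_in h h2]
    have h3 : -w - ((-m : ℤ) : ℂ) * I = -(w - m * I) := by
      push_cast
      ring
    rw [h3, GtM_symm_neg h]
    push_cast
    ring
  · rw [GtM_far h h1, GtM_far h]
    intro m
    have := h1 (-m)
    rw [← GtM_neg_norm, neg_neg] at this
    exact this

theorem Gt_re (h : P.Ok) {w : ℂ} : |(Gt P w).re| < 1 / 2 ↔ |w.re| < 1 / 2 := by
  have hd := h.d₁_le
  rcases GtM_cases (P := P) w with ⟨m, hm⟩ | h1
  · have h2 := (Gt_disc h m).2 hm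
    have h3 : ∀ v : ℂ, ‖v - m * I‖ < P.d₁ → |v.re| < 1 / 2 := by
      intro v hv
      have := Complex.abs_re_le_norm (v - m * I)
      rw [(GtM_im v m).2] at this
      linarith
    exact ⟨fun _ => h3 _ hm, fun _ => h3 _ h2⟩
  · rw [GtM_far h h1]

theorem GtM_lat (h : P.Ok) (n : ℤ) : Gt P (n * I) = n * I := by
  have hd := GtM_d₁_pos h
  rw [GtM_in h (n := n) (by simpa using hd), sub_self, GtM_symm_zero h, zero_add]

theorem Gt_lat (h : P.Ok) {w : ℂ} : LatI (Gt P w) ↔ LatI w := by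
  constructor
  · rintro ⟨n, hn⟩
    exact ⟨n, (Gt_bij h).1 (by rw [hn, GtM_lat h])⟩
  · rintro ⟨n, rfl⟩
    exact ⟨n, GtM_lat h n⟩

theorem Gt_tanh (h : P.Ok) {w : ℂ} (hw : ‖w‖ ≤ P.r₃) :
    Complex.tanh (Real.pi * Gt P w) = Real.pi * w := by
  have hd := GtM_d₁_pos h
  have h1 : Gt P w = P.G.symm w := by
    rcases lt_or_ge ‖w‖ P.d₁ with h2 | h2
    · have h3 := GtM_in h (w := w) (n := 0) (by simpa using h2)
      simpa using h3
    · rw [GtM_symm_off h (by linarith)]
      rcases GtM_cases (P := P) w with ⟨m, hm⟩ | h3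
      · have h4 : round w.im = m := GtM_round (hm.trans_le (h.d₁_le.trans (by norm_num)))
        have h5 : round w.im = 0 := by
          apply GtM_round
          have := h.r₃_le
          have := h.d₁_le
          simp only [Int.cast_zero, zero_mul, sub_zero]
          linarith
        rw [h5] at h4
        subst h4
        simp only [Int.cast_zero, zero_mul, sub_zero] at hm
        linarith
      · exact GtM_far h h3
  rw [h1]
  exact h.G_eq w hw

end Pool.Agent.CHW
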