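import Pool.Agent.CHW.Defs

/-!
# CHW/Jm: elementary properties of `q2`, `rr`, `Jv`, `tv`, `mir`, `cjv`   (difficulty 2)

All statements are short computations.  `q2 (Jv x) = q2 x / (q2 x)² = (q2 x)⁻¹` also for `x = 0` (both sides are `0`).
Local diffeomorphisms: `CSG.ld_of_perm` (for `tv a`, `a • ·`, `mir`, `cjv`: smooth with smooth inverse); `Jv` : `RSG.ld_left`
with `g = Jv`, or `CSG`/`RSG` tools: `Jv` is smooth at every `x ≠ 0` and `Jv (Jv x) = x`.
`rr_lip` : triangle inequality of the euclidean norm, e.g. `rr x = ‖WithLp.toLp 2 x‖` or by Cauchy-Schwarz.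
-/

open scoped Manifold ContDiff Topology
open Set Filter
open Complex (I normSq)

namespace Pool.Agent.CHW

open Pool.Agent.CSG (stp thc)
open Pool.Agent.RSG (ex)

theorem le_of_sq_le_sq_jm {a b : ℝ} (h : a ^ 2 ≤ b ^ 2) (hb : 0 ≤ b) : a ≤ b := by
  by_contra hc
  push_neg at hc
  have := pow_lt_pow_left₀ hc hb two_ne_zero
  linarith
theorem q2_nonneg (x : F3) : 0 ≤ q2 x := add_nonneg (Complex.normSq_nonneg _) (sq_nonneg _)

theorem q2_eq_zero {x : F3} : q2 x = 0 ↔ x = 0 := by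
  constructor
  · intro h
    unfold q2 at h
    have h1 := Complex.normSq_nonneg x.1
    have h2 := sq_nonneg x.2
    have h3 : normSq x.1 = 0 := by linarith
    have h4 : x.2 ^ 2 = 0 := by linarith
    exact Prod.ext (Complex.normSq_eq_zero.1 h3) (pow_eq_zero_iff (two_ne_zero) |>.1 h4)
  · rintro rfl
    simp [q2]
theorem q2_pos {x : F3} (h : x ≠ 0) : 0 < q2 x :=
  lt_of_le_of_ne (q2_nonneg x) (fun he => h (q2_eq_zero.1 he.symm))
theorem q2_smooth : ContDiff ℝ ∞ q2 := by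
  have e : q2 = fun x : F3 => ‖x.1‖ ^ 2 + x.2 ^ 2 := by
    funext x
    simp only [q2, Complex.normSq_eq_norm_sq]
  rw [e]
  exact ((contDiff_norm_sq ℝ).comp contDiff_fst).add (contDiff_snd.pow 2)
theorem rr_sq (x : F3) : rr x ^ 2 = q2 x := Real.sq_sqrt (q2_nonneg x)
theorem rr_nonneg (x : F3) : 0 ≤ rr x := Real.sqrt_nonneg _
theorem rr_pos {x : F3} (h : x ≠ 0) : 0 < rr x := Real.sqrt_pos.2 (q2_pos h)
theorem rr_eq_zero {x : F3} : rr x = 0 ↔ x = 0 := by
  unfold rr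
  rw [Real.sqrt_eq_zero (q2_nonneg x), q2_eq_zero]
theorem rr_smooth {x : F3} (h : x ≠ 0) : ContDiffAt ℝ ∞ rr x :=
  q2_smooth.contDiffAt.sqrt (q2_pos h).ne'
theorem rr_cont : Continuous rr := Real.continuous_sqrt.comp q2_smooth.continuous
theorem rr_le_iff {x : F3} {a : ℝ} (ha : 0 ≤ a) : rr x ≤ a ↔ q2 x ≤ a ^ 2 := by
  rw [← rr_sq]
  constructor
  · intro h
    exact pow_le_pow_left₀ (rr_nonneg x) h 2
  · intro h
    exact le_of_sq_le_sq_jm h ha
theorem rr_lt_iff {x : F3} {a : ℝ} (ha : 0 ≤ a) : rr x < a ↔ q2 x < a ^ 2 := by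
  rw [← rr_sq]
  constructor
  · intro h
    exact pow_lt_pow_left₀ h (rr_nonneg x) two_ne_zero
  · intro h
    by_contra hc
    exact absurd (pow_le_pow_left₀ ha (not_lt.1 hc) 2) (not_le.2 h)
theorem norm_le_rr (x : F3) : ‖x.1‖ ≤ rr x := by
  apply Real.le_sqrt_of_sq_le
  unfold q2
  rw [Complex.normSq_eq_norm_sq]
  nlinarith [sq_nonneg x.2]
theorem abs_le_rr (x : F3) : |x.2| ≤ rr x := by
  apply Real.le_sqrt_of_sq_le
  rw [sq_abs]
  unfold q2
  linarith [Complex.normSq_nonneg x.1]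
theorem rr_le_add (x : F3) : rr x ≤ ‖x.1‖ + |x.2| := by
  rw [rr_le_iff (by positivity)]
  unfold q2
  rw [Complex.normSq_eq_norm_sq, add_sq, sq_abs]
  have := mul_nonneg (norm_nonneg x.1) (abs_nonneg x.2)
  linarith
theorem rr_eq_norm (x : F3) : rr x = ‖WithLp.toLp 2 x‖ := by
  rw [WithLp.prod_norm_eq_of_L2]
  unfold rr q2
  rw [Complex.normSq_eq_norm_sq]
  simp
theorem rr_lip (x y : F3) : |rr x - rr y| ≤ rr (x - y) := by
  rw [rr_eq_norm, rr_eq_norm, rr_eq_norm, WithLp.toLp_sub]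
  exact abs_norm_sub_norm_le _ _
theorem q2_smul (a : ℝ) (x : F3) : q2 (a • x) = a ^ 2 * q2 x := by
  unfold q2
  simp only [Prod.smul_fst, Prod.smul_snd, Complex.real_smul, smul_eq_mul, Complex.normSq_mul, Complex.normSq_ofReal]
  ring
theorem rr_smul (a : ℝ) (x : F3) : rr (a • x) = |a| * rr x := by
  unfold rr
  rw [q2_smul, Real.sqrt_mul (sq_nonneg a), Real.sqrt_sq_eq_abs]

theorem q2_mir (x : F3) : q2 (mir x) = q2 x := by simp [q2, mir]
theorem q2_cjv (x : F3) : q2 (cjv x) = q2 x := by simp [q2, cjv, Complex.normSq_conj]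
theorem rr_mir (x : F3) : rr (mir x) = rr x := by rw [rr, q2_mir, rr]
theorem rr_cjv (x : F3) : rr (cjv x) = rr x := by rw [rr, q2_cjv, rr]


theorem q2_Jv (x : F3) : q2 (Jv x) = (q2 x)⁻¹ := by
  rcases eq_or_ne x 0 with rfl | h
  · simp [q2, Jv]
  have hq := (q2_pos h).ne'
  have e : q2 (Jv x) = q2 x / q2 x ^ 2 := by
    have e1 : q2 (Jv x) = normSq x.1 / (q2 x * q2 x) + (x.2 / q2 x) ^ 2 := by
      simp only [Jv]
      rw [q2, Complex.normSq_div, Complex.normSq_conj, Complex.normSq_ofReal]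
    have e2 : q2 x / q2 x ^ 2 = (normSq x.1 + x.2 ^ 2) / q2 x ^ 2 := rfl
    rw [e1, e2]
    field_simp
  rw [e]
  field_simp
theorem rr_Jv (x : F3) : rr (Jv x) = (rr x)⁻¹ := by
  unfold rr
  rw [q2_Jv, Real.sqrt_inv]
theorem Jv_Jv (x : F3) : Jv (Jv x) = x := by
  rcases eq_or_ne x 0 with rfl | h
  · simp [Jv]
  have hq := (q2_pos h).ne'
  have hqc : ((q2 x : ℝ) : ℂ) ≠ 0 := by exact_mod_cast hq
  have e : Jv (Jv x) = ((starRingEnd ℂ) (Jv x).1 / (q2 (Jv x) : ℝ), (Jv x).2 / q2 (Jv x)) := rfl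
  rw [e, q2_Jv]
  apply Prod.ext
  · simp only [Jv, map_div₀, Complex.conj_conj, Complex.conj_ofReal, Complex.ofReal_inv]
    field_simp
  · simp only [Jv]
    field_simp
theorem Jv_zero : Jv 0 = 0 := by simp [Jv]
theorem Jv_ne {x : F3} (h : x ≠ 0) : Jv x ≠ 0 := by
  intro he
  apply h
  rw [← Jv_Jv x, he, Jv_zero]
theorem Jv_smul (a : ℝ) (x : F3) : Jv (a • x) = a⁻¹ • Jv x := by
  rcases eq_or_ne a 0 with rfl | ha
  · simp [Jv]
  rcases eq_or_ne x 0 with rfl | h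
  · simp [Jv]
  have hq := (q2_pos h).ne'
  have hqc : ((q2 x : ℝ) : ℂ) ≠ 0 := by exact_mod_cast hq
  have hac : ((a : ℝ) : ℂ) ≠ 0 := by exact_mod_cast ha
  apply Prod.ext
  · simp only [Jv, q2_smul, Prod.smul_fst, Complex.real_smul, map_mul, Complex.conj_ofReal, Complex.ofReal_mul,
      Complex.ofReal_pow, Complex.ofReal_inv]
    field_simp
  · simp only [Jv, q2_smul, Prod.smul_snd, smul_eq_mul]
    field_simp
theorem Jv_mir (x : F3) : Jv (mir x) = mir (Jv x) := by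
  unfold Jv
  rw [q2_mir]
  simp only [mir]
  rw [neg_div]
theorem Jv_cjv (x : F3) : Jv (cjv x) = cjv (Jv x) := by
  unfold Jv
  rw [q2_cjv]
  simp only [cjv, map_div₀, Complex.conj_ofReal]
theorem mir_mir (x : F3) : mir (mir x) = x := by simp [mir]
theorem cjv_cjv (x : F3) : cjv (cjv x) = x := by simp [cjv]
theorem Jv_snd_pos {x : F3} : 0 < (Jv x).2 ↔ 0 < x.2 := by
  rcases eq_or_ne x 0 with rfl | h
  · simp [Jv]
  have hq := q2_pos h
  simp only [Jv]
  constructor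
  · intro h1
    have h2 := mul_pos h1 hq
    rwa [div_mul_cancel₀ _ hq.ne'] at h2
  · intro h1
    exact div_pos h1 hq
theorem Jv_snd_zero {x : F3} : (Jv x).2 = 0 ↔ x.2 = 0 := by
  rcases eq_or_ne x 0 with rfl | h
  · simp [Jv]
  have hq := (q2_pos h).ne'
  simp only [Jv, div_eq_zero_iff, hq, or_false]
theorem Jm_conj_smooth : ContDiff ℝ ∞ (fun z : ℂ => (starRingEnd ℂ) z) := Complex.conjCLE.contDiff
theorem Jv_smooth {x : F3} (h : x ≠ 0) : ContDiffAt ℝ ∞ Jv x := by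
  have hq := (q2_pos h).ne'
  have hqc : ((q2 x : ℝ) : ℂ) ≠ 0 := by exact_mod_cast hq
  have h1 : ContDiffAt ℝ ∞ (fun y : F3 => (starRingEnd ℂ) y.1) x :=
    (Jm_conj_smooth.comp contDiff_fst).contDiffAt
  have h2 : ContDiffAt ℝ ∞ (fun y : F3 => ((q2 y : ℝ) : ℂ)) x :=
    (Complex.ofRealCLM.contDiff.comp q2_smooth).contDiffAt
  have h3 : ContDiffAt ℝ ∞ (fun y : F3 => y.2) x := contDiff_snd.contDiffAt
  have h4 : ContDiffAt ℝ ∞ (fun y : F3 => (starRingEnd ℂ) y.1 * ((q2 y : ℝ) : ℂ)⁻¹) x := h1.mul (h2.inv hqc)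
  have e : Jv = fun y : F3 => ((starRingEnd ℂ) y.1 * ((q2 y : ℝ) : ℂ)⁻¹, y.2 / q2 y) := by
    funext y
    rw [← div_eq_mul_inv]
    rfl
  rw [e]
  exact h4.prodMk (h3.div q2_smooth.contDiffAt hq)
theorem Jv_ld {x : F3} (h : x ≠ 0) : LD Jv x := by
  apply Pool.Agent.RSG.ld_left (g := Jv) _ rfl ((Jv_smooth (Jv_ne h)).differentiableAt (by simp))
    (Filter.Eventually.of_forall Jv_Jv)
  filter_upwards [isOpen_ne.mem_nhds h] with y hy using Jv_smooth hy
theorem Jm_tv_smooth (a : ℝ) : ContDiff ℝ ∞ (tv a) := by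
  unfold tv
  fun_prop
theorem tv_tv (a b : ℝ) (x : F3) : tv a (tv b x) = tv (a + b) x := by
  simp only [tv]
  apply Prod.ext
  · push_cast
    ring
  · rfl
theorem tv_zero (x : F3) : tv 0 x = x := by simp [tv]
theorem tv_neg (a : ℝ) (x : F3) : tv (-a) (tv a x) = x := by rw [tv_tv, neg_add_cancel, tv_zero]
theorem tv_neg' (a : ℝ) (x : F3) : tv a (tv (-a) x) = x := by rw [tv_tv, add_neg_cancel, tv_zero]
theorem tv_ld (a : ℝ) (x : F3) : LD (tv a) x :=
  Pool.Agent.CSG.ld_of_perm (f := (⟨tv a, tv (-a), tv_neg a, tv_neg' a⟩ : F3 ≃ F3)) (Jm_tv_smooth a)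
    (Jm_tv_smooth (-a)) x




theorem smul_ld {a : ℝ} (ha : a ≠ 0) (x : F3) : LD (fun y : F3 => a • y) x :=
  Pool.Agent.CSG.ld_of_perm (f := (⟨fun y : F3 => a • y, fun y : F3 => a⁻¹ • y,
    fun y => inv_smul_smul₀ ha y, fun y => smul_inv_smul₀ ha y⟩ : F3 ≃ F3)) (contDiff_const_smul a)
    (contDiff_const_smul a⁻¹) x
theorem Jm_mir_smooth : ContDiff ℝ ∞ mir := by
  unfold mir
  fun_prop
theorem Jm_cjv_smooth : ContDiff ℝ ∞ cjv := by
  unfold cjv
  exact (Jm_conj_smooth.comp contDiff_fst).prodMk contDiff_snd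
theorem mir_ld (x : F3) : LD mir x :=
  Pool.Agent.CSG.ld_of_perm (f := (⟨mir, mir, mir_mir, mir_mir⟩ : F3 ≃ F3)) Jm_mir_smooth Jm_mir_smooth x
theorem cjv_ld (x : F3) : LD cjv x :=
  Pool.Agent.CSG.ld_of_perm (f := (⟨cjv, cjv, cjv_cjv, cjv_cjv⟩ : F3 ≃ F3)) Jm_cjv_smooth Jm_cjv_smooth x

/-! ## complex versions -/

theorem JC_JC (X : ℂ) : JC (JC X) = X := by simp [JC]
theorem JC_zero : JC 0 = 0 := by simp [JC]
theorem JC_ne {X : ℂ} (h : X ≠ 0) : JC X ≠ 0 := by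
  simp [JC, h]
theorem norm_JC (X : ℂ) : ‖JC X‖ = ‖X‖⁻¹ := by simp [JC]
theorem JC_smul (a : ℝ) (X : ℂ) : JC ((a : ℂ) * X) = ((a⁻¹ : ℝ) : ℂ) * JC X := by
  simp [JC]
  ring
theorem Jm_JC_smooth {X : ℂ} (h : X ≠ 0) : ContDiffAt ℝ ∞ JC X := by
  have hc : (starRingEnd ℂ) X ≠ 0 := by simpa using h
  have e : JC = fun X : ℂ => ((starRingEnd ℂ) X)⁻¹ := by
    funext X
    exact one_div _
  rw [e]
  exact Jm_conj_smooth.contDiffAt.inv hc
theorem JC_ld {X : ℂ} (h : X ≠ 0) : LD JC X := by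
  apply Pool.Agent.RSG.ld_left (g := JC) _ rfl ((Jm_JC_smooth (JC_ne h)).differentiableAt (by simp))
    (Filter.Eventually.of_forall JC_JC)
  filter_upwards [isOpen_ne.mem_nhds h] with y hy using Jm_JC_smooth hy

/-- the point of the half plane with angle `2πu` -/
noncomputable def pol (u : ℝ) (X : ℂ) : F3 := ((X.re : ℂ) * ex u, X.im)

theorem Jm_q2_pol (u : ℝ) (X : ℂ) : q2 (pol u X) = normSq X := by
  simp only [q2, pol, Complex.normSq_mul, Complex.normSq_ofReal]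
  rw [Complex.normSq_eq_norm_sq (ex u), Pool.Agent.RSG.ex_norm, Complex.normSq_apply X]
  ring
theorem rr_pol (u : ℝ) (X : ℂ) : rr (pol u X) = ‖X‖ := by
  rw [rr, Jm_q2_pol, Complex.normSq_eq_norm_sq, Real.sqrt_sq (norm_nonneg X)]
theorem pol_smul (a u : ℝ) (X : ℂ) : pol u ((a : ℂ) * X) = a • pol u X := by
  apply Prod.ext
  · simp only [pol, Prod.smul_fst, Complex.real_smul, Complex.re_ofReal_mul, Complex.ofReal_mul]
    ring
  · simp only [pol, Prod.smul_snd, Complex.im_ofReal_mul, smul_eq_mul]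
/-- `Jv` conjugates the angle -/
theorem Jv_pol (u : ℝ) (X : ℂ) : Jv (pol u X) = pol (-u) (JC X) := by
  have e1 : (JC X).re = X.re / normSq X := by
    simp only [JC, one_div, Complex.inv_re, Complex.conj_re, Complex.normSq_conj]
  have e2 : (JC X).im = X.im / normSq X := by
    simp only [JC, one_div, Complex.inv_im, Complex.conj_im, Complex.normSq_conj, neg_neg]
  apply Prod.ext
  · simp only [Jv]
    rw [Jm_q2_pol]
    simp only [pol, e1, map_mul, Complex.conj_ofReal, Pool.Agent.RSG.ex_neg, Complex.ofReal_div]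
    ring
  · simp only [Jv]
    rw [Jm_q2_pol]
    simp only [pol, e2]
theorem mir_pol (u : ℝ) (X : ℂ) : mir (pol u X) = pol u ((starRingEnd ℂ) X) := by
  simp [mir, pol]
theorem cjv_pol (u : ℝ) (X : ℂ) : cjv (pol u X) = pol (-u) X := by
  simp only [cjv, pol, map_mul, Complex.conj_ofReal, Pool.Agent.RSG.ex_neg]
/-- polar coordinates (`RSG.ex_log` gives a smooth local inverse of `ex`) -/
theorem Jm_pol_smooth : ContDiff ℝ ∞ (fun q : ℝ × ℂ => pol q.1 q.2) := by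
  have h1 : ContDiff ℝ ∞ (fun q : ℝ × ℂ => ((q.2.re : ℝ) : ℂ)) :=
    Complex.ofRealCLM.contDiff.comp (Complex.reCLM.contDiff.comp contDiff_snd)
  have h2 : ContDiff ℝ ∞ (fun q : ℝ × ℂ => ex q.1) := Pool.Agent.RSG.ex_smooth.comp contDiff_fst
  have h3 : ContDiff ℝ ∞ (fun q : ℝ × ℂ => q.2.im) := Complex.imCLM.contDiff.comp contDiff_snd
  exact (h1.mul h2).prodMk h3
theorem pol_ld {u : ℝ} {X : ℂ} (h : 0 < X.re) : LD (fun q : ℝ × ℂ => pol q.1 q.2) (u, X) := by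
  let g : F3 → ℝ × ℂ := fun x =>
    (u + (Complex.log (x.1 * ex (-u))).im / (2 * Real.pi),
      (((‖x.1‖ : ℝ) : ℂ) + ((x.2 : ℝ) : ℂ) * I))
  have hw : (pol u X).1 * ex (-u) = (X.re : ℝ) := by
    simp only [pol]
    rw [mul_assoc, ← Pool.Agent.RSG.ex_add, add_neg_cancel, Pool.Agent.RSG.ex_zero, mul_one]
  have hne : (pol u X).1 ≠ 0 := by
    simp only [pol]
    refine mul_ne_zero ?_ (Pool.Agent.RSG.ex_ne u)
    exact_mod_cast h.ne'
  have hg : DifferentiableAt ℝ g (pol u X) := by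
    have a1 : DifferentiableAt ℝ (fun x : F3 => x.1 * ex (-u)) (pol u X) :=
      differentiableAt_fst.mul_const _
    have a2 : DifferentiableAt ℝ Complex.log ((fun x : F3 => x.1 * ex (-u)) (pol u X)) := by
      show DifferentiableAt ℝ Complex.log ((pol u X).1 * ex (-u))
      apply DifferentiableAt.restrictScalars ℝ (𝕜' := ℂ)
      apply Complex.differentiableAt_log
      rw [hw]
      exact Complex.ofReal_mem_slitPlane.2 h
    have a3 : DifferentiableAt ℝ (fun x : F3 => Complex.log (x.1 * ex (-u))) (pol u X) :=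
      DifferentiableAt.fun_comp' (pol u X) a2 a1
    have a4 : DifferentiableAt ℝ (fun x : F3 => (Complex.log (x.1 * ex (-u))).im) (pol u X) :=
      Complex.imCLM.differentiableAt.comp (pol u X) a3
    have a5 : DifferentiableAt ℝ (fun x : F3 => ‖x.1‖) (pol u X) :=
      (differentiableAt_fst).norm ℝ hne
    have a6 : DifferentiableAt ℝ (fun x : F3 => ((‖x.1‖ : ℝ) : ℂ)) (pol u X) :=
      Complex.ofRealCLM.differentiableAt.comp (pol u X) a5
    have a7 : DifferentiableAt ℝ (fun x : F3 => ((x.2 : ℝ) : ℂ)) (pol u X) :=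
      Complex.ofRealCLM.differentiableAt.comp (pol u X) differentiableAt_snd
    have a8 : DifferentiableAt ℝ (fun x : F3 => u + (Complex.log (x.1 * ex (-u))).im / (2 * Real.pi)) (pol u X) := by
      have := a4.mul_const (2 * Real.pi)⁻¹
      simpa only [div_eq_mul_inv] using (this.const_add u)
    exact a8.prodMk (a6.add (a7.mul_const I))
  apply Pool.Agent.RSG.ld_left (g := g) (Filter.Eventually.of_forall fun y => Jm_pol_smooth.contDiffAt) (by simp) hg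
  have o1 : ∀ᶠ q : ℝ × ℂ in 𝓝 (u, X), 0 < q.2.re :=
    (Complex.continuous_re.comp continuous_snd).continuousAt.eventually (lt_mem_nhds h)
  have o2 : ∀ᶠ q : ℝ × ℂ in 𝓝 (u, X), u - 1 / 2 < q.1 :=
    continuous_fst.continuousAt.eventually (lt_mem_nhds (show u - 1 / 2 < u by linarith))
  have o3 : ∀ᶠ q : ℝ × ℂ in 𝓝 (u, X), q.1 < u + 1 / 2 :=
    continuous_fst.continuousAt.eventually (gt_mem_nhds (show u < u + 1 / 2 by linarith))
  filter_upwards [o1, o2, o3] with q h1 h2 h3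
  have hp : (pol q.1 q.2).1 * ex (-u) = (q.2.re : ℝ) * ex (q.1 - u) := by
    simp only [pol]
    rw [mul_assoc, ← Pool.Agent.RSG.ex_add, sub_eq_add_neg]
  have hl : (Complex.log ((pol q.1 q.2).1 * ex (-u))).im = 2 * Real.pi * (q.1 - u) := by
    rw [hp]
    exact Pool.Agent.RSG.ex_log h1 (by linarith) (by linarith)
  have hn : ‖(pol q.1 q.2).1‖ = q.2.re := by
    simp only [pol]
    rw [norm_mul, Pool.Agent.RSG.ex_norm, mul_one, Complex.norm_real, Real.norm_eq_abs, abs_of_pos h1]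
  have hpi := Real.pi_pos
  apply Prod.ext
  · show u + (Complex.log ((pol q.1 q.2).1 * ex (-u))).im / (2 * Real.pi) = q.1
    rw [hl]
    field_simp
    ring
  · show (((‖(pol q.1 q.2).1‖ : ℝ) : ℂ) + (((pol q.1 q.2).2 : ℝ) : ℂ) * I) = q.2
    rw [hn]
    exact Complex.re_add_im q.2
theorem pol_inj {u u' : ℝ} {X X' : ℂ} (h : 0 < X.re) (h' : 0 < X'.re) (he : pol u X = pol u' X') :
    X = X' ∧ ∃ m : ℤ, u' = u + m := by
  have h1 : ((X.re : ℝ) : ℂ) * ex u = (X'.re : ℝ) * ex u' := congrArg Prod.fst he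
  have h2 : X.im = X'.im := congrArg Prod.snd he
  obtain ⟨h3, h4⟩ := Pool.Agent.RSG.ex_polar h h' h1
  exact ⟨Complex.ext h3 h2, h4⟩
theorem exists_pol {x : F3} (h : x.1 ≠ 0) : ∃ (u : ℝ) (X : ℂ), 0 < X.re ∧ x = pol u X := by
  refine ⟨Complex.arg x.1 / (2 * Real.pi), ⟨‖x.1‖, x.2⟩, norm_pos_iff.2 h, ?_⟩
  apply Prod.ext
  · exact Pool.Agent.RSG.ex_arg.symm
  · rfl

end Pool.Agent.CHW
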