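import Pool.Agent.CHW.KcDef

/-!
# CHW/KcB: the K chart, algebra   (difficulty 3)

Hypotheses `hε : 0 < ε`, `hε' : ε ≤ 1/16`, `0 ≤ r ≤ 1` (or `0 ≤ s ≤ 1`, `r = s²`).  `g = gam c ≥ 4.95`, `1/g = 2c/(1-c²)`, `B = c²/2000`.

* bounds: `v := (2πε cos)² r ≤ 4π²/256 ≤ 1/6`, so `1 ≤ shq v ≤ 6/5` (`shq_ge`, `shq_le`), `0 < kTh ≤ (1/1000)(1/g) 2π 6/5 ≤ 8/(1000 g)`, `kt2 ≤ 10⁻⁶`;
  `chq (-w²) = cos w`, `w = 2πε sin √r`, `|w| ≤ 0.4`, `cos w ≥ 0.9`; so `1.8 ≤ kD ≤ 2.1`, `kf1 > 0`, `kf2 > 0`;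
  `kf1 / B ≤ 2 * 8/(1000 g) / (1.8 g) * 2000/c² ≤ 18/(g² c²)`.. `1/(g c) = 2/(1-c²) ≤ 2.03`: `kf1/B ≤ 75`; `kf2 ≤ 2π 6/5/(1.8 g) ≤ 1`; `kg ≤ 80 ≤ 100`, and `kg > 0` as `cos² + sin² = 1`.
* `k_sq`: `ksn² + kcs² = 1` by definition of `kg`.
* `X1_k`: `thp P (-(ε s cos)) = -(ε s cos) kTh` (`sinh_shq`), its square is `kt2`; `cos (2π(1/2 + ε s sin)) = - cos (2πε s sin) = - chq (..)`,
  `sin (2π (1/2 + ε s sin)) = - sin (2π ε s sin) = - 2πε s sin shq (..)`.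
* `EMc_k`: `s' = √(X1.re²/B² + X1.im²) = ε s kg ≤ 100/16 ≤ 1200`, so `stp 1200 1400 s' = 0`, and `kc s' = s kka`.
* `pol_P0`: `pol u (EMc X1) = kP0 (l, s ex u)` : `sinh (s kka) = s kka shq (kka² s²)`, `cosh (s kka) = chq (kka² s²)`.
* `V1_k`: `‖EMc X1‖² = 10⁶ (sinh² K ksn² + cosh² K kcs²) = 10⁶ (cosh² K - ksn²) ≥ 10⁶ (1 - ksn²)`, `V1 = JC (EMc X1)` (`V1_X1`).
* `Cr_k`: `V1 = JC (1000 ⟨sinh K sn, cosh K cs⟩)`.  Put `X° = 2000 ⟨sinh K, cs⟩/(cosh K + sn)`; `|X°|² = 2000² (cosh K - sn)/(cosh K + sn)` (`sinh² K + cs² = cosh² K - sn²`), so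
  `JC X° = ⟨sinh K, cs⟩/(2000 (cosh K - sn))`, `(1/2000)²/JC X° = (1/2000)² conj (X°)`.. hence
  `JC X° - (1/2000)²/JC X° = (1/2000)(⟨sinh K, cs⟩/(cosh K - sn) - ⟨sinh K, -cs⟩/(cosh K + sn)) = (1/1000) ⟨sn sinh K, cs cosh K⟩/(cosh² K - sn²) = V1`, and `Re (JC X°) > 0` for
  `K > 0`: `Jou_uniq` gives `Jou V1 = JC X°`, `Cr = pol u X°`.  `K = s kka > 0`, `cosh K + sn > 0` as `cosh K > 1`.
-/

open scoped Manifold ContDiff Topology
open Set Filter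
open Complex (I normSq)

namespace Pool.Agent.CHW

open Pool.Agent.CSG (stp thc)
open Pool.Agent.RSG (ex)

variable {P : Par} {ε : ℝ}

theorem KcB_c (h : P.Ok) : P.c ≤ 1 / 32 ∧ P.c ≤ 1 / 10 := by
  have h1 := h.c_le
  have h2 := h.r₃_le
  have h3 := h.d₁_le
  constructor <;> linarith

theorem KcB_g (h : P.Ok) : 0 < gam P.c ∧ 99 / 20 ≤ gam P.c ∧ 1 / gam P.c ≤ 21 / 10 * P.c := by
  obtain ⟨c1, c2⟩ := KcB_c h
  obtain ⟨g1, g2, g3⟩ := gam_pos h.c_pos c2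
  refine ⟨g1, g2, ?_⟩
  have hc := h.c_pos
  have h4 : 0 < 1 - P.c ^ 2 := by nlinarith
  rw [g3, div_le_iff₀ h4]
  nlinarith [mul_pos hc hc, sq_nonneg P.c, mul_nonneg hc.le (sq_nonneg P.c)]

theorem KcB_v (hε : 0 < ε) (hε' : ε ≤ 1 / 16) {r : ℝ} (hr : 0 ≤ r) (hr' : r ≤ 1) {x : ℝ}
    (hx : x ^ 2 ≤ 1) :
    0 ≤ (2 * Real.pi * ε * x) ^ 2 * r ∧ (2 * Real.pi * ε * x) ^ 2 * r ≤ 4 / 25 := by
  refine ⟨by positivity, ?_⟩
  have h1 := Real.pi_lt_d2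
  have h2 := Real.pi_pos
  have h3 : 2 * Real.pi * ε ≤ 2 / 5 := by nlinarith
  have h4 : 0 ≤ 2 * Real.pi * ε := by positivity
  have h5 : (2 * Real.pi * ε) ^ 2 ≤ 4 / 25 := by nlinarith
  have h6 : (2 * Real.pi * ε * x) ^ 2 ≤ 4 / 25 := by
    rw [mul_pow]
    nlinarith [sq_nonneg x, sq_nonneg (2 * Real.pi * ε)]
  nlinarith [sq_nonneg (2 * Real.pi * ε * x)]

theorem KcB_cos (l : ℝ) : Real.cos (2 * Real.pi * l) ^ 2 ≤ 1 := by
  nlinarith [Real.sin_sq_add_cos_sq (2 * Real.pi * l), sq_nonneg (Real.sin (2 * Real.pi * l))]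

theorem KcB_sin (l : ℝ) : Real.sin (2 * Real.pi * l) ^ 2 ≤ 1 := by
  nlinarith [Real.sin_sq_add_cos_sq (2 * Real.pi * l), sq_nonneg (Real.cos (2 * Real.pi * l))]

theorem KcB_T (h : P.Ok) (hε : 0 < ε) (hε' : ε ≤ 1 / 16) {r : ℝ} (hr : 0 ≤ r) (hr' : r ≤ 1)
    (l : ℝ) : 0 < kTh P ε r l ∧ kTh P ε r l ≤ 8 / 1000 * (1 / gam P.c) := by
  obtain ⟨g1, g2, g3⟩ := KcB_g h
  obtain ⟨v1, v2⟩ := KcB_v hε hε' hr hr' (KcB_cos l)
  have s1 := shq_ge v1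
  have s2 := shq_le (show |(2 * Real.pi * ε * Real.cos (2 * Real.pi * l)) ^ 2 * r| ≤ 1 by
    rw [abs_of_nonneg v1]; linarith)
  have h1 := Real.pi_lt_d2
  have h2 := Real.pi_pos
  have hg : 0 < 1 / gam P.c := by positivity
  unfold kTh
  generalize shq ((2 * Real.pi * ε * Real.cos (2 * Real.pi * l)) ^ 2 * r) = y at *
  have e : 2 * (1 / 2000 / gam P.c) * (2 * Real.pi * y) =
      (2 * Real.pi * y / 1000) * (1 / gam P.c) := by
    field_simp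
    ring
  rw [e]
  constructor
  · positivity
  · apply mul_le_mul_of_nonneg_right _ hg.le
    nlinarith

theorem KcB_t2 (h : P.Ok) (hε : 0 < ε) (hε' : ε ≤ 1 / 16) {r : ℝ} (hr : 0 ≤ r) (hr' : r ≤ 1)
    (l : ℝ) : 0 ≤ kt2 P ε r l ∧ kt2 P ε r l ≤ 1 / 2 := by
  obtain ⟨t1, t2⟩ := KcB_T h hε hε' hr hr' l
  obtain ⟨g1, g2, g3⟩ := KcB_g h
  obtain ⟨c1, c2⟩ := KcB_c h
  have h1 : kTh P ε r l ≤ 1 / 2 := by linarith
  have h2 : kTh P ε r l ^ 2 ≤ 1 / 2 := by nlinarith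
  have h3 : (ε * Real.cos (2 * Real.pi * l)) ^ 2 ≤ 1 := by
    rw [mul_pow]
    have := KcB_cos l
    nlinarith [sq_nonneg (Real.cos (2 * Real.pi * l)), sq_nonneg ε]
  unfold kt2
  constructor
  · positivity
  · have h4 : (ε * Real.cos (2 * Real.pi * l)) ^ 2 * r ≤ 1 := by
      nlinarith [sq_nonneg (ε * Real.cos (2 * Real.pi * l))]
    have h5 : 0 ≤ (ε * Real.cos (2 * Real.pi * l)) ^ 2 * r := by positivity
    nlinarith [sq_nonneg (kTh P ε r l)]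

theorem KcB_ch (hε : 0 < ε) (hε' : ε ≤ 1 / 16) {r : ℝ} (hr : 0 ≤ r) (hr' : r ≤ 1) (l : ℝ) :
    9 / 10 ≤ chq (-((2 * Real.pi * ε * Real.sin (2 * Real.pi * l)) ^ 2 * r)) ∧
      chq (-((2 * Real.pi * ε * Real.sin (2 * Real.pi * l)) ^ 2 * r)) ≤ 1 := by
  obtain ⟨v1, v2⟩ := KcB_v hε hε' hr hr' (KcB_sin l)
  generalize (2 * Real.pi * ε * Real.sin (2 * Real.pi * l)) ^ 2 * r = v at *
  have h1 : chq (-v) = Real.cos (Real.sqrt v) := by
    rw [cos_chq, Real.sq_sqrt v1]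
  rw [h1]
  refine ⟨?_, Real.cos_le_one _⟩
  have h2 := Real.one_sub_sq_div_two_le_cos (x := Real.sqrt v)
  rw [Real.sq_sqrt v1] at h2
  linarith

theorem KcB_D (h : P.Ok) (hε : 0 < ε) (hε' : ε ≤ 1 / 16) {r : ℝ} (hr : 0 ≤ r) (hr' : r ≤ 1)
    (l : ℝ) : 19 / 10 ≤ kD P ε r l ∧ kD P ε r l ≤ 2 := by
  obtain ⟨t1, t2⟩ := KcB_t2 h hε hε' hr hr' l
  obtain ⟨c1, c2⟩ := KcB_ch hε hε' hr hr' l
  unfold kD
  generalize chq (-((2 * Real.pi * ε * Real.sin (2 * Real.pi * l)) ^ 2 * r)) = y at *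
  generalize kt2 P ε r l = t at *
  constructor <;> nlinarith

theorem KcB_f1 (h : P.Ok) (hε : 0 < ε) (hε' : ε ≤ 1 / 16) {r : ℝ} (hr : 0 ≤ r) (hr' : r ≤ 1)
    (l : ℝ) : 0 < kf1 P ε r l ∧ kf1 P ε r l / Bc P.c ≤ 100 := by
  obtain ⟨t1, t2⟩ := KcB_T h hε hε' hr hr' l
  obtain ⟨d1, d2⟩ := KcB_D h hε hε' hr hr' l
  obtain ⟨g1, g2, g3⟩ := KcB_g h
  have hc := h.c_pos
  have hB : 0 < Bc P.c := Bc_pos hc
  have hg : 0 < 1 / gam P.c := by positivity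
  have hf : kf1 P ε r l = 2 * kTh P ε r l * (1 / gam P.c) / kD P ε r l := by
    unfold kf1
    have : kD P ε r l ≠ 0 := by linarith
    field_simp
  constructor
  · unfold kf1
    have : 0 < kD P ε r l := by linarith
    positivity
  · rw [div_le_iff₀ hB, hf, div_le_iff₀ (by linarith)]
    have h1 : kTh P ε r l * (1 / gam P.c) ≤ 8 / 1000 * (1 / gam P.c) * (1 / gam P.c) :=
      mul_le_mul_of_nonneg_right t2 hg.le
    have h2 : (1 / gam P.c) * (1 / gam P.c) ≤ (21 / 10 * P.c) * (21 / 10 * P.c) :=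
      mul_le_mul g3 g3 hg.le (by positivity)
    have h3 : 100 * Bc P.c * (19 / 10) ≤ 100 * Bc P.c * kD P ε r l :=
      mul_le_mul_of_nonneg_left d1 (by positivity)
    refine le_trans ?_ h3
    unfold Bc
    nlinarith [sq_nonneg P.c]

theorem KcB_f2 (h : P.Ok) (hε : 0 < ε) (hε' : ε ≤ 1 / 16) {r : ℝ} (hr : 0 ≤ r) (hr' : r ≤ 1)
    (l : ℝ) : 0 < kf2 P ε r l ∧ kf2 P ε r l ≤ 1 := by
  obtain ⟨t1, t2⟩ := KcB_t2 h hε hε' hr hr' l
  obtain ⟨d1, d2⟩ := KcB_D h hε hε' hr hr' l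
  obtain ⟨g1, g2, g3⟩ := KcB_g h
  obtain ⟨v1, v2⟩ := KcB_v hε hε' hr hr' (KcB_sin l)
  have s1 := shq_ge' (show -1 ≤ -((2 * Real.pi * ε * Real.sin (2 * Real.pi * l)) ^ 2 * r) by
    linarith)
  have s2 := shq_le (show |-((2 * Real.pi * ε * Real.sin (2 * Real.pi * l)) ^ 2 * r)| ≤ 1 by
    rw [abs_neg, abs_of_nonneg v1]; linarith)
  have p1 := Real.pi_lt_d2
  have p2 := Real.pi_pos
  unfold kf2
  generalize shq (-((2 * Real.pi * ε * Real.sin (2 * Real.pi * l)) ^ 2 * r)) = y at *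
  generalize kt2 P ε r l = t at *
  generalize kD P ε r l = D at *
  have hgD : 0 < gam P.c * D := mul_pos g1 (by linarith)
  have hy : 0 < y := by linarith
  have ht : 0 < 1 - t := by linarith
  constructor
  · positivity
  · rw [div_le_one hgD]
    have h1 : 99 / 20 * (19 / 10) ≤ gam P.c * D := mul_le_mul g2 d1 (by norm_num) g1.le
    have h2 : 2 * Real.pi * y ≤ 8 := by nlinarith
    have h3 : 0 ≤ 2 * Real.pi * y := by positivity
    nlinarith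

theorem KcB_in (h : P.Ok) (hε : 0 < ε) (hε' : ε ≤ 1 / 16) {r : ℝ} (hr : 0 ≤ r) (hr' : r ≤ 1)
    (l : ℝ) : 0 < (kf1 P ε r l * Real.cos (2 * Real.pi * l) / Bc P.c) ^ 2 +
      (kf2 P ε r l * Real.sin (2 * Real.pi * l)) ^ 2 := by
  obtain ⟨f1, -⟩ := KcB_f1 h hε hε' hr hr' l
  obtain ⟨f2, -⟩ := KcB_f2 h hε hε' hr hr' l
  have hB : 0 < Bc P.c := Bc_pos h.c_pos
  by_cases hc : Real.cos (2 * Real.pi * l) = 0
  · have hs : Real.sin (2 * Real.pi * l) ≠ 0 := by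
      intro hs
      have := Real.sin_sq_add_cos_sq (2 * Real.pi * l)
      rw [hc, hs] at this
      norm_num at this
    positivity
  · positivity

theorem k_bounds (h : P.Ok) (hε : 0 < ε) (hε' : ε ≤ 1 / 16) {r : ℝ} (hr : 0 ≤ r) (hr' : r ≤ 1) (l : ℝ) :
    0 < kTh P ε r l ∧ kt2 P ε r l ≤ 1 / 2 ∧ 0 < kD P ε r l ∧ 0 < kf1 P ε r l ∧ 0 < kf2 P ε r l ∧ 0 < kg P ε r l ∧ kg P ε r l ≤ 100 := by
  refine ⟨(KcB_T h hε hε' hr hr' l).1, (KcB_t2 h hε hε' hr hr' l).2, ?_,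
    (KcB_f1 h hε hε' hr hr' l).1, (KcB_f2 h hε hε' hr hr' l).1, ?_, ?_⟩
  · have := (KcB_D h hε hε' hr hr' l).1
    linarith
  · exact Real.sqrt_pos.2 (KcB_in h hε hε' hr hr' l)
  · obtain ⟨f1, f1'⟩ := KcB_f1 h hε hε' hr hr' l
    obtain ⟨f2, f2'⟩ := KcB_f2 h hε hε' hr hr' l
    have hB : 0 < Bc P.c := Bc_pos h.c_pos
    unfold kg
    rw [Real.sqrt_le_left (by norm_num)]
    have e : kf1 P ε r l * Real.cos (2 * Real.pi * l) / Bc P.c =
        kf1 P ε r l / Bc P.c * Real.cos (2 * Real.pi * l) := by ring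
    rw [e, mul_pow, mul_pow]
    have h0 : 0 < kf1 P ε r l / Bc P.c := div_pos f1 hB
    have h1 : (kf1 P ε r l / Bc P.c) ^ 2 ≤ 100 ^ 2 := by nlinarith
    have h2 : (kf2 P ε r l) ^ 2 ≤ 100 ^ 2 := by nlinarith
    have h3 := Real.sin_sq_add_cos_sq (2 * Real.pi * l)
    nlinarith [sq_nonneg (Real.cos (2 * Real.pi * l)), sq_nonneg (Real.sin (2 * Real.pi * l))]

theorem KcB_gpos (h : P.Ok) (hε : 0 < ε) (hε' : ε ≤ 1 / 16) {r : ℝ} (hr : 0 ≤ r) (hr' : r ≤ 1)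
    (l : ℝ) : 0 < kg P ε r l := (k_bounds h hε hε' hr hr' l).2.2.2.2.2.1

theorem kka_pos (h : P.Ok) (hε : 0 < ε) (hε' : ε ≤ 1 / 16) {r : ℝ} (hr : 0 ≤ r) (hr' : r ≤ 1) (l : ℝ) : 0 < kka P ε r l := by
  have h1 := KcB_gpos h hε hε' hr hr' l
  have h2 : 0 < kc P.c := by
    have := Bc_pos h.c_pos
    unfold kc
    positivity
  unfold kka
  positivity

theorem k_sq (h : P.Ok) (hε : 0 < ε) (hε' : ε ≤ 1 / 16) {r : ℝ} (hr : 0 ≤ r) (hr' : r ≤ 1) (l : ℝ) :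
    ksn P ε r l ^ 2 + kcs P ε r l ^ 2 = 1 := by
  have h1 := KcB_gpos h hε hε' hr hr' l
  have hB : 0 < Bc P.c := Bc_pos h.c_pos
  have h2 : kg P ε r l ^ 2 = (kf1 P ε r l * Real.cos (2 * Real.pi * l) / Bc P.c) ^ 2 +
      (kf2 P ε r l * Real.sin (2 * Real.pi * l)) ^ 2 :=
    Real.sq_sqrt (KcB_in h hε hε' hr hr' l).le
  unfold ksn kcs
  have e : -(kf1 P ε r l * Real.cos (2 * Real.pi * l)) / (Bc P.c * kg P ε r l) =
      -(kf1 P ε r l * Real.cos (2 * Real.pi * l) / Bc P.c) / kg P ε r l := by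
    field_simp
  rw [e, div_pow, div_pow, ← add_div, neg_sq, neg_sq, ← h2, div_self (by positivity)]

/-- sign of `ksn` -/
theorem ksn_pos (h : P.Ok) (hε : 0 < ε) (hε' : ε ≤ 1 / 16) {r : ℝ} (hr : 0 ≤ r) (hr' : r ≤ 1) (l : ℝ) :
    (0 < ksn P ε r l ↔ Real.cos (2 * Real.pi * l) < 0) ∧ (ksn P ε r l = 0 ↔ Real.cos (2 * Real.pi * l) = 0) := by
  have h1 := KcB_gpos h hε hε' hr hr' l
  have hB : 0 < Bc P.c := Bc_pos h.c_pos
  obtain ⟨f1, -⟩ := KcB_f1 h hε hε' hr hr' l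
  have e : ksn P ε r l = -(kf1 P ε r l / (Bc P.c * kg P ε r l)) * Real.cos (2 * Real.pi * l) := by
    unfold ksn
    ring
  have h2 : 0 < kf1 P ε r l / (Bc P.c * kg P ε r l) := by positivity
  rw [e]
  generalize kf1 P ε r l / (Bc P.c * kg P ε r l) = a at h2
  generalize Real.cos (2 * Real.pi * l) = C
  constructor
  · constructor
    · intro h3
      by_contra hc
      rw [not_lt] at hc
      nlinarith
    · intro h3
      nlinarith
  · constructor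
    · intro h3
      rcases mul_eq_zero.1 h3 with h4 | h4
      · linarith
      · exact h4
    · intro h3
      rw [h3, mul_zero]

theorem kcs_pos (h : P.Ok) (hε : 0 < ε) (hε' : ε ≤ 1 / 16) {r : ℝ} (hr : 0 ≤ r) (hr' : r ≤ 1) (l : ℝ) :
    (0 < kcs P ε r l ↔ Real.sin (2 * Real.pi * l) < 0) ∧ (kcs P ε r l = 0 ↔ Real.sin (2 * Real.pi * l) = 0) := by
  have h1 := KcB_gpos h hε hε' hr hr' l
  obtain ⟨f1, -⟩ := KcB_f2 h hε hε' hr hr' l
  have e : kcs P ε r l = -(kf2 P ε r l / kg P ε r l) * Real.sin (2 * Real.pi * l) := by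
    unfold kcs
    ring
  have h2 : 0 < kf2 P ε r l / kg P ε r l := by positivity
  rw [e]
  generalize kf2 P ε r l / kg P ε r l = a at h2
  generalize Real.sin (2 * Real.pi * l) = C
  constructor
  · constructor
    · intro h3
      by_contra hc
      rw [not_lt] at hc
      nlinarith
    · intro h3
      nlinarith
  · constructor
    · intro h3
      rcases mul_eq_zero.1 h3 with h4 | h4
      · linarith
      · exact h4
    · intro h3
      rw [h3, mul_zero]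

/-! ### smoothness -/

theorem KcB_smC : ContDiff ℝ ∞ fun q : ℝ × ℝ => Real.cos (2 * Real.pi * q.2) :=
  Real.contDiff_cos.comp (contDiff_const.mul contDiff_snd)

theorem KcB_smS : ContDiff ℝ ∞ fun q : ℝ × ℝ => Real.sin (2 * Real.pi * q.2) :=
  Real.contDiff_sin.comp (contDiff_const.mul contDiff_snd)

theorem KcB_smT (P : Par) (ε : ℝ) : ContDiff ℝ ∞ fun q : ℝ × ℝ => kTh P ε q.1 q.2 := by
  unfold kTh
  have h1 : ContDiff ℝ ∞ fun q : ℝ × ℝ =>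
      (2 * Real.pi * ε * Real.cos (2 * Real.pi * q.2)) ^ 2 * q.1 :=
    ((contDiff_const.mul KcB_smC).pow 2).mul contDiff_fst
  exact contDiff_const.mul (contDiff_const.mul (shq_smooth.comp h1))

theorem KcB_smt (P : Par) (ε : ℝ) : ContDiff ℝ ∞ fun q : ℝ × ℝ => kt2 P ε q.1 q.2 := by
  unfold kt2
  exact (((contDiff_const.mul KcB_smC).pow 2).mul contDiff_fst).mul ((KcB_smT P ε).pow 2)

theorem KcB_smv (ε : ℝ) : ContDiff ℝ ∞ fun q : ℝ × ℝ =>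
    -((2 * Real.pi * ε * Real.sin (2 * Real.pi * q.2)) ^ 2 * q.1) :=
  (((contDiff_const.mul KcB_smS).pow 2).mul contDiff_fst).neg

theorem KcB_smD (P : Par) (ε : ℝ) : ContDiff ℝ ∞ fun q : ℝ × ℝ => kD P ε q.1 q.2 := by
  unfold kD
  exact (contDiff_const.add (KcB_smt P ε)).add ((contDiff_const.sub (KcB_smt P ε)).mul
    (chq_smooth.comp (KcB_smv ε)))

theorem k_smooth (h : P.Ok) (hε : 0 < ε) (hε' : ε ≤ 1 / 16) {r : ℝ} (hr : 0 ≤ r) (hr' : r ≤ 1) (l : ℝ) :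
    ContDiffAt ℝ ∞ (fun q : ℝ × ℝ => ksn P ε q.1 q.2) (r, l) ∧ ContDiffAt ℝ ∞ (fun q : ℝ × ℝ => kcs P ε q.1 q.2) (r, l) ∧
      ContDiffAt ℝ ∞ (fun q : ℝ × ℝ => kka P ε q.1 q.2) (r, l) := by
  obtain ⟨d1, d2⟩ := KcB_D h hε hε' hr hr' l
  obtain ⟨g1, g2, g3⟩ := KcB_g h
  have hB : 0 < Bc P.c := Bc_pos h.c_pos
  have hk := KcB_gpos h hε hε' hr hr' l
  have hgD : gam P.c * kD P ε r l ≠ 0 := (mul_pos g1 (by linarith)).ne'
  have hT := (KcB_smT P ε).contDiffAt (x := (r, l))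
  have ht := (KcB_smt P ε).contDiffAt (x := (r, l))
  have hD := (KcB_smD P ε).contDiffAt (x := (r, l))
  have hC := KcB_smC.contDiffAt (x := (r, l))
  have hS := KcB_smS.contDiffAt (x := (r, l))
  have h1 : ContDiffAt ℝ ∞ (fun q : ℝ × ℝ => kf1 P ε q.1 q.2) (r, l) := by
    unfold kf1
    exact (contDiffAt_const.mul hT).div (contDiffAt_const.mul hD) hgD
  have h2 : ContDiffAt ℝ ∞ (fun q : ℝ × ℝ => kf2 P ε q.1 q.2) (r, l) := by
    unfold kf2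
    exact ((contDiffAt_const.sub ht).mul (contDiffAt_const.mul
      (shq_smooth.comp (KcB_smv ε)).contDiffAt)).div (contDiffAt_const.mul hD) hgD
  have h3 : ContDiffAt ℝ ∞ (fun q : ℝ × ℝ => kg P ε q.1 q.2) (r, l) := by
    unfold kg
    exact (((((h1.mul hC).div_const _).pow 2)).add ((h2.mul hS).pow 2)).sqrt
      (KcB_in h hε hε' hr hr' l).ne'
  refine ⟨?_, ?_, ?_⟩
  · unfold ksn
    exact (h1.mul hC).neg.div (contDiffAt_const.mul h3) (mul_pos hB hk).ne'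
  · unfold kcs
    exact (h2.mul hS).neg.div h3 hk.ne'
  · unfold kka
    exact contDiffAt_const.mul h3

/-! ### the base point -/

theorem KcB_thp (P : Par) (ε s l : ℝ) :
    thp P (-(ε * s * Real.cos (2 * Real.pi * l))) =
      -(ε * s * Real.cos (2 * Real.pi * l)) * kTh P ε (s ^ 2) l := by
  unfold thp kTh
  rw [sinh_shq]
  have e : (2 * Real.pi * -(ε * s * Real.cos (2 * Real.pi * l))) ^ 2 =
      (2 * Real.pi * ε * Real.cos (2 * Real.pi * l)) ^ 2 * s ^ 2 := by ring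
  rw [e]
  ring

theorem KcB_thp2 (P : Par) (ε s l : ℝ) :
    thp P (-(ε * s * Real.cos (2 * Real.pi * l))) ^ 2 = kt2 P ε (s ^ 2) l := by
  rw [KcB_thp]
  unfold kt2
  ring

theorem KcB_c2 (ε s l : ℝ) :
    Real.cos (2 * Real.pi * (1 / 2 + ε * s * Real.sin (2 * Real.pi * l))) =
      -chq (-((2 * Real.pi * ε * Real.sin (2 * Real.pi * l)) ^ 2 * s ^ 2)) := by
  have e : 2 * Real.pi * (1 / 2 + ε * s * Real.sin (2 * Real.pi * l)) =
      2 * Real.pi * (ε * s * Real.sin (2 * Real.pi * l)) + Real.pi := by ring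
  rw [e, Real.cos_add_pi, cos_chq]
  congr 2
  ring

theorem KcB_s2 (ε s l : ℝ) :
    Real.sin (2 * Real.pi * (1 / 2 + ε * s * Real.sin (2 * Real.pi * l))) =
      -(2 * Real.pi * (ε * s * Real.sin (2 * Real.pi * l)) *
        shq (-((2 * Real.pi * ε * Real.sin (2 * Real.pi * l)) ^ 2 * s ^ 2))) := by
  have e : 2 * Real.pi * (1 / 2 + ε * s * Real.sin (2 * Real.pi * l)) =
      2 * Real.pi * (ε * s * Real.sin (2 * Real.pi * l)) + Real.pi := by ring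
  rw [e, Real.sin_add_pi, sin_shq]
  have e2 : (-(2 * Real.pi * (ε * s * Real.sin (2 * Real.pi * l))) ^ 2) =
      (-((2 * Real.pi * ε * Real.sin (2 * Real.pi * l)) ^ 2 * s ^ 2)) := by ring
  rw [e2]

theorem X1_k (h : P.Ok) (hε : 0 < ε) (hε' : ε ≤ 1 / 16) {s : ℝ} (hs : 0 ≤ s) (hs' : s ≤ 1) (l : ℝ) :
    X1 P (-(ε * s * Real.cos (2 * Real.pi * l))) (1 / 2 + ε * s * Real.sin (2 * Real.pi * l)) =
      ⟨Bc P.c * (ε * s * kg P ε (s ^ 2) l) * ksn P ε (s ^ 2) l, (ε * s * kg P ε (s ^ 2) l) * kcs P ε (s ^ 2) l⟩ := by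
  have hr : 0 ≤ s ^ 2 := sq_nonneg s
  have hr' : s ^ 2 ≤ 1 := by nlinarith
  have hk := KcB_gpos h hε hε' hr hr' l
  have hB : 0 < Bc P.c := Bc_pos h.c_pos
  obtain ⟨d1, d2⟩ := KcB_D h hε hε' hr hr' l
  obtain ⟨g1, g2, g3⟩ := KcB_g h
  have e1 : Bc P.c * (ε * s * kg P ε (s ^ 2) l) * ksn P ε (s ^ 2) l =
      -(ε * s * (kf1 P ε (s ^ 2) l * Real.cos (2 * Real.pi * l))) := by
    unfold ksn
    field_simp
  have e2 : (ε * s * kg P ε (s ^ 2) l) * kcs P ε (s ^ 2) l =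
      -(ε * s * (kf2 P ε (s ^ 2) l * Real.sin (2 * Real.pi * l))) := by
    unfold kcs
    field_simp
  rw [e1, e2]
  unfold X1
  rw [KcB_thp2, KcB_c2, KcB_s2, KcB_thp]
  have e3 : (1 + kt2 P ε (s ^ 2) l) - (1 - kt2 P ε (s ^ 2) l) *
      -chq (-((2 * Real.pi * ε * Real.sin (2 * Real.pi * l)) ^ 2 * s ^ 2)) = kD P ε (s ^ 2) l := by
    unfold kD
    ring
  rw [e3]
  have hD : kD P ε (s ^ 2) l ≠ 0 := by linarith
  have key : ∀ x y D g : ℝ, D ≠ 0 → g ≠ 0 → ((1 / g : ℝ) : ℂ) * (⟨x, y⟩ : ℂ) / (D : ℝ) =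
      ⟨x / (g * D), y / (g * D)⟩ := by
    intro x y D g hD hg
    rw [div_eq_mul_inv, ← Complex.ofReal_inv]
    apply Complex.ext
    · rw [Complex.re_mul_ofReal, Complex.re_ofReal_mul]
      field_simp
    · rw [Complex.im_mul_ofReal, Complex.im_ofReal_mul]
      field_simp
  rw [key _ _ _ _ hD g1.ne']
  apply Complex.ext
  · change _ / _ = -(ε * s * (kf1 P ε (s ^ 2) l * Real.cos (2 * Real.pi * l)))
    unfold kf1
    ring
  · change _ / _ = -(ε * s * (kf2 P ε (s ^ 2) l * Real.sin (2 * Real.pi * l)))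
    unfold kf2
    ring

theorem EMc_k (h : P.Ok) (hε : 0 < ε) (hε' : ε ≤ 1 / 16) {s : ℝ} (hs : 0 < s) (hs' : s ≤ 1) (l : ℝ) :
    EMc (Bc P.c) (eK P.c) (mK P.c)
        (X1 P (-(ε * s * Real.cos (2 * Real.pi * l))) (1 / 2 + ε * s * Real.sin (2 * Real.pi * l))) =
      ⟨1000 * Real.sinh (s * kka P ε (s ^ 2) l) * ksn P ε (s ^ 2) l, 1000 * Real.cosh (s * kka P ε (s ^ 2) l) * kcs P ε (s ^ 2) l⟩ := by
  have hr : 0 ≤ s ^ 2 := sq_nonneg s
  have hr' : s ^ 2 ≤ 1 := by nlinarith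
  have hk := KcB_gpos h hε hε' hr hr' l
  have hk' := (k_bounds h hε hε' hr hr' l).2.2.2.2.2.2
  have hB : 0 < Bc P.c := Bc_pos h.c_pos
  rw [X1_k h hε hε' hs.le hs' l]
  have hsq := k_sq h hε hε' hr hr' l
  have hs1 : 0 < ε * s * kg P ε (s ^ 2) l := by positivity
  have hs2 : ε * s * kg P ε (s ^ 2) l ≤ 1200 := by
    have h1 : ε * s ≤ 1 := by nlinarith
    nlinarith [mul_pos hε hs]
  have hka : s * kka P ε (s ^ 2) l = kc P.c * (ε * s * kg P ε (s ^ 2) l) := by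
    unfold kka
    ring
  rw [hka]
  generalize ε * s * kg P ε (s ^ 2) l = S at *
  generalize ksn P ε (s ^ 2) l = a at *
  generalize kcs P ε (s ^ 2) l = b at *
  have hst : stp 1200 1400 S = 0 := Pool.Agent.CSG.stp_zero (by norm_num) hs2
  have e1 : Real.sqrt ((Bc P.c * S * a) ^ 2 / Bc P.c ^ 2 + (S * b) ^ 2) = S := by
    have : (Bc P.c * S * a) ^ 2 / Bc P.c ^ 2 + (S * b) ^ 2 = S ^ 2 := by
      have h2 : (Bc P.c * S * a) ^ 2 / Bc P.c ^ 2 = (S * a) ^ 2 := by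
        field_simp
      rw [h2]
      linear_combination S ^ 2 * hsq
    rw [this, Real.sqrt_sq hs1.le]
  unfold EMc
  simp only [e1]
  apply Complex.ext
  · change eK P.c S / (Bc P.c * S) * (Bc P.c * S * a) = 1000 * Real.sinh (kc P.c * S) * a
    unfold eK
    rw [hst]
    field_simp
    ring
  · change mK P.c S / S * (S * b) = 1000 * Real.cosh (kc P.c * S) * b
    unfold mK
    rw [hst]
    field_simp
    ring

theorem KcB_ns (s u : ℝ) : normSq ((s : ℂ) * ex u) = s ^ 2 := by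
  rw [Complex.normSq_mul, Complex.normSq_ofReal]
  have : normSq (ex u) = 1 := by
    unfold Pool.Agent.RSG.ex
    rw [Complex.normSq_eq_norm_sq, Complex.norm_exp_ofReal_mul_I]
    norm_num
  rw [this]
  ring

theorem pol_P0 (h : P.Ok) (hε : 0 < ε) (hε' : ε ≤ 1 / 16) {s : ℝ} (hs : 0 < s) (hs' : s ≤ 1) (l u : ℝ) :
    pol u (EMc (Bc P.c) (eK P.c) (mK P.c)
        (X1 P (-(ε * s * Real.cos (2 * Real.pi * l))) (1 / 2 + ε * s * Real.sin (2 * Real.pi * l)))) = kP0 P ε (l, s * ex u) := by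
  rw [EMc_k h hε hε' hs hs' l]
  unfold pol kP0
  simp only [KcB_ns]
  have e1 : Real.sinh (s * kka P ε (s ^ 2) l) =
      s * kka P ε (s ^ 2) l * shq (kka P ε (s ^ 2) l ^ 2 * s ^ 2) := by
    rw [sinh_shq]
    congr 2
    ring
  have e2 : Real.cosh (s * kka P ε (s ^ 2) l) = chq (kka P ε (s ^ 2) l ^ 2 * s ^ 2) := by
    rw [cosh_chq]
    congr 1
    ring
  rw [e1, e2]
  refine Prod.ext ?_ rfl
  change ((_ : ℝ) : ℂ) * ex u = ((_ : ℝ) : ℂ) * ((s : ℂ) * ex u)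
  push_cast
  ring

theorem KcB_T12 (hε : 0 < ε) (hε' : ε ≤ 1 / 16) {s : ℝ} (hs : 0 < s) (hs' : s ≤ 1) (l : ℝ) :
    |-(ε * s * Real.cos (2 * Real.pi * l))| ≤ 1 / 8 ∧
    (-(ε * s * Real.cos (2 * Real.pi * l)) ≠ 0 ∨ T12 (1 / 2 + ε * s * Real.sin (2 * Real.pi * l))) := by
  have h1 : 0 < ε * s := mul_pos hε hs
  have h2 : ε * s ≤ 1 / 16 := by nlinarith
  constructor
  · rw [abs_neg, abs_mul, abs_of_pos h1]
    have := Real.abs_cos_le_one (2 * Real.pi * l)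
    nlinarith [abs_nonneg (Real.cos (2 * Real.pi * l))]
  · by_cases hc : Real.cos (2 * Real.pi * l) = 0
    · right
      intro n hn
      have hs2 : Real.sin (2 * Real.pi * l) ^ 2 = 1 := by
        have := Real.sin_sq_add_cos_sq (2 * Real.pi * l)
        rw [hc] at this
        linarith
      have h3 : ε * s * Real.sin (2 * Real.pi * l) = n := by linarith
      have h4 : (ε * s) ^ 2 = (n : ℝ) ^ 2 := by
        rw [← h3]
        linear_combination (-(ε * s) ^ 2) * hs2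
      have h5 : ((n ^ 2 : ℤ) : ℝ) < 1 := by
        push_cast
        rw [← h4]
        nlinarith
      have h6 : 0 < ((n ^ 2 : ℤ) : ℝ) := by
        push_cast
        rw [← h4]
        positivity
      have h7 : n ^ 2 < 1 := by exact_mod_cast h5
      have h8 : 0 < n ^ 2 := by exact_mod_cast h6
      omega
    · left
      intro h3
      rw [neg_eq_zero] at h3
      rcases mul_eq_zero.1 h3 with h4 | h4
      · linarith
      · exact hc h4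

theorem V1_k (h : P.Ok) (hε : 0 < ε) (hε' : ε ≤ 1 / 16) {s : ℝ} (hs : 0 < s) (hs' : s ≤ 1) {l : ℝ}
    (hl : |ksn P ε (s ^ 2) l| ≤ 3 / 5) :
    ‖V1 P (-(ε * s * Real.cos (2 * Real.pi * l))) (1 / 2 + ε * s * Real.sin (2 * Real.pi * l))‖ ≤ 13 / 10000 := by
  obtain ⟨t1, t2⟩ := KcB_T12 hε hε' hs hs' l
  rw [V1_X1 h t1 t2, norm_JC, EMc_k h hε hε' hs hs' l]
  have hsq := k_sq h hε hε' (sq_nonneg s) (show s ^ 2 ≤ 1 by nlinarith) l
  have hch := Real.one_le_cosh (s * kka P ε (s ^ 2) l)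
  generalize ksn P ε (s ^ 2) l = a at *
  generalize kcs P ε (s ^ 2) l = b at *
  generalize Real.cosh (s * kka P ε (s ^ 2) l) = c at *
  generalize Real.sinh (s * kka P ε (s ^ 2) l) = d at *
  have ha : a ^ 2 ≤ 9 / 25 := by
    have := abs_le.1 hl
    nlinarith
  have hb : 16 / 25 ≤ b ^ 2 := by linarith
  have h1 : (800 : ℝ) ≤ ‖(⟨1000 * d * a, 1000 * c * b⟩ : ℂ)‖ := by
    apply Real.le_sqrt_of_sq_le
    rw [Complex.normSq_mk]
    have h2 : b ^ 2 ≤ c ^ 2 * b ^ 2 := by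
      have h3 : 0 ≤ c ^ 2 - 1 := by nlinarith
      nlinarith [mul_nonneg h3 (sq_nonneg b)]
    nlinarith [sq_nonneg (d * a)]
  calc ‖(⟨1000 * d * a, 1000 * c * b⟩ : ℂ)‖⁻¹ ≤ (800 : ℝ)⁻¹ := inv_anti₀ (by norm_num) h1
    _ ≤ 13 / 10000 := by norm_num

/-- real and imaginary part of `X - ρ²/X` -/
theorem KcB_parts (X : ℂ) :
    (X - (1 / 2000) ^ 2 / X).re = X.re * (1 - (1 / 2000) ^ 2 / normSq X) ∧
    (X - (1 / 2000) ^ 2 / X).im = X.im * (1 + (1 / 2000) ^ 2 / normSq X) := by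
  have e : ((1 / 2000 : ℂ)) ^ 2 / X = (((1 / 2000) ^ 2 / normSq X : ℝ) : ℂ) * (starRingEnd ℂ) X := by
    rw [div_eq_mul_inv, Complex.inv_def]
    push_cast
    ring
  rw [e]
  constructor
  · rw [Complex.sub_re, Complex.re_ofReal_mul, Complex.conj_re]
    ring
  · rw [Complex.sub_im, Complex.im_ofReal_mul, Complex.conj_im]
    ring

theorem KcB_JC (X : ℂ) : JC X = ⟨X.re / normSq X, X.im / normSq X⟩ := by
  unfold JC
  apply Complex.ext
  · rw [one_div, Complex.inv_re, Complex.normSq_conj, Complex.conj_re]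
  · rw [one_div, Complex.inv_im, Complex.normSq_conj, Complex.conj_im]
    simp

/-- algebra of the corner chart -/
theorem KcB_alg {sh ch a b : ℝ} (h1 : 0 < sh) (h2 : 1 < ch) (h3 : ch ^ 2 - sh ^ 2 = 1)
    (h4 : a ^ 2 + b ^ 2 = 1) :
    JC (Jou (JC ⟨1000 * sh * a, 1000 * ch * b⟩)) = ⟨2000 * sh / (ch + a), 2000 * b / (ch + a)⟩ := by
  have ha : a ≤ 1 := by nlinarith
  have ha' : -1 ≤ a := by nlinarith
  have p1 : 0 < ch + a := by linarith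
  have p2 : 0 < ch - a := by linarith
  have n1 : normSq (⟨1000 * sh * a, 1000 * ch * b⟩ : ℂ) = 1000000 * ((ch + a) * (ch - a)) := by
    rw [Complex.normSq_mk]
    linear_combination (-1000000 * a ^ 2) * h3 + 1000000 * ch ^ 2 * h4
  have n2 : normSq (⟨sh / (2000 * (ch - a)), b / (2000 * (ch - a))⟩ : ℂ) =
      (ch + a) / (4000000 * (ch - a)) := by
    rw [Complex.normSq_mk]
    field_simp
    linear_combination (-4000000 : ℝ) * h3 + 4000000 * h4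
  have hJ : (⟨sh / (2000 * (ch - a)), b / (2000 * (ch - a))⟩ : ℂ) =
      Jou (JC ⟨1000 * sh * a, 1000 * ch * b⟩) := by
    apply (Jou_uniq (V := JC ⟨1000 * sh * a, 1000 * ch * b⟩) _ _).2
    · change 0 < sh / (2000 * (ch - a))
      positivity
    · rw [KcB_JC, n1]
      obtain ⟨e1, e2⟩ := KcB_parts (⟨sh / (2000 * (ch - a)), b / (2000 * (ch - a))⟩ : ℂ)
      rw [n2] at e1 e2
      apply Complex.ext
      · rw [e1]
        change sh / (2000 * (ch - a)) * _ = 1000 * sh * a / _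
        field_simp
        ring
      · rw [e2]
        change b / (2000 * (ch - a)) * _ = 1000 * ch * b / _
        field_simp
        ring
  rw [← hJ, KcB_JC, n2]
  apply Complex.ext
  · change sh / (2000 * (ch - a)) / ((ch + a) / (4000000 * (ch - a))) = 2000 * sh / (ch + a)
    field_simp
    ring
  · change b / (2000 * (ch - a)) / ((ch + a) / (4000000 * (ch - a))) = 2000 * b / (ch + a)
    field_simp
    ring

theorem Cr_k (h : P.Ok) (hε : 0 < ε) (hε' : ε ≤ 1 / 16) {s : ℝ} (hs : 0 < s) (hs' : s ≤ 1) (l u : ℝ) :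
    Cr P u (-(ε * s * Real.cos (2 * Real.pi * l))) (1 / 2 + ε * s * Real.sin (2 * Real.pi * l)) = kC0 P ε (l, s * ex u) := by
  obtain ⟨t1, t2⟩ := KcB_T12 hε hε' hs hs' l
  have hsq := k_sq h hε hε' (sq_nonneg s) (show s ^ 2 ≤ 1 by nlinarith) l
  have hka := kka_pos h hε hε' (sq_nonneg s) (show s ^ 2 ≤ 1 by nlinarith) l
  have hK : 0 < s * kka P ε (s ^ 2) l := mul_pos hs hka
  have hsh : 0 < Real.sinh (s * kka P ε (s ^ 2) l) := Real.sinh_pos_iff.2 hK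
  have hch : 1 < Real.cosh (s * kka P ε (s ^ 2) l) := Real.one_lt_cosh.2 hK.ne'
  have hcs := Real.cosh_sq_sub_sinh_sq (s * kka P ε (s ^ 2) l)
  unfold Cr
  rw [V1_X1 h t1 t2, EMc_k h hε hε' hs hs' l, KcB_alg hsh hch hcs hsq]
  unfold kC0
  simp only [KcB_ns]
  have e1 : Real.sinh (s * kka P ε (s ^ 2) l) =
      s * kka P ε (s ^ 2) l * shq (kka P ε (s ^ 2) l ^ 2 * s ^ 2) := by
    rw [sinh_shq]
    congr 2
    ring
  have e2 : Real.cosh (s * kka P ε (s ^ 2) l) = chq (kka P ε (s ^ 2) l ^ 2 * s ^ 2) := by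
    rw [cosh_chq]
    congr 1
    ring
  rw [e1, e2]
  refine Prod.ext ?_ rfl
  change ((_ : ℝ) : ℂ) * ex u = ((_ : ℝ) : ℂ) * ((s : ℂ) * ex u)
  push_cast
  ring

/-- the values at the core -/
theorem kcs_zero (h : P.Ok) (hε : 0 < ε) :
    ∃ a b : ℝ, 0 < a ∧ 0 < b ∧ ∀ l, kcs P ε 0 l = -(b * Real.sin (2 * Real.pi * l)) /
        Real.sqrt ((a * Real.cos (2 * Real.pi * l)) ^ 2 + (b * Real.sin (2 * Real.pi * l)) ^ 2) ∧
      ksn P ε 0 l = -(a * Real.cos (2 * Real.pi * l)) /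
        Real.sqrt ((a * Real.cos (2 * Real.pi * l)) ^ 2 + (b * Real.sin (2 * Real.pi * l)) ^ 2) := by
  have hB : 0 < Bc P.c := Bc_pos h.c_pos
  obtain ⟨g1, g2, g3⟩ := KcB_g h
  have p2 := Real.pi_pos
  have e1 : ∀ l, kTh P ε 0 l = 2 * (1 / 2000 / gam P.c) * (2 * Real.pi) := by
    intro l
    unfold kTh
    rw [mul_zero, shq_zero, mul_one]
  have e2 : ∀ l, kt2 P ε 0 l = 0 := by
    intro l
    unfold kt2
    ring
  have e3 : ∀ l, kD P ε 0 l = 2 := by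
    intro l
    unfold kD
    rw [e2, mul_zero, neg_zero, chq_zero]
    norm_num
  have e4 : ∀ l, kf1 P ε 0 l = 2 * (2 * (1 / 2000 / gam P.c) * (2 * Real.pi)) / (gam P.c * 2) := by
    intro l
    unfold kf1
    rw [e1, e3]
  have e5 : ∀ l, kf2 P ε 0 l = 2 * Real.pi / (gam P.c * 2) := by
    intro l
    unfold kf2
    rw [e2, e3, mul_zero, neg_zero, shq_zero]
    norm_num
  refine ⟨2 * (2 * (1 / 2000 / gam P.c) * (2 * Real.pi)) / (gam P.c * 2) / Bc P.c,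
    2 * Real.pi / (gam P.c * 2), by positivity, by positivity, ?_⟩
  intro l
  have e6 : kg P ε 0 l = Real.sqrt ((2 * (2 * (1 / 2000 / gam P.c) * (2 * Real.pi)) /
      (gam P.c * 2) / Bc P.c * Real.cos (2 * Real.pi * l)) ^ 2 +
      (2 * Real.pi / (gam P.c * 2) * Real.sin (2 * Real.pi * l)) ^ 2) := by
    unfold kg
    rw [e4, e5, mul_div_right_comm]
  constructor
  · unfold kcs
    rw [e5, e6]
  · unfold ksn
    rw [← e6, e4]
    rw [mul_comm (Bc P.c), ← div_div, div_right_comm]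
    congr 1
    ring

end Pool.Agent.CHW
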