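import Pool.Agent.CHW.KcB
import Pool.Agent.CHW.WxI

/-!
# CHW/KcC: the K chart `Wk0`   (difficulty 3)

`c_l = cos 2πl`, `s_l = sin 2πl`, `L = 4000000`.  Hypotheses `0 < ε ≤ 1/16`.

* `Wk0_glue`: `arg (s ex u) / 2π = u` modulo `ℤ` (`RSG.ex_arg`, `ex_eq_iff`), `Wx_per`.
* `Wk0_per`: `cos`, `sin` have period `2π`; `ksn`, `kcs`, `kka` depend on `l` only through `c_l`, `s_l`; in the last case `cos (2π (1/2 - l)) = - c_l`.
* `Wk0_in` (`c_l < 0`): `ζ = s ex u ≠ 0`: `p = - ε s c_l > 0`, `p ≤ 1/8`, `Wx = W0 (u, 1/2 - p, t)` (`Wx_W0` with `n = 0`), `A (W0) = tv tau (pol u (EMc X1)) = tv tau (kP0 ..)` (`W0_EE`, `pol_P0`), then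
  `Ai_A` (`W0_Sh`).  `kP0` is not in `SlA` when shifted: for `ζ ≠ 0` it is `A` of a point of `Sh` (`A_mem`); for `ζ = 0`: `kP0 = (0, 1000 kcs)`, `|kcs| < 1` as `ksn ≠ 0`, and its `Jv` image:
  `q2 (tv tau kP0) ≥ tau² > 1` so the other part of `SlA` is excluded.
* `Wk0_J`: `ζ ≠ 0`: `Wx (u, 1/2 + a, t) = L • Wx (u, -1/2 + a, t) = L • Jv (Wx (-u, 1/2 - a, t))` (`Wx_per_y`, `Wx_neg`, `Gd` holds: for `s_l ≠ 0` or `c_l ≠ 0`..: `(y, t) ≠ (1/2, 1/2)` modulo `ℤ²` as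
  `0 < ε s ≤ 1/16`), with `-u ↔ ζ̄`, `a = ε s c_l`, `1/2 - a = 1/2 + ε s cos (2π (1/2 - l))`, same `t`.  `ζ = 0`: `c_l > 0`: definition; `c_l < 0`: definition at `1/2 - l` and `L • Jv (L • Jv x) = x`
  (`Jv_smul`); `c_l = 0`: `kC0 = (0, 2000 kcs)`, `kcs = ± 1`, `L • Jv (0, v) = (0, L/v)`.
* `Wk0_corner`: `ζ ≠ 0`: `Wx_Cr` (`n = 0`) with `V1_k`, and `Cr_k`.  `ζ = 0`: `c_l = 0` definition; `c_l < 0`: `A (0, v) = (tau, 1000 kcs)` for `v = 2000 kcs/(1 + ksn)`: `|v| ∈ [2000/3, 2000)` (`ksn ∈ (0, 3/5]`,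
  `v² = 2000² (1 - ksn)/(1 + ksn)`), `A_far_pol` with `X = i v`: `JC X - ρ²/JC X = i (1/v + ρ² v) = i /(1000 kcs)` since `1/v + ρ² v = ρ ((1 + sn)/cs + cs/(1 + sn)) = 2 ρ/cs`; `Ai_A`.
  `c_l > 0`: `Wk0_J` and `4000000/(2000 kcs/(1 + |ksn|)) = 2000 kcs/(1 + ksn)`.
* `Wk0_mir`: `Wx (u, y, 1 - t) = mir (Wx (u, y, t))` (`Wx_per`, `Wx_mir`); `kcs (-l) = - kcs l`, `ksn`, `kka` even in `l`; `Ai_mir`.
* `Wk0_ld`: `ζ ≠ 0`: `(l, ζ) ↦ (arg.., y, t)` is locally (up to the period of `u`) a local diffeomorphism (polar coordinates, `0 < ε`), and `Wx_ld`.  `ζ = 0`: (a) `c_l < 0`: near `(l, 0)` `Wk0 = Ai (tv tau (kP0))`;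
  `kP0` is smooth, its derivative at `(l, 0)` is `(dl, dζ) ↦ (1000 ksn kka dζ, 1000 kcs' dl)` (`normSq` has derivative `0` at `0`), `kcs' = ∂_l kcs (0, l) = -2π b a² c_l / w³ ≠ 0` (`kcs_zero`); `Ai_ld`, `tv_ld`.
  (b) `c_l = 0`: `|ksn| ≤ 3/5` near `(l, 0)`, `Wk0 = kC0`, derivative `(2000 kka/(1 + ksn) dζ, 2000 (kcs/(1 + ksn))' dl)`, at `c_l = 0`: `ksn = 0`, `(kcs/(1 + ksn))' = - kcs ksn' ≠ 0`.
  (c) `c_l > 0`: `Wk0_J` : `L • Jv ∘ Wk0 ∘ ((l, ζ) ↦ (1/2 - l, ζ̄))`.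
-/

open scoped Manifold ContDiff Topology
open Set Filter
open Complex (I normSq)

namespace Pool.Agent.CHW

open Pool.Agent.CSG (stp thc)
open Pool.Agent.RSG (ex)

variable {P : Par} {ε : ℝ}

theorem Wk0_glue {l s u : ℝ} (hs : 0 < s) :
    Wk0 P ε (l, s * ex u) = Wx P (u, 1 / 2 + ε * s * Real.cos (2 * Real.pi * l), 1 / 2 + ε * s * Real.sin (2 * Real.pi * l)) := by
  have hne : ((s : ℂ) * ex u) ≠ 0 := mul_ne_zero (Complex.ofReal_ne_zero.2 hs.ne') (RSG.ex_ne u)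
  have hnorm : ‖(s : ℂ) * ex u‖ = s := by
    rw [norm_mul, RSG.ex_norm, mul_one, Complex.norm_real, Real.norm_eq_abs, abs_of_pos hs]
  have harg := RSG.ex_arg (p := (s : ℂ) * ex u)
  rw [hnorm] at harg
  have h1 : ex u = ex (Complex.arg ((s : ℂ) * ex u) / (2 * Real.pi)) :=
    (mul_left_cancel₀ (Complex.ofReal_ne_zero.2 hs.ne') harg).symm
  obtain ⟨m, hm⟩ := RSG.ex_eq_iff.1 h1
  have h2 := Wx_per P u (1 / 2 + ε * s * Real.cos (2 * Real.pi * l))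
    (1 / 2 + ε * s * Real.sin (2 * Real.pi * l)) m 0
  rw [Int.cast_zero, add_zero] at h2
  unfold Wk0
  simp only
  rw [if_pos hne, hnorm, hm, h2]

/-- every nonzero point in polar form -/
theorem KcC_pol {ζ : ℂ} (h : ζ ≠ 0) : ∃ s u : ℝ, 0 < s ∧ s = ‖ζ‖ ∧ ζ = s * ex u :=
  ⟨‖ζ‖, Complex.arg ζ / (2 * Real.pi), norm_pos_iff.2 h, rfl, RSG.ex_arg.symm⟩

theorem KcC_ext {l l' : ℝ} (hc : Real.cos (2 * Real.pi * l') = Real.cos (2 * Real.pi * l))
    (hs : Real.sin (2 * Real.pi * l') = Real.sin (2 * Real.pi * l)) (r : ℝ) :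
    ksn P ε r l' = ksn P ε r l ∧ kcs P ε r l' = kcs P ε r l ∧ kka P ε r l' = kka P ε r l := by
  simp only [ksn, kcs, kka, kg, kf1, kf2, kD, kt2, kTh, hc, hs, and_self]

theorem KcC_refl {l l' : ℝ} (hc : Real.cos (2 * Real.pi * l') = -Real.cos (2 * Real.pi * l))
    (hs : Real.sin (2 * Real.pi * l') = Real.sin (2 * Real.pi * l)) (r : ℝ) :
    ksn P ε r l' = -ksn P ε r l ∧ kcs P ε r l' = kcs P ε r l ∧ kka P ε r l' = kka P ε r l := by
  have e1 : (2 * Real.pi * ε * -Real.cos (2 * Real.pi * l)) ^ 2 = (2 * Real.pi * ε * Real.cos (2 * Real.pi * l)) ^ 2 := by ring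
  have e2 : (ε * -Real.cos (2 * Real.pi * l)) ^ 2 = (ε * Real.cos (2 * Real.pi * l)) ^ 2 := by ring
  have hTh : kTh P ε r l' = kTh P ε r l := by simp only [kTh, hc, e1]
  have ht2 : kt2 P ε r l' = kt2 P ε r l := by simp only [kt2, hc, hTh, e2]
  have hD : kD P ε r l' = kD P ε r l := by simp only [kD, ht2, hs]
  have hf1 : kf1 P ε r l' = kf1 P ε r l := by simp only [kf1, hTh, hD]
  have hf2 : kf2 P ε r l' = kf2 P ε r l := by simp only [kf2, ht2, hD, hs]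
  have hg : kg P ε r l' = kg P ε r l := by
    simp only [kg, hf1, hf2, hc, hs]
    congr 1
    ring
  refine ⟨?_, ?_, ?_⟩
  · simp only [ksn, hf1, hg, hc]
    ring
  · simp only [kcs, hf2, hg, hs]
  · simp only [kka, hg]

theorem KcC_mir {l l' : ℝ} (hc : Real.cos (2 * Real.pi * l') = Real.cos (2 * Real.pi * l))
    (hs : Real.sin (2 * Real.pi * l') = -Real.sin (2 * Real.pi * l)) (r : ℝ) :
    ksn P ε r l' = ksn P ε r l ∧ kcs P ε r l' = -kcs P ε r l ∧ kka P ε r l' = kka P ε r l := by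
  have e1 : (2 * Real.pi * ε * -Real.sin (2 * Real.pi * l)) ^ 2 = (2 * Real.pi * ε * Real.sin (2 * Real.pi * l)) ^ 2 := by ring
  have hTh : kTh P ε r l' = kTh P ε r l := by simp only [kTh, hc]
  have ht2 : kt2 P ε r l' = kt2 P ε r l := by simp only [kt2, hc, hTh]
  have hD : kD P ε r l' = kD P ε r l := by simp only [kD, ht2, hs, e1]
  have hf1 : kf1 P ε r l' = kf1 P ε r l := by simp only [kf1, hTh, hD]
  have hf2 : kf2 P ε r l' = kf2 P ε r l := by simp only [kf2, ht2, hD, hs, e1]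
  have hg : kg P ε r l' = kg P ε r l := by
    simp only [kg, hf1, hf2, hc, hs]
    congr 1
    ring
  refine ⟨?_, ?_, ?_⟩
  · simp only [ksn, hf1, hg, hc]
  · simp only [kcs, hf2, hg, hs]
    ring
  · simp only [kka, hg]

theorem KcC_cper (l : ℝ) (n : ℤ) : Real.cos (2 * Real.pi * (l + n)) = Real.cos (2 * Real.pi * l) ∧
    Real.sin (2 * Real.pi * (l + n)) = Real.sin (2 * Real.pi * l) := by
  have e : 2 * Real.pi * (l + n) = 2 * Real.pi * l + n * (2 * Real.pi) := by ring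
  rw [e, Real.cos_add_int_mul_two_pi, Real.sin_add_int_mul_two_pi]
  exact ⟨rfl, rfl⟩

theorem KcC_chalf (l : ℝ) : Real.cos (2 * Real.pi * (1 / 2 - l)) = -Real.cos (2 * Real.pi * l) ∧
    Real.sin (2 * Real.pi * (1 / 2 - l)) = Real.sin (2 * Real.pi * l) := by
  have e : 2 * Real.pi * (1 / 2 - l) = Real.pi - 2 * Real.pi * l := by ring
  rw [e, Real.cos_pi_sub, Real.sin_pi_sub]
  exact ⟨rfl, rfl⟩

theorem KcC_cneg (l : ℝ) : Real.cos (2 * Real.pi * (-l)) = Real.cos (2 * Real.pi * l) ∧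
    Real.sin (2 * Real.pi * (-l)) = -Real.sin (2 * Real.pi * l) := by
  have e : 2 * Real.pi * (-l) = -(2 * Real.pi * l) := by ring
  rw [e, Real.cos_neg, Real.sin_neg]
  exact ⟨rfl, rfl⟩

theorem Wk0_per (l : ℝ) (ζ : ℂ) (n : ℤ) : Wk0 P ε (l + n, ζ) = Wk0 P ε (l, ζ) := by
  obtain ⟨hc, hs⟩ := KcC_cper l n
  have e : (1 : ℝ) / 2 - (l + n) = (1 / 2 - l) + ((-n : ℤ) : ℝ) := by push_cast; ring
  obtain ⟨hc', hs'⟩ := KcC_cper (1 / 2 - l) (-n)
  rw [← e] at hc' hs'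
  have h1 : ∀ r, _ := fun r => KcC_ext (P := P) (ε := ε) hc hs r
  have h2 : ∀ r, _ := fun r => KcC_ext (P := P) (ε := ε) hc' hs' r
  unfold Wk0
  simp only [kP0, kC0, hc, hs, (h1 _).1, (h1 _).2.1, (h1 _).2.2, (h2 _).1, (h2 _).2.1, (h2 _).2.2]

theorem KcC_p_le (hε : 0 < ε) (hε' : ε ≤ 1 / 16) {s : ℝ} (hs : 0 ≤ s) (hs' : s ≤ 1) {x : ℝ} (hx : |x| ≤ 1) :
    |ε * s * x| ≤ 1 / 16 := by
  rw [abs_mul, abs_mul, abs_of_pos hε, abs_of_nonneg hs]
  have h1 : ε * s ≤ 1 / 16 * 1 := mul_le_mul hε' hs' hs (by norm_num)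
  have h2 : ε * s * |x| ≤ 1 / 16 * 1 * 1 := mul_le_mul h1 hx (abs_nonneg _) (by norm_num)
  linarith

theorem KcC_gd (hε : 0 < ε) (hε' : ε ≤ 1 / 16) {s : ℝ} (hs : 0 < s) (hs' : s ≤ 1) (u l : ℝ) {y t : ℝ}
    (hy : y = 1 / 2 + ε * s * Real.cos (2 * Real.pi * l)) (ht : t = 1 / 2 + ε * s * Real.sin (2 * Real.pi * l)) :
    Gd (u, y, t) := by
  have hc := KcC_p_le hε hε' hs.le hs' (Real.abs_cos_le_one (2 * Real.pi * l))
  have hsn := KcC_p_le hε hε' hs.le hs' (Real.abs_sin_le_one (2 * Real.pi * l))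
  rw [abs_le] at hc hsn
  constructor
  · rintro ⟨m, n, h1, h2⟩
    simp only at h2
    have h3 : (0 : ℝ) < n := by linarith
    have h4 : (n : ℝ) < 1 := by linarith
    have h5 : (0 : ℤ) < n := by exact_mod_cast h3
    have h6 : n < 1 := by exact_mod_cast h4
    omega
  · rintro ⟨m, n, h1, h2⟩
    simp only at h1 h2
    have h3 : (-1 : ℝ) < m := by linarith
    have h4 : (m : ℝ) < 1 := by linarith
    have h5 : (-1 : ℤ) < m := by exact_mod_cast h3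
    have h6 : m < 1 := by exact_mod_cast h4
    have h7 : m = 0 := by omega
    have h3 : (-1 : ℝ) < n := by linarith
    have h4 : (n : ℝ) < 1 := by linarith
    have h5 : (-1 : ℤ) < n := by exact_mod_cast h3
    have h6 : n < 1 := by exact_mod_cast h4
    have h8 : n = 0 := by omega
    rw [h7, Int.cast_zero] at h1
    rw [h8, Int.cast_zero] at h2
    have hp : 0 < ε * s := mul_pos hε hs
    have h9 : ε * s * Real.cos (2 * Real.pi * l) = 0 := by linarith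
    have h10 : ε * s * Real.sin (2 * Real.pi * l) = 0 := by linarith
    have h11 := (mul_eq_zero.1 h9).resolve_left hp.ne'
    have h12 := (mul_eq_zero.1 h10).resolve_left hp.ne'
    have h13 := Real.sin_sq_add_cos_sq (2 * Real.pi * l)
    rw [h11, h12] at h13
    norm_num at h13

theorem KcC_kP0_zero (l : ℝ) : kP0 P ε (l, 0) = (0, 1000 * kcs P ε 0 l) := by
  unfold kP0
  simp only [map_zero, mul_zero, chq_zero, mul_one]

theorem KcC_kC0_zero (l : ℝ) : kC0 P ε (l, 0) = (0, 2000 * kcs P ε 0 l / (1 + ksn P ε 0 l)) := by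
  unfold kC0
  simp only [map_zero, mul_zero, chq_zero]

theorem Wk0_in (h : P.Ok) (hε : 0 < ε) (hε' : ε ≤ 1 / 16) {l : ℝ} {ζ : ℂ} (hζ : ‖ζ‖ ≤ 1)
    (hl : Real.cos (2 * Real.pi * l) < 0) :
    tv (tau P.c) (kP0 P ε (l, ζ)) ∉ SlA P.c ∧ Wk0 P ε (l, ζ) = Ai P.c (tv (tau P.c) (kP0 P ε (l, ζ))) := by
  obtain ⟨hc0, hc1, hc2⟩ := Ok_c h
  by_cases hz : ζ = 0
  · subst hz
    constructor
    · rw [KcC_kP0_zero]
      have hs := k_sq h hε hε' (le_refl (0 : ℝ)) zero_le_one l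
      have hp := ((ksn_pos h hε hε' (le_refl (0 : ℝ)) zero_le_one l).1).2 hl
      have htau := (tau_bounds hc0 hc2).1
      have htau1 : 1 < tau P.c := by nlinarith
      intro hmem
      rcases hmem with h1 | h1 | h1
      · have h2 : 1000 ≤ |1000 * kcs P ε 0 l| := h1.2
        rw [abs_mul, abs_of_pos (by norm_num : (0 : ℝ) < 1000)] at h2
        have h3 : 1 ≤ |kcs P ε 0 l| := by linarith
        have h4 : 1 ≤ kcs P ε 0 l ^ 2 := by
          rw [← sq_abs]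
          nlinarith
        nlinarith
      · have h2 := congrArg (fun x : F3 => x.1.re) h1
        simp only [tv, Prod.fst_zero, Complex.zero_re, Complex.add_re, Complex.ofReal_re, zero_add] at h2
        linarith
      · have h2 := congrArg Complex.re h1.1
        have h3 : q2 (tv (tau P.c) ((0 : ℂ), 1000 * kcs P ε 0 l)) = tau P.c ^ 2 + (1000 * kcs P ε 0 l) ^ 2 := by
          simp only [q2, tv, zero_add, Complex.normSq_ofReal]
          ring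
        have h4 : ((Jv (tv (tau P.c) ((0 : ℂ), 1000 * kcs P ε 0 l))).1).re =
            tau P.c / q2 (tv (tau P.c) ((0 : ℂ), 1000 * kcs P ε 0 l)) := by
          unfold Jv
          simp only [tv, zero_add, Complex.conj_ofReal]
          rw [← Complex.ofReal_div, Complex.ofReal_re]
        rw [h4, h3, Complex.ofReal_re] at h2
        have h5 : 1 < tau P.c ^ 2 + (1000 * kcs P ε 0 l) ^ 2 := by nlinarith [sq_nonneg (1000 * kcs P ε 0 l)]
        rw [div_eq_iff (by linarith)] at h2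
        nlinarith
    · unfold Wk0
      simp only [ne_eq, not_true_eq_false, if_false, if_pos hl]
  · obtain ⟨s, u, hs, hsn, rfl⟩ := KcC_pol hz
    have hs1 : s ≤ 1 := by rw [hsn]; exact hζ
    have hb := KcC_p_le hε hε' hs.le hs1 (Real.abs_cos_le_one (2 * Real.pi * l))
    rw [abs_le] at hb
    have hp : 0 < -(ε * s * Real.cos (2 * Real.pi * l)) := by
      have : 0 < ε * s := mul_pos hε hs
      nlinarith
    set p := -(ε * s * Real.cos (2 * Real.pi * l)) with hpdef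
    have hp' : p ≤ 1 / 8 := by linarith
    have hy : |(1 / 2 + ε * s * Real.cos (2 * Real.pi * l)) - ((0 : ℤ) : ℝ)| < 1 / 2 := by
      rw [abs_lt, Int.cast_zero]
      constructor <;> linarith
    have h1 := Wx_W0 P hy u (1 / 2 + ε * s * Real.sin (2 * Real.pi * l))
    rw [zpow_zero, one_smul, Int.cast_zero, sub_zero] at h1
    have h2 : Wk0 P ε (l, s * ex u) = W0 P (u, 1 / 2 - p, 1 / 2 + ε * s * Real.sin (2 * Real.pi * l)) := by
      rw [Wk0_glue hs, h1, hpdef]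
      ring_nf
    have h3 := W0_EE (t := 1 / 2 + ε * s * Real.sin (2 * Real.pi * l)) (u := u) h hp hp'
    rw [hpdef, pol_P0 h hε hε' hs hs1 l u, ← hpdef] at h3
    have hy2 : |1 / 2 - p| < 1 / 2 := by
      rw [abs_lt]
      constructor <;> linarith
    have hl2 : ¬ LatU u (1 / 2 - p) := by
      rintro ⟨m, n, h4, h5⟩
      have h6 : (0 : ℝ) < n := by linarith
      have h7 : (n : ℝ) < 1 := by linarith
      have h8 : (0 : ℤ) < n := by exact_mod_cast h6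
      have h9 : n < 1 := by exact_mod_cast h7
      omega
    have hSh := W0_Sh h (1 / 2 + ε * s * Real.sin (2 * Real.pi * l)) hy2 hl2
    rw [h2, ← h3]
    exact ⟨A_mem hc0 hc2 hSh, (Ai_A hc0 hc2 hSh).symm⟩

theorem Wk0_J (h : P.Ok) (hε : 0 < ε) (hε' : ε ≤ 1 / 16) (l : ℝ) {ζ : ℂ} (hζ : ‖ζ‖ ≤ 1) :
    Wk0 P ε (l, ζ) = (4000000 : ℝ) • Jv (Wk0 P ε (1 / 2 - l, (starRingEnd ℂ) ζ)) := by
  obtain ⟨hch, hsh⟩ := KcC_chalf l
  by_cases hz : ζ = 0
  · subst hz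
    rw [map_zero]
    rcases lt_trichotomy (Real.cos (2 * Real.pi * l)) 0 with hl | hl | hl
    · have h1 : Wk0 P ε (l, 0) = Ai P.c (tv (tau P.c) (kP0 P ε (l, 0))) := by
        unfold Wk0
        simp only [ne_eq, not_true_eq_false, if_false, if_pos hl]
      have h2 : Wk0 P ε (1 / 2 - l, 0) = (4000000 : ℝ) • Jv (Ai P.c (tv (tau P.c) (kP0 P ε (l, 0)))) := by
        unfold Wk0
        have e1 : ¬ (-Real.cos (2 * Real.pi * l) < 0) := by linarith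
        have e2 : ¬ (-Real.cos (2 * Real.pi * l) = 0) := by linarith
        have e3 : (1 : ℝ) / 2 - (1 / 2 - l) = l := by ring
        simp only [ne_eq, not_true_eq_false, if_false, hch, if_neg e1, if_neg e2, e3]
      rw [h1, h2, Jv_smul, Jv_Jv, smul_smul]
      norm_num
    · have hk := KcC_refl (P := P) (ε := ε) hch hsh 0
      have hsn : ksn P ε 0 l = 0 := ((ksn_pos h hε hε' (le_refl (0 : ℝ)) zero_le_one l).2).2 hl
      have hsq := k_sq h hε hε' (le_refl (0 : ℝ)) zero_le_one l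
      rw [hsn] at hsq
      have h1 : Wk0 P ε (l, 0) = (0, 2000 * kcs P ε 0 l) := by
        unfold Wk0
        have e1 : ¬ (Real.cos (2 * Real.pi * l) < 0) := by linarith
        simp only [ne_eq, not_true_eq_false, if_false, if_neg e1, if_pos hl]
        rw [KcC_kC0_zero, hsn]
        norm_num
      have h2 : Wk0 P ε (1 / 2 - l, 0) = (0, 2000 * kcs P ε 0 l) := by
        unfold Wk0
        have e1 : ¬ (-Real.cos (2 * Real.pi * l) < 0) := by linarith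
        have e2 : (-Real.cos (2 * Real.pi * l) = 0) := by linarith
        simp only [ne_eq, not_true_eq_false, if_false, hch, if_neg e1, if_pos e2]
        rw [KcC_kC0_zero, hk.1, hk.2.1, hsn]
        norm_num
      rw [h1, h2]
      unfold Jv q2
      simp only [map_zero, zero_div, zero_add, Prod.smul_mk, smul_zero, smul_eq_mul]
      have h3 : kcs P ε 0 l ≠ 0 := by
        intro h4
        rw [h4] at hsq
        norm_num at hsq
      congr 1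
      field_simp
      nlinarith
    · have h1 : Wk0 P ε (l, 0) = (4000000 : ℝ) • Jv (Ai P.c (tv (tau P.c) (kP0 P ε (1 / 2 - l, 0)))) := by
        unfold Wk0
        have e1 : ¬ (Real.cos (2 * Real.pi * l) < 0) := by linarith
        have e2 : ¬ (Real.cos (2 * Real.pi * l) = 0) := by linarith
        simp only [ne_eq, not_true_eq_false, if_false, if_neg e1, if_neg e2]
      have h2 : Wk0 P ε (1 / 2 - l, 0) = Ai P.c (tv (tau P.c) (kP0 P ε (1 / 2 - l, 0))) := by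
        unfold Wk0
        have e1 : (-Real.cos (2 * Real.pi * l) < 0) := by linarith
        simp only [ne_eq, not_true_eq_false, if_false, hch, if_pos e1]
      rw [h1, h2]
  · obtain ⟨s, u, hs, hsn, rfl⟩ := KcC_pol hz
    have hs1 : s ≤ 1 := by rw [hsn]; exact hζ
    have e0 : (starRingEnd ℂ) ((s : ℂ) * ex u) = (s : ℂ) * ex (-u) := by
      rw [map_mul, Complex.conj_ofReal, RSG.ex_neg]
    rw [e0, Wk0_glue hs, Wk0_glue hs, hch, hsh]
    have e1 : (1 : ℝ) / 2 + ε * s * -Real.cos (2 * Real.pi * l) = 1 / 2 - ε * s * Real.cos (2 * Real.pi * l) := by ring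
    rw [e1]
    have hg : Gd (-u, 1 / 2 - ε * s * Real.cos (2 * Real.pi * l), 1 / 2 + ε * s * Real.sin (2 * Real.pi * l)) := by
      refine KcC_gd hε hε' hs hs1 (-u) (1 / 2 - l) ?_ ?_
      · rw [hch]; ring
      · rw [hsh]
    have h1 := Wx_neg h hg
    rw [neg_neg] at h1
    have h2 := Wx_per_y P u (-(1 / 2 - ε * s * Real.cos (2 * Real.pi * l)))
      (1 / 2 + ε * s * Real.sin (2 * Real.pi * l)) 1
    rw [h1, zpow_one, Int.cast_one] at h2
    rw [← h2]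
    congr 2
    ring_nf

theorem KcC_mir_smul (a : ℝ) (x : F3) : mir (a • x) = a • mir x := by
  unfold mir
  simp only [Prod.smul_fst, Prod.smul_snd, Prod.smul_mk, smul_neg]

theorem KcC_mir_tv (a : ℝ) (x : F3) : mir (tv a x) = tv a (mir x) := rfl

theorem Wk0_mir (h : P.Ok) (hε : 0 < ε) (hε' : ε ≤ 1 / 16) (l : ℝ) {ζ : ℂ} (hζ : ‖ζ‖ ≤ 1) :
    Wk0 P ε (-l, ζ) = mir (Wk0 P ε (l, ζ)) := by
  obtain ⟨hc0, hc1, hc2⟩ := Ok_c h
  by_cases hz : ζ = 0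
  · subst hz
    have key : ∀ l : ℝ, Real.cos (2 * Real.pi * l) ≤ 0 → Wk0 P ε (-l, 0) = mir (Wk0 P ε (l, 0)) := by
      intro l hl0
      obtain ⟨hcn, hsn⟩ := KcC_cneg l
      have hk := KcC_mir (P := P) (ε := ε) hcn hsn 0
      rcases lt_or_eq_of_le hl0 with hl | hl
      · have h1 := Wk0_in h hε hε' (ζ := 0) (by simp) hl
        have h2 := Wk0_in h hε hε' (ζ := 0) (l := -l) (by simp) (by rw [hcn]; exact hl)
        rw [h2.2, h1.2, ← Ai_mir hc0 hc2 h1.1, KcC_mir_tv]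
        congr 2
        rw [KcC_kP0_zero, KcC_kP0_zero, hk.2.1]
        unfold mir
        simp only
        congr 1
        ring
      · have e1 : ¬ (Real.cos (2 * Real.pi * l) < 0) := by linarith
        unfold Wk0
        simp only [ne_eq, not_true_eq_false, if_false, hcn, if_neg e1, if_pos hl]
        rw [KcC_kC0_zero, KcC_kC0_zero, hk.1, hk.2.1]
        unfold mir
        simp only
        congr 1
        ring
    rcases le_or_gt (Real.cos (2 * Real.pi * l)) 0 with hl | hl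
    · exact key l hl
    · have h1 := Wk0_J h hε hε' l (ζ := 0) (by simp)
      have h2 := Wk0_J h hε hε' (-l) (ζ := 0) (by simp)
      rw [map_zero] at h1 h2
      have h3 := key (1 / 2 - l) (by rw [(KcC_chalf l).1]; linarith)
      have h4 := Wk0_per (P := P) (ε := ε) (-(1 / 2 - l)) 0 1
      have e1 : -(1 / 2 - l) + ((1 : ℤ) : ℝ) = 1 / 2 - -l := by
        rw [Int.cast_one]; ring
      rw [e1] at h4
      rw [h2, h4, h3, h1, Jv_mir, KcC_mir_smul]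
  · obtain ⟨s, u, hs, hsn, rfl⟩ := KcC_pol hz
    have hs1 : s ≤ 1 := by rw [hsn]; exact hζ
    obtain ⟨hcn, hsn'⟩ := KcC_cneg l
    rw [Wk0_glue hs, Wk0_glue hs, hcn, hsn']
    have hg : Gd (u, 1 / 2 + ε * s * Real.cos (2 * Real.pi * l), 1 / 2 + ε * s * Real.sin (2 * Real.pi * l)) :=
      KcC_gd hε hε' hs hs1 u l rfl rfl
    have h1 := Wx_mir h hg
    have h2 := Wx_per P u (1 / 2 + ε * s * Real.cos (2 * Real.pi * l))
      (-(1 / 2 + ε * s * Real.sin (2 * Real.pi * l))) 0 1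
    rw [Int.cast_zero, add_zero, Int.cast_one] at h2
    rw [← h1, ← h2]
    congr 3
    ring

theorem KcC_axis (h : P.Ok) {v a : ℝ} (ha : a ≠ 0) (hv1 : 2000 / 3 ≤ |v|) (hv2 : |v| < 2000)
    (hva : 1 / v + (1 / 2000) ^ 2 * v = 1 / a) : Ai P.c (tv (tau P.c) ((0 : ℂ), a)) = ((0 : ℂ), v) := by
  obtain ⟨hc0, hc1, hc2⟩ := Ok_c h
  have hv0 : v ≠ 0 := by
    intro hv
    rw [hv, abs_zero] at hv1
    norm_num at hv1
  have hpol : ∀ w : ℝ, pol 0 (⟨0, w⟩ : ℂ) = ((0 : ℂ), w) := by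
    intro w
    unfold pol
    simp
  have hJC : ∀ w : ℝ, w ≠ 0 → JC (⟨0, w⟩ : ℂ) = ⟨0, 1 / w⟩ := by
    intro w hw
    unfold JC
    apply Complex.ext
    · simp [Complex.div_re]
    · simp [Complex.div_im, Complex.normSq_apply]
  have hI : ∀ w : ℝ, (⟨0, w⟩ : ℂ) = (w : ℂ) * I := by
    intro w
    apply Complex.ext <;> simp
  have hn : ‖(⟨0, v⟩ : ℂ)‖ = |v| := by
    have e : (⟨0, v⟩ : ℂ) = (v : ℂ) * I := by
      apply Complex.ext <;> simp
    rw [e, norm_mul, Complex.norm_I, mul_one, Complex.norm_real, Real.norm_eq_abs]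
  have h1 := A_far_pol (c := P.c) (u := 0) (X := (⟨0, v⟩ : ℂ)) (by rw [hn]; exact hv1) (by rw [hn]; exact hv2)
  have h2 : (⟨0, 1 / v⟩ : ℂ) - (1 / 2000) ^ 2 / (⟨0, 1 / v⟩ : ℂ) = ⟨0, 1 / a⟩ := by
    have hvc : (v : ℂ) ≠ 0 := by exact_mod_cast hv0
    rw [← hva, hI, hI]
    push_cast
    field_simp
    rw [Complex.I_sq]
    ring
  have h3 : JC (⟨0, 1 / a⟩ : ℂ) = ⟨0, a⟩ := by
    rw [hJC _ (one_div_ne_zero ha)]
    congr 1
    field_simp
  rw [hJC v hv0, h2, h3, hpol, hpol] at h1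
  have hSh : ((0 : ℂ), v) ∈ Sh := by
    have e : rr ((0 : ℂ), v) = |v| := by
      unfold rr q2
      simp only [map_zero, zero_add]
      exact Real.sqrt_sq_eq_abs v
    constructor
    · rw [e]; linarith
    · rw [e]; exact hv2
  rw [← h1, Ai_A hc0 hc2 hSh]

theorem KcC_corner_zero (h : P.Ok) (hε : 0 < ε) (hε' : ε ≤ 1 / 16) {l : ℝ}
    (hc : Real.cos (2 * Real.pi * l) < 0) (hl : |ksn P ε 0 l| ≤ 3 / 5) : Wk0 P ε (l, 0) = kC0 P ε (l, 0) := by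
  have hsq := k_sq h hε hε' (le_refl (0 : ℝ)) zero_le_one l
  have hp := ((ksn_pos h hε hε' (le_refl (0 : ℝ)) zero_le_one l).1).2 hc
  rw [abs_le] at hl
  have h1 := (Wk0_in h hε hε' (ζ := 0) (by simp) hc).2
  rw [h1, KcC_kP0_zero, KcC_kC0_zero]
  set σ := ksn P ε 0 l with hσ
  set κ := kcs P ε 0 l with hκ
  have hk2 : κ ^ 2 = 1 - σ ^ 2 := by linarith
  have hk0 : κ ≠ 0 := by
    intro h0
    rw [h0] at hk2
    nlinarith
  have hσ1 : 0 < 1 + σ := by linarith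
  have habs : |2000 * κ / (1 + σ)| ^ 2 = 2000 ^ 2 * ((1 - σ) / (1 + σ)) := by
    rw [sq_abs, div_pow, mul_pow, hk2]
    field_simp
    ring
  refine KcC_axis h (by positivity) ?_ ?_ ?_
  · refine (pow_le_pow_iff_left₀ (by norm_num) (abs_nonneg _) two_ne_zero).1 ?_
    rw [habs]
    have h2 : 1 / 4 ≤ (1 - σ) / (1 + σ) := by
      rw [div_le_div_iff₀ (by norm_num) hσ1]
      linarith
    nlinarith
  · refine (pow_lt_pow_iff_left₀ (abs_nonneg _) (by norm_num) two_ne_zero).1 ?_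
    rw [habs]
    have h2 : (1 - σ) / (1 + σ) < 1 := by
      rw [div_lt_one hσ1]
      linarith
    nlinarith
  · field_simp
    nlinarith

theorem Wk0_corner (h : P.Ok) (hε : 0 < ε) (hε' : ε ≤ 1 / 16) {l : ℝ} {ζ : ℂ} (hζ : ‖ζ‖ ≤ 1)
    (hl : |ksn P ε (normSq ζ) l| ≤ 3 / 5) : Wk0 P ε (l, ζ) = kC0 P ε (l, ζ) := by
  by_cases hz : ζ = 0
  · subst hz
    rw [map_zero] at hl
    rcases lt_trichotomy (Real.cos (2 * Real.pi * l)) 0 with hc | hc | hc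
    · exact KcC_corner_zero h hε hε' hc hl
    · have e1 : ¬ (Real.cos (2 * Real.pi * l) < 0) := by linarith
      unfold Wk0
      simp only [ne_eq, not_true_eq_false, if_false, if_neg e1, if_pos hc]
    · obtain ⟨hch, hsh⟩ := KcC_chalf l
      have hk := KcC_refl (P := P) (ε := ε) hch hsh 0
      have h1 := Wk0_J h hε hε' l (ζ := 0) (by simp)
      rw [map_zero] at h1
      have h2 := KcC_corner_zero h hε hε' (l := 1 / 2 - l) (by rw [hch]; linarith) (by rw [hk.1, abs_neg]; exact hl)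
      rw [h1, h2, KcC_kC0_zero, KcC_kC0_zero, hk.1, hk.2.1]
      have hsq := k_sq h hε hε' (le_refl (0 : ℝ)) zero_le_one l
      rw [abs_le] at hl
      set σ := ksn P ε 0 l with hσ
      set κ := kcs P ε 0 l with hκ
      have hk2 : κ ^ 2 = 1 - σ ^ 2 := by linarith
      have hk0 : κ ≠ 0 := by
        intro h0
        rw [h0] at hk2
        nlinarith
      have hσ1 : 0 < 1 + σ := by linarith
      have hσ2 : 0 < 1 + -σ := by linarith
      unfold Jv q2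
      simp only [map_zero, zero_div, zero_add, Prod.smul_mk, smul_zero, smul_eq_mul]
      congr 1
      field_simp
      rw [hk2]
      ring
  · obtain ⟨s, u, hs, hsn, rfl⟩ := KcC_pol hz
    have hs1 : s ≤ 1 := by rw [hsn]; exact hζ
    have hns : normSq ((s : ℂ) * ex u) = s ^ 2 := by
      rw [Complex.normSq_eq_norm_sq, ← hsn]
    rw [hns] at hl
    have hb := KcC_p_le hε hε' hs.le hs1 (Real.abs_cos_le_one (2 * Real.pi * l))
    have h1 := V1_k h hε hε' hs hs1 hl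
    have h2 := Wx_Cr h (p := -(ε * s * Real.cos (2 * Real.pi * l))) (by rw [abs_neg]; linarith) h1 0 u
    rw [zpow_zero, one_smul, Int.cast_zero, Cr_k h hε hε' hs hs1 l u] at h2
    rw [Wk0_glue hs, ← h2]
    congr 3
    ring

theorem Wk0_ne (h : P.Ok) (hε : 0 < ε) (hε' : ε ≤ 1 / 16) (l : ℝ) {ζ : ℂ} (hζ : ‖ζ‖ ≤ 1) : Wk0 P ε (l, ζ) ≠ 0 := by
  obtain ⟨hc0, hc1, hc2⟩ := Ok_c h
  by_cases hz : ζ = 0
  · subst hz
    have key : ∀ l : ℝ, Real.cos (2 * Real.pi * l) ≤ 0 → Wk0 P ε (l, 0) ≠ 0 := by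
      intro l hl0
      rcases lt_or_eq_of_le hl0 with hl | hl
      · have h1 := Wk0_in h hε hε' (ζ := 0) (by simp) hl
        have h2 := Ai_mem hc0 hc2 h1.1
        rw [h1.2]
        intro h3
        have h4 := h2.1
        rw [h3, rr_eq_zero.2 rfl] at h4
        norm_num at h4
      · have hsn : ksn P ε 0 l = 0 := ((ksn_pos h hε hε' (le_refl (0 : ℝ)) zero_le_one l).2).2 hl
        have hsq := k_sq h hε hε' (le_refl (0 : ℝ)) zero_le_one l
        rw [hsn] at hsq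
        have h1 := Wk0_corner h hε hε' (l := l) (ζ := 0) (by simp) (by rw [map_zero, hsn, abs_zero]; norm_num)
        rw [h1, KcC_kC0_zero, hsn]
        intro h3
        have h4 := congrArg Prod.snd h3
        simp only [Prod.snd_zero, add_zero, div_one] at h4
        have h5 : kcs P ε 0 l = 0 := by linarith
        rw [h5] at hsq
        norm_num at hsq
    rcases le_or_gt (Real.cos (2 * Real.pi * l)) 0 with hl | hl
    · exact key l hl
    · have h1 := Wk0_J h hε hε' l (ζ := 0) (by simp)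
      rw [map_zero] at h1
      rw [h1]
      exact smul_ne_zero (by norm_num) (Jv_ne (key (1 / 2 - l) (by rw [(KcC_chalf l).1]; linarith)))
  · obtain ⟨s, u, hs, hsn, rfl⟩ := KcC_pol hz
    have hs1 : s ≤ 1 := by rw [hsn]; exact hζ
    rw [Wk0_glue hs]
    exact Wx_ne h (KcC_gd hε hε' hs hs1 u l rfl rfl)

/-! ### the local diffeomorphism property -/

theorem KcC_nsq (x : ℝ × ℂ) : ContDiffAt ℝ ∞ (fun q : ℝ × ℂ => (normSq q.2, q.1)) x := by
  have h1 : ContDiff ℝ ∞ (fun q : ℝ × ℂ => q.2.re * q.2.re + q.2.im * q.2.im) :=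
    ((Complex.reCLM.contDiff.comp contDiff_snd).mul (Complex.reCLM.contDiff.comp contDiff_snd)).add
      ((Complex.imCLM.contDiff.comp contDiff_snd).mul (Complex.imCLM.contDiff.comp contDiff_snd))
  have h2 : (fun q : ℝ × ℂ => (normSq q.2, q.1)) = fun q : ℝ × ℂ => (q.2.re * q.2.re + q.2.im * q.2.im, q.1) := by
    funext q
    rw [Complex.normSq_apply]
  rw [h2]
  exact (h1.prodMk contDiff_fst).contDiffAt

theorem KcC_nsq_fderiv (l : ℝ) : HasFDerivAt (fun q : ℝ × ℂ => (normSq q.2, q.1))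
    ((0 : ℝ × ℂ →L[ℝ] ℝ).prod (ContinuousLinearMap.fst ℝ ℝ ℂ)) (l, 0) := by
  refine HasFDerivAt.prodMk ?_ hasFDerivAt_fst
  have h1 : HasFDerivAt (fun z : ℂ => ‖z‖ ^ 2) (0 : ℂ →L[ℝ] ℝ) 0 := by
    have h2 := (hasStrictFDerivAt_norm_sq (0 : ℂ)).hasFDerivAt
    simpa using h2
  have h3 : HasFDerivAt (fun q : ℝ × ℂ => ‖q.2‖ ^ 2) ((0 : ℂ →L[ℝ] ℝ).comp (ContinuousLinearMap.snd ℝ ℝ ℂ)) (l, 0) :=
    HasFDerivAt.comp (l, 0) (g := fun z : ℂ => ‖z‖ ^ 2) h1 hasFDerivAt_snd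
  rw [ContinuousLinearMap.zero_comp] at h3
  refine h3.congr_of_eventuallyEq (Eventually.of_forall ?_)
  intro q
  exact Complex.normSq_eq_norm_sq q.2

theorem KcC_axis_ld {F1 F2 : ℝ × ℝ → ℝ} {l d : ℝ}
    (h1 : ∀ᶠ q in 𝓝 ((l, 0) : ℝ × ℂ), ContDiffAt ℝ ∞ F1 (normSq q.2, q.1))
    (h2 : ∀ᶠ q in 𝓝 ((l, 0) : ℝ × ℂ), ContDiffAt ℝ ∞ F2 (normSq q.2, q.1))
    (h3 : F1 (0, l) ≠ 0) (hd : d ≠ 0) (h4 : HasDerivAt (fun x => F2 (0, x)) d l) :
    LD (fun q : ℝ × ℂ => (((F1 (normSq q.2, q.1) : ℝ) : ℂ) * q.2, F2 (normSq q.2, q.1)) : ℝ × ℂ → F3) (l, 0) := by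
  have e0 : (normSq ((l, 0) : ℝ × ℂ).2, ((l, 0) : ℝ × ℂ).1) = ((0 : ℝ), l) := by simp
  refine CSG.ld_of_fderiv ?_ ?_ ?_
  · filter_upwards [h1, h2] with q hq1 hq2
    have hN := KcC_nsq q
    have k1 : ContDiffAt ℝ ∞ (fun q : ℝ × ℂ => F1 (normSq q.2, q.1)) q := ContDiffAt.comp q hq1 hN
    have k2 : ContDiffAt ℝ ∞ (fun q : ℝ × ℂ => F2 (normSq q.2, q.1)) q := ContDiffAt.comp q hq2 hN
    exact ((Complex.ofRealCLM.contDiff.contDiffAt.comp q k1).mul contDiff_snd.contDiffAt).prodMk k2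
  · show Module.finrank ℝ (ℝ × ℂ) = Module.finrank ℝ (ℂ × ℝ)
    simp
  · have a1 := h1.self_of_nhds
    have a2 := h2.self_of_nhds
    rw [e0] at a1 a2
    have hN := KcC_nsq_fderiv l
    have b1 : HasFDerivAt F1 (fderiv ℝ F1 (0, l)) (normSq ((l, 0) : ℝ × ℂ).2, ((l, 0) : ℝ × ℂ).1) := by
      rw [e0]
      exact (a1.differentiableAt (by simp)).hasFDerivAt
    have b2 : HasFDerivAt F2 (fderiv ℝ F2 (0, l)) (normSq ((l, 0) : ℝ × ℂ).2, ((l, 0) : ℝ × ℂ).1) := by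
      rw [e0]
      exact (a2.differentiableAt (by simp)).hasFDerivAt
    have c1 := HasFDerivAt.comp (l, 0) (g := F1) b1 hN
    have c2 := HasFDerivAt.comp (l, 0) (g := F2) b2 hN
    have c3 := HasFDerivAt.prodMk (HasFDerivAt.smul c1 (hasFDerivAt_snd (𝕜 := ℝ) (p := ((l, 0) : ℝ × ℂ)))) c2
    have e1 : (fun q : ℝ × ℂ => (((F1 (normSq q.2, q.1) : ℝ) : ℂ) * q.2, F2 (normSq q.2, q.1))) =
        fun q : ℝ × ℂ => ((F1 ∘ fun q : ℝ × ℂ => (normSq q.2, q.1)) q • q.2, (F2 ∘ fun q : ℝ × ℂ => (normSq q.2, q.1)) q) := by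
      funext q
      simp only [Function.comp, Complex.real_smul]
    have c4 : HasDerivAt (fun x => F2 (0, x)) (fderiv ℝ F2 (0, l) (0, 1)) l := by
      have hp : HasDerivAt (fun x : ℝ => ((0 : ℝ), x)) ((0 : ℝ), (1 : ℝ)) l := (hasDerivAt_const l (0 : ℝ)).prodMk (hasDerivAt_id l)
      have b3 : HasFDerivAt F2 (fderiv ℝ F2 (0, l)) (0, l) := (a2.differentiableAt (by simp)).hasFDerivAt
      exact HasFDerivAt.comp_hasDerivAt l (l := F2) b3 hp
    have c5 := c4.unique h4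
    intro v hv
    change fderiv ℝ (fun q : ℝ × ℂ => (((F1 (normSq q.2, q.1) : ℝ) : ℂ) * q.2, F2 (normSq q.2, q.1))) (l, 0) v = 0 at hv
    have c6 : fderiv ℝ (fun q : ℝ × ℂ => ((F1 ∘ fun q : ℝ × ℂ => (normSq q.2, q.1)) q • q.2,
        (F2 ∘ fun q : ℝ × ℂ => (normSq q.2, q.1)) q)) (l, 0) = _ := c3.fderiv
    rw [e1, c6] at hv
    obtain ⟨v1, v2⟩ := v
    have d1 := congrArg Prod.fst hv
    have d2 := congrArg Prod.snd hv
    simp only [ContinuousLinearMap.prod_apply, _root_.add_apply, _root_.smul_apply,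
      ContinuousLinearMap.smulRight_apply, ContinuousLinearMap.coe_snd', ContinuousLinearMap.coe_comp,
      Function.comp_apply, ContinuousLinearMap.coe_fst', smul_zero, add_zero, Prod.fst_zero, map_zero,
      _root_.zero_apply, Prod.snd_zero] at d1 d2
    have d3 : v2 = 0 := (smul_eq_zero.1 d1).resolve_left h3
    have d4 : ((0 : ℝ), v1) = v1 • ((0 : ℝ), (1 : ℝ)) := by simp
    rw [d4, map_smul, c5, smul_eq_mul] at d2
    have d5 : v1 = 0 := (mul_eq_zero.1 d2).resolve_right hd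
    rw [d3, d5]
    rfl

theorem KcC_trig (a b : ℝ) (l : ℝ) :
    HasDerivAt (fun x => -(b * Real.sin (2 * Real.pi * x))) (-(b * (Real.cos (2 * Real.pi * l) * (2 * Real.pi)))) l ∧
    HasDerivAt (fun x => -(a * Real.cos (2 * Real.pi * x))) (-(a * (-Real.sin (2 * Real.pi * l) * (2 * Real.pi)))) l := by
  have h0 : HasDerivAt (fun x : ℝ => 2 * Real.pi * x) (2 * Real.pi) l := by
    simpa using (hasDerivAt_id l).const_mul (2 * Real.pi)
  have h1 : HasDerivAt (fun x : ℝ => Real.sin (2 * Real.pi * x)) (Real.cos (2 * Real.pi * l) * (2 * Real.pi)) l :=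
    HasDerivAt.sin h0
  have h2 : HasDerivAt (fun x : ℝ => Real.cos (2 * Real.pi * x)) (-Real.sin (2 * Real.pi * l) * (2 * Real.pi)) l :=
    HasDerivAt.cos h0
  exact ⟨(h1.const_mul b).neg, (h2.const_mul a).neg⟩

theorem KcC_N_pos {a b : ℝ} (ha : 0 < a) (hb : 0 < b) (l : ℝ) :
    0 < (a * Real.cos (2 * Real.pi * l)) ^ 2 + (b * Real.sin (2 * Real.pi * l)) ^ 2 := by
  have h1 := Real.sin_sq_add_cos_sq (2 * Real.pi * l)
  by_contra hn
  have h2 : (a * Real.cos (2 * Real.pi * l)) ^ 2 = 0 := by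
    nlinarith [sq_nonneg (a * Real.cos (2 * Real.pi * l)), sq_nonneg (b * Real.sin (2 * Real.pi * l))]
  have h3 : (b * Real.sin (2 * Real.pi * l)) ^ 2 = 0 := by
    nlinarith [sq_nonneg (a * Real.cos (2 * Real.pi * l)), sq_nonneg (b * Real.sin (2 * Real.pi * l))]
  have h4 := (mul_eq_zero.1 (pow_eq_zero_iff two_ne_zero |>.1 h2)).resolve_left ha.ne'
  have h5 := (mul_eq_zero.1 (pow_eq_zero_iff two_ne_zero |>.1 h3)).resolve_left hb.ne'
  rw [h4, h5] at h1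
  norm_num at h1

theorem KcC_N_deriv {a b : ℝ} (ha : 0 < a) (hb : 0 < b) (l : ℝ) :
    HasDerivAt (fun x => Real.sqrt ((a * Real.cos (2 * Real.pi * x)) ^ 2 + (b * Real.sin (2 * Real.pi * x)) ^ 2))
      (2 * Real.pi * Real.sin (2 * Real.pi * l) * Real.cos (2 * Real.pi * l) * (b ^ 2 - a ^ 2) /
        Real.sqrt ((a * Real.cos (2 * Real.pi * l)) ^ 2 + (b * Real.sin (2 * Real.pi * l)) ^ 2)) l := by
  obtain ⟨h1, h2⟩ := KcC_trig a b l
  have h3 := (h2.pow 2).add (h1.pow 2)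
  have h4 : HasDerivAt (fun x => (a * Real.cos (2 * Real.pi * x)) ^ 2 + (b * Real.sin (2 * Real.pi * x)) ^ 2)
      (2 * (2 * Real.pi * Real.sin (2 * Real.pi * l) * Real.cos (2 * Real.pi * l) * (b ^ 2 - a ^ 2))) l := by
    refine (h3.congr_of_eventuallyEq (Eventually.of_forall ?_)).congr_deriv ?_
    · intro x
      show (a * Real.cos (2 * Real.pi * x)) ^ 2 + (b * Real.sin (2 * Real.pi * x)) ^ 2 =
        (-(a * Real.cos (2 * Real.pi * x))) ^ 2 + (-(b * Real.sin (2 * Real.pi * x))) ^ 2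
      ring
    · simp
      ring
  have h5 := h4.sqrt (KcC_N_pos ha hb l).ne'
  refine h5.congr_deriv ?_
  rw [mul_div_mul_left _ _ two_ne_zero]

theorem KcC_kcs_deriv (h : P.Ok) (hε : 0 < ε) {l : ℝ} (hl : Real.cos (2 * Real.pi * l) ≠ 0) :
    ∃ d : ℝ, d ≠ 0 ∧ HasDerivAt (fun x => kcs P ε 0 x) d l := by
  obtain ⟨a, b, ha, hb, hk⟩ := kcs_zero h hε
  obtain ⟨h1, h2⟩ := KcC_trig a b l
  have h3 := KcC_N_deriv ha hb l
  have hN := KcC_N_pos ha hb l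
  have hN' := Real.sqrt_pos.2 hN
  have h4 := h1.div h3 hN'.ne'
  have h5 : (fun x => kcs P ε 0 x) = fun x => -(b * Real.sin (2 * Real.pi * x)) /
      Real.sqrt ((a * Real.cos (2 * Real.pi * x)) ^ 2 + (b * Real.sin (2 * Real.pi * x)) ^ 2) := by
    funext x
    exact (hk x).1
  have hsc := Real.sin_sq_add_cos_sq (2 * Real.pi * l)
  refine ⟨-(2 * Real.pi * b * a ^ 2 * Real.cos (2 * Real.pi * l)) /
      Real.sqrt ((a * Real.cos (2 * Real.pi * l)) ^ 2 + (b * Real.sin (2 * Real.pi * l)) ^ 2) ^ 3, ?_, ?_⟩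
  · refine div_ne_zero (neg_ne_zero.2 (mul_ne_zero ?_ hl)) (pow_ne_zero _ hN'.ne')
    have := Real.pi_pos
    positivity
  · rw [h5]
    refine h4.congr_deriv ?_
    have hsq := Real.sq_sqrt hN.le
    set N := Real.sqrt ((a * Real.cos (2 * Real.pi * l)) ^ 2 + (b * Real.sin (2 * Real.pi * l)) ^ 2) with hNd
    set S := Real.sin (2 * Real.pi * l) with hS
    set C := Real.cos (2 * Real.pi * l) with hC
    field_simp
    rw [hsq]
    have e : S ^ 2 = 1 - C ^ 2 := by linarith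
    ring_nf
    rw [e]
    ring

theorem KcC_corner_deriv (h : P.Ok) (hε : 0 < ε) {l : ℝ} (hl : Real.cos (2 * Real.pi * l) = 0) :
    ∃ d : ℝ, d ≠ 0 ∧ HasDerivAt (fun x => 2000 * kcs P ε 0 x / (1 + ksn P ε 0 x)) d l := by
  obtain ⟨a, b, ha, hb, hk⟩ := kcs_zero h hε
  obtain ⟨h1, h2⟩ := KcC_trig a b l
  have h3 := KcC_N_deriv ha hb l
  have hN := KcC_N_pos ha hb l
  have hN' := Real.sqrt_pos.2 hN
  have h6 := h3.add h2
  have hsc := Real.sin_sq_add_cos_sq (2 * Real.pi * l)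
  have hD : Real.sqrt ((a * Real.cos (2 * Real.pi * l)) ^ 2 + (b * Real.sin (2 * Real.pi * l)) ^ 2) +
      -(a * Real.cos (2 * Real.pi * l)) ≠ 0 := by
    rw [hl, mul_zero, neg_zero, add_zero]
    rw [hl, mul_zero] at hN'
    exact hN'.ne'
  have h4 := (h1.const_mul 2000).div h6 hD
  refine ⟨_, ?_, (h4.congr_of_eventuallyEq ?_)⟩
  · show (2000 * (-(b * (Real.cos (2 * Real.pi * l) * (2 * Real.pi)))) *
        (Real.sqrt ((a * Real.cos (2 * Real.pi * l)) ^ 2 + (b * Real.sin (2 * Real.pi * l)) ^ 2) +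
          -(a * Real.cos (2 * Real.pi * l))) - 2000 * (-(b * Real.sin (2 * Real.pi * l))) *
        (2 * Real.pi * Real.sin (2 * Real.pi * l) * Real.cos (2 * Real.pi * l) * (b ^ 2 - a ^ 2) /
        Real.sqrt ((a * Real.cos (2 * Real.pi * l)) ^ 2 + (b * Real.sin (2 * Real.pi * l)) ^ 2) +
          -(a * (-Real.sin (2 * Real.pi * l) * (2 * Real.pi))))) /
        (Real.sqrt ((a * Real.cos (2 * Real.pi * l)) ^ 2 + (b * Real.sin (2 * Real.pi * l)) ^ 2) +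
          -(a * Real.cos (2 * Real.pi * l))) ^ 2 ≠ 0
    refine div_ne_zero ?_ (pow_ne_zero _ hD)
    rw [hl]
    have e : Real.sin (2 * Real.pi * l) ^ 2 = 1 := by rw [hl] at hsc; linarith
    have e2 : 2000 * (-(b * ((0 : ℝ) * (2 * Real.pi)))) *
        (Real.sqrt ((a * 0) ^ 2 + (b * Real.sin (2 * Real.pi * l)) ^ 2) + -(a * 0)) -
        2000 * (-(b * Real.sin (2 * Real.pi * l))) *
        (2 * Real.pi * Real.sin (2 * Real.pi * l) * 0 * (b ^ 2 - a ^ 2) /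
        Real.sqrt ((a * 0) ^ 2 + (b * Real.sin (2 * Real.pi * l)) ^ 2) +
          -(a * (-Real.sin (2 * Real.pi * l) * (2 * Real.pi)))) = 4000 * Real.pi * a * b * Real.sin (2 * Real.pi * l) ^ 2 := by
      ring
    rw [e2, e]
    have := Real.pi_pos
    positivity
  · have hcont : ContinuousAt (fun x => Real.sqrt ((a * Real.cos (2 * Real.pi * x)) ^ 2 + (b * Real.sin (2 * Real.pi * x)) ^ 2) +
      -(a * Real.cos (2 * Real.pi * x))) l := h6.continuousAt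
    filter_upwards [hcont.eventually_ne hD] with x hx
    have hNx := Real.sqrt_pos.2 (KcC_N_pos ha hb x)
    show 2000 * kcs P ε 0 x / (1 + ksn P ε 0 x) = 2000 * (-(b * Real.sin (2 * Real.pi * x))) /
      (Real.sqrt ((a * Real.cos (2 * Real.pi * x)) ^ 2 + (b * Real.sin (2 * Real.pi * x)) ^ 2) +
      -(a * Real.cos (2 * Real.pi * x)))
    rw [(hk x).1, (hk x).2]
    set N := Real.sqrt ((a * Real.cos (2 * Real.pi * x)) ^ 2 + (b * Real.sin (2 * Real.pi * x)) ^ 2) with hNd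
    have e : 1 + -(a * Real.cos (2 * Real.pi * x)) / N = (N + -(a * Real.cos (2 * Real.pi * x))) / N := by
      field_simp
    rw [e]
    field_simp

theorem KcC_chq_ge {v : ℝ} (hv : 0 ≤ v) : 1 ≤ chq v := by
  have h1 := cosh_chq (Real.sqrt v)
  rw [Real.sq_sqrt hv] at h1
  rw [← h1]
  exact Real.one_le_cosh _

theorem KcC_ball (l : ℝ) : ∀ᶠ q in 𝓝 ((l, 0) : ℝ × ℂ), ‖q.2‖ < 1 := by
  have h1 : Continuous (fun q : ℝ × ℂ => ‖q.2‖) := continuous_snd.norm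
  exact h1.continuousAt.eventually_lt continuousAt_const (by simp)

theorem KcC_nsq_le {ζ : ℂ} (hζ : ‖ζ‖ < 1) : 0 ≤ normSq ζ ∧ normSq ζ ≤ 1 := by
  refine ⟨Complex.normSq_nonneg ζ, ?_⟩
  rw [Complex.normSq_eq_norm_sq]
  have := norm_nonneg ζ
  nlinarith

theorem KcC_F_smooth (h : P.Ok) (hε : 0 < ε) (hε' : ε ≤ 1 / 16) {r : ℝ} (hr : 0 ≤ r) (hr' : r ≤ 1) (l : ℝ) :
    ContDiffAt ℝ ∞ (fun q : ℝ × ℝ => shq (kka P ε q.1 q.2 ^ 2 * q.1)) (r, l) ∧
    ContDiffAt ℝ ∞ (fun q : ℝ × ℝ => chq (kka P ε q.1 q.2 ^ 2 * q.1)) (r, l) := by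
  obtain ⟨h1, h2, h3⟩ := k_smooth h hε hε' hr hr' l
  have h4 : ContDiffAt ℝ ∞ (fun q : ℝ × ℝ => kka P ε q.1 q.2 ^ 2 * q.1) (r, l) := (h3.pow 2).mul contDiff_fst.contDiffAt
  exact ⟨shq_smooth.contDiffAt.comp (r, l) h4, chq_smooth.contDiffAt.comp (r, l) h4⟩

theorem KcC_kP0_ld (h : P.Ok) (hε : 0 < ε) (hε' : ε ≤ 1 / 16) {l : ℝ} (hl : Real.cos (2 * Real.pi * l) < 0) :
    LD (kP0 P ε) (l, 0) := by
  obtain ⟨d, hd, hd'⟩ := KcC_kcs_deriv h hε hl.ne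
  have h1 := KcC_axis_ld (F1 := fun q : ℝ × ℝ => 1000 * ksn P ε q.1 q.2 * kka P ε q.1 q.2 * shq (kka P ε q.1 q.2 ^ 2 * q.1))
    (F2 := fun q : ℝ × ℝ => 1000 * chq (kka P ε q.1 q.2 ^ 2 * q.1) * kcs P ε q.1 q.2) (l := l) (d := 1000 * d)
    ?_ ?_ ?_ ?_ ?_
  · exact h1
  · filter_upwards [KcC_ball l] with q hq
    obtain ⟨hr, hr'⟩ := KcC_nsq_le hq
    obtain ⟨k1, k2, k3⟩ := k_smooth h hε hε' hr hr' q.1
    obtain ⟨k4, k5⟩ := KcC_F_smooth h hε hε' hr hr' q.1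
    exact ((contDiffAt_const.mul k1).mul k3).mul k4
  · filter_upwards [KcC_ball l] with q hq
    obtain ⟨hr, hr'⟩ := KcC_nsq_le hq
    obtain ⟨k1, k2, k3⟩ := k_smooth h hε hε' hr hr' q.1
    obtain ⟨k4, k5⟩ := KcC_F_smooth h hε hε' hr hr' q.1
    exact (contDiffAt_const.mul k5).mul k2
  · have hs := ((ksn_pos h hε hε' (le_refl (0 : ℝ)) zero_le_one l).1).2 hl
    have hk := kka_pos h hε hε' (le_refl (0 : ℝ)) zero_le_one l
    show 1000 * ksn P ε 0 l * kka P ε 0 l * shq (kka P ε 0 l ^ 2 * 0) ≠ 0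
    rw [mul_zero, shq_zero]
    positivity
  · exact mul_ne_zero (by norm_num) hd
  · have h2 : (fun x => 1000 * chq (kka P ε 0 x ^ 2 * 0) * kcs P ε 0 x) = fun x => 1000 * kcs P ε 0 x := by
      funext x
      rw [mul_zero, chq_zero, mul_one]
    show HasDerivAt (fun x => 1000 * chq (kka P ε 0 x ^ 2 * 0) * kcs P ε 0 x) (1000 * d) l
    rw [h2]
    exact hd'.const_mul 1000

theorem KcC_ksn_ev (h : P.Ok) (hε : 0 < ε) (hε' : ε ≤ 1 / 16) {l : ℝ} (hl : Real.cos (2 * Real.pi * l) = 0) :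
    ∀ᶠ q in 𝓝 ((l, 0) : ℝ × ℂ), |ksn P ε (normSq q.2) q.1| ≤ 3 / 5 := by
  have h0 : ksn P ε 0 l = 0 := ((ksn_pos h hε hε' (le_refl (0 : ℝ)) zero_le_one l).2).2 hl
  have h1 := (k_smooth h hε hε' (le_refl (0 : ℝ)) zero_le_one l).1.continuousAt
  have h2 : ContinuousAt (fun q : ℝ × ℂ => (normSq q.2, q.1)) (l, 0) := (KcC_nsq (l, 0)).continuousAt
  have e0 : (normSq ((l, 0) : ℝ × ℂ).2, ((l, 0) : ℝ × ℂ).1) = ((0 : ℝ), l) := by simp
  have h3 : ContinuousAt (fun q : ℝ × ℂ => |ksn P ε (normSq q.2) q.1|) (l, 0) := by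
    have h4 : ContinuousAt (fun q : ℝ × ℂ => ksn P ε (normSq q.2) q.1) (l, 0) := by
      refine ContinuousAt.comp (g := fun q : ℝ × ℝ => ksn P ε q.1 q.2) (f := fun q : ℝ × ℂ => (normSq q.2, q.1)) ?_ h2
      rw [e0]
      exact h1
    exact h4.abs
  have h5 : |ksn P ε (normSq ((l, 0) : ℝ × ℂ).2) ((l, 0) : ℝ × ℂ).1| < 3 / 5 := by
    simp only [map_zero, h0, abs_zero]
    norm_num
  filter_upwards [h3.eventually_lt continuousAt_const h5] with q hq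
  exact hq.le

theorem KcC_kC0_ld (h : P.Ok) (hε : 0 < ε) (hε' : ε ≤ 1 / 16) {l : ℝ} (hl : Real.cos (2 * Real.pi * l) = 0) :
    LD (kC0 P ε) (l, 0) := by
  obtain ⟨d, hd, hd'⟩ := KcC_corner_deriv h hε hl
  have h1 := KcC_axis_ld (F1 := fun q : ℝ × ℝ => 2000 * kka P ε q.1 q.2 * shq (kka P ε q.1 q.2 ^ 2 * q.1) /
      (chq (kka P ε q.1 q.2 ^ 2 * q.1) + ksn P ε q.1 q.2))
    (F2 := fun q : ℝ × ℝ => 2000 * kcs P ε q.1 q.2 / (chq (kka P ε q.1 q.2 ^ 2 * q.1) + ksn P ε q.1 q.2)) (l := l) (d := d)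
    ?_ ?_ ?_ ?_ ?_
  · exact h1
  · filter_upwards [KcC_ball l, KcC_ksn_ev h hε hε' hl] with q hq hq2
    obtain ⟨hr, hr'⟩ := KcC_nsq_le hq
    obtain ⟨k1, k2, k3⟩ := k_smooth h hε hε' hr hr' q.1
    obtain ⟨k4, k5⟩ := KcC_F_smooth h hε hε' hr hr' q.1
    refine ((contDiffAt_const.mul k3).mul k4).div (k5.add k1) ?_
    have := KcC_chq_ge (mul_nonneg (sq_nonneg (kka P ε (normSq q.2) q.1)) hr)
    rw [abs_le] at hq2
    simp only
    linarith
  · filter_upwards [KcC_ball l, KcC_ksn_ev h hε hε' hl] with q hq hq2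
    obtain ⟨hr, hr'⟩ := KcC_nsq_le hq
    obtain ⟨k1, k2, k3⟩ := k_smooth h hε hε' hr hr' q.1
    obtain ⟨k4, k5⟩ := KcC_F_smooth h hε hε' hr hr' q.1
    refine (contDiffAt_const.mul k2).div (k5.add k1) ?_
    have := KcC_chq_ge (mul_nonneg (sq_nonneg (kka P ε (normSq q.2) q.1)) hr)
    rw [abs_le] at hq2
    simp only
    linarith
  · have hs := ((ksn_pos h hε hε' (le_refl (0 : ℝ)) zero_le_one l).2).2 hl
    have hk := kka_pos h hε hε' (le_refl (0 : ℝ)) zero_le_one l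
    show 2000 * kka P ε 0 l * shq (kka P ε 0 l ^ 2 * 0) / (chq (kka P ε 0 l ^ 2 * 0) + ksn P ε 0 l) ≠ 0
    rw [mul_zero, shq_zero, chq_zero, hs]
    positivity
  · exact hd
  · have h2 : (fun x => 2000 * kcs P ε 0 x / (chq (kka P ε 0 x ^ 2 * 0) + ksn P ε 0 x)) =
        fun x => 2000 * kcs P ε 0 x / (1 + ksn P ε 0 x) := by
      funext x
      rw [mul_zero, chq_zero]
    show HasDerivAt (fun x => 2000 * kcs P ε 0 x / (chq (kka P ε 0 x ^ 2 * 0) + ksn P ε 0 x)) d l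
    rw [h2]
    exact hd'

theorem KcC_ld_in (h : P.Ok) (hε : 0 < ε) (hε' : ε ≤ 1 / 16) {l : ℝ} (hl : Real.cos (2 * Real.pi * l) < 0) :
    LD (Wk0 P ε) (l, 0) := by
  obtain ⟨hc0, hc1, hc2⟩ := Ok_c h
  have h1 : LD (kP0 P ε) (l, 0) := KcC_kP0_ld h hε hε' hl
  have h2 : LD (tv (tau P.c)) (kP0 P ε (l, 0)) := tv_ld _ _
  have h3 : LD (Ai P.c) (tv (tau P.c) (kP0 P ε (l, 0))) := Ai_ld hc0 hc2 (Wk0_in h hε hε' (ζ := 0) (by simp) hl).1
  have h4 : LD (tv (tau P.c) ∘ kP0 P ε) (l, 0) := IsLocalDiffeomorphAt.comp (hf := h1) (hg := h2) ..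
  have h5 : LD (Ai P.c ∘ (tv (tau P.c) ∘ kP0 P ε)) (l, 0) := IsLocalDiffeomorphAt.comp (hf := h4) (hg := h3) ..
  refine CSG.ld_congr h5 ?_
  have h6 : ∀ᶠ q in 𝓝 ((l, 0) : ℝ × ℂ), Real.cos (2 * Real.pi * q.1) < 0 := by
    have hc : Continuous (fun q : ℝ × ℂ => Real.cos (2 * Real.pi * q.1)) := by fun_prop
    exact hc.continuousAt.eventually_lt continuousAt_const hl
  filter_upwards [KcC_ball l, h6] with q hq hq2
  exact (Wk0_in h hε hε' hq.le hq2).2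

/-- reflection -/
noncomputable def KcC_rf : ℝ × ℂ ≃ ℝ × ℂ where
  toFun q := (1 / 2 - q.1, (starRingEnd ℂ) q.2)
  invFun q := (1 / 2 - q.1, (starRingEnd ℂ) q.2)
  left_inv q := by simp
  right_inv q := by simp

theorem KcC_rf_smooth : ContDiff ℝ ∞ (fun q : ℝ × ℂ => (1 / 2 - q.1, (starRingEnd ℂ) q.2)) :=
  (contDiff_const.sub contDiff_fst).prodMk (Complex.conjCLE.contDiff.comp contDiff_snd)

theorem KcC_ld_zero (h : P.Ok) (hε : 0 < ε) (hε' : ε ≤ 1 / 16) (l : ℝ) : LD (Wk0 P ε) (l, 0) := by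
  rcases lt_trichotomy (Real.cos (2 * Real.pi * l)) 0 with hc | hc | hc
  · exact KcC_ld_in h hε hε' hc
  · refine CSG.ld_congr (KcC_kC0_ld h hε hε' hc) ?_
    filter_upwards [KcC_ball l, KcC_ksn_ev h hε hε' hc] with q hq hq2
    exact Wk0_corner h hε hε' hq.le hq2
  · have hl' : Real.cos (2 * Real.pi * (1 / 2 - l)) < 0 := by
      rw [(KcC_chalf l).1]
      linarith
    have h1 : LD (KcC_rf : ℝ × ℂ → ℝ × ℂ) (l, 0) := CSG.ld_of_perm KcC_rf_smooth KcC_rf_smooth (l, 0)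
    have e1 : KcC_rf (l, 0) = (1 / 2 - l, (0 : ℂ)) := by
      show (1 / 2 - l, (starRingEnd ℂ) (0 : ℂ)) = _
      rw [map_zero]
    have h2 : LD (Wk0 P ε) (KcC_rf (l, 0)) := by
      rw [e1]
      exact KcC_ld_in h hε hε' hl'
    have h3 : LD (Wk0 P ε ∘ KcC_rf) (l, 0) := IsLocalDiffeomorphAt.comp (hf := h1) (hg := h2) ..
    have h4 : LD Jv ((Wk0 P ε ∘ KcC_rf) (l, 0)) := by
      refine Jv_ld ?_
      show Wk0 P ε (KcC_rf (l, 0)) ≠ 0
      rw [e1]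
      exact Wk0_ne h hε hε' _ (by simp)
    have h5 : LD (Jv ∘ (Wk0 P ε ∘ KcC_rf)) (l, 0) := IsLocalDiffeomorphAt.comp (hf := h3) (hg := h4) ..
    have h6 : LD (fun y : F3 => (4000000 : ℝ) • y) ((Jv ∘ (Wk0 P ε ∘ KcC_rf)) (l, 0)) := smul_ld (by norm_num) _
    have h7 : LD ((fun y : F3 => (4000000 : ℝ) • y) ∘ (Jv ∘ (Wk0 P ε ∘ KcC_rf))) (l, 0) :=
      IsLocalDiffeomorphAt.comp (hf := h5) (hg := h6) ..
    refine CSG.ld_congr h7 ?_
    filter_upwards [KcC_ball l] with q hq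
    exact Wk0_J h hε hε' q.1 hq.le

/-- affine map to the coordinates of `Wx` -/
noncomputable def KcC_al (hε : ε ≠ 0) : ℂ × ℝ ≃ ℝ × ℝ × ℝ where
  toFun w := (w.2, 1 / 2 + ε * w.1.re, 1 / 2 + ε * w.1.im)
  invFun q := (⟨(q.2.1 - 1 / 2) / ε, (q.2.2 - 1 / 2) / ε⟩, q.1)
  left_inv w := by
    obtain ⟨⟨x, y⟩, t⟩ := w
    simp only [add_sub_cancel_left, Prod.mk.injEq, and_true]
    apply Complex.ext
    · simp only
      field_simp
    · simp only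
      field_simp
  right_inv q := by
    obtain ⟨x, y, t⟩ := q
    simp only [Prod.mk.injEq, true_and]
    constructor
    · field_simp
      ring
    · field_simp
      ring

theorem KcC_al_smooth : ContDiff ℝ ∞ (fun w : ℂ × ℝ => (w.2, 1 / 2 + ε * w.1.re, 1 / 2 + ε * w.1.im)) := by
  have h1 : ContDiff ℝ ∞ (fun w : ℂ × ℝ => w.1.re) := Complex.reCLM.contDiff.comp contDiff_fst
  have h2 : ContDiff ℝ ∞ (fun w : ℂ × ℝ => w.1.im) := Complex.imCLM.contDiff.comp contDiff_fst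
  exact contDiff_snd.prodMk ((contDiff_const.add (contDiff_const.mul h1)).prodMk (contDiff_const.add (contDiff_const.mul h2)))

theorem KcC_mk_smooth {E : Type*} [NormedAddCommGroup E] [NormedSpace ℝ E] {f g : E → ℝ} (hf : ContDiff ℝ ∞ f)
    (hg : ContDiff ℝ ∞ g) : ContDiff ℝ ∞ (fun x => (⟨f x, g x⟩ : ℂ)) := by
  have e : (fun x => (⟨f x, g x⟩ : ℂ)) = fun x => ((f x : ℝ) : ℂ) + ((g x : ℝ) : ℂ) * I := by
    funext x
    exact Complex.mk_eq_add_mul_I _ _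
  rw [e]
  exact (Complex.ofRealCLM.contDiff.comp hf).add ((Complex.ofRealCLM.contDiff.comp hg).mul contDiff_const)

theorem KcC_al_smooth' (hε : ε ≠ 0) : ContDiff ℝ ∞ (KcC_al hε).symm := by
  have h1 : ContDiff ℝ ∞ (fun q : ℝ × ℝ × ℝ => (q.2.1 - 1 / 2) / ε) := by fun_prop
  have h2 : ContDiff ℝ ∞ (fun q : ℝ × ℝ × ℝ => (q.2.2 - 1 / 2) / ε) := by fun_prop
  exact (KcC_mk_smooth h1 h2).prodMk contDiff_fst

/-- linear change of coordinates -/
noncomputable def KcC_li : ℝ × ℂ ≃ ℝ × ℂ where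
  toFun q := (q.2.im, ⟨q.2.re, q.1⟩)
  invFun q := (q.2.im, ⟨q.2.re, q.1⟩)
  left_inv q := by simp
  right_inv q := by simp

theorem KcC_li_smooth : ContDiff ℝ ∞ (fun q : ℝ × ℂ => (q.2.im, (⟨q.2.re, q.1⟩ : ℂ))) :=
  (Complex.imCLM.contDiff.comp contDiff_snd).prodMk
    (KcC_mk_smooth (Complex.reCLM.contDiff.comp contDiff_snd) contDiff_fst)

/-- swap -/
def KcC_sw : ℂ × ℝ ≃ ℝ × ℂ := Equiv.prodComm ℂ ℝ

theorem KcC_ld_ne (h : P.Ok) (hε : 0 < ε) (hε' : ε ≤ 1 / 16) (l : ℝ) {s : ℝ} (hs : 0 < s) (hs1 : s ≤ 1) (u : ℝ) :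
    LD (Wk0 P ε) (l, s * ex u) := by
  have hre : 0 < ((⟨s, u⟩ : ℂ)).re := hs
  have hf1 : LD (fun q : ℝ × ℂ => pol q.1 q.2) (l, (⟨s, u⟩ : ℂ)) := pol_ld hre
  have hα : LD (KcC_al hε.ne' : ℂ × ℝ → ℝ × ℝ × ℝ) ((fun q : ℝ × ℂ => pol q.1 q.2) (l, (⟨s, u⟩ : ℂ))) :=
    CSG.ld_of_perm KcC_al_smooth (KcC_al_smooth' hε.ne') _
  have h1 : LD (KcC_al hε.ne' ∘ fun q : ℝ × ℂ => pol q.1 q.2) (l, (⟨s, u⟩ : ℂ)) :=
    IsLocalDiffeomorphAt.comp (hf := hf1) (hg := hα) ..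
  have hW : LD (Wx P) ((KcC_al hε.ne' ∘ fun q : ℝ × ℂ => pol q.1 q.2) (l, (⟨s, u⟩ : ℂ))) := by
    refine Wx_ld h ?_
    refine KcC_gd hε hε' hs hs1 u l ?_ ?_
    · show 1 / 2 + ε * (((s : ℝ) : ℂ) * ex l).re = _
      rw [Complex.re_ofReal_mul, RSG.ex_re]
      ring
    · show 1 / 2 + ε * (((s : ℝ) : ℂ) * ex l).im = _
      rw [Complex.im_ofReal_mul, RSG.ex_im]
      ring
  have h2 : LD (Wx P ∘ (KcC_al hε.ne' ∘ fun q : ℝ × ℂ => pol q.1 q.2)) (l, (⟨s, u⟩ : ℂ)) :=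
    IsLocalDiffeomorphAt.comp (hf := h1) (hg := hW) ..
  have g1 : LD (KcC_li : ℝ × ℂ → ℝ × ℂ) (l, (⟨s, u⟩ : ℂ)) := CSG.ld_of_perm KcC_li_smooth KcC_li_smooth _
  have g2 : LD (fun q : ℝ × ℂ => pol q.1 q.2) (KcC_li (l, (⟨s, u⟩ : ℂ))) := by
    show LD (fun q : ℝ × ℂ => pol q.1 q.2) (u, (⟨s, l⟩ : ℂ))
    exact pol_ld hs
  have g3 : LD ((fun q : ℝ × ℂ => pol q.1 q.2) ∘ KcC_li) (l, (⟨s, u⟩ : ℂ)) :=
    IsLocalDiffeomorphAt.comp (hf := g1) (hg := g2) ..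
  have g4 : LD (KcC_sw : ℂ × ℝ → ℝ × ℂ) (((fun q : ℝ × ℂ => pol q.1 q.2) ∘ KcC_li) (l, (⟨s, u⟩ : ℂ))) :=
    CSG.ld_of_perm (contDiff_snd.prodMk contDiff_fst) (contDiff_snd.prodMk contDiff_fst) _
  have g5 : LD (KcC_sw ∘ ((fun q : ℝ × ℂ => pol q.1 q.2) ∘ KcC_li)) (l, (⟨s, u⟩ : ℂ)) :=
    IsLocalDiffeomorphAt.comp (hf := g3) (hg := g4) ..
  have e1 : ∀ q : ℝ × ℂ, (KcC_sw ∘ ((fun q : ℝ × ℂ => pol q.1 q.2) ∘ KcC_li)) q = (q.1, (q.2.re : ℂ) * ex q.2.im) := by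
    intro q
    rfl
  have h3 : LD (Wk0 P ε ∘ (KcC_sw ∘ ((fun q : ℝ × ℂ => pol q.1 q.2) ∘ KcC_li))) (l, (⟨s, u⟩ : ℂ)) := by
    refine CSG.ld_congr h2 ?_
    have hc : Continuous (fun q : ℝ × ℂ => q.2.re) := by fun_prop
    filter_upwards [hc.continuousAt.eventually (lt_mem_nhds (show (0 : ℝ) < ((l, (⟨s, u⟩ : ℂ)) : ℝ × ℂ).2.re from hs))] with q hq
    rw [Function.comp_apply, e1, Wk0_glue hq]
    show _ = Wx P (q.2.im, 1 / 2 + ε * (((q.2.re : ℝ) : ℂ) * ex q.1).re, 1 / 2 + ε * (((q.2.re : ℝ) : ℂ) * ex q.1).im)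
    rw [Complex.re_ofReal_mul, Complex.im_ofReal_mul, RSG.ex_re, RSG.ex_im, mul_assoc ε, mul_assoc ε]
  have h4 := CSG.ld_of_comp_left h3 g5
  rw [e1] at h4
  exact h4

theorem Wk0_ld (h : P.Ok) (hε : 0 < ε) (hε' : ε ≤ 1 / 16) (l : ℝ) {ζ : ℂ} (hζ : ‖ζ‖ < 1) : LD (Wk0 P ε) (l, ζ) := by
  by_cases hz : ζ = 0
  · subst hz
    exact KcC_ld_zero h hε hε' l
  · obtain ⟨s, u, hs, hsn, rfl⟩ := KcC_pol hz
    exact KcC_ld_ne h hε hε' l hs (by rw [hsn]; exact hζ.le) u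

end Pool.Agent.CHW
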