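import Pool.Agent.CHW.EvF
import Pool.Agent.CHW.CrB

/-!
# CHW/KcDef: definitions for the K chart (no proofs)

`r = |ζ|²`, `s = |ζ|`, `ζ = s e^{2πiu}`, `y = 1/2 + ε s cos 2πl`, `t = 1/2 + ε s sin 2πl`, `p = 1/2 - y = - ε s cos 2πl`.
`thp p = p kTh`, `thp² = kt2`, `D₁ = kD`, `X1 (p, t) = - ε s ⟨kf1 cos 2πl, kf2 sin 2πl⟩ = ⟨B (ε s kg) ksn, (ε s kg) kcs⟩`, `ksn² + kcs² = 1`, `kc (ε s kg) = s kka`.
-/

open scoped Manifold ContDiff Topology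
open Set Filter
open Complex (I normSq)

namespace Pool.Agent.CHW

open Pool.Agent.CSG (stp thc)
open Pool.Agent.RSG (ex)

variable (P : Par) (ε : ℝ)

noncomputable def kTh (r l : ℝ) : ℝ :=
  2 * (1 / 2000 / gam P.c) * (2 * Real.pi * shq ((2 * Real.pi * ε * Real.cos (2 * Real.pi * l)) ^ 2 * r))
noncomputable def kt2 (r l : ℝ) : ℝ := (ε * Real.cos (2 * Real.pi * l)) ^ 2 * r * kTh P ε r l ^ 2
noncomputable def kD (r l : ℝ) : ℝ :=
  (1 + kt2 P ε r l) + (1 - kt2 P ε r l) * chq (-((2 * Real.pi * ε * Real.sin (2 * Real.pi * l)) ^ 2 * r))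
noncomputable def kf1 (r l : ℝ) : ℝ := 2 * kTh P ε r l / (gam P.c * kD P ε r l)
noncomputable def kf2 (r l : ℝ) : ℝ :=
  (1 - kt2 P ε r l) * (2 * Real.pi * shq (-((2 * Real.pi * ε * Real.sin (2 * Real.pi * l)) ^ 2 * r))) / (gam P.c * kD P ε r l)
noncomputable def kg (r l : ℝ) : ℝ :=
  Real.sqrt ((kf1 P ε r l * Real.cos (2 * Real.pi * l) / Bc P.c) ^ 2 + (kf2 P ε r l * Real.sin (2 * Real.pi * l)) ^ 2)
noncomputable def ksn (r l : ℝ) : ℝ := -(kf1 P ε r l * Real.cos (2 * Real.pi * l)) / (Bc P.c * kg P ε r l)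
noncomputable def kcs (r l : ℝ) : ℝ := -(kf2 P ε r l * Real.sin (2 * Real.pi * l)) / kg P ε r l
noncomputable def kka (r l : ℝ) : ℝ := kc P.c * ε * kg P ε r l

/-- after the opening, centred at `tau` -/
noncomputable def kP0 (q : ℝ × ℂ) : F3 :=
  (((1000 * ksn P ε (normSq q.2) q.1 * kka P ε (normSq q.2) q.1 * shq (kka P ε (normSq q.2) q.1 ^ 2 * normSq q.2) : ℝ) : ℂ) * q.2,
    1000 * chq (kka P ε (normSq q.2) q.1 ^ 2 * normSq q.2) * kcs P ε (normSq q.2) q.1)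
/-- the corner chart -/
noncomputable def kC0 (q : ℝ × ℂ) : F3 :=
  (((2000 * kka P ε (normSq q.2) q.1 * shq (kka P ε (normSq q.2) q.1 ^ 2 * normSq q.2) /
      (chq (kka P ε (normSq q.2) q.1 ^ 2 * normSq q.2) + ksn P ε (normSq q.2) q.1) : ℝ) : ℂ) * q.2,
    2000 * kcs P ε (normSq q.2) q.1 / (chq (kka P ε (normSq q.2) q.1 ^ 2 * normSq q.2) + ksn P ε (normSq q.2) q.1))

open Classical in
/-- the K chart -/
noncomputable def Wk0 (q : ℝ × ℂ) : F3 :=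
  if q.2 ≠ 0 then
    Wx P (Complex.arg q.2 / (2 * Real.pi), 1 / 2 + ε * ‖q.2‖ * Real.cos (2 * Real.pi * q.1),
      1 / 2 + ε * ‖q.2‖ * Real.sin (2 * Real.pi * q.1))
  else if Real.cos (2 * Real.pi * q.1) < 0 then Ai P.c (tv (tau P.c) (kP0 P ε (q.1, 0)))
  else if Real.cos (2 * Real.pi * q.1) = 0 then kC0 P ε (q.1, 0)
  else (4000000 : ℝ) • Jv (Ai P.c (tv (tau P.c) (kP0 P ε (1 / 2 - q.1, 0))))

end Pool.Agent.CHW
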