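import Pool.Agent.CHW.Em
import Pool.Agent.TS.StepLip

/-!
# CHW/OpM: the Joukowski map   (difficulty 2)

`ρ = 1/2000`, `κ = 1 - stp (3ρ) (43ρ) s`, `eO s = s - κ ρ²/s`, `mO s = s + κ ρ²/s`, `Op = EM 1 eO mO`, `es 1 = rr`.

* `Op_ok`: for `s > ρ`: `eO' = 1 + κ ρ²/s² + stp' ρ²/s > 0`; `mO' = 1 - κ ρ²/s² - stp' ρ²/s`: for `s < 3ρ` it is `1 - ρ²/s² > 0`; for `s ≥ 3ρ`,
  `κ ρ²/s² ≤ 1/9` and `stp' ρ²/s ≤ (8 / (40 ρ)) (ρ / 3) = 1/15` (`|deriv (stp a b)| ≤ 8 / (b - a)` from `TS.stp_lip`/`StepLip_deriv`;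
  `stp' = 0` off `[3ρ, 43ρ]`).  Limits at `ρ`: `0` and `2ρ` (the functions are continuous at `ρ`, `κ = 1` near `ρ`).
* `Op_id`, `Op_exact`: `stp = 1`, resp. `0`.
* `Op_lt`: if `rr (Op x) ≥ 43ρ` then `Op (Op x) = Op x`, so `Op x = x` by injectivity, contradiction.
* `Op_le_one` follows: `Op` is a bijection onto `{y.1 ≠ 0 ∨ 1/1000 < |y.2|}`, the identity for `rr ≥ 43/2000`.
* `Opi`: `Function.invFunOn`.  `Opi_ld`: `CSG.ld_of_comp_left`-type argument: at `y = Op x`, `Opi ∘ Op = id` near `x` (open set), so `Opi` is a local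
  diffeomorphism at `Op x` (`CSG.ld_of_comp_left` with `g = Opi`, `f = Op`).
-/

open scoped Manifold ContDiff Topology
open Set Filter
open Complex (I normSq)

namespace Pool.Agent.CHW

open Pool.Agent.CSG (stp thc)
open Pool.Agent.RSG (ex)

section
open Pool.Agent.CSG (stp_zero stp_one stp_nonneg stp_le_one stp_lt_one stp_smooth stp_deriv_nonneg)
open Pool.Agent.TS (stp_lip)

theorem OpM_stp_hd (a b s : ℝ) : HasDerivAt (stp a b) (deriv (stp a b) s) s :=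
  ((stp_smooth a b).differentiable (by simp) s).hasDerivAt

theorem OpM_stp_deriv_le {a b : ℝ} (hab : a < b) (s : ℝ) : deriv (stp a b) s ≤ 8 / (b - a) := by
  have h0 : 0 ≤ 8 / (b - a) := div_nonneg (by norm_num) (by linarith)
  have h := norm_deriv_le_of_lipschitz (f := stp a b) (x₀ := s) (C := ⟨8 / (b - a), h0⟩)
    (LipschitzWith.of_dist_le_mul fun x y => by
      rw [Real.dist_eq, Real.dist_eq]
      exact stp_lip hab x y)
  rw [Real.norm_eq_abs] at h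
  exact (le_abs_self _).trans h

theorem OpM_stp_deriv_zero {a b s : ℝ} (hab : a < b) (h : s < a ∨ b < s) : deriv (stp a b) s = 0 := by
  rcases h with h | h
  · have : stp a b =ᶠ[𝓝 s] fun _ => 0 := by
      filter_upwards [Iio_mem_nhds h] with y hy
      exact stp_zero hab (le_of_lt hy)
    rw [this.deriv_eq, deriv_const]
  · have : stp a b =ᶠ[𝓝 s] fun _ => 1 := by
      filter_upwards [Ioi_mem_nhds h] with y hy
      exact stp_one hab (le_of_lt hy)
    rw [this.deriv_eq, deriv_const]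

theorem OpM_eO_near {s : ℝ} (h : s ≤ 3 / 2000) : eO s = s - (1 / 2000) ^ 2 / s := by
  rw [eO, stp_zero (by norm_num) h]
  ring
theorem OpM_mO_near {s : ℝ} (h : s ≤ 3 / 2000) : mO s = s + (1 / 2000) ^ 2 / s := by
  rw [mO, stp_zero (by norm_num) h]
  ring
theorem OpM_eO_far {s : ℝ} (h : 43 / 2000 ≤ s) : eO s = s := by
  rw [eO, stp_one (by norm_num) h]
  ring
theorem OpM_mO_far {s : ℝ} (h : 43 / 2000 ≤ s) : mO s = s := by
  rw [mO, stp_one (by norm_num) h]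
  ring

theorem OpM_q {s : ℝ} (hs : s ≠ 0) : HasDerivAt (fun s : ℝ => (1 - stp (3 / 2000) (43 / 2000) s) * ((1 / 2000) ^ 2 / s))
    (-(deriv (stp (3 / 2000) (43 / 2000)) s * ((1 / 2000) ^ 2 / s) +
      (1 - stp (3 / 2000) (43 / 2000) s) * ((1 / 2000) ^ 2 / s ^ 2))) s := by
  have h1 := (OpM_stp_hd (3 / 2000) (43 / 2000) s).const_sub 1
  have h2 : HasDerivAt (fun s : ℝ => (1 / 2000 : ℝ) ^ 2 / s) (-((1 / 2000) ^ 2 / s ^ 2)) s := by
    have := (hasDerivAt_inv hs).const_mul ((1 / 2000 : ℝ) ^ 2)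
    have e : (fun s : ℝ => (1 / 2000 : ℝ) ^ 2 / s) = fun s : ℝ => (1 / 2000 : ℝ) ^ 2 * s⁻¹ := by
      ext s
      rw [div_eq_mul_inv]
    rw [e]
    exact this.congr_deriv (by ring)
  have h3 := h1.mul h2
  exact h3.congr_deriv (by ring)

theorem OpM_eO_hd {s : ℝ} (hs : s ≠ 0) : HasDerivAt eO (1 + (deriv (stp (3 / 2000) (43 / 2000)) s * ((1 / 2000) ^ 2 / s) +
      (1 - stp (3 / 2000) (43 / 2000) s) * ((1 / 2000) ^ 2 / s ^ 2))) s := by
  have := (hasDerivAt_id s).sub (OpM_q hs)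
  exact this.congr_deriv (by ring)

theorem OpM_mO_hd {s : ℝ} (hs : s ≠ 0) : HasDerivAt mO (1 - (deriv (stp (3 / 2000) (43 / 2000)) s * ((1 / 2000) ^ 2 / s) +
      (1 - stp (3 / 2000) (43 / 2000) s) * ((1 / 2000) ^ 2 / s ^ 2))) s := by
  have := (hasDerivAt_id s).add (OpM_q hs)
  exact this.congr_deriv (by ring)

theorem OpM_sm {s : ℝ} (hs : s ≠ 0) :
    ContDiffAt ℝ ∞ (fun s : ℝ => (1 - stp (3 / 2000) (43 / 2000) s) * ((1 / 2000) ^ 2 / s)) s :=
  (contDiffAt_const.sub (stp_smooth _ _).contDiffAt).mul (contDiffAt_const.div contDiffAt_id hs)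

theorem OpM_okO : EMok (1 / 2000) (1 / 1000) eO mO where
  nn := by norm_num
  mpos := by norm_num
  es := fun s hs => contDiffAt_id.sub (OpM_sm (by
    have : (0 : ℝ) < s := lt_trans (by norm_num) hs
    exact this.ne'))
  ms := fun s hs => contDiffAt_id.add (OpM_sm (by
    have : (0 : ℝ) < s := lt_trans (by norm_num) hs
    exact this.ne'))
  ed := fun s hs => by
    have h0 : (0 : ℝ) < s := lt_trans (by norm_num) hs
    rw [(OpM_eO_hd h0.ne').deriv]
    have h1 := stp_deriv_nonneg (a := 3 / 2000) (b := 43 / 2000) (by norm_num) s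
    have h2 := stp_le_one (3 / 2000) (43 / 2000) s
    have h3 : 0 ≤ 1 - stp (3 / 2000) (43 / 2000) s := by linarith
    positivity
  md := fun s hs => by
    have h0 : (0 : ℝ) < s := lt_trans (by norm_num) hs
    rw [(OpM_mO_hd h0.ne').deriv]
    have h1 := stp_deriv_nonneg (a := 3 / 2000) (b := 43 / 2000) (by norm_num) s
    have h2 := stp_le_one (3 / 2000) (43 / 2000) s
    have h2' := stp_nonneg (3 / 2000) (43 / 2000) s
    rcases lt_or_ge s (3 / 2000) with h4 | h4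
    · rw [OpM_stp_deriv_zero (by norm_num) (Or.inl h4), zero_mul, zero_add]
      have h5 : (1 / 2000 : ℝ) ^ 2 / s ^ 2 < 1 := by
        rw [div_lt_one (by positivity)]
        exact pow_lt_pow_left₀ hs (by norm_num) (by norm_num)
      have h6 : 0 ≤ (1 / 2000 : ℝ) ^ 2 / s ^ 2 := by positivity
      nlinarith
    · have h5 : (1 / 2000 : ℝ) ^ 2 / s ≤ 1 / 6000 := by
        rw [div_le_iff₀ h0]
        linarith
      have h5' : 0 ≤ (1 / 2000 : ℝ) ^ 2 / s := by positivity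
      have h6 : (1 / 2000 : ℝ) ^ 2 / s ^ 2 ≤ 1 / 9 := by
        rw [div_le_iff₀ (by positivity)]
        nlinarith
      have h6' : 0 ≤ (1 / 2000 : ℝ) ^ 2 / s ^ 2 := by positivity
      have h7 := OpM_stp_deriv_le (a := 3 / 2000) (b := 43 / 2000) (by norm_num) s
      have h8 : deriv (stp (3 / 2000) (43 / 2000)) s * ((1 / 2000) ^ 2 / s) ≤ 400 * (1 / 6000) := by
        refine mul_le_mul (h7.trans (by norm_num)) h5 h5' (by norm_num)
      have h9 : (1 - stp (3 / 2000) (43 / 2000) s) * ((1 / 2000) ^ 2 / s ^ 2) ≤ 1 * (1 / 9) := by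
        refine mul_le_mul (by linarith) h6 h6' (by norm_num)
      linarith
  e0 := by
    have h1 : ContinuousAt eO (1 / 2000) := (OpM_eO_hd (by norm_num)).continuousAt
    have h2 : eO (1 / 2000) = 0 := by
      rw [OpM_eO_near (by norm_num)]
      norm_num
    have h3 := h1.tendsto
    rw [h2] at h3
    exact h3.mono_left nhdsWithin_le_nhds
  m0 := by
    have h1 : ContinuousAt mO (1 / 2000) := (OpM_mO_hd (by norm_num)).continuousAt
    have h2 : mO (1 / 2000) = 1 / 1000 := by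
      rw [OpM_mO_near (by norm_num)]
      norm_num
    have h3 := h1.tendsto
    rw [h2] at h3
    exact h3.mono_left nhdsWithin_le_nhds
  e1 := tendsto_id.congr' (by
    filter_upwards [eventually_ge_atTop (43 / 2000 : ℝ)] with s hs
    exact (OpM_eO_far hs).symm)
  m1 := tendsto_id.congr' (by
    filter_upwards [eventually_ge_atTop (43 / 2000 : ℝ)] with s hs
    exact (OpM_mO_far hs).symm)

end

theorem Op_ok : EMok (1 / 2000) (1 / 1000) eO mO := OpM_okO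

theorem OpM_eq (x : F3) :
    Op x = (((eO (rr x) / rr x : ℝ) : ℂ) * x.1, mO (rr x) / rr x * x.2) := by
  show (((eO (es 1 x) / (1 * es 1 x) : ℝ) : ℂ) * x.1, mO (es 1 x) / es 1 x * x.2) = _
  rw [es_one, one_mul]
theorem Op_id {x : F3} (h : 43 / 2000 ≤ rr x) : Op x = x := by
  have h0 : rr x ≠ 0 := by
    intro h1
    rw [h1] at h
    norm_num at h
  rw [OpM_eq, OpM_eO_far h, OpM_mO_far h, div_self h0, Complex.ofReal_one, one_mul, one_mul]
/-- Joukowski -/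
theorem Op_exact {x : F3} (h : rr x ≤ 3 / 2000) :
    Op x = (((1 - (1 / 2000) ^ 2 / q2 x : ℝ) : ℂ) * x.1, (1 + (1 / 2000) ^ 2 / q2 x) * x.2) := by
  by_cases hx : x = 0
  · subst hx
    rw [OpM_eq]
    simp
  have h0 := (rr_pos hx).ne'
  rw [OpM_eq, OpM_eO_near h, OpM_mO_near h, ← rr_sq x]
  have e1 : (rr x - (1 / 2000) ^ 2 / rr x) / rr x = 1 - (1 / 2000) ^ 2 / rr x ^ 2 := by
    field_simp
  have e2 : (rr x + (1 / 2000) ^ 2 / rr x) / rr x = 1 + (1 / 2000) ^ 2 / rr x ^ 2 := by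
    field_simp
  rw [e1, e2]

theorem OpM_q2_pol (u : ℝ) (X : ℂ) : q2 (pol u X) = normSq X := by
  rw [← rr_sq, rr_pol, Complex.normSq_eq_norm_sq]
theorem Op_exact_pol {u : ℝ} {X : ℂ} (h : ‖X‖ ≤ 3 / 2000) (h0 : X ≠ 0) :
    Op (pol u X) = pol u (X - (1 / 2000) ^ 2 / X) := by
  have hN : normSq X ≠ 0 := (Complex.normSq_pos.2 h0).ne'
  rw [Op_exact (by rw [rr_pol]; exact h), OpM_q2_pol]
  have e0 : ((1 / 2000 : ℂ) ^ 2 / X) =
      (((1 / 2000) ^ 2 / normSq X : ℝ) : ℂ) * (starRingEnd ℂ) X := by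
    rw [div_eq_mul_inv, Complex.inv_def]
    push_cast
    ring
  have e1 : (X - (1 / 2000) ^ 2 / X).re = (1 - (1 / 2000) ^ 2 / normSq X) * X.re := by
    rw [e0, Complex.sub_re, Complex.re_ofReal_mul, Complex.conj_re]
    ring
  have e2 : (X - (1 / 2000) ^ 2 / X).im = (1 + (1 / 2000) ^ 2 / normSq X) * X.im := by
    rw [e0, Complex.sub_im, Complex.im_ofReal_mul, Complex.conj_im]
    ring
  refine Prod.ext ?_ ?_
  · show _ = (((X - (1 / 2000) ^ 2 / X).re : ℝ) : ℂ) * ex u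
    rw [e1]
    show _ * ((X.re : ℂ) * ex u) = _
    push_cast
    ring
  · show _ = (X - (1 / 2000) ^ 2 / X).im
    rw [e2]
    rfl
theorem OpM_es {x : F3} (h : 1 / 2000 < rr x) : 1 / 2000 < es 1 x := by
  rw [es_one]
  exact h
theorem Op_ld {x : F3} (h : 1 / 2000 < rr x) : LD Op x := EM_ld one_pos Op_ok (OpM_es h)
theorem Op_inj {x y : F3} (hx : 1 / 2000 < rr x) (hy : 1 / 2000 < rr y) (h : Op x = Op y) : x = y :=
  EM_injOn one_pos Op_ok (OpM_es hx) (OpM_es hy) h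
theorem Op_mem {x : F3} (h : 1 / 2000 < rr x) : (Op x).1 ≠ 0 ∨ 1 / 1000 < |(Op x).2| := by
  have h1 : Op x ∈ EM 1 eO mO '' {x | 1 / 2000 < es 1 x} := ⟨x, OpM_es h, rfl⟩
  rw [EM_image one_pos Op_ok] at h1
  exact h1
theorem Op_ne {x : F3} (h : 1 / 2000 < rr x) : Op x ≠ 0 := by
  intro h1
  rcases Op_mem h with h2 | h2
  · exact h2 (by rw [h1]; rfl)
  · rw [h1] at h2
    norm_num at h2
theorem Op_lt {x : F3} (h : 1 / 2000 < rr x) (h' : rr x < 43 / 2000) : rr (Op x) < 43 / 2000 := by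
  by_contra h1
  have h1' := not_lt.1 h1
  have h2 := Op_inj (lt_of_lt_of_le (by norm_num) h1') h (Op_id h1')
  rw [h2] at h1
  exact h1 h'
theorem Op_le_one {x : F3} (h : 1 / 2000 < rr x) : rr (Op x) ≤ 1 ↔ rr x ≤ 1 := by
  rcases lt_or_ge (rr x) (43 / 2000) with h1 | h1
  · have h2 := Op_lt h h1
    constructor
    · intro _
      linarith
    · intro _
      linarith
  · rw [Op_id h1]
theorem Op_snd_pos {x : F3} (h : 1 / 2000 < rr x) : 0 < (Op x).2 ↔ 0 < x.2 := by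
  obtain ⟨r, t, -, ht, -, h2⟩ := EM_coef one_pos Op_ok (OpM_es h)
  change (Op x).2 = t * x.2 at h2
  rw [h2]
  exact mul_pos_iff_of_pos_left ht
theorem Op_snd_zero {x : F3} (h : 1 / 2000 < rr x) : (Op x).2 = 0 ↔ x.2 = 0 := by
  obtain ⟨r, t, -, ht, -, h2⟩ := EM_coef one_pos Op_ok (OpM_es h)
  change (Op x).2 = t * x.2 at h2
  rw [h2, mul_eq_zero]
  exact or_iff_right ht.ne'
theorem Op_fst_zero {x : F3} (h : 1 / 2000 < rr x) : (Op x).1 = 0 ↔ x.1 = 0 := by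
  obtain ⟨r, t, hr, -, h2, -⟩ := EM_coef one_pos Op_ok (OpM_es h)
  change (Op x).1 = r * x.1 at h2
  rw [h2, mul_eq_zero]
  exact or_iff_right (Complex.ofReal_ne_zero.2 hr.ne')
theorem Op_mir (x : F3) : Op (mir x) = mir (Op x) := EM_mir x
theorem Op_cjv (x : F3) : Op (cjv x) = cjv (Op x) := EM_cjv x
/-- on the axis -/
theorem Op_axis {v : ℝ} (h : 1 / 2000 < v) : Op (0, v) = (0, mO v) := by
  have hv : 0 < v := lt_trans (by norm_num) h
  have h1 : rr ((0 : ℂ), v) = v := by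
    show Real.sqrt (normSq 0 + v ^ 2) = v
    rw [map_zero, zero_add, Real.sqrt_sq hv.le]
  rw [OpM_eq, h1]
  refine Prod.ext (mul_zero _) ?_
  exact div_mul_cancel₀ _ hv.ne'

theorem Opi_Op {x : F3} (h : 1 / 2000 < rr x) : Opi (Op x) = x := by
  have h1 : InjOn Op {x | 1 / 2000 < rr x} := fun _ hx _ hy he => Op_inj hx hy he
  exact h1.leftInvOn_invFunOn h
theorem OpM_pre {y : F3} (h : y.1 ≠ 0 ∨ 1 / 1000 < |y.2|) : ∃ x ∈ {x : F3 | 1 / 2000 < rr x}, Op x = y := by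
  have h1 : y ∈ EM 1 eO mO '' {x | 1 / 2000 < es 1 x} := by
    rw [EM_image one_pos Op_ok]
    exact h
  obtain ⟨x, hx, hxy⟩ := h1
  have hx' : 1 / 2000 < es 1 x := hx
  rw [es_one] at hx'
  exact ⟨x, hx', hxy⟩
theorem Op_Opi {y : F3} (h : y.1 ≠ 0 ∨ 1 / 1000 < |y.2|) : Op (Opi y) = y ∧ 1 / 2000 < rr (Opi y) := by
  have h1 := Function.invFunOn_pos (OpM_pre h)
  exact ⟨h1.2, h1.1⟩
theorem Opi_ld {y : F3} (h : y.1 ≠ 0 ∨ 1 / 1000 < |y.2|) : LD Opi y := by
  obtain ⟨x, hx, rfl⟩ := OpM_pre h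
  have hx' : 1 / 2000 < rr x := hx
  refine Pool.Agent.CSG.ld_of_comp_left ?_ (Op_ld hx')
  refine Pool.Agent.CSG.ld_congr (Pool.Agent.CSG.ld_id x) ?_
  filter_upwards [rr_cont.continuousAt.eventually_const_lt hx'] with z hz
  exact Opi_Op hz

end Pool.Agent.CHW
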