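import Pool.Agent.CHW.Jm
import Pool.Agent.TS.StepLip

/-!
# CHW/RdM: the radial map from the plane onto the unit disc   (difficulty 2)

`mu s = (1 - t) s/r₃ + t (π²s² - c²)/(π²s² + c²)`, `t = stp (r₃/4) (r₃/2) s`.
* `mu_deriv`, `s > 0`: `mu' = (1-t)/r₃ + t 4π²c²s/(π²s²+c²)² + t' ((π²s² - c²)/(π²s²+c²) - s/r₃)`; for `s ∈ [r₃/4, r₃/2]`, `c ≤ r₃/4 ≤ s`: the first term of the bracket is
  `≥ (π² - 1)/(π² + 1) ≥ 4/5`, the second is `≤ 1/2`; `t' ≥ 0`, and `t' = 0` off `[r₃/4, r₃/2]`.  So `mu' > 0` for `s > 0`.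
* `0 < mu s < 1` for `s > 0`; `mu s = s/r₃` for `s ≤ r₃/4`; `mu s = (π²s² - c²)/(π²s²+c²)` for `s ≥ r₃/2`; `mu → 1` at `∞`.
* For `z ≠ 0` put `s = c/(π‖z‖)`.  `‖Rd z‖ = √((1 - mu s)/(1 + mu s)) = : f (‖z‖)`, `f` strictly increasing in `‖z‖` (mu decreasing in `‖z‖`), smooth with positive derivative on
  `(0, ∞)`, `→ 1` at `∞` (`s → 0`).  For `s ≥ r₃/2`, i.e. `‖z‖ ≤ 2c/(π r₃)`: `(1 - mu)/(1 + mu) = c²/(π²s²) = ‖z‖²`, so `Rd z = z` (also for `z = 0`, where `Rd 0 = 0`).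
* `Rd_ld`: near `z` with `‖z‖ < 2c/(πr₃)` it is the identity; for `z ≠ 0` it is the radial map `z ↦ f (‖z‖) z/‖z‖`, whose inverse `z ↦ f⁻¹(‖z‖) z/‖z‖` is differentiable
  (`RSG.ld_left`), or the derivative is injective.
* `Rd_inj`, `Rd_surj`: `f : (0, ∞) → (0, 1)` is a bijection.
-/

open scoped Manifold ContDiff Topology
open Set Filter
open Complex (I normSq)

namespace Pool.Agent.CHW

open Pool.Agent.CSG (stp thc)
open Pool.Agent.RSG (ex)

variable {P : Par}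

/-! ### the function `nu` -/

theorem RdM_den (P : Par) (h : P.Ok) (s : ℝ) : 0 < Real.pi ^ 2 * s ^ 2 + P.c ^ 2 := by
  have := h.c_pos
  positivity

/-- the second profile -/
noncomputable def RdM_nu (P : Par) (s : ℝ) : ℝ :=
  (Real.pi ^ 2 * s ^ 2 - P.c ^ 2) / (Real.pi ^ 2 * s ^ 2 + P.c ^ 2)

theorem RdM_mu (P : Par) (s : ℝ) : mu P s = (1 - stp (P.r₃ / 4) (P.r₃ / 2) s) * (s / P.r₃) +
    stp (P.r₃ / 4) (P.r₃ / 2) s * RdM_nu P s := rfl

theorem RdM_r (h : P.Ok) : P.r₃ / 4 < P.r₃ / 2 := by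
  have := h.r₃_pos
  linarith

theorem RdM_pi : (9 : ℝ) ≤ Real.pi ^ 2 := by
  have := Real.pi_gt_three
  nlinarith

theorem RdM_nu_lt (h : P.Ok) (s : ℝ) : RdM_nu P s < 1 := by
  have h1 := RdM_den P h s
  have h2 := h.c_pos
  unfold RdM_nu
  rw [div_lt_one h1]
  nlinarith [sq_pos_of_pos h2]

theorem RdM_nu_gt (h : P.Ok) {s : ℝ} (hs : P.r₃ / 4 ≤ s) : 1 / 2 ≤ RdM_nu P s := by
  have h1 := RdM_den P h s
  have h2 := h.c_pos
  have h3 := h.c_le
  have h4 : P.c ^ 2 ≤ s ^ 2 := by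
    apply pow_le_pow_left₀ h2.le (h3.trans hs)
  have h5 := RdM_pi
  unfold RdM_nu
  rw [le_div_iff₀ h1]
  have h6 : 0 ≤ s ^ 2 := sq_nonneg _
  nlinarith [mul_le_mul_of_nonneg_right h5 h6]

theorem RdM_nu_deriv (h : P.Ok) (s : ℝ) : HasDerivAt (RdM_nu P)
    (4 * Real.pi ^ 2 * P.c ^ 2 * s / (Real.pi ^ 2 * s ^ 2 + P.c ^ 2) ^ 2) s := by
  have h1 := RdM_den P h s
  have e1 : HasDerivAt (fun s : ℝ => Real.pi ^ 2 * s ^ 2 - P.c ^ 2) (Real.pi ^ 2 * (2 * s)) s := by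
    have := ((hasDerivAt_pow 2 s).const_mul (Real.pi ^ 2)).sub_const (P.c ^ 2)
    simpa using this
  have e2 : HasDerivAt (fun s : ℝ => Real.pi ^ 2 * s ^ 2 + P.c ^ 2) (Real.pi ^ 2 * (2 * s)) s := by
    have := ((hasDerivAt_pow 2 s).const_mul (Real.pi ^ 2)).add_const (P.c ^ 2)
    simpa using this
  have e3 := e1.div e2 h1.ne'
  have e4 : 4 * Real.pi ^ 2 * P.c ^ 2 * s / (Real.pi ^ 2 * s ^ 2 + P.c ^ 2) ^ 2 =
      (Real.pi ^ 2 * (2 * s) * (Real.pi ^ 2 * s ^ 2 + P.c ^ 2) -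
        (Real.pi ^ 2 * s ^ 2 - P.c ^ 2) * (Real.pi ^ 2 * (2 * s))) /
        (Real.pi ^ 2 * s ^ 2 + P.c ^ 2) ^ 2 := by
    congr 1
    ring
  rw [e4]
  exact e3

theorem RdM_nu_smooth (h : P.Ok) : ContDiff ℝ ∞ (RdM_nu P) := by
  unfold RdM_nu
  refine ContDiff.div ?_ ?_ (fun s => (RdM_den P h s).ne')
  · exact (contDiff_const.mul (contDiff_id.pow 2)).sub contDiff_const
  · exact (contDiff_const.mul (contDiff_id.pow 2)).add contDiff_const

theorem RdM_mu_smooth (h : P.Ok) : ContDiff ℝ ∞ (mu P) := by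
  have e : mu P = fun s => (1 - stp (P.r₃ / 4) (P.r₃ / 2) s) * (s / P.r₃) +
    stp (P.r₃ / 4) (P.r₃ / 2) s * RdM_nu P s := rfl
  rw [e]
  have h1 := CSG.stp_smooth (P.r₃ / 4) (P.r₃ / 2)
  exact ((contDiff_const.sub h1).mul (contDiff_id.div_const _)).add (h1.mul (RdM_nu_smooth h))

theorem mu_small (h : P.Ok) {s : ℝ} (hs : s ≤ P.r₃ / 4) : mu P s = s / P.r₃ := by
  rw [RdM_mu, CSG.stp_zero (RdM_r h) hs]
  ring

theorem RdM_large (h : P.Ok) {s : ℝ} (hs : P.r₃ / 2 ≤ s) : mu P s = RdM_nu P s := by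
  rw [RdM_mu, CSG.stp_one (RdM_r h) hs]
  ring

theorem mu_bounds (h : P.Ok) {s : ℝ} (hs : 0 < s) : 0 < mu P s ∧ mu P s < 1 := by
  have hr := h.r₃_pos
  by_cases h1 : s ≤ P.r₃ / 4
  · rw [mu_small h h1]
    refine ⟨div_pos hs hr, ?_⟩
    rw [div_lt_one hr]
    linarith
  · push Not at h1
    by_cases h2 : P.r₃ / 2 ≤ s
    · rw [RdM_large h h2]
      have := RdM_nu_gt h h1.le
      exact ⟨by linarith, RdM_nu_lt h s⟩
    · push Not at h2
      rw [RdM_mu]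
      have a1 := CSG.stp_nonneg (P.r₃ / 4) (P.r₃ / 2) s
      have a2 := CSG.stp_le_one (P.r₃ / 4) (P.r₃ / 2) s
      have b1 := RdM_nu_gt h h1.le
      have b2 := RdM_nu_lt h s
      have c1 : 0 < s / P.r₃ := div_pos hs hr
      have c2 : s / P.r₃ < 1 := by
        rw [div_lt_one hr]
        linarith
      set t := stp (P.r₃ / 4) (P.r₃ / 2) s
      set x := s / P.r₃
      set y := RdM_nu P s
      have d1 : 0 ≤ 1 - t := by linarith
      constructor
      · rcases a1.eq_or_lt with e | e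
        · rw [← e]
          simpa using c1
        · have := mul_nonneg d1 c1.le
          have := mul_pos e (by linarith : 0 < y)
          linarith
      · rcases a1.eq_or_lt with e | e
        · rw [← e]
          simpa using c2
        · have := mul_nonneg d1 (by linarith : 0 ≤ 1 - x)
          have := mul_pos e (by linarith : 0 < 1 - y)
          nlinarith

theorem mu_deriv (h : P.Ok) {s : ℝ} (hs : 0 < s) : 0 < deriv (mu P) s := by
  have hr := h.r₃_pos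
  have hc := h.c_pos
  have e0 : DifferentiableAt ℝ (stp (P.r₃ / 4) (P.r₃ / 2)) s :=
    (CSG.stp_smooth _ _).differentiable (by simp) s
  have e1 : HasDerivAt (mu P)
      ((0 - deriv (stp (P.r₃ / 4) (P.r₃ / 2)) s) * (s / P.r₃) +
        (1 - stp (P.r₃ / 4) (P.r₃ / 2) s) * (1 / P.r₃) +
        (deriv (stp (P.r₃ / 4) (P.r₃ / 2)) s * RdM_nu P s +
          stp (P.r₃ / 4) (P.r₃ / 2) s *
            (4 * Real.pi ^ 2 * P.c ^ 2 * s / (Real.pi ^ 2 * s ^ 2 + P.c ^ 2) ^ 2))) s := by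
    have f1 := ((hasDerivAt_const s (1 : ℝ)).sub e0.hasDerivAt).mul ((hasDerivAt_id s).div_const P.r₃)
    have f2 := e0.hasDerivAt.mul (RdM_nu_deriv h s)
    exact f1.add f2
  rw [e1.deriv]
  have k1 : 0 ≤ deriv (stp (P.r₃ / 4) (P.r₃ / 2)) s * (RdM_nu P s - s / P.r₃) := by
    by_cases h1 : s < P.r₃ / 4
    · have : stp (P.r₃ / 4) (P.r₃ / 2) =ᶠ[𝓝 s] fun _ => 0 := by
        filter_upwards [Iio_mem_nhds h1] with y hy
        exact CSG.stp_zero (RdM_r h) (le_of_lt hy)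
      rw [this.deriv_eq]
      simp
    · push Not at h1
      by_cases h2 : P.r₃ / 2 < s
      · have : stp (P.r₃ / 4) (P.r₃ / 2) =ᶠ[𝓝 s] fun _ => 1 := by
          filter_upwards [Ioi_mem_nhds h2] with y hy
          exact CSG.stp_one (RdM_r h) (le_of_lt hy)
        rw [this.deriv_eq]
        simp
      · push Not at h2
        apply mul_nonneg (CSG.stp_deriv_nonneg (RdM_r h) s)
        have b1 := RdM_nu_gt h h1
        have : s / P.r₃ ≤ 1 / 2 := by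
          rw [div_le_iff₀ hr]
          linarith
        linarith
  have a1 := CSG.stp_nonneg (P.r₃ / 4) (P.r₃ / 2) s
  have a2 := CSG.stp_le_one (P.r₃ / 4) (P.r₃ / 2) s
  have k2 : 0 < 1 / P.r₃ := by positivity
  have k3 : 0 < 4 * Real.pi ^ 2 * P.c ^ 2 * s / (Real.pi ^ 2 * s ^ 2 + P.c ^ 2) ^ 2 := by positivity
  have k4 : 0 < (1 - stp (P.r₃ / 4) (P.r₃ / 2) s) * (1 / P.r₃) + stp (P.r₃ / 4) (P.r₃ / 2) s *
      (4 * Real.pi ^ 2 * P.c ^ 2 * s / (Real.pi ^ 2 * s ^ 2 + P.c ^ 2) ^ 2) := by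
    rcases a1.eq_or_lt with e | e
    · rw [← e]
      simpa using k2
    · have := mul_nonneg (by linarith : 0 ≤ 1 - stp (P.r₃ / 4) (P.r₃ / 2) s) k2.le
      have := mul_pos e k3
      linarith
  linarith

theorem RdM_mu_mono (h : P.Ok) : StrictMonoOn (mu P) (Ioi 0) := by
  apply strictMonoOn_of_deriv_pos (convex_Ioi 0)
  · exact (RdM_mu_smooth h).continuous.continuousOn
  · intro x hx
    rw [interior_Ioi] at hx
    exact mu_deriv h hx

/-! ### the radial profile -/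

/-- the radial profile -/
noncomputable def RdM_g (P : Par) (x : ℝ) : ℝ :=
  Real.sqrt ((1 - mu P (P.c / (Real.pi * x))) / (1 + mu P (P.c / (Real.pi * x))))

theorem RdM_Rd (P : Par) (z : ℂ) : Rd P z = ((RdM_g P ‖z‖ / ‖z‖ : ℝ) : ℂ) * z := rfl

theorem RdM_s (h : P.Ok) {x : ℝ} (hx : 0 < x) : 0 < P.c / (Real.pi * x) := by
  have := h.c_pos
  have := Real.pi_pos
  positivity

theorem RdM_g_pos (h : P.Ok) {x : ℝ} (hx : 0 < x) : 0 < RdM_g P x := by
  have h1 := mu_bounds h (RdM_s h hx)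
  apply Real.sqrt_pos.2
  apply div_pos <;> linarith [h1.1, h1.2]

theorem RdM_g_lt (h : P.Ok) {x : ℝ} (hx : 0 < x) : RdM_g P x < 1 := by
  have h1 := mu_bounds h (RdM_s h hx)
  unfold RdM_g
  rw [Real.sqrt_lt' one_pos, one_pow, div_lt_one (by linarith [h1.1])]
  linarith [h1.1]

theorem RdM_norm (h : P.Ok) {z : ℂ} (hz : z ≠ 0) : ‖Rd P z‖ = RdM_g P ‖z‖ := by
  have h1 : 0 < ‖z‖ := norm_pos_iff.2 hz
  have h2 := RdM_g_pos h h1
  rw [RdM_Rd, norm_mul, Complex.norm_real, Real.norm_eq_abs, abs_of_pos (div_pos h2 h1)]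
  field_simp

theorem RdM_zero (P : Par) : Rd P 0 = 0 := by
  rw [RdM_Rd, mul_zero]

theorem RdM_g_mono (h : P.Ok) : StrictMonoOn (RdM_g P) (Ioi 0) := by
  intro x hx y hy hxy
  have hx' : 0 < x := hx
  have hy' : 0 < y := hy
  have hc := h.c_pos
  have hp := Real.pi_pos
  have h1 : P.c / (Real.pi * y) < P.c / (Real.pi * x) := by
    apply div_lt_div_of_pos_left hc (by positivity)
    gcongr
  have h2 := RdM_mu_mono h (RdM_s h hy') (RdM_s h hx') h1
  have b1 := mu_bounds h (RdM_s h hx')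
  have b2 := mu_bounds h (RdM_s h hy')
  apply Real.sqrt_lt_sqrt
  · apply div_nonneg <;> linarith [b1.1, b1.2]
  · rw [div_lt_div_iff₀ (by linarith [b1.1]) (by linarith [b2.1])]
    nlinarith

theorem Rd_lt (h : P.Ok) (z : ℂ) : ‖Rd P z‖ < 1 := by
  by_cases hz : z = 0
  · rw [hz, RdM_zero, norm_zero]
    exact one_pos
  · rw [RdM_norm h hz]
    exact RdM_g_lt h (norm_pos_iff.2 hz)

theorem Rd_small (h : P.Ok) {z : ℂ} (hz : ‖z‖ ≤ 2 * P.c / (Real.pi * P.r₃)) : Rd P z = z := by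
  by_cases h0 : z = 0
  · rw [h0, RdM_zero]
  · have h1 : 0 < ‖z‖ := norm_pos_iff.2 h0
    have hr := h.r₃_pos
    have hc := h.c_pos
    have hp := Real.pi_pos
    have h2 : P.r₃ / 2 ≤ P.c / (Real.pi * ‖z‖) := by
      rw [le_div_iff₀ (by positivity)] at hz
      rw [le_div_iff₀ (by positivity)]
      nlinarith
    have h3 : RdM_nu P (P.c / (Real.pi * ‖z‖)) = (1 - ‖z‖ ^ 2) / (1 + ‖z‖ ^ 2) := by
      unfold RdM_nu
      field_simp
    have h4 : RdM_g P ‖z‖ = ‖z‖ := by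
      unfold RdM_g
      rw [RdM_large h h2, h3]
      have : (1 - (1 - ‖z‖ ^ 2) / (1 + ‖z‖ ^ 2)) / (1 + (1 - ‖z‖ ^ 2) / (1 + ‖z‖ ^ 2)) = ‖z‖ ^ 2 := by
        have : (1 : ℝ) + ‖z‖ ^ 2 ≠ 0 := by positivity
        have : (1 : ℝ) + ‖z‖ ^ 2 + (1 - ‖z‖ ^ 2) ≠ 0 := by
          ring_nf
          norm_num
        field_simp
        ring
      rw [this]
      exact Real.sqrt_sq h1.le
    rw [RdM_Rd, h4, div_self h1.ne']
    simp

theorem Rd_inj (h : P.Ok) : Function.Injective (Rd P) := by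
  intro z w hzw
  by_cases hz : z = 0
  · by_cases hw : w = 0
    · rw [hz, hw]
    · exfalso
      have h1 := RdM_norm h hw
      rw [← hzw, hz, RdM_zero, norm_zero] at h1
      exact absurd h1 (RdM_g_pos h (norm_pos_iff.2 hw)).ne
  · by_cases hw : w = 0
    · exfalso
      have h1 := RdM_norm h hz
      rw [hzw, hw, RdM_zero, norm_zero] at h1
      exact absurd h1 (RdM_g_pos h (norm_pos_iff.2 hz)).ne
    · have h1 : RdM_g P ‖z‖ = RdM_g P ‖w‖ := by
        rw [← RdM_norm h hz, ← RdM_norm h hw, hzw]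
      have hz' : 0 < ‖z‖ := norm_pos_iff.2 hz
      have hw' : 0 < ‖w‖ := norm_pos_iff.2 hw
      have h2 : ‖z‖ = ‖w‖ := (RdM_g_mono h).injOn hz' hw' h1
      rw [RdM_Rd, RdM_Rd, h2] at hzw
      refine mul_left_cancel₀ ?_ hzw
      rw [Complex.ofReal_ne_zero]
      exact (div_pos (RdM_g_pos h hw') hw').ne'

theorem Rd_surj (h : P.Ok) {z : ℂ} (hz : ‖z‖ < 1) : ∃ z' : ℂ, Rd P z' = z := by
  by_cases h0 : z = 0
  · exact ⟨0, by rw [RdM_zero, h0]⟩
  have h1 : 0 < ‖z‖ := norm_pos_iff.2 h0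
  have hr := h.r₃_pos
  have hc := h.c_pos
  have hp := Real.pi_pos
  set m : ℝ := (1 - ‖z‖ ^ 2) / (1 + ‖z‖ ^ 2) with hm
  have hz2 : ‖z‖ ^ 2 < 1 := by nlinarith
  have m0 : 0 < m := div_pos (by linarith) (by positivity)
  have m1 : m < 1 := by
    rw [hm, div_lt_one (by positivity)]
    nlinarith [sq_pos_of_pos h1]
  have s1 : mu P (P.r₃ / 4 * m) < m := by
    rw [mu_small h (by nlinarith)]
    have : P.r₃ / 4 * m / P.r₃ = m / 4 := by field_simp
    rw [this]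
    linarith
  have s2 : m ≤ mu P (P.r₃ / 2 + P.c / (1 - m)) := by
    have h3 : 0 < 1 - m := by linarith
    have h2 : 0 < P.c / (1 - m) := by positivity
    rw [RdM_large h (by linarith)]
    unfold RdM_nu
    rw [le_div_iff₀ (RdM_den P h _)]
    have h5 : (P.c / (1 - m)) ^ 2 ≤ (P.r₃ / 2 + P.c / (1 - m)) ^ 2 :=
      pow_le_pow_left₀ h2.le (by linarith) 2
    have h6 := RdM_pi
    have h7 : P.c ^ 2 ≤ (P.c / (1 - m)) ^ 2 * (1 - m) := by
      have : (P.c / (1 - m)) ^ 2 * (1 - m) = P.c ^ 2 / (1 - m) := by field_simp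
      rw [this, le_div_iff₀ h3]
      nlinarith [sq_pos_of_pos hc]
    set y := (P.r₃ / 2 + P.c / (1 - m)) ^ 2
    have h8 : P.c ^ 2 ≤ y * (1 - m) := h7.trans (mul_le_mul_of_nonneg_right h5 h3.le)
    have h9 : 9 * (y * (1 - m)) ≤ Real.pi ^ 2 * (y * (1 - m)) :=
      mul_le_mul_of_nonneg_right h6 (by nlinarith [sq_pos_of_pos hc])
    nlinarith [sq_pos_of_pos hc]
  have hle : P.r₃ / 4 * m ≤ P.r₃ / 2 + P.c / (1 - m) := by
    have h3 : 0 < 1 - m := by linarith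
    have h2 : 0 < P.c / (1 - m) := by positivity
    nlinarith
  obtain ⟨s, ⟨hs1, hs2⟩, hs3⟩ := intermediate_value_Icc hle
    ((RdM_mu_smooth h).continuous.continuousOn) ⟨s1.le, s2⟩
  have hs : 0 < s := lt_of_lt_of_le (by positivity) hs1
  set x := P.c / (Real.pi * s) with hx
  have hx0 : 0 < x := by positivity
  have hxs : P.c / (Real.pi * x) = s := by
    rw [hx]
    field_simp
  have hgx : RdM_g P x = ‖z‖ := by
    unfold RdM_g
    rw [hxs, hs3]
    have : (1 - m) / (1 + m) = ‖z‖ ^ 2 := by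
      rw [hm]
      have : (1 : ℝ) + ‖z‖ ^ 2 ≠ 0 := by positivity
      have : (1 : ℝ) + ‖z‖ ^ 2 + (1 - ‖z‖ ^ 2) ≠ 0 := by
        ring_nf
        norm_num
      field_simp
      ring
    rw [this]
    exact Real.sqrt_sq h1.le
  have hn : ‖((x / ‖z‖ : ℝ) : ℂ) * z‖ = x := by
    rw [norm_mul, Complex.norm_real, Real.norm_eq_abs, abs_of_pos (by positivity)]
    field_simp
  refine ⟨((x / ‖z‖ : ℝ) : ℂ) * z, ?_⟩
  rw [RdM_Rd, hn, hgx, ← mul_assoc, ← Complex.ofReal_mul]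
  have : ‖z‖ / x * (x / ‖z‖) = 1 := by field_simp
  rw [this]
  simp

theorem RdM_g_smooth (h : P.Ok) {x : ℝ} (hx : 0 < x) : ContDiffAt ℝ ∞ (RdM_g P) x := by
  have h1 := mu_bounds h (RdM_s h hx)
  have hp := Real.pi_pos
  have e1 : ContDiffAt ℝ ∞ (fun x : ℝ => mu P (P.c / (Real.pi * x))) x := by
    refine ContDiffAt.comp (g := mu P) (f := fun x : ℝ => P.c / (Real.pi * x)) x
      (RdM_mu_smooth h).contDiffAt ?_
    exact contDiffAt_const.div (contDiffAt_const.mul contDiffAt_id) (by positivity)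
  unfold RdM_g
  refine ContDiffAt.sqrt ?_ ?_
  · exact (contDiffAt_const.sub e1).div (contDiffAt_const.add e1) (by linarith [h1.1])
  · exact (div_pos (by linarith [h1.2]) (by linarith [h1.1])).ne'

theorem RdM_g_deriv (h : P.Ok) {x : ℝ} (hx : 0 < x) : 0 < deriv (RdM_g P) x := by
  have h1 := mu_bounds h (RdM_s h hx)
  have hp := Real.pi_pos
  have hc := h.c_pos
  have e0 : HasDerivAt (fun x : ℝ => P.c / (Real.pi * x))
      (-(P.c / (Real.pi * x ^ 2))) x := by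
    have f1 : HasDerivAt (fun x : ℝ => Real.pi * x) Real.pi x := by
      simpa using (hasDerivAt_id x).const_mul Real.pi
    have f2 := (hasDerivAt_const x P.c).div f1 (by positivity)
    have f3 : -(P.c / (Real.pi * x ^ 2)) =
        (0 * (Real.pi * x) - P.c * Real.pi) / (Real.pi * x) ^ 2 := by
      field_simp
      ring
    rw [f3]
    exact f2
  have e1 : HasDerivAt (mu P) (deriv (mu P) (P.c / (Real.pi * x))) (P.c / (Real.pi * x)) :=
    ((RdM_mu_smooth h).differentiable (by simp) _).hasDerivAt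
  have e2 : HasDerivAt (fun x : ℝ => mu P (P.c / (Real.pi * x)))
      (deriv (mu P) (P.c / (Real.pi * x)) * (-(P.c / (Real.pi * x ^ 2)))) x :=
    HasDerivAt.comp (h := fun x : ℝ => P.c / (Real.pi * x)) x e1 e0
  set m := mu P (P.c / (Real.pi * x)) with hm
  set d := deriv (mu P) (P.c / (Real.pi * x)) * (-(P.c / (Real.pi * x ^ 2))) with hd
  have hd0 : d < 0 := by
    have k1 := mu_deriv h (RdM_s h hx)
    have k2 : 0 < P.c / (Real.pi * x ^ 2) := by positivity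
    rw [hd]
    nlinarith [mul_pos k1 k2]
  have hm1 : 0 < 1 + m := by linarith [h1.1]
  have hm2 : 0 < 1 - m := by linarith [h1.2]
  have e3 : HasDerivAt (fun x : ℝ => (1 - mu P (P.c / (Real.pi * x))) / (1 + mu P (P.c / (Real.pi * x))))
      (((0 - d) * (1 + m) - (1 - m) * (0 + d)) / (1 + m) ^ 2) x := by
    exact ((hasDerivAt_const x (1 : ℝ)).sub e2).div ((hasDerivAt_const x (1 : ℝ)).add e2) hm1.ne'
  have e4 := e3.sqrt (div_pos hm2 hm1).ne'
  have e5 : deriv (RdM_g P) x = _ := e4.deriv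
  rw [e5]
  apply div_pos
  · apply div_pos
    · nlinarith
    · positivity
  · have := Real.sqrt_pos.2 (div_pos hm2 hm1)
    positivity

theorem Rd_ld (h : P.Ok) (z : ℂ) : LD (Rd P) z := by
  have hr := h.r₃_pos
  have hc := h.c_pos
  have hp := Real.pi_pos
  by_cases h0 : z = 0
  · have hb : ‖z‖ < 2 * P.c / (Real.pi * P.r₃) := by
      rw [h0, norm_zero]
      positivity
    have he : Rd P =ᶠ[𝓝 z] id := by
      filter_upwards [(isOpen_lt continuous_norm continuous_const).mem_nhds hb] with y hy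
      exact Rd_small h (le_of_lt hy)
    exact CSG.ld_congr (CSG.ld_id z) he
  · have hz : 0 < ‖z‖ := norm_pos_iff.2 h0
    have hF : ∀ y : ℂ, y ≠ 0 → ContDiffAt ℝ ∞ (Rd P) y := by
      intro y hy
      have hy' : 0 < ‖y‖ := norm_pos_iff.2 hy
      have n1 : ContDiffAt ℝ ∞ (fun y : ℂ => ‖y‖) y := contDiffAt_norm ℝ hy
      have n2 : ContDiffAt ℝ ∞ (fun y : ℂ => RdM_g P ‖y‖) y :=
        ContDiffAt.comp (g := RdM_g P) (f := fun y : ℂ => ‖y‖) y (RdM_g_smooth h hy') n1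
      have n3 : ContDiffAt ℝ ∞ (fun y : ℂ => RdM_g P ‖y‖ / ‖y‖) y := n2.div n1 hy'.ne'
      have n4 : ContDiffAt ℝ ∞ (fun y : ℂ => ((RdM_g P ‖y‖ / ‖y‖ : ℝ) : ℂ)) y :=
        Complex.ofRealCLM.contDiff.contDiffAt.comp y n3
      exact n4.mul contDiffAt_id
    refine CSG.ld_of_fderiv ?_ rfl ?_
    · filter_upwards [isOpen_ne.mem_nhds h0] with y hy
      exact hF y hy
    · intro v hv
      have n1 : DifferentiableAt ℝ (fun y : ℂ => ‖y‖) z :=
        (contDiffAt_norm ℝ h0 (n := 1)).differentiableAt (by simp)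
      set N := fderiv ℝ (fun y : ℂ => ‖y‖) z with hN
      have hNz : N z = ‖z‖ := by
        exact n1.fderiv_norm_self
      have g1 : HasDerivAt (RdM_g P) (deriv (RdM_g P) ‖z‖) ‖z‖ :=
        ((RdM_g_smooth h hz).differentiableAt (by simp)).hasDerivAt
      have f1 : HasDerivAt (fun x => RdM_g P x / x)
          ((deriv (RdM_g P) ‖z‖ * ‖z‖ - RdM_g P ‖z‖ * 1) / ‖z‖ ^ 2) ‖z‖ :=
        g1.div (hasDerivAt_id _) hz.ne'
      have f2 : HasFDerivAt (fun y : ℂ => RdM_g P ‖y‖ / ‖y‖)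
          (((deriv (RdM_g P) ‖z‖ * ‖z‖ - RdM_g P ‖z‖ * 1) / ‖z‖ ^ 2) • N) z :=
        f1.comp_hasFDerivAt z n1.hasFDerivAt
      have f3 := f2.smul (hasFDerivAt_id (𝕜 := ℝ) z)
      have f4 : (fun y : ℂ => (RdM_g P ‖y‖ / ‖y‖) • y) = Rd P := by
        funext y
        rw [RdM_Rd, Complex.real_smul]
      have f5 : HasFDerivAt (Rd P) ((RdM_g P ‖z‖ / ‖z‖) • ContinuousLinearMap.id ℝ ℂ +
          (((deriv (RdM_g P) ‖z‖ * ‖z‖ - RdM_g P ‖z‖ * 1) / ‖z‖ ^ 2) • N).smulRight z) z := by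
        rw [← f4]
        exact f3
      rw [f5.fderiv] at hv
      set φ := RdM_g P ‖z‖ / ‖z‖ with hφ
      set φ' := (deriv (RdM_g P) ‖z‖ * ‖z‖ - RdM_g P ‖z‖ * 1) / ‖z‖ ^ 2 with hφ'
      have hv' : φ • v + (φ' * N v) • z = 0 := by
        simpa using hv
      have hφ0 : 0 < φ := div_pos (RdM_g_pos h hz) hz
      have hv2 : v = (-(φ' * N v) / φ) • z := by
        have : φ • v = (-(φ' * N v)) • z := by
          rw [neg_smul]
          exact eq_neg_of_add_eq_zero_left hv'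
        rw [div_eq_inv_mul, mul_smul, ← this, smul_smul, inv_mul_cancel₀ hφ0.ne', one_smul]
      set l := -(φ' * N v) / φ with hl
      have hNv : N v = l * ‖z‖ := by
        rw [hv2, map_smul, hNz]
        rfl
      have h3 : l * φ = -(φ' * (l * ‖z‖)) := by
        rw [← hNv, hl]
        field_simp
      have h4 : l * (φ + ‖z‖ * φ') = 0 := by linarith
      have h5 : φ + ‖z‖ * φ' = deriv (RdM_g P) ‖z‖ := by
        rw [hφ, hφ']
        field_simp
        ring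
      rw [h5] at h4
      have h6 : l = 0 := by
        rcases mul_eq_zero.1 h4 with h | h'
        · exact h
        · exact absurd h' (RdM_g_deriv h hz).ne'
      rw [hv2, h6, zero_smul]

theorem Rd_c (h : P.Ok) : Rd P P.c = P.c ∧ Rd P (-P.c) = -P.c := by
  have hr := h.r₃_pos
  have hc := h.c_pos
  have hp := Real.pi_pos
  have hp4 := Real.pi_le_four
  have hd := h.d₁_le
  have hrd := h.r₃_le
  have h1 : ‖(P.c : ℂ)‖ ≤ 2 * P.c / (Real.pi * P.r₃) := by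
    rw [Complex.norm_real, Real.norm_eq_abs, abs_of_pos hc, le_div_iff₀ (by positivity)]
    have : Real.pi * P.r₃ ≤ 2 := by nlinarith
    nlinarith
  refine ⟨Rd_small h h1, Rd_small h ?_⟩
  rw [norm_neg]
  exact h1

theorem Rd_neg (z : ℂ) : Rd P (-z) = -Rd P z := by
  rw [RdM_Rd, RdM_Rd, norm_neg, mul_neg]

theorem Rd_conj (z : ℂ) : Rd P ((starRingEnd ℂ) z) = (starRingEnd ℂ) (Rd P z) := by
  rw [RdM_Rd, RdM_Rd, RCLike.norm_conj, map_mul, Complex.conj_ofReal]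

/-- near the binding -/
theorem Rd_big (h : P.Ok) {w : ℂ} (hw : w ≠ 0) (hw' : ‖w‖ ≤ P.r₃ / 4) :
    Rd P (P.c / (Real.pi * w)) =
      ((Real.sqrt ((1 - ‖w‖ / P.r₃) / (1 + ‖w‖ / P.r₃)) : ℝ) : ℂ) * ((‖w‖ : ℂ) / w) := by
  have hr := h.r₃_pos
  have hc := h.c_pos
  have hp := Real.pi_pos
  have h1 : 0 < ‖w‖ := norm_pos_iff.2 hw
  have h2 : ‖(P.c : ℂ) / (Real.pi * w)‖ = P.c / (Real.pi * ‖w‖) := by
    rw [norm_div, norm_mul, Complex.norm_real, Complex.norm_real, Real.norm_eq_abs,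
      Real.norm_eq_abs, abs_of_pos hc, abs_of_pos hp]
  have h3 : P.c / (Real.pi * (P.c / (Real.pi * ‖w‖))) = ‖w‖ := by
    field_simp
  have h4 : RdM_g P (P.c / (Real.pi * ‖w‖)) =
      Real.sqrt ((1 - ‖w‖ / P.r₃) / (1 + ‖w‖ / P.r₃)) := by
    unfold RdM_g
    rw [h3, mu_small h hw']
  rw [RdM_Rd, h2, h4]
  have hw1 : (‖w‖ : ℂ) ≠ 0 := by
    rw [Complex.ofReal_ne_zero]
    exact h1.ne'
  have hc1 : (P.c : ℂ) ≠ 0 := by
    rw [Complex.ofReal_ne_zero]
    exact hc.ne'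
  have hp1 : (Real.pi : ℂ) ≠ 0 := by
    rw [Complex.ofReal_ne_zero]
    exact hp.ne'
  push_cast
  field_simp

end Pool.Agent.CHW
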