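import Pool.Agent.CHW.WD
import Pool.Agent.CHW.ElM

/-!
# CHW/RlM: cylindrical coordinates and the radial reparametrisation   (difficulty 2)

`elli` is the inverse function of `ell` (`exists_elli`; `Function.invFun ell` is equal to it as `ell` is a bijection).  `Rl x = (exp (elli (log |x|)) / |x|) • x`, inverse
`y ↦ (exp (ell (log |y|)) / |y|) • y`.  `elli (x + n log 4000000) = elli x + n`, `elli (-x) = - elli x`, `elli x = x/(2π)` for `|x| ≤ π/4`.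
`cyl (u, Y, X) = e^Y (√(1 - X²) ex u, X)`: `rr (cyl) = e^Y` for `|X| ≤ 1`, a local diffeomorphism for `|X| < 1` (`pol_ld` and `X + i √(1-X²)` .. or `RSG.ld_left` with the local inverse
`x ↦ (u₀ + arg (x.1 / ex u₀)/2π, log (rr x), x.2/rr x)`), injective modulo `u ↦ u + 1`.  `zone d x₁ n` is open: image of an open set under local diffeomorphisms (`x₁ ≤ 1`).
-/

open scoped Manifold ContDiff Topology
open Set Filter
open Complex (I normSq)

namespace Pool.Agent.CHW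

open Pool.Agent.CSG (stp thc)
open Pool.Agent.RSG (ex)

noncomputable def elli : ℝ → ℝ := Function.invFun ell
noncomputable def Rl (x : F3) : F3 := (Real.exp (elli (Real.log (rr x))) / rr x) • x

theorem RlM_surj (x : ℝ) : ell (elli x) = x := Function.invFun_eq (ell_surj x)

theorem elli_ell (y : ℝ) : elli (ell y) = y := ell_mono.injective (RlM_surj (ell y))

theorem ell_elli (x : ℝ) : ell (elli x) = x := RlM_surj x

theorem RlM_eq : ∃ f : ℝ → ℝ, ContDiff ℝ ∞ f ∧ StrictMono f ∧ (∀ x, 0 < deriv f x) ∧ elli = f := by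
  obtain ⟨f, h1, h2, h3, h4, h5⟩ := exists_elli
  refine ⟨f, h1, h4, h5, ?_⟩
  funext x
  apply ell_mono.injective
  rw [ell_elli, h3]

theorem elli_smooth : ContDiff ℝ ∞ elli := by
  obtain ⟨f, h1, h2, h3, h4⟩ := RlM_eq
  rw [h4]
  exact h1

theorem elli_mono : StrictMono elli := by
  obtain ⟨f, h1, h2, h3, h4⟩ := RlM_eq
  rw [h4]
  exact h2

theorem elli_deriv (x : ℝ) : 0 < deriv elli x := by
  obtain ⟨f, h1, h2, h3, h4⟩ := RlM_eq
  rw [h4]
  exact h3 x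

theorem elli_add (x : ℝ) (n : ℤ) : elli (x + n * Real.log 4000000) = elli x + n := by
  apply ell_mono.injective
  rw [ell_elli, ell_add, ell_elli]

theorem elli_neg (x : ℝ) : elli (-x) = -elli x := by
  apply ell_mono.injective
  rw [ell_elli, ell_neg, ell_elli]

theorem elli_small {x : ℝ} (h : |x| ≤ Real.pi / 4) : elli x = x / (2 * Real.pi) := by
  have hpi := Real.pi_pos
  have h1 : |x / (2 * Real.pi)| ≤ 1 / 8 := by
    rw [abs_div, abs_of_pos (by positivity : (0 : ℝ) < 2 * Real.pi), div_le_iff₀ (by positivity)]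
    linarith
  apply ell_mono.injective
  rw [ell_elli, ell_small h1]
  field_simp

theorem elli_lt {x : ℝ} : |elli x| < 1 / 2 ↔ |x| < Real.log 2000 := by
  rw [ell_lt, ell_elli]

/-- the coefficient of `Rl` -/
noncomputable def RlM_k (x : F3) : ℝ := Real.exp (elli (Real.log (rr x))) / rr x

theorem RlM_kpos {x : F3} (hx : x ≠ 0) : 0 < RlM_k x :=
  div_pos (Real.exp_pos _) (rr_pos hx)

theorem RlM_def (x : F3) : Rl x = RlM_k x • x := rfl

theorem Rl_rr {x : F3} (hx : x ≠ 0) : rr (Rl x) = Real.exp (elli (Real.log (rr x))) := by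
  rw [RlM_def, rr_smul, abs_of_pos (RlM_kpos hx)]
  unfold RlM_k
  rw [div_mul_cancel₀ _ (rr_pos hx).ne']

theorem RlM_ne {x : F3} (h : 0 < rr x) : x ≠ 0 := by
  rintro rfl
  rw [rr_eq_zero.2 rfl] at h
  exact lt_irrefl _ h

theorem Rl_ne {x : F3} (hx : x ≠ 0) : Rl x ≠ 0 := by
  apply RlM_ne
  rw [Rl_rr hx]
  exact Real.exp_pos _

theorem Rl_coef {x : F3} (hx : x ≠ 0) : ∃ r : ℝ, 0 < r ∧ Rl x = r • x :=
  ⟨RlM_k x, RlM_kpos hx, rfl⟩

theorem Rl_ratio {x : F3} (hx : x ≠ 0) : (Rl x).2 / rr (Rl x) = x.2 / rr x := by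
  rw [RlM_def, rr_smul, abs_of_pos (RlM_kpos hx), Prod.smul_snd, smul_eq_mul,
    mul_div_mul_left _ _ (RlM_kpos hx).ne']

/-- the inverse of `Rl` -/
noncomputable def RlM_g (x : F3) : F3 := (Real.exp (ell (Real.log (rr x))) / rr x) • x

theorem RlM_gk {x : F3} (hx : x ≠ 0) : rr (RlM_g x) = Real.exp (ell (Real.log (rr x))) := by
  unfold RlM_g
  rw [rr_smul, abs_of_pos (div_pos (Real.exp_pos _) (rr_pos hx)),
    div_mul_cancel₀ _ (rr_pos hx).ne']

theorem RlM_g_Rl {x : F3} (hx : x ≠ 0) : RlM_g (Rl x) = x := by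
  have hr := rr_pos hx
  unfold RlM_g
  rw [Rl_rr hx, Real.log_exp, ell_elli, Real.exp_log hr, RlM_def, smul_smul]
  unfold RlM_k
  rw [div_mul_div_comm, mul_comm, div_self, one_smul]
  exact mul_ne_zero (Real.exp_pos _).ne' hr.ne'

theorem RlM_Rl_g {x : F3} (hx : x ≠ 0) : Rl (RlM_g x) = x := by
  have hr := rr_pos hx
  unfold Rl
  rw [RlM_gk hx, Real.log_exp, elli_ell, Real.exp_log hr]
  unfold RlM_g
  rw [smul_smul, div_mul_div_comm, mul_comm, div_self, one_smul]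
  exact mul_ne_zero (Real.exp_pos _).ne' hr.ne'

theorem RlM_g_ne {x : F3} (hx : x ≠ 0) : RlM_g x ≠ 0 := by
  apply RlM_ne
  rw [RlM_gk hx]
  exact Real.exp_pos _

theorem RlM_smooth_aux {f : ℝ → ℝ} (hf : ContDiff ℝ ∞ f) {x : F3} (hx : x ≠ 0) :
    ContDiffAt ℝ ∞ (fun y : F3 => (Real.exp (f (Real.log (rr y))) / rr y) • y) x := by
  have hr := rr_pos hx
  have h1 : ContDiffAt ℝ ∞ (fun y : F3 => Real.log (rr y)) x := (rr_smooth hx).log hr.ne'
  have h2 : ContDiffAt ℝ ∞ (fun y : F3 => Real.exp (f (Real.log (rr y)))) x :=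
    Real.contDiff_exp.contDiffAt.comp x (hf.contDiffAt.comp x h1)
  exact (h2.div (rr_smooth hx) hr.ne').smul contDiffAt_id

theorem Rl_ld {x : F3} (hx : x ≠ 0) : LD Rl x := by
  refine RSG.ld_left (g := RlM_g) ?_ rfl ?_ ?_
  · filter_upwards [isOpen_compl_singleton.mem_nhds hx] with y hy
    exact RlM_smooth_aux elli_smooth hy
  · exact (RlM_smooth_aux ell_smooth (Rl_ne hx)).differentiableAt (by simp)
  · filter_upwards [isOpen_compl_singleton.mem_nhds hx] with y hy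
    exact RlM_g_Rl hy

theorem Rl_inj {x y : F3} (hx : x ≠ 0) (hy : y ≠ 0) (h : Rl x = Rl y) : x = y := by
  rw [← RlM_g_Rl hx, h, RlM_g_Rl hy]

theorem Rl_surj {y : F3} (hy : y ≠ 0) : ∃ x, x ≠ 0 ∧ Rl x = y :=
  ⟨RlM_g y, RlM_g_ne hy, RlM_Rl_g hy⟩

theorem Rl_smul (n : ℤ) (x : F3) : Rl ((4000000 : ℝ) ^ n • x) = Real.exp n • Rl x := by
  rcases eq_or_ne x 0 with rfl | hx
  · unfold Rl
    simp
  · have hr := rr_pos hx
    have hL : (0 : ℝ) < (4000000 : ℝ) ^ n := by positivity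
    have h1 : rr ((4000000 : ℝ) ^ n • x) = (4000000 : ℝ) ^ n * rr x := by
      rw [rr_smul, abs_of_pos hL]
    unfold Rl
    rw [h1, Real.log_mul hL.ne' hr.ne', Real.log_zpow, add_comm (_ * _) (Real.log (rr x)),
      elli_add, Real.exp_add, smul_smul, smul_smul]
    congr 1
    field_simp

theorem RlM_mir_smul (a : ℝ) (x : F3) : mir (a • x) = a • mir x := by
  unfold mir
  apply Prod.ext
  · rfl
  · simp

theorem Rl_mir (x : F3) : Rl (mir x) = mir (Rl x) := by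
  unfold Rl
  rw [rr_mir, RlM_mir_smul]

theorem Rl_Xp (u y : ℝ) : Rl (Xp u y) = cyl (u, y, 0) := by
  unfold Rl
  rw [Xp_rr, Real.log_exp, elli_ell]
  unfold Xp cyl
  apply Prod.ext
  · simp only [Prod.smul_fst]
    rw [Complex.real_smul, Complex.real_smul]
    simp only [ne_eq, OfNat.ofNat_ne_zero, not_false_eq_true, zero_pow, sub_zero, Real.sqrt_one,
      Complex.ofReal_one, one_mul]
    rw [← mul_assoc, ← Complex.ofReal_mul, div_mul_cancel₀ _ (Real.exp_pos _).ne']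
  · simp

/-! ## cylindrical coordinates -/

theorem RlM_le {X : ℝ} (hX : |X| ≤ 1) : 0 ≤ 1 - X ^ 2 := by
  have := abs_nonneg X
  have h2 := sq_abs X
  nlinarith

theorem RlM_lt {X : ℝ} (hX : |X| < 1) : 0 < 1 - X ^ 2 := by
  have := abs_nonneg X
  have h2 := sq_abs X
  nlinarith

theorem cyl_rr {u Y X : ℝ} (hX : |X| ≤ 1) : rr (cyl (u, Y, X)) = Real.exp Y := by
  unfold cyl
  rw [rr_smul, abs_of_pos (Real.exp_pos _)]
  have h1 : rr ((((Real.sqrt (1 - X ^ 2) : ℝ) : ℂ) * ex u, X) : F3) = 1 := by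
    have h2 : q2 ((((Real.sqrt (1 - X ^ 2) : ℝ) : ℂ) * ex u, X) : F3) = 1 := by
      unfold q2
      simp only [map_mul, Complex.normSq_ofReal, Real.mul_self_sqrt (RlM_le hX)]
      rw [Complex.normSq_eq_norm_sq, RSG.ex_norm]
      ring
    have h3 := rr_sq ((((Real.sqrt (1 - X ^ 2) : ℝ) : ℂ) * ex u, X) : F3)
    have h4 := rr_nonneg ((((Real.sqrt (1 - X ^ 2) : ℝ) : ℂ) * ex u, X) : F3)
    rw [h2] at h3
    nlinarith
  simp only at h1 ⊢
  rw [h1, mul_one]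

theorem cyl_ne {u Y X : ℝ} (hX : |X| ≤ 1) : cyl (u, Y, X) ≠ 0 := by
  apply RlM_ne
  rw [cyl_rr hX]
  exact Real.exp_pos _

theorem cyl_snd {u Y X : ℝ} (hX : |X| ≤ 1) : (cyl (u, Y, X)).2 / rr (cyl (u, Y, X)) = X := by
  rw [cyl_rr hX]
  unfold cyl
  simp only [Prod.smul_snd, smul_eq_mul]
  rw [mul_comm, mul_div_assoc, div_self (Real.exp_pos _).ne', mul_one]

theorem RlM_fst (u Y X : ℝ) :
    (cyl (u, Y, X)).1 = ((Real.exp Y * Real.sqrt (1 - X ^ 2) : ℝ) : ℂ) * ex u := by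
  unfold cyl
  simp only [Prod.smul_fst]
  rw [Complex.real_smul, ← mul_assoc, ← Complex.ofReal_mul]

theorem RlM_pos {Y X : ℝ} (hX : |X| < 1) : 0 < Real.exp Y * Real.sqrt (1 - X ^ 2) :=
  mul_pos (Real.exp_pos _) (Real.sqrt_pos.2 (RlM_lt hX))

theorem cyl_fst {u Y X : ℝ} (hX : |X| < 1) : (cyl (u, Y, X)).1 ≠ 0 := by
  rw [RlM_fst]
  exact mul_ne_zero (by exact_mod_cast (RlM_pos hX).ne') (RSG.ex_ne u)

theorem RlM_cyl_smooth {u Y X : ℝ} (hX : |X| < 1) : ContDiffAt ℝ ∞ cyl (u, Y, X) := by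
  have h1 : ContDiffAt ℝ ∞ (fun q : ℝ × ℝ × ℝ => q.1) (u, Y, X) := contDiffAt_fst
  have h2 : ContDiffAt ℝ ∞ (fun q : ℝ × ℝ × ℝ => q.2.1) (u, Y, X) := contDiffAt_snd.fst
  have h3 : ContDiffAt ℝ ∞ (fun q : ℝ × ℝ × ℝ => q.2.2) (u, Y, X) := contDiffAt_snd.snd
  have h4 : ContDiffAt ℝ ∞ (fun q : ℝ × ℝ × ℝ => 1 - q.2.2 ^ 2) (u, Y, X) :=
    contDiffAt_const.sub (h3.pow 2)
  have h5 : ContDiffAt ℝ ∞ (fun q : ℝ × ℝ × ℝ => Real.sqrt (1 - q.2.2 ^ 2)) (u, Y, X) :=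
    h4.sqrt (RlM_lt hX).ne'
  have h6 : ContDiffAt ℝ ∞ (fun q : ℝ × ℝ × ℝ => ((Real.sqrt (1 - q.2.2 ^ 2) : ℝ) : ℂ))
      (u, Y, X) := Complex.ofRealCLM.contDiff.contDiffAt.comp _ h5
  have h7 : ContDiffAt ℝ ∞ (fun q : ℝ × ℝ × ℝ => ex q.1) (u, Y, X) :=
    RSG.ex_smooth.contDiffAt.comp _ h1
  have h8 : ContDiffAt ℝ ∞ (fun q : ℝ × ℝ × ℝ => Real.exp q.2.1) (u, Y, X) :=
    Real.contDiff_exp.contDiffAt.comp _ h2
  exact h8.smul ((h6.mul h7).prodMk h3)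

theorem cyl_ld {u Y X : ℝ} (hX : |X| < 1) : LD cyl (u, Y, X) := by
  have hopen : IsOpen {q : ℝ × ℝ × ℝ | |q.2.2| < 1 ∧ |q.1 - u| < 1 / 2} := by
    have o1 : IsOpen {q : ℝ × ℝ × ℝ | |q.2.2| < 1} := isOpen_lt (by fun_prop) continuous_const
    have o2 : IsOpen {q : ℝ × ℝ × ℝ | |q.1 - u| < 1 / 2} :=
      isOpen_lt (by fun_prop) continuous_const
    exact o1.inter o2
  have hmem : {q : ℝ × ℝ × ℝ | |q.2.2| < 1 ∧ |q.1 - u| < 1 / 2} ∈ 𝓝 (u, Y, X) :=
    hopen.mem_nhds ⟨hX, by simp⟩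
  refine RSG.ld_left (g := fun x : F3 => (u + (Complex.log (x.1 * ex (-u))).im / (2 * Real.pi),
    Real.log (rr x), x.2 / rr x)) ?_ ?_ ?_ ?_
  · filter_upwards [hmem] with q hq
    obtain ⟨a, b, d⟩ := q
    exact RlM_cyl_smooth hq.1
  · simp [Module.finrank_prod]
  · have hne := cyl_ne (u := u) (Y := Y) hX.le
    have hr := rr_pos hne
    have e1 : (cyl (u, Y, X)).1 * ex (-u) =
        ((Real.exp Y * Real.sqrt (1 - X ^ 2) : ℝ) : ℂ) := by
      rw [RlM_fst, mul_assoc, ← RSG.ex_add, add_neg_cancel, RSG.ex_zero, mul_one]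
    have hslit : (cyl (u, Y, X)).1 * ex (-u) ∈ Complex.slitPlane := by
      rw [e1]
      exact Complex.ofReal_mem_slitPlane.2 (RlM_pos hX)
    have d1 : DifferentiableAt ℝ (fun x : F3 => x.1 * ex (-u)) (cyl (u, Y, X)) :=
      differentiableAt_fst.mul_const _
    have d2 : DifferentiableAt ℝ Complex.log ((cyl (u, Y, X)).1 * ex (-u)) :=
      (Complex.differentiableAt_log hslit).restrictScalars ℝ
    have d3 : DifferentiableAt ℝ (fun x : F3 => Complex.log (x.1 * ex (-u))) (cyl (u, Y, X)) :=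
      DifferentiableAt.comp (𝕜 := ℝ) (g := Complex.log) (f := fun x : F3 => x.1 * ex (-u))
        (cyl (u, Y, X)) d2 d1
    have d4 : DifferentiableAt ℝ (fun x : F3 => (Complex.log (x.1 * ex (-u))).im)
        (cyl (u, Y, X)) := (Complex.imCLM.differentiableAt).comp (cyl (u, Y, X)) d3
    have drr : DifferentiableAt ℝ rr (cyl (u, Y, X)) := (rr_smooth hne).differentiableAt (by simp)
    have d5 : DifferentiableAt ℝ (fun x : F3 => Real.log (rr x)) (cyl (u, Y, X)) :=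
      drr.log hr.ne'
    have d6 : DifferentiableAt ℝ (fun x : F3 => x.2 / rr x) (cyl (u, Y, X)) :=
      (contDiffAt_snd.div (rr_smooth hne) hr.ne').differentiableAt (n := ∞) (by simp)
    have d7 : DifferentiableAt ℝ (fun x : F3 => u + (Complex.log (x.1 * ex (-u))).im /
        (2 * Real.pi)) (cyl (u, Y, X)) := by
      simp only [div_eq_mul_inv]
      exact (d4.mul_const _).const_add u
    exact d7.prodMk (d5.prodMk d6)
  · filter_upwards [hmem] with q hq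
    obtain ⟨a, b, d⟩ := q
    obtain ⟨hq1, hq2⟩ := hq
    simp only at hq1 hq2
    have hab := abs_lt.1 hq2
    have e1 : (cyl (a, b, d)).1 * ex (-u) =
        ((Real.exp b * Real.sqrt (1 - d ^ 2) : ℝ) : ℂ) * ex (a - u) := by
      rw [RlM_fst, mul_assoc, ← RSG.ex_add, ← sub_eq_add_neg a u]
    rw [e1, RSG.ex_log (RlM_pos hq1) (by linarith) (by linarith), cyl_rr hq1.le, Real.log_exp]
    have e2 := cyl_snd (u := a) (Y := b) hq1.le
    rw [cyl_rr hq1.le] at e2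
    rw [e2]
    have hpi : Real.pi ≠ 0 := Real.pi_ne_zero
    have e3 : u + 2 * Real.pi * (a - u) / (2 * Real.pi) = a := by
      field_simp
      ring
    rw [e3]

theorem cyl_inj {u Y X u' Y' X' : ℝ} (hX : |X| < 1) (hX' : |X'| < 1)
    (h : cyl (u, Y, X) = cyl (u', Y', X')) : Y' = Y ∧ X' = X ∧ ∃ m : ℤ, u' = u + m := by
  have h1 := congrArg rr h
  rw [cyl_rr hX.le, cyl_rr hX'.le] at h1
  have hY := Real.exp_injective h1
  subst hY
  have h2 := cyl_snd (u := u) (Y := Y) hX.le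
  rw [h, cyl_snd hX'.le] at h2
  subst h2
  refine ⟨rfl, rfl, ?_⟩
  have h3 := congrArg Prod.fst h
  rw [RlM_fst, RlM_fst] at h3
  have h4 : ((Real.exp Y * Real.sqrt (1 - X' ^ 2) : ℝ) : ℂ) ≠ 0 := by
    exact_mod_cast (RlM_pos hX').ne'
  exact RSG.ex_eq_iff.1 (mul_left_cancel₀ h4 h3)

theorem exists_cyl {x : F3} (h : x.1 ≠ 0) :
    ∃ u Y X : ℝ, |X| < 1 ∧ |u| ≤ 1 / 2 ∧ x = cyl (u, Y, X) := by
  have hx : x ≠ 0 := by
    rintro rfl
    exact h rfl
  have hr := rr_pos hx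
  have hn : 0 < ‖x.1‖ := norm_pos_iff.2 h
  have hsq := rr_sq x
  unfold q2 at hsq
  rw [Complex.normSq_eq_norm_sq] at hsq
  have hpi := Real.pi_pos
  have hX : |x.2 / rr x| < 1 := by
    rw [abs_div, abs_of_pos hr, div_lt_one hr]
    apply abs_lt_of_sq_lt_sq _ hr.le
    nlinarith
  refine ⟨Complex.arg x.1 / (2 * Real.pi), Real.log (rr x), x.2 / rr x, hX, ?_, ?_⟩
  · rw [abs_div, abs_of_pos (by positivity : (0 : ℝ) < 2 * Real.pi), div_le_iff₀ (by positivity)]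
    have := Complex.abs_arg_le_pi x.1
    linarith
  · have e1 : Real.sqrt (1 - (x.2 / rr x) ^ 2) = ‖x.1‖ / rr x := by
      rw [Real.sqrt_eq_iff_mul_self_eq (RlM_le hX.le) (by positivity)]
      field_simp
      linarith
    apply Prod.ext
    · rw [RlM_fst, e1, Real.exp_log hr, mul_div_cancel₀ _ hr.ne']
      exact RSG.ex_arg.symm
    · unfold cyl
      simp only [Prod.smul_snd, smul_eq_mul]
      rw [Real.exp_log hr, mul_div_cancel₀ _ hr.ne']

theorem cyl_shift (u Y X : ℝ) (m n : ℤ) :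
    cyl (u + m, Y + n, X) = Real.exp n • cyl (u, Y, X) := by
  unfold cyl
  simp only
  rw [RSG.ex_add_int, Real.exp_add, smul_smul, mul_comm (Real.exp Y)]

theorem cyl_mir (u Y X : ℝ) : mir (cyl (u, Y, X)) = cyl (u, Y, -X) := by
  unfold cyl
  rw [RlM_mir_smul]
  simp only [neg_sq]
  rfl

theorem zone_open {d x₁ : ℝ} (hx : x₁ ≤ 1) (n : ℤ) : IsOpen (zone d x₁ n) := by
  rw [isOpen_iff_mem_nhds]
  rintro x ⟨u, Y, X, h1, h2, rfl⟩
  have hU : IsOpen {q : ℝ × ℝ × ℝ | q.1 ^ 2 + (q.2.1 - n) ^ 2 < d ^ 2 ∧ |q.2.2| < x₁} := by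
    have o1 : IsOpen {q : ℝ × ℝ × ℝ | q.1 ^ 2 + (q.2.1 - n) ^ 2 < d ^ 2} :=
      isOpen_lt (by fun_prop) continuous_const
    have o2 : IsOpen {q : ℝ × ℝ × ℝ | |q.2.2| < x₁} := isOpen_lt (by fun_prop) continuous_const
    exact o1.inter o2
  have h3 := CSG.ld_image_nhds (cyl_ld (u := u) (Y := Y) (lt_of_lt_of_le h2 hx))
    (hU.mem_nhds (show (u, Y, X) ∈ {q : ℝ × ℝ × ℝ | q.1 ^ 2 + (q.2.1 - n) ^ 2 < d ^ 2 ∧
      |q.2.2| < x₁} from ⟨h1, h2⟩))
  filter_upwards [h3] with y hy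
  obtain ⟨q, ⟨hq1, hq2⟩, rfl⟩ := hy
  exact ⟨q.1, q.2.1, q.2.2, hq1, hq2, rfl⟩

theorem zone_mono {d d' x₁ x₁' : ℝ} (hd0 : 0 ≤ d) (hd : d ≤ d') (hx : x₁ ≤ x₁') (n : ℤ) :
    zone d x₁ n ⊆ zone d' x₁' n := by
  rintro x ⟨u, Y, X, h1, h2, rfl⟩
  have h3 : d ^ 2 ≤ d' ^ 2 := pow_le_pow_left₀ hd0 hd 2
  exact ⟨u, Y, X, lt_of_lt_of_le h1 h3, lt_of_lt_of_le h2 hx, rfl⟩

theorem RlM_zone {d x₁ : ℝ} (n k : ℤ) {x : F3} (hx : x ∈ zone d x₁ n) :
    Real.exp k • x ∈ zone d x₁ (n + k) := by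
  obtain ⟨u, Y, X, h1, h2, rfl⟩ := hx
  refine ⟨u, Y + k, X, ?_, h2, ?_⟩
  · push_cast
    rw [show Y + (k : ℝ) - (n + k) = Y - n by ring]
    exact h1
  · have h3 := cyl_shift u Y X 0 k
    rw [Int.cast_zero, add_zero] at h3
    exact h3.symm

theorem zone_shift {d x₁ : ℝ} (n k : ℤ) {x : F3} :
    Real.exp k • x ∈ zone d x₁ (n + k) ↔ x ∈ zone d x₁ n := by
  constructor
  · intro h
    have h1 := RlM_zone (n + k) (-k) h
    rw [smul_smul, ← Real.exp_add] at h1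
    push_cast at h1
    rw [neg_add_cancel, Real.exp_zero, one_smul, show n + k + -k = n by ring] at h1
    exact h1
  · exact RlM_zone n k

end Pool.Agent.CHW
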