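import Pool.Agent.CHW.GtM
import Pool.Agent.CHW.RdM

/-!
# CHW/SvM: the planar map `Sv = Rd ∘ z1 ∘ Gt`   (difficulty 2)

`w = y + i u`, `|y| < 1/2`, `w ∉ iℤ` (`Gt_re`, `Gt_lat`).
* `Sv_lt`, `Sv_ne` (`z1 ≠ ± c`, `Rd` injective with `Rd (± c) = ± c`), `Sv_ld` (composition; `(u, y) ↦ y + i u` is linear), `Sv_inj`, `Sv_surj`, `Sv_neg`, `Sv_per`.
* `Sv_far`: if the distance of `w` to `iℤ` is `≥ d₁/2 ≥ r₃/2` then `Gt w = w` and `Rd (z1 w) = z1 w`: otherwise (`Rd_small`) `‖z1 w‖ > 2c/(π r₃)`; put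
  `w'' = c/(π z1 w)`, `‖w''‖ < r₃/2`, `w'' ≠ 0`; `Gt_tanh`, `Gt_disc`, `z1_small`: `z1 (Gt w'') = c/tanh (π Gt w'') = c/(π w'') = z1 w = z1 (Gt w)`, so by `z1_inj`
  `Gt w'' = Gt w` modulo `iℤ`, `w'' = w` modulo `iℤ`: contradiction with the distance.  (`z1 w ≠ 0` there.)
* `Sv_bind`: for `0 < ‖w‖ ≤ r₃/4`: `z1 (Gt w) = c/(π w)` and `Rd_big`.
-/

open scoped Manifold ContDiff Topology
open Set Filter
open Complex (I normSq)

namespace Pool.Agent.CHW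

open Pool.Agent.CSG (stp thc)
open Pool.Agent.RSG (ex)

/-- `(u, y)` is a lattice point -/
def LatU (u y : ℝ) : Prop := ∃ m n : ℤ, u = m ∧ y = n

variable {P : Par}

theorem SvM_c1 (h : P.Ok) : P.c ≤ 1 / 10 := by
  have h1 := h.c_le
  have h2 := h.r₃_le
  have h3 := h.d₁_le
  linarith

theorem SvM_re (u y : ℝ) : ((y : ℂ) + (u : ℂ) * I).re = y := by simp
theorem SvM_im (u y : ℝ) : ((y : ℂ) + (u : ℂ) * I).im = u := by simp

theorem SvM_lat {u y : ℝ} (hl : ¬ LatU u y) : ¬ LatI ((y : ℂ) + (u : ℂ) * I) := by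
  rintro ⟨n, hn⟩
  apply hl
  refine ⟨n, 0, ?_, ?_⟩
  · have h1 := congrArg Complex.im hn
    rw [SvM_im] at h1
    rw [h1]
    simp
  · have h1 := congrArg Complex.re hn
    rw [SvM_re] at h1
    rw [h1]
    simp

theorem SvM_lat' {u y : ℝ} (hy : |y| < 1 / 2) (hl : ¬ LatI ((y : ℂ) + (u : ℂ) * I)) : ¬ LatU u y := by
  rintro ⟨m, n, hm, hn⟩
  apply hl
  refine ⟨m, ?_⟩
  have h0 : n = 0 := by
    rw [hn] at hy
    by_contra hne
    have h1 : (1 : ℝ) ≤ |(n : ℝ)| := by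
      rw [← Int.cast_abs]
      exact_mod_cast Int.one_le_abs hne
    linarith
  rw [hn, h0, hm]
  simp

theorem SvM_def (u y : ℝ) : Sv P (u, y) = Rd P (z1 P (Gt P ((y : ℂ) + (u : ℂ) * I))) := rfl

theorem SvM_g (h : P.Ok) {u y : ℝ} (hy : |y| < 1 / 2) (hl : ¬ LatU u y) :
    |(Gt P ((y : ℂ) + (u : ℂ) * I)).re| < 1 / 2 ∧ ¬ LatI (Gt P ((y : ℂ) + (u : ℂ) * I)) := by
  refine ⟨(Gt_re h).2 ?_, fun hh => SvM_lat hl ((Gt_lat h).1 hh)⟩
  rw [SvM_re]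
  exact hy

theorem Sv_lt (h : P.Ok) (u y : ℝ) : ‖Sv P (u, y)‖ < 1 := Rd_lt h _

theorem Sv_ne (h : P.Ok) {u y : ℝ} (hy : |y| < 1 / 2) (hl : ¬ LatU u y) : Sv P (u, y) ≠ P.c ∧ Sv P (u, y) ≠ -P.c := by
  obtain ⟨h1, h2⟩ := SvM_g h hy hl
  obtain ⟨h3, h4⟩ := z1_ne h h1 h2
  rw [SvM_def]
  constructor
  · intro he
    rw [← (Rd_c h).1] at he
    exact h3 (Rd_inj h he)
  · intro he
    rw [← (Rd_c h).2] at he
    exact h4 (Rd_inj h he)

noncomputable def SvM_L : ℝ × ℝ ≃ ℂ where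
  toFun q := (q.2 : ℂ) + (q.1 : ℂ) * I
  invFun z := (z.im, z.re)
  left_inv q := by
    refine Prod.ext ?_ ?_
    · exact SvM_im q.1 q.2
    · exact SvM_re q.1 q.2
  right_inv z := Complex.re_add_im z

theorem SvM_L_ld (q : ℝ × ℝ) : LD (fun q : ℝ × ℝ => (q.2 : ℂ) + (q.1 : ℂ) * I) q := by
  refine Pool.Agent.CSG.ld_of_perm (f := SvM_L) ?_ ?_ q
  · show ContDiff ℝ ∞ fun q : ℝ × ℝ => (q.2 : ℂ) + (q.1 : ℂ) * I
    exact (Complex.ofRealCLM.contDiff.comp contDiff_snd).add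
      ((Complex.ofRealCLM.contDiff.comp contDiff_fst).mul contDiff_const)
  · show ContDiff ℝ ∞ fun z : ℂ => (z.im, z.re)
    exact Complex.imCLM.contDiff.prodMk Complex.reCLM.contDiff

theorem Sv_ld (h : P.Ok) {u y : ℝ} (hy : |y| < 1 / 2) (hl : ¬ LatU u y) : LD (Sv P) (u, y) := by
  obtain ⟨h1, h2⟩ := SvM_g h hy hl
  have e1 : LD (fun q : ℝ × ℝ => (q.2 : ℂ) + (q.1 : ℂ) * I) (u, y) := SvM_L_ld _
  have e2 : LD (Gt P) ((y : ℂ) + (u : ℂ) * I) := Gt_ld h _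
  have e3 : LD (z1 P) (Gt P ((y : ℂ) + (u : ℂ) * I)) := z1_ld h h1 h2
  have e4 : LD (Rd P) (z1 P (Gt P ((y : ℂ) + (u : ℂ) * I))) := Rd_ld h _
  have f1 : LD (Gt P ∘ fun q : ℝ × ℝ => (q.2 : ℂ) + (q.1 : ℂ) * I) (u, y) :=
    IsLocalDiffeomorphAt.comp (hf := e1) (hg := e2) ..
  have f2 : LD (z1 P ∘ (Gt P ∘ fun q : ℝ × ℝ => (q.2 : ℂ) + (q.1 : ℂ) * I)) (u, y) :=
    IsLocalDiffeomorphAt.comp (hf := f1) (hg := e3) ..
  have f3 : LD (Rd P ∘ (z1 P ∘ (Gt P ∘ fun q : ℝ × ℝ => (q.2 : ℂ) + (q.1 : ℂ) * I))) (u, y) :=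
    IsLocalDiffeomorphAt.comp (hf := f2) (hg := e4) ..
  exact f3

theorem Sv_inj (h : P.Ok) {u y u' y' : ℝ} (hy : |y| < 1 / 2) (hl : ¬ LatU u y) (hy' : |y'| < 1 / 2) (hl' : ¬ LatU u' y')
    (he : Sv P (u, y) = Sv P (u', y')) : y' = y ∧ ∃ n : ℤ, u' = u + n := by
  obtain ⟨h1, h2⟩ := SvM_g h hy hl
  obtain ⟨h1', h2'⟩ := SvM_g h hy' hl'
  rw [SvM_def, SvM_def] at he
  obtain ⟨n, hn⟩ := z1_inj h h1 h2 h1' h2' (Rd_inj h he)
  rw [← Gt_per h] at hn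
  have h3 := (Gt_bij h).1 hn
  constructor
  · have h4 := congrArg Complex.re h3
    rw [SvM_re] at h4
    rw [h4]
    simp
  · refine ⟨n, ?_⟩
    have h4 := congrArg Complex.im h3
    rw [SvM_im] at h4
    rw [h4]
    simp

theorem Sv_surj (h : P.Ok) {z : ℂ} (hz : ‖z‖ < 1) (h1 : z ≠ P.c) (h2 : z ≠ -P.c) :
    ∃ u y : ℝ, |y| < 1 / 2 ∧ ¬ LatU u y ∧ Sv P (u, y) = z := by
  obtain ⟨z', hz'⟩ := Rd_surj h hz
  have a1 : z' ≠ P.c := by
    intro e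
    rw [e, (Rd_c h).1] at hz'
    exact h1 hz'.symm
  have a2 : z' ≠ -P.c := by
    intro e
    rw [e, (Rd_c h).2] at hz'
    exact h2 hz'.symm
  obtain ⟨w0, b1, b2, b3⟩ := z1_surj h a1 a2
  obtain ⟨w, hw⟩ := (Gt_bij h).2 w0
  have hwe : ((w.re : ℝ) : ℂ) + ((w.im : ℝ) : ℂ) * I = w := Complex.re_add_im w
  have c1 : |w.re| < 1 / 2 := (Gt_re h).1 (by rw [hw]; exact b1)
  have c2 : ¬ LatI w := fun hh => b2 (by rw [← hw]; exact (Gt_lat h).2 hh)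
  refine ⟨w.im, w.re, c1, SvM_lat' c1 (by rw [hwe]; exact c2), ?_⟩
  rw [SvM_def, hwe, hw, b3, hz']

theorem Sv_neg (h : P.Ok) {u y : ℝ} (hy : |y| < 1 / 2) (hl : ¬ LatU u y) : Sv P (-u, -y) = -Sv P (u, y) := by
  obtain ⟨h1, h2⟩ := SvM_g h hy hl
  have e : (((-y : ℝ) : ℂ) + ((-u : ℝ) : ℂ) * I) = -((y : ℂ) + (u : ℂ) * I) := by
    push_cast
    ring
  rw [SvM_def, SvM_def, e, Gt_neg h, z1_neg h h1 h2, Rd_neg]

theorem Sv_per (h : P.Ok) (u y : ℝ) (n : ℤ) : Sv P (u + n, y) = Sv P (u, y) := by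
  have e : ((y : ℂ) + ((u + n : ℝ) : ℂ) * I) = ((y : ℂ) + (u : ℂ) * I) + (n : ℂ) * I := by
    push_cast
    ring
  rw [SvM_def, SvM_def, e, Gt_per h, z1_per]

theorem SvM_dist (u y : ℝ) (m : ℤ) : ‖((y : ℂ) + (u : ℂ) * I) - m * I‖ ^ 2 = (u - m) ^ 2 + y ^ 2 := by
  rw [← Complex.normSq_eq_norm_sq, Complex.normSq_apply]
  simp
  ring

/-- `z1` and `Gt` near the lattice point `0` -/
theorem SvM_small (h : P.Ok) {w : ℂ} (hw : ‖w‖ ≤ P.r₃) (hw' : ‖w‖ < P.d₁) :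
    z1 P (Gt P w) = P.c / (Real.pi * w) ∧ |(Gt P w).re| ≤ 1 / 8 := by
  have h1 := (Gt_disc h (w := w) 0).2 (by simpa using hw')
  have h2 : ‖Gt P w‖ < P.d₁ := by simpa using h1
  have h3 : |(Gt P w).re| ≤ 1 / 8 :=
    (Complex.abs_re_le_norm _).trans (h2.le.trans h.d₁_le)
  refine ⟨?_, h3⟩
  rw [z1_small h h3, Gt_tanh h hw]

theorem Sv_far (h : P.Ok) {u y : ℝ} (hy : |y| < 1 / 2) (hd : ∀ m : ℤ, (P.d₁ / 2) ^ 2 ≤ (u - m) ^ 2 + y ^ 2) :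
    Sv P (u, y) = z1 P (y + u * I) := by
  have hc := h.c_pos
  have hr := h.r₃_pos
  have hrd := h.r₃_le
  have hd8 := h.d₁_le
  have hpi := Real.pi_pos
  have hdp : 0 < P.d₁ := by linarith
  have hdist : ∀ n : ℤ, P.d₁ / 2 ≤ ‖((y : ℂ) + (u : ℂ) * I) - n * I‖ := by
    intro n
    have h1 := hd n
    rw [← SvM_dist] at h1
    exact (pow_le_pow_iff_left₀ (by positivity) (norm_nonneg _) two_ne_zero).1 h1
  have hoff : Gt P ((y : ℂ) + (u : ℂ) * I) = (y : ℂ) + (u : ℂ) * I := Gt_off h hdist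
  rw [SvM_def, hoff]
  by_cases hz : ‖z1 P ((y : ℂ) + (u : ℂ) * I)‖ ≤ 2 * P.c / (Real.pi * P.r₃)
  · exact Rd_small h hz
  exfalso
  push Not at hz
  have hzp : 0 < ‖z1 P ((y : ℂ) + (u : ℂ) * I)‖ := lt_trans (by positivity) hz
  have hz0 : z1 P ((y : ℂ) + (u : ℂ) * I) ≠ 0 := norm_pos_iff.1 hzp
  obtain ⟨w'', hw''⟩ : ∃ w'' : ℂ, w'' = P.c / (Real.pi * z1 P ((y : ℂ) + (u : ℂ) * I)) := ⟨_, rfl⟩
  have hpc : (Real.pi : ℂ) ≠ 0 := by exact_mod_cast hpi.ne'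
  have hcc : (P.c : ℂ) ≠ 0 := by exact_mod_cast hc.ne'
  have hne : w'' ≠ 0 := by
    rw [hw'']
    exact div_ne_zero hcc (mul_ne_zero hpc hz0)
  have hn : ‖w''‖ < P.r₃ / 2 := by
    rw [hw'', norm_div, norm_mul, Complex.norm_real, Complex.norm_real, Real.norm_of_nonneg hc.le,
      Real.norm_of_nonneg hpi.le, div_lt_iff₀ (by positivity)]
    rw [div_lt_iff₀ (by positivity)] at hz
    linarith
  obtain ⟨e1, e2⟩ := SvM_small h (w := w'') (by linarith) (by linarith)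
  have e3 : P.c / (Real.pi * w'') = z1 P ((y : ℂ) + (u : ℂ) * I) := by
    rw [hw'']
    field_simp
  rw [e3] at e1
  have hl0 : ¬ LatI w'' := by
    rintro ⟨n, hn'⟩
    rw [hn'] at hn
    have h0 : n = 0 := by
      by_contra hne'
      have h1 : (1 : ℝ) ≤ |(n : ℝ)| := by
        rw [← Int.cast_abs]
        exact_mod_cast Int.one_le_abs hne'
      rw [norm_mul, Complex.norm_I, mul_one, Complex.norm_intCast] at hn
      linarith
    apply hne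
    rw [hn', h0]
    simp
  have hl1 : ¬ LatI ((y : ℂ) + (u : ℂ) * I) := by
    rintro ⟨n, hn'⟩
    have h1 := hdist n
    rw [hn', sub_self, norm_zero] at h1
    linarith
  have hl2 : ¬ LatI (Gt P w'') := fun hh => hl0 ((Gt_lat h).1 hh)
  obtain ⟨n, hn'⟩ := z1_inj h (w := Gt P w'') (w' := (y : ℂ) + (u : ℂ) * I) (by linarith) hl2
    (by rw [SvM_re]; exact hy) hl1 e1
  rw [← hoff, ← Gt_per h] at hn'
  have h3 := (Gt_bij h).1 hn'
  have h4 := hdist n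
  rw [h3, add_sub_cancel_right] at h4
  linarith

theorem Sv_bind (h : P.Ok) {θ s : ℝ} (hs : 0 < s) (hs' : s ≤ P.r₃ / 4) :
    Sv P (s * (ex θ).im, s * (ex θ).re) =
      ((Real.sqrt ((1 - s / P.r₃) / (1 + s / P.r₃)) : ℝ) : ℂ) * ex (-θ) := by
  have hr := h.r₃_pos
  have hrd := h.r₃_le
  have hw : (((s * (ex θ).re : ℝ) : ℂ) + ((s * (ex θ).im : ℝ) : ℂ) * I) = (s : ℂ) * ex θ := by
    apply Complex.ext
    · simp
    · simp
  have hnm : ‖(s : ℂ) * ex θ‖ = s := by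
    rw [norm_mul, Pool.Agent.RSG.ex_norm, mul_one, Complex.norm_real, Real.norm_of_nonneg hs.le]
  have hsc : (s : ℂ) ≠ 0 := by exact_mod_cast hs.ne'
  have hne : (s : ℂ) * ex θ ≠ 0 := mul_ne_zero hsc (Pool.Agent.RSG.ex_ne θ)
  obtain ⟨e1, e2⟩ := SvM_small h (w := (s : ℂ) * ex θ) (by rw [hnm]; linarith) (by rw [hnm]; linarith)
  have hR := Rd_big h hne (by rw [hnm]; exact hs')
  rw [hnm] at hR
  rw [SvM_def, hw, e1, hR]
  congr 1
  rw [mul_comm (s : ℂ), div_mul_cancel_right₀ hsc, Pool.Agent.RSG.ex_neg]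
  have h5 := Pool.Agent.RSG.ex_mul_conj θ
  exact (eq_inv_of_mul_eq_one_right h5).symm

theorem SvM_exp {p : ℝ} (hp : 0 < p) (hp' : p ≤ 1 / 8) :
    2000 / 3 ≤ 2000 * Real.exp (-(2 * Real.pi * p)) ∧ 2000 * Real.exp (-(2 * Real.pi * p)) < 2000 := by
  have hpi := Real.pi_pos
  have hpi4 := Real.pi_lt_four
  constructor
  · have h1 : Real.exp 1 < 3 := lt_trans Real.exp_one_lt_d9 (by norm_num)
    have h2 : Real.exp (-1) ≤ Real.exp (-(2 * Real.pi * p)) := by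
      apply Real.exp_le_exp.2
      nlinarith
    have h3 : 1 / 3 ≤ Real.exp (-1) := by
      rw [Real.exp_neg, one_div]
      exact inv_anti₀ (Real.exp_pos 1) h1.le
    linarith
  · have h1 : Real.exp (-(2 * Real.pi * p)) < 1 := by
      rw [Real.exp_lt_one_iff]
      have := mul_pos (mul_pos two_pos hpi) hp
      linarith
    linarith

/-- near `y = 1/2`; `1/2000` is the size of the hole -/
theorem Sv_end (h : P.Ok) {u p : ℝ} (hp : 0 < p) (hp' : p ≤ 1 / 8) :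
    (Sv P (u, 1 / 2 - p) - P.c) / (1 - P.c * Sv P (u, 1 / 2 - p)) = (thp P p : ℂ) * ex (-u) := by
  have hc := h.c_pos
  have hc1 := SvM_c1 h
  have hd8 := h.d₁_le
  have hdp : 0 < P.d₁ := lt_of_lt_of_le h.r₃_pos h.r₃_le
  have hy : |1 / 2 - p| < 1 / 2 := by
    rw [abs_lt]
    constructor <;> linarith
  have hl : ¬ LatU u (1 / 2 - p) := by
    rintro ⟨m, n, hm, hn⟩
    have h1 : (0 : ℝ) < n := by linarith
    have h2 : (n : ℝ) < 1 := by linarith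
    have h3 : 0 < n := by exact_mod_cast h1
    have h4 : n < 1 := by exact_mod_cast h2
    omega
  have hfar : Sv P (u, 1 / 2 - p) = z1 P (((1 / 2 - p : ℝ) : ℂ) + u * I) := by
    refine Sv_far h hy fun m => ?_
    have h1 : (P.d₁ / 2) ^ 2 ≤ (1 / 2 - p) ^ 2 := by
      apply pow_le_pow_left₀ (by linarith)
      linarith
    have h2 := sq_nonneg (u - m)
    linarith
  have hli := SvM_lat hl
  have hNM := z1_NM h (w := (((1 / 2 - p : ℝ) : ℂ) + u * I)) (by rw [SvM_re]; exact hy) hli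
  obtain ⟨hzc, -⟩ := z1_ne h (w := (((1 / 2 - p : ℝ) : ℂ) + u * I)) (by rw [SvM_re]; exact hy) hli
  rw [SvM_re, SvM_im] at hNM
  rw [hfar]
  set z := z1 P (((1 / 2 - p : ℝ) : ℂ) + u * I) with hz
  obtain ⟨R, hR⟩ : ∃ R : ℝ, R = 2000 * Real.exp (-(2 * Real.pi * p)) := ⟨_, rfl⟩
  have hRp : 0 < R := by
    rw [hR]
    exact mul_pos (by norm_num) (Real.exp_pos _)
  obtain ⟨hR1, hR2⟩ := SvM_exp hp hp'
  rw [← hR] at hR1 hR2
  have hell : Real.exp (ell (1 / 2 - p)) = R := by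
    rw [ell_half (by rw [show 1 / 2 - p - 1 / 2 = -p by ring, abs_neg, abs_of_pos hp]; exact hp'), hR,
      show Real.log 2000 - 2 * Real.pi * (1 / 2 - (1 / 2 - p)) = Real.log 2000 + -(2 * Real.pi * p) by ring,
      Real.exp_add, Real.exp_log (by norm_num)]
  have hXp : Xp u (1 / 2 - p) = pol u (R : ℂ) := by
    unfold Xp pol
    rw [hell]
    simp
  rw [hXp, A_far_pol (by rw [Complex.norm_real, Real.norm_of_nonneg hRp.le]; exact hR1)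
    (by rw [Complex.norm_real, Real.norm_of_nonneg hRp.le]; exact hR2)] at hNM
  have hξ := congrArg Prod.fst hNM
  have hd : 0 < 1 / R - (1 / 2000) ^ 2 * R := by
    have h1 : 1 / 2000 < 1 / R := one_div_lt_one_div_of_lt hRp hR2
    have h2 : (1 / 2000) ^ 2 * R < 1 / 2000 := by linarith
    linarith
  obtain ⟨D, hD⟩ : ∃ D : ℝ, D = 1 / R - (1 / 2000) ^ 2 * R := ⟨_, rfl⟩
  rw [← hD] at hd
  have hJ : JC (JC (R : ℂ) - (1 / 2000) ^ 2 / JC (R : ℂ)) = ((1 / D : ℝ) : ℂ) := by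
    have h1 : JC (R : ℂ) = ((1 / R : ℝ) : ℂ) := by
      unfold JC
      rw [Complex.conj_ofReal]
      push_cast
      rfl
    have h2 : JC (R : ℂ) - (1 / 2000) ^ 2 / JC (R : ℂ) = ((D : ℝ) : ℂ) := by
      rw [h1, hD]
      push_cast
      field_simp
    rw [h2]
    unfold JC
    rw [Complex.conj_ofReal]
    push_cast
    rfl
  rw [hJ] at hξ
  have hξ' : (z + P.c) / (z - P.c) = ((1 / D : ℝ) : ℂ) * ex u + (tau P.c : ℂ) := by
    refine hξ.trans ?_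
    unfold tv pol
    simp
  have hcc : (P.c : ℂ) ≠ 0 := by exact_mod_cast hc.ne'
  have hzc' : z - P.c ≠ 0 := sub_ne_zero.2 hzc
  have hDc : (D : ℂ) ≠ 0 := by exact_mod_cast hd.ne'
  have hc2 : 0 < 1 - P.c ^ 2 := by nlinarith
  have hc2c : (1 : ℂ) - (P.c : ℂ) ^ 2 ≠ 0 := by
    have : ((1 - P.c ^ 2 : ℝ) : ℂ) ≠ 0 := by exact_mod_cast hc2.ne'
    simpa using this
  have hex : ex u ≠ 0 := Pool.Agent.RSG.ex_ne u
  have htau : (tau P.c : ℂ) = (1 + (P.c : ℂ) ^ 2) / (1 - (P.c : ℂ) ^ 2) := by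
    unfold tau
    push_cast
    rfl
  have hthp : thp P p = 2 * P.c / (1 - P.c ^ 2) * D := by
    unfold thp
    have h1 : D = 2 * (1 / 2000) * Real.sinh (2 * Real.pi * p) := by
      rw [hD, hR, Real.sinh_eq, Real.exp_neg]
      have := Real.exp_pos (2 * Real.pi * p)
      field_simp
    rw [h1]
    unfold gam
    field_simp
  have hexn : ex (-u) = (ex u)⁻¹ := by
    rw [Pool.Agent.RSG.ex_neg]
    exact eq_inv_of_mul_eq_one_right (Pool.Agent.RSG.ex_mul_conj u)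
  rw [htau] at hξ'
  have key : 2 * P.c * (1 - P.c * z) * D = (1 - (P.c : ℂ) ^ 2) * (z - P.c) * ex u := by
    push_cast at hξ'
    field_simp at hξ'
    linear_combination hξ'
  have h1z : 1 - (P.c : ℂ) * z ≠ 0 := by
    intro h0
    rw [h0] at key
    have : (1 - (P.c : ℂ) ^ 2) * (z - P.c) * ex u ≠ 0 := mul_ne_zero (mul_ne_zero hc2c hzc') hex
    apply this
    rw [← key]
    ring
  rw [hthp, hexn]
  push_cast
  rw [div_eq_iff h1z]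
  field_simp
  linear_combination (-1 : ℂ) * key

end Pool.Agent.CHW
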