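import Pool.Agent.CHW.Defs

/-!
# CHW/WD: the interface of the chart `W` of the double of the solid torus

`F3 - 0` modulo `x ↦ exp 1 • x` is the double of the solid torus `V = {h ≥ 0}`; cylindrical coordinates
`cyl (u, Y, X) = exp Y • (√(1 - X²) e^{2πiu}, X)`.  The map `W (u, y, t)` (`u`, `t` modulo 1, `y + 1` corresponds to the
dilation by `exp 1`) is an open book structure: the page `0 < t < 1/2` lies in `h > 0`, `1/2 < t < 1` in `h < 0`.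

* binding: over `(u, y) ∈ Z²`, chart `Wb (θ, ζ)`, `ζ = s e^{2πi(t - 1/2)}`, `y + i u = ε s e^{2πiθ}`;
* `K` : `(y, t) ∈ (1/2, 1/2) + Z²`, chart `Wk (l, ζ)`, `ζ = s e^{2πiu}`, `(y, t) = (1/2, 1/2) + ε s (cos 2πl, sin 2πl)`.
-/

open scoped Manifold ContDiff Topology
open Set Filter
open Complex (I normSq)

namespace Pool.Agent.CHW

open Pool.Agent.CSG (stp thc)
open Pool.Agent.RSG (ex)

/-- cylindrical coordinates -/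
noncomputable def cyl (q : ℝ × ℝ × ℝ) : F3 :=
  Real.exp q.2.1 • (((Real.sqrt (1 - q.2.2 ^ 2) : ℝ) : ℂ) * ex q.1, q.2.2)

/-- the neighbourhood of the point `(0, n)` of the torus -/
def zone (d x₁ : ℝ) (n : ℤ) : Set F3 :=
  {x | ∃ u Y X : ℝ, u ^ 2 + (Y - n) ^ 2 < d ^ 2 ∧ |X| < x₁ ∧ x = cyl (u, Y, X)}

/-- `log |x|` and `h / |x|` on the core -/
noncomputable def coY (Wk : ℝ × ℂ → F3) (l : ℝ) : ℝ := Real.log (rr (Wk (l, 0)))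
noncomputable def coX (Wk : ℝ × ℂ → F3) (l : ℝ) : ℝ := (Wk (l, 0)).2 / rr (Wk (l, 0))

/-- the double chart; `d₀` = size of the disc `D`, `x₁ < 1`, `ε` = size of the charts -/
structure WD (d₀ x₁ ε : ℝ) where
  W : ℝ × ℝ × ℝ → F3
  Wb : ℝ × ℂ → F3
  Wk : ℝ × ℂ → F3
  th : ℝ → ℝ
  d₀_pos : 0 < d₀
  x₁_pos : 0 < x₁
  x₁_lt : x₁ < 1 / 16
  ε_pos : 0 < ε
  ε_le : 5 * ε ≤ d₀
  ε_le' : ε ≤ 1 / 16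
  ne : ∀ q, Gd q → W q ≠ 0
  loc : ∀ q, Gd q → LD W q
  per_u : ∀ u y t, Gd (u, y, t) → W (u + 1, y, t) = W (u, y, t)
  per_t : ∀ u y t, Gd (u, y, t) → W (u, y, t + 1) = W (u, y, t)
  per_y : ∀ u y t, Gd (u, y, t) → W (u, y + 1, t) = Real.exp 1 • W (u, y, t)
  inj : ∀ q q', Gd q → Gd q' → W q = W q' →
    ∃ m n : ℤ, q'.1 = q.1 + m ∧ q'.2.1 = q.2.1 ∧ q'.2.2 = q.2.2 + n
  pos : ∀ u y t, Gd (u, y, t) → 0 < t → t < 1 / 2 → 0 < (W (u, y, t)).2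
  neg : ∀ u y t, Gd (u, y, t) → 1 / 2 < t → t < 1 → (W (u, y, t)).2 < 0
  page0 : ∀ u y, Gd (u, y, 0) → (W (u, y, 0)).2 = 0
  page1 : ∀ u y, Gd (u, y, 1 / 2) → (W (u, y, 1 / 2)).2 = 0
  /-- product near the torus, away from the disc -/
  collar : ∀ u y t, |t| ≤ 1 / 8 → (∀ m n : ℤ, d₀ ^ 2 ≤ (u - m) ^ 2 + (y - n) ^ 2) →
    W (u, y, t) = cyl (u, y, th t)
  th_lt : ∀ t, |t| ≤ 1 / 8 → |th t| < x₁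
  near0 : ∀ u y t (m n : ℤ), Gd (u, y, t) → |t| ≤ 1 / 8 → (u - m) ^ 2 + (y - n) ^ 2 < d₀ ^ 2 →
    W (u, y, t) ∈ zone (2 * d₀) x₁ n
  near1 : ∀ u y (n : ℤ), Gd (u, y, 1 / 2) → |y - n| < 1 / 2 → W (u, y, 1 / 2) ∈ zone (2 * d₀) x₁ n
  /-- the binding -/
  b_per : ∀ θ ζ, Wb (θ + 1, ζ) = Wb (θ, ζ)
  b_loc : ∀ θ ζ, ‖ζ‖ < 5 → LD Wb (θ, ζ)
  b_glue : ∀ θ s t : ℝ, 0 < s → s < 5 →
    Wb (θ, s * ex (t - 1 / 2)) = W (ε * s * (ex θ).im, ε * s * (ex θ).re, t)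
  b_inj : ∀ θ ζ θ' ζ' (n : ℤ), ‖ζ‖ < 5 → ‖ζ'‖ < 5 → Wb (θ, ζ) = Real.exp n • Wb (θ', ζ') →
    n = 0 ∧ ζ = ζ' ∧ ∃ m : ℤ, θ' = θ + m
  b_zone : ∀ θ ζ, ‖ζ‖ < 5 → Wb (θ, ζ) ∈ zone (2 * d₀) x₁ 0
  b_disj : ∀ θ q (n : ℤ), Gd q → Real.exp n • Wb (θ, 0) ≠ W q
  /-- the torus `K` -/
  k_per : ∀ l ζ, Wk (l + 1, ζ) = Wk (l, ζ)
  k_loc : ∀ l ζ, ‖ζ‖ < 1 → LD Wk (l, ζ)
  k_glue : ∀ l s u : ℝ, 0 < s → s < 1 →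
    Wk (l, s * ex u) = W (u, 1 / 2 + ε * s * Real.cos (2 * Real.pi * l), 1 / 2 + ε * s * Real.sin (2 * Real.pi * l))
  k_inj : ∀ l ζ l' ζ' (n : ℤ), ‖ζ‖ < 1 → ‖ζ'‖ < 1 → Wk (l, ζ) = Real.exp n • Wk (l', ζ') →
    n = 0 ∧ ζ = ζ' ∧ ∃ m : ℤ, l' = l + m
  k_disj : ∀ l q (n : ℤ), Gd q → Real.exp n • Wk (l, 0) ≠ W q
  bk_disj : ∀ l θ (n : ℤ), Real.exp n • Wk (l, 0) ≠ Wb (θ, 0)
  /-- every point is covered -/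
  cover : ∀ x : F3, x ≠ 0 → (∃ θ, ∃ n : ℤ, x = Real.exp n • Wb (θ, 0)) ∨ (∃ l, ∃ n : ℤ, x = Real.exp n • Wk (l, 0)) ∨
    ∃ q, Gd q ∧ x = W q
  /-- the core of `K`: in the plane of real `w`, `Re w ≥ 0`; `coY = log |x|` is increasing for `1/2 < l < 1` (where
  `h > 0`) and decreasing for `0 < l < 1/2` (where `h < 0`); near the torus `coX = h / |x|` is monotone and the core
  is in the zones -/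
  core_im : ∀ l, (Wk (l, 0)).1.im = 0
  core_re : ∀ l, 0 ≤ (Wk (l, 0)).1.re
  core_pos : ∀ l, 1 / 2 < l → l < 1 → 0 < (Wk (l, 0)).2
  core_neg : ∀ l, 0 < l → l < 1 / 2 → (Wk (l, 0)).2 < 0
  core_Y1 : ∀ l, 1 / 2 < l → l < 1 → 0 < deriv (coY Wk) l
  core_Y0 : ∀ l, 0 < l → l < 1 / 2 → deriv (coY Wk) l < 0
  core_X0 : ∀ l, |l - 1 / 2| ≤ 1 / 4 → |coX Wk l| ≤ 3 * x₁ → 0 < deriv (coX Wk) l
  core_X1 : ∀ l, |l - 1| ≤ 1 / 4 → |coX Wk l| ≤ 3 * x₁ → deriv (coX Wk) l < 0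
  core_near0 : ∀ l, |l - 1 / 2| ≤ 1 / 4 → |coX Wk l| ≤ 3 * x₁ → Wk (l, 0) ∈ zone (2 * d₀) (4 * x₁) 0
  core_near1 : ∀ l, |l - 1| ≤ 1 / 4 → |coX Wk l| ≤ 3 * x₁ → Wk (l, 0) ∈ zone (2 * d₀) (4 * x₁) 1
  core_mid : 3 * x₁ < coX Wk (3 / 4) ∧ coX Wk (1 / 4) < -(3 * x₁)
  core_half : ∃ Y, 0 < Y ∧ Y < 2 * d₀ ∧ Wk (1 / 2, 0) = cyl (0, Y, 0)
  core_one : ∃ Y, 0 < Y ∧ Y < 2 * d₀ ∧ Wk (1, 0) = cyl (0, 1 - Y, 0)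

end Pool.Agent.CHW
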