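import Pool.Agent.CHW.CrM

/-!
# CHW/WxM: the periodic chart `Wx`   (difficulty 3)

`L = 4000000 = 2000²`, `k = ⌊y + 1/2⌋`: `Wx (u, y, t) = L^(k-1) • Cr u 0 t` if `y = k - 1/2`, else `L^k • W0 (u, y - k, t)`.

* `Wx_W0`: `|y - n| < 1/2` iff `⌊y + 1/2⌋ = n` and `y ≠ n - 1/2`.   `Wx_half`: `y = n + 1/2 = (n + 1) - 1/2`.
* `Wx_Cr`: `y = n + 1/2 - p`; `p > 0`: `W0_Cr`; `p = 0`: `Wx_half`; `p < 0`: `|y - (n+1)| < 1/2`, `y - (n+1) = -1/2 - p`, `Wx = L^(n+1) • W0 (u, -(1/2) - p, t)`, `W0_Cr'`.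
* `Wx_ld`: for `y ∉ 1/2 + ℤ` the integer `k` is constant near `y`, `W0_ld` and `smul_ld`.  For `y = n + 1/2`: `T12 t` (as `q ∉ OnK`), by `V1_near` and `Wx_Cr`
  `Wx (u', y', t') = L^n • Cr u' (n + 1/2 - y') t'` near `q` (`T12 t'` for `t'` near `t`): `Cr_ld` composed with an affine map.
* `Wx_neg`: `W0_neg`; for `y = n + 1/2`, `-y = (-n-1) + 1/2`, `Cr_neg` with `p = 0` (`Jv_smul`).
* `Wx_mir`, signs: `W0_mir`, `Cr_mir`, `W0_snd_pos`, `Cr_snd` (positive multiples).  `Wx_page0`: `W0_page0`, `Xp u (y + n) = L^n • Xp u y` (`ell_add`); `y = n + 1/2`: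
  `V1 0 0 = 0`, `Cr_zero`: `Cr u 0 0 = (2000 ex u, 0) = Xp u (1/2)` (`ell_half`).
-/

open scoped Manifold ContDiff Topology
open Set Filter
open Complex (I normSq)

namespace Pool.Agent.CHW

open Pool.Agent.CSG (stp thc)
open Pool.Agent.RSG (ex)

variable {P : Par}

theorem Wx_W0 (P : Par) {y : ℝ} {n : ℤ} (hy : |y - n| < 1 / 2) (u t : ℝ) :
    Wx P (u, y, t) = (4000000 : ℝ) ^ n • W0 P (u, y - n, t) := by
  rw [abs_lt] at hy
  have hf : ⌊y + 1 / 2⌋ = n := by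
    rw [Int.floor_eq_iff]
    constructor <;> linarith [hy.1, hy.2]
  unfold Wx
  simp only
  rw [hf, if_neg]
  intro h
  linarith [hy.1]

theorem Wx_half (P : Par) (n : ℤ) (u t : ℝ) : Wx P (u, n + 1 / 2, t) = (4000000 : ℝ) ^ n • Cr P u 0 t := by
  have hf : ⌊(n : ℝ) + 1 / 2 + 1 / 2⌋ = n + 1 := by
    rw [Int.floor_eq_iff]
    push_cast
    constructor <;> linarith
  unfold Wx
  simp only
  rw [hf, if_pos (by push_cast; ring)]
  congr 2
  ring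

theorem Wx_Cr (h : P.Ok) {p t : ℝ} (hp : |p| ≤ 1 / 8) (hV : ‖V1 P p t‖ ≤ 13 / 10000) (n : ℤ) (u : ℝ) :
    Wx P (u, n + 1 / 2 - p, t) = (4000000 : ℝ) ^ n • Cr P u p t := by
  rw [abs_le] at hp
  rcases lt_trichotomy p 0 with h0 | h0 | h0
  · have h1 : |(n : ℝ) + 1 / 2 - p - ((n + 1 : ℤ) : ℝ)| < 1 / 2 := by
      rw [abs_lt]
      push_cast
      constructor <;> linarith [hp.1]
    rw [Wx_W0 P h1]
    have e : (n : ℝ) + 1 / 2 - p - ((n + 1 : ℤ) : ℝ) = -(1 / 2) - p := by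
      push_cast
      ring
    rw [e, zpow_add₀ (by norm_num), zpow_one, mul_smul, W0_Cr' h h0 (by linarith [hp.1]) hV]
  · subst h0
    rw [sub_zero, Wx_half]
  · have h1 : |(n : ℝ) + 1 / 2 - p - (n : ℝ)| < 1 / 2 := by
      rw [abs_lt]
      constructor <;> linarith [hp.2]
    rw [Wx_W0 P h1]
    have e : (n : ℝ) + 1 / 2 - p - (n : ℝ) = 1 / 2 - p := by ring
    rw [e, W0_Cr h h0 hp.2 hV]

theorem Gd_shift {u y t : ℝ} (m n k : ℤ) : Gd (u + m, y + n, t + k) ↔ Gd (u, y, t) := by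
  have h1 : OnB (u + m, y + n, t + k) ↔ OnB (u, y, t) := by
    constructor
    · rintro ⟨a, b, h1, h2⟩
      refine ⟨a - m, b - n, ?_, ?_⟩
      · simp only at h1 ⊢
        push_cast
        linarith
      · simp only at h2 ⊢
        push_cast
        linarith
    · rintro ⟨a, b, h1, h2⟩
      refine ⟨a + m, b + n, ?_, ?_⟩
      · simp only at h1 ⊢
        push_cast
        linarith
      · simp only at h2 ⊢
        push_cast
        linarith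
  have h2 : OnK (u + m, y + n, t + k) ↔ OnK (u, y, t) := by
    constructor
    · rintro ⟨a, b, h1, h2⟩
      refine ⟨a - n, b - k, ?_, ?_⟩
      · simp only at h1 ⊢
        push_cast
        linarith
      · simp only at h2 ⊢
        push_cast
        linarith
    · rintro ⟨a, b, h1, h2⟩
      refine ⟨a + n, b + k, ?_, ?_⟩
      · simp only at h1 ⊢
        push_cast
        linarith
      · simp only at h2 ⊢
        push_cast
        linarith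
  unfold Gd
  rw [h1, h2]

theorem WxM_neg1 {u y t : ℝ} (hq : Gd (u, y, t)) : Gd (-u, -y, t) := by
  refine ⟨?_, ?_⟩
  · rintro ⟨a, b, h1, h2⟩
    apply hq.1
    refine ⟨-a, -b, ?_, ?_⟩
    · simp only at h1 ⊢
      push_cast
      linarith
    · simp only at h2 ⊢
      push_cast
      linarith
  · rintro ⟨a, b, h1, h2⟩
    apply hq.2
    refine ⟨-a - 1, b, ?_, h2⟩
    simp only at h1 ⊢
    push_cast
    linarith

theorem Gd_neg {u y t : ℝ} : Gd (-u, -y, t) ↔ Gd (u, y, t) := by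
  refine ⟨fun h => ?_, WxM_neg1⟩
  have := WxM_neg1 h
  rwa [neg_neg, neg_neg] at this

theorem WxM_mir1 {u y t : ℝ} (hq : Gd (u, y, t)) : Gd (u, y, -t) := by
  refine ⟨?_, ?_⟩
  · rintro ⟨a, b, h1, h2⟩
    exact hq.1 ⟨a, b, h1, h2⟩
  · rintro ⟨a, b, h1, h2⟩
    apply hq.2
    refine ⟨a, -b - 1, h1, ?_⟩
    simp only at h2 ⊢
    push_cast
    linarith

theorem Gd_mir {u y t : ℝ} : Gd (u, y, -t) ↔ Gd (u, y, t) := by
  refine ⟨fun h => ?_, WxM_mir1⟩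
  have := WxM_mir1 h
  rwa [neg_neg] at this

theorem Gd_open : IsOpen {q | Gd q} := by
  have hZ : IsClosed (range ((↑) : ℤ → ℝ)) := Int.isClosedEmbedding_coe_real.isClosed_range
  have hB : IsClosed {q : ℝ × ℝ × ℝ | OnB q} := by
    have e : {q : ℝ × ℝ × ℝ | OnB q} = (fun q : ℝ × ℝ × ℝ => q.1) ⁻¹' range ((↑) : ℤ → ℝ) ∩
        (fun q : ℝ × ℝ × ℝ => q.2.1) ⁻¹' range ((↑) : ℤ → ℝ) := by
      ext q
      constructor
      · rintro ⟨a, b, h1, h2⟩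
        exact ⟨⟨a, h1.symm⟩, ⟨b, h2.symm⟩⟩
      · rintro ⟨⟨a, h1⟩, ⟨b, h2⟩⟩
        exact ⟨a, b, h1.symm, h2.symm⟩
    rw [e]
    exact (hZ.preimage (by fun_prop)).inter (hZ.preimage (by fun_prop))
  have hK : IsClosed {q : ℝ × ℝ × ℝ | OnK q} := by
    have e : {q : ℝ × ℝ × ℝ | OnK q} = (fun q : ℝ × ℝ × ℝ => q.2.1 - 1 / 2) ⁻¹' range ((↑) : ℤ → ℝ) ∩
        (fun q : ℝ × ℝ × ℝ => q.2.2 - 1 / 2) ⁻¹' range ((↑) : ℤ → ℝ) := by
      ext q
      constructor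
      · rintro ⟨a, b, h1, h2⟩
        refine ⟨⟨a, ?_⟩, ⟨b, ?_⟩⟩
        · simp only
          rw [h1]
          ring
        · simp only
          rw [h2]
          ring
      · rintro ⟨⟨a, h1⟩, ⟨b, h2⟩⟩
        simp only at h1 h2
        exact ⟨a, b, by linarith, by linarith⟩
    rw [e]
    exact (hZ.preimage (by fun_prop)).inter (hZ.preimage (by fun_prop))
  exact hB.isOpen_compl.inter hK.isOpen_compl

/-- the two cases -/
theorem Gd_cases {u y t : ℝ} (hq : Gd (u, y, t)) :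
    (∃ n : ℤ, |y - n| < 1 / 2 ∧ ¬ LatU u (y - n)) ∨ (∃ n : ℤ, y = n + 1 / 2 ∧ T12 t) := by
  have h1 := Int.floor_le (y + 1 / 2)
  have h2 := Int.lt_floor_add_one (y + 1 / 2)
  rcases eq_or_lt_of_le h1 with h3 | h3
  · right
    refine ⟨⌊y + 1 / 2⌋ - 1, ?_, ?_⟩
    · push_cast
      linarith
    · intro k hk
      apply hq.2
      refine ⟨⌊y + 1 / 2⌋ - 1, k, ?_, hk⟩
      simp only
      push_cast
      linarith
  · left
    refine ⟨⌊y + 1 / 2⌋, ?_, ?_⟩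
    · rw [abs_lt]
      constructor <;> linarith
    · rintro ⟨m, n, hm, hn⟩
      apply hq.1
      refine ⟨m, n + ⌊y + 1 / 2⌋, hm, ?_⟩
      simp only
      push_cast
      linarith

theorem WxM_pow (n : ℤ) : (0 : ℝ) < (4000000 : ℝ) ^ n := zpow_pos (by norm_num) n

theorem Wx_ne (h : P.Ok) {q : ℝ × ℝ × ℝ} (hq : Gd q) : Wx P q ≠ 0 := by
  obtain ⟨u, y, t⟩ := q
  rcases Gd_cases hq with ⟨n, hn, hl⟩ | ⟨n, hn, ht⟩
  · rw [Wx_W0 P hn]
    apply smul_ne_zero (WxM_pow n).ne'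
    intro h0
    have h1 := W0_Sh h t hn hl
    rw [h0] at h1
    have h2 := h1.1
    rw [rr_eq_zero.2 rfl] at h2
    norm_num at h2
  · subst hn
    rw [Wx_half]
    apply smul_ne_zero (WxM_pow n).ne'
    intro h0
    have h1 := Cr_rr h u ht
    rw [h0, rr_eq_zero.2 rfl] at h1
    norm_num at h1

/-- translation in `y` -/
theorem WxM_shift_ld (a : ℝ) (q : ℝ × ℝ × ℝ) : LD (fun q : ℝ × ℝ × ℝ => (q.1, q.2.1 - a, q.2.2)) q := by
  have h := CSG.ld_of_perm (V := ℝ × ℝ × ℝ) (W := ℝ × ℝ × ℝ)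
    (f := ⟨fun q => (q.1, q.2.1 - a, q.2.2), fun q => (q.1, q.2.1 + a, q.2.2), fun q => by simp, fun q => by simp⟩)
    (by
      change ContDiff ℝ ∞ (fun q : ℝ × ℝ × ℝ => (q.1, q.2.1 - a, q.2.2))
      fun_prop)
    (by
      change ContDiff ℝ ∞ (fun q : ℝ × ℝ × ℝ => (q.1, q.2.1 + a, q.2.2))
      fun_prop) q
  exact h

/-- reflection in `y` -/
theorem WxM_refl_ld (a : ℝ) (q : ℝ × ℝ × ℝ) : LD (fun q : ℝ × ℝ × ℝ => (q.1, a - q.2.1, q.2.2)) q := by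
  have h := CSG.ld_of_perm (V := ℝ × ℝ × ℝ) (W := ℝ × ℝ × ℝ)
    (f := ⟨fun q => (q.1, a - q.2.1, q.2.2), fun q => (q.1, a - q.2.1, q.2.2), fun q => by simp, fun q => by simp⟩)
    (by
      change ContDiff ℝ ∞ (fun q : ℝ × ℝ × ℝ => (q.1, a - q.2.1, q.2.2))
      fun_prop)
    (by
      change ContDiff ℝ ∞ (fun q : ℝ × ℝ × ℝ => (q.1, a - q.2.1, q.2.2))
      fun_prop) q
  exact h

theorem Wx_ld (h : P.Ok) {q : ℝ × ℝ × ℝ} (hq : Gd q) : LD (Wx P) q := by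
  obtain ⟨u, y, t⟩ := q
  rcases Gd_cases hq with ⟨n, hn, hl⟩ | ⟨n, hn, ht⟩
  · have h1 : LD ((fun x : F3 => (4000000 : ℝ) ^ n • x) ∘ (W0 P ∘ fun q : ℝ × ℝ × ℝ => (q.1, q.2.1 - (n : ℝ), q.2.2)))
        (u, y, t) :=
      IsLocalDiffeomorphAt.comp
        (hf := IsLocalDiffeomorphAt.comp (hf := WxM_shift_ld (n : ℝ) (u, y, t)) (hg := W0_ld h t hn hl) ..)
        (hg := smul_ld (WxM_pow n).ne' _) ..
    refine CSG.ld_congr h1 ?_
    have h2 : ∀ᶠ q : ℝ × ℝ × ℝ in 𝓝 (u, y, t), |q.2.1 - n| < 1 / 2 := by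
      have hc : Continuous fun q : ℝ × ℝ × ℝ => |q.2.1 - (n : ℝ)| := by fun_prop
      exact (hc.isOpen_preimage _ isOpen_Iio).mem_nhds hn
    filter_upwards [h2] with q hq2
    exact Wx_W0 P hq2 q.1 q.2.2
  · have e0 : (n : ℝ) + 1 / 2 - y = 0 := by
      rw [hn]
      ring
    have h0 : LD (fun q : ℝ × ℝ × ℝ => Cr P q.1 q.2.1 q.2.2)
        ((fun q : ℝ × ℝ × ℝ => (q.1, (n : ℝ) + 1 / 2 - q.2.1, q.2.2)) (u, y, t)) := by
      change LD (fun q : ℝ × ℝ × ℝ => Cr P q.1 q.2.1 q.2.2) (u, (n : ℝ) + 1 / 2 - y, t)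
      rw [e0]
      exact Cr_ld h u ht
    have h1 : LD ((fun x : F3 => (4000000 : ℝ) ^ n • x) ∘ ((fun q : ℝ × ℝ × ℝ => Cr P q.1 q.2.1 q.2.2) ∘
        fun q : ℝ × ℝ × ℝ => (q.1, (n : ℝ) + 1 / 2 - q.2.1, q.2.2))) (u, y, t) :=
      IsLocalDiffeomorphAt.comp
        (hf := IsLocalDiffeomorphAt.comp (hf := WxM_refl_ld ((n : ℝ) + 1 / 2) (u, y, t)) (hg := h0) ..)
        (hg := smul_ld (WxM_pow n).ne' _) ..
    refine CSG.ld_congr h1 ?_
    have h2 := V1_near h ht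
    have hc : Tendsto (fun q : ℝ × ℝ × ℝ => ((n : ℝ) + 1 / 2 - q.2.1, q.2.2)) (𝓝 (u, y, t)) (𝓝 (0, t)) := by
      have hc1 : Continuous fun q : ℝ × ℝ × ℝ => ((n : ℝ) + 1 / 2 - q.2.1, q.2.2) := by fun_prop
      have hc2 := hc1.tendsto (u, y, t)
      have e1 : ((n : ℝ) + 1 / 2 - y, t) = ((0 : ℝ), t) := by rw [e0]
      change Tendsto _ _ (𝓝 ((n : ℝ) + 1 / 2 - y, t)) at hc2
      rwa [e1] at hc2
    filter_upwards [hc.eventually h2] with q hq2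
    have h3 := Wx_Cr h hq2.1 hq2.2 n q.1
    have e2 : (n : ℝ) + 1 / 2 - ((n : ℝ) + 1 / 2 - q.2.1) = q.2.1 := by ring
    rw [e2] at h3
    exact h3

theorem WxM_Gt_per (P : Par) (w : ℂ) (n : ℤ) : Gt P (w + n * I) = Gt P w + n * I := by
  unfold Gt
  have e1 : (w + n * I).im = w.im + n := by simp
  rw [e1, round_add_intCast]
  have e2 : w + n * I - ((round w.im + n : ℤ) : ℂ) * I = w - (round w.im : ℂ) * I := by
    push_cast
    ring
  rw [e2]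
  split_ifs
  · push_cast
    ring
  · rfl

theorem WxM_Sv_per (P : Par) (u y : ℝ) (m : ℤ) : Sv P (u + m, y) = Sv P (u, y) := by
  unfold Sv
  simp only
  have e : ((y : ℂ) + ((u + m : ℝ) : ℂ) * I) = ((y : ℂ) + (u : ℂ) * I) + m * I := by
    push_cast
    ring
  rw [e, WxM_Gt_per, z1_per]

theorem WxM_W0_per (P : Par) (u y t : ℝ) (m n : ℤ) : W0 P (u + m, y, t + n) = W0 P (u, y, t) := by
  unfold W0
  simp only
  rw [WxM_Sv_per, NM_per]

theorem Wx_per (P : Par) (u y t : ℝ) (m k : ℤ) : Wx P (u + m, y, t + k) = Wx P (u, y, t) := by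
  unfold Wx
  simp only
  rw [Cr_per, WxM_W0_per]

theorem Wx_per_y (P : Par) (u y t : ℝ) (n : ℤ) : Wx P (u, y + n, t) = (4000000 : ℝ) ^ n • Wx P (u, y, t) := by
  have hf : ⌊y + n + 1 / 2⌋ = ⌊y + 1 / 2⌋ + n := by
    rw [show y + n + 1 / 2 = y + 1 / 2 + n by ring, Int.floor_add_intCast]
  unfold Wx
  simp only
  rw [hf]
  by_cases hc : y = ⌊y + 1 / 2⌋ - 1 / 2
  · rw [if_pos hc, if_pos (by push_cast; linarith), ← mul_smul, ← zpow_add₀ (by norm_num)]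
    congr 2
    ring
  · rw [if_neg hc, if_neg (by intro h; apply hc; push_cast at h; linarith), ← mul_smul, ← zpow_add₀ (by norm_num)]
    congr 2
    · ring
    · congr 2
      push_cast
      ring

theorem Wx_neg (h : P.Ok) {u y t : ℝ} (hq : Gd (u, y, t)) : Wx P (-u, -y, t) = Jv (Wx P (u, y, t)) := by
  rcases Gd_cases hq with ⟨n, hn, hl⟩ | ⟨n, hn, ht⟩
  · have hn' : |-y - ((-n : ℤ) : ℝ)| < 1 / 2 := by
      rw [show -y - ((-n : ℤ) : ℝ) = -(y - n) by push_cast; ring, abs_neg]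
      exact hn
    rw [Wx_W0 P hn, Wx_W0 P hn', Jv_smul, ← W0_neg h t hn hl, zpow_neg]
    congr 3
    push_cast
    ring_nf
  · have e : -y = ((-n - 1 : ℤ) : ℝ) + 1 / 2 := by
      rw [hn]
      push_cast
      ring
    rw [e, Wx_half, hn, Wx_half, Jv_smul]
    have h1 := Cr_neg h (p := 0) (t := t) (by norm_num) (Or.inr ht) (-u)
    rw [neg_zero, neg_neg] at h1
    rw [h1, ← mul_smul, ← zpow_neg]
    congr 1
    rw [zpow_sub₀ (by norm_num), zpow_one]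
    field_simp

theorem WxM_mir_smul (a : ℝ) (x : F3) : mir (a • x) = a • mir x := by
  unfold mir
  refine Prod.ext rfl ?_
  simp

theorem Wx_mir (h : P.Ok) {u y t : ℝ} (hq : Gd (u, y, t)) : Wx P (u, y, -t) = mir (Wx P (u, y, t)) := by
  rcases Gd_cases hq with ⟨n, hn, hl⟩ | ⟨n, hn, ht⟩
  · rw [Wx_W0 P hn, Wx_W0 P hn, WxM_mir_smul, W0_mir h t hn hl]
  · rw [hn, Wx_half, Wx_half, WxM_mir_smul, Cr_mir h (by norm_num) (Or.inr ht)]

theorem WxM_snd (n : ℤ) (x : F3) : ((4000000 : ℝ) ^ n • x).2 = (4000000 : ℝ) ^ n * x.2 := rfl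

theorem Wx_pos (h : P.Ok) {u y t : ℝ} (hq : Gd (u, y, t)) : 0 < (Wx P (u, y, t)).2 ↔ 0 < Real.sin (2 * Real.pi * t) := by
  rcases Gd_cases hq with ⟨n, hn, hl⟩ | ⟨n, hn, ht⟩
  · rw [Wx_W0 P hn, WxM_snd, mul_pos_iff_of_pos_left (WxM_pow n), W0_snd_pos h hn hl]
  · rw [hn, Wx_half, WxM_snd, mul_pos_iff_of_pos_left (WxM_pow n), Cr_snd h ht]

theorem WxM_zero {a b : ℝ} (h1 : 0 < a ↔ 0 < b) (h2 : 0 < -a ↔ 0 < -b) : a = 0 ↔ b = 0 := by
  constructor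
  · intro h
    subst h
    simp only [lt_self_iff_false, false_iff, neg_zero, not_lt] at h1 h2
    linarith
  · intro h
    subst h
    simp only [lt_self_iff_false, iff_false, neg_zero, not_lt] at h1 h2
    linarith

theorem Wx_zero (h : P.Ok) {u y t : ℝ} (hq : Gd (u, y, t)) : (Wx P (u, y, t)).2 = 0 ↔ Real.sin (2 * Real.pi * t) = 0 := by
  apply WxM_zero (Wx_pos h hq)
  have h1 := Wx_pos h (Gd_mir.2 hq)
  rw [Wx_mir h hq, show 2 * Real.pi * -t = -(2 * Real.pi * t) by ring, Real.sin_neg] at h1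
  exact h1

theorem Wx_page0 (h : P.Ok) {u y : ℝ} (hd : ∀ m n : ℤ, (P.d₁ / 2) ^ 2 ≤ (u - m) ^ 2 + (y - n) ^ 2) :
    Wx P (u, y, 0) = Xp u y := by
  have hL : ∀ n : ℤ, Real.exp (n * Real.log 4000000) = (4000000 : ℝ) ^ n := by
    intro n
    rw [mul_comm, ← Real.rpow_def_of_pos (by norm_num), Real.rpow_intCast]
  have hX : ∀ (y : ℝ) (n : ℤ), Xp u (y + n) = (4000000 : ℝ) ^ n • Xp u y := by
    intro y n
    unfold Xp
    rw [ell_add, Real.exp_add, hL]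
    refine Prod.ext ?_ ?_
    · change ((Real.exp (ell y) * (4000000 : ℝ) ^ n : ℝ) : ℂ) * ex u = (4000000 : ℝ) ^ n • (((Real.exp (ell y) : ℝ) : ℂ) * ex u)
      rw [Complex.real_smul]
      push_cast
      ring
    · change (0 : ℝ) = (4000000 : ℝ) ^ n • (0 : ℝ)
      rw [smul_zero]
  have h1 := Int.floor_le (y + 1 / 2)
  have h2 := Int.lt_floor_add_one (y + 1 / 2)
  rcases eq_or_lt_of_le h1 with h3 | h3
  · have e : y = ((⌊y + 1 / 2⌋ - 1 : ℤ) : ℝ) + 1 / 2 := by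
      push_cast
      linarith
    generalize ⌊y + 1 / 2⌋ - 1 = n at e
    subst e
    have ht : T12 0 := by
      intro k hk
      have h4 : ((2 * k + 1 : ℤ) : ℝ) = ((0 : ℤ) : ℝ) := by
        push_cast
        linarith
      have h5 := Int.cast_injective h4
      omega
    have hv : (V1 P 0 0).im = 0 := by
      have h4 := V1_conj h 0 0
      rw [neg_zero] at h4
      have h5 := congrArg Complex.im h4
      rw [Complex.conj_im] at h5
      linarith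
    rw [Wx_half, Cr_zero h u ht, hv, add_comm, hX]
    congr 1
    have e1 : Real.sqrt ((1 / 1000) ^ 2 - 0 ^ 2) = 1 / 1000 := by
      rw [show ((1 : ℝ) / 1000) ^ 2 - 0 ^ 2 = (1 / 1000) ^ 2 by ring, Real.sqrt_sq (by norm_num)]
    rw [e1]
    have e2 : ell (1 / 2) = Real.log 2000 := by
      rw [ell_half (by norm_num)]
      ring
    unfold pol Xp
    rw [e2, Real.exp_log (by norm_num)]
    have e3 : (((2000000 : ℝ) : ℂ) * (⟨1 / 1000, 0⟩ : ℂ)) = ((2000 : ℝ) : ℂ) := by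
      rw [show (⟨1 / 1000, 0⟩ : ℂ) = ((1 / 1000 : ℝ) : ℂ) from rfl, ← Complex.ofReal_mul]
      norm_num
    rw [e3]
    simp
  · have hn : |y - (⌊y + 1 / 2⌋ : ℝ)| < 1 / 2 := by
      rw [abs_lt]
      constructor <;> linarith
    rw [Wx_W0 P hn, W0_page0 h hn (fun m => hd m _), ← hX]
    congr 1
    ring

end Pool.Agent.CHW
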