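import Pool.Agent.CHW.ElM
import Pool.Agent.CHW.AaM

/-!
# CHW/XiM: the planar map `z1`   (difficulty 2)

`xi w = (A c (Xp u y)).1`, `w = y + i u`, `|y| < 1/2`.  `Xp u y` is in the plane `h = 0` and in `Sh`, so `A c (Xp u y) = (xi w, 0)` (`A_snd_zero`), `xi w ≠ 0`
(`0 ∈ SlA`).  `A` is a bijection from `Sh` onto the complement of `SlA` which preserves the sign of the height: so `xi` is onto `ℂ - {0}` (a point `(ξ, 0)`, `ξ ≠ 0`, is not
in `SlA c`), and injective modulo `u ↦ u + 1`; `xi w = 1` iff `Xp u y = 1` (`A_id`) iff `y = 0`, `u ∈ ℤ`.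
* `z1 w = c (xi + 1)/(xi - 1)`: Moebius map of `ℂ - {0, 1}` onto `ℂ - {c, -c}` (`xi = (z + c)/(z - c)`).
* `z1_ld`: `w ↦ Xp` is an immersion into the plane: the planar map `w ↦ xi w` is smooth, and its derivative is injective, since `D A` is injective and `D A (v, 0)` has
  second component `0` (as `A (·, 0)` has second component `0`).  Use `CSG.ld_of_fderiv`.
* `z1_neg`: `A (Jv x) = Jv (A x)`, `Xp (-u) (-y) = Jv (Xp u y)`: `xi (-w) = 1 / xi w`, `z1 (-w) = - z1 w`.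
* `z1_conj`: `Xp (-u) y = cjv (Xp u y)` and `A_cjv`.
* `z1_small`: for `|y| ≤ 1/8` `rr (Xp) = exp (2π y) ∈ [1/3, 3]` (`π/4 < log 3`), so `A = id`, `xi = exp (2π w)`; `(e^{2πw} + 1)/(e^{2πw} - 1) = 1 / tanh (π w)`.
-/

open scoped Manifold ContDiff Topology
open Set Filter
open Complex (I normSq)

namespace Pool.Agent.CHW

open Pool.Agent.CSG (stp thc)
open Pool.Agent.RSG (ex)

/-- `w` is in `i ℤ` -/
def LatI (w : ℂ) : Prop := ∃ n : ℤ, w = n * I

theorem XiM_c {P : Par} (h : P.Ok) : 0 < P.c ∧ P.c ≤ 1 / 10 := by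
  have := h.c_le
  have := h.r₃_le
  have := h.d₁_le
  exact ⟨h.c_pos, by linarith⟩

theorem XiM_norm (u y : ℝ) : ‖((Real.exp (ell y) : ℂ) * ex u : ℂ)‖ = Real.exp (ell y) := by
  rw [norm_mul, Pool.Agent.RSG.ex_norm, mul_one, Complex.norm_real, Real.norm_eq_abs,
    abs_of_pos (Real.exp_pos _)]

theorem XiM_q2 (u y : ℝ) : q2 (Xp u y) = Real.exp (ell y) ^ 2 := by
  unfold q2 Xp
  rw [Complex.normSq_eq_norm_sq, XiM_norm]
  ring

theorem XiM_rr (u y : ℝ) : rr (Xp u y) = Real.exp (ell y) := by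
  unfold rr
  rw [XiM_q2, Real.sqrt_sq (Real.exp_pos _).le]

theorem XiM_mem {u y : ℝ} (hy : |y| < 1 / 2) : Xp u y ∈ Sh := by
  have h1 := ell_lt.1 hy
  obtain ⟨h2, h3⟩ := abs_lt.1 h1
  constructor
  · rw [XiM_rr, ← Real.log_lt_iff_lt_exp (by norm_num), one_div, Real.log_inv]
    exact h2
  · rw [XiM_rr, ← Real.lt_log_iff_exp_lt (by norm_num)]
    exact h3

theorem XiM_inj {u y u' y' : ℝ} (h : Xp u y = Xp u' y') : y = y' ∧ ∃ n : ℤ, u' = u + n := by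
  have h1 : Real.exp (ell y) = Real.exp (ell y') := by
    rw [← XiM_rr u, ← XiM_rr u', h]
  have h2 : y = y' := ell_mono.injective (Real.exp_injective h1)
  refine ⟨h2, ?_⟩
  subst h2
  have h3 : (Real.exp (ell y) : ℂ) * ex u = (Real.exp (ell y) : ℂ) * ex u' := congrArg Prod.fst h
  have h4 : (Real.exp (ell y) : ℂ) ≠ 0 := by exact_mod_cast (Real.exp_pos _).ne'
  exact Pool.Agent.RSG.ex_eq_iff.1 (mul_left_cancel₀ h4 h3)

/-- first component of `A` -/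
noncomputable def XiM_xi (P : Par) (w : ℂ) : ℂ := (A P.c (Xp w.im w.re)).1

theorem XiM_A {P : Par} {w : ℂ} (hw : |w.re| < 1 / 2) :
    A P.c (Xp w.im w.re) = (XiM_xi P w, 0) := by
  have h1 : (A P.c (Xp w.im w.re)).2 = 0 := (A_snd_zero (XiM_mem hw)).2 rfl
  exact Prod.ext rfl h1

theorem XiM_ne_zero {P : Par} (h : P.Ok) {w : ℂ} (hw : |w.re| < 1 / 2) : XiM_xi P w ≠ 0 := by
  obtain ⟨h0, h1⟩ := XiM_c h
  intro he
  have h2 := A_mem h0 h1 (XiM_mem (u := w.im) hw)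
  rw [XiM_A hw, he] at h2
  exact h2 (Or.inr (Or.inl rfl))

theorem XiM_A_inj {P : Par} (h : P.Ok) {x x' : F3} (hx : x ∈ Sh) (hx' : x' ∈ Sh)
    (he : A P.c x = A P.c x') : x = x' := by
  obtain ⟨h0, h1⟩ := XiM_c h
  rw [← Ai_A h0 h1 hx, he, Ai_A h0 h1 hx']

theorem XiM_Xp0 (n : ℤ) : Xp n 0 = ((1 : ℂ), (0 : ℝ)) := by
  unfold Xp
  rw [ell_zero, Real.exp_zero, Pool.Agent.RSG.ex_int]
  simp

theorem XiM_one {P : Par} (h : P.Ok) {w : ℂ} (hw : |w.re| < 1 / 2) : XiM_xi P w = 1 ↔ LatI w := by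
  have e : A P.c ((1 : ℂ), (0 : ℝ)) = ((1 : ℂ), (0 : ℝ)) := by
    have h2 : rr ((1 : ℂ), (0 : ℝ)) = 1 := by
      unfold rr q2
      simp
    apply A_id <;> rw [h2] <;> norm_num
  constructor
  · intro h1
    have h2 := XiM_A (P := P) hw
    rw [h1, ← e, ← XiM_Xp0 0] at h2
    have h3 := XiM_A_inj h (XiM_mem hw) (XiM_mem (by norm_num)) h2
    obtain ⟨h4, n, h5⟩ := XiM_inj h3
    refine ⟨-n, ?_⟩
    apply Complex.ext
    · simp [h4]
    · push_cast at h5 ⊢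
      simp
      linarith
  · rintro ⟨n, rfl⟩
    unfold XiM_xi
    have h1 : ((n : ℂ) * I).im = n ∧ ((n : ℂ) * I).re = 0 := by constructor <;> simp
    rw [h1.1, h1.2, XiM_Xp0, e]

theorem XiM_z1 (P : Par) (w : ℂ) : z1 P w = P.c * (XiM_xi P w + 1) / (XiM_xi P w - 1) := rfl

theorem XiM_sub {P : Par} (h : P.Ok) {w : ℂ} (hw : |w.re| < 1 / 2) (hl : ¬ LatI w) :
    XiM_xi P w - 1 ≠ 0 := fun h1 => hl ((XiM_one h hw).1 (sub_eq_zero.1 h1))

theorem XiM_cc {P : Par} (h : P.Ok) : (P.c : ℂ) ≠ 0 := by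
  exact_mod_cast h.c_pos.ne'

theorem z1_ne {P : Par} (h : P.Ok) {w : ℂ} (hw : |w.re| < 1 / 2) (hl : ¬ LatI w) :
    z1 P w ≠ P.c ∧ z1 P w ≠ -P.c := by
  have h1 := XiM_sub h hw hl
  have h2 := XiM_ne_zero h hw
  have h3 := XiM_cc h
  rw [XiM_z1]
  constructor
  · intro he
    rw [div_eq_iff h1] at he
    have h4 := mul_left_cancel₀ h3 he
    have h5 : (2 : ℂ) = 0 := by linear_combination h4
    exact two_ne_zero h5
  · intro he
    rw [div_eq_iff h1] at he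
    have h4 : (P.c : ℂ) * (XiM_xi P w + 1) = P.c * (-(XiM_xi P w - 1)) := by
      rw [he]; ring
    have h5 := mul_left_cancel₀ h3 h4
    have h6 : (2 : ℂ) * XiM_xi P w = 0 := by linear_combination h5
    rcases mul_eq_zero.1 h6 with h7 | h7
    · exact two_ne_zero h7
    · exact h2 h7

theorem XiM_back {P : Par} (h : P.Ok) {w : ℂ} (hw : |w.re| < 1 / 2) (hl : ¬ LatI w) :
    (z1 P w + P.c) / (z1 P w - P.c) = XiM_xi P w := by
  have h1 := XiM_sub h hw hl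
  have h3 := XiM_cc h
  have h4 : z1 P w - P.c ≠ 0 := sub_ne_zero.2 (z1_ne h hw hl).1
  rw [div_eq_iff h4, XiM_z1]
  field_simp
  ring

/-- back to `Xp` -/
theorem z1_NM {P : Par} (h : P.Ok) {w : ℂ} (hw : |w.re| < 1 / 2) (hl : ¬ LatI w) :
    (((z1 P w + P.c) / (z1 P w - P.c) : ℂ), (0 : ℝ)) = A P.c (Xp w.im w.re) := by
  rw [XiM_back h hw hl, XiM_A hw]

theorem XiM_hasF (w : ℂ) : HasFDerivAt (fun w : ℂ => (Real.exp (ell w.re) : ℂ) * ex w.im)
    (((Real.exp (ell w.re) : ℂ) * ex w.im) •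
      ((Complex.ofRealCLM.comp ((deriv ell w.re) • Complex.reCLM)) +
        ((2 * Real.pi * I : ℂ) • (Complex.ofRealCLM.comp Complex.imCLM)))) w := by
  have h1 : HasDerivAt ell (deriv ell w.re) w.re :=
    ((ell_smooth.differentiable (by simp)) w.re).hasDerivAt
  have h2 : HasFDerivAt (fun w : ℂ => ell w.re) ((deriv ell w.re) • Complex.reCLM) w :=
    h1.comp_hasFDerivAt w Complex.reCLM.hasFDerivAt
  have h3 : HasFDerivAt (fun w : ℂ => ((ell w.re : ℝ) : ℂ))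
      (Complex.ofRealCLM.comp ((deriv ell w.re) • Complex.reCLM)) w :=
    Complex.ofRealCLM.hasFDerivAt.comp w h2
  have h4 : HasFDerivAt (fun w : ℂ => ((w.im : ℝ) : ℂ)) (Complex.ofRealCLM.comp Complex.imCLM) w :=
    Complex.ofRealCLM.hasFDerivAt.comp w Complex.imCLM.hasFDerivAt
  have h5 := h3.add (h4.const_mul (2 * Real.pi * I : ℂ))
  have h6 := h5.cexp
  have e : (fun w : ℂ => (Real.exp (ell w.re) : ℂ) * ex w.im) =
      fun w : ℂ => Complex.exp (((ell w.re : ℝ) : ℂ) + 2 * Real.pi * I * ((w.im : ℝ) : ℂ)) := by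
    funext v
    unfold ex
    rw [Complex.exp_add, Complex.ofReal_exp]
    congr 2
    push_cast
    ring
  have e2 : ((Real.exp (ell w.re) : ℂ) * ex w.im) =
      Complex.exp (((ell w.re : ℝ) : ℂ) + 2 * Real.pi * I * ((w.im : ℝ) : ℂ)) := congrFun e w
  rw [e2, e]
  exact h6

theorem XiM_p_smooth : ContDiff ℝ ∞ (fun w : ℂ => (Real.exp (ell w.re) : ℂ) * ex w.im) := by
  have h1 : ContDiff ℝ ∞ fun w : ℂ => ((Real.exp (ell w.re) : ℝ) : ℂ) :=
    Complex.ofRealCLM.contDiff.comp (Real.contDiff_exp.comp (ell_smooth.comp Complex.reCLM.contDiff))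
  exact h1.mul (Pool.Agent.RSG.ex_smooth.comp Complex.imCLM.contDiff)

theorem XiM_p_ld (w : ℂ) : LD (fun w : ℂ => (Real.exp (ell w.re) : ℂ) * ex w.im) w := by
  apply Pool.Agent.CSG.ld_of_fderiv (Filter.Eventually.of_forall fun y => XiM_p_smooth.contDiffAt) rfl
  intro v hv
  rw [(XiM_hasF w).fderiv] at hv
  have h1 : ((Real.exp (ell w.re) : ℂ) * ex w.im) ≠ 0 :=
    mul_ne_zero (by exact_mod_cast (Real.exp_pos _).ne') (Pool.Agent.RSG.ex_ne _)
  have h2 : ((Real.exp (ell w.re) : ℂ) * ex w.im) *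
      (((deriv ell w.re * v.re : ℝ) : ℂ) + 2 * Real.pi * I * ((v.im : ℝ) : ℂ)) = 0 := hv
  have h3 := (mul_eq_zero.1 h2).resolve_left h1
  have h4 := congrArg Complex.re h3
  have h5 := congrArg Complex.im h3
  simp at h4 h5
  have h6 : deriv ell w.re ≠ 0 := by
    have := ell_deriv w.re
    have := Real.pi_pos
    linarith
  apply Complex.ext
  · exact h4.resolve_left h6
  · exact h5

theorem XiM_smooth {P : Par} (h : P.Ok) {w : ℂ} (hw : |w.re| < 1 / 2) : ContDiffAt ℝ ∞ (XiM_xi P) w := by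
  obtain ⟨h0, h1⟩ := XiM_c h
  have h2 : ContDiffAt ℝ ∞ (A P.c) (Xp w.im w.re) :=
    contMDiffAt_iff_contDiffAt.1 (A_ld h0 h1 (XiM_mem hw)).contMDiffAt
  have h3 : ContDiffAt ℝ ∞ (fun w : ℂ => Xp w.im w.re) w :=
    (XiM_p_smooth.prodMk contDiff_const).contDiffAt
  have h4 : ContDiffAt ℝ ∞ (fun w : ℂ => A P.c (Xp w.im w.re)) w := h2.comp w h3
  exact contDiffAt_fst.comp w h4

theorem XiM_strip {w : ℂ} (hw : |w.re| < 1 / 2) : ∀ᶠ y : ℂ in 𝓝 w, |y.re| < 1 / 2 := by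
  have h1 : IsOpen {y : ℂ | |y.re| < 1 / 2} :=
    isOpen_lt (Complex.continuous_re.abs) continuous_const
  exact h1.mem_nhds hw

theorem XiM_near {P : Par} (h : P.Ok) {w : ℂ} (hw : |w.re| < 1 / 2) (hl : ¬ LatI w) :
    ∀ᶠ y : ℂ in 𝓝 w, |y.re| < 1 / 2 ∧ ¬ LatI y := by
  have h1 : ∀ᶠ y in 𝓝 w, XiM_xi P y ≠ 1 :=
    (XiM_smooth h hw).continuousAt.eventually_ne fun h1 => hl ((XiM_one h hw).1 h1)
  filter_upwards [h1, XiM_strip hw] with y hy1 hy2
  exact ⟨hy2, fun h3 => hy1 ((XiM_one h hy2).2 h3)⟩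

theorem XiM_z1_smooth {P : Par} (h : P.Ok) {w : ℂ} (hw : |w.re| < 1 / 2) (hl : ¬ LatI w) :
    ContDiffAt ℝ ∞ (z1 P) w := by
  have h1 := XiM_smooth h hw
  have h2 : ContDiffAt ℝ ∞ (fun w => (P.c : ℂ) * (XiM_xi P w + 1) * (XiM_xi P w - 1)⁻¹) w :=
    (contDiffAt_const.mul (h1.add contDiffAt_const)).mul
      ((h1.sub contDiffAt_const).inv (XiM_sub h hw hl))
  have e : z1 P = fun w => (P.c : ℂ) * (XiM_xi P w + 1) * (XiM_xi P w - 1)⁻¹ := by
    funext v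
    rw [XiM_z1, div_eq_mul_inv]
  rw [e]
  exact h2

theorem z1_ld {P : Par} (h : P.Ok) {w : ℂ} (hw : |w.re| < 1 / 2) (hl : ¬ LatI w) : LD (z1 P) w := by
  obtain ⟨h0, h1⟩ := XiM_c h
  have hp := XiM_p_ld w
  have hz := (z1_ne h hw hl).1
  have hA := A_mem h0 h1 (XiM_mem (u := w.im) hw)
  apply Pool.Agent.RSG.ld_left (g := fun z : ℂ => hp.localInverse
    (Ai P.c (((z + P.c) / (z - P.c) : ℂ), (0 : ℝ))).1) _ rfl
  · have d1 : DifferentiableAt ℝ (fun z : ℂ => (((z + P.c) / (z - P.c) : ℂ), (0 : ℝ))) (z1 P w) := by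
      have d0 : ContDiffAt ℝ ∞ (fun z : ℂ => (z + P.c) * (z - P.c)⁻¹) (z1 P w) :=
        (contDiffAt_id.add contDiffAt_const).mul
          ((contDiffAt_id.sub contDiffAt_const).inv (sub_ne_zero.2 hz))
      have d0' : DifferentiableAt ℝ (fun z : ℂ => (z + P.c) / (z - P.c)) (z1 P w) := by
        simp only [div_eq_mul_inv]
        exact d0.differentiableAt (by simp)
      exact d0'.prodMk (differentiableAt_const _)
    have d2 : DifferentiableAt ℝ (Ai P.c) (((z1 P w + P.c) / (z1 P w - P.c) : ℂ), (0 : ℝ)) := by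
      rw [z1_NM h hw hl]
      exact (contMDiffAt_iff_contDiffAt.1 (Ai_ld h0 h1 hA).contMDiffAt).differentiableAt (by simp)
    have d3 : DifferentiableAt ℝ (fun z : ℂ => (Ai P.c (((z + P.c) / (z - P.c) : ℂ), (0 : ℝ))).1)
        (z1 P w) := differentiableAt_fst.comp _ (DifferentiableAt.comp (z1 P w) d2 d1)
    have e : (Ai P.c (((z1 P w + P.c) / (z1 P w - P.c) : ℂ), (0 : ℝ))).1 =
        (Real.exp (ell w.re) : ℂ) * ex w.im := by
      rw [z1_NM h hw hl, Ai_A h0 h1 (XiM_mem hw)]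
      rfl
    have d4 : DifferentiableAt ℝ hp.localInverse
        ((Ai P.c (((z1 P w + P.c) / (z1 P w - P.c) : ℂ), (0 : ℝ))).1) := by
      rw [e]
      exact (contMDiffAt_iff_contDiffAt.1
        hp.localInverse_isLocalDiffeomorphAt.contMDiffAt).differentiableAt (by simp)
    exact DifferentiableAt.comp (z1 P w) d4 d3
  · have e1 : ∀ᶠ y in 𝓝 w, hp.localInverse ((Real.exp (ell y.re) : ℂ) * ex y.im) = y := by
      have := hp.localInverse_eventuallyEq_left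
      filter_upwards [this] with y hy
      exact hy
    filter_upwards [XiM_near h hw hl, e1] with y hy1 hy2
    show hp.localInverse (Ai P.c (((z1 P y + P.c) / (z1 P y - P.c) : ℂ), (0 : ℝ))).1 = y
    rw [z1_NM h hy1.1 hy1.2, Ai_A h0 h1 (XiM_mem hy1.1)]
    exact hy2
  · filter_upwards [XiM_near h hw hl] with y hy
    exact XiM_z1_smooth h hy.1 hy.2

theorem z1_inj {P : Par} (h : P.Ok) {w w' : ℂ} (hw : |w.re| < 1 / 2) (hl : ¬ LatI w) (hw' : |w'.re| < 1 / 2)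
    (hl' : ¬ LatI w') (he : z1 P w = z1 P w') : ∃ n : ℤ, w' = w + n * I := by
  have h1 := z1_NM h hw hl
  rw [he, z1_NM h hw' hl'] at h1
  have h2 := XiM_A_inj h (XiM_mem hw') (XiM_mem hw) h1
  obtain ⟨h3, n, h4⟩ := XiM_inj h2.symm
  refine ⟨n, ?_⟩
  apply Complex.ext
  · simp [h3]
  · simp [h4]

theorem z1_surj {P : Par} (h : P.Ok) {z : ℂ} (h1 : z ≠ P.c) (h2 : z ≠ -P.c) :
    ∃ w : ℂ, |w.re| < 1 / 2 ∧ ¬ LatI w ∧ z1 P w = z := by
  obtain ⟨c0, c1⟩ := XiM_c h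
  have hc := XiM_cc h
  have hz1 : z - P.c ≠ 0 := sub_ne_zero.2 h1
  have hz2 : z + P.c ≠ 0 := fun he => h2 (eq_neg_of_add_eq_zero_left he)
  have hξ0 : (z + P.c) / (z - P.c) ≠ 0 := div_ne_zero hz2 hz1
  obtain ⟨ξ, hξ⟩ : ∃ ξ : ℂ, ξ = (z + P.c) / (z - P.c) := ⟨_, rfl⟩
  rw [← hξ] at hξ0
  have hS : (ξ, (0 : ℝ)) ∉ SlA P.c := by
    rintro (⟨-, h3⟩ | h3 | ⟨-, h3⟩)
    · simp at h3
      linarith
    · exact hξ0 (congrArg Prod.fst h3)
    · have h4 : (Jv (ξ, (0 : ℝ))).2 = 0 := Jv_snd_zero.2 rfl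
      rw [h4, abs_zero] at h3
      linarith
  obtain ⟨x, hx⟩ : ∃ x, x = Ai P.c (ξ, (0 : ℝ)) := ⟨_, rfl⟩
  have hxS : x ∈ Sh := by rw [hx]; exact Ai_mem c0 c1 hS
  have hxA : A P.c x = (ξ, 0) := by rw [hx]; exact A_Ai c0 c1 hS
  have hx2 : x.2 = 0 := by
    rw [← A_snd_zero hxS, hxA]
  have hxr : rr x = ‖x.1‖ := by
    unfold rr q2
    rw [hx2, Complex.normSq_eq_norm_sq]
    rw [zero_pow two_ne_zero, add_zero, Real.sqrt_sq (norm_nonneg _)]
  have hx1 := hxS.1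
  have hx1' := hxS.2
  rw [hxr] at hx1 hx1'
  have hpos : 0 < ‖x.1‖ := by linarith
  obtain ⟨y, hy⟩ := ell_surj (Real.log ‖x.1‖)
  have hX : Xp (Complex.arg x.1 / (2 * Real.pi)) y = x := by
    apply Prod.ext
    · show (Real.exp (ell y) : ℂ) * ex (Complex.arg x.1 / (2 * Real.pi)) = x.1
      rw [hy, Real.exp_log hpos, Pool.Agent.RSG.ex_arg]
    · exact hx2.symm
  have hy2 : |y| < 1 / 2 := by
    rw [ell_lt, hy, abs_lt]
    constructor
    · rw [← Real.log_inv]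
      apply Real.log_lt_log (by norm_num)
      rw [← one_div]
      exact hx1
    · exact Real.log_lt_log hpos hx1'
  obtain ⟨w, hwr, hwi⟩ : ∃ w : ℂ, w.re = y ∧ w.im = Complex.arg x.1 / (2 * Real.pi) :=
    ⟨⟨y, Complex.arg x.1 / (2 * Real.pi)⟩, rfl, rfl⟩
  have hw : |w.re| < 1 / 2 := by rw [hwr]; exact hy2
  have hxi : XiM_xi P w = ξ := by
    unfold XiM_xi
    rw [hwr, hwi, hX, hxA]
  have hξ1 : ξ - 1 = 2 * P.c / (z - P.c) := by
    rw [hξ]
    field_simp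
    ring
  have hξ1' : ξ - 1 ≠ 0 := by
    rw [hξ1]
    exact div_ne_zero (mul_ne_zero two_ne_zero hc) hz1
  refine ⟨w, hw, ?_, ?_⟩
  · intro hl
    have := (XiM_one h hw).2 hl
    rw [hxi] at this
    exact hξ1' (sub_eq_zero.2 this)
  · rw [XiM_z1, hxi, div_eq_iff hξ1', hξ1, hξ]
    field_simp
    ring

theorem XiM_neg (u y : ℝ) : Xp (-u) (-y) = Jv (Xp u y) := by
  have hq := XiM_q2 u y
  have hE : (Real.exp (ell y) : ℂ) ≠ 0 := by exact_mod_cast (Real.exp_pos _).ne'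
  apply Prod.ext
  · show (Real.exp (ell (-y)) : ℂ) * ex (-u) = (starRingEnd ℂ) ((Real.exp (ell y) : ℂ) * ex u) / ((q2 (Xp u y) : ℝ) : ℂ)
    rw [hq, map_mul, Complex.conj_ofReal, ← Pool.Agent.RSG.ex_neg, ell_neg, Real.exp_neg]
    push_cast at hE ⊢
    field_simp
  · show (0 : ℝ) = 0 / q2 (Xp u y)
    rw [zero_div]

theorem z1_neg {P : Par} (h : P.Ok) {w : ℂ} (hw : |w.re| < 1 / 2) (hl : ¬ LatI w) : z1 P (-w) = -z1 P w := by
  obtain ⟨c0, c1⟩ := XiM_c h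
  have h0 := XiM_ne_zero h hw
  have h1 := XiM_sub h hw hl
  have h2 : XiM_xi P (-w) = (XiM_xi P w)⁻¹ := by
    have e : (-w).im = -w.im ∧ (-w).re = -w.re := ⟨Complex.neg_im _, Complex.neg_re _⟩
    have e2 : A P.c (Xp (-w).im (-w).re) = Jv (XiM_xi P w, 0) := by
      rw [e.1, e.2, XiM_neg, A_Jv c0 c1 (XiM_mem hw), XiM_A hw]
    unfold XiM_xi at e2 ⊢
    rw [e2]
    unfold Jv q2
    simp only
    rw [zero_pow two_ne_zero, add_zero, Complex.inv_def]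
    rw [div_eq_mul_inv]
    push_cast
    ring
  rw [XiM_z1, XiM_z1, h2]
  have h3 : (XiM_xi P w)⁻¹ - 1 ≠ 0 := by
    intro h4
    apply h1
    have h5 : (XiM_xi P w)⁻¹ = 1 := sub_eq_zero.1 h4
    rw [← inv_inv (XiM_xi P w), h5, inv_one, sub_self]
  rw [div_eq_iff h3]
  field_simp
  ring

theorem z1_conj (P : Par) (w : ℂ) : z1 P ((starRingEnd ℂ) w) = (starRingEnd ℂ) (z1 P w) := by
  have h1 : Xp ((starRingEnd ℂ) w).im ((starRingEnd ℂ) w).re = cjv (Xp w.im w.re) := by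
    rw [Complex.conj_im, Complex.conj_re]
    apply Prod.ext
    · show (Real.exp (ell w.re) : ℂ) * ex (-w.im) = (starRingEnd ℂ) ((Real.exp (ell w.re) : ℂ) * ex w.im)
      rw [map_mul, Complex.conj_ofReal, ← Pool.Agent.RSG.ex_neg]
    · rfl
  unfold z1
  rw [h1, A_cjv]
  simp [cjv]

theorem z1_per (P : Par) (w : ℂ) (n : ℤ) : z1 P (w + n * I) = z1 P w := by
  have h1 : Xp (w + n * I).im (w + n * I).re = Xp w.im w.re := by
    have e : (w + n * I).im = w.im + n ∧ (w + n * I).re = w.re := by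
      constructor <;> simp
    rw [e.1, e.2]
    unfold Xp
    rw [Pool.Agent.RSG.ex_add_int]
  unfold z1
  rw [h1]

theorem z1_small {P : Par} (h : P.Ok) {w : ℂ} (hw : |w.re| ≤ 1 / 8) :
    z1 P w = P.c / Complex.tanh (Real.pi * w) := by
  have hpi := Real.pi_pos
  have hpi2 := Real.pi_lt_four
  have h1 := ell_small hw
  obtain ⟨h2, h3⟩ := abs_le.1 hw
  have he := Real.exp_one_lt_d9
  have h4 : rr (Xp w.im w.re) ≤ 3 := by
    rw [XiM_rr, h1]
    have : Real.exp (2 * Real.pi * w.re) ≤ Real.exp 1 := by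
      apply Real.exp_le_exp.2
      nlinarith
    linarith
  have h5 : 1 / 3 ≤ rr (Xp w.im w.re) := by
    rw [XiM_rr, h1]
    have h6 : Real.exp (-1) ≤ Real.exp (2 * Real.pi * w.re) := by
      apply Real.exp_le_exp.2
      nlinarith
    have h7 : (1 : ℝ) / 3 ≤ Real.exp (-1) := by
      rw [Real.exp_neg, one_div]
      apply inv_anti₀ (Real.exp_pos _)
      linarith
    linarith
  have h6 : XiM_xi P w = Complex.exp (Real.pi * w) * Complex.exp (Real.pi * w) := by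
    unfold XiM_xi
    rw [A_id h5 h4]
    show (Real.exp (ell w.re) : ℂ) * ex w.im = _
    rw [h1]
    unfold ex
    rw [Complex.ofReal_exp, ← Complex.exp_add, ← Complex.exp_add]
    congr 1
    conv_rhs => rw [← Complex.re_add_im w]
    push_cast
    ring
  rw [XiM_z1, h6, Complex.tanh, Complex.cosh, Complex.sinh]
  have hE : Complex.exp (Real.pi * w) ≠ 0 := Complex.exp_ne_zero _
  have h7 : Complex.exp (-(Real.pi * w)) = (Complex.exp (Real.pi * w))⁻¹ := Complex.exp_neg _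
  rw [h7]
  generalize Complex.exp (Real.pi * w) = E at hE
  have e1 : E * E + 1 = (E * 2) * ((E + E⁻¹) / 2) := by
    field_simp
  have e2 : E * E - 1 = (E * 2) * ((E - E⁻¹) / 2) := by
    field_simp
  rw [e1, e2, mul_left_comm, mul_div_mul_left _ _ (mul_ne_zero hE two_ne_zero)]
  exact (div_div_eq_mul_div _ _ _).symm

end Pool.Agent.CHW
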